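import Pool.Agent.LT.Defs2

/-!
# Aizenman-Lieb lifting in dual form: `D3 d → D4 d`
(MP_4c716f_mp, module AL; mathematics: helper15 and others; Lean: helper26)
-/

set_option autoImplicit false

namespace Pool.Agent.LT

open MeasureTheory Matrix Finset
open scoped ComplexConjugate ComplexOrder ContDiff

namespace AL

variable {d : ℕ}

/-- the family `M • g` -/
noncomputable def act {n m : ℕ} (M : Matrix (Fin n) (Fin m) ℂ) (g : Fin m → (Fin d → ℝ) → ℂ) :
    Fin n → (Fin d → ℝ) → ℂ := fun j y => ∑ a, M j a * g a y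

/-- partial derivative -/
noncomputable def pd (i : Fin d) (f : (Fin d → ℝ) → ℂ) : (Fin d → ℝ) → ℂ :=
  fun y => fderiv ℝ f y (Pi.single i 1)

/-- matrix of a weighted `L²` pairing -/
noncomputable def wM {m : ℕ} (W : (Fin d → ℝ) → ℝ) (g : Fin m → (Fin d → ℝ) → ℂ) :
    Matrix (Fin m) (Fin m) ℂ :=
  Matrix.of fun a b => ∫ y, (W y : ℂ) * (g a y * conj (g b y))

/-- continuous with compact support -/
def CK (f : (Fin d → ℝ) → ℂ) : Prop := Continuous f ∧ HasCompactSupport f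

theorem CK_of_test {f : (Fin d → ℝ) → ℂ} (hf : TestFn d f) : CK f := ⟨hf.1.continuous, hf.2⟩

theorem test_pd {f : (Fin d → ℝ) → ℂ} (hf : TestFn d f) (i : Fin d) : TestFn d (pd i f) := by
  refine ⟨?_, hf.2.fderiv_apply (𝕜 := ℝ) _⟩
  have h1 : ContDiff ℝ ∞ (fderiv ℝ f) := hf.1.fderiv_right (by simp)
  exact h1.clm_apply contDiff_const

theorem test_act {n m : ℕ} (M : Matrix (Fin n) (Fin m) ℂ) {g : Fin m → (Fin d → ℝ) → ℂ}
    (hg : ∀ a, TestFn d (g a)) (j : Fin n) : TestFn d (act M g j) := by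
  refine ⟨?_, ?_⟩
  · refine ContDiff.sum fun a _ => contDiff_const.mul (hg a).1
  · have h : ∀ s : Finset (Fin m), HasCompactSupport (fun y => ∑ a ∈ s, M j a * g a y) := by
      intro s
      induction s using Finset.induction_on with
      | empty =>
        have h0 : (fun y : Fin d → ℝ => ∑ a ∈ (∅ : Finset (Fin m)), M j a * g a y) = 0 := by
          ext y; simp
        rw [h0]
        exact HasCompactSupport.zero
      | insert a s ha ih =>
        have h2 : (fun y => ∑ b ∈ insert a s, M j b * g b y) =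
            (fun y => M j a * g a y) + fun y => ∑ b ∈ s, M j b * g b y := by
          ext y
          simp [Finset.sum_insert ha]
        rw [h2]
        exact ((hg a).2.mul_left (f := fun _ => M j a)).add ih
    exact h univ

theorem pd_act {n m : ℕ} (M : Matrix (Fin n) (Fin m) ℂ) {g : Fin m → (Fin d → ℝ) → ℂ}
    (hg : ∀ a, TestFn d (g a)) (j : Fin n) (i : Fin d) :
    pd i (act M g j) = act M (fun a => pd i (g a)) j := by
  ext y
  unfold pd act
  have hd : ∀ a, DifferentiableAt ℝ (g a) y := fun a => ((hg a).1.differentiable (by simp)) y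
  have h1 : HasFDerivAt (fun y => ∑ a, M j a * g a y) (∑ a, M j a • fderiv ℝ (g a) y) y := by
    refine HasFDerivAt.fun_sum fun a _ => ?_
    exact (hd a).hasFDerivAt.const_mul (M j a)
  rw [h1.fderiv]
  simp

theorem act_mul {n m k : ℕ} (M : Matrix (Fin n) (Fin m) ℂ) (M' : Matrix (Fin m) (Fin k) ℂ)
    (g : Fin k → (Fin d → ℝ) → ℂ) : act (M * M') g = act M (act M' g) := by
  ext j y
  unfold act
  simp only [Matrix.mul_apply, Finset.sum_mul, Finset.mul_sum]
  rw [Finset.sum_comm]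
  refine Finset.sum_congr rfl fun a _ => Finset.sum_congr rfl fun b _ => by ring

theorem act_one {m : ℕ} (g : Fin m → (Fin d → ℝ) → ℂ) : act (1 : Matrix (Fin m) (Fin m) ℂ) g = g := by
  ext j y
  unfold act
  simp [Matrix.one_apply]

theorem int_CK (W : (Fin d → ℝ) → ℝ) (hW : Continuous W) {f g : (Fin d → ℝ) → ℂ} (hf : CK f)
    (hg : CK g) : Integrable (fun y => (W y : ℂ) * (f y * conj (g y))) volume := by
  refine Continuous.integrable_of_hasCompactSupport ?_ ?_
  · exact (Complex.continuous_ofReal.comp hW).mul (hf.1.mul (Complex.continuous_conj.comp hg.1))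
  · exact HasCompactSupport.mul_left (hf.2.mul_right)

theorem wM_act {n m : ℕ} (W : (Fin d → ℝ) → ℝ) (hW : Continuous W) (M : Matrix (Fin n) (Fin m) ℂ)
    {g : Fin m → (Fin d → ℝ) → ℂ} (hg : ∀ a, CK (g a)) :
    wM W (act M g) = M * wM W g * Mᴴ := by
  ext i j
  simp only [wM, act, Matrix.of_apply, Matrix.mul_apply, Matrix.conjTranspose_apply]
  have h1 : ∀ y, (W y : ℂ) * ((∑ a, M i a * g a y) * conj (∑ a, M j a * g a y)) =
      ∑ b, ∑ a, (M i a * conj (M j b)) * ((W y : ℂ) * (g a y * conj (g b y))) := by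
    intro y
    rw [map_sum, Finset.sum_mul_sum, Finset.sum_comm, Finset.mul_sum]
    refine Finset.sum_congr rfl fun b _ => ?_
    rw [Finset.mul_sum]
    refine Finset.sum_congr rfl fun a _ => ?_
    rw [map_mul]
    ring
  simp only [h1]
  rw [integral_finsetSum _ fun b _ => integrable_finsetSum _ fun a _ =>
    (int_CK W hW (hg a) (hg b)).const_mul _]
  refine Finset.sum_congr rfl fun b _ => ?_
  rw [integral_finsetSum _ fun a _ => (int_CK W hW (hg a) (hg b)).const_mul _, Finset.sum_mul]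
  refine Finset.sum_congr rfl fun a _ => ?_
  rw [integral_const_mul]
  simp only [RCLike.star_def]
  ring

/-- quadratic form matrix -/
noncomputable def QM {m : ℕ} (V : (Fin d → ℝ) → ℝ) (g : Fin m → (Fin d → ℝ) → ℂ) :
    Matrix (Fin m) (Fin m) ℂ :=
  ∑ i, wM 1 (fun a => pd i (g a)) - wM V g

theorem gramF_eq {m : ℕ} (g : Fin m → (Fin d → ℝ) → ℂ) : gramF g = wM 1 g := by
  ext a b
  simp [gramF, wM]

theorem QM_act {n m : ℕ} (V : (Fin d → ℝ) → ℝ) (hV : Continuous V)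
    (M : Matrix (Fin n) (Fin m) ℂ) {g : Fin m → (Fin d → ℝ) → ℂ} (hg : ∀ a, TestFn d (g a)) :
    QM V (act M g) = M * QM V g * Mᴴ := by
  unfold QM
  rw [Matrix.mul_sub, Matrix.sub_mul, wM_act V hV M fun a => CK_of_test (hg a), Matrix.mul_sum,
    Matrix.sum_mul]
  congr 1
  refine Finset.sum_congr rfl fun i _ => ?_
  rw [← wM_act 1 (by exact continuous_const) M fun a => CK_of_test (test_pd (hg a) i)]
  congr 1
  ext j y
  rw [pd_act M hg]

theorem gramF_act {n m : ℕ} (M : Matrix (Fin n) (Fin m) ℂ) {g : Fin m → (Fin d → ℝ) → ℂ}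
    (hg : ∀ a, TestFn d (g a)) : gramF (act M g) = M * gramF g * Mᴴ := by
  rw [gramF_eq, gramF_eq, wM_act 1 (by exact continuous_const) M fun a => CK_of_test (hg a)]

theorem wM_herm {m : ℕ} (W : (Fin d → ℝ) → ℝ) (g : Fin m → (Fin d → ℝ) → ℂ) :
    (wM W g).IsHermitian := by
  ext a b
  simp only [Matrix.conjTranspose_apply, wM, Matrix.of_apply, RCLike.star_def]
  rw [← integral_conj]
  congr 1
  ext y
  simp [mul_comm]

theorem QM_herm {m : ℕ} (V : (Fin d → ℝ) → ℝ) (g : Fin m → (Fin d → ℝ) → ℂ) :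
    (QM V g).IsHermitian := by
  unfold QM
  refine Matrix.IsHermitian.sub ?_ (wM_herm V g)
  unfold Matrix.IsHermitian
  rw [Matrix.conjTranspose_sum]
  exact Finset.sum_congr rfl fun i _ => wM_herm _ _

theorem int_sq {W : (Fin d → ℝ) → ℝ} (hW : Continuous W) {f : (Fin d → ℝ) → ℂ} (hf : CK f) :
    Integrable (fun y => W y * ‖f y‖ ^ 2) volume := by
  have := (int_CK W hW hf hf).re
  refine this.congr (Filter.Eventually.of_forall fun y => ?_)
  simp only [Complex.mul_conj, Complex.normSq_eq_norm_sq, ← Complex.ofReal_mul,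
    RCLike.re_to_complex, Complex.ofReal_re]

theorem trace_wM {m : ℕ} (W : (Fin d → ℝ) → ℝ) (hW : Continuous W) {g : Fin m → (Fin d → ℝ) → ℂ}
    (hg : ∀ a, CK (g a)) : (Matrix.trace (wM W g)).re = ∫ y, W y * ∑ j, ‖g j y‖ ^ 2 := by
  have h1 : ∀ j, (wM W g j j) = ((∫ y, W y * ‖g j y‖ ^ 2 : ℝ) : ℂ) := by
    intro j
    simp only [wM, Matrix.of_apply]
    rw [← integral_complex_ofReal]
    congr 1
    ext y
    rw [Complex.mul_conj, Complex.normSq_eq_norm_sq]
    push_cast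
    ring
  have h2 : ∀ j, Integrable (fun y => W y * ‖g j y‖ ^ 2) volume := fun j => int_sq hW (hg j)
  simp only [Matrix.trace, Matrix.diag, h1]
  rw [Complex.re_sum]
  simp only [Complex.ofReal_re]
  rw [← integral_finsetSum _ fun j _ => h2 j]
  congr 1
  ext y
  rw [Finset.mul_sum]

theorem formE_eq {m : ℕ} (V : (Fin d → ℝ) → ℝ) (hV : Continuous V)
    {g : Fin m → (Fin d → ℝ) → ℂ} (hg : ∀ a, TestFn d (g a)) :
    formE V g = (Matrix.trace (QM V g)).re := by
  unfold formE QM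
  rw [Matrix.trace_sub, Complex.sub_re, trace_wM V hV fun a => CK_of_test (hg a)]
  congr 1
  rw [Matrix.trace_sum, Complex.re_sum]
  simp only [kinE]
  rw [Finset.sum_comm]
  refine Finset.sum_congr rfl fun i _ => ?_
  rw [trace_wM 1 (by exact continuous_const) fun a => CK_of_test (test_pd (hg a) i)]
  simp only [Pi.one_apply, one_mul]
  rw [integral_finsetSum]
  · rfl
  · intro j _
    have := (int_CK 1 (by exact continuous_const) (CK_of_test (test_pd (hg j) i))
      (CK_of_test (test_pd (hg j) i))).re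
    refine this.congr (Filter.Eventually.of_forall fun y => ?_)
    simp only [Complex.mul_conj, Complex.normSq_eq_norm_sq, Pi.one_apply, ← Complex.ofReal_mul,
      RCLike.re_to_complex, Complex.ofReal_re]
    rw [one_mul]

theorem memLp_test {f : (Fin d → ℝ) → ℂ} (hf : TestFn d f) : MemLp f 2 volume :=
  hf.1.continuous.memLp_of_hasCompactSupport hf.2

/-- class in `L²` -/
noncomputable def cl (f : (Fin d → ℝ) → ℂ) (hf : TestFn d f) :
    Lp ℂ 2 (volume : Measure (Fin d → ℝ)) := (memLp_test hf).toLp f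

theorem cl_ae {f : (Fin d → ℝ) → ℂ} (hf : TestFn d f) : (cl f hf : (Fin d → ℝ) → ℂ) =ᵐ[volume] f :=
  (memLp_test hf).coeFn_toLp

theorem sum_ae {N : ℕ} (F : Fin N → Lp ℂ 2 (volume : Measure (Fin d → ℝ)))
    (f : Fin N → (Fin d → ℝ) → ℂ) (h : ∀ j, (F j : (Fin d → ℝ) → ℂ) =ᵐ[volume] f j) (c : Fin N → ℂ) :
    ((∑ j, c j • F j : Lp ℂ 2 (volume : Measure (Fin d → ℝ))) : (Fin d → ℝ) → ℂ) =ᵐ[volume]
      fun y => ∑ j, c j * f j y := by
  have h1 : ∀ᵐ y, ∀ j, (c j • F j : Lp ℂ 2 (volume : Measure (Fin d → ℝ))) y = c j * f j y := by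
    rw [ae_all_iff]
    intro j
    filter_upwards [h j, Lp.coeFn_smul (c j) (F j)] with y h2 h3
    rw [h3, Pi.smul_apply, h2, smul_eq_mul]
  filter_upwards [h1, Lp.coeFn_finsetSum univ fun j => c j • F j] with y h2 h3
  rw [h3, Finset.sum_apply]
  exact Finset.sum_congr rfl fun j _ => h2 j

theorem exists_onb {N : ℕ} (f : Fin N → (Fin d → ℝ) → ℂ) (hf : ∀ j, TestFn d (f j)) :
    ∃ (m : ℕ) (g : Fin m → (Fin d → ℝ) → ℂ) (T : Matrix (Fin N) (Fin m) ℂ),
      (∀ a, TestFn d (g a)) ∧ gramF g = 1 ∧ f = act T g := by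
  classical
  set F : Fin N → Lp ℂ 2 (volume : Measure (Fin d → ℝ)) := fun j => cl (f j) (hf j) with hF
  have hFf : ∀ j, (F j : (Fin d → ℝ) → ℂ) =ᵐ[volume] f j := fun j => cl_ae (hf j)
  obtain ⟨W, hW⟩ : ∃ W : Submodule ℂ (Lp ℂ 2 (volume : Measure (Fin d → ℝ))),
    W = Submodule.span ℂ (Set.range F) := ⟨_, rfl⟩
  have hmem : ∀ x, x ∈ W ↔ ∃ c : Fin N → ℂ, ∑ j, c j • F j = x := by
    intro x
    rw [hW, Submodule.mem_span_range_iff_exists_fun]
  have hFW : ∀ j, F j ∈ W := fun j => by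
    rw [hW]
    exact Submodule.subset_span ⟨j, rfl⟩
  have hfin : FiniteDimensional ℂ W := by
    rw [hW]
    exact FiniteDimensional.span_of_finite ℂ (Set.finite_range F)
  set b := stdOrthonormalBasis ℂ W with hb
  have hc : ∀ a, ∃ c : Fin N → ℂ, ∑ j, c j • F j =
      (b a : Lp ℂ 2 (volume : Measure (Fin d → ℝ))) := fun a => (hmem _).1 (b a).2
  choose c hc using hc
  set C : Matrix (Fin (Module.finrank ℂ W)) (Fin N) ℂ := Matrix.of c with hC
  have hg : ∀ a, TestFn d (act C f a) := fun a => test_act C hf a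
  have hcl : ∀ a, ((b a : Lp ℂ 2 (volume : Measure (Fin d → ℝ))) : (Fin d → ℝ) → ℂ)
      =ᵐ[volume] act C f a := by
    intro a
    rw [← hc a]
    exact sum_ae F f hFf (c a)
  refine ⟨_, act C f, Matrix.of fun j a => inner ℂ (b a) (⟨F j, hFW j⟩ : W), hg, ?_, ?_⟩
  · ext i j
    rw [gramF, Matrix.of_apply, Matrix.one_apply]
    have h1 := orthonormal_iff_ite.1 b.orthonormal j i
    rw [Submodule.coe_inner, L2.inner_def] at h1
    have h2 : ∫ y, act C f i y * conj (act C f j y) = if j = i then 1 else 0 := by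
      rw [← h1]
      refine integral_congr_ae ?_
      filter_upwards [hcl i, hcl j] with y hi hj
      rw [hi, hj]
      simp
    rw [h2]
    simp only [eq_comm]
  · ext j y
    have h1 : (F j : Lp ℂ 2 (volume : Measure (Fin d → ℝ))) =
        ∑ a, (inner ℂ (b a) (⟨F j, hFW j⟩ : W)) • (b a : Lp ℂ 2 (volume : Measure (Fin d → ℝ))) := by
      have h2 := congrArg (Subtype.val) (b.sum_repr' (⟨F j, hFW j⟩ : W))
      refine h2.symm.trans ?_
      simp
    have h3 : (f j) =ᵐ[volume] act (Matrix.of fun j a => inner ℂ (b a) (⟨F j, hFW j⟩ : W))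
        (act C f) j := by
      refine (hFf j).symm.trans ?_
      rw [h1]
      exact sum_ae _ _ hcl _
    have h4 := (Continuous.ae_eq_iff_eq volume (hf j).1.continuous
      (test_act _ hg j).1.continuous).1 h3
    exact congrFun h4 y

theorem exists_diag {N : ℕ} (V : (Fin d → ℝ) → ℝ) (hV : Continuous V)
    (f : Fin N → (Fin d → ℝ) → ℂ) (hf : ∀ j, TestFn d (f j)) :
    ∃ (m : ℕ) (g : Fin m → (Fin d → ℝ) → ℂ) (e : Fin m → ℝ) (T : Matrix (Fin N) (Fin m) ℂ),
      (∀ a, TestFn d (g a)) ∧ gramF g = 1 ∧ QM V g = Matrix.diagonal (fun a => (e a : ℂ)) ∧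
        f = act T g := by
  obtain ⟨m, g, T, hg, h1, h2⟩ := exists_onb f hf
  have hK := QM_herm V g
  set U : Matrix (Fin m) (Fin m) ℂ := (hK.eigenvectorUnitary : Matrix (Fin m) (Fin m) ℂ) with hU
  have hUU : Uᴴ * U = 1 := Unitary.coe_star_mul_self hK.eigenvectorUnitary
  have hUU' : U * Uᴴ = 1 := Unitary.coe_mul_star_self hK.eigenvectorUnitary
  have hsp : QM V g = U * Matrix.diagonal (fun a => (hK.eigenvalues a : ℂ)) * Uᴴ := by
    have := hK.spectral_theorem
    rw [Unitary.conjStarAlgAut_apply] at this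
    exact this
  refine ⟨m, act Uᴴ g, hK.eigenvalues, T * U, fun a => test_act _ hg a, ?_, ?_, ?_⟩
  · rw [gramF_act _ hg, h1, Matrix.mul_one, Matrix.conjTranspose_conjTranspose, hUU]
  · rw [QM_act V hV _ hg, Matrix.conjTranspose_conjTranspose]
    conv_lhs => rw [hsp]
    rw [← Matrix.mul_assoc, ← Matrix.mul_assoc, hUU, Matrix.one_mul, Matrix.mul_assoc, hUU,
      Matrix.mul_one]
  · rw [← act_mul, Matrix.mul_assoc, hUU', Matrix.mul_one, h2]

/-- truncated potential -/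
noncomputable def tr (V : (Fin d → ℝ) → ℝ) (μ : ℝ) : (Fin d → ℝ) → ℝ := fun y => max (V y - μ) 0

theorem pot_tr {V : (Fin d → ℝ) → ℝ} (hV : PotFn d V) {μ : ℝ} (hμ : 0 ≤ μ) : PotFn d (tr V μ) := by
  refine ⟨(hV.1.sub continuous_const).max continuous_const, ?_, fun y => le_max_right _ _⟩
  refine hV.2.1.mono ?_
  intro y hy
  rw [Function.mem_support] at hy ⊢
  intro h
  apply hy
  simp only [tr, h]
  exact max_eq_right (by linarith)

theorem int_rpow {V : (Fin d → ℝ) → ℝ} (hV : PotFn d V) {p : ℝ} (hp : 0 < p) :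
    Integrable (fun y => V y ^ p) volume := by
  refine Continuous.integrable_of_hasCompactSupport ?_ ?_
  · exact hV.1.rpow_const fun y => Or.inr hp.le
  · refine hV.2.1.mono ?_
    intro y hy
    rw [Function.mem_support] at hy ⊢
    intro h
    apply hy
    rw [h, Real.zero_rpow hp.ne']

theorem formE_le {m : ℕ} {V : (Fin d → ℝ) → ℝ} (hV : PotFn d V) {μ : ℝ} (hμ : 0 ≤ μ)
    {g : Fin m → (Fin d → ℝ) → ℂ} (hg : ∀ a, TestFn d (g a)) :
    formE (tr V μ) g ≤ formE V g + μ * (Matrix.trace (gramF g)).re := by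
  have hc : ∀ W : (Fin d → ℝ) → ℝ, Continuous W →
      Integrable (fun y => W y * ∑ j, ‖g j y‖ ^ 2) volume := by
    intro W hW
    simp only [Finset.mul_sum]
    exact integrable_finsetSum _ fun j _ => int_sq hW (CK_of_test (hg j))
  rw [gramF_eq, trace_wM 1 (by exact continuous_const) fun a => CK_of_test (hg a)]
  unfold formE
  have h1 : ∫ y, V y * ∑ j, ‖g j y‖ ^ 2 ≤ (∫ y, tr V μ y * ∑ j, ‖g j y‖ ^ 2) +
      μ * ∫ y, (1 : (Fin d → ℝ) → ℝ) y * ∑ j, ‖g j y‖ ^ 2 := by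
    rw [← integral_const_mul, ← integral_add (hc _ (pot_tr hV hμ).1)
      ((hc 1 (by exact continuous_const)).const_mul μ)]
    refine integral_mono (hc V hV.1) ((hc _ (pot_tr hV hμ).1).add
      ((hc 1 (by exact continuous_const)).const_mul μ)) fun y => ?_
    have h2 : 0 ≤ ∑ j, ‖g j y‖ ^ 2 := Finset.sum_nonneg fun j _ => by positivity
    have h3 : V y ≤ tr V μ y + μ := by
      have := le_max_left (V y - μ) 0
      simp only [tr]
      linarith
    simp only [Pi.one_apply, one_mul]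
    nlinarith
  linarith

theorem pt_ineq (e μ s z : ℝ) (hs : s = max (-e - μ) 0) (hz : z = √(s / 3)) :
    z * e + μ * z + z ^ 3 ≤ -(2 / (3 * √3)) * s ^ (3 / 2 : ℝ) := by
  have hs0 : 0 ≤ s := by rw [hs]; exact le_max_right _ _
  have h3 : (0:ℝ) < √3 := by positivity
  have h33 : √3 * √3 = 3 := Real.mul_self_sqrt (by norm_num)
  have hz2 : z ^ 2 = s / 3 := by rw [hz]; exact Real.sq_sqrt (by positivity)
  have h1 : s ^ (3 / 2 : ℝ) = s * √s := by
    rcases hs0.eq_or_lt with h | h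
    · rw [← h, Real.zero_rpow (by norm_num)]; simp
    · rw [show (3 / 2 : ℝ) = 1 + 1 / 2 by norm_num, Real.rpow_add h, Real.rpow_one,
        Real.sqrt_eq_rpow]
  have hz3 : z = √s / √3 := by rw [hz, Real.sqrt_div hs0]
  have hse : s * (e + μ) = -(s * s) := by
    rcases le_total (-e - μ) 0 with h | h
    · rw [max_eq_right h] at hs
      rw [hs]; ring
    · rw [max_eq_left h] at hs
      rw [hs]; ring
  have hze : z * (e + μ) = -(z * s) := by
    rcases hs0.eq_or_lt with h | h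
    · rw [hz3, ← h]; simp
    · have : e + μ = -s := by
        have := mul_left_cancel₀ h.ne' (hse.trans (show -(s * s) = s * (-s) by ring))
        exact this
      rw [this]; ring
  have h4 : z * e + μ * z + z ^ 3 = -(2 / 3) * (s * z) := by
    have : z ^ 3 = z * (s / 3) := by rw [← hz2]; ring
    rw [this]
    linear_combination hze
  rw [h4, h1, hz3]
  apply le_of_eq
  field_simp

theorem stepD (h3 : D3 d) {m : ℕ} {V : (Fin d → ℝ) → ℝ} (hV : PotFn d V)
    {g : Fin m → (Fin d → ℝ) → ℂ} (hg : ∀ a, TestFn d (g a)) (hG : gramF g = 1) {e : Fin m → ℝ}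
    (hQ : QM V g = Matrix.diagonal (fun a => (e a : ℂ))) {μ : ℝ} (hμ : 0 ≤ μ) :
    ∑ a, (max (-e a - μ) 0) ^ (3 / 2 : ℝ) ≤
      Lcl (3 / 2) d * ∫ y, (tr V μ y) ^ ((3 + d : ℝ) / 2) := by
  set s : Fin m → ℝ := fun a => max (-e a - μ) 0 with hs
  set z : Fin m → ℝ := fun a => √(s a / 3) with hz
  have hz0 : ∀ a, 0 ≤ z a := fun a => Real.sqrt_nonneg _
  set M : Matrix (Fin m) (Fin m) ℂ := Matrix.diagonal (fun a => ((√(z a) : ℝ) : ℂ)) with hM
  have hMM : ∀ w : Fin m → ℝ, M * Matrix.diagonal (fun a => (w a : ℂ)) * Mᴴ =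
      Matrix.diagonal (fun a => ((z a * w a : ℝ) : ℂ)) := by
    intro w
    rw [hM, Matrix.diagonal_conjTranspose, Matrix.diagonal_mul_diagonal,
      Matrix.diagonal_mul_diagonal]
    congr 1
    ext a
    have : ((√(z a) : ℝ) : ℂ) * ((√(z a) : ℝ) : ℂ) = (z a : ℂ) := by
      rw [← Complex.ofReal_mul, Real.mul_self_sqrt (hz0 a)]
    simp only [Pi.star_apply, RCLike.star_def, Complex.conj_ofReal, Complex.ofReal_mul]
    rw [← this]
    ring
  have hgm : gramF (act M g) = Matrix.diagonal (fun a => (z a : ℂ)) := by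
    rw [gramF_act M hg, hG]
    have := hMM (fun _ => 1)
    simpa using this
  have hqm : QM V (act M g) = Matrix.diagonal (fun a => ((z a * e a : ℝ) : ℂ)) := by
    rw [QM_act V hV.1 M hg, hQ, hMM]
  have hta : ∀ a, TestFn d (act M g a) := fun a => test_act M hg a
  have h5 := h3 m (act M g) (tr V μ) hta (pot_tr hV hμ) 1 one_pos
  have h6 := formE_le hV hμ hta
  rw [formE_eq V hV.1 hta, hqm, hgm, Matrix.trace_diagonal, Matrix.trace_diagonal,
    Complex.re_sum, Complex.re_sum] at h6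
  rw [hgm, Matrix.diagonal_pow, Matrix.trace_diagonal, Complex.re_sum, Real.sqrt_one, div_one] at h5
  simp only [Complex.ofReal_re, Pi.pow_apply, ← Complex.ofReal_pow] at h5 h6
  have h7 : ∑ a, (z a * e a + μ * z a + z a ^ 3) ≤ ∑ a, -(2 / (3 * √3)) * s a ^ (3 / 2 : ℝ) :=
    Finset.sum_le_sum fun a _ => pt_ineq (e a) μ (s a) (z a) rfl rfl
  rw [Finset.sum_add_distrib, Finset.sum_add_distrib, ← Finset.mul_sum, ← Finset.mul_sum] at h7
  have hc : (0:ℝ) < 2 / (3 * √3) := by positivity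
  have h8 : 2 / (3 * √3) * ∑ a, s a ^ (3 / 2 : ℝ) ≤
      2 / (3 * √3) * (Lcl (3 / 2) d * ∫ y, (tr V μ y) ^ ((3 + d : ℝ) / 2)) := by
    linarith
  exact le_of_mul_le_mul_left h8 hc

theorem lint_beta1 (α β E : ℝ) (hα : 0 < α) (hβ : 0 < β) (hE : 0 < E) :
    ∫⁻ μ in Set.Ioo 0 E, ENNReal.ofReal (μ ^ (α - 1) * (E - μ) ^ (β - 1)) =
      ENNReal.ofReal (E ^ (α + β - 1) * ProbabilityTheory.beta α β) := by
  have hb := ProbabilityTheory.beta_pos hα hβ
  have h1 : ∫⁻ x in Set.Ioo (0:ℝ) 1, ENNReal.ofReal (1 / ProbabilityTheory.beta α β * x ^ (α - 1) *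
      (1 - x) ^ (β - 1)) = 1 := by
    rw [← ProbabilityTheory.lintegral_betaPDF]
    exact ProbabilityTheory.lintegral_betaPDF_eq_one hα hβ
  have him : (fun x : ℝ => E * x) '' (Set.Ioo 0 1) = Set.Ioo 0 E := by
    rw [Set.image_mul_left_Ioo hE]
    simp
  rw [← him, lintegral_image_eq_lintegral_abs_deriv_mul (f' := fun _ => E) measurableSet_Ioo
    (fun x _ => by simpa using ((hasDerivAt_id x).const_mul E).hasDerivWithinAt)
    (fun x _ y _ h => mul_left_cancel₀ hE.ne' h)]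
  have h2 : ∀ x ∈ Set.Ioo (0:ℝ) 1, ENNReal.ofReal |E| * ENNReal.ofReal ((E * x) ^ (α - 1) *
      (E - E * x) ^ (β - 1)) = ENNReal.ofReal (E ^ (α + β - 1) * ProbabilityTheory.beta α β) *
      ENNReal.ofReal (1 / ProbabilityTheory.beta α β * x ^ (α - 1) * (1 - x) ^ (β - 1)) := by
    intro x hx
    have hx0 := hx.1
    have hx1 : 0 < 1 - x := by linarith [hx.2]
    rw [← ENNReal.ofReal_mul (abs_nonneg _), ← ENNReal.ofReal_mul
      (mul_nonneg (Real.rpow_nonneg hE.le _) hb.le)]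
    congr 1
    rw [abs_of_pos hE, show E - E * x = E * (1 - x) by ring, Real.mul_rpow hE.le hx0.le,
      Real.mul_rpow hE.le hx1.le, show α + β - 1 = 1 + (α - 1) + (β - 1) by ring,
      Real.rpow_add hE, Real.rpow_add hE, Real.rpow_one]
    field_simp
  rw [setLIntegral_congr_fun measurableSet_Ioo h2, lintegral_const_mul' _ _ ENNReal.ofReal_ne_top,
    h1, mul_one]

theorem lint_beta (α β E : ℝ) (hα : 0 < α) (hβ : 1 < β) :
    ∫⁻ μ in Set.Ioi 0, ENNReal.ofReal (μ ^ (α - 1) * (max (E - μ) 0) ^ (β - 1)) =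
      ENNReal.ofReal ((max E 0) ^ (α + β - 1) * ProbabilityTheory.beta α β) := by
  have hz : (0 : ℝ) ^ (β - 1) = 0 := Real.zero_rpow (by linarith)
  rcases le_or_gt E 0 with hE | hE
  · rw [setLIntegral_eq_zero measurableSet_Ioi, max_eq_right hE, Real.zero_rpow (by linarith)]
    · simp
    · intro μ hμ
      have : max (E - μ) 0 = 0 := max_eq_right (by have := Set.mem_Ioi.1 hμ; linarith)
      simp [this, hz]
  · rw [← Set.Ioo_union_Ici_eq_Ioi hE, lintegral_union measurableSet_Ici, max_eq_left hE.le]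
    · rw [setLIntegral_eq_zero measurableSet_Ici, add_zero, ← lint_beta1 α β E hα (by linarith) hE]
      · refine setLIntegral_congr_fun measurableSet_Ioo fun μ hμ => ?_
        rw [max_eq_left (by linarith [hμ.2])]
      · intro μ hμ
        have : max (E - μ) 0 = 0 := max_eq_right (by have := Set.mem_Ici.1 hμ; linarith)
        simp [this, hz]
    · rw [Set.disjoint_left]
      intro x hx hx'
      exact absurd hx.2 (not_lt.2 hx')

theorem Lcl_pos (γ : ℝ) (hγ : 0 ≤ γ) (d : ℕ) : 0 < Lcl γ d := by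
  unfold Lcl
  have h1 : 0 < Real.Gamma (γ + 1) := Real.Gamma_pos_of_pos (by linarith)
  have h2 : 0 < Real.Gamma (γ + 1 + d / 2) := Real.Gamma_pos_of_pos (by positivity)
  have h3 : (0:ℝ) < (4 * Real.pi) ^ ((d : ℝ) / 2) := Real.rpow_pos_of_pos (by positivity) _
  positivity

theorem Lcl_beta (d : ℕ) : Lcl (3 / 2) d * ProbabilityTheory.beta (1 / 2) ((5 + d) / 2) =
    Lcl 2 d * ProbabilityTheory.beta (1 / 2) (5 / 2) := by
  unfold Lcl ProbabilityTheory.beta
  have e1 : (3 / 2 + 1 + (d : ℝ) / 2) = (5 + d) / 2 := by ring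
  have e2 : (1 / 2 + (5 + (d : ℝ)) / 2) = 2 + 1 + d / 2 := by ring
  have e3 : (1 / 2 + 5 / 2 : ℝ) = 2 + 1 := by norm_num
  have e4 : (3 / 2 + 1 : ℝ) = 5 / 2 := by norm_num
  rw [e1, e2, e3, e4]
  have h1 : Real.Gamma ((5 + d) / 2) ≠ 0 := (Real.Gamma_pos_of_pos (by positivity)).ne'
  have h2 : Real.Gamma (2 + 1 + (d:ℝ) / 2) ≠ 0 := (Real.Gamma_pos_of_pos (by positivity)).ne'
  have h3 : Real.Gamma (2 + 1) ≠ 0 := (Real.Gamma_pos_of_pos (by positivity)).ne'
  have h4 : ((4 * Real.pi) ^ ((d : ℝ) / 2)) ≠ 0 := (Real.rpow_pos_of_pos (by positivity) _).ne'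
  field_simp

theorem stepE (h3 : D3 d) {m : ℕ} {V : (Fin d → ℝ) → ℝ} (hV : PotFn d V)
    {g : Fin m → (Fin d → ℝ) → ℂ} (hg : ∀ a, TestFn d (g a)) (hG : gramF g = 1) {e : Fin m → ℝ}
    (hQ : QM V g = Matrix.diagonal (fun a => (e a : ℂ))) :
    ∑ a, (max (-e a) 0) ^ 2 ≤ Lcl 2 d * ∫ y, V y ^ ((4 + d : ℝ) / 2) := by
  have hb1 := ProbabilityTheory.beta_pos (α := 1 / 2) (β := 5 / 2) (by norm_num) (by norm_num)
  have hb2 := ProbabilityTheory.beta_pos (α := 1 / 2) (β := (5 + d) / 2) (by norm_num)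
    (by positivity)
  have hL := Lcl_pos (3 / 2) (by norm_num) d
  -- left side
  have hl : ∫⁻ μ in Set.Ioi (0:ℝ), ENNReal.ofReal (μ ^ ((1 / 2 : ℝ) - 1) *
      ∑ a, (max (-e a - μ) 0) ^ (3 / 2 : ℝ)) =
      ENNReal.ofReal (ProbabilityTheory.beta (1 / 2) (5 / 2) * ∑ a, (max (-e a) 0) ^ 2) := by
    have h1 : ∀ μ ∈ Set.Ioi (0:ℝ), ENNReal.ofReal (μ ^ ((1 / 2 : ℝ) - 1) *
        ∑ a, (max (-e a - μ) 0) ^ (3 / 2 : ℝ)) =
        ∑ a, ENNReal.ofReal (μ ^ ((1 / 2 : ℝ) - 1) * (max (-e a - μ) 0) ^ ((5 / 2 : ℝ) - 1)) := by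
      intro μ hμ
      have hμ0 : 0 < μ := hμ
      rw [← ENNReal.ofReal_sum_of_nonneg fun a _ => by positivity, Finset.mul_sum]
      norm_num
    rw [setLIntegral_congr_fun measurableSet_Ioi h1, lintegral_finsetSum]
    · simp only [lint_beta _ _ _ (show (0:ℝ) < 1 / 2 by norm_num) (show (1:ℝ) < 5 / 2 by norm_num)]
      rw [← ENNReal.ofReal_sum_of_nonneg fun a _ => by positivity, Finset.mul_sum]
      congr 1
      refine Finset.sum_congr rfl fun a _ => ?_
      rw [mul_comm]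
      congr 1
      rw [show (1 / 2 + 5 / 2 - 1 : ℝ) = ((2:ℕ):ℝ) by norm_num, Real.rpow_natCast]
    · intro a _
      fun_prop
  -- right side
  have hVm : Measurable V := hV.1.measurable
  have hr : ∫⁻ μ in Set.Ioi (0:ℝ), ENNReal.ofReal (μ ^ ((1 / 2 : ℝ) - 1) *
      (Lcl (3 / 2) d * ∫ y, (tr V μ y) ^ ((3 + d : ℝ) / 2))) =
      ENNReal.ofReal (Lcl (3 / 2) d * ProbabilityTheory.beta (1 / 2) ((5 + d) / 2) *
        ∫ y, V y ^ ((4 + d : ℝ) / 2)) := by
    have h1 : ∀ μ ∈ Set.Ioi (0:ℝ), ENNReal.ofReal (μ ^ ((1 / 2 : ℝ) - 1) *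
        (Lcl (3 / 2) d * ∫ y, (tr V μ y) ^ ((3 + d : ℝ) / 2))) =
        ∫⁻ y, ENNReal.ofReal (Lcl (3 / 2) d) * ENNReal.ofReal (μ ^ ((1 / 2 : ℝ) - 1) *
          (max (V y - μ) 0) ^ ((5 + d : ℝ) / 2 - 1)) := by
      intro μ hμ
      have hμ0 : 0 < μ := hμ
      have hi := int_rpow (pot_tr hV hμ0.le) (show (0:ℝ) < (3 + d : ℝ) / 2 by positivity)
      rw [show μ ^ ((1 / 2 : ℝ) - 1) * (Lcl (3 / 2) d * ∫ y, (tr V μ y) ^ ((3 + d : ℝ) / 2)) =
        ∫ y, Lcl (3 / 2) d * (μ ^ ((1 / 2 : ℝ) - 1) * (tr V μ y) ^ ((3 + d : ℝ) / 2)) by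
          rw [integral_const_mul, integral_const_mul]; ring]
      rw [ofReal_integral_eq_lintegral_ofReal]
      · refine lintegral_congr fun y => ?_
        rw [← ENNReal.ofReal_mul hL.le]
        congr 4
        ring
      · exact (hi.const_mul _).const_mul _
      · refine Filter.Eventually.of_forall fun y => ?_
        have : 0 ≤ tr V μ y := (pot_tr hV hμ0.le).2.2 y
        simp only [Pi.zero_apply]
        positivity
    rw [setLIntegral_congr_fun measurableSet_Ioi h1, lintegral_lintegral_swap]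
    · have h2 : ∀ y, ∫⁻ μ in Set.Ioi (0:ℝ), ENNReal.ofReal (Lcl (3 / 2) d) *
          ENNReal.ofReal (μ ^ ((1 / 2 : ℝ) - 1) * (max (V y - μ) 0) ^ ((5 + d : ℝ) / 2 - 1)) =
          ENNReal.ofReal (Lcl (3 / 2) d * ProbabilityTheory.beta (1 / 2) ((5 + d) / 2) *
            V y ^ ((4 + d : ℝ) / 2)) := by
        intro y
        have hd : (1:ℝ) < (5 + d) / 2 := by
          have : (0:ℝ) ≤ d := Nat.cast_nonneg d
          linarith
        rw [lintegral_const_mul' _ _ ENNReal.ofReal_ne_top,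
          lint_beta _ _ _ (show (0:ℝ) < 1 / 2 by norm_num) hd, ← ENNReal.ofReal_mul hL.le,
          max_eq_left (hV.2.2 y)]
        congr 1
        rw [show (1 / 2 + (5 + (d:ℝ)) / 2 - 1) = (4 + d) / 2 by ring]
        ring
      simp only [h2]
      have hi := int_rpow hV (show (0:ℝ) < (4 + d : ℝ) / 2 by positivity)
      rw [← ofReal_integral_eq_lintegral_ofReal (hi.const_mul _), integral_const_mul]
      refine Filter.Eventually.of_forall fun y => ?_
      have : 0 ≤ V y := hV.2.2 y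
      simp only [Pi.zero_apply]
      positivity
    · refine Measurable.aemeasurable ?_
      have hV2 : Measurable fun p : ℝ × (Fin d → ℝ) => V p.2 := hVm.comp measurable_snd
      simp only [Function.uncurry_def]
      fun_prop
  have hle : ∫⁻ μ in Set.Ioi (0:ℝ), ENNReal.ofReal (μ ^ ((1 / 2 : ℝ) - 1) *
      ∑ a, (max (-e a - μ) 0) ^ (3 / 2 : ℝ)) ≤ ∫⁻ μ in Set.Ioi (0:ℝ),
      ENNReal.ofReal (μ ^ ((1 / 2 : ℝ) - 1) *
      (Lcl (3 / 2) d * ∫ y, (tr V μ y) ^ ((3 + d : ℝ) / 2))) := by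
    refine setLIntegral_mono' measurableSet_Ioi fun μ hμ => ?_
    have hμ0 : 0 < μ := hμ
    refine ENNReal.ofReal_le_ofReal (mul_le_mul_of_nonneg_left ?_ (by positivity))
    exact stepD h3 hV hg hG hQ hμ0.le
  rw [hl, hr] at hle
  have hint : 0 ≤ ∫ y, V y ^ ((4 + d : ℝ) / 2) :=
    integral_nonneg fun y => Real.rpow_nonneg (hV.2.2 y) _
  rw [ENNReal.ofReal_le_ofReal_iff (by positivity), Lcl_beta] at hle
  have : ProbabilityTheory.beta (1 / 2) (5 / 2) * ∑ a, (max (-e a) 0) ^ 2 ≤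
      ProbabilityTheory.beta (1 / 2) (5 / 2) * (Lcl 2 d * ∫ y, V y ^ ((4 + d : ℝ) / 2)) := by
    linarith
  exact le_of_mul_le_mul_left this hb1

theorem stepF {N m : ℕ} (T : Matrix (Fin N) (Fin m) ℂ) (e : Fin m → ℝ) (A : ℝ) (hA : 0 < A) :
    -(1 / (4 * A)) * ∑ a, (max (-e a) 0) ^ 2 ≤
      (Matrix.trace (T * Matrix.diagonal (fun a => (e a : ℂ)) * Tᴴ)).re +
        A * (Matrix.trace ((T * (1 : Matrix (Fin m) (Fin m) ℂ) * Tᴴ) ^ 2)).re := by
  set P : Matrix (Fin m) (Fin m) ℂ := Tᴴ * T with hP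
  have hPP : Pᴴ = P := by
    rw [hP, Matrix.conjTranspose_mul, Matrix.conjTranspose_conjTranspose]
  set n : Fin m → ℝ := fun a => ∑ j, ‖T j a‖ ^ 2 with hn
  have hPa : ∀ a, P a a = (n a : ℂ) := by
    intro a
    rw [hP, Matrix.mul_apply, hn]
    push_cast
    refine Finset.sum_congr rfl fun j _ => ?_
    rw [Matrix.conjTranspose_apply, RCLike.star_def, mul_comm, Complex.mul_conj,
      Complex.normSq_eq_norm_sq]
    norm_cast
  have h1 : (Matrix.trace (T * Matrix.diagonal (fun a => (e a : ℂ)) * Tᴴ)).re = ∑ a, e a * n a := by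
    rw [Matrix.trace_mul_comm, ← Matrix.mul_assoc, ← hP, Matrix.trace, Complex.re_sum]
    refine Finset.sum_congr rfl fun a _ => ?_
    rw [Matrix.diag_apply, Matrix.mul_diagonal, hPa, ← Complex.ofReal_mul, Complex.ofReal_re,
      mul_comm]
  have h2 : ∑ a, n a ^ 2 ≤ (Matrix.trace ((T * (1 : Matrix (Fin m) (Fin m) ℂ) * Tᴴ) ^ 2)).re := by
    have h3 : Matrix.trace ((T * (1 : Matrix (Fin m) (Fin m) ℂ) * Tᴴ) ^ 2) = Matrix.trace (P * P) := by
      rw [Matrix.mul_one, pow_two, Matrix.trace_mul_comm, ← Matrix.mul_assoc, hP]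
      rw [Matrix.trace_mul_comm]
      simp only [Matrix.mul_assoc]
    rw [h3, Matrix.trace, Complex.re_sum]
    refine Finset.sum_le_sum fun a _ => ?_
    rw [Matrix.diag_apply, Matrix.mul_apply, Complex.re_sum]
    have h4 : ∀ b, (P a b * P b a).re = ‖P a b‖ ^ 2 := by
      intro b
      have : P b a = conj (P a b) := by
        conv_lhs => rw [← hPP]
        rfl
      rw [this, Complex.mul_conj, Complex.normSq_eq_norm_sq, Complex.ofReal_re]
    simp only [h4]
    have h5 : n a ^ 2 = ‖P a a‖ ^ 2 := by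
      rw [hPa, Complex.norm_real, Real.norm_eq_abs, sq_abs]
    rw [h5]
    exact Finset.single_le_sum (f := fun b => ‖P a b‖ ^ 2) (fun b _ => by positivity)
      (Finset.mem_univ a)
  rw [h1]
  have h6 : ∀ a, -(1 / (4 * A)) * (max (-e a) 0) ^ 2 ≤ e a * n a + A * n a ^ 2 := by
    intro a
    have hn0 : 0 ≤ n a := Finset.sum_nonneg fun j _ => by positivity
    have h7 : -(max (-e a) 0) * n a ≤ e a * n a := by
      refine mul_le_mul_of_nonneg_right ?_ hn0
      have := le_max_left (-e a) 0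
      linarith
    have h8 : 0 ≤ (2 * A * n a - max (-e a) 0) ^ 2 / (4 * A) := by positivity
    have h9 : (2 * A * n a - max (-e a) 0) ^ 2 / (4 * A) =
        A * n a ^ 2 - max (-e a) 0 * n a + 1 / (4 * A) * (max (-e a) 0) ^ 2 := by
      field_simp
      ring
    rw [h9] at h8
    linarith
  calc _ = ∑ a, -(1 / (4 * A)) * (max (-e a) 0) ^ 2 := by rw [Finset.mul_sum]
    _ ≤ ∑ a, (e a * n a + A * n a ^ 2) := Finset.sum_le_sum fun a _ => h6 a
    _ = ∑ a, e a * n a + A * ∑ a, n a ^ 2 := by rw [Finset.sum_add_distrib, Finset.mul_sum]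
    _ ≤ _ := by
      have := mul_le_mul_of_nonneg_left h2 hA.le
      linarith

end AL

theorem al : ALStmt := by
  intro d h3 N f V hf hV A hA
  obtain ⟨m, g, e, T, hg, hG, hQ, hfT⟩ := AL.exists_diag V hV.1 f hf
  have h1 := AL.stepE h3 hV hg hG hQ
  have h2 := AL.stepF T e A hA
  rw [AL.formE_eq V hV.1 hf, hfT, AL.QM_act V hV.1 T hg, AL.gramF_act T hg, hQ, hG]
  refine le_trans ?_ h2
  have h3 := mul_le_mul_of_nonneg_left h1 (show 0 ≤ 1 / (4 * A) by positivity)
  have h4 : Lcl 2 d / (4 * A) * ∫ y, V y ^ ((4 + d : ℝ) / 2) =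
      1 / (4 * A) * (Lcl 2 d * ∫ y, V y ^ ((4 + d : ℝ) / 2)) := by ring
  rw [h4]
  linarith

end Pool.Agent.LT
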