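import Pool.Agent.LT.Defs2

/-!
# Lieb-Thirring inequalities for exponents between 1 and 3/2: definitions and module statements
(MP_4c716f_mp; mathematics: helper15)

Goal: `L_{γ,d} ≤ (2/√3)^(3-2γ) L^cl_{γ,d}` for `1 < γ < 3/2`, all `d ≥ 1`.
-/

set_option autoImplicit false

namespace Pool.Agent.LT

open MeasureTheory Matrix Finset
open scoped ComplexConjugate ComplexOrder ContDiff ENNReal

/-! ## The operator valued cubic-quintic inequality -/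

/-- `q (S)` for a real polynomial -/
noncomputable def mpoly {N : ℕ} (q : Polynomial ℝ) (S : Matrix (Fin N) (Fin N) ℂ) :
    Matrix (Fin N) (Fin N) ℂ :=
  ∑ n ∈ range (q.natDegree + 1), (q.coeff n : ℂ) • S ^ n

/-- the derivative of `q` at `S` in the direction `P` -/
noncomputable def dmpoly {N : ℕ} (q : Polynomial ℝ) (S P : Matrix (Fin N) (Fin N) ℂ) :
    Matrix (Fin N) (Fin N) ℂ :=
  ∑ n ∈ range (q.natDegree + 1), (q.coeff n : ℂ) • ∑ k ∈ range n, S ^ k * P * S ^ (n - 1 - k)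

/-- `F_a(z) = ((2/a) tan (a z/2) - z) / a²` -/
noncomputable def Fa (a z : ℝ) : ℝ := (2 / a * Real.tan (a * z / 2) - z) / a ^ 2

/-- (PW3) pointwise lower bound with the additional terms `tr (q(S) P)` and `tr r(S)`,
`r' = -q²`. (`q = -(C/2) X` is `PW2Stmt`.) -/
def PW3Stmt : Prop :=
  ∀ (N : ℕ) (H : Type) [NormedAddCommGroup H] [InnerProductSpace ℂ H] (p q : Polynomial ℝ)
    (S : Matrix (Fin N) (Fin N) ℂ) (hS : S.IsHermitian) (v w : Fin N → H)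
    (P' : Matrix (Fin N) (Fin N) ℂ),
    P' = (hS.eigenvectorUnitary : Matrix (Fin N) (Fin N) ℂ)ᴴ * gram v *
      (hS.eigenvectorUnitary : Matrix (Fin N) (Fin N) ℂ) →
    -(∑ i, ∑ j, ∑ k, (P' i j * P' j k * P' k i).re *
        (p.eval (hS.eigenvalues i + hS.eigenvalues k) * p.eval (hS.eigenvalues j + hS.eigenvalues k)
          + dd p (hS.eigenvalues i + hS.eigenvalues k) (hS.eigenvalues j + hS.eigenvalues k))) -
      (∑ i, ∑ j, ‖P' i j‖ ^ 2 * (p.eval (hS.eigenvalues i + hS.eigenvalues j) *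
        (q.eval (hS.eigenvalues i) + q.eval (hS.eigenvalues j)) +
          dd q (hS.eigenvalues i) (hS.eigenvalues j)))
      ≤ (∑ i, ‖w i‖ ^ 2) - dcalG p S (gram v) (gramD v w) -
        (Matrix.trace (mpoly q S * gramD v w)).re -
        (Matrix.trace (dmpoly q S (gram v) * gram v)).re +
        (Matrix.trace (mpoly q S * mpoly q S * gram v)).re

/-- (CALC3) `tr (q(S) P) + tr r(S)`, `r' = -q²`, is absolutely continuous with the derivative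
`tr (q(S) Q) + tr (Dq(S)[P] P) - tr (q(S)² P)`. -/
def Calc3Stmt : Prop :=
  ∀ (N : ℕ) (q r : Polynomial ℝ) (S P Q : ℝ → Matrix (Fin N) (Fin N) ℂ),
    r.derivative = -q ^ 2 →
    (∀ i j, ACv (fun x => S x i j) (fun x => P x i j)) →
    (∀ i j, ACv (fun x => P x i j) (fun x => Q x i j)) →
    ACv (fun x => (Matrix.trace (mpoly q (S x) * P x)).re + (Matrix.trace (mpoly r (S x))).re)
      (fun x => (Matrix.trace (mpoly q (S x) * Q x)).re +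
        (Matrix.trace (dmpoly q (S x) (P x) * P x)).re -
        (Matrix.trace (mpoly q (S x) * mpoly q (S x) * P x)).re)

/-- (POLY3) polynomial approximation of `p = (a/2) cot (a t/2)`, `q = -(1/a) tan (a t/2)` and
`r = -F_a`. -/
def Poly3Stmt : Prop :=
  ∀ a ε Λ : ℝ, 0 < a → 0 < ε → ε < Λ → a * Λ < Real.pi → ∀ η : ℝ, 0 < η →
    ∃ p q r : Polynomial ℝ, r.derivative = -q ^ 2 ∧
      (∀ s t u : ℝ, s ∈ Set.Icc ε Λ → t ∈ Set.Icc ε Λ → u ∈ Set.Icc ε Λ →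
        |p.eval (s + u) * p.eval (t + u) + dd p (s + u) (t + u) + a ^ 2 / 4 +
          a ^ 2 / 4 * Mker (a * s / Real.pi) (a * t / Real.pi) (a * u / Real.pi)| ≤ η) ∧
      (∀ s t : ℝ, s ∈ Set.Icc ε Λ → t ∈ Set.Icc ε Λ →
        p.eval (s + t) * (q.eval s + q.eval t) + dd q s t ≤ -1 + η) ∧
      ∀ s : ℝ, s ∈ Set.Icc ε Λ → |r.eval s + Fa a s| ≤ η

/-- (KINA) `∫ ((a²/4) tr P³ + tr P²) ≤ ∫ ∑ ‖v'‖² + ∑ F_a(z_j)` if `∫ P ≤ diag z`, `a z_j < π`. -/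
def KinAStmt : Prop :=
  ∀ (H : Type) [NormedAddCommGroup H] [InnerProductSpace ℂ H] [CompleteSpace H],
    ∀ (N : ℕ) (v w : Fin N → ℝ → H), (∀ j, IsH1v (v j) (w j)) →
    ∀ (a : ℝ) (z : Fin N → ℝ), 0 < a → (∀ j, 0 ≤ z j ∧ a * z j < Real.pi) →
      (Matrix.diagonal (fun j => (z j : ℂ)) - Matrix.of fun i j => ∫ x, inner ℂ (v j x) (v i x) :
        Matrix (Fin N) (Fin N) ℂ).PosSemidef →
      Integrable (fun x => (Matrix.trace (gram (fun j => v j x) ^ 3)).re) volume ∧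
      Integrable (fun x => (Matrix.trace (gram (fun j => v j x) ^ 2)).re) volume ∧
      a ^ 2 / 4 * (∫ x, (Matrix.trace (gram (fun j => v j x) ^ 3)).re) +
        (∫ x, (Matrix.trace (gram (fun j => v j x) ^ 2)).re) ≤
        (∑ j, ∫ x, ‖w j x‖ ^ 2) + ∑ j, Fa a (z j)

/-! ## Integration over `a` -/

/-- the maximiser `z` of `z e - F_a(z)` -/
noncomputable def za (a e : ℝ) : ℝ := 2 / a * Real.arctan (a * √e)

/-- the maximiser `ρ` of `μ ρ - ρ² - (a²/4) ρ³`, `μ ≥ 0` -/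
noncomputable def rhoa (a μ : ℝ) : ℝ := 4 / (3 * a ^ 2) * (√(1 + 3 * a ^ 2 * μ / 4) - 1)

/-- `U_a(μ) = max_ρ (μ ρ - ρ² - (a²/4) ρ³)` -/
noncomputable def Ua (a μ : ℝ) : ℝ :=
  if 0 ≤ μ then μ * rhoa a μ - rhoa a μ ^ 2 - a ^ 2 / 4 * rhoa a μ ^ 3 else 0

/-- (UA) the Legendre transforms. -/
def UaStmt : Prop :=
  (∀ a μ ρ : ℝ, 0 < a → 0 ≤ ρ → μ * ρ - ρ ^ 2 - a ^ 2 / 4 * ρ ^ 3 ≤ Ua a μ) ∧
  (∀ a μ : ℝ, 0 < a → 0 ≤ Ua a μ) ∧
  (∀ a e : ℝ, 0 < a → 0 ≤ e → 0 ≤ za a e ∧ a * za a e < Real.pi ∧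
    0 ≤ za a e * e - Fa a (za a e))

/-- `∫ a^(-δ) (z e - F_a(z)) da` at `e = 1` -/
noncomputable def cA (δ : ℝ) : ℝ :=
  Real.pi / (δ * (1 + δ / 2) * Real.cos (Real.pi * δ / 2))

/-- `∫ a^(-δ) U_a(1) da` -/
noncomputable def cB (δ : ℝ) : ℝ :=
  (2 / √3) ^ (1 - δ) * Real.Gamma ((1 - δ) / 2) * Real.Gamma (δ / 2) /
    (√Real.pi * ((1 + δ) * (3 + δ)))

/-- (INTA) -/
def IntAStmt : Prop :=
  ∀ δ e : ℝ, 0 < δ → δ < 1 → 0 ≤ e →
    ∫⁻ a in Set.Ioi 0, ENNReal.ofReal (a ^ (-δ) * (za a e * e - Fa a (za a e))) =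
      ENNReal.ofReal (cA δ * e ^ (1 + δ / 2))

/-- (INTB) -/
def IntBStmt : Prop :=
  ∀ δ μ : ℝ, 0 < δ → δ < 1 →
    ∫⁻ a in Set.Ioi 0, ENNReal.ofReal (a ^ (-δ) * Ua a μ) =
      ENNReal.ofReal (cB δ * max μ 0 ^ ((3 + δ) / 2))

/-- (CONST) -/
def ConstStmt : Prop :=
  ∀ (δ : ℝ) (d : ℕ), 0 < δ → δ < 1 → 0 < cA δ ∧ 0 < cB δ ∧
    cB δ * Lcl ((3 + δ) / 2) d / cA δ = (2 / √3) ^ (1 - δ) * Lcl (1 + δ / 2) (d + 1)

/-! ## Inequalities for test functions -/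

/-- `∫ |∇ g|² - ∫ V |g|²` -/
noncomputable def form1 {d : ℕ} (V : (Fin d → ℝ) → ℝ) (g : (Fin d → ℝ) → ℂ) : ℝ :=
  kinE g - ∫ y, V y * ‖g y‖ ^ 2

/-- the inequality with exponent `s` and constant `L` for orthonormal test functions -/
def ES (d : ℕ) (s L : ℝ) : Prop :=
  ∀ (N : ℕ) (g : Fin N → (Fin d → ℝ) → ℂ) (V : (Fin d → ℝ) → ℝ), (∀ j, TestFn d (g j)) →
    PotFn d V → gramF g = 1 →
    ∑ j, max (-form1 V (g j)) 0 ^ s ≤ L * ∫ y, V y ^ (s + d / 2)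

/-- the same for test functions with Gram matrix `≤ 1` -/
def ES' (d : ℕ) (s L : ℝ) : Prop :=
  ∀ (N : ℕ) (g : Fin N → (Fin d → ℝ) → ℂ) (V : (Fin d → ℝ) → ℝ), (∀ j, TestFn d (g j)) →
    PotFn d V → (1 - gramF g).PosSemidef →
    ∑ j, max (-form1 V (g j)) 0 ^ s ≤ L * ∫ y, V y ^ (s + d / 2)

/-- (ALS) Aizenman-Lieb: exponents `s ≥ 3/2` -/
def ALSStmt : Prop := ∀ (d : ℕ) (s : ℝ), D3 d → 3 / 2 ≤ s → ES d s (Lcl s d)

/-- (SLICEJ) for the families `√(z j) f j` (all nonnegative weights) in dimension `d` the energy with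
the terms `tr P²`, `(a²/4) tr P³` is at least `- ∑ U_a(μ i)`, with `μ` independent of `a`, `z`. -/
def SliceJStmt : Prop :=
  ∀ (d : ℕ) (s L : ℝ), 0 < s → ES d s L →
    ∀ (N : ℕ) (f : Fin N → (Fin d → ℝ) → ℂ) (V : (Fin d → ℝ) → ℝ), (∀ j, TestFn d (f j)) →
      PotFn d V → ∃ (m : ℕ) (μ : Fin m → ℝ),
        ∑ i, max (μ i) 0 ^ s ≤ L * ∫ y, V y ^ (s + d / 2) ∧
        ∀ (a : ℝ) (z : Fin N → ℝ), 0 < a → (∀ j, 0 ≤ z j) →
          -(∑ i, Ua a (μ i)) ≤ formE V (fun j y => (√(z j) : ℂ) * f j y) +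
            (Matrix.trace (gramF (fun j y => (√(z j) : ℂ) * f j y) ^ 2)).re +
            a ^ 2 / 4 * (Matrix.trace (gramF (fun j y => (√(z j) : ℂ) * f j y) ^ 3)).re

/-- (LIFTC) -/
def LiftCStmt : Prop :=
  ∀ (d : ℕ) (δ : ℝ), 0 < δ → δ < 1 → ES d ((3 + δ) / 2) (Lcl ((3 + δ) / 2) d) →
    ES' (d + 1) (1 + δ / 2) ((2 / √3) ^ (1 - δ) * Lcl (1 + δ / 2) (d + 1))

/-- (SPECC) from test functions to eigenfunctions -/
def SpecCStmt : Prop :=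
  ∀ (d : ℕ) (γ L : ℝ), 0 < d → 1 ≤ γ → 0 ≤ L → ES' d γ L → LTBoundD d γ L

/-- final statement for `1 ≤ γ < 3/2` -/
def BetweenStmt : Prop :=
  ∀ (d : ℕ) (γ : ℝ), 0 < d → 1 ≤ γ → γ < 3 / 2 →
    LTBoundD d γ ((2 / √3) ^ (3 - 2 * γ) * Lcl γ d)

end Pool.Agent.LT
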