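import Pool.Agent.LT.AL
import Pool.Agent.LT.Defs3

/-!
# Aizenman-Lieb: from the dual inequality with exponent `3/2` to exponents `s ≥ 3/2`
(MP_4c716f_mp, module ALS; mathematics: helper15; Lean: helper26 (AL.lean), helper55)
-/

set_option autoImplicit false

namespace Pool.Agent.LT

open MeasureTheory Matrix Finset
open scoped ComplexConjugate ComplexOrder ContDiff

namespace ALS

open AL

variable {d : ℕ}

/-- the diagonal of the form matrix -/
theorem form1_eq {m : ℕ} {V : (Fin d → ℝ) → ℝ} (hV : Continuous V)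
    {g : Fin m → (Fin d → ℝ) → ℂ} (hg : ∀ a, TestFn d (g a)) (a : Fin m) :
    form1 V (g a) = (QM V g a a).re := by
  have h1 : form1 V (g a) = formE V (fun _ : Fin 1 => g a) := by
    unfold form1 formE
    simp
  rw [h1, formE_eq V hV fun _ => hg a, Matrix.trace, Fin.sum_univ_one, Matrix.diag_apply]
  simp only [QM, Matrix.sub_apply, Matrix.sum_apply, wM, Matrix.of_apply]

theorem stepD (h3 : D3 d) {m : ℕ} {V : (Fin d → ℝ) → ℝ} (hV : PotFn d V)
    {g : Fin m → (Fin d → ℝ) → ℂ} (hg : ∀ a, TestFn d (g a)) (hG : gramF g = 1)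
    {μ : ℝ} (hμ : 0 ≤ μ) :
    ∑ a, (max (-form1 V (g a) - μ) 0) ^ (3 / 2 : ℝ) ≤
      Lcl (3 / 2) d * ∫ y, (tr V μ y) ^ ((3 + d : ℝ) / 2) := by
  set e : Fin m → ℝ := fun a => form1 V (g a) with he
  set s : Fin m → ℝ := fun a => max (-e a - μ) 0 with hs
  set z : Fin m → ℝ := fun a => √(s a / 3) with hz
  have hz0 : ∀ a, 0 ≤ z a := fun a => Real.sqrt_nonneg _
  set M : Matrix (Fin m) (Fin m) ℂ := Matrix.diagonal (fun a => ((√(z a) : ℝ) : ℂ)) with hM
  have hMM : M * Mᴴ = Matrix.diagonal (fun a => (z a : ℂ)) := by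
    rw [hM, Matrix.diagonal_conjTranspose, Matrix.diagonal_mul_diagonal]
    congr 1
    ext a
    have : ((√(z a) : ℝ) : ℂ) * ((√(z a) : ℝ) : ℂ) = (z a : ℂ) := by
      rw [← Complex.ofReal_mul, Real.mul_self_sqrt (hz0 a)]
    simp only [Pi.star_apply, RCLike.star_def, Complex.conj_ofReal]
    exact this
  have hMM' : Mᴴ * M = Matrix.diagonal (fun a => (z a : ℂ)) := by
    rw [← hMM, hM, Matrix.diagonal_conjTranspose, Matrix.diagonal_mul_diagonal,
      Matrix.diagonal_mul_diagonal]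
    congr 1
    ext a
    rw [mul_comm]
  have hgm : gramF (act M g) = Matrix.diagonal (fun a => (z a : ℂ)) := by
    rw [gramF_act M hg, hG, Matrix.mul_one, hMM]
  have hta : ∀ a, TestFn d (act M g a) := fun a => test_act M hg a
  have hfe : formE V (act M g) = ∑ a, z a * e a := by
    rw [formE_eq V hV.1 hta, QM_act V hV.1 M hg, Matrix.trace_mul_comm, ← Matrix.mul_assoc, hMM',
      Matrix.trace, Complex.re_sum]
    refine Finset.sum_congr rfl fun a _ => ?_
    rw [Matrix.diag_apply, Matrix.diagonal_mul, Complex.re_ofReal_mul, he]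
    simp only
    rw [form1_eq hV.1 hg a]
  have h5 := h3 m (act M g) (tr V μ) hta (pot_tr hV hμ) 1 one_pos
  have h6 := formE_le hV hμ hta
  rw [hfe, hgm, Matrix.trace_diagonal, Complex.re_sum] at h6
  rw [hgm, Matrix.diagonal_pow, Matrix.trace_diagonal, Complex.re_sum, Real.sqrt_one, div_one] at h5
  simp only [Complex.ofReal_re, Pi.pow_apply, ← Complex.ofReal_pow] at h5 h6
  have h7 : ∑ a, (z a * e a + μ * z a + z a ^ 3) ≤ ∑ a, -(2 / (3 * √3)) * s a ^ (3 / 2 : ℝ) :=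
    Finset.sum_le_sum fun a _ => pt_ineq (e a) μ (s a) (z a) rfl rfl
  rw [Finset.sum_add_distrib, Finset.sum_add_distrib, ← Finset.mul_sum, ← Finset.mul_sum] at h7
  have hc : (0:ℝ) < 2 / (3 * √3) := by positivity
  have h8 : 2 / (3 * √3) * ∑ a, s a ^ (3 / 2 : ℝ) ≤
      2 / (3 * √3) * (Lcl (3 / 2) d * ∫ y, (tr V μ y) ^ ((3 + d : ℝ) / 2)) := by
    linarith
  exact le_of_mul_le_mul_left h8 hc

theorem Lcl_beta (d : ℕ) (s : ℝ) (hs : 3 / 2 < s) :
    Lcl (3 / 2) d * ProbabilityTheory.beta (s - 3 / 2) ((5 + d) / 2) =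
      Lcl s d * ProbabilityTheory.beta (s - 3 / 2) (5 / 2) := by
  unfold Lcl ProbabilityTheory.beta
  have e1 : (3 / 2 + 1 + (d : ℝ) / 2) = (5 + d) / 2 := by ring
  have e2 : (s - 3 / 2 + (5 + (d : ℝ)) / 2) = s + 1 + d / 2 := by ring
  have e3 : (s - 3 / 2 + 5 / 2 : ℝ) = s + 1 := by ring
  have e4 : (3 / 2 + 1 : ℝ) = 5 / 2 := by norm_num
  rw [e1, e2, e3, e4]
  have h1 : Real.Gamma ((5 + d) / 2) ≠ 0 := (Real.Gamma_pos_of_pos (by positivity)).ne'
  have h2 : Real.Gamma (s + 1 + (d:ℝ) / 2) ≠ 0 := (Real.Gamma_pos_of_pos (by positivity)).ne'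
  have h3 : Real.Gamma (s + 1) ≠ 0 := (Real.Gamma_pos_of_pos (by linarith)).ne'
  have h4 : ((4 * Real.pi) ^ ((d : ℝ) / 2)) ≠ 0 := (Real.rpow_pos_of_pos (by positivity) _).ne'
  field_simp

theorem stepE (h3 : D3 d) (s : ℝ) (hs : 3 / 2 < s) {m : ℕ} {V : (Fin d → ℝ) → ℝ}
    (hV : PotFn d V) {g : Fin m → (Fin d → ℝ) → ℂ} (hg : ∀ a, TestFn d (g a))
    (hG : gramF g = 1) :
    ∑ a, (max (-form1 V (g a)) 0) ^ s ≤ Lcl s d * ∫ y, V y ^ (s + d / 2) := by
  set e : Fin m → ℝ := fun a => form1 V (g a) with he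
  have hs0 : 0 < s - 3 / 2 := by linarith
  have hb1 := ProbabilityTheory.beta_pos (α := s - 3 / 2) (β := 5 / 2) hs0 (by norm_num)
  have hb2 := ProbabilityTheory.beta_pos (α := s - 3 / 2) (β := (5 + d) / 2) hs0
    (by positivity)
  have hL := Lcl_pos (3 / 2) (by norm_num) d
  -- left side
  have hl : ∫⁻ μ in Set.Ioi (0:ℝ), ENNReal.ofReal (μ ^ ((s - 3 / 2 : ℝ) - 1) *
      ∑ a, (max (-e a - μ) 0) ^ (3 / 2 : ℝ)) =
      ENNReal.ofReal (ProbabilityTheory.beta (s - 3 / 2) (5 / 2) * ∑ a, (max (-e a) 0) ^ s) := by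
    have h1 : ∀ μ ∈ Set.Ioi (0:ℝ), ENNReal.ofReal (μ ^ ((s - 3 / 2 : ℝ) - 1) *
        ∑ a, (max (-e a - μ) 0) ^ (3 / 2 : ℝ)) =
        ∑ a, ENNReal.ofReal (μ ^ ((s - 3 / 2 : ℝ) - 1) *
          (max (-e a - μ) 0) ^ ((5 / 2 : ℝ) - 1)) := by
      intro μ hμ
      have hμ0 : 0 < μ := hμ
      rw [← ENNReal.ofReal_sum_of_nonneg fun a _ => by positivity, Finset.mul_sum]
      norm_num
    rw [setLIntegral_congr_fun measurableSet_Ioi h1, lintegral_finsetSum]
    · simp only [lint_beta _ _ _ hs0 (show (1:ℝ) < 5 / 2 by norm_num)]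
      rw [← ENNReal.ofReal_sum_of_nonneg fun a _ => by positivity, Finset.mul_sum]
      congr 1
      refine Finset.sum_congr rfl fun a _ => ?_
      rw [mul_comm]
      congr 2
      ring
    · intro a _
      fun_prop
  -- right side
  have hVm : Measurable V := hV.1.measurable
  have hr : ∫⁻ μ in Set.Ioi (0:ℝ), ENNReal.ofReal (μ ^ ((s - 3 / 2 : ℝ) - 1) *
      (Lcl (3 / 2) d * ∫ y, (tr V μ y) ^ ((3 + d : ℝ) / 2))) =
      ENNReal.ofReal (Lcl (3 / 2) d * ProbabilityTheory.beta (s - 3 / 2) ((5 + d) / 2) *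
        ∫ y, V y ^ (s + d / 2 : ℝ)) := by
    have h1 : ∀ μ ∈ Set.Ioi (0:ℝ), ENNReal.ofReal (μ ^ ((s - 3 / 2 : ℝ) - 1) *
        (Lcl (3 / 2) d * ∫ y, (tr V μ y) ^ ((3 + d : ℝ) / 2))) =
        ∫⁻ y, ENNReal.ofReal (Lcl (3 / 2) d) * ENNReal.ofReal (μ ^ ((s - 3 / 2 : ℝ) - 1) *
          (max (V y - μ) 0) ^ ((5 + d : ℝ) / 2 - 1)) := by
      intro μ hμ
      have hμ0 : 0 < μ := hμ
      have hi := int_rpow (pot_tr hV hμ0.le) (show (0:ℝ) < (3 + d : ℝ) / 2 by positivity)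
      rw [show μ ^ ((s - 3 / 2 : ℝ) - 1) * (Lcl (3 / 2) d * ∫ y, (tr V μ y) ^ ((3 + d : ℝ) / 2)) =
        ∫ y, Lcl (3 / 2) d * (μ ^ ((s - 3 / 2 : ℝ) - 1) * (tr V μ y) ^ ((3 + d : ℝ) / 2)) by
          rw [integral_const_mul, integral_const_mul]; ring]
      rw [ofReal_integral_eq_lintegral_ofReal]
      · refine lintegral_congr fun y => ?_
        rw [← ENNReal.ofReal_mul hL.le]
        congr 4
        ring
      · exact (hi.const_mul _).const_mul _
      · refine Filter.Eventually.of_forall fun y => ?_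
        have : 0 ≤ tr V μ y := (pot_tr hV hμ0.le).2.2 y
        simp only [Pi.zero_apply]
        positivity
    rw [setLIntegral_congr_fun measurableSet_Ioi h1, lintegral_lintegral_swap]
    · have h2 : ∀ y, ∫⁻ μ in Set.Ioi (0:ℝ), ENNReal.ofReal (Lcl (3 / 2) d) *
          ENNReal.ofReal (μ ^ ((s - 3 / 2 : ℝ) - 1) * (max (V y - μ) 0) ^ ((5 + d : ℝ) / 2 - 1)) =
          ENNReal.ofReal (Lcl (3 / 2) d * ProbabilityTheory.beta (s - 3 / 2) ((5 + d) / 2) *
            V y ^ (s + d / 2 : ℝ)) := by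
        intro y
        have hd : (1:ℝ) < (5 + d) / 2 := by
          have : (0:ℝ) ≤ d := Nat.cast_nonneg d
          linarith
        rw [lintegral_const_mul' _ _ ENNReal.ofReal_ne_top,
          lint_beta _ _ _ hs0 hd, ← ENNReal.ofReal_mul hL.le,
          max_eq_left (hV.2.2 y)]
        congr 1
        rw [show (s - 3 / 2 + (5 + (d:ℝ)) / 2 - 1) = s + d / 2 by ring]
        ring
      simp only [h2]
      have hi := int_rpow hV (show (0:ℝ) < (s + d / 2 : ℝ) by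
        have : (0:ℝ) ≤ d := Nat.cast_nonneg d
        linarith)
      rw [← ofReal_integral_eq_lintegral_ofReal (hi.const_mul _), integral_const_mul]
      refine Filter.Eventually.of_forall fun y => ?_
      have : 0 ≤ V y := hV.2.2 y
      simp only [Pi.zero_apply]
      positivity
    · refine Measurable.aemeasurable ?_
      have hV2 : Measurable fun p : ℝ × (Fin d → ℝ) => V p.2 := hVm.comp measurable_snd
      simp only [Function.uncurry_def]
      fun_prop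
  have hle : ∫⁻ μ in Set.Ioi (0:ℝ), ENNReal.ofReal (μ ^ ((s - 3 / 2 : ℝ) - 1) *
      ∑ a, (max (-e a - μ) 0) ^ (3 / 2 : ℝ)) ≤ ∫⁻ μ in Set.Ioi (0:ℝ),
      ENNReal.ofReal (μ ^ ((s - 3 / 2 : ℝ) - 1) *
      (Lcl (3 / 2) d * ∫ y, (tr V μ y) ^ ((3 + d : ℝ) / 2))) := by
    refine setLIntegral_mono' measurableSet_Ioi fun μ hμ => ?_
    have hμ0 : 0 < μ := hμ
    refine ENNReal.ofReal_le_ofReal (mul_le_mul_of_nonneg_left ?_ (by positivity))
    exact stepD h3 hV hg hG hμ0.le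
  rw [hl, hr] at hle
  have hint : 0 ≤ ∫ y, V y ^ (s + d / 2 : ℝ) :=
    integral_nonneg fun y => Real.rpow_nonneg (hV.2.2 y) _
  rw [ENNReal.ofReal_le_ofReal_iff (by positivity), Lcl_beta d s hs] at hle
  have : ProbabilityTheory.beta (s - 3 / 2) (5 / 2) * ∑ a, (max (-e a) 0) ^ s ≤
      ProbabilityTheory.beta (s - 3 / 2) (5 / 2) * (Lcl s d * ∫ y, V y ^ (s + d / 2 : ℝ)) := by
    linarith
  exact le_of_mul_le_mul_left this hb1

end ALS

/-- module `ALS` -/
theorem als : ALSStmt := by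
  intro d s h3 hs N g V hg hV hG
  rcases hs.eq_or_lt with hs | hs
  · subst hs
    have h := ALS.stepD h3 hV hg hG le_rfl
    simp only [sub_zero] at h
    have e : ∀ y, AL.tr V 0 y ^ ((3 + d : ℝ) / 2) = V y ^ (3 / 2 + (d : ℝ) / 2) := by
      intro y
      have h1 : AL.tr V 0 y = V y := by
        unfold AL.tr
        rw [sub_zero]
        exact max_eq_left (hV.2.2 y)
      rw [h1]
      congr 1
      ring
    simp only [e] at h
    exact h
  · exact ALS.stepE h3 s hs hV hg hG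

end Pool.Agent.LT
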