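import Pool.Agent.LT.Defs2

/-!
# LT: dimension zero (module BASE)
-/

set_option autoImplicit false

namespace Pool.Agent.LT

open MeasureTheory Matrix Finset
open scoped ComplexConjugate ComplexOrder ContDiff

/-- the one point space -/
lemma base_int {E : Type*} [NormedAddCommGroup E] [NormedSpace ℝ E] [CompleteSpace E]
    (g : (Fin 0 → ℝ) → E) : ∫ y, g y = g default := by
  rw [volume_pi, Measure.pi_of_empty _ default, integral_dirac]

/-- the Gram matrix has rank one -/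
lemma base_gramF {N : ℕ} (f : Fin N → (Fin 0 → ℝ) → ℂ) (i j : Fin N) :
    gramF f i j = f i default * conj (f j default) := by
  simp only [gramF, Matrix.of_apply]
  rw [base_int]

lemma base_sq {N : ℕ} (f : Fin N → (Fin 0 → ℝ) → ℂ) :
    gramF f * gramF f = (((∑ j, ‖f j default‖ ^ 2 : ℝ)) : ℂ) • gramF f := by
  ext i j
  rw [Matrix.mul_apply, Matrix.smul_apply, smul_eq_mul, base_gramF]
  push_cast
  rw [Finset.sum_mul]
  refine Finset.sum_congr rfl fun k _ => ?_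
  rw [base_gramF, base_gramF, ← Complex.conj_mul']
  ring

lemma base_trace {N : ℕ} (f : Fin N → (Fin 0 → ℝ) → ℂ) :
    Matrix.trace (gramF f) = (((∑ j, ‖f j default‖ ^ 2 : ℝ)) : ℂ) := by
  unfold Matrix.trace
  push_cast
  refine Finset.sum_congr rfl fun k _ => ?_
  rw [Matrix.diag_apply, base_gramF, Complex.mul_conj']

lemma base_tr2 {N : ℕ} (f : Fin N → (Fin 0 → ℝ) → ℂ) :
    (Matrix.trace (gramF f ^ 2)).re = (∑ j, ‖f j default‖ ^ 2) ^ 2 := by
  rw [pow_two, base_sq, Matrix.trace_smul, base_trace, smul_eq_mul, ← Complex.ofReal_mul,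
    Complex.ofReal_re, pow_two]

lemma base_tr3 {N : ℕ} (f : Fin N → (Fin 0 → ℝ) → ℂ) :
    (Matrix.trace (gramF f ^ 3)).re = (∑ j, ‖f j default‖ ^ 2) ^ 3 := by
  rw [pow_succ, pow_two, base_sq, Matrix.smul_mul, base_sq, smul_smul, Matrix.trace_smul,
    base_trace, smul_eq_mul, ← Complex.ofReal_mul, ← Complex.ofReal_mul, Complex.ofReal_re]
  ring

lemma base_form {N : ℕ} (V : (Fin 0 → ℝ) → ℝ) (f : Fin N → (Fin 0 → ℝ) → ℂ) :
    formE V f = -(V default * ∑ j, ‖f j default‖ ^ 2) := by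
  unfold formE kinE
  rw [base_int]
  simp

lemma base_Lcl (γ : ℝ) (hγ : 0 < γ + 1) : Lcl γ 0 = 1 := by
  unfold Lcl
  have h1 : Real.Gamma (γ + 1) ≠ 0 := (Real.Gamma_pos_of_pos hγ).ne'
  simp only [Nat.cast_zero, zero_div, Real.rpow_zero, add_zero, one_mul]
  exact div_self h1

theorem base : BaseStmt := by
  constructor
  · intro N f V _ hV A hA
    rw [base_int, base_form, base_tr3, base_Lcl _ (by norm_num)]
    have hv : 0 ≤ V default := hV.2.2 _
    have hr : 0 ≤ ∑ j, ‖f j default‖ ^ 2 := Finset.sum_nonneg fun j _ => by positivity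
    generalize (∑ j, ‖f j default‖ ^ 2) = r at hr ⊢
    generalize V default = v at hv ⊢
    have e1 : ((3 : ℝ) + ((0 : ℕ) : ℝ)) / 2 = (1 / 2 : ℝ) * (3 : ℕ) := by norm_num
    rw [e1, Real.rpow_mul hv, ← Real.sqrt_eq_rpow, Real.rpow_natCast]
    obtain ⟨u, hu0, rfl⟩ : ∃ u : ℝ, 0 ≤ u ∧ v = 3 * u ^ 2 :=
      ⟨√(v / 3), Real.sqrt_nonneg _, by rw [Real.sq_sqrt (by positivity)]; ring⟩
    obtain ⟨k, hk, rfl⟩ : ∃ k : ℝ, 0 < k ∧ A = k ^ 2 :=
      ⟨√A, Real.sqrt_pos.2 hA, (Real.sq_sqrt hA.le).symm⟩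
    have h3 : 0 < √(3 : ℝ) := Real.sqrt_pos.2 (by norm_num)
    have h33 : √(3 : ℝ) ^ 2 = 3 := Real.sq_sqrt (by norm_num)
    have e2 : √(3 * u ^ 2) = √3 * u := by
      rw [Real.sqrt_mul (by norm_num), Real.sqrt_sq hu0]
    have e3 : √(k ^ 2) = k := Real.sqrt_sq hk.le
    rw [e2, e3]
    have e4 : 2 / (3 * √3) * 1 / k * (√3 * u) ^ 3 = 2 * u ^ 3 / k := by
      field_simp
      linear_combination (u ^ 3) * h33
    rw [e4]
    have h5 : 0 ≤ (k * r - u) ^ 2 * (k * r + 2 * u) :=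
      mul_nonneg (sq_nonneg _) (by positivity)
    have h6 : -(2 * u ^ 3 / k) = -(2 * u ^ 3) / k := by ring
    rw [h6, div_le_iff₀ hk]
    nlinarith [h5]
  · intro N f V _ hV A hA
    rw [base_int, base_form, base_tr2, base_Lcl _ (by norm_num)]
    generalize (∑ j, ‖f j default‖ ^ 2) = r
    generalize V default = v
    have e1 : ((4 : ℝ) + ((0 : ℕ) : ℝ)) / 2 = ((2 : ℕ) : ℝ) := by norm_num
    rw [e1, Real.rpow_natCast]
    have h6 : -(1 / (4 * A) * v ^ 2) = -(v ^ 2) / (4 * A) := by ring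
    rw [h6, div_le_iff₀ (by positivity)]
    nlinarith [sq_nonneg (2 * A * r - v)]

end Pool.Agent.LT
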