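import Pool.Agent.LT.Defs

/-!
# Product rule for absolutely continuous functions and a continuous bilinear map
-/

set_option autoImplicit false

namespace Pool.Agent.LT

open MeasureTheory Set Filter

section

variable {E : Type*} [NormedAddCommGroup E] [NormedSpace ℝ E]

omit [NormedSpace ℝ E] in
theorem ac_of_dist_le {f : ℝ → E} {h : ℝ → ℝ} {a b : ℝ}
    (hh : AbsolutelyContinuousOnInterval h a b)
    (hd : ∀ x y, dist (f x) (f y) ≤ dist (h x) (h y)) : AbsolutelyContinuousOnInterval f a b := by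
  unfold AbsolutelyContinuousOnInterval at hh ⊢
  exact squeeze_zero (fun _ => Finset.sum_nonneg (fun _ _ => dist_nonneg))
    (fun _ => Finset.sum_le_sum (fun _ _ => hd _ _)) hh

theorem ACv.dist_le {f f' : ℝ → E} (hf : ACv f f') (c x y : ℝ) :
    dist (f x) (f y) ≤ dist (∫ t in c..x, ‖f' t‖) (∫ t in c..y, ‖f' t‖) := by
  have h1 : f x - f y = ∫ t in y..x, f' t := hf.2 y x
  have h2 : (∫ t in c..x, ‖f' t‖) - (∫ t in c..y, ‖f' t‖) = ∫ t in y..x, ‖f' t‖ :=
    intervalIntegral.integral_interval_sub_left (hf.1 c x).norm (hf.1 c y).norm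
  rw [dist_eq_norm, dist_eq_norm, h1, h2, Real.norm_eq_abs]
  exact intervalIntegral.norm_integral_le_abs_integral_norm

theorem ACv.ac {f f' : ℝ → E} (hf : ACv f f') (a b : ℝ) : AbsolutelyContinuousOnInterval f a b :=
  ac_of_dist_le ((hf.1 a b).norm.absolutelyContinuousOnInterval_intervalIntegral
    (c := a) left_mem_uIcc) (hf.dist_le a)

theorem ACv.continuous {f f' : ℝ → E} (hf : ACv f f') : Continuous f := by
  rw [continuous_iff_continuousAt]
  intro x
  have h := (hf.ac (x - 1) (x + 1)).continuousOn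
  rw [uIcc_of_le (by linarith)] at h
  exact h.continuousAt (Icc_mem_nhds (by linarith) (by linarith))

theorem ACv.prim {F : ℝ → E} (hF : ∀ a b : ℝ, IntervalIntegrable F volume a b) (c : ℝ) :
    ACv (fun x => ∫ t in c..x, F t) F :=
  ⟨hF, fun a b => intervalIntegral.integral_interval_sub_left (hF c b) (hF c a)⟩

theorem ACv.ae_hasDerivAt [CompleteSpace E] {f f' : ℝ → E} (hf : ACv f f') :
    ∀ᵐ x, HasDerivAt f (f' x) x := by
  have h : LocallyIntegrable f' volume := by
    rw [locallyIntegrable_iff]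
    intro k hk
    obtain ⟨r, hr⟩ := hk.isBounded.subset_closedBall 0
    rw [Real.closedBall_eq_Icc] at hr
    refine IntegrableOn.mono_set ?_ hr
    rcases le_or_gt (0 - r) (0 + r) with h | h
    · have := (hf.1 (0 - r) (0 + r)).1
      rw [integrableOn_Icc_iff_integrableOn_Ioc]
      exact this
    · rw [Icc_eq_empty (not_le.mpr h)]
      exact integrableOn_empty
  filter_upwards [_root_.LocallyIntegrable.ae_hasDerivAt_integral h] with x hx
  have h1 := (hx 0).const_add (f 0)
  refine h1.congr_of_eventuallyEq (Eventually.of_forall (fun y => ?_))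
  have := hf.2 0 y
  simp only
  rw [← this]; abel

end

section

variable {E F G : Type*} [NormedAddCommGroup E] [NormedSpace ℝ E] [NormedAddCommGroup F]
    [NormedSpace ℝ F] [NormedAddCommGroup G] [NormedSpace ℝ G]

theorem ac_bilin (B : E →L[ℝ] F →L[ℝ] G) {f : ℝ → E} {g : ℝ → F} {a b : ℝ}
    (hf : AbsolutelyContinuousOnInterval f a b) (hg : AbsolutelyContinuousOnInterval g a b) :
    AbsolutelyContinuousOnInterval (fun x => B (f x) (g x)) a b := by
  obtain ⟨C, hC⟩ := hf.exists_bound
  obtain ⟨D, hD⟩ := hg.exists_bound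
  unfold AbsolutelyContinuousOnInterval at hf hg
  apply squeeze_zero' ?_ ?_
    (by simpa using (hg.const_mul (‖B‖ * C)).add (hf.const_mul (‖B‖ * D)))
  · exact Filter.Eventually.of_forall <| fun _ ↦ Finset.sum_nonneg (fun i hi ↦ dist_nonneg)
  rw [eventually_inf_principal]
  filter_upwards with (n, I) hnI
  simp only [Finset.mul_sum, ← Finset.sum_add_distrib]
  gcongr with i hi
  simp only [AbsolutelyContinuousOnInterval.disjWithin, mem_ofPred_eq] at hnI
  have m1 := hC _ (hnI.left i hi |>.left)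
  have m2 := hD _ (hnI.left i hi |>.right)
  have e : B (f (I i).1) (g (I i).1) - B (f (I i).2) (g (I i).2) =
      B (f (I i).1) (g (I i).1 - g (I i).2) + B (f (I i).1 - f (I i).2) (g (I i).2) := by
    simp only [map_sub, sub_apply]; abel
  rw [dist_eq_norm, dist_eq_norm, dist_eq_norm, e]
  refine (norm_add_le _ _).trans (add_le_add ?_ ?_)
  · refine (B.le_opNorm₂ _ _).trans ?_
    gcongr
  · refine (B.le_opNorm₂ _ _).trans ?_
    have : ‖B‖ * ‖f (I i).1 - f (I i).2‖ * ‖g (I i).2‖ ≤ ‖B‖ * ‖f (I i).1 - f (I i).2‖ * D := by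
      gcongr
    linarith

theorem bil_int1 (B : E →L[ℝ] F →L[ℝ] G) {f' : ℝ → E} {g : ℝ → F} {a b : ℝ}
    (hf : IntervalIntegrable f' volume a b) (hg : Continuous g) :
    IntervalIntegrable (fun x => B (f' x) (g x)) volume a b := by
  rw [intervalIntegrable_iff] at hf ⊢
  obtain ⟨D, hD⟩ := (isCompact_uIcc (a := a) (b := b)).exists_bound_of_continuousOn hg.continuousOn
  refine Integrable.mono' (g := fun x => ‖B‖ * ‖f' x‖ * D) ((hf.norm.const_mul _).mul_const _)
    (B.aestronglyMeasurable_comp₂ hf.1 hg.aestronglyMeasurable) ?_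
  rw [ae_restrict_iff' measurableSet_uIoc]
  refine Eventually.of_forall (fun x hx => (B.le_opNorm₂ _ _).trans ?_)
  have := hD x (uIoc_subset_uIcc hx)
  gcongr

theorem bil_int (B : E →L[ℝ] F →L[ℝ] G) {f f' : ℝ → E} {g g' : ℝ → F} (hf : ACv f f')
    (hg : ACv g g') (a b : ℝ) :
    IntervalIntegrable (fun x => B (f' x) (g x) + B (f x) (g' x)) volume a b :=
  (bil_int1 B (hf.1 a b) hg.continuous).add (bil_int1 B.flip (hg.1 a b) hf.continuous)

end

theorem bil : BilStmt := by
  intro E F G _ _ _ _ _ _ _ _ _ B f f' g g' hf hg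
  have hint := bil_int B hf hg
  refine ⟨hint, fun a b => ?_⟩
  have hp := ACv.prim hint a
  have hac := (ac_bilin B (hf.ac a b) (hg.ac a b)).sub (hp.ac a b)
  have hd : ∀ᵐ x, x ∈ uIcc a b → HasDerivAt ((fun x => B (f x) (g x)) -
      fun x => ∫ t in a..x, (B (f' t) (g t) + B (f t) (g' t))) 0 x := by
    filter_upwards [hf.ae_hasDerivAt, hg.ae_hasDerivAt, hp.ae_hasDerivAt] with x h1 h2 h3 _
    have h4 := (B.hasFDerivAt_of_bilinear h1.hasFDerivAt h2.hasFDerivAt).hasDerivAt
    have h5 := h4.sub h3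
    convert h5 using 1
    simp
    abel
  obtain ⟨C, hC⟩ := hac.const_of_ae_hasDerivAt_zero hd
  have c1 := hC a left_mem_uIcc
  have c2 := hC b right_mem_uIcc
  simp only [Pi.sub_apply, intervalIntegral.integral_same, sub_zero] at c1 c2
  rw [← c1] at c2
  change B (f b) (g b) - B (f a) (g a) = _
  rw [← c2]; abel

end Pool.Agent.LT
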