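import Pool.Agent.LT.Defs

/-!
# LT: the calibration is absolutely continuous (module CALC)
-/

set_option autoImplicit false

namespace Pool.Agent.LT

open MeasureTheory Matrix Finset
open scoped ComplexConjugate ComplexOrder

section ACv

variable {E : Type*} [NormedAddCommGroup E] [NormedSpace ℝ E]

lemma calc_congr {f f' g g' : ℝ → E} (hf : ACv f f') (h1 : ∀ x, g x = f x)
    (h2 : ∀ x, g' x = f' x) : ACv g g' := by
  have e1 : g = f := funext h1
  have e2 : g' = f' := funext h2
  rw [e1, e2]
  exact hf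

lemma calc_const (c : E) : ACv (fun _ : ℝ => c) (fun _ => (0 : E)) := by
  refine ⟨fun a b => ?_, fun a b => ?_⟩
  · exact intervalIntegrable_const
  · simp

lemma calc_add {f f' g g' : ℝ → E} (hf : ACv f f') (hg : ACv g g') :
    ACv (fun x => f x + g x) (fun x => f' x + g' x) := by
  refine ⟨fun a b => (hf.1 a b).add (hg.1 a b), fun a b => ?_⟩
  rw [intervalIntegral.integral_add (hf.1 a b) (hg.1 a b), ← hf.2 a b, ← hg.2 a b]
  exact add_sub_add_comm _ _ _ _

lemma calc_sum {ι : Type*} (s : Finset ι) {f f' : ι → ℝ → E} (hf : ∀ i ∈ s, ACv (f i) (f' i)) :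
    ACv (fun x => ∑ i ∈ s, f i x) (fun x => ∑ i ∈ s, f' i x) := by
  classical
  induction s using Finset.induction_on with
  | empty => simpa using calc_const (0 : E)
  | insert a s ha ih =>
    refine calc_congr (calc_add (hf a (Finset.mem_insert_self a s))
      (ih fun i hi => hf i (Finset.mem_insert_of_mem hi))) (fun x => ?_) (fun x => ?_)
    · rw [Finset.sum_insert ha]
    · rw [Finset.sum_insert ha]

lemma calc_smul {f f' : ℝ → ℝ} (c : ℝ) (hf : ACv f f') :
    ACv (fun x => c * f x) (fun x => c * f' x) := by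
  refine ⟨fun a b => (hf.1 a b).const_mul c, fun a b => ?_⟩
  rw [intervalIntegral.integral_const_mul, ← hf.2 a b]
  ring

end ACv

lemma calc_re {f f' : ℝ → ℂ} (hf : ACv f f') : ACv (fun x => (f x).re) (fun x => (f' x).re) := by
  refine ⟨fun a b => ?_, fun a b => ?_⟩
  · exact ⟨(hf.1 a b).1.re, (hf.1 a b).2.re⟩
  · have h := hf.2 a b
    have h2 : (f b - f a).re = (∫ x in a..b, f' x).re := by rw [h]
    rw [Complex.sub_re] at h2
    rw [h2]
    exact (Complex.reCLM.intervalIntegral_comp_comm (hf.1 a b)).symm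

section Mat

variable {N : ℕ}

/-- entrywise absolute continuity -/
def MAC (M M' : ℝ → Matrix (Fin N) (Fin N) ℂ) : Prop :=
  ∀ i j, ACv (fun x => M x i j) (fun x => M' x i j)

lemma MAC.congr {M M' A A' : ℝ → Matrix (Fin N) (Fin N) ℂ} (h : MAC M M')
    (h1 : ∀ x, A x = M x) (h2 : ∀ x, A' x = M' x) : MAC A A' := by
  have e1 : A = M := funext h1
  have e2 : A' = M' := funext h2
  rw [e1, e2]
  exact h

lemma MAC.mul (hb : BilStmt) {A A' B B' : ℝ → Matrix (Fin N) (Fin N) ℂ} (hA : MAC A A')
    (hB : MAC B B') : MAC (fun x => A x * B x) (fun x => A' x * B x + A x * B' x) := by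
  intro i j
  have h : ∀ k ∈ (Finset.univ : Finset (Fin N)),
      ACv (fun x => A x i k * B x k j) (fun x => A' x i k * B x k j + A x i k * B' x k j) := by
    intro k _
    have := hb ℂ ℂ ℂ (ContinuousLinearMap.mul ℝ ℂ) _ _ _ _ (hA i k) (hB k j)
    simpa only [ContinuousLinearMap.mul_apply'] using this
  refine calc_congr (calc_sum Finset.univ h) (fun x => ?_) (fun x => ?_)
  · simp only [Matrix.mul_apply]
  · simp only [Matrix.add_apply, Matrix.mul_apply, Finset.sum_add_distrib]

lemma MAC.pow (hb : BilStmt) {S P : ℝ → Matrix (Fin N) (Fin N) ℂ} (hS : MAC S P) (k : ℕ) :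
    MAC (fun x => S x ^ k) (fun x => ∑ i ∈ range k, S x ^ i * P x * S x ^ (k - 1 - i)) := by
  induction k with
  | zero =>
    intro i j
    refine calc_congr (calc_const ((1 : Matrix (Fin N) (Fin N) ℂ) i j)) (fun x => ?_) (fun x => ?_)
    · simp
    · simp
  | succ k ih =>
    refine MAC.congr (MAC.mul hb ih hS) (fun x => ?_) (fun x => ?_)
    · exact pow_succ _ _
    · rw [Finset.sum_range_succ, Finset.sum_mul]
      congr 1
      · refine Finset.sum_congr rfl fun i hi => ?_
        have hi' : i < k := Finset.mem_range.1 hi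
        have e : k + 1 - 1 - i = (k - 1 - i) + 1 := by omega
        rw [e, pow_succ]
        simp only [Matrix.mul_assoc]
      · simp

lemma MAC.trace {M M' : ℝ → Matrix (Fin N) (Fin N) ℂ} (h : MAC M M') :
    ACv (fun x => (Matrix.trace (M x)).re) (fun x => (Matrix.trace (M' x)).re) := by
  refine calc_re ?_
  exact calc_sum Finset.univ fun i _ => h i i

end Mat

theorem calc_of (h : BilStmt) : CalcStmt := by
  intro N p S P Q hS hP
  have hS' : MAC S P := hS
  have hP' : MAC P Q := hP
  have key : ∀ n k : ℕ, ACv (fun x => (Matrix.trace (S x ^ k * P x * S x ^ (n - k) * P x)).re)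
      (fun x =>
        ((Matrix.trace ((∑ i ∈ range k, S x ^ i * P x * S x ^ (k - 1 - i)) * P x *
            S x ^ (n - k) * P x)).re +
          (Matrix.trace (S x ^ k * Q x * S x ^ (n - k) * P x)).re) +
        ((Matrix.trace (S x ^ k * P x *
          (∑ i ∈ range (n - k), S x ^ i * P x * S x ^ (n - k - 1 - i)) * P x)).re +
          (Matrix.trace (S x ^ k * P x * S x ^ (n - k) * Q x)).re)) := by
    intro n k
    have h1 := MAC.trace (MAC.mul h (MAC.mul h (MAC.mul h (MAC.pow h hS' k) hP')
      (MAC.pow h hS' (n - k))) hP')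
    refine calc_congr h1 (fun x => rfl) (fun x => ?_)
    simp only [Matrix.add_mul, Matrix.trace_add, Complex.add_re]
    ring
  have key2 : ∀ n : ℕ, ACv (fun x => ∑ k ∈ range (n + 1), (n.choose k : ℝ) *
      (Matrix.trace (S x ^ k * P x * S x ^ (n - k) * P x)).re)
      (fun x => 2 * ∑ k ∈ range (n + 1), (n.choose k : ℝ) *
        ((Matrix.trace ((∑ i ∈ range k, S x ^ i * P x * S x ^ (k - 1 - i)) * P x *
            S x ^ (n - k) * P x)).re +
          (Matrix.trace (S x ^ k * Q x * S x ^ (n - k) * P x)).re)) := by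
    intro n
    refine calc_congr (calc_sum (range (n + 1)) fun k _ => calc_smul (n.choose k : ℝ) (key n k))
      (fun x => rfl) (fun x => ?_)
    simp only [mul_add, Finset.sum_add_distrib]
    have e1 : ∑ k ∈ range (n + 1), (n.choose k : ℝ) * (Matrix.trace (S x ^ k * P x *
          (∑ i ∈ range (n - k), S x ^ i * P x * S x ^ (n - k - 1 - i)) * P x)).re =
        ∑ k ∈ range (n + 1), (n.choose k : ℝ) *
          (Matrix.trace ((∑ i ∈ range k, S x ^ i * P x * S x ^ (k - 1 - i)) * P x *
            S x ^ (n - k) * P x)).re := by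
      rw [← Finset.sum_range_reflect]
      refine Finset.sum_congr rfl fun k hk => ?_
      have hk' : k ≤ n := Nat.lt_succ_iff.1 (Finset.mem_range.1 hk)
      have e : n + 1 - 1 - k = n - k := by omega
      have e' : n - (n - k) = k := by omega
      rw [e, e', Nat.choose_symm hk']
      congr 2
      rw [Matrix.mul_assoc (S x ^ (n - k) * P x), Matrix.trace_mul_comm]
      simp only [Matrix.mul_assoc]
    have e2 : ∑ k ∈ range (n + 1), (n.choose k : ℝ) *
          (Matrix.trace (S x ^ k * P x * S x ^ (n - k) * Q x)).re =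
        ∑ k ∈ range (n + 1), (n.choose k : ℝ) *
          (Matrix.trace (S x ^ k * Q x * S x ^ (n - k) * P x)).re := by
      rw [← Finset.sum_range_reflect]
      refine Finset.sum_congr rfl fun k hk => ?_
      have hk' : k ≤ n := Nat.lt_succ_iff.1 (Finset.mem_range.1 hk)
      have e : n + 1 - 1 - k = n - k := by omega
      have e' : n - (n - k) = k := by omega
      rw [e, e', Nat.choose_symm hk']
      congr 2
      rw [Matrix.mul_assoc (S x ^ (n - k) * P x), Matrix.trace_mul_comm]
      simp only [Matrix.mul_assoc]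
    rw [e1, e2]
    ring
  refine calc_congr (calc_smul (1 / 2 : ℝ) (calc_sum (range (p.natDegree + 1)) fun n _ =>
    calc_smul (p.coeff n) (key2 n))) (fun x => rfl) (fun x => ?_)
  unfold dcalG
  rw [Finset.mul_sum]
  refine Finset.sum_congr rfl fun n _ => ?_
  ring

end Pool.Agent.LT
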