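import Pool.Agent.LT.H1Weak

/-!
# Density of smooth compactly supported functions in `H¹`
-/

set_option autoImplicit false
set_option linter.unusedSectionVars false

open MeasureTheory Set Metric Filter
open scoped ENNReal NNReal Topology Convolution

namespace Pool.Agent.LT.H1

theorem enorm_add_sq_le (a b : ℂ) : ‖a + b‖ₑ ^ 2 ≤ 2 * ‖a‖ₑ ^ 2 + 2 * ‖b‖ₑ ^ 2 := by
  have h : ‖a + b‖ ^ 2 ≤ 2 * ‖a‖ ^ 2 + 2 * ‖b‖ ^ 2 := by
    have h1 := norm_add_le a b
    have h2 : ‖a + b‖ ^ 2 ≤ (‖a‖ + ‖b‖) ^ 2 := pow_le_pow_left₀ (norm_nonneg _) h1 2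
    nlinarith [sq_nonneg (‖a‖ - ‖b‖)]
  have e : ∀ c : ℂ, ‖c‖ₑ ^ 2 = ENNReal.ofReal (‖c‖ ^ 2) := by
    intro c
    rw [← ofReal_norm, ENNReal.ofReal_pow (norm_nonneg _)]
  have e2 : ∀ c : ℂ, 2 * ‖c‖ₑ ^ 2 = ENNReal.ofReal (2 * ‖c‖ ^ 2) := by
    intro c
    rw [e, ENNReal.ofReal_mul (by norm_num)]; norm_num
  rw [e, e2, e2, ← ENNReal.ofReal_add (by positivity) (by positivity)]
  exact ENNReal.ofReal_le_ofReal h

theorem n2_add_le {α : Type} [MeasurableSpace α] {ν : Measure α} {f g : α → ℂ}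
    (hf : AEStronglyMeasurable f ν) :
    ∫⁻ x, ‖f x + g x‖ₑ ^ 2 ∂ν ≤ 2 * (∫⁻ x, ‖f x‖ₑ ^ 2 ∂ν) + 2 * (∫⁻ x, ‖g x‖ₑ ^ 2 ∂ν) := by
  have hm : AEMeasurable (fun x => ‖f x‖ₑ ^ 2) ν := hf.enorm.pow_const 2
  calc ∫⁻ x, ‖f x + g x‖ₑ ^ 2 ∂ν ≤ ∫⁻ x, (2 * ‖f x‖ₑ ^ 2 + 2 * ‖g x‖ₑ ^ 2) ∂ν :=
        lintegral_mono fun x => enorm_add_sq_le _ _
    _ = _ := by
        rw [lintegral_add_left' (hm.const_mul 2), lintegral_const_mul' _ _ (by norm_num),
          lintegral_const_mul' _ _ (by norm_num)]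

theorem memLp_iff_n2 {α : Type} [MeasurableSpace α] {ν : Measure α} {f : α → ℂ}
    (hf : AEStronglyMeasurable f ν) : MemLp f 2 ν ↔ ∫⁻ x, ‖f x‖ₑ ^ 2 ∂ν ≠ ∞ := by
  rw [← sq_eLpNorm_two]
  constructor
  · intro h
    exact ENNReal.pow_ne_top h.2.ne
  · intro h
    refine ⟨hf, lt_top_iff_ne_top.2 fun hcon => h ?_⟩
    rw [hcon]; simp

section
variable {V : Type} [NormedAddCommGroup V] [NormedSpace ℝ V] [FiniteDimensional ℝ V]
  [MeasureSpace V] [BorelSpace V] [(volume : Measure V).IsAddHaarMeasure]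

/-- a fixed bump function -/
noncomputable def bump0 (V : Type) [NormedAddCommGroup V] : ContDiffBump (0 : V) :=
  ⟨1, 2, one_pos, one_lt_two⟩

/-- cutoff functions -/
noncomputable def cut [HasContDiffBump V] (n : ℕ) (x : V) : ℝ :=
  bump0 V (((n : ℝ) + 1)⁻¹ • x)

omit [FiniteDimensional ℝ V] [MeasureSpace V] [BorelSpace V]
  [(volume : Measure V).IsAddHaarMeasure] in
theorem cut_mem [HasContDiffBump V] (n : ℕ) (x : V) : 0 ≤ cut n x ∧ cut n x ≤ 1 :=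
  ⟨(bump0 V).nonneg, (bump0 V).le_one⟩

omit [FiniteDimensional ℝ V] [MeasureSpace V] [BorelSpace V]
  [(volume : Measure V).IsAddHaarMeasure] in
theorem cut_eventually [HasContDiffBump V] (x : V) : ∀ᶠ n : ℕ in atTop, cut n x = 1 := by
  have h : ∀ᶠ n : ℕ in atTop, ‖x‖ ≤ (n : ℝ) :=
    tendsto_natCast_atTop_atTop.eventually_ge_atTop ‖x‖
  filter_upwards [h] with n hn
  apply (bump0 V).one_of_mem_closedBall
  rw [mem_closedBall_zero_iff, norm_smul, norm_inv, Real.norm_eq_abs,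
    abs_of_pos (by positivity : (0 : ℝ) < (n : ℝ) + 1), inv_mul_eq_div,
    div_le_iff₀ (by positivity)]
  show ‖x‖ ≤ 1 * ((n : ℝ) + 1)
  linarith

theorem cut_contDiff (n : ℕ) : ContDiff ℝ (⊤ : ℕ∞) (cut (V := V) n) := by
  unfold cut
  exact (bump0 V).contDiff.comp (contDiff_const_smul _)

theorem cut_compact (n : ℕ) : HasCompactSupport (cut (V := V) n) := by
  unfold cut
  exact (bump0 V).hasCompactSupport.comp_homeomorph
    (Homeomorph.smulOfNeZero (((n : ℝ) + 1)⁻¹) (by positivity))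

theorem cut_fderiv : ∃ C : ℝ, 0 ≤ C ∧ ∀ (n : ℕ) (x v : V),
    |fderiv ℝ (cut (V := V) n) x v| ≤ C / (n + 1) * ‖v‖ := by
  have hd : ContDiff ℝ (⊤ : ℕ∞) (bump0 V) := (bump0 V).contDiff
  have hs : HasCompactSupport (bump0 V) := (bump0 V).hasCompactSupport
  have hc : Continuous (fderiv ℝ (bump0 V)) := hd.continuous_fderiv (by simp)
  obtain ⟨C, hC⟩ := hc.bounded_above_of_compact_support (hs.fderiv ℝ)
  have hC0 : 0 ≤ C := (norm_nonneg _).trans (hC 0)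
  refine ⟨C, hC0, fun n x v => ?_⟩
  have hpos : (0 : ℝ) < (n : ℝ) + 1 := by positivity
  have h1 : HasFDerivAt (fun x : V => ((n : ℝ) + 1)⁻¹ • x)
      (((n : ℝ) + 1)⁻¹ • ContinuousLinearMap.id ℝ V) x := (hasFDerivAt_id x).const_smul _
  have h2 : HasFDerivAt (cut (V := V) n) ((fderiv ℝ (bump0 V) (((n : ℝ) + 1)⁻¹ • x)).comp
      (((n : ℝ) + 1)⁻¹ • ContinuousLinearMap.id ℝ V)) x :=
    ((hd.differentiable (by simp)) _).hasFDerivAt.comp x h1
  rw [h2.fderiv]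
  have h3 : ((fderiv ℝ (bump0 V) (((n : ℝ) + 1)⁻¹ • x)).comp
      (((n : ℝ) + 1)⁻¹ • ContinuousLinearMap.id ℝ V)) v =
      ((n : ℝ) + 1)⁻¹ * fderiv ℝ (bump0 V) (((n : ℝ) + 1)⁻¹ • x) v := by
    simp
  rw [h3, abs_mul, abs_of_pos (inv_pos.2 hpos)]
  have h4 : |fderiv ℝ (bump0 V) (((n : ℝ) + 1)⁻¹ • x) v| ≤ C * ‖v‖ := by
    rw [← Real.norm_eq_abs]
    exact ((fderiv ℝ (bump0 V) _).le_opNorm v).trans (by gcongr; exact hC _)
  calc ((n : ℝ) + 1)⁻¹ * |fderiv ℝ (bump0 V) (((n : ℝ) + 1)⁻¹ • x) v|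
      ≤ ((n : ℝ) + 1)⁻¹ * (C * ‖v‖) := by gcongr
    _ = C / (n + 1) * ‖v‖ := by ring

theorem cut_tendsto {f : V → ℂ} (hf : MemLp f 2) :
    Tendsto (fun n : ℕ => ∫⁻ x, ‖((cut n x - 1 : ℝ) : ℂ) * f x‖ₑ ^ 2) atTop (𝓝 0) := by
  have hfin : ∫⁻ x, ‖f x‖ₑ ^ 2 ≠ ∞ := (memLp_iff_n2 hf.1).1 hf
  have h := tendsto_lintegral_of_dominated_convergence' (μ := (volume : Measure V))
    (F := fun (n : ℕ) x => ‖((cut n x - 1 : ℝ) : ℂ) * f x‖ₑ ^ 2) (f := fun _ => 0)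
    (fun x => ‖f x‖ₑ ^ 2) ?_ ?_ hfin ?_
  · simpa using h
  · intro n
    have hc : Continuous fun x : V => ((cut n x - 1 : ℝ) : ℂ) :=
      Complex.continuous_ofReal.comp ((cut_contDiff n).continuous.sub continuous_const)
    exact (hc.aestronglyMeasurable.mul hf.1).enorm.pow_const 2
  · intro n
    refine Eventually.of_forall fun x => ?_
    refine pow_le_pow_left' ?_ 2
    rw [enorm_mul]
    have h1 : ‖((cut n x - 1 : ℝ) : ℂ)‖ₑ ≤ 1 := by
      rw [← ofReal_norm, Complex.norm_real, Real.norm_eq_abs]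
      have := cut_mem n x
      rw [ENNReal.ofReal_le_one, abs_le]
      constructor <;> linarith [this.1, this.2]
    calc ‖((cut n x - 1 : ℝ) : ℂ)‖ₑ * ‖f x‖ₑ ≤ 1 * ‖f x‖ₑ := by gcongr
      _ = ‖f x‖ₑ := one_mul _
  · refine Eventually.of_forall fun x => ?_
    apply tendsto_const_nhds.congr'
    filter_upwards [cut_eventually x] with n hn
    rw [hn]
    simp

/-- Mollification: a smooth `H¹` approximation -/
theorem h1_smooth {ι : Type} [Fintype ι] {ψ : V → ℂ} {G : ι → V → ℂ} {v : ι → V}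
    (hψm : Measurable ψ) (hψ : MemLp ψ 2) (hGm : ∀ i, Measurable (G i))
    (hG : ∀ i, MemLp (G i) 2) (hw : ∀ i, WeakD ψ (G i) (v i)) {ε : ℝ} (hε : 0 < ε) :
    ∃ m : V → ℂ, ContDiff ℝ (⊤ : ℕ∞) m ∧ ∫⁻ x, ‖m x - ψ x‖ₑ ^ 2 ≤ ENNReal.ofReal ε ∧
      ∀ i, ∫⁻ x, ‖fderiv ℝ m x (v i) - G i x‖ₑ ^ 2 ≤ ENNReal.ofReal ε := by
  obtain ⟨r0, hr0, h0⟩ := translate_L2 hψ hε
  choose r hr h using fun i => translate_L2 (hG i) hε
  obtain ⟨s, hs, hs1, hs2⟩ : ∃ s > 0, s < r0 ∧ ∀ i, s < r i := by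
    by_cases hι : Nonempty ι
    · obtain ⟨i0, hi0⟩ := Finite.exists_min r
      refine ⟨min r0 (r i0) / 2, by have := hr i0; positivity, ?_, fun i => ?_⟩
      · have h1 : min r0 (r i0) ≤ r0 := min_le_left _ _
        linarith
      · have h1 : min r0 (r i0) ≤ r i := (min_le_right _ _).trans (hi0 i)
        have := hr i
        have h2 : 0 < min r0 (r i0) := lt_min hr0 (hr i0)
        linarith
    · exact ⟨r0 / 2, by positivity, by linarith, fun i => absurd ⟨i⟩ hι⟩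
  let φ : ContDiffBump (0 : V) := ⟨s / 2, s, by positivity, by linarith⟩
  have hφr : φ.rOut = s := rfl
  have hηd : ContDiff ℝ (⊤ : ℕ∞) (φ.normed (volume : Measure V)) := φ.contDiff_normed
  have hηs : HasCompactSupport (φ.normed (volume : Measure V)) := φ.hasCompactSupport_normed
  have hloc : LocallyIntegrable ψ volume := hψ.locallyIntegrable (by norm_num)
  refine ⟨φ.normed volume ⋆[ContinuousLinearMap.lsmul ℝ ℝ, volume] ψ, ?_, ?_, ?_⟩
  · exact hηs.contDiff_convolution_left (ContinuousLinearMap.lsmul ℝ ℝ) hηd hloc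
  · exact mollify_L2 hψm hψ h0 φ (by rw [hφr]; exact hs1)
  · intro i
    have e : ∀ x, fderiv ℝ (φ.normed volume ⋆[ContinuousLinearMap.lsmul ℝ ℝ, volume] ψ) x (v i) =
        (φ.normed volume ⋆[ContinuousLinearMap.lsmul ℝ ℝ, volume] G i) x := fun x =>
      moll_fderiv hloc (hw i) hηd hηs x
    simp only [e]
    exact mollify_L2 (hGm i) (hG i) (h i) φ (by rw [hφr]; exact hs2 i)

/-- smooth compactly supported functions are dense in `H¹` -/
theorem h1_approx {ι : Type} [Fintype ι] {ψ : V → ℂ} {G : ι → V → ℂ} {v : ι → V}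
    (hψm : Measurable ψ) (hψ : MemLp ψ 2) (hGm : ∀ i, Measurable (G i))
    (hG : ∀ i, MemLp (G i) 2) (hw : ∀ i, WeakD ψ (G i) (v i)) {ε : ℝ} (hε : 0 < ε) :
    ∃ u : V → ℂ, ContDiff ℝ (⊤ : ℕ∞) u ∧ HasCompactSupport u ∧
      ∫⁻ x, ‖u x - ψ x‖ₑ ^ 2 ≤ ENNReal.ofReal ε ∧
      ∀ i, ∫⁻ x, ‖fderiv ℝ u x (v i) - G i x‖ₑ ^ 2 ≤ ENNReal.ofReal ε := by
  obtain ⟨m, hm, hm1, hm2⟩ := h1_smooth hψm hψ hGm hG hw (ε := ε / 16) (by positivity)
  have hcm := hm.continuous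
  have hcd : ∀ i, Continuous fun x => fderiv ℝ m x (v i) := fun i =>
    (hm.continuous_fderiv (by simp)).clm_apply continuous_const
  -- `m` and its derivatives are in `L²`
  have hmL : MemLp m 2 := by
    rw [memLp_iff_n2 hcm.aestronglyMeasurable]
    have h1 := n2_add_le (f := fun x => m x - ψ x) (g := ψ) (ν := (volume : Measure V))
      (hcm.aestronglyMeasurable.sub hψ.1)
    simp only [sub_add_cancel] at h1
    refine ne_top_of_le_ne_top ?_ h1
    refine ENNReal.add_ne_top.2 ⟨ENNReal.mul_ne_top (by norm_num)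
      (ne_top_of_le_ne_top ENNReal.ofReal_ne_top hm1), ENNReal.mul_ne_top (by norm_num)
      ((memLp_iff_n2 hψ.1).1 hψ)⟩
  have hdL : ∀ i, MemLp (fun x => fderiv ℝ m x (v i)) 2 := by
    intro i
    rw [memLp_iff_n2 (hcd i).aestronglyMeasurable]
    have h1 := n2_add_le (f := fun x => fderiv ℝ m x (v i) - G i x) (g := G i)
      (ν := (volume : Measure V)) ((hcd i).aestronglyMeasurable.sub (hG i).1)
    simp only [sub_add_cancel] at h1
    refine ne_top_of_le_ne_top ?_ h1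
    refine ENNReal.add_ne_top.2 ⟨ENNReal.mul_ne_top (by norm_num)
      (ne_top_of_le_ne_top ENNReal.ofReal_ne_top (hm2 i)), ENNReal.mul_ne_top (by norm_num)
      ((memLp_iff_n2 (hG i).1).1 (hG i))⟩
  obtain ⟨C, hC0, hC⟩ := cut_fderiv (V := V)
  have hε16 : (0 : ℝ≥0∞) < ENNReal.ofReal (ε / 16) := ENNReal.ofReal_pos.2 (by positivity)
  -- choose `n`
  have ev1 : ∀ᶠ n : ℕ in atTop, ∫⁻ x, ‖((cut n x - 1 : ℝ) : ℂ) * m x‖ₑ ^ 2 ≤
      ENNReal.ofReal (ε / 16) :=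
    ((tendsto_order.1 (cut_tendsto hmL)).2 _ hε16).mono fun n hn => hn.le
  have ev2 : ∀ᶠ n : ℕ in atTop, ∀ i,
      ∫⁻ x, ‖((cut n x - 1 : ℝ) : ℂ) * fderiv ℝ m x (v i)‖ₑ ^ 2 ≤ ENNReal.ofReal (ε / 16) :=
    eventually_all.2 fun i =>
      ((tendsto_order.1 (cut_tendsto (hdL i))).2 _ hε16).mono fun n hn => hn.le
  have ev3 : ∀ᶠ n : ℕ in atTop, ∀ i,
      ∫⁻ x, ‖((fderiv ℝ (cut (V := V) n) x (v i) : ℝ) : ℂ) * m x‖ₑ ^ 2 ≤
        ENNReal.ofReal (ε / 16) := by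
    refine eventually_all.2 fun i => ?_
    have hfin : ∫⁻ x, ‖m x‖ₑ ^ 2 ≠ ∞ := (memLp_iff_n2 hmL.1).1 hmL
    set A : ℝ := (∫⁻ x, ‖m x‖ₑ ^ 2).toReal with hA
    have hA0 : 0 ≤ A := ENNReal.toReal_nonneg
    have hAe : ∫⁻ x, ‖m x‖ₑ ^ 2 = ENNReal.ofReal A := (ENNReal.ofReal_toReal hfin).symm
    have hlim : Tendsto (fun n : ℕ => (C / ((n : ℝ) + 1) * ‖v i‖) ^ 2 * A) atTop (𝓝 0) := by
      have h1 : Tendsto (fun n : ℕ => C / ((n : ℝ) + 1)) atTop (𝓝 0) :=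
        tendsto_const_nhds.div_atTop (tendsto_natCast_atTop_atTop.atTop_add tendsto_const_nhds)
      have h2 := ((h1.mul_const ‖v i‖).pow 2).mul_const A
      simpa using h2
    have hev := (tendsto_order.1 hlim).2 (ε / 16) (by positivity)
    filter_upwards [hev] with n hn
    calc ∫⁻ x, ‖((fderiv ℝ (cut (V := V) n) x (v i) : ℝ) : ℂ) * m x‖ₑ ^ 2
        ≤ ∫⁻ x, ENNReal.ofReal ((C / ((n : ℝ) + 1) * ‖v i‖) ^ 2) * ‖m x‖ₑ ^ 2 := by
          apply lintegral_mono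
          intro x
          simp only
          rw [enorm_mul, mul_pow]
          refine mul_le_mul' ?_ le_rfl
          rw [← ofReal_norm, Complex.norm_real, Real.norm_eq_abs,
            ← ENNReal.ofReal_pow (abs_nonneg _)]
          apply ENNReal.ofReal_le_ofReal
          exact pow_le_pow_left₀ (abs_nonneg _) (hC n x (v i)) 2
      _ = ENNReal.ofReal ((C / ((n : ℝ) + 1) * ‖v i‖) ^ 2 * A) := by
          rw [lintegral_const_mul' _ _ ENNReal.ofReal_ne_top, hAe,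
            ← ENNReal.ofReal_mul (by positivity)]
      _ ≤ ENNReal.ofReal (ε / 16) := ENNReal.ofReal_le_ofReal hn.le
  obtain ⟨n, hn1, hn2, hn3⟩ := (ev1.and (ev2.and ev3)).exists
  have hcut := cut_contDiff (V := V) n
  have hcutc : Continuous fun x : V => ((cut n x : ℝ) : ℂ) :=
    Complex.continuous_ofReal.comp hcut.continuous
  have hcut1 : Continuous fun x : V => ((cut n x - 1 : ℝ) : ℂ) :=
    Complex.continuous_ofReal.comp (hcut.continuous.sub continuous_const)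
  have hcutC : ContDiff ℝ (⊤ : ℕ∞) fun x : V => ((cut n x : ℝ) : ℂ) :=
    Complex.ofRealCLM.contDiff.comp hcut
  refine ⟨fun x => ((cut n x : ℝ) : ℂ) * m x, hcutC.mul hm, ?_, ?_, ?_⟩
  · refine HasCompactSupport.mul_right ?_
    refine (cut_compact (V := V) n).mono fun x hx => ?_
    by_contra hcon
    apply hx
    have : cut n x = 0 := by by_contra h; exact hcon h
    simp [this]
  · have e : ∀ x, ((cut n x : ℝ) : ℂ) * m x - ψ x =
        ((cut n x - 1 : ℝ) : ℂ) * m x + (m x - ψ x) := by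
      intro x; push_cast; ring
    simp only [e]
    have h1 := n2_add_le (f := fun x => ((cut n x - 1 : ℝ) : ℂ) * m x)
      (g := fun x => m x - ψ x) (ν := (volume : Measure V))
      (hcut1.mul hcm).aestronglyMeasurable
    refine h1.trans ?_
    calc 2 * (∫⁻ x, ‖((cut n x - 1 : ℝ) : ℂ) * m x‖ₑ ^ 2) + 2 * (∫⁻ x, ‖m x - ψ x‖ₑ ^ 2)
        ≤ 2 * ENNReal.ofReal (ε / 16) + 2 * ENNReal.ofReal (ε / 16) := by gcongr
      _ = ENNReal.ofReal (4 * (ε / 16)) := by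
          rw [ENNReal.ofReal_mul (by norm_num)]
          rw [← add_mul]; norm_num
      _ ≤ ENNReal.ofReal ε := ENNReal.ofReal_le_ofReal (by linarith)
  · intro i
    have hd : ∀ x, fderiv ℝ (fun x => ((cut n x : ℝ) : ℂ) * m x) x (v i) =
        ((cut n x : ℝ) : ℂ) * fderiv ℝ m x (v i) +
          ((fderiv ℝ (cut (V := V) n) x (v i) : ℝ) : ℂ) * m x := by
      intro x
      have h1 : HasFDerivAt (fun x => ((cut n x : ℝ) : ℂ))
          (Complex.ofRealCLM.comp (fderiv ℝ (cut (V := V) n) x)) x :=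
        Complex.ofRealCLM.hasFDerivAt.comp x
          ((hcut.differentiable (by simp)) x).hasFDerivAt
      have h2 : HasFDerivAt (fun x => ((cut n x : ℝ) : ℂ) * m x)
          (((cut n x : ℝ) : ℂ) • fderiv ℝ m x +
            m x • (Complex.ofRealCLM.comp (fderiv ℝ (cut (V := V) n) x))) x :=
        h1.mul ((hm.differentiable (by simp)) x).hasFDerivAt
      rw [h2.fderiv]
      simp only [add_apply, smul_apply,
        ContinuousLinearMap.comp_apply, Complex.ofRealCLM_apply, smul_eq_mul]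
      ring
    have e : ∀ x, fderiv ℝ (fun x => ((cut n x : ℝ) : ℂ) * m x) x (v i) - G i x =
        ((cut n x - 1 : ℝ) : ℂ) * fderiv ℝ m x (v i) +
          (((fderiv ℝ (cut (V := V) n) x (v i) : ℝ) : ℂ) * m x +
          (fderiv ℝ m x (v i) - G i x)) := by
      intro x; rw [hd]; push_cast; ring
    simp only [e]
    have hcf : Continuous fun x : V => ((fderiv ℝ (cut (V := V) n) x (v i) : ℝ) : ℂ) :=
      Complex.continuous_ofReal.comp ((hcut.continuous_fderiv (by simp)).clm_apply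
        continuous_const)
    have h1 := n2_add_le (f := fun x => ((cut n x - 1 : ℝ) : ℂ) * fderiv ℝ m x (v i))
      (g := fun x => ((fderiv ℝ (cut (V := V) n) x (v i) : ℝ) : ℂ) * m x +
          (fderiv ℝ m x (v i) - G i x)) (ν := (volume : Measure V))
      (hcut1.mul (hcd i)).aestronglyMeasurable
    have h2 := n2_add_le (f := fun x => ((fderiv ℝ (cut (V := V) n) x (v i) : ℝ) : ℂ) * m x)
      (g := fun x => fderiv ℝ m x (v i) - G i x) (ν := (volume : Measure V))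
      (hcf.mul hcm).aestronglyMeasurable
    refine h1.trans ?_
    calc 2 * (∫⁻ x, ‖((cut n x - 1 : ℝ) : ℂ) * fderiv ℝ m x (v i)‖ₑ ^ 2) +
          2 * (∫⁻ x, ‖((fderiv ℝ (cut (V := V) n) x (v i) : ℝ) : ℂ) * m x +
          (fderiv ℝ m x (v i) - G i x)‖ₑ ^ 2)
        ≤ 2 * ENNReal.ofReal (ε / 16) +
          2 * (2 * ENNReal.ofReal (ε / 16) + 2 * ENNReal.ofReal (ε / 16)) := by
          refine add_le_add (mul_le_mul' le_rfl (hn2 i)) (mul_le_mul' le_rfl (h2.trans ?_))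
          exact add_le_add (mul_le_mul' le_rfl (hn3 i)) (mul_le_mul' le_rfl (hm2 i))
      _ = ENNReal.ofReal (10 * (ε / 16)) := by
          rw [ENNReal.ofReal_mul (by norm_num)]
          have : ENNReal.ofReal 10 = 10 := by norm_num
          rw [this]
          ring
      _ ≤ ENNReal.ofReal ε := ENNReal.ofReal_le_ofReal (by linarith)

end

end Pool.Agent.LT.H1
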