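import Pool.Agent.LT.Defs2
import Pool.Agent.LT.H1Approx

/-!
# Density of test functions in `H¹(ℝ^d)`
-/

set_option autoImplicit false

namespace Pool.Agent.LT

open MeasureTheory Matrix Finset
open scoped ComplexConjugate ComplexOrder ContDiff ENNReal

theorem dens_int {α : Type} [MeasurableSpace α] {ν : Measure α} {f : α → ℂ} {ε : ℝ}
    (hε : 0 ≤ ε) (h : ∫⁻ x, ‖f x‖ₑ ^ 2 ∂ν ≤ ENNReal.ofReal ε) : ∫ x, ‖f x‖ ^ 2 ∂ν ≤ ε := by
  have e : ∀ x, ‖f x‖ₑ ^ 2 = ENNReal.ofReal (‖f x‖ ^ 2) := fun x => by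
    rw [← ofReal_norm, ENNReal.ofReal_pow (norm_nonneg _)]
  by_cases hm : AEStronglyMeasurable (fun x => ‖f x‖ ^ 2) ν
  · rw [integral_eq_lintegral_of_nonneg_ae (Filter.Eventually.of_forall fun x => by positivity)
      hm]
    simp only [e] at h
    exact ENNReal.toReal_le_of_le_ofReal hε h
  · rw [integral_undef (fun hi => hm hi.1)]
    exact hε

theorem dens : DensStmt := by
  intro d u g hu ε hε
  obtain ⟨hu2, hg2, hw⟩ := hu
  -- measurable representatives
  set ψ := hu2.1.mk u with hψ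
  have hψm : Measurable ψ := hu2.1.stronglyMeasurable_mk.measurable
  have hψe : u =ᵐ[volume] ψ := hu2.1.ae_eq_mk
  set G : Fin d → (Fin d → ℝ) → ℂ := fun i => (hg2 i).1.mk (g i) with hG
  have hGm : ∀ i, Measurable (G i) := fun i => (hg2 i).1.stronglyMeasurable_mk.measurable
  have hGe : ∀ i, g i =ᵐ[volume] G i := fun i => (hg2 i).1.ae_eq_mk
  have hψ2 : MemLp ψ 2 volume := (memLp_congr_ae hψe).1 hu2
  have hG2 : ∀ i, MemLp (G i) 2 volume := fun i => (memLp_congr_ae (hGe i)).1 (hg2 i)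
  have hW : ∀ i, H1.WeakD ψ (G i) (Pi.single i (1 : ℝ) : Fin d → ℝ) := by
    intro i
    have h1 : H1.WeakD u (g i) (Pi.single i (1 : ℝ) : Fin d → ℝ) :=
      fun φ hφ hs => hw i φ ⟨hφ, hs⟩
    exact H1.weakD_congr h1 hψe (hGe i)
  obtain ⟨f, hf, hfs, h1, h2⟩ := H1.h1_approx hψm hψ2 hGm hG2 hW hε
  refine ⟨f, ⟨hf, hfs⟩, ?_, ?_⟩
  · have h3 := dens_int hε.le h1
    refine le_trans (le_of_eq ?_) h3
    apply integral_congr_ae
    filter_upwards [hψe] with x hx
    rw [hx, norm_sub_rev]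
  · intro i
    have h3 := dens_int hε.le (h2 i)
    refine le_trans (le_of_eq ?_) h3
    apply integral_congr_ae
    filter_upwards [hGe i] with x hx
    rw [hx, norm_sub_rev]

end Pool.Agent.LT
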