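import Pool.Agent.LT.KinBase

/-!
# (KIN) the kinetic inequality from the calibration (MP_4c716f_mp; mathematics: helper15)

`S(x) = ε + ∫_{Iic x} P` with `P = gram v`, the pointwise bound (PW), the polynomial approximation
(POLY), integration over `[-n, n]`, `n → ∞`, then `η → 0`, then `ε → 0`.
-/

set_option autoImplicit false

namespace Pool.Agent.LT

open MeasureTheory Matrix Finset Filter Topology
open scoped ComplexConjugate ComplexOrder

section Main

variable {H : Type} [NormedAddCommGroup H] [InnerProductSpace ℂ H]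

lemma kin_eps [CompleteSpace H] (hb : BilStmt) (hc : CalcStmt) (hw : PWStmt) (hp : PolyStmt)
    (hpos : ∀ (N : ℕ) (v : Fin N → H), PosFor (gram v))
    {N : ℕ} {ε : ℝ} (hε : 0 < ε) (hε' : ε < 1 / 2) {v w : Fin N → ℝ → H}
    (hv : ∀ j, IsH1v (v j) (w j))
    (hle : (((1 - 2 * ε : ℝ) : ℂ) • 1 - Matrix.of fun i j => ∫ x, inner ℂ (v j x) (v i x) :
        Matrix (Fin N) (Fin N) ℂ).PosSemidef) :
    Integrable (fun x => (Matrix.trace (gram (fun j => v j x) ^ 3)).re) volume ∧
    Integrable (fun x => (∑ i, ‖v i x‖ ^ 2) ^ 3) volume ∧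
    ∀ η : ℝ, 0 < η → Real.pi ^ 2 / 4 * (∫ x, (Matrix.trace (gram (fun j => v j x) ^ 3)).re) -
      η * (∫ x, (∑ i, ‖v i x‖ ^ 2) ^ 3) ≤ ∑ j, ∫ x, ‖w j x‖ ^ 2 := by
  have hvAC : ∀ j, ACv (v j) (w j) := fun j =>
    ⟨fun a b => (((hv j).2.1.locallyIntegrable one_le_two).integrableOn_isCompact
      isCompact_uIcc).intervalIntegrable, (hv j).2.2⟩
  have hPint : ∀ i j, Integrable (fun x => inner ℂ (v j x) (v i x)) volume := fun i j =>
    kin_int_inner (hv j).1 (hv i).1
  have hQint : ∀ i j, Integrable (fun x => inner ℂ (v j x) (w i x) + inner ℂ (w j x) (v i x))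
      volume := fun i j => (kin_int_inner (hv j).1 (hv i).2.1).add
        (kin_int_inner (hv j).2.1 (hv i).1)
  -- the inner product as a continuous real bilinear map
  let B : H →L[ℝ] H →L[ℝ] ℂ :=
    (isBoundedBilinearMap_inner (𝕜 := ℂ) (E := H)).toContinuousLinearMap
  have hB : ∀ x y : H, B x y = inner ℂ x y := fun x y => rfl
  have hPAC : ∀ i j, ACv (fun x => inner ℂ (v j x) (v i x))
      (fun x => inner ℂ (v j x) (w i x) + inner ℂ (w j x) (v i x)) := by
    intro i j
    have h := hb H H ℂ B (v j) (w j) (v i) (w i) (hvAC j) (hvAC i)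
    simp only [hB] at h
    refine ⟨fun a b => (hQint i j).intervalIntegrable, fun a b => ?_⟩
    have h2 := h.2 a b
    rw [h2]
    exact intervalIntegral.integral_congr fun x _ => add_comm _ _
  have hPcont : ∀ i j, Continuous (fun x => inner ℂ (v j x) (v i x)) := fun i j =>
    (hPAC i j).continuous
  -- bounds
  have hbd : ∀ i, ∃ C : ℝ, 0 ≤ C ∧ ∀ x, ‖inner ℂ (v i x) (v i x)‖ ≤ C := fun i =>
    kin_bound (hPAC i i).2 (hQint i i)
  choose C hC0 hC using hbd
  have hsq : ∀ i x, ‖v i x‖ ^ 2 = (inner ℂ (v i x) (v i x)).re := fun i x => by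
    rw [inner_self_eq_norm_sq_to_K]; norm_cast
  have hsq' : ∀ i x, ‖v i x‖ ^ 2 ≤ C i := fun i x => by
    rw [hsq]; exact (Complex.re_le_norm _).trans (hC i x)
  have hTcont : Continuous (fun x => ∑ i, ‖v i x‖ ^ 2) := by
    simp only [hsq]
    exact continuous_finsetSum _ fun i _ => Complex.continuous_re.comp (hPcont i i)
  have hTint : Integrable (fun x => ∑ i, ‖v i x‖ ^ 2) volume :=
    integrable_finsetSum _ fun i _ => kin_int_norm_sq (hv i).1
  have hTnn : ∀ x, 0 ≤ ∑ i, ‖v i x‖ ^ 2 := fun x => Finset.sum_nonneg fun i _ => by positivity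
  have hTle : ∀ x, ∑ i, ‖v i x‖ ^ 2 ≤ ∑ i, C i := fun x => Finset.sum_le_sum fun i _ => hsq' i x
  have hT3int : Integrable (fun x => (∑ i, ‖v i x‖ ^ 2) ^ 3) volume := by
    refine Integrable.mono' (hTint.const_mul ((∑ i, C i) ^ 2))
      (hTcont.pow 3).aestronglyMeasurable ?_
    filter_upwards with x
    rw [Real.norm_of_nonneg (pow_nonneg (hTnn x) 3), pow_succ]
    exact mul_le_mul_of_nonneg_right (pow_le_pow_left₀ (hTnn x) (hTle x) 2) (hTnn x)
  have hgcont : Continuous (fun x => gram (fun j => v j x)) :=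
    continuous_matrix fun i j => hPcont i j
  have hAcont : Continuous (fun x => (Matrix.trace (gram (fun j => v j x) ^ 3)).re) := by
    fun_prop
  have hAint : Integrable (fun x => (Matrix.trace (gram (fun j => v j x) ^ 3)).re) volume := by
    refine Integrable.mono' hT3int hAcont.aestronglyMeasurable ?_
    filter_upwards with x
    rw [kin_trace_cube]
    refine le_trans ?_ (kin_abs_cubic (fun j => v j x))
    refine (Finset.abs_sum_le_sum_abs _ _).trans (Finset.sum_le_sum fun i _ => ?_)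
    refine (Finset.abs_sum_le_sum_abs _ _).trans (Finset.sum_le_sum fun j _ => ?_)
    exact (Finset.abs_sum_le_sum_abs _ _)
  refine ⟨hAint, hT3int, fun η hη => ?_⟩
  obtain ⟨p, hp'⟩ := hp ε hε hε' η hη
  -- the matrix `S`
  set M : ℝ → Matrix (Fin N) (Fin N) ℂ := fun x =>
    Matrix.of fun i j => ∫ y in Set.Iic x, inner ℂ (v j y) (v i y) with hM
  set S : ℝ → Matrix (Fin N) (Fin N) ℂ := fun x => (ε : ℂ) • 1 + M x with hS
  have hMpsd : ∀ x, (M x).PosSemidef := fun x => kin_gram_psd (fun j => (hv j).1) _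
  have hMle : ∀ x, (((1 - 2 * ε : ℝ) : ℂ) • 1 - M x).PosSemidef := by
    intro x
    have h1 := kin_gram_psd (fun j => (hv j).1) (Set.Ioi x)
    have h2 := hle.add h1
    convert h2 using 1
    ext i j
    simp only [hM, Matrix.sub_apply, Matrix.add_apply, Matrix.of_apply]
    have := integral_add_compl (measurableSet_Iic (a := x)) (hPint i j)
    rw [Set.compl_Iic] at this
    rw [← this]
    ring
  have hSherm : ∀ x, (S x).IsHermitian := fun x => by
    refine Matrix.IsHermitian.add ?_ (hMpsd x).isHermitian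
    ext i j
    simp only [conjTranspose_apply, Matrix.smul_apply, Matrix.one_apply, eq_comm]
    split_ifs <;> simp
  have hSev : ∀ x i, (hSherm x).eigenvalues i ∈ Set.Icc ε (1 - ε) := by
    intro x i
    refine kin_eig (hSherm x) ?_ ?_ i
    · have : S x - (ε : ℂ) • 1 = M x := by simp [hS]
      rw [this]; exact hMpsd x
    · have : (((1 - ε : ℝ) : ℂ) • 1 - S x) = ((1 - 2 * ε : ℝ) : ℂ) • 1 - M x := by
        simp only [hS]
        push_cast
        module
      rw [this]; exact hMle x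
  have hSAC : ∀ i j, ACv (fun x => S x i j) (fun x => gram (fun j => v j x) i j) := by
    intro i j
    refine ⟨fun a b => (hPint i j).intervalIntegrable, fun a b => ?_⟩
    have h := intervalIntegral.integral_Iic_sub_Iic (a := a) (b := b)
      (hPint i j).integrableOn (hPint i j).integrableOn
    simp only [hS, hM, Matrix.add_apply, Matrix.of_apply, gram]
    rw [← h]; ring
  have hPAC' : ∀ i j, ACv (fun x => gram (fun j => v j x) i j)
      (fun x => gramD (fun j => v j x) (fun j => w j x) i j) := hPAC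
  have hG := hc N p S (fun x => gram (fun j => v j x))
    (fun x => gramD (fun j => v j x) (fun j => w j x)) hSAC hPAC'
  have hWint : Integrable (fun x => ∑ i, ‖w i x‖ ^ 2) volume :=
    integrable_finsetSum _ fun i _ => kin_int_norm_sq (hv i).2.1
  have hL : Integrable (fun x => Real.pi ^ 2 / 4 * (Matrix.trace (gram (fun j => v j x) ^ 3)).re -
      η * (∑ i, ‖v i x‖ ^ 2) ^ 3) volume := (hAint.const_mul _).sub (hT3int.const_mul _)
  -- integrate over `[-n, n]`
  have hn : ∀ n : ℕ, (∫ x in (-(n:ℝ))..n, (Real.pi ^ 2 / 4 *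
      (Matrix.trace (gram (fun j => v j x) ^ 3)).re - η * (∑ i, ‖v i x‖ ^ 2) ^ 3)) ≤
      (∫ x in (-(n:ℝ))..n, ∑ i, ‖w i x‖ ^ 2) -
        (calG p (S n) (gram (fun j => v j n)) - calG p (S (-n)) (gram (fun j => v j (-n)))) := by
    intro n
    have h2 := hG.2 (-(n:ℝ)) n
    rw [h2, ← intervalIntegral.integral_sub hWint.intervalIntegrable (hG.1 _ _)]
    refine intervalIntegral.integral_mono_on (by linarith [(Nat.cast_nonneg n : (0:ℝ) ≤ n)])
      hL.intervalIntegrable (hWint.intervalIntegrable.sub (hG.1 _ _)) fun x _ => ?_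
    exact kin_pw hw hpos hε hη.le p hp' (S x) (hSherm x) (hSev x) (fun j => v j x)
      (fun j => w j x)
  -- limits
  have hgtop : Tendsto (fun x => gram (fun j => v j x)) atTop (𝓝 0) := by
    refine tendsto_pi_nhds.2 fun i => tendsto_pi_nhds.2 fun j => ?_
    exact kin_tendsto_atTop (hPAC i j).2 (hPint i j) (hQint i j)
  have hgbot : Tendsto (fun x => gram (fun j => v j x)) atBot (𝓝 0) := by
    refine tendsto_pi_nhds.2 fun i => tendsto_pi_nhds.2 fun j => ?_
    exact kin_tendsto_atBot (hPAC i j).2 (hPint i j) (hQint i j)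
  have hMtop : ∃ S1 : Matrix (Fin N) (Fin N) ℂ, Tendsto S atTop (𝓝 S1) := by
    refine ⟨(ε : ℂ) • 1 + M 0 + Matrix.of fun i j => ∫ y in Set.Ioi (0:ℝ),
      inner ℂ (v j y) (v i y), ?_⟩
    refine tendsto_pi_nhds.2 fun i => tendsto_pi_nhds.2 fun j => ?_
    have h2 := intervalIntegral_tendsto_integral_Ioi 0 (hPint i j).integrableOn tendsto_id
    have h3 := (tendsto_const_nhds (x := S 0 i j)).add h2
    refine h3.congr fun b => ?_
    have := (hSAC i j).2 0 b
    simp only [id]
    simp only [gram, Matrix.of_apply] at this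
    rw [← this]; ring
  have hMbot : ∃ S1 : Matrix (Fin N) (Fin N) ℂ, Tendsto S atBot (𝓝 S1) := by
    refine ⟨(ε : ℂ) • 1 + M 0 - Matrix.of fun i j => ∫ y in Set.Iic (0:ℝ),
      inner ℂ (v j y) (v i y), ?_⟩
    refine tendsto_pi_nhds.2 fun i => tendsto_pi_nhds.2 fun j => ?_
    have h2 := intervalIntegral_tendsto_integral_Iic 0 (hPint i j).integrableOn tendsto_id
    have h3 := (tendsto_const_nhds (x := S 0 i j)).sub h2
    refine h3.congr fun b => ?_
    have := (hSAC i j).2 b 0
    simp only [id]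
    simp only [gram, Matrix.of_apply] at this
    rw [← this]; ring
  obtain ⟨S1, hS1⟩ := hMtop
  obtain ⟨S2, hS2⟩ := hMbot
  have hGtop : Tendsto (fun x => calG p (S x) (gram (fun j => v j x))) atTop (𝓝 0) := by
    have h := ((kin_calG_cont p).tendsto (S1, 0)).comp (hS1.prodMk_nhds hgtop)
    simpa [kin_calG_zero, Function.comp_def] using h
  have hGbot : Tendsto (fun x => calG p (S x) (gram (fun j => v j x))) atBot (𝓝 0) := by
    have h := ((kin_calG_cont p).tendsto (S2, 0)).comp (hS2.prodMk_nhds hgbot)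
    simpa [kin_calG_zero, Function.comp_def] using h
  have hnat : Tendsto (fun n : ℕ => (n : ℝ)) atTop atTop := tendsto_natCast_atTop_atTop
  have hnat' : Tendsto (fun n : ℕ => -(n : ℝ)) atTop atBot := tendsto_neg_atTop_atBot.comp hnat
  have lim1 := intervalIntegral_tendsto_integral hL hnat' hnat
  have lim2 := intervalIntegral_tendsto_integral hWint hnat' hnat
  have lim3 := lim2.sub ((hGtop.comp hnat).sub (hGbot.comp hnat'))
  have hfin := le_of_tendsto_of_tendsto' lim1 lim3 hn
  rw [integral_sub (hAint.const_mul _) (hT3int.const_mul _), integral_const_mul,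
    integral_const_mul, sub_self, sub_zero] at hfin
  rwa [integral_finsetSum _ fun i _ => kin_int_norm_sq (hv i).2.1] at hfin

/-- **(KIN)** the kinetic inequality. -/
theorem kin (hb : BilStmt) (hc : CalcStmt) (hw : PWStmt) (hp : PolyStmt) : KinStmt := by
  intro H _ _ _ hpos N v w hv hle
  have key : ∀ ε : ℝ, 0 < ε → ε < 1 / 2 →
      Integrable (fun x => (Matrix.trace (gram (fun j => v j x) ^ 3)).re) volume ∧
      (1 - 2 * ε) ^ 2 * (Real.pi ^ 2 / 4 * ∫ x, (Matrix.trace (gram (fun j => v j x) ^ 3)).re) ≤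
        ∑ j, ∫ x, ‖w j x‖ ^ 2 := by
    intro ε hε hε'
    have hc0 : 0 < 1 - 2 * ε := by linarith
    set r : ℝ := √(1 - 2 * ε) with hr
    have hr0 : 0 < r := Real.sqrt_pos.2 hc0
    have hr2 : r * r = 1 - 2 * ε := Real.mul_self_sqrt hc0.le
    have hin : ∀ a b : H, inner ℂ ((r : ℂ) • a) ((r : ℂ) • b) =
        ((1 - 2 * ε : ℝ) : ℂ) * inner ℂ a b := fun a b => by
      rw [inner_smul_left, inner_smul_right, Complex.conj_ofReal, ← mul_assoc, ← hr2]
      push_cast; ring
    have hgr : ∀ u : Fin N → H, gram (fun j => (r : ℂ) • u j) =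
        ((1 - 2 * ε : ℝ) : ℂ) • gram u := fun u => by
      ext i j
      simp only [gram, Matrix.of_apply, Matrix.smul_apply, smul_eq_mul]
      exact hin _ _
    have hns : ∀ a : H, ‖(r : ℂ) • a‖ ^ 2 = (1 - 2 * ε) * ‖a‖ ^ 2 := fun a => by
      rw [norm_smul, mul_pow, Complex.norm_real, Real.norm_of_nonneg hr0.le, pow_two r, hr2]
    have htr : ∀ x, (Matrix.trace (gram (fun j => (r : ℂ) • v j x) ^ 3)).re =
        (1 - 2 * ε) ^ 3 * (Matrix.trace (gram (fun j => v j x) ^ 3)).re := fun x => by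
      rw [hgr (fun j => v j x), smul_pow, Matrix.trace_smul, smul_eq_mul, ← Complex.ofReal_pow,
        Complex.re_ofReal_mul]
    have hsm : ∀ x, (∑ i, ‖(r : ℂ) • v i x‖ ^ 2) ^ 3 =
        (1 - 2 * ε) ^ 3 * (∑ i, ‖v i x‖ ^ 2) ^ 3 := fun x => by
      simp only [hns]
      rw [← Finset.mul_sum, mul_pow]
    obtain ⟨h1, -, h3⟩ := kin_eps hb hc hw hp hpos hε hε' (v := fun j x => (r : ℂ) • v j x)
      (w := fun j x => (r : ℂ) • w j x)
      (fun j => ⟨(hv j).1.const_smul (r : ℂ), (hv j).2.1.const_smul (r : ℂ), fun a b => by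
        rw [intervalIntegral.integral_smul, ← (hv j).2.2 a b, smul_sub]⟩)
      (by
        have h := hle.smul (a := ((1 - 2 * ε : ℝ) : ℂ)) (by exact_mod_cast hc0.le)
        convert h using 1
        rw [smul_sub]
        congr 1
        ext i j
        simp only [Matrix.of_apply, Matrix.smul_apply, hin, smul_eq_mul]
        rw [integral_const_mul])
    simp only [htr] at h1
    simp only [htr, hsm, integral_const_mul] at h3
    simp only [hns, integral_const_mul] at h3
    have hint : Integrable (fun x => (Matrix.trace (gram (fun j => v j x) ^ 3)).re) volume := by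
      have h := h1.const_mul (((1 - 2 * ε) ^ 3)⁻¹)
      refine h.congr ?_
      filter_upwards with x
      rw [← mul_assoc, inv_mul_cancel₀ (by positivity), one_mul]
    refine ⟨hint, ?_⟩
    set A := ∫ x, (Matrix.trace (gram (fun j => v j x) ^ 3)).re
    set B := ∫ x, (∑ i, ‖v i x‖ ^ 2) ^ 3
    have h4 : Real.pi ^ 2 / 4 * ((1 - 2 * ε) ^ 3 * A) ≤
        ∑ j, (1 - 2 * ε) * ∫ x, ‖w j x‖ ^ 2 := by
      have lim : Tendsto (fun η : ℝ => Real.pi ^ 2 / 4 * ((1 - 2 * ε) ^ 3 * A) -
          η * ((1 - 2 * ε) ^ 3 * B)) (𝓝[>] 0)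
          (𝓝 (Real.pi ^ 2 / 4 * ((1 - 2 * ε) ^ 3 * A) - 0 * ((1 - 2 * ε) ^ 3 * B))) :=
        ((Continuous.tendsto (by fun_prop) 0)).mono_left nhdsWithin_le_nhds
      rw [zero_mul, sub_zero] at lim
      refine le_of_tendsto lim ?_
      filter_upwards [self_mem_nhdsWithin] with η hη
      exact h3 η hη
    rw [← Finset.mul_sum] at h4
    have h5 : (1 - 2 * ε) * ((1 - 2 * ε) ^ 2 * (Real.pi ^ 2 / 4 * A)) ≤
        (1 - 2 * ε) * ∑ j, ∫ x, ‖w j x‖ ^ 2 := by
      calc (1 - 2 * ε) * ((1 - 2 * ε) ^ 2 * (Real.pi ^ 2 / 4 * A))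
          = Real.pi ^ 2 / 4 * ((1 - 2 * ε) ^ 3 * A) := by ring
        _ ≤ _ := h4
    exact le_of_mul_le_mul_left h5 hc0
  refine ⟨(key (1 / 4) (by norm_num) (by norm_num)).1, ?_⟩
  set X := Real.pi ^ 2 / 4 * ∫ x, (Matrix.trace (gram (fun j => v j x) ^ 3)).re
  have lim : Tendsto (fun ε : ℝ => (1 - 2 * ε) ^ 2 * X) (𝓝[>] 0) (𝓝 ((1 - 2 * 0) ^ 2 * X)) :=
    (Continuous.tendsto (by fun_prop) 0).mono_left nhdsWithin_le_nhds
  have h0 : ((1 : ℝ) - 2 * 0) ^ 2 * X = X := by ring
  rw [h0] at lim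
  refine le_of_tendsto lim ?_
  filter_upwards [Ioo_mem_nhdsGT (show (0 : ℝ) < 1 / 2 by norm_num)] with ε hε
  exact (key ε hε.1 hε.2).2

end Main

end Pool.Agent.LT
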