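import Pool.Agent.LT.Defs

/-!
# Auxiliary lemmas for KIN and KIN2 (MP_4c716f_mp)

Linear algebra of Gram matrices, eigenvalues of `ε + R`, and the analytic facts on
`x ↦ gram (v x)` for `v ∈ H¹(ℝ; H)^N`.
-/

set_option autoImplicit false

namespace Pool.Agent.LT.KinAux

open MeasureTheory Matrix Finset Filter Topology
open scoped ComplexConjugate ComplexOrder

/-! ## Linear algebra -/

section Alg

variable {N : ℕ}

lemma gram_posSemidef {H : Type*} [NormedAddCommGroup H] [InnerProductSpace ℂ H]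
    (v : Fin N → H) : (gram v).PosSemidef := by
  have h := (Matrix.posSemidef_gram ℂ v).transpose
  exact h

lemma norm_sq_le {P : Matrix (Fin N) (Fin N) ℂ} (hP : P.PosSemidef) (i j : Fin N) :
    ‖P i j‖ ^ 2 ≤ (P i i).re * (P j j).re := by
  have h := (hP.submatrix ![i, j]).det_nonneg
  rw [Matrix.det_fin_two] at h
  simp only [Matrix.submatrix_apply, Matrix.cons_val_zero, Matrix.cons_val_one] at h
  have hji : P j i = conj (P i j) := by
    have := hP.1.apply i j
    rw [← this]
    simp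
  have hii : P i i = ((P i i).re : ℂ) := by
    have := hP.1.apply i i
    exact (Complex.conj_eq_iff_re.mp this).symm
  have hjj : P j j = ((P j j).re : ℂ) := by
    have := hP.1.apply j j
    exact (Complex.conj_eq_iff_re.mp this).symm
  rw [hji, Complex.mul_conj, hii, hjj, Complex.normSq_eq_norm_sq] at h
  have h2 := (Complex.le_def.mp h).1
  simp only [Complex.zero_re, Complex.sub_re, ← Complex.ofReal_mul, Complex.ofReal_re] at h2
  linarith

lemma diag_re_nonneg {P : Matrix (Fin N) (Fin N) ℂ} (hP : P.PosSemidef) (i : Fin N) :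
    0 ≤ (P i i).re := (Complex.le_def.mp (hP.diag_nonneg (i := i))).1

lemma re_trace (P : Matrix (Fin N) (Fin N) ℂ) : (Matrix.trace P).re = ∑ i, (P i i).re := by
  simp [Matrix.trace]

lemma norm_triple_le {P : Matrix (Fin N) (Fin N) ℂ} (hP : P.PosSemidef) (i j k : Fin N) :
    ‖P i j * P j k * P k i‖ ≤ (P i i).re * (P j j).re * (P k k).re := by
  have h1 := norm_sq_le hP i j
  have h2 := norm_sq_le hP j k
  have h3 := norm_sq_le hP k i
  have hi := diag_re_nonneg hP i
  have hj := diag_re_nonneg hP j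
  have hk := diag_re_nonneg hP k
  rw [norm_mul, norm_mul]
  have : (‖P i j‖ * ‖P j k‖ * ‖P k i‖) ^ 2 ≤ ((P i i).re * (P j j).re * (P k k).re) ^ 2 := by
    calc (‖P i j‖ * ‖P j k‖ * ‖P k i‖) ^ 2 = ‖P i j‖ ^ 2 * ‖P j k‖ ^ 2 * ‖P k i‖ ^ 2 := by ring
      _ ≤ ((P i i).re * (P j j).re) * ((P j j).re * (P k k).re) * ((P k k).re * (P i i).re) := by
          gcongr
      _ = _ := by ring
  exact le_of_sq_le_sq this (by positivity)

lemma sum_diag_cube (P : Matrix (Fin N) (Fin N) ℂ) :
    ∑ i, ∑ j, ∑ k, (P i i).re * (P j j).re * (P k k).re = (Matrix.trace P).re ^ 3 := by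
  rw [re_trace, pow_three, Finset.sum_mul]
  refine Finset.sum_congr rfl fun i _ => ?_
  rw [Finset.sum_mul_sum, Finset.mul_sum]
  refine Finset.sum_congr rfl fun j _ => ?_
  rw [Finset.mul_sum]
  refine Finset.sum_congr rfl fun k _ => by ring

/-- cubic sums with small coefficients -/
lemma abs_cubic_le {P : Matrix (Fin N) (Fin N) ℂ} (hP : P.PosSemidef)
    {c : Fin N → Fin N → Fin N → ℝ} {η : ℝ} (hη : 0 ≤ η) (hc : ∀ i j k, |c i j k| ≤ η) :
    |∑ i, ∑ j, ∑ k, (P i j * P j k * P k i).re * c i j k| ≤ η * (Matrix.trace P).re ^ 3 := by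
  rw [← sum_diag_cube, Finset.mul_sum]
  refine (Finset.abs_sum_le_sum_abs _ _).trans (Finset.sum_le_sum fun i _ => ?_)
  rw [Finset.mul_sum]
  refine (Finset.abs_sum_le_sum_abs _ _).trans (Finset.sum_le_sum fun j _ => ?_)
  rw [Finset.mul_sum]
  refine (Finset.abs_sum_le_sum_abs _ _).trans (Finset.sum_le_sum fun k _ => ?_)
  rw [abs_mul, mul_comm]
  have h1 : |(P i j * P j k * P k i).re| ≤ (P i i).re * (P j j).re * (P k k).re :=
    (Complex.abs_re_le_norm _).trans (norm_triple_le hP i j k)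
  exact mul_le_mul (hc i j k) h1 (abs_nonneg _) hη

lemma sum_norm_sq {P : Matrix (Fin N) (Fin N) ℂ} (hP : P.IsHermitian) :
    ∑ i, ∑ j, ‖P i j‖ ^ 2 = (Matrix.trace (P * P)).re := by
  rw [re_trace]
  refine Finset.sum_congr rfl fun i _ => ?_
  rw [Matrix.mul_apply, Complex.re_sum]
  refine Finset.sum_congr rfl fun j _ => ?_
  have hji : P j i = conj (P i j) := by
    have := hP.apply i j
    rw [← this]
    simp
  rw [hji, Complex.mul_conj, Complex.ofReal_re, Complex.normSq_eq_norm_sq]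

section Spec

variable {S : Matrix (Fin N) (Fin N) ℂ} (hS : S.IsHermitian)

include hS

lemma U_star_mul : (hS.eigenvectorUnitary : Matrix (Fin N) (Fin N) ℂ)ᴴ *
    (hS.eigenvectorUnitary : Matrix (Fin N) (Fin N) ℂ) = 1 :=
  Unitary.coe_star_mul_self hS.eigenvectorUnitary

lemma U_mul_star : (hS.eigenvectorUnitary : Matrix (Fin N) (Fin N) ℂ) *
    (hS.eigenvectorUnitary : Matrix (Fin N) (Fin N) ℂ)ᴴ = 1 :=
  Unitary.coe_mul_star_self hS.eigenvectorUnitary

lemma U_conj : (hS.eigenvectorUnitary : Matrix (Fin N) (Fin N) ℂ)ᴴ * S *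
    (hS.eigenvectorUnitary : Matrix (Fin N) (Fin N) ℂ) =
      Matrix.diagonal fun i => (hS.eigenvalues i : ℂ) := by
  have h := hS.conjStarAlgAut_star_eigenvectorUnitary
  rw [Unitary.conjStarAlgAut_star_apply] at h
  exact h

/-- trace of `U* P U` -/
lemma trace_conj (P : Matrix (Fin N) (Fin N) ℂ) :
    Matrix.trace ((hS.eigenvectorUnitary : Matrix (Fin N) (Fin N) ℂ)ᴴ * P *
      (hS.eigenvectorUnitary : Matrix (Fin N) (Fin N) ℂ)) = Matrix.trace P := by
  rw [Matrix.trace_mul_comm, ← Matrix.mul_assoc, U_mul_star, Matrix.one_mul]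

/-- `(U* P U) (U* P U) = U* P² U` -/
lemma conj_mul_conj (P Q : Matrix (Fin N) (Fin N) ℂ) :
    ((hS.eigenvectorUnitary : Matrix (Fin N) (Fin N) ℂ)ᴴ * P *
      (hS.eigenvectorUnitary : Matrix (Fin N) (Fin N) ℂ)) *
    ((hS.eigenvectorUnitary : Matrix (Fin N) (Fin N) ℂ)ᴴ * Q *
      (hS.eigenvectorUnitary : Matrix (Fin N) (Fin N) ℂ)) =
    (hS.eigenvectorUnitary : Matrix (Fin N) (Fin N) ℂ)ᴴ * (P * Q) *
      (hS.eigenvectorUnitary : Matrix (Fin N) (Fin N) ℂ) := by
  have h := U_mul_star hS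
  calc _ = (hS.eigenvectorUnitary : Matrix (Fin N) (Fin N) ℂ)ᴴ * P *
      ((hS.eigenvectorUnitary : Matrix (Fin N) (Fin N) ℂ) *
        (hS.eigenvectorUnitary : Matrix (Fin N) (Fin N) ℂ)ᴴ) * Q *
      (hS.eigenvectorUnitary : Matrix (Fin N) (Fin N) ℂ) := by
        simp only [Matrix.mul_assoc]
    _ = _ := by rw [h]; simp only [Matrix.mul_assoc, Matrix.mul_one]

/-- eigenvalues of `ε + R` with `R ≥ 0` -/
lemma eigenvalues_ge {R : Matrix (Fin N) (Fin N) ℂ} (hR : R.PosSemidef) {ε : ℝ}
    (h : S = (ε : ℂ) • 1 + R) (i : Fin N) : ε ≤ hS.eigenvalues i := by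
  have h1 := hR.conjTranspose_mul_mul_same (hS.eigenvectorUnitary : Matrix (Fin N) (Fin N) ℂ)
  have h2 : (hS.eigenvectorUnitary : Matrix (Fin N) (Fin N) ℂ)ᴴ * R *
      (hS.eigenvectorUnitary : Matrix (Fin N) (Fin N) ℂ) =
      (Matrix.diagonal fun i => (hS.eigenvalues i : ℂ)) - (ε : ℂ) • 1 := by
    have hR' : R = S - (ε : ℂ) • 1 := by rw [h]; abel
    rw [← U_conj hS, hR', Matrix.mul_sub, Matrix.sub_mul, Matrix.mul_smul, Matrix.smul_mul,
      Matrix.mul_one, U_star_mul]
  have h3 := diag_re_nonneg h1 i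
  rw [h2] at h3
  simp at h3
  exact h3

lemma eigenvalues_le {R : Matrix (Fin N) (Fin N) ℂ} (hR : R.PosSemidef) {ε : ℝ}
    (h : S = (ε : ℂ) • 1 + R) (i : Fin N) :
    hS.eigenvalues i ≤ ε + (Matrix.trace R).re := by
  have h1 := hR.conjTranspose_mul_mul_same (hS.eigenvectorUnitary : Matrix (Fin N) (Fin N) ℂ)
  have h2 : (hS.eigenvectorUnitary : Matrix (Fin N) (Fin N) ℂ)ᴴ * R *
      (hS.eigenvectorUnitary : Matrix (Fin N) (Fin N) ℂ) =
      (Matrix.diagonal fun i => (hS.eigenvalues i : ℂ)) - (ε : ℂ) • 1 := by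
    have hR' : R = S - (ε : ℂ) • 1 := by rw [h]; abel
    rw [← U_conj hS, hR', Matrix.mul_sub, Matrix.sub_mul, Matrix.mul_smul, Matrix.smul_mul,
      Matrix.mul_one, U_star_mul]
  have h3 := trace_conj hS R
  have h4 : ((hS.eigenvectorUnitary : Matrix (Fin N) (Fin N) ℂ)ᴴ * R *
      (hS.eigenvectorUnitary : Matrix (Fin N) (Fin N) ℂ) ) i i =
        ((hS.eigenvalues i : ℂ)) - (ε : ℂ) := by
    rw [h2]; simp
  have h5 : (((hS.eigenvectorUnitary : Matrix (Fin N) (Fin N) ℂ)ᴴ * R *
      (hS.eigenvectorUnitary : Matrix (Fin N) (Fin N) ℂ) ) i i).re ≤ (Matrix.trace R).re := by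
    rw [← h3, re_trace]
    exact Finset.single_le_sum (f := fun i => (((hS.eigenvectorUnitary :
      Matrix (Fin N) (Fin N) ℂ)ᴴ * R *
      (hS.eigenvectorUnitary : Matrix (Fin N) (Fin N) ℂ) ) i i).re)
      (fun j _ => diag_re_nonneg h1 j) (Finset.mem_univ i)
  rw [h4] at h5
  simp at h5
  linarith

/-- eigenvalues of `b - T` with `T ≥ 0` -/
lemma eigenvalues_le_of_le {T : Matrix (Fin N) (Fin N) ℂ} (hT : T.PosSemidef) {b : ℝ}
    (h : S = (b : ℂ) • 1 - T) (i : Fin N) : hS.eigenvalues i ≤ b := by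
  have h1 := hT.conjTranspose_mul_mul_same (hS.eigenvectorUnitary : Matrix (Fin N) (Fin N) ℂ)
  have h2 : (hS.eigenvectorUnitary : Matrix (Fin N) (Fin N) ℂ)ᴴ * T *
      (hS.eigenvectorUnitary : Matrix (Fin N) (Fin N) ℂ) =
      (b : ℂ) • 1 - (Matrix.diagonal fun i => (hS.eigenvalues i : ℂ)) := by
    have hR' : T = (b : ℂ) • 1 - S := by rw [h]; abel
    rw [← U_conj hS, hR', Matrix.mul_sub, Matrix.sub_mul, Matrix.mul_smul, Matrix.smul_mul,
      Matrix.mul_one, U_star_mul]
  have h3 := diag_re_nonneg h1 i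
  rw [h2] at h3
  simp at h3
  exact h3

end Spec

end Alg

/-! ## Analysis -/

section Ana

variable {H : Type} [NormedAddCommGroup H] [InnerProductSpace ℂ H]

lemma acv_of_h1 {f f' : ℝ → H} (h : IsH1v f f') : ACv f f' := by
  refine ⟨fun a b => ?_, h.2.2⟩
  have h1 : LocallyIntegrable f' volume := h.2.1.locallyIntegrable (by norm_num)
  exact (h1.integrableOn_isCompact isCompact_uIcc).intervalIntegrable

lemma integrable_inner {f g : ℝ → H} (hf : MemLp f 2 volume) (hg : MemLp g 2 volume) :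
    Integrable (fun x => inner ℂ (f x) (g x)) volume := by
  have h1 : Integrable (fun x => ‖f x‖ * ‖g x‖) volume := hf.norm.integrable_mul hg.norm
  refine h1.mono' (hf.1.inner hg.1) (ae_of_all _ fun x => ?_)
  exact norm_inner_le_norm _ _

lemma acv_inner [CompleteSpace H] (hb : BilStmt) {f f' g g' : ℝ → H} (hf : ACv f f')
    (hg : ACv g g') :
    ACv (fun x => inner ℂ (f x) (g x)) (fun x => inner ℂ (f x) (g' x) + inner ℂ (f' x) (g x)) := by
  have h := hb H H ℂ (isBoundedBilinearMap_inner (𝕜 := ℂ) (E := H)).toContinuousLinearMap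
    f f' g g' hf hg
  have h2 : (fun x => inner ℂ (f' x) (g x) + inner ℂ (f x) (g' x)) =
      (fun x => inner ℂ (f x) (g' x) + inner ℂ (f' x) (g x)) := by
    funext x; rw [add_comm]
  rw [← h2]
  exact h

end Ana

section Lim

variable {E : Type*} [NormedAddCommGroup E] [NormedSpace ℝ E]

/-- `∫_{Iic x} f` is absolutely continuous -/
lemma acv_Iic {f : ℝ → E} (hf : Integrable f volume) (c : E) :
    ACv (fun x => c + ∫ y in Set.Iic x, f y) f := by
  refine ⟨fun a b => hf.intervalIntegrable, fun a b => ?_⟩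
  rw [← intervalIntegral.integral_Iic_sub_Iic hf.integrableOn hf.integrableOn,
    add_sub_add_left_eq_sub]

lemma tendsto_Iic_atTop {f : ℝ → E} (hf : Integrable f volume) :
    Tendsto (fun x => ∫ y in Set.Iic x, f y) atTop (𝓝 (∫ y, f y)) :=
  (aecover_Iic tendsto_id).integral_tendsto_of_countably_generated hf

lemma tendsto_Iic_atBot {f : ℝ → E} (hf : Integrable f volume) :
    Tendsto (fun x => ∫ y in Set.Iic x, f y) atBot (𝓝 0) := by
  have h1 : Tendsto (fun x => ∫ y in Set.Ioi x, f y) atBot (𝓝 (∫ y, f y)) :=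
    (aecover_Ioi tendsto_id).integral_tendsto_of_countably_generated hf
  have h2 : (fun x => ∫ y in Set.Iic x, f y) = fun x => (∫ y, f y) - ∫ y in Set.Ioi x, f y := by
    funext x
    rw [← intervalIntegral.integral_Iic_add_Ioi (b := x) hf.integrableOn hf.integrableOn]
    abel
  rw [h2]
  simpa using h1.const_sub (∫ y, f y)

/-- an integrable function with an integrable derivative tends to zero -/
lemma tendsto_zero_atTop [CompleteSpace E] {f f' : ℝ → E} (h : ACv f f')
    (hf : Integrable f volume) (hf' : Integrable f' volume) : Tendsto f atTop (𝓝 0) := by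
  have h1 : ∀ x, f x = (f 0 - ∫ y in Set.Iic 0, f' y) + ∫ y in Set.Iic x, f' y := by
    intro x
    have := h.2 0 x
    rw [← intervalIntegral.integral_Iic_sub_Iic hf'.integrableOn hf'.integrableOn] at this
    rw [sub_eq_iff_eq_add] at this
    rw [this]; abel
  have h2 : Tendsto f atTop (𝓝 ((f 0 - ∫ y in Set.Iic 0, f' y) + ∫ y, f' y)) := by
    have := (tendsto_Iic_atTop hf').const_add (f 0 - ∫ y in Set.Iic 0, f' y)
    exact this.congr fun x => (h1 x).symm
  have h3 := IntegrableAtFilter.eq_zero_of_tendsto (hf.integrableAtFilter atTop) (fun s hs => by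
    obtain ⟨a, ha⟩ := mem_atTop_sets.mp hs
    exact measure_mono_top (s₁ := Set.Ici a) ha (by simp)) h2
  rwa [h3] at h2

lemma tendsto_zero_atBot [CompleteSpace E] {f f' : ℝ → E} (h : ACv f f')
    (hf : Integrable f volume) (hf' : Integrable f' volume) : Tendsto f atBot (𝓝 0) := by
  have h1 : ∀ x, f x = (f 0 - ∫ y in Set.Iic 0, f' y) + ∫ y in Set.Iic x, f' y := by
    intro x
    have := h.2 0 x
    rw [← intervalIntegral.integral_Iic_sub_Iic hf'.integrableOn hf'.integrableOn] at this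
    rw [sub_eq_iff_eq_add] at this
    rw [this]; abel
  have h2 : Tendsto f atBot (𝓝 ((f 0 - ∫ y in Set.Iic 0, f' y) + 0)) := by
    have := (tendsto_Iic_atBot hf').const_add (f 0 - ∫ y in Set.Iic 0, f' y)
    exact this.congr fun x => (h1 x).symm
  have h3 := IntegrableAtFilter.eq_zero_of_tendsto (hf.integrableAtFilter atBot) (fun s hs => by
    obtain ⟨a, ha⟩ := mem_atBot_sets.mp hs
    exact measure_mono_top (s₁ := Set.Iic a) ha (by simp)) h2
  rwa [h3] at h2

/-- a function with an integrable derivative is bounded -/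
lemma bounded [CompleteSpace E] {f f' : ℝ → E} (h : ACv f f')
    (hf' : Integrable f' volume) : ∃ C, ∀ x, ‖f x‖ ≤ C := by
  refine ⟨‖f 0‖ + ∫ y, ‖f' y‖, fun x => ?_⟩
  have h1 := h.2 0 x
  rw [sub_eq_iff_eq_add] at h1
  rw [h1, add_comm]
  refine (norm_add_le _ _).trans (add_le_add le_rfl ?_)
  refine (intervalIntegral.norm_integral_le_integral_norm_uIoc).trans ?_
  exact setIntegral_le_integral hf'.norm (ae_of_all _ fun y => norm_nonneg _)

lemma acv_continuous {f f' : ℝ → E} (h : ACv f f') : Continuous f := by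
  have h1 : f = fun x => f 0 + ∫ y in (0:ℝ)..x, f' y := by
    funext x
    rw [← h.2 0 x]; abel
  rw [h1]
  exact continuous_const.add (intervalIntegral.continuous_primitive h.1 0)

end Lim

section GramAna

variable {H : Type} [NormedAddCommGroup H] [InnerProductSpace ℂ H] {N : ℕ}

/-- the Gram matrices are integrable -/
lemma integrable_gram {v : Fin N → ℝ → H} (hv : ∀ j, MemLp (v j) 2 volume) (i j : Fin N) :
    Integrable (fun x => gram (fun j => v j x) i j) volume :=
  integrable_inner (hv j) (hv i)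

lemma integrable_gramD {v w : Fin N → ℝ → H} (hv : ∀ j, MemLp (v j) 2 volume)
    (hw : ∀ j, MemLp (w j) 2 volume) (i j : Fin N) :
    Integrable (fun x => gramD (fun j => v j x) (fun j => w j x) i j) volume :=
  (integrable_inner (hv j) (hw i)).add (integrable_inner (hw j) (hv i))

lemma acv_gram [CompleteSpace H] (hb : BilStmt) {v w : Fin N → ℝ → H}
    (h : ∀ j, IsH1v (v j) (w j)) (i j : Fin N) :
    ACv (fun x => gram (fun j => v j x) i j)
      (fun x => gramD (fun j => v j x) (fun j => w j x) i j) :=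
  acv_inner hb (acv_of_h1 (h j)) (acv_of_h1 (h i))

/-- the integral of the Gram matrices over a set is positive semidefinite -/
lemma setIntegral_gram_posSemidef {v : Fin N → ℝ → H} (hv : ∀ j, MemLp (v j) 2 volume)
    (s : Set ℝ) :
    (Matrix.of fun i j => ∫ x in s, gram (fun j => v j x) i j :
      Matrix (Fin N) (Fin N) ℂ).PosSemidef := by
  have hint : ∀ i j, Integrable (fun x => gram (fun j => v j x) i j) (volume.restrict s) :=
    fun i j => (integrable_gram hv i j).integrableOn
  refine Matrix.PosSemidef.of_dotProduct_mulVec_nonneg ?_ fun c => ?_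
  · ext i j
    rw [Matrix.conjTranspose_apply, Matrix.of_apply, Matrix.of_apply]
    have : star (∫ x in s, gram (fun j => v j x) j i) =
        ∫ x in s, conj (gram (fun j => v j x) j i) := (integral_conj).symm
    rw [this]
    congr 1
    funext x
    simp [gram]
  · have h1 : star c ⬝ᵥ (Matrix.of (fun i j => ∫ x in s, gram (fun j => v j x) i j) *ᵥ c) =
        ∫ x in s, star c ⬝ᵥ (gram (fun j => v j x) *ᵥ c) := by
      simp only [dotProduct, mulVec, Matrix.of_apply]
      rw [integral_finsetSum]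
      · refine Finset.sum_congr rfl fun i _ => ?_
        rw [integral_const_mul, integral_finsetSum]
        · congr 1
          refine Finset.sum_congr rfl fun j _ => ?_
          rw [integral_mul_const]
        · exact fun j _ => (hint i j).mul_const _
      · intro i _
        exact (integrable_finsetSum _ fun j _ => (hint i j).mul_const _).const_mul _
    rw [h1]
    refine integral_nonneg fun x => ?_
    exact (gram_posSemidef _).dotProduct_mulVec_nonneg c

end GramAna

end Pool.Agent.LT.KinAux
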