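import Pool.Agent.LT.Defs2
import Pool.Agent.LT.KinAux

/-!
# Module KIN2: the operator valued inequality with exponent `3/2` (MP_4c716f_mp)
-/

set_option autoImplicit false

namespace Pool.Agent.LT

open MeasureTheory Matrix Finset Filter Topology
open scoped ComplexConjugate ComplexOrder

namespace Kin2

open KinAux

variable {N : ℕ}

/-! ## absolutely continuous matrix functions, entrywise -/

/-- entrywise absolute continuity -/
def ACm (S P : ℝ → Matrix (Fin N) (Fin N) ℂ) : Prop :=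
  ∀ i j, ACv (fun x => S x i j) (fun x => P x i j)

lemma acv_sum {ι E : Type*} [NormedAddCommGroup E] [NormedSpace ℝ E] (s : Finset ι)
    {f f' : ι → ℝ → E} (h : ∀ i ∈ s, ACv (f i) (f' i)) :
    ACv (fun x => ∑ i ∈ s, f i x) (fun x => ∑ i ∈ s, f' i x) := by
  refine ⟨fun a b => ?_, fun a b => ?_⟩
  · exact ⟨integrable_finsetSum _ fun i hi => ((h i hi).1 a b).1,
      integrable_finsetSum _ fun i hi => ((h i hi).1 a b).2⟩
  · rw [intervalIntegral.integral_finsetSum fun i hi => (h i hi).1 a b, ← Finset.sum_sub_distrib]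
    exact Finset.sum_congr rfl fun i hi => (h i hi).2 a b

lemma acv_mul (hb : BilStmt) {f f' g g' : ℝ → ℂ} (hf : ACv f f') (hg : ACv g g') :
    ACv (fun x => f x * g x) (fun x => f' x * g x + f x * g' x) :=
  hb ℂ ℂ ℂ (ContinuousLinearMap.mul ℝ ℂ) f f' g g' hf hg

lemma acm_mul (hb : BilStmt) {S P T Q : ℝ → Matrix (Fin N) (Fin N) ℂ} (h1 : ACm S P)
    (h2 : ACm T Q) : ACm (fun x => S x * T x) (fun x => P x * T x + S x * Q x) := by
  intro i j
  have h := acv_sum Finset.univ (f := fun k x => S x i k * T x k j)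
    (f' := fun k x => P x i k * T x k j + S x i k * Q x k j)
    fun k _ => acv_mul hb (h1 i k) (h2 k j)
  have e : (fun x => (P x * T x + S x * Q x) i j) =
      fun x => ∑ k, (P x i k * T x k j + S x i k * Q x k j) := by
    funext x
    simp only [Matrix.add_apply, Matrix.mul_apply, Finset.sum_add_distrib]
  show ACv (fun x => (S x * T x) i j) (fun x => (P x * T x + S x * Q x) i j)
  rw [e]
  exact h

lemma acv_trace_re {S P : ℝ → Matrix (Fin N) (Fin N) ℂ} (h : ACm S P) :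
    ACv (fun x => (Matrix.trace (S x)).re) (fun x => (Matrix.trace (P x)).re) := by
  have h1 := acv_sum Finset.univ (f := fun k x => S x k k)
    (f' := fun k x => P x k k) fun k _ => h k k
  have h2 : ACv (fun x => Matrix.trace (S x)) (fun x => Matrix.trace (P x)) := h1
  refine ⟨fun a b => ?_, fun a b => ?_⟩
  · exact ⟨(h2.1 a b).1.re, (h2.1 a b).2.re⟩
  · have h3 := h2.2 a b
    have h4 := congrArg Complex.re h3
    rw [Complex.sub_re] at h4
    rw [h4]
    have := Complex.reCLM.intervalIntegral_comp_comm (h2.1 a b)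
    simp only [Complex.reCLM_apply] at this
    exact this.symm

/-! ## the pointwise inequality -/

lemma pointwise (hw : PW2Stmt) {H : Type} [NormedAddCommGroup H] [InnerProductSpace ℂ H]
    {C ε Λ η : ℝ} (hC : 0 < C) (hη : 0 ≤ η) {p : Polynomial ℝ}
    (hp1 : ∀ s t u : ℝ, s ∈ Set.Icc ε Λ → t ∈ Set.Icc ε Λ → u ∈ Set.Icc ε Λ →
      |p.eval (s + u) * p.eval (t + u) + dd p (s + u) (t + u)| ≤ η)
    (hp2 : ∀ s t : ℝ, s ∈ Set.Icc ε Λ → t ∈ Set.Icc ε Λ → |(s + t) * p.eval (s + t) - 1| ≤ η)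
    {R : Matrix (Fin N) (Fin N) ℂ} (hR : R.PosSemidef) (hΛ : ε + (Matrix.trace R).re ≤ Λ)
    (v w : Fin N → H) (S : Matrix (Fin N) (Fin N) ℂ) (hSR : S = (ε : ℂ) • 1 + R) :
    C * (1 - η / 2) * (Matrix.trace (gram v * gram v)).re -
      η * (Matrix.trace (gram v)).re ^ 3 ≤
      ∑ i, ‖w i‖ ^ 2 - dcalG p S (gram v) (gramD v w) +
        C / 2 * ((Matrix.trace (gramD v w * S)).re + (Matrix.trace (gram v * gram v)).re) +
        C ^ 2 / 4 * (Matrix.trace (S * S * gram v)).re := by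
  have hS : S.IsHermitian := by
    rw [hSR]
    refine Matrix.IsHermitian.add ?_ hR.1
    ext i j
    rw [Matrix.conjTranspose_apply]
    by_cases hij : i = j
    · subst hij; simp
    · simp [Matrix.one_apply_ne hij, Matrix.one_apply_ne (Ne.symm hij)]
  set U := (hS.eigenvectorUnitary : Matrix (Fin N) (Fin N) ℂ) with hU
  set P' := Uᴴ * gram v * U with hP'
  have h := hw N H p C S hS v w P' hP'
  have hPp : P'.PosSemidef := (gram_posSemidef v).conjTranspose_mul_mul_same U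
  have hev : ∀ i, hS.eigenvalues i ∈ Set.Icc ε Λ := fun i =>
    ⟨eigenvalues_ge hS hR hSR i, (eigenvalues_le hS hR hSR i).trans hΛ⟩
  have htr : (Matrix.trace P').re = (Matrix.trace (gram v)).re := by
    rw [hP', trace_conj hS]
  have hsq : ∑ i, ∑ j, ‖P' i j‖ ^ 2 = (Matrix.trace (gram v * gram v)).re := by
    rw [sum_norm_sq hPp.1, hP', conj_mul_conj hS, trace_conj hS]
  have h1 := abs_cubic_le hPp (c := fun i j k =>
    (p.eval (hS.eigenvalues i + hS.eigenvalues k) * p.eval (hS.eigenvalues j + hS.eigenvalues k)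
          + dd p (hS.eigenvalues i + hS.eigenvalues k) (hS.eigenvalues j + hS.eigenvalues k)))
    hη fun i j k => hp1 _ _ _ (hev i) (hev j) (hev k)
  rw [htr] at h1
  have h2 : (2 - η) * (Matrix.trace (gram v * gram v)).re ≤ ∑ i, ∑ j, ‖P' i j‖ ^ 2 * (1 + (hS.eigenvalues i + hS.eigenvalues j) *
        p.eval (hS.eigenvalues i + hS.eigenvalues j)) := by
    rw [← hsq, Finset.mul_sum]
    refine Finset.sum_le_sum fun i _ => ?_
    rw [Finset.mul_sum]
    refine Finset.sum_le_sum fun j _ => ?_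
    rw [mul_comm]
    refine mul_le_mul_of_nonneg_left ?_ (by positivity)
    have := (abs_le.mp (hp2 _ _ (hev i) (hev j))).1
    linarith
  have h3 := (abs_le.mp h1).2
  have h4 := mul_le_mul_of_nonneg_left h2 (by positivity : (0:ℝ) ≤ C / 2)
  have h5 : C / 2 * ((2 - η) * (Matrix.trace (gram v * gram v)).re) =
      C * (1 - η / 2) * (Matrix.trace (gram v * gram v)).re := by ring
  rw [h5] at h4
  linarith

/-! ## the calibration -/

/-- the total calibration -/
noncomputable def Gt (C : ℝ) (p : Polynomial ℝ) (S P : Matrix (Fin N) (Fin N) ℂ) : ℝ :=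
  calG p S P - C / 2 * (Matrix.trace (P * S)).re - C ^ 2 / 12 * (Matrix.trace (S * S * S)).re

/-- its derivative -/
noncomputable def dGt (C : ℝ) (p : Polynomial ℝ) (S P Q : Matrix (Fin N) (Fin N) ℂ) : ℝ :=
  dcalG p S P Q - C / 2 * ((Matrix.trace (Q * S)).re + (Matrix.trace (P * P)).re) -
    C ^ 2 / 4 * (Matrix.trace (S * S * P)).re

lemma acv_sub {E : Type*} [NormedAddCommGroup E] [NormedSpace ℝ E] {f f' g g' : ℝ → E}
    (hf : ACv f f') (hg : ACv g g') : ACv (fun x => f x - g x) (fun x => f' x - g' x) := by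
  refine ⟨fun a b => (hf.1 a b).sub (hg.1 a b), fun a b => ?_⟩
  rw [intervalIntegral.integral_sub (hf.1 a b) (hg.1 a b), ← hf.2 a b, ← hg.2 a b]
  exact sub_sub_sub_comm _ _ _ _

lemma acv_const_mul {f f' : ℝ → ℝ} (c : ℝ) (hf : ACv f f') :
    ACv (fun x => c * f x) (fun x => c * f' x) := by
  refine ⟨fun a b => (hf.1 a b).const_mul c, fun a b => ?_⟩
  rw [intervalIntegral.integral_const_mul, ← hf.2 a b]
  ring

lemma acv_Gt (hb : BilStmt) (hc : CalcStmt) (C : ℝ) (p : Polynomial ℝ)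
    {S P Q : ℝ → Matrix (Fin N) (Fin N) ℂ} (hS : ACm S P) (hP : ACm P Q) :
    ACv (fun x => Gt C p (S x) (P x)) (fun x => dGt C p (S x) (P x) (Q x)) := by
  have h1 := hc N p S P Q hS hP
  have h2 := acv_const_mul (C / 2) (acv_trace_re (acm_mul hb hP hS))
  have h3 := acv_const_mul (C ^ 2 / 12) (acv_trace_re (acm_mul hb (acm_mul hb hS hS) hS))
  have h4 := acv_sub (acv_sub h1 h2) h3
  have e : (fun x => dGt C p (S x) (P x) (Q x)) = fun x => dcalG p (S x) (P x) (Q x) -
      C / 2 * (Matrix.trace (Q x * S x + P x * P x)).re -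
      C ^ 2 / 12 * (Matrix.trace ((P x * S x + S x * P x) * S x + S x * S x * P x)).re := by
    funext x
    unfold dGt
    have e1 : Matrix.trace (P x * S x * S x) = Matrix.trace (S x * S x * P x) := by
      rw [Matrix.mul_assoc, Matrix.trace_mul_comm]
    have e2 : Matrix.trace (S x * P x * S x) = Matrix.trace (S x * S x * P x) := by
      rw [Matrix.trace_mul_comm, ← Matrix.mul_assoc]
    rw [Matrix.add_mul, Matrix.trace_add, Matrix.trace_add, Matrix.trace_add, e1, e2]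
    simp only [Complex.add_re]
    ring
  rw [e]
  exact h4

lemma continuous_calG (p : Polynomial ℝ) :
    Continuous fun X : Matrix (Fin N) (Fin N) ℂ × Matrix (Fin N) (Fin N) ℂ =>
      calG p X.1 X.2 := by
  unfold calG
  fun_prop

lemma continuous_Gt (C : ℝ) (p : Polynomial ℝ) :
    Continuous fun X : Matrix (Fin N) (Fin N) ℂ × Matrix (Fin N) (Fin N) ℂ =>
      Gt C p X.1 X.2 := by
  unfold Gt
  have h := continuous_calG (N := N) p
  fun_prop

lemma calG_zero (p : Polynomial ℝ) (S : Matrix (Fin N) (Fin N) ℂ) : calG p S 0 = 0 := by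
  unfold calG
  simp

lemma Gt_zero (C : ℝ) (p : Polynomial ℝ) (S : Matrix (Fin N) (Fin N) ℂ) :
    Gt C p S 0 = -(C ^ 2 / 12 * (Matrix.trace (S * S * S)).re) := by
  unfold Gt
  rw [calG_zero]
  simp

attribute [irreducible] Gt

lemma tendsto_Gt {ι : Type} {l : Filter ι} (C : ℝ) (p : Polynomial ℝ)
    {S P : ι → Matrix (Fin N) (Fin N) ℂ} {S0 P0 : Matrix (Fin N) (Fin N) ℂ}
    (hS : Tendsto S l (𝓝 S0)) (hP : Tendsto P l (𝓝 P0)) :
    Tendsto (fun i => Gt C p (S i) (P i)) l (𝓝 (Gt C p S0 P0)) := by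
  have h1 := (continuous_Gt (N := N) C p).tendsto (S0, P0)
  have h2 : Tendsto (fun i => (S i, P i)) l (𝓝 (S0, P0)) := hS.prodMk_nhds hP
  exact h1.comp h2


/-! ## integrability -/

section Int

variable {H : Type} [NormedAddCommGroup H] [InnerProductSpace ℂ H]

lemma trace_gram_re (v : Fin N → H) : (Matrix.trace (gram v)).re = ∑ j, ‖v j‖ ^ 2 := by
  rw [re_trace]
  refine Finset.sum_congr rfl fun j _ => ?_
  simp only [gram, Matrix.of_apply]
  rw [inner_self_eq_norm_sq_to_K]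
  norm_cast

lemma trace_sq_le {P : Matrix (Fin N) (Fin N) ℂ} (hP : P.PosSemidef) :
    (Matrix.trace (P * P)).re ≤ (Matrix.trace P).re ^ 2 := by
  rw [← sum_norm_sq hP.1, re_trace, pow_two, Finset.sum_mul_sum]
  exact Finset.sum_le_sum fun i _ => Finset.sum_le_sum fun j _ => norm_sq_le hP i j

lemma trace_sq_nonneg {P : Matrix (Fin N) (Fin N) ℂ} (hP : P.PosSemidef) :
    0 ≤ (Matrix.trace (P * P)).re := by
  rw [← sum_norm_sq hP.1]
  positivity

lemma trace_nonneg' {P : Matrix (Fin N) (Fin N) ℂ} (hP : P.PosSemidef) :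
    0 ≤ (Matrix.trace P).re := by
  rw [re_trace]
  exact Finset.sum_nonneg fun i _ => diag_re_nonneg hP i

lemma int_trace {v : Fin N → ℝ → H} (hv : ∀ j, MemLp (v j) 2 volume) :
    Integrable (fun x => (Matrix.trace (gram fun j => v j x)).re) volume := by
  simp only [re_trace]
  exact integrable_finsetSum _ fun i _ => (integrable_gram hv i i).re

lemma cont_gram [CompleteSpace H] (hb : BilStmt) {v w : Fin N → ℝ → H}
    (h : ∀ j, IsH1v (v j) (w j)) : Continuous fun x => gram fun j => v j x :=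
  continuous_matrix fun i j => acv_continuous (acv_gram hb h i j)

lemma trace_bound [CompleteSpace H] (hb : BilStmt) {v w : Fin N → ℝ → H}
    (h : ∀ j, IsH1v (v j) (w j)) : ∃ K : ℝ, ∀ x, (Matrix.trace (gram fun j => v j x)).re ≤ K := by
  have h1 : ∀ j : Fin N, ∃ C, ∀ x, ‖gram (fun j => v j x) j j‖ ≤ C := fun j =>
    bounded (acv_gram hb h j j) (integrable_gramD (fun j => (h j).1) (fun j => (h j).2.1) j j)
  choose C hC using h1
  refine ⟨∑ j, C j, fun x => ?_⟩
  rw [re_trace]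
  exact Finset.sum_le_sum fun j _ => (Complex.re_le_norm _).trans (hC j x)

lemma int_trace_sq [CompleteSpace H] (hb : BilStmt) {v w : Fin N → ℝ → H}
    (h : ∀ j, IsH1v (v j) (w j)) :
    Integrable (fun x => (Matrix.trace ((gram fun j => v j x) * gram fun j => v j x)).re)
      volume := by
  obtain ⟨K, hK⟩ := trace_bound hb h
  have hc := cont_gram hb h
  have h1 := (int_trace fun j => (h j).1).const_mul K
  refine h1.mono' ?_ (ae_of_all _ fun x => ?_)
  · exact Continuous.aestronglyMeasurable (by fun_prop)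
  · have hp := gram_posSemidef fun j => v j x
    rw [Real.norm_of_nonneg (trace_sq_nonneg hp)]
    refine (trace_sq_le hp).trans ?_
    rw [pow_two]
    exact mul_le_mul_of_nonneg_right (hK x) (trace_nonneg' hp)

lemma int_trace_cube [CompleteSpace H] (hb : BilStmt) {v w : Fin N → ℝ → H}
    (h : ∀ j, IsH1v (v j) (w j)) :
    Integrable (fun x => (Matrix.trace (gram fun j => v j x)).re ^ 3) volume := by
  obtain ⟨K, hK⟩ := trace_bound hb h
  have hc := cont_gram hb h
  have h1 := (int_trace fun j => (h j).1).const_mul (K ^ 2)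
  refine h1.mono' ?_ (ae_of_all _ fun x => ?_)
  · exact Continuous.aestronglyMeasurable (by fun_prop)
  · have hp := gram_posSemidef fun j => v j x
    have h0 := trace_nonneg' hp
    rw [Real.norm_of_nonneg (pow_nonneg h0 3), pow_succ]
    refine mul_le_mul_of_nonneg_right ?_ h0
    exact pow_le_pow_left₀ h0 (hK x) 2

omit [InnerProductSpace ℂ H] in
lemma int_w {w : Fin N → ℝ → H} (hw : ∀ j, MemLp (w j) 2 volume) :
    Integrable (fun x => ∑ j, ‖w j x‖ ^ 2) volume :=
  integrable_finsetSum _ fun j _ => (memLp_two_iff_integrable_sq_norm (hw j).1).1 (hw j)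

end Int

/-! ## the inequality for `S = ε + ∫ P` -/

section Main

variable {H : Type} [NormedAddCommGroup H] [InnerProductSpace ℂ H]

/-- the Gram matrix `∫ P` over a set -/
noncomputable def intGram (v : Fin N → ℝ → H) (s : Set ℝ) : Matrix (Fin N) (Fin N) ℂ :=
  Matrix.of fun i j => ∫ x in s, gram (fun j => v j x) i j

/-- `P` -/
noncomputable def PP (v : Fin N → ℝ → H) (x : ℝ) : Matrix (Fin N) (Fin N) ℂ :=
  gram fun j => v j x

/-- `Q = P'` -/
noncomputable def QQ (v w : Fin N → ℝ → H) (x : ℝ) : Matrix (Fin N) (Fin N) ℂ :=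
  gramD (fun j => v j x) fun j => w j x

/-- `S = ε + ∫ P` -/
noncomputable def SS (ε : ℝ) (v : Fin N → ℝ → H) (s : Set ℝ) : Matrix (Fin N) (Fin N) ℂ :=
  (ε : ℂ) • 1 + intGram v s

lemma trace_intGram {v : Fin N → ℝ → H} (hv : ∀ j, MemLp (v j) 2 volume) (s : Set ℝ) :
    (Matrix.trace (intGram v s)).re = ∫ x in s, (Matrix.trace (PP v x)).re := by
  have h1 : (Matrix.trace (intGram v s)).re = ∑ i, (∫ x in s, PP v x i i).re := by
    rw [re_trace]; rfl
  have h2 : ∀ i, (∫ x in s, PP v x i i).re = ∫ x in s, (PP v x i i).re := fun i =>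
    (integral_re (integrable_gram hv i i).integrableOn).symm
  have h3 : ∀ i, Integrable (fun x => (PP v x i i).re) (volume.restrict s) := fun i =>
    (integrable_gram hv i i).integrableOn.re
  rw [h1, Finset.sum_congr rfl fun i _ => h2 i, ← integral_finsetSum _ fun i _ => h3 i]
  congr 1
  funext x
  rw [re_trace]

lemma trace_intGram_le {v : Fin N → ℝ → H} (hv : ∀ j, MemLp (v j) 2 volume) (s : Set ℝ) :
    (Matrix.trace (intGram v s)).re ≤ (Matrix.trace (intGram v Set.univ)).re := by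
  rw [trace_intGram hv, trace_intGram hv, setIntegral_univ]
  exact setIntegral_le_integral (int_trace hv)
    (ae_of_all _ fun x => trace_nonneg' (gram_posSemidef _))

lemma acm_PP [CompleteSpace H] (hb : BilStmt) {v w : Fin N → ℝ → H}
    (h : ∀ j, IsH1v (v j) (w j)) : ACm (PP v) (QQ v w) := fun i j => acv_gram hb h i j

lemma acm_SS (ε : ℝ) {v : Fin N → ℝ → H} (hv : ∀ j, MemLp (v j) 2 volume) :
    ACm (fun x => SS ε v (Set.Iic x)) (PP v) := fun i j =>
  acv_Iic (integrable_gram hv i j) (((ε : ℂ) • 1 : Matrix (Fin N) (Fin N) ℂ) i j)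

lemma pw_x (hw : PW2Stmt) {v w : Fin N → ℝ → H}
    (hv : ∀ j, MemLp (v j) 2 volume) {C ε Λ η : ℝ} (hC : 0 < C)
    (hΛ : ε + (Matrix.trace (intGram v Set.univ)).re ≤ Λ) (hη : 0 < η) {p : Polynomial ℝ}
    (hp1 : ∀ s t u : ℝ, s ∈ Set.Icc ε Λ → t ∈ Set.Icc ε Λ → u ∈ Set.Icc ε Λ →
      |p.eval (s + u) * p.eval (t + u) + dd p (s + u) (t + u)| ≤ η)
    (hp2 : ∀ s t : ℝ, s ∈ Set.Icc ε Λ → t ∈ Set.Icc ε Λ → |(s + t) * p.eval (s + t) - 1| ≤ η)
    (x : ℝ) :
    C * (1 - η / 2) * (Matrix.trace (PP v x * PP v x)).re -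
      η * (Matrix.trace (PP v x)).re ^ 3 ≤ ∑ i, ‖w i x‖ ^ 2 -
        dGt C p (SS ε v (Set.Iic x)) (PP v x) (QQ v w x) := by
  have h1 := pointwise hw hC hη.le hp1 hp2 (setIntegral_gram_posSemidef hv (Set.Iic x))
    (le_trans (add_le_add le_rfl (trace_intGram_le hv (Set.Iic x))) hΛ)
    (fun j => v j x) (fun j => w j x) (SS ε v (Set.Iic x)) rfl
  have h2 : dGt C p (SS ε v (Set.Iic x)) (PP v x) (QQ v w x) =
    dcalG p (SS ε v (Set.Iic x)) (PP v x) (QQ v w x) -
    C / 2 * ((Matrix.trace (QQ v w x * SS ε v (Set.Iic x))).re +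
      (Matrix.trace (PP v x * PP v x)).re) -
    C ^ 2 / 4 * (Matrix.trace (SS ε v (Set.Iic x) * SS ε v (Set.Iic x) * PP v x)).re := rfl
  rw [h2]
  change C * (1 - η / 2) * (Matrix.trace (PP v x * PP v x)).re -
      η * (Matrix.trace (PP v x)).re ^ 3 ≤ ∑ i, ‖w i x‖ ^ 2 - dcalG p (SS ε v (Set.Iic x)) (PP v x) (QQ v w x) +
        C / 2 * ((Matrix.trace (QQ v w x * SS ε v (Set.Iic x))).re + (Matrix.trace (PP v x * PP v x)).re) +
        C ^ 2 / 4 * (Matrix.trace (SS ε v (Set.Iic x) * SS ε v (Set.Iic x) * PP v x)).re at h1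
  linarith

lemma tendsto_PP_top [CompleteSpace H] (hb : BilStmt) {v w : Fin N → ℝ → H}
    (h : ∀ j, IsH1v (v j) (w j)) : Tendsto (PP v) atTop (𝓝 0) := by
  refine tendsto_pi_nhds.mpr fun i => tendsto_pi_nhds.mpr fun j => ?_
  exact (tendsto_zero_atTop (acm_PP hb h i j) (integrable_gram (fun j => (h j).1) i j)
    (integrable_gramD (fun j => (h j).1) (fun j => (h j).2.1) i j))

lemma tendsto_PP_bot [CompleteSpace H] (hb : BilStmt) {v w : Fin N → ℝ → H}
    (h : ∀ j, IsH1v (v j) (w j)) : Tendsto (PP v) atBot (𝓝 0) := by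
  refine tendsto_pi_nhds.mpr fun i => tendsto_pi_nhds.mpr fun j => ?_
  exact (tendsto_zero_atBot (acm_PP hb h i j) (integrable_gram (fun j => (h j).1) i j)
    (integrable_gramD (fun j => (h j).1) (fun j => (h j).2.1) i j))

lemma tendsto_SS_top (ε : ℝ) {v : Fin N → ℝ → H} (hv : ∀ j, MemLp (v j) 2 volume) :
    Tendsto (fun x => SS ε v (Set.Iic x)) atTop (𝓝 (SS ε v Set.univ)) := by
  refine tendsto_const_nhds.add ?_
  refine tendsto_pi_nhds.mpr fun i => tendsto_pi_nhds.mpr fun j => ?_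
  have e : intGram v Set.univ i j = ∫ x, gram (fun j => v j x) i j := by
    simp [intGram]
  rw [e]
  exact tendsto_Iic_atTop (integrable_gram hv i j)

lemma tendsto_SS_bot (ε : ℝ) {v : Fin N → ℝ → H} (hv : ∀ j, MemLp (v j) 2 volume) :
    Tendsto (fun x => SS ε v (Set.Iic x)) atBot (𝓝 ((ε : ℂ) • 1)) := by
  have : Tendsto (fun x => SS ε v (Set.Iic x)) atBot (𝓝 ((ε : ℂ) • 1 + 0)) := by
    refine tendsto_const_nhds.add ?_
    refine tendsto_pi_nhds.mpr fun i => tendsto_pi_nhds.mpr fun j => ?_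
    exact tendsto_Iic_atBot (integrable_gram hv i j)
  simpa using this

lemma key (hb : BilStmt) (hc : CalcStmt) (hw : PW2Stmt) (hp : Poly2Stmt) [CompleteSpace H]
    {v w : Fin N → ℝ → H} (h : ∀ j, IsH1v (v j) (w j)) {C ε η : ℝ} (hC : 0 < C) (hε : 0 < ε)
    (hη : 0 < η) :
    C * (1 - η / 2) * (∫ x, (Matrix.trace (PP v x * PP v x)).re) -
      η * (∫ x, (Matrix.trace (PP v x)).re ^ 3) ≤
      (∑ j, ∫ x, ‖w j x‖ ^ 2) +
        (C ^ 2 / 12 * (Matrix.trace (SS ε v Set.univ * SS ε v Set.univ * SS ε v Set.univ)).re -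
        C ^ 2 / 12 * (Matrix.trace (((ε : ℂ) • 1 : Matrix (Fin N) (Fin N) ℂ) * (ε : ℂ) • 1 *
          (ε : ℂ) • 1)).re) := by
  have hv : ∀ j, MemLp (v j) 2 volume := fun j => (h j).1
  have hwl : ∀ j, MemLp (w j) 2 volume := fun j => (h j).2.1
  have htr0 : 0 ≤ (Matrix.trace (intGram v Set.univ)).re :=
    trace_nonneg' (setIntegral_gram_posSemidef hv _)
  obtain ⟨Λ, hΛ, hΛ2⟩ : ∃ Λ : ℝ, ε + (Matrix.trace (intGram v Set.univ)).re ≤ Λ ∧ ε < Λ :=
    ⟨ε + (Matrix.trace (intGram v Set.univ)).re + 1, by linarith, by linarith⟩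
  obtain ⟨p, hp1, hp2⟩ := hp ε Λ hε hΛ2 η hη
  have hG := acv_Gt hb hc C p (acm_SS ε hv) (acm_PP hb h)
  have hpw := pw_x hw (w := w) hv hC hΛ hη hp1 hp2
  have i1 : Integrable (fun x => C * (1 - η / 2) * (Matrix.trace (PP v x * PP v x)).re -
      η * (Matrix.trace (PP v x)).re ^ 3) volume :=
    ((int_trace_sq hb h).const_mul _).sub ((int_trace_cube hb h).const_mul _)
  have i2 := int_w hwl
  have hn : ∀ n : ℕ, (∫ x in (-(n:ℝ))..n, (C * (1 - η / 2) * (Matrix.trace (PP v x * PP v x)).re -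
      η * (Matrix.trace (PP v x)).re ^ 3)) ≤ (∫ x in (-(n:ℝ))..n, ∑ i, ‖w i x‖ ^ 2) -
        (Gt C p (SS ε v (Set.Iic n)) (PP v n) - Gt C p (SS ε v (Set.Iic (-n))) (PP v (-n))) := by
    intro n
    rw [hG.2 (-(n:ℝ)) n, ← intervalIntegral.integral_sub i2.intervalIntegrable (hG.1 _ _)]
    have hn0 : (0:ℝ) ≤ n := Nat.cast_nonneg n
    exact intervalIntegral.integral_mono_on (by linarith) i1.intervalIntegrable
      (i2.intervalIntegrable.sub (hG.1 _ _)) fun x _ => hpw x
  have t1 : Tendsto (fun n : ℕ => (n : ℝ)) atTop atTop := tendsto_natCast_atTop_atTop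
  have t2 : Tendsto (fun n : ℕ => -(n : ℝ)) atTop atBot := tendsto_neg_atTop_atBot.comp t1
  have l1 := intervalIntegral_tendsto_integral i1 t2 t1
  have l2 := intervalIntegral_tendsto_integral i2 t2 t1
  have g1 : Tendsto (fun n : ℕ => Gt C p (SS ε v (Set.Iic n)) (PP v n)) atTop
      (𝓝 (Gt C p (SS ε v Set.univ) 0)) :=
    tendsto_Gt C p ((tendsto_SS_top ε hv).comp t1) ((tendsto_PP_top hb h).comp t1)
  have g2 : Tendsto (fun n : ℕ => Gt C p (SS ε v (Set.Iic (-n))) (PP v (-n))) atTop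
      (𝓝 (Gt C p ((ε : ℂ) • 1) 0)) :=
    tendsto_Gt C p ((tendsto_SS_bot ε hv).comp t2) ((tendsto_PP_bot hb h).comp t2)
  have hlim := le_of_tendsto_of_tendsto' l1 (l2.sub (g1.sub g2)) hn
  rw [Gt_zero, Gt_zero] at hlim
  have e1 : ∫ x, (C * (1 - η / 2) * (Matrix.trace (PP v x * PP v x)).re -
      η * (Matrix.trace (PP v x)).re ^ 3) =
      C * (1 - η / 2) * (∫ x, (Matrix.trace (PP v x * PP v x)).re) -
      η * ∫ x, (Matrix.trace (PP v x)).re ^ 3 := by
    rw [← integral_const_mul, ← integral_const_mul]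
    exact integral_sub ((int_trace_sq hb h).const_mul _) ((int_trace_cube hb h).const_mul _)
  have e2 : ∫ x, ∑ i, ‖w i x‖ ^ 2 = ∑ i, ∫ x, ‖w i x‖ ^ 2 :=
    integral_finsetSum _ fun j _ => (memLp_two_iff_integrable_sq_norm (hwl j).1).1 (hwl j)
  rw [e1, e2] at hlim
  linarith

lemma key2 (hb : BilStmt) (hc : CalcStmt) (hw : PW2Stmt) (hp : Poly2Stmt) [CompleteSpace H]
    {v w : Fin N → ℝ → H} (h : ∀ j, IsH1v (v j) (w j)) {C ε : ℝ} (hC : 0 < C) (hε : 0 < ε) :
    C * (∫ x, (Matrix.trace (PP v x * PP v x)).re) ≤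
      (∑ j, ∫ x, ‖w j x‖ ^ 2) +
        (C ^ 2 / 12 * (Matrix.trace (SS ε v Set.univ * SS ε v Set.univ * SS ε v Set.univ)).re -
        C ^ 2 / 12 * (Matrix.trace (((ε : ℂ) • 1 : Matrix (Fin N) (Fin N) ℂ) * (ε : ℂ) • 1 *
          (ε : ℂ) • 1)).re) := by
  have hk := fun (η : ℝ) (hη : 0 < η) => key hb hc hw hp h hC hε hη
  generalize (∫ x, (Matrix.trace (PP v x * PP v x)).re) = I2 at *
  generalize (∫ x, (Matrix.trace (PP v x)).re ^ 3) = I3 at *
  have hcont : Continuous fun η : ℝ => C * (1 - η / 2) * I2 - η * I3 := by fun_prop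
  have hlim := (hcont.tendsto 0).mono_left (nhdsWithin_le_nhds (s := Set.Ioi 0))
  have hle := le_of_tendsto hlim (eventually_nhdsWithin_of_forall fun η hη => hk η hη)
  simpa using hle

end Main

end Kin2

theorem kin2 (hb : BilStmt) (hc : CalcStmt) (hw : PW2Stmt) (hp : Poly2Stmt) : Kin2Stmt := by
  intro H _ _ _ N v w h C hC
  have hv : ∀ j, MemLp (v j) 2 volume := fun j => (h j).1
  have e1 : ∀ x, (Matrix.trace (gram (fun j => v j x) ^ 2)).re =
      (Matrix.trace (Kin2.PP v x * Kin2.PP v x)).re := fun x => by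
    rw [pow_two]; rfl
  simp only [e1]
  refine ⟨Kin2.int_trace_sq hb h, ?_⟩
  have e2 : (Matrix.of fun i j => ∫ x, inner ℂ (v j x) (v i x) : Matrix (Fin N) (Fin N) ℂ) =
      Kin2.intGram v Set.univ := by
    ext i j
    simp [Kin2.intGram, gram]
  have e3 : Kin2.intGram v Set.univ ^ 3 =
      Kin2.intGram v Set.univ * Kin2.intGram v Set.univ * Kin2.intGram v Set.univ := by
    rw [pow_succ, pow_two]
  rw [e2, e3]
  have hcont : Continuous fun ε : ℝ => (∑ j, ∫ x, ‖w j x‖ ^ 2) +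
        (C ^ 2 / 12 * (Matrix.trace (((ε : ℂ) • 1 + Kin2.intGram v Set.univ) *
          ((ε : ℂ) • 1 + Kin2.intGram v Set.univ) *
            ((ε : ℂ) • 1 + Kin2.intGram v Set.univ))).re -
        C ^ 2 / 12 * (Matrix.trace (((ε : ℂ) • 1 : Matrix (Fin N) (Fin N) ℂ) * (ε : ℂ) • 1 *
          (ε : ℂ) • 1)).re) := by
    fun_prop
  have hlim := (hcont.tendsto 0).mono_left (nhdsWithin_le_nhds (s := Set.Ioi 0))
  have hge := ge_of_tendsto hlim (eventually_nhdsWithin_of_forall fun ε hε =>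
    Kin2.key2 hb hc hw hp h hC hε)
  simpa using hge


end Pool.Agent.LT
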