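import Pool.Agent.LT.Defs2

/-!
# Lifting the dual inequality with exponent `3/2` in dimension `d` to exponent `1` in dimension
`d + 1` (module LIFT1 of MP_4c716f_mp)
-/

set_option autoImplicit false

namespace Pool.Agent.LT

open MeasureTheory Matrix Finset
open scoped ComplexConjugate ComplexOrder ContDiff

namespace Lift1

/-- the map `(x, y) ↦ Fin.cons x y` preserves the volume. -/
lemma mp_cons (d : ℕ) :
    MeasurePreserving (MeasurableEquiv.piFinSuccAbove (fun _ : Fin (d + 1) => ℝ) 0).symm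
      ((volume : Measure ℝ).prod (volume : Measure (Fin d → ℝ)))
      (volume : Measure (Fin (d + 1) → ℝ)) :=
  (volume_preserving_piFinSuccAbove (fun _ : Fin (d + 1) => ℝ) 0).symm _

lemma symm_eq {d : ℕ} (z : ℝ × (Fin d → ℝ)) :
    (MeasurableEquiv.piFinSuccAbove (fun _ : Fin (d + 1) => ℝ) 0).symm z =
      (Fin.cons z.1 z.2 : Fin (d + 1) → ℝ) := by
  rw [MeasurableEquiv.piFinSuccAbove_symm_apply]
  simp [Fin.insertNthEquiv]

lemma integrable_cons {d : ℕ} {E : Type*} [NormedAddCommGroup E] {g : (Fin (d + 1) → ℝ) → E}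
    (hg : Integrable g volume) :
    Integrable (fun z : ℝ × (Fin d → ℝ) => g (Fin.cons z.1 z.2))
      ((volume : Measure ℝ).prod (volume : Measure (Fin d → ℝ))) := by
  have h := (mp_cons d).integrable_comp_emb
    (MeasurableEquiv.piFinSuccAbove (fun _ : Fin (d + 1) => ℝ) 0).symm.measurableEmbedding (g := g)
  have h2 := h.mpr hg
  refine h2.congr (Filter.Eventually.of_forall fun z => ?_)
  simp only [Function.comp]
  rw [symm_eq]

lemma integral_cons {d : ℕ} {E : Type*} [NormedAddCommGroup E] [NormedSpace ℝ E]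
    {g : (Fin (d + 1) → ℝ) → E} (hg : Integrable g volume) :
    ∫ z, g z = ∫ x : ℝ, ∫ y : Fin d → ℝ, g (Fin.cons x y) := by
  rw [← (mp_cons d).integral_comp' g]
  have : (fun z => g ((MeasurableEquiv.piFinSuccAbove (fun _ : Fin (d + 1) => ℝ) 0).symm z)) =
      fun z : ℝ × (Fin d → ℝ) => g (Fin.cons z.1 z.2) := by
    funext z; rw [symm_eq]
  rw [this, integral_prod _ (integrable_cons hg)]

lemma integrable_slice {d : ℕ} {E : Type*} [NormedAddCommGroup E] [NormedSpace ℝ E]
    {g : (Fin (d + 1) → ℝ) → E} (hg : Integrable g volume) :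
    Integrable (fun x : ℝ => ∫ y : Fin d → ℝ, g (Fin.cons x y)) :=
  (integrable_cons hg).integral_prod_left

lemma continuous_cons {d : ℕ} (x : ℝ) :
    Continuous fun y : Fin d → ℝ => (Fin.cons x y : Fin (d + 1) → ℝ) := by
  refine continuous_pi fun i => ?_
  refine Fin.cases ?_ (fun j => ?_) i
  · simpa using continuous_const
  · simpa using continuous_apply j

/-- compact support of slices. -/
lemma hcs_slice {d : ℕ} {E : Type*} [Zero E] [TopologicalSpace E] {g : (Fin (d + 1) → ℝ) → E}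
    (hg : HasCompactSupport g) (x : ℝ) :
    HasCompactSupport fun y : Fin d → ℝ => g (Fin.cons x y) := by
  obtain ⟨R, hR⟩ := hg.isCompact.isBounded.subset_closedBall 0
  refine HasCompactSupport.intro (isCompact_closedBall (0 : Fin d → ℝ) R) fun y hy => ?_
  by_contra h
  have h1 : (Fin.cons x y : Fin (d + 1) → ℝ) ∈ tsupport g := subset_tsupport _ h
  have h2 := hR h1
  apply hy
  rw [mem_closedBall_zero_iff] at h2 ⊢
  have hR0 : 0 ≤ R := le_trans (norm_nonneg _) h2
  rw [pi_norm_le_iff_of_nonneg hR0] at h2 ⊢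
  intro i
  simpa using h2 i.succ

lemma potFn_slice {d : ℕ} {V : (Fin (d + 1) → ℝ) → ℝ} (hV : PotFn (d + 1) V) (x : ℝ) :
    PotFn d fun y => V (Fin.cons x y) :=
  ⟨hV.1.comp (continuous_cons x), hcs_slice hV.2.1 x, fun _ => hV.2.2 _⟩

/-- linear part of `y ↦ Fin.cons x y`. -/
noncomputable def Lc (d : ℕ) : (Fin d → ℝ) →L[ℝ] (Fin (d + 1) → ℝ) :=
  ContinuousLinearMap.pi (Fin.cons (0 : (Fin d → ℝ) →L[ℝ] ℝ)
    (fun i => ContinuousLinearMap.proj (R := ℝ) (φ := fun _ : Fin d => ℝ) i))

lemma Lc_apply (d : ℕ) (y : Fin d → ℝ) : Lc d y = Fin.cons 0 y := by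
  funext i
  refine Fin.cases ?_ (fun j => ?_) i
  · simp [Lc]
  · simp [Lc]

lemma cons_eq {d : ℕ} (x : ℝ) (y : Fin d → ℝ) :
    (Fin.cons x y : Fin (d + 1) → ℝ) = Fin.cons x 0 + Lc d y := by
  rw [Lc_apply]
  funext i
  refine Fin.cases ?_ (fun j => ?_) i
  · simp
  · simp

lemma Lc_single {d : ℕ} (i : Fin d) :
    Lc d (Pi.single i 1) = Pi.single i.succ 1 := by
  rw [Lc_apply]
  funext k
  refine Fin.cases ?_ (fun j => ?_) k
  · simp
  · simp [Pi.single_apply, Fin.succ_inj]

lemma hasFDerivAt_cons {d : ℕ} (x : ℝ) (y : Fin d → ℝ) :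
    HasFDerivAt (fun y : Fin d → ℝ => (Fin.cons x y : Fin (d + 1) → ℝ)) (Lc d) y := by
  have : (fun y : Fin d → ℝ => (Fin.cons x y : Fin (d + 1) → ℝ)) =
      fun y => Fin.cons x 0 + Lc d y := by
    funext y; exact cons_eq x y
  rw [this]
  exact (Lc d).hasFDerivAt.const_add _

lemma fderiv_slice {d : ℕ} {f : (Fin (d + 1) → ℝ) → ℂ} (hf : TestFn (d + 1) f) (x : ℝ)
    (y : Fin d → ℝ) (i : Fin d) :
    fderiv ℝ (fun y : Fin d → ℝ => f (Fin.cons x y)) y (Pi.single i 1) =
      fderiv ℝ f (Fin.cons x y) (Pi.single i.succ 1) := by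
  have hd : DifferentiableAt ℝ f (Fin.cons x y) := hf.1.contDiffAt.differentiableAt (by simp)
  have := (hd.hasFDerivAt.comp y (hasFDerivAt_cons x y)).fderiv
  have h2 : (fun y : Fin d → ℝ => f (Fin.cons x y)) =
    f ∘ fun y : Fin d → ℝ => (Fin.cons x y : Fin (d + 1) → ℝ) := rfl
  rw [h2, this, ContinuousLinearMap.comp_apply, Lc_single]

lemma integrable_fderiv_sq {d : ℕ} {f : (Fin d → ℝ) → ℂ} (hf : TestFn d f) (e : Fin d → ℝ) :
    Integrable (fun y => ‖fderiv ℝ f y e‖ ^ 2) volume := by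
  have hc : Continuous fun y => fderiv ℝ f y e :=
    (hf.1.continuous_fderiv (by simp)).clm_apply continuous_const
  refine Continuous.integrable_of_hasCompactSupport (by fun_prop) ?_
  have := (hf.2.fderiv_apply (𝕜 := ℝ) e)
  exact this.comp_left (g := fun z : ℂ => ‖z‖ ^ 2) (by simp)

lemma integrable_kinE_slice {d : ℕ} {f : (Fin (d + 1) → ℝ) → ℂ} (hf : TestFn (d + 1) f) :
    Integrable (fun x : ℝ => kinE fun y : Fin d → ℝ => f (Fin.cons x y)) volume := by
  unfold kinE
  refine integrable_finsetSum _ fun i _ => ?_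
  have h := integrable_slice (integrable_fderiv_sq hf (Pi.single i.succ 1))
  refine h.congr (Filter.Eventually.of_forall fun x => ?_)
  simp only
  congr 1
  funext y
  rw [fderiv_slice hf]

/-- `gram` is positive semidefinite. -/
lemma gram_posSemidef {N : ℕ} {H : Type*} [NormedAddCommGroup H] [InnerProductSpace ℂ H]
    (v : Fin N → H) : (gram v).PosSemidef := by
  have h := (Matrix.posSemidef_gram ℂ v).transpose
  have : gram v = (Matrix.gram ℂ v)ᵀ := by
    ext i j; simp [gram, Matrix.gram]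
  rw [this]; exact h

lemma gram_Lp {d N : ℕ} (v : Fin N → Lp ℂ 2 (volume : Measure (Fin d → ℝ)))
    (f : Fin N → (Fin d → ℝ) → ℂ) (h : ∀ j, (v j : (Fin d → ℝ) → ℂ) =ᵐ[volume] f j) :
    gram v = gramF f := by
  ext i j
  simp only [gram, gramF, Matrix.of_apply]
  rw [L2.inner_def]
  refine integral_congr_ae ?_
  filter_upwards [h i, h j] with y h1 h2
  rw [h1, h2, RCLike.inner_apply]

lemma integrable_mul {d : ℕ} {f g : (Fin d → ℝ) → ℂ} (hf : TestFn d f) (hg : TestFn d g) :
    Integrable (fun y => f y * conj (g y)) volume := by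
  refine Continuous.integrable_of_hasCompactSupport ?_ ?_
  · exact hf.1.continuous.mul (Complex.continuous_conj.comp hg.1.continuous)
  · exact hf.2.mul_right

/-- the constants. -/
lemma const_eq (d : ℕ) :
    2 / (3 * √3) * Lcl (3 / 2) d / √(Real.pi ^ 2 / 4) = 2 / √3 * Lcl 1 (d + 1) := by
  have hpi := Real.pi_pos
  have h1 : √(Real.pi ^ 2 / 4) = Real.pi / 2 := by
    rw [show Real.pi ^ 2 / 4 = (Real.pi / 2) ^ 2 by ring]
    exact Real.sqrt_sq (by positivity)
  rw [h1]
  unfold Lcl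
  have e1 : (3 / 2 + 1 + (d : ℝ) / 2) = 1 + 1 + ((d + 1 : ℕ) : ℝ) / 2 := by
    push_cast; ring
  rw [e1]
  have hG : 0 < Real.Gamma (1 + 1 + ((d + 1 : ℕ) : ℝ) / 2) := Real.Gamma_pos_of_pos (by positivity)
  have g1 : Real.Gamma (3 / 2 + 1) = 3 / 4 * √Real.pi := by
    rw [Real.Gamma_add_one (by norm_num), show (3 / 2 : ℝ) = 1 / 2 + 1 by norm_num,
      Real.Gamma_add_one (by norm_num), Real.Gamma_one_half_eq]
    ring
  have g2 : Real.Gamma (1 + 1) = 1 := by
    rw [Real.Gamma_add_one (by norm_num), Real.Gamma_one]; norm_num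
  rw [g1, g2]
  have e2 : (4 * Real.pi) ^ (((d + 1 : ℕ) : ℝ) / 2) =
      (4 * Real.pi) ^ ((d : ℝ) / 2) * (2 * √Real.pi) := by
    rw [show (((d + 1 : ℕ) : ℝ) / 2) = (d : ℝ) / 2 + 1 / 2 by push_cast; ring,
      Real.rpow_add (by positivity), ← Real.sqrt_eq_rpow, Real.sqrt_mul (by norm_num)]
    congr 2
    rw [show (4 : ℝ) = 2 ^ 2 by norm_num]
    exact Real.sqrt_sq (by norm_num)
  rw [e2]
  have h3 : 0 < (4 * Real.pi) ^ ((d : ℝ) / 2) := by positivity
  have h4 : 0 < √Real.pi := by positivity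
  have h5 : √Real.pi * √Real.pi = Real.pi := Real.mul_self_sqrt hpi.le
  have h6 : 0 < √3 := by positivity
  have h7 : Real.pi = √Real.pi ^ 2 := by rw [sq, h5]
  generalize (4 * Real.pi) ^ ((d : ℝ) / 2) = X at *
  generalize √Real.pi = Y at *
  rw [h7]
  field_simp
  ring

end Lift1

open Lift1 in
/-- (LIFT1) -/
theorem lift1 (hk : KinStmt) (hp : PosStmt) (hs : SliceStmt) : Lift1Stmt := by
  intro d h3 N f V hf hV hone
  choose v w hvw hv hw htest hkin using fun j => hs d (f j) (hf j)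
  -- gram of the slices
  have hgram : ∀ x : ℝ, gram (fun j => v j x) = gramF (fun j (y : Fin d → ℝ) => f j (Fin.cons x y)) :=
    fun x => gram_Lp _ _ fun j => hv j x
  have hG : (Matrix.of fun i j => ∫ x, inner ℂ (v j x) (v i x) : Matrix (Fin N) (Fin N) ℂ) =
      gramF f := by
    ext i j
    have h1 : ∀ x, inner ℂ (v j x) (v i x) =
        ∫ y : Fin d → ℝ, f i (Fin.cons x y) * conj (f j (Fin.cons x y)) := by
      intro x
      have := congrFun (congrFun (hgram x) i) j
      simpa [gram, gramF] using this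
    simp only [Matrix.of_apply, gramF]
    simp_rw [h1]
    rw [integral_cons (integrable_mul (hf i) (hf j))]
  obtain ⟨hkint, hkle⟩ := hk (Lp ℂ 2 (volume : Measure (Fin d → ℝ)))
    (fun M u => hp M _ (gram_posSemidef u)) N v w hvw (by rw [hG]; exact hone)
  simp_rw [hgram] at hkint hkle
  -- the potential energy
  have hq : Integrable (fun z => V z * ∑ j, ‖f j z‖ ^ 2) volume := by
    refine Continuous.integrable_of_hasCompactSupport ?_ ?_
    · refine hV.1.mul (continuous_finsetSum _ fun j _ => ?_)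
      exact ((hf j).1.continuous.norm).pow 2
    · exact hV.2.1.mul_right
  have hr : Integrable (fun z => V z ^ ((3 + d : ℝ) / 2)) volume := by
    refine Continuous.integrable_of_hasCompactSupport ?_ ?_
    · exact hV.1.rpow_const fun _ => Or.inr (by positivity)
    · exact hV.2.1.comp_left (g := fun t : ℝ => t ^ ((3 + d : ℝ) / 2))
        (Real.zero_rpow (by positivity))
  have hkI : ∀ j, Integrable (fun x : ℝ => kinE fun y : Fin d → ℝ => f j (Fin.cons x y)) volume :=
    fun j => integrable_kinE_slice (hf j)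
  have hsl : ∀ x : ℝ, -(2 / √3 * Lcl 1 (d + 1) * ∫ y : Fin d → ℝ, V (Fin.cons x y) ^ ((3 + d : ℝ) / 2))
      ≤ (∑ j, kinE (fun y : Fin d → ℝ => f j (Fin.cons x y)) -
          ∫ y : Fin d → ℝ, V (Fin.cons x y) * ∑ j, ‖f j (Fin.cons x y)‖ ^ 2) +
        Real.pi ^ 2 / 4 *
          (Matrix.trace (gramF (fun j (y : Fin d → ℝ) => f j (Fin.cons x y)) ^ 3)).re := by
    intro x
    have := h3 N (fun j (y : Fin d → ℝ) => f j (Fin.cons x y)) (fun y => V (Fin.cons x y))
      (fun j => htest j x) (potFn_slice hV x) (Real.pi ^ 2 / 4) (by positivity)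
    rw [const_eq] at this
    exact this
  have hmono := integral_mono (μ := (volume : Measure ℝ))
    (((integrable_slice hr).const_mul (2 / √3 * Lcl 1 (d + 1))).neg)
    (((integrable_finsetSum univ fun j _ => hkI j).sub (integrable_slice hq)).add
      (hkint.const_mul (Real.pi ^ 2 / 4))) hsl
  simp only [Pi.neg_apply, Pi.add_apply, Pi.sub_apply] at hmono
  rw [integral_neg, integral_const_mul, integral_add, integral_sub, integral_finsetSum,
    integral_const_mul, ← integral_cons hr, ← integral_cons hq] at hmono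
  · unfold formE
    have e1 : ((2 + ((d + 1 : ℕ) : ℝ)) / 2) = (3 + d : ℝ) / 2 := by push_cast; ring
    rw [e1]
    have e2 : ∑ j, kinE (f j) = (∑ j, ∫ x, ‖w j x‖ ^ 2) +
        ∑ j, ∫ x : ℝ, kinE fun y : Fin d → ℝ => f j (Fin.cons x y) := by
      rw [← Finset.sum_add_distrib]
      exact Finset.sum_congr rfl fun j _ => hkin j
    rw [e2]
    linarith
  · exact fun j _ => hkI j
  · exact integrable_finsetSum univ fun j _ => hkI j
  · exact integrable_slice hq
  · exact (integrable_finsetSum univ fun j _ => hkI j).sub (integrable_slice hq)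
  · exact hkint.const_mul (Real.pi ^ 2 / 4)

end Pool.Agent.LT
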