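import Pool.Agent.LT.Defs2

/-!
# Lifting the inequality with exponent `2` in dimension `d` to exponent `3/2` in dimension `d + 1`
(MP_4c716f_mp; mathematics: helper15; formalisation: helper65)
-/

set_option autoImplicit false

namespace Pool.Agent.LT

open MeasureTheory Matrix Finset
open scoped ComplexConjugate ComplexOrder ContDiff

namespace Lift3

/-- `(x, y) ↦ Fin.cons x y` as a measure preserving equivalence. -/
noncomputable def consE (d : ℕ) : ℝ × (Fin d → ℝ) ≃ᵐ (Fin (d + 1) → ℝ) :=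
  (MeasurableEquiv.piFinSuccAbove (fun _ : Fin (d + 1) => ℝ) 0).symm

theorem consE_apply (d : ℕ) (p : ℝ × (Fin d → ℝ)) : consE d p = Fin.cons p.1 p.2 := by
  show Fin.insertNth (α := fun _ : Fin (d + 1) => ℝ) 0 p.1 p.2 = _
  rw [Fin.insertNth_zero]
  rfl

theorem consE_mp (d : ℕ) : MeasurePreserving (consE d) volume volume :=
  (volume_preserving_piFinSuccAbove (fun _ : Fin (d + 1) => ℝ) 0).symm

/-- Fubini for a continuous function with compact support. -/
theorem fubini {d : ℕ} {E : Type*} [NormedAddCommGroup E] [NormedSpace ℝ E] [CompleteSpace E]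
    {g : (Fin (d + 1) → ℝ) → E} (hg : Continuous g) (hc : HasCompactSupport g) :
    Integrable (fun x : ℝ => ∫ y : Fin d → ℝ, g (Fin.cons x y)) volume ∧
      ∫ x : ℝ, ∫ y : Fin d → ℝ, g (Fin.cons x y) = ∫ z, g z := by
  have hi : Integrable g volume := hg.integrable_of_hasCompactSupport hc
  have h1 : Integrable (g ∘ consE d) (volume : Measure (ℝ × (Fin d → ℝ))) :=
    ((consE_mp d).integrable_comp_emb (consE d).measurableEmbedding).2 hi
  have h2 : g ∘ consE d = fun p : ℝ × (Fin d → ℝ) => g (Fin.cons p.1 p.2) := by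
    funext p
    rw [Function.comp_apply, consE_apply]
  rw [h2] at h1
  have h3 : (volume : Measure (ℝ × (Fin d → ℝ))) = (volume : Measure ℝ).prod volume := rfl
  rw [h3] at h1
  refine ⟨h1.integral_prod_left, ?_⟩
  have h4 := integral_prod _ h1
  rw [← h4, ← h3, ← h2]
  exact (consE_mp d).integral_comp (consE d).measurableEmbedding g

theorem continuous_cons {d : ℕ} (x : ℝ) :
    Continuous (fun y : Fin d → ℝ => (Fin.cons x y : Fin (d + 1) → ℝ)) :=
  Continuous.finCons (A := fun _ => ℝ) continuous_const continuous_id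

theorem isClosedEmbedding_cons {d : ℕ} (x : ℝ) :
    Topology.IsClosedEmbedding (fun y : Fin d → ℝ => (Fin.cons x y : Fin (d + 1) → ℝ)) := by
  refine Topology.IsClosedEmbedding.of_continuous_injective_isClosedMap (continuous_cons x) ?_ ?_
  · intro y y' h
    exact Fin.cons_right_injective (α := fun _ : Fin (d + 1) => ℝ) x h
  · intro s hs
    have h1 : (fun y : Fin d → ℝ => (Fin.cons x y : Fin (d + 1) → ℝ)) '' s =
        {z : Fin (d + 1) → ℝ | z 0 = x ∧ (fun i : Fin d => z i.succ) ∈ s} := by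
      ext z
      constructor
      · rintro ⟨y, hy, rfl⟩
        exact ⟨rfl, by simpa using hy⟩
      · rintro ⟨h0, h1⟩
        refine ⟨_, h1, ?_⟩
        funext i
        refine Fin.cases ?_ (fun j => ?_) i
        · simp [h0]
        · simp
    rw [h1]
    refine IsClosed.inter (isClosed_eq (continuous_apply 0) continuous_const) ?_
    exact hs.preimage (continuous_pi fun i => continuous_apply _)

theorem potFn_slice {d : ℕ} {V : (Fin (d + 1) → ℝ) → ℝ} (hV : PotFn (d + 1) V) (x : ℝ) :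
    PotFn d fun y => V (Fin.cons x y) :=
  ⟨hV.1.comp (continuous_cons x), hV.2.1.comp_isClosedEmbedding (isClosedEmbedding_cons x),
    fun _ => hV.2.2 _⟩

/-- derivative of a slice -/
theorem fderiv_slice {d : ℕ} {f : (Fin (d + 1) → ℝ) → ℂ} (hf : TestFn (d + 1) f) (x : ℝ)
    (y : Fin d → ℝ) (i : Fin d) :
    fderiv ℝ (fun y : Fin d → ℝ => f (Fin.cons x y)) y (Pi.single i 1) =
      fderiv ℝ f (Fin.cons x y) (Pi.single i.succ 1) := by
  have h1 : HasFDerivAt (fun y : Fin d → ℝ => (Fin.cons x y : Fin (d + 1) → ℝ))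
      ((0 : (Fin d → ℝ) →L[ℝ] ℝ).finCons (M := fun _ : Fin (d + 1) => ℝ)
        (ContinuousLinearMap.id ℝ (Fin d → ℝ))) y :=
    HasFDerivAt.finCons (F' := fun _ : Fin (d + 1) => ℝ) (hasFDerivAt_const x y) (hasFDerivAt_id y)
  have h2 : HasFDerivAt f (fderiv ℝ f (Fin.cons x y)) (Fin.cons x y) :=
    ((hf.1.differentiable (by simp)) _).hasFDerivAt
  have h3 := (h2.comp y h1).fderiv
  have h4 : (f ∘ fun y : Fin d → ℝ => (Fin.cons x y : Fin (d + 1) → ℝ)) =
      fun y : Fin d → ℝ => f (Fin.cons x y) := rfl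
  rw [h4] at h3
  rw [h3]
  show fderiv ℝ f (Fin.cons x y) _ = _
  congr 1
  funext j
  refine Fin.cases ?_ (fun k => ?_) j
  · simp
  · simp [Pi.single_apply]

theorem integrable_kinE_slice {d : ℕ} {f : (Fin (d + 1) → ℝ) → ℂ} (hf : TestFn (d + 1) f) :
    Integrable (fun x : ℝ => kinE fun y : Fin d → ℝ => f (Fin.cons x y)) volume := by
  unfold kinE
  refine integrable_finsetSum _ fun i _ => ?_
  simp_rw [fderiv_slice hf]
  have h1 : Continuous fun z => ‖fderiv ℝ f z (Pi.single i.succ 1)‖ ^ 2 :=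
    (((hf.1.continuous_fderiv (by simp)).clm_apply continuous_const).norm.pow 2)
  have h2 : HasCompactSupport fun z => ‖fderiv ℝ f z (Pi.single i.succ 1)‖ ^ 2 := by
    have := (hf.2.fderiv (𝕜 := ℝ)).comp_left
      (g := fun L : (Fin (d + 1) → ℝ) →L[ℝ] ℂ => ‖L (Pi.single i.succ 1)‖ ^ 2) (by simp)
    exact this
  exact (fubini h1 h2).1

/-- the constants match -/
theorem const_eq (d : ℕ) (A : ℝ) (hA : 0 < A) :
    Lcl 2 d / (4 * √(12 * A)) = 2 / (3 * √3) * Lcl (3 / 2) (d + 1) / √A := by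
  have hπ := Real.pi_pos
  have h4 : (0 : ℝ) < 4 * Real.pi := by positivity
  have hG : 0 < Real.Gamma (2 + 1 + (d : ℝ) / 2) := Real.Gamma_pos_of_pos (by positivity)
  have hp : 0 < (4 * Real.pi) ^ ((d : ℝ) / 2) := Real.rpow_pos_of_pos h4 _
  have hsA : 0 < √A := Real.sqrt_pos.2 hA
  have h1 : √(12 * A) = 2 * √3 * √A := by
    rw [show (12 : ℝ) * A = 2 ^ 2 * 3 * A by ring, Real.sqrt_mul (by norm_num),
      Real.sqrt_mul (by norm_num), Real.sqrt_sq (by norm_num)]
  have h2 : Real.Gamma (2 + 1) = 2 := by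
    have h := Real.Gamma_nat_eq_factorial 2
    rw [Nat.factorial_two] at h
    exact_mod_cast h
  have h3 : Real.Gamma (3 / 2 + 1) = 3 / 4 * √Real.pi := by
    rw [Real.Gamma_add_one (by norm_num), show (3 / 2 : ℝ) = 1 / 2 + 1 by norm_num,
      Real.Gamma_add_one (by norm_num), Real.Gamma_one_half_eq]
    ring
  have h5 : (4 * Real.pi) ^ (((d + 1 : ℕ) : ℝ) / 2) =
      (4 * Real.pi) ^ ((d : ℝ) / 2) * (2 * √Real.pi) := by
    rw [show (((d + 1 : ℕ) : ℝ) / 2) = (d : ℝ) / 2 + 1 / 2 by push_cast; ring,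
      Real.rpow_add h4, ← Real.sqrt_eq_rpow, Real.sqrt_mul (by norm_num),
      show (4 : ℝ) = 2 ^ 2 by norm_num, Real.sqrt_sq (by norm_num)]
  have h6 : (3 / 2 : ℝ) + 1 + ((d + 1 : ℕ) : ℝ) / 2 = 2 + 1 + (d : ℝ) / 2 := by
    push_cast; ring
  have hs3 : 0 < √3 := Real.sqrt_pos.2 (by norm_num)
  have hsp : 0 < √Real.pi := Real.sqrt_pos.2 hπ
  unfold Lcl
  rw [h1, h2, h3, h5, h6]
  field_simp

end Lift3

open Lift3

/-- (LIFT3) -/
theorem lift3 (hk : Kin2Stmt) (hs : SliceStmt) : Lift3Stmt := by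
  intro d hD N f V hf hV A hA
  choose v w hvw hv hw hT hkin using fun j => hs d (f j) (hf j)
  have hC : 0 < √(12 * A) := Real.sqrt_pos.2 (by positivity)
  set C : ℝ := √(12 * A) with hCdef
  have hC2 : C ^ 2 = 12 * A := Real.sq_sqrt (by positivity)
  obtain ⟨hint, hle⟩ := hk (Lp ℂ 2 (volume : Measure (Fin d → ℝ))) N v w hvw C hC
  -- Gram matrices of the slices
  have hgram : ∀ x, gram (fun j => v j x) = gramF fun j y => f j (Fin.cons x y) := by
    intro x
    ext i k
    simp only [gram, gramF, Matrix.of_apply]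
    rw [L2.inner_def]
    refine integral_congr_ae ?_
    filter_upwards [hv i x, hv k x] with y h1 h2
    rw [h1, h2]
    simp
  have hfub : ∀ i k, (∫ x, inner ℂ (v k x) (v i x)) = gramF f i k := by
    intro i k
    have h1 : ∀ x, inner ℂ (v k x) (v i x) =
        ∫ y : Fin d → ℝ, f i (Fin.cons x y) * conj (f k (Fin.cons x y)) := by
      intro x
      have := congrFun (congrFun (hgram x) i) k
      simpa [gram, gramF] using this
    simp_rw [h1]
    have hc : Continuous fun z => f i z * conj (f k z) :=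
      (hf i).1.continuous.mul (Complex.continuous_conj.comp (hf k).1.continuous)
    exact (fubini (g := fun z => f i z * conj (f k z)) hc (hf i).2.mul_right).2
  have hgramF : (Matrix.of fun i k => ∫ x, inner ℂ (v k x) (v i x) :
      Matrix (Fin N) (Fin N) ℂ) = gramF f := by
    ext i k
    rw [Matrix.of_apply, hfub]
  rw [hgramF] at hle
  simp_rw [hgram] at hint hle
  -- the inequality on the slices
  have hslice : ∀ x : ℝ, -(Lcl 2 d / (4 * C) * ∫ y : Fin d → ℝ,
      V (Fin.cons x y) ^ ((4 + d : ℝ) / 2)) ≤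
      formE (fun y : Fin d → ℝ => V (Fin.cons x y)) (fun j y => f j (Fin.cons x y)) +
        C * (Matrix.trace ((gramF fun j (y : Fin d → ℝ) => f j (Fin.cons x y)) ^ 2)).re :=
    fun x => hD N (fun j y => f j (Fin.cons x y)) (fun y => V (Fin.cons x y))
      (fun j => hT j x) (potFn_slice hV x) C hC
  -- potential terms
  have hexp : (0 : ℝ) < (4 + d : ℝ) / 2 := by positivity
  have hVp : Continuous fun z => V z ^ ((4 + d : ℝ) / 2) :=
    hV.1.rpow_const fun _ => Or.inr hexp.le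
  have hVc : HasCompactSupport fun z => V z ^ ((4 + d : ℝ) / 2) :=
    hV.2.1.comp_left (g := fun t : ℝ => t ^ ((4 + d : ℝ) / 2)) (Real.zero_rpow hexp.ne')
  obtain ⟨hP1, hP2⟩ := fubini hVp hVc
  have hQp : Continuous fun z => V z * ∑ j, ‖f j z‖ ^ 2 :=
    hV.1.mul (continuous_finsetSum _ fun j _ => (hf j).1.continuous.norm.pow 2)
  have hQc : HasCompactSupport fun z => V z * ∑ j, ‖f j z‖ ^ 2 := hV.2.1.mul_right
  obtain ⟨hQ1, hQ2⟩ := fubini hQp hQc
  have hK1 : ∀ j, Integrable (fun x : ℝ => kinE fun y : Fin d → ℝ => f j (Fin.cons x y)) volume :=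
    fun j => integrable_kinE_slice (hf j)
  have hK2 : Integrable (fun x : ℝ => ∑ j, kinE fun y : Fin d → ℝ => f j (Fin.cons x y)) volume :=
    integrable_finsetSum _ fun j _ => hK1 j
  have hF1 : Integrable (fun x : ℝ => formE (fun y : Fin d → ℝ => V (Fin.cons x y))
      (fun j y => f j (Fin.cons x y))) volume := hK2.sub hQ1
  have hF2 : ∫ x : ℝ, formE (fun y : Fin d → ℝ => V (Fin.cons x y))
      (fun j y => f j (Fin.cons x y)) = formE V f - ∑ j, ∫ x, ‖w j x‖ ^ 2 := by
    have h1 : ∫ x : ℝ, formE (fun y : Fin d → ℝ => V (Fin.cons x y))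
        (fun j y => f j (Fin.cons x y)) =
        (∫ x : ℝ, ∑ j, kinE fun y : Fin d → ℝ => f j (Fin.cons x y)) -
          ∫ x : ℝ, ∫ y : Fin d → ℝ, V (Fin.cons x y) * ∑ j, ‖f j (Fin.cons x y)‖ ^ 2 :=
      integral_sub hK2 hQ1
    rw [h1, hQ2, integral_finsetSum _ fun j _ => hK1 j]
    unfold formE
    have h2 : ∀ j, kinE (f j) = (∫ x, ‖w j x‖ ^ 2) +
        ∫ x, kinE fun y : Fin d → ℝ => f j (Fin.cons x y) := hkin
    simp_rw [h2, Finset.sum_add_distrib]
    ring
  have hmain := integral_mono (hP1.const_mul (Lcl 2 d / (4 * C))).neg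
    (hF1.add (hint.const_mul C)) hslice
  have hl : ∫ x : ℝ, (-fun x : ℝ => Lcl 2 d / (4 * C) *
      ∫ y : Fin d → ℝ, V (Fin.cons x y) ^ ((4 + d : ℝ) / 2)) x =
      -(Lcl 2 d / (4 * C) * ∫ z, V z ^ ((4 + d : ℝ) / 2)) := by
    rw [← hP2, ← integral_const_mul, ← integral_neg]
    rfl
  have hr : ∫ x : ℝ, ((fun x : ℝ => formE (fun y : Fin d → ℝ => V (Fin.cons x y))
      (fun j y => f j (Fin.cons x y))) + fun x : ℝ => C *
        (Matrix.trace ((gramF fun j (y : Fin d → ℝ) => f j (Fin.cons x y)) ^ 2)).re) x =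
      (formE V f - ∑ j, ∫ x, ‖w j x‖ ^ 2) + C * ∫ x : ℝ,
        (Matrix.trace ((gramF fun j (y : Fin d → ℝ) => f j (Fin.cons x y)) ^ 2)).re := by
    rw [← hF2, ← integral_const_mul]
    exact integral_add hF1 (hint.const_mul C)
  have hfin : -(Lcl 2 d / (4 * C) * ∫ z, V z ^ ((4 + d : ℝ) / 2)) ≤
      (formE V f - ∑ j, ∫ x, ‖w j x‖ ^ 2) + C * ∫ x : ℝ,
        (Matrix.trace ((gramF fun j (y : Fin d → ℝ) => f j (Fin.cons x y)) ^ 2)).re := by
    rw [← hl, ← hr]
    exact hmain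
  rw [hCdef, const_eq d A hA] at hfin
  rw [← hCdef] at hfin
  have hexp2 : ((3 + ((d + 1 : ℕ) : ℝ)) / 2) = (4 + d : ℝ) / 2 := by
    push_cast; ring
  rw [hexp2]
  have h12 : C ^ 2 / 12 = A := by rw [hC2]; ring
  rw [h12] at hle
  linarith

end Pool.Agent.LT
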