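import Pool.Agent.LT.Defs

/-!
# The pointwise lower bound in the eigenbasis of `S` (module PW of MP_4c716f_mp)
-/

set_option autoImplicit false

namespace Pool.Agent.LT

open MeasureTheory Matrix Finset
open scoped ComplexConjugate ComplexOrder

namespace PW

variable {N : ℕ}

/-- Conjugation by a matrix. -/
noncomputable def phi (U X : Matrix (Fin N) (Fin N) ℂ) : Matrix (Fin N) (Fin N) ℂ := Uᴴ * X * U

theorem phi_mul {U : Matrix (Fin N) (Fin N) ℂ} (hU : U * Uᴴ = 1)
    (X Y : Matrix (Fin N) (Fin N) ℂ) : phi U (X * Y) = phi U X * phi U Y := by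
  unfold phi
  have : Uᴴ * X * U * (Uᴴ * Y * U) = Uᴴ * X * (U * Uᴴ) * Y * U := by
    simp only [Matrix.mul_assoc]
  rw [this, hU, Matrix.mul_one]
  simp only [Matrix.mul_assoc]

theorem phi_pow {U : Matrix (Fin N) (Fin N) ℂ} (hU : U * Uᴴ = 1) (hU' : Uᴴ * U = 1)
    (X : Matrix (Fin N) (Fin N) ℂ) (k : ℕ) : phi U (X ^ k) = phi U X ^ k := by
  induction k with
  | zero => simp [phi, hU']
  | succ k ih => rw [pow_succ, pow_succ, phi_mul hU, ih]

theorem phi_sum (U : Matrix (Fin N) (Fin N) ℂ) {ι : Type*} (s : Finset ι)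
    (f : ι → Matrix (Fin N) (Fin N) ℂ) : phi U (∑ i ∈ s, f i) = ∑ i ∈ s, phi U (f i) := by
  unfold phi
  rw [Matrix.mul_sum, Matrix.sum_mul]

theorem trace_phi {U : Matrix (Fin N) (Fin N) ℂ} (hU : U * Uᴴ = 1)
    (X : Matrix (Fin N) (Fin N) ℂ) : Matrix.trace (phi U X) = Matrix.trace X := by
  unfold phi
  rw [Matrix.trace_mul_cycle, hU, Matrix.one_mul]

theorem dcalG_phi {U : Matrix (Fin N) (Fin N) ℂ} (hU : U * Uᴴ = 1) (hU' : Uᴴ * U = 1)
    (p : Polynomial ℝ) (S P Q : Matrix (Fin N) (Fin N) ℂ) :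
    dcalG p (phi U S) (phi U P) (phi U Q) = dcalG p S P Q := by
  have h1 : ∀ n k : ℕ,
      Matrix.trace ((∑ i ∈ range k, phi U S ^ i * phi U P * phi U S ^ (k - 1 - i)) *
      phi U P * phi U S ^ (n - k) * phi U P) =
      Matrix.trace ((∑ i ∈ range k, S ^ i * P * S ^ (k - 1 - i)) * P * S ^ (n - k) * P) := by
    intro n k
    rw [← trace_phi hU ((∑ i ∈ range k, S ^ i * P * S ^ (k - 1 - i)) * P * S ^ (n - k) * P)]
    rw [phi_mul hU, phi_mul hU, phi_mul hU, phi_sum, phi_pow hU hU']
    have : ∀ i ∈ range k, phi U (S ^ i * P * S ^ (k - 1 - i)) =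
        phi U S ^ i * phi U P * phi U S ^ (k - 1 - i) := by
      intro i _
      rw [phi_mul hU, phi_mul hU, phi_pow hU hU', phi_pow hU hU']
    rw [Finset.sum_congr rfl this]
  have h2 : ∀ n k : ℕ, Matrix.trace (phi U S ^ k * phi U Q * phi U S ^ (n - k) * phi U P) =
      Matrix.trace (S ^ k * Q * S ^ (n - k) * P) := by
    intro n k
    rw [← trace_phi hU (S ^ k * Q * S ^ (n - k) * P)]
    rw [phi_mul hU, phi_mul hU, phi_mul hU, phi_pow hU hU', phi_pow hU hU']
  unfold dcalG
  simp only [h1, h2]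

/-- The binomial identity for divided differences. -/
theorem binom_dd (a b c : ℝ) (n : ℕ) :
    ∑ k ∈ range (n + 1), (n.choose k : ℝ) *
      ((∑ i ∈ range k, a ^ i * b ^ (k - 1 - i)) * c ^ (n - k)) =
      ∑ i ∈ range n, (a + c) ^ i * (b + c) ^ (n - 1 - i) := by
  have key : ∀ b : ℝ, b ∈ ({a}ᶜ : Set ℝ) → ∑ k ∈ range (n + 1), (n.choose k : ℝ) *
      ((∑ i ∈ range k, a ^ i * b ^ (k - 1 - i)) * c ^ (n - k)) =
      ∑ i ∈ range n, (a + c) ^ i * (b + c) ^ (n - 1 - i) := by
    intro b hb
    have hne : a - b ≠ 0 := by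
      intro h
      apply hb
      simp only [Set.mem_singleton_iff]
      linarith
    apply mul_right_cancel₀ hne
    have e1 : (∑ i ∈ range n, (a + c) ^ i * (b + c) ^ (n - 1 - i)) * (a - b) =
        (a + c) ^ n - (b + c) ^ n := by
      rw [← geom_sum₂_mul]
      congr 1
      ring
    rw [e1, Finset.sum_mul, add_pow, add_pow, ← Finset.sum_sub_distrib]
    refine Finset.sum_congr rfl fun k _ => ?_
    have e2 : (∑ i ∈ range k, a ^ i * b ^ (k - 1 - i)) * (a - b) = a ^ k - b ^ k :=
      geom_sum₂_mul a b k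
    calc (n.choose k : ℝ) * ((∑ i ∈ range k, a ^ i * b ^ (k - 1 - i)) * c ^ (n - k)) * (a - b)
        = (n.choose k : ℝ) * (((∑ i ∈ range k, a ^ i * b ^ (k - 1 - i)) * (a - b)) *
          c ^ (n - k)) := by ring
      _ = a ^ k * c ^ (n - k) * (n.choose k : ℝ) - b ^ k * c ^ (n - k) * (n.choose k : ℝ) := by
          rw [e2]; ring
  have hc1 : Continuous fun b : ℝ => ∑ k ∈ range (n + 1), (n.choose k : ℝ) *
      ((∑ i ∈ range k, a ^ i * b ^ (k - 1 - i)) * c ^ (n - k)) := by fun_prop
  have hc2 : Continuous fun b : ℝ => ∑ i ∈ range n, (a + c) ^ i * (b + c) ^ (n - 1 - i) := by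
    fun_prop
  exact congrFun (hc1.ext_on (dense_compl_singleton a) hc2 key) b

theorem comm3 {ι : Type*} (s : Finset ι) (F : ι → Fin N → Fin N → Fin N → ℝ) :
    ∑ k ∈ s, ∑ a, ∑ b, ∑ c, F k a b c = ∑ a, ∑ b, ∑ c, ∑ k ∈ s, F k a b c := by
  rw [Finset.sum_comm]
  refine Finset.sum_congr rfl fun a _ => ?_
  rw [Finset.sum_comm]
  refine Finset.sum_congr rfl fun b _ => ?_
  rw [Finset.sum_comm]

theorem comm2 {ι : Type*} (s : Finset ι) (F : ι → Fin N → Fin N → ℝ) :
    ∑ k ∈ s, ∑ a, ∑ b, F k a b = ∑ a, ∑ b, ∑ k ∈ s, F k a b := by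
  rw [Finset.sum_comm]
  refine Finset.sum_congr rfl fun a _ => ?_
  rw [Finset.sum_comm]

/-- The diagonal matrix with real entries. -/
noncomputable def dg (σ : Fin N → ℝ) : Matrix (Fin N) (Fin N) ℂ :=
  Matrix.diagonal fun i => (σ i : ℂ)

theorem dg_pow (σ : Fin N → ℝ) (k : ℕ) :
    dg σ ^ k = Matrix.diagonal fun i => ((σ i ^ k : ℝ) : ℂ) := by
  unfold dg
  rw [Matrix.diagonal_pow]
  congr 1
  funext i
  simp

theorem trace_two (σ : Fin N → ℝ) (k l : ℕ) (Q P : Matrix (Fin N) (Fin N) ℂ) :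
    (Matrix.trace (dg σ ^ k * Q * dg σ ^ l * P)).re =
      ∑ i, ∑ j, σ i ^ k * σ j ^ l * (Q i j * P j i).re := by
  have : Matrix.trace (dg σ ^ k * Q * dg σ ^ l * P) =
      ∑ i, ∑ j, (((σ i ^ k * σ j ^ l : ℝ)) : ℂ) * (Q i j * P j i) := by
    rw [Matrix.trace]
    refine Finset.sum_congr rfl fun i _ => ?_
    rw [Matrix.diag_apply, Matrix.mul_apply]
    refine Finset.sum_congr rfl fun j _ => ?_
    rw [dg_pow, dg_pow, Matrix.mul_diagonal, Matrix.diagonal_mul]
    push_cast
    ring
  rw [this, Complex.re_sum]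
  refine Finset.sum_congr rfl fun i _ => ?_
  rw [Complex.re_sum]
  refine Finset.sum_congr rfl fun j _ => ?_
  rw [Complex.re_ofReal_mul]

theorem trace_three (σ : Fin N → ℝ) (k l : ℕ) (P : Matrix (Fin N) (Fin N) ℂ) :
    (Matrix.trace ((∑ i ∈ range k, dg σ ^ i * P * dg σ ^ (k - 1 - i)) * P * dg σ ^ l * P)).re =
      ∑ a, ∑ b, ∑ c, (∑ i ∈ range k, σ a ^ i * σ b ^ (k - 1 - i)) * σ c ^ l *
        (P a b * P b c * P c a).re := by
  have h0 : ∀ a b, (∑ i ∈ range k, dg σ ^ i * P * dg σ ^ (k - 1 - i)) a b =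
      (((∑ i ∈ range k, σ a ^ i * σ b ^ (k - 1 - i) : ℝ)) : ℂ) * P a b := by
    intro a b
    rw [Matrix.sum_apply]
    push_cast
    rw [Finset.sum_mul]
    refine Finset.sum_congr rfl fun i _ => ?_
    rw [dg_pow, dg_pow, Matrix.mul_diagonal, Matrix.diagonal_mul]
    push_cast
    ring
  have : Matrix.trace ((∑ i ∈ range k, dg σ ^ i * P * dg σ ^ (k - 1 - i)) * P * dg σ ^ l * P) =
      ∑ a, ∑ b, ∑ c, ((((∑ i ∈ range k, σ a ^ i * σ b ^ (k - 1 - i)) * σ c ^ l : ℝ)) : ℂ) *
        (P a b * P b c * P c a) := by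
    rw [Matrix.trace]
    refine Finset.sum_congr rfl fun a _ => ?_
    rw [Matrix.diag_apply, Matrix.mul_apply, Finset.sum_comm]
    refine Finset.sum_congr rfl fun c _ => ?_
    rw [dg_pow σ l, Matrix.mul_diagonal, Matrix.mul_apply, Finset.sum_mul, Finset.sum_mul]
    refine Finset.sum_congr rfl fun b _ => ?_
    rw [h0]
    push_cast
    ring
  rw [this, Complex.re_sum]
  refine Finset.sum_congr rfl fun a _ => ?_
  rw [Complex.re_sum]
  refine Finset.sum_congr rfl fun b _ => ?_
  rw [Complex.re_sum]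
  refine Finset.sum_congr rfl fun c _ => ?_
  rw [Complex.re_ofReal_mul]

/-- `dcalG` for a diagonal `S`. -/
theorem dcalG_diag (p : Polynomial ℝ) (σ : Fin N → ℝ) (P Q : Matrix (Fin N) (Fin N) ℂ) :
    dcalG p (dg σ) P Q =
      (∑ a, ∑ b, ∑ c, (P a b * P b c * P c a).re * dd p (σ a + σ c) (σ b + σ c)) +
      ∑ i, ∑ j, p.eval (σ i + σ j) * (Q i j * P j i).re := by
  unfold dcalG
  simp only [trace_two, trace_three]
  have e1 : ∀ n : ℕ, ∑ k ∈ range (n + 1), (n.choose k : ℝ) *
      ((∑ a, ∑ b, ∑ c, (∑ i ∈ range k, σ a ^ i * σ b ^ (k - 1 - i)) * σ c ^ (n - k) *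
        (P a b * P b c * P c a).re) +
        ∑ i, ∑ j, σ i ^ k * σ j ^ (n - k) * (Q i j * P j i).re) =
      (∑ a, ∑ b, ∑ c, (∑ i ∈ range n, (σ a + σ c) ^ i * (σ b + σ c) ^ (n - 1 - i)) *
        (P a b * P b c * P c a).re) +
        ∑ i, ∑ j, (σ i + σ j) ^ n * (Q i j * P j i).re := by
    intro n
    simp only [mul_add, Finset.sum_add_distrib]
    congr 1
    · simp only [Finset.mul_sum]
      rw [comm3]
      refine Finset.sum_congr rfl fun a _ => ?_
      refine Finset.sum_congr rfl fun b _ => ?_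
      refine Finset.sum_congr rfl fun c _ => ?_
      rw [← binom_dd, Finset.sum_mul]
      refine Finset.sum_congr rfl fun k _ => ?_
      ring
    · simp only [Finset.mul_sum]
      rw [comm2]
      refine Finset.sum_congr rfl fun i _ => ?_
      refine Finset.sum_congr rfl fun j _ => ?_
      rw [add_pow, Finset.sum_mul]
      refine Finset.sum_congr rfl fun k _ => ?_
      ring
  simp only [e1]
  simp only [mul_add, Finset.sum_add_distrib]
  congr 1
  · simp only [Finset.mul_sum]
    rw [comm3]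
    refine Finset.sum_congr rfl fun a _ => ?_
    refine Finset.sum_congr rfl fun b _ => ?_
    refine Finset.sum_congr rfl fun c _ => ?_
    unfold dd
    rw [Finset.mul_sum]
    refine Finset.sum_congr rfl fun n _ => ?_
    ring
  · simp only [Finset.mul_sum]
    rw [comm2]
    refine Finset.sum_congr rfl fun i _ => ?_
    refine Finset.sum_congr rfl fun j _ => ?_
    rw [Polynomial.eval_eq_sum_range, Finset.sum_mul]
    refine Finset.sum_congr rfl fun n _ => ?_
    ring

/-- Rotation of a family of vectors. -/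
noncomputable def rot {H : Type*} [NormedAddCommGroup H] [InnerProductSpace ℂ H]
    (U : Matrix (Fin N) (Fin N) ℂ) (v : Fin N → H) : Fin N → H :=
  fun i => ∑ j, conj (U j i) • v j

/-- `cross v w i j = ⟨v j, w i⟩`. -/
noncomputable def cross {H : Type*} [NormedAddCommGroup H] [InnerProductSpace ℂ H]
    (v w : Fin N → H) : Matrix (Fin N) (Fin N) ℂ :=
  Matrix.of fun i j => inner ℂ (v j) (w i)

theorem gram_eq_cross {H : Type*} [NormedAddCommGroup H] [InnerProductSpace ℂ H]
    (v : Fin N → H) : gram v = cross v v := rfl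

theorem gramD_eq_cross {H : Type*} [NormedAddCommGroup H] [InnerProductSpace ℂ H]
    (v w : Fin N → H) : gramD v w = cross v w + cross w v := rfl

theorem cross_rot {H : Type*} [NormedAddCommGroup H] [InnerProductSpace ℂ H]
    (U : Matrix (Fin N) (Fin N) ℂ) (v w : Fin N → H) :
    cross (rot U v) (rot U w) = phi U (cross v w) := by
  ext i j
  unfold phi
  rw [Matrix.mul_apply]
  simp only [cross, rot, Matrix.of_apply]
  rw [sum_inner]
  refine Finset.sum_congr rfl fun k _ => ?_
  rw [inner_smul_left, inner_sum, Matrix.mul_apply, Finset.mul_sum, Finset.sum_mul]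
  refine Finset.sum_congr rfl fun l _ => ?_
  rw [inner_smul_right, Matrix.conjTranspose_apply, Matrix.of_apply]
  simp only [RCLike.star_def, RingHomCompTriple.comp_apply, RingHom.id_apply]
  ring

theorem trace_cross {H : Type*} [NormedAddCommGroup H] [InnerProductSpace ℂ H]
    (w : Fin N → H) : (Matrix.trace (cross w w)).re = ∑ i, ‖w i‖ ^ 2 := by
  rw [Matrix.trace, Complex.re_sum]
  refine Finset.sum_congr rfl fun i _ => ?_
  simp only [Matrix.diag_apply, cross, Matrix.of_apply]
  rw [inner_self_eq_norm_sq_to_K]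
  norm_cast

theorem phi_eig (S : Matrix (Fin N) (Fin N) ℂ) (hS : S.IsHermitian) :
    phi (hS.eigenvectorUnitary : Matrix (Fin N) (Fin N) ℂ) S = dg hS.eigenvalues := by
  have h := hS.conjStarAlgAut_star_eigenvectorUnitary
  rw [Unitary.conjStarAlgAut_apply] at h
  unfold phi dg
  simp only [Matrix.star_eq_conjTranspose, Unitary.coe_star, Function.comp_def,
    Matrix.conjTranspose_conjTranspose] at h
  exact h

theorem square {H : Type*} [NormedAddCommGroup H] [InnerProductSpace ℂ H]
    (q : Fin N → Fin N → ℝ) (hq : ∀ i j, q i j = q j i) (y z : Fin N → H) :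
    -(∑ i, ∑ j, ∑ k, (cross y y i j * cross y y j k * cross y y k i).re * (q i k * q j k)) ≤
      ∑ i, ‖z i‖ ^ 2 - ∑ i, ∑ j, q i j * ((cross y z + cross z y) i j * cross y y j i).re := by
  set u : Fin N → H := fun i => ∑ j, ((q i j : ℂ) * cross y y i j) • y j with hu
  have hconj : ∀ i j, conj (cross y y i j) = cross y y j i := by
    intro i j
    simp only [cross, Matrix.of_apply]
    exact inner_conj_symm _ _
  have h0 : ∀ i, ‖z i - u i‖ ^ 2 = ‖z i‖ ^ 2 - 2 * (inner ℂ (u i) (z i)).re + ‖u i‖ ^ 2 := by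
    intro i
    rw [@norm_sub_sq ℂ]
    have e0 : RCLike.re (inner ℂ (z i) (u i)) = (inner ℂ (u i) (z i)).re := by
      rw [← inner_conj_symm, RCLike.conj_re]
      rfl
    rw [e0]
  have h1 : ∀ i, inner ℂ (u i) (z i) = ∑ j, (q i j : ℂ) * (cross y z i j * cross y y j i) := by
    intro i
    rw [hu, sum_inner]
    refine Finset.sum_congr rfl fun j _ => ?_
    rw [inner_smul_left, map_mul, hconj]
    simp only [Complex.conj_ofReal, cross, Matrix.of_apply]
    ring
  have h2 : ∑ i, ∑ j, q i j * ((cross y z + cross z y) i j * cross y y j i).re =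
      ∑ i, 2 * (inner ℂ (u i) (z i)).re := by
    have e1 : ∀ i, (inner ℂ (u i) (z i)).re = ∑ j, q i j * (cross y z i j * cross y y j i).re := by
      intro i
      rw [h1, Complex.re_sum]
      refine Finset.sum_congr rfl fun j _ => ?_
      rw [Complex.re_ofReal_mul]
    have e2 : ∑ i, ∑ j, q i j * (cross z y i j * cross y y j i).re =
        ∑ i, ∑ j, q i j * (cross y z i j * cross y y j i).re := by
      rw [Finset.sum_comm]
      refine Finset.sum_congr rfl fun i _ => ?_
      refine Finset.sum_congr rfl fun j _ => ?_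
      rw [hq j i]
      congr 1
      rw [← hconj j i]
      have : cross z y j i = conj (cross y z i j) := by
        simp only [cross, Matrix.of_apply]
        exact (inner_conj_symm _ _).symm
      rw [this, ← Complex.conj_re (cross y z i j * cross y y j i), map_mul, hconj]
    simp only [Matrix.add_apply, add_mul, Complex.add_re, mul_add, Finset.sum_add_distrib]
    rw [e2, ← Finset.sum_add_distrib]
    refine Finset.sum_congr rfl fun i _ => ?_
    rw [e1]
    ring
  have h3 : ∑ i, ∑ j, ∑ k, (cross y y i j * cross y y j k * cross y y k i).re * (q i k * q j k) =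
      ∑ i, ‖u i‖ ^ 2 := by
    have e1 : ∀ k, ‖u k‖ ^ 2 = ∑ i, ∑ j,
        (cross y y i j * cross y y j k * cross y y k i).re * (q i k * q j k) := by
      intro k
      have : ((‖u k‖ ^ 2 : ℝ) : ℂ) = ∑ i, ∑ j,
          (((q i k * q j k : ℝ)) : ℂ) * (cross y y i j * cross y y j k * cross y y k i) := by
        have e3 : ((‖u k‖ ^ 2 : ℝ) : ℂ) = inner ℂ (u k) (u k) := by
          rw [inner_self_eq_norm_sq_to_K]
          norm_cast
        rw [e3]
        conv_lhs => rw [hu]
        rw [inner_sum]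
        refine Finset.sum_congr rfl fun i _ => ?_
        rw [inner_smul_right, sum_inner, Finset.mul_sum]
        refine Finset.sum_congr rfl fun j _ => ?_
        rw [inner_smul_left, map_mul, hconj, Complex.conj_ofReal, hq i k, hq j k]
        have e4 : inner ℂ (y j) (y i) = cross y y i j := rfl
        rw [e4]
        push_cast
        ring
      have h5 := congrArg Complex.re this
      rw [Complex.ofReal_re, Complex.re_sum] at h5
      rw [h5]
      refine Finset.sum_congr rfl fun i _ => ?_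
      rw [Complex.re_sum]
      refine Finset.sum_congr rfl fun j _ => ?_
      rw [Complex.re_ofReal_mul]
      ring
    simp only [e1]
    symm
    rw [Finset.sum_comm]
    refine Finset.sum_congr rfl fun i _ => ?_
    rw [Finset.sum_comm]
  have h4 : 0 ≤ ∑ i, ‖z i - u i‖ ^ 2 := Finset.sum_nonneg fun i _ => by positivity
  simp only [h0] at h4
  rw [Finset.sum_add_distrib, Finset.sum_sub_distrib] at h4
  rw [h3, h2]
  linarith

end PW

open PW in
/-- The pointwise lower bound in the eigenbasis of `S`. -/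
theorem pw : PWStmt := by
  intro N H _ _ p S hS v w P' hP'
  set U : Matrix (Fin N) (Fin N) ℂ := (hS.eigenvectorUnitary : Matrix (Fin N) (Fin N) ℂ) with hUdef
  have hU : U * Uᴴ = 1 := by
    rw [hUdef]
    exact Unitary.coe_mul_star_self hS.eigenvectorUnitary
  have hU' : Uᴴ * U = 1 := by
    rw [hUdef]
    exact Unitary.coe_star_mul_self hS.eigenvectorUnitary
  set y : Fin N → H := rot U v with hy
  set z : Fin N → H := rot U w with hz
  have hPy : P' = cross y y := by
    rw [hP', hy, cross_rot]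
    rfl
  have hphiP : phi U (gram v) = cross y y := by
    rw [hy, cross_rot]
    rfl
  have hphiQ : phi U (gramD v w) = cross y z + cross z y := by
    rw [hy, hz, cross_rot, cross_rot, gramD_eq_cross]
    unfold phi
    rw [Matrix.mul_add, Matrix.add_mul]
  have hnorm : ∑ i, ‖w i‖ ^ 2 = ∑ i, ‖z i‖ ^ 2 := by
    rw [← trace_cross, ← trace_cross, hz, cross_rot, trace_phi hU]
  have hsq := square (fun i j => p.eval (hS.eigenvalues i + hS.eigenvalues j))
    (fun i j => by rw [add_comm]) y z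
  rw [← dcalG_phi hU hU', phi_eig S hS, hphiP, hphiQ, dcalG_diag, hnorm, hPy]
  have hsplit : ∑ i, ∑ j, ∑ k, (cross y y i j * cross y y j k * cross y y k i).re *
        (p.eval (hS.eigenvalues i + hS.eigenvalues k) * p.eval (hS.eigenvalues j + hS.eigenvalues k)
          + dd p (hS.eigenvalues i + hS.eigenvalues k) (hS.eigenvalues j + hS.eigenvalues k)) =
      ∑ i, ∑ j, ∑ k, (cross y y i j * cross y y j k * cross y y k i).re *
        (p.eval (hS.eigenvalues i + hS.eigenvalues k) *
          p.eval (hS.eigenvalues j + hS.eigenvalues k)) +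
      ∑ i, ∑ j, ∑ k, (cross y y i j * cross y y j k * cross y y k i).re *
        dd p (hS.eigenvalues i + hS.eigenvalues k) (hS.eigenvalues j + hS.eigenvalues k) := by
    simp only [mul_add, Finset.sum_add_distrib]
  rw [hsplit]
  linarith

end Pool.Agent.LT
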