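import Pool.Agent.LT.Defs2

/-!
# The pointwise lower bound with linear term (PW2), MP_4c716f_mp
(Lean: helper86; mathematics: helper15)
-/

set_option autoImplicit false

namespace Pool.Agent.LT

open MeasureTheory Matrix Finset
open scoped ComplexConjugate ComplexOrder

namespace PW2aux

variable {N : ℕ} {H : Type*} [NormedAddCommGroup H] [InnerProductSpace ℂ H]

/-! ### scalar identities -/

lemma dd_mono (n : ℕ) (x y u : ℝ) :
    ∑ k ∈ range (n + 1), (n.choose k : ℝ) * ((∑ a ∈ range k, x ^ a * y ^ (k - 1 - a)) * u ^ (n - k))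
      = ∑ i ∈ range n, (x + u) ^ i * (y + u) ^ (n - 1 - i) := by
  have key : ∀ x : ℝ, x ≠ y →
      ∑ k ∈ range (n + 1), (n.choose k : ℝ) *
        ((∑ a ∈ range k, x ^ a * y ^ (k - 1 - a)) * u ^ (n - k))
      = ∑ i ∈ range n, (x + u) ^ i * (y + u) ^ (n - 1 - i) := by
    intro x hx
    have hxy : x - y ≠ 0 := sub_ne_zero.mpr hx
    apply mul_right_cancel₀ hxy
    have h1 : (∑ i ∈ range n, (x + u) ^ i * (y + u) ^ (n - 1 - i)) * (x - y)
        = (x + u) ^ n - (y + u) ^ n := by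
      have := geom_sum₂_mul (x + u) (y + u) n
      rw [← this]; ring
    rw [h1, Finset.sum_mul, add_pow, add_pow, ← Finset.sum_sub_distrib]
    refine Finset.sum_congr rfl fun k _ => ?_
    have h2 : (∑ a ∈ range k, x ^ a * y ^ (k - 1 - a)) * (x - y) = x ^ k - y ^ k :=
      geom_sum₂_mul x y k
    calc (n.choose k : ℝ) * ((∑ a ∈ range k, x ^ a * y ^ (k - 1 - a)) * u ^ (n - k)) * (x - y)
        = (n.choose k : ℝ) * (((∑ a ∈ range k, x ^ a * y ^ (k - 1 - a)) * (x - y)) * u ^ (n - k)) := by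
          ring
      _ = _ := by rw [h2]; ring
  have hd : Dense {x : ℝ | x ≠ y} := by
    have : {x : ℝ | x ≠ y} = ({y} : Set ℝ)ᶜ := by ext; simp
    rw [this]
    exact dense_compl_singleton y
  have hc : (fun x : ℝ => ∑ k ∈ range (n + 1), (n.choose k : ℝ) *
        ((∑ a ∈ range k, x ^ a * y ^ (k - 1 - a)) * u ^ (n - k)))
      = fun x : ℝ => ∑ i ∈ range n, (x + u) ^ i * (y + u) ^ (n - 1 - i) := by
    refine Continuous.ext_on hd (by fun_prop) (by fun_prop) ?_
    intro x hx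
    exact key x hx
  exact congrFun hc x

lemma sum_dd (p : Polynomial ℝ) (x y u : ℝ) :
    ∑ n ∈ range (p.natDegree + 1), p.coeff n * ∑ k ∈ range (n + 1), (n.choose k : ℝ) *
      ((∑ a ∈ range k, x ^ a * y ^ (k - 1 - a)) * u ^ (n - k)) = dd p (x + u) (y + u) := by
  unfold dd
  exact Finset.sum_congr rfl fun n _ => by rw [dd_mono]

lemma sum_eval (p : Polynomial ℝ) (x y : ℝ) :
    ∑ n ∈ range (p.natDegree + 1), p.coeff n * ∑ k ∈ range (n + 1), (n.choose k : ℝ) *
      (x ^ k * y ^ (n - k)) = p.eval (x + y) := by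
  rw [Polynomial.eval_eq_sum_range]
  refine Finset.sum_congr rfl fun n _ => ?_
  rw [add_pow]
  congr 1
  exact Finset.sum_congr rfl fun k _ => by ring

/-! ### diagonal `S` -/

/-- real diagonal matrix -/
noncomputable def dg (s : Fin N → ℝ) : Matrix (Fin N) (Fin N) ℂ := diagonal fun i => (s i : ℂ)

lemma dg_pow (s : Fin N → ℝ) (k : ℕ) : dg s ^ k = diagonal fun i => ((s i ^ k : ℝ) : ℂ) := by
  unfold dg
  rw [Matrix.diagonal_pow]
  congr 1
  ext i
  simp

lemma tr2 (s : Fin N → ℝ) (P Q : Matrix (Fin N) (Fin N) ℂ) (k l : ℕ) :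
    (trace (dg s ^ k * Q * dg s ^ l * P)).re
      = ∑ i, ∑ j, (s i ^ k * s j ^ l) * (Q i j * P j i).re := by
  rw [dg_pow, dg_pow]
  simp only [Matrix.trace, Matrix.diag_apply, Matrix.mul_apply (N := P), Matrix.diagonal_mul,
    Matrix.mul_diagonal, Complex.re_sum]
  refine Finset.sum_congr rfl fun i _ => Finset.sum_congr rfl fun j _ => ?_
  have : (((s i ^ k : ℝ) : ℂ) * Q i j * ((s j ^ l : ℝ) : ℂ) * P j i)
      = ((s i ^ k * s j ^ l : ℝ) : ℂ) * (Q i j * P j i) := by
    push_cast; ring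
  rw [this, Complex.re_ofReal_mul]

lemma tr3 (s : Fin N → ℝ) (P : Matrix (Fin N) (Fin N) ℂ) (k l : ℕ) :
    (trace ((∑ a ∈ range k, dg s ^ a * P * dg s ^ (k - 1 - a)) * P * dg s ^ l * P)).re
      = ∑ i, ∑ j, ∑ m, ((∑ a ∈ range k, s i ^ a * s j ^ (k - 1 - a)) * s m ^ l) *
          (P i j * P j m * P m i).re := by
  have hX : ∀ i j, (∑ a ∈ range k, dg s ^ a * P * dg s ^ (k - 1 - a)) i j
      = ((∑ a ∈ range k, s i ^ a * s j ^ (k - 1 - a) : ℝ) : ℂ) * P i j := by
    intro i j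
    rw [Matrix.sum_apply]
    push_cast
    rw [Finset.sum_mul]
    refine Finset.sum_congr rfl fun a _ => ?_
    rw [dg_pow, dg_pow, Matrix.mul_diagonal, Matrix.diagonal_mul]
    push_cast; ring
  set X := ∑ a ∈ range k, dg s ^ a * P * dg s ^ (k - 1 - a) with hXdef
  have h1 : ∀ i, (X * P * dg s ^ l * P) i i
      = ∑ m, ∑ j, X i j * P j m * ((s m ^ l : ℝ) : ℂ) * P m i := by
    intro i
    rw [Matrix.mul_apply]
    refine Finset.sum_congr rfl fun m _ => ?_
    rw [dg_pow, Matrix.mul_diagonal, Matrix.mul_apply, Finset.sum_mul, Finset.sum_mul]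
  simp only [Matrix.trace, Matrix.diag_apply, h1, Complex.re_sum]
  refine Finset.sum_congr rfl fun i _ => ?_
  rw [Finset.sum_comm]
  refine Finset.sum_congr rfl fun j _ => Finset.sum_congr rfl fun m _ => ?_
  rw [← Complex.re_ofReal_mul, hX]
  congr 1
  push_cast
  ring

lemma swap {ι : Type*} [Fintype ι] (a : ℕ → ℝ) (b : ℕ → ℕ → ℝ) (f : ℕ → ℕ → ι → ℝ) (M : ℕ) :
    ∑ n ∈ range M, a n * ∑ k ∈ range (n + 1), b n k * ∑ i, f n k i
      = ∑ i, ∑ n ∈ range M, a n * ∑ k ∈ range (n + 1), b n k * f n k i := by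
  rw [Finset.sum_comm (s := (univ : Finset ι))]
  refine Finset.sum_congr rfl fun n _ => ?_
  rw [← Finset.mul_sum, Finset.sum_comm]
  congr 1
  refine Finset.sum_congr rfl fun k _ => ?_
  rw [Finset.mul_sum]

lemma pull (a : ℕ → ℝ) (b f : ℕ → ℕ → ℝ) (c : ℝ) (M : ℕ) :
    ∑ n ∈ range M, a n * ∑ k ∈ range (n + 1), b n k * (f n k * c)
      = (∑ n ∈ range M, a n * ∑ k ∈ range (n + 1), b n k * f n k) * c := by
  rw [Finset.sum_mul]
  refine Finset.sum_congr rfl fun n _ => ?_
  rw [mul_assoc, Finset.sum_mul]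
  congr 1
  refine Finset.sum_congr rfl fun k _ => ?_
  ring

lemma dcalG_dg (p : Polynomial ℝ) (s : Fin N → ℝ) (P Q : Matrix (Fin N) (Fin N) ℂ) :
    dcalG p (dg s) P Q = ∑ i, ∑ j, ∑ m, (P i j * P j m * P m i).re * dd p (s i + s m) (s j + s m)
      + ∑ i, ∑ j, p.eval (s i + s j) * (Q i j * P j i).re := by
  unfold dcalG
  simp_rw [tr2, tr3, mul_add, Finset.sum_add_distrib, mul_add, Finset.sum_add_distrib]
  congr 1
  · rw [swap]
    refine Finset.sum_congr rfl fun i _ => ?_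
    rw [swap]
    refine Finset.sum_congr rfl fun j _ => ?_
    rw [swap]
    refine Finset.sum_congr rfl fun m _ => ?_
    rw [pull, sum_dd]
    ring
  · rw [swap]
    refine Finset.sum_congr rfl fun i _ => ?_
    rw [swap]
    refine Finset.sum_congr rfl fun j _ => ?_
    rw [pull, sum_eval]

/-! ### change of basis -/

/-- change of basis -/
noncomputable def rot (U : Matrix (Fin N) (Fin N) ℂ) (v : Fin N → H) : Fin N → H :=
  fun a => ∑ i, conj (U i a) • v i

lemma inner_rot (U : Matrix (Fin N) (Fin N) ℂ) (v w : Fin N → H) (a b : Fin N) :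
    inner ℂ (rot U v b) (rot U w a) = ∑ j, ∑ i, conj (U i a) * inner ℂ (v j) (w i) * U j b := by
  unfold rot
  rw [sum_inner]
  refine Finset.sum_congr rfl fun j _ => ?_
  rw [inner_sum]
  refine Finset.sum_congr rfl fun i _ => ?_
  rw [inner_smul_left, inner_smul_right, Complex.conj_conj]
  ring

lemma conj_mul_apply (U P : Matrix (Fin N) (Fin N) ℂ) (a b : Fin N) :
    (Uᴴ * P * U) a b = ∑ j, ∑ i, conj (U i a) * P i j * U j b := by
  rw [Matrix.mul_apply]
  refine Finset.sum_congr rfl fun j _ => ?_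
  rw [Matrix.mul_apply, Finset.sum_mul]
  refine Finset.sum_congr rfl fun i _ => ?_
  rw [Matrix.conjTranspose_apply]
  rfl

lemma gram_rot (U : Matrix (Fin N) (Fin N) ℂ) (v : Fin N → H) :
    gram (rot U v) = Uᴴ * gram v * U := by
  ext a b
  rw [conj_mul_apply]
  simp only [gram, Matrix.of_apply]
  rw [inner_rot]

lemma gramD_rot (U : Matrix (Fin N) (Fin N) ℂ) (v w : Fin N → H) :
    gramD (rot U v) (rot U w) = Uᴴ * gramD v w * U := by
  ext a b
  rw [conj_mul_apply]
  simp only [gramD, Matrix.of_apply]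
  rw [inner_rot, inner_rot, ← Finset.sum_add_distrib]
  refine Finset.sum_congr rfl fun j _ => ?_
  rw [← Finset.sum_add_distrib]
  refine Finset.sum_congr rfl fun i _ => ?_
  ring

lemma trace_gram (v : Fin N → H) : (trace (gram v)).re = ∑ i, ‖v i‖ ^ 2 := by
  simp only [Matrix.trace, Matrix.diag_apply, gram, Matrix.of_apply, Complex.re_sum]
  refine Finset.sum_congr rfl fun i _ => ?_
  rw [inner_self_eq_norm_sq_to_K]
  norm_cast

/-! ### the inequality in the eigenbasis -/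

lemma gram_conj (y : Fin N → H) (i j : Fin N) : conj (gram y i j) = gram y j i := by
  simp only [gram, Matrix.of_apply]
  exact inner_conj_symm _ _

lemma gram_apply (y : Fin N → H) (i j : Fin N) : gram y i j = inner ℂ (y j) (y i) := rfl

lemma re_gram_mul (y : Fin N → H) (i j : Fin N) :
    (gram y i j * gram y j i).re = ‖gram y i j‖ ^ 2 := by
  rw [← gram_conj y i j, Complex.mul_conj, Complex.ofReal_re, Complex.normSq_eq_norm_sq]

lemma norm_gram_comm (y : Fin N → H) (i j : Fin N) : ‖gram y i j‖ = ‖gram y j i‖ := by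
  rw [← gram_conj y i j, RCLike.norm_conj]

lemma expand (a b c : H) (r : ℝ) :
    ‖a - b + (r : ℂ) • c‖ ^ 2 = ‖a‖ ^ 2 + ‖b‖ ^ 2 + r ^ 2 * ‖c‖ ^ 2
      - 2 * (inner ℂ a b).re + 2 * r * (inner ℂ a c).re - 2 * r * (inner ℂ b c).re := by
  rw [@norm_add_sq ℂ, @norm_sub_sq ℂ, inner_smul_right, inner_sub_left, norm_smul, mul_pow]
  have h1 : ‖(r : ℂ)‖ ^ 2 = r ^ 2 := by rw [Complex.norm_real, Real.norm_eq_abs, sq_abs]
  rw [h1]
  have h2 : RCLike.re ((r : ℂ) * (inner ℂ a c - inner ℂ b c))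
      = r * ((inner ℂ a c).re - (inner ℂ b c).re) := by
    rw [show RCLike.re ((r : ℂ) * (inner ℂ a c - inner ℂ b c))
      = ((r : ℂ) * (inner ℂ a c - inner ℂ b c)).re from rfl, Complex.re_ofReal_mul, Complex.sub_re]
  rw [h2, show RCLike.re (inner ℂ a b) = (inner ℂ a b).re from rfl]
  ring

/-- `∑ⱼ q i j P i j yⱼ` -/
noncomputable def Bv (q : Fin N → Fin N → ℝ) (y : Fin N → H) (i : Fin N) : H :=
  ∑ j, ((q i j : ℝ) * gram y i j : ℂ) • y j

lemma Bv_T1 (q : Fin N → Fin N → ℝ) (y z : Fin N → H) (i : Fin N) :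
    (inner ℂ (z i) (Bv q y i)).re = ∑ j, q i j * (gram y i j * inner ℂ (z i) (y j)).re := by
  unfold Bv
  rw [inner_sum, Complex.re_sum]
  refine Finset.sum_congr rfl fun j _ => ?_
  rw [inner_smul_right, mul_assoc, Complex.re_ofReal_mul]

lemma Bv_T3 (q : Fin N → Fin N → ℝ) (y : Fin N → H) (i : Fin N) :
    (inner ℂ (Bv q y i) (y i)).re = ∑ j, q i j * ‖gram y i j‖ ^ 2 := by
  unfold Bv
  rw [sum_inner, Complex.re_sum]
  refine Finset.sum_congr rfl fun j _ => ?_
  rw [inner_smul_left, map_mul, Complex.conj_ofReal, gram_conj, ← gram_apply, mul_assoc,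
    Complex.re_ofReal_mul, mul_comm (gram y j i), re_gram_mul]

lemma Bv_T2 (q : Fin N → Fin N → ℝ) (y : Fin N → H) (i : Fin N) :
    ‖Bv q y i‖ ^ 2
      = ∑ j, ∑ k, (q i j * q i k) * (gram y k j * gram y j i * gram y i k).re := by
  have h : ‖Bv q y i‖ ^ 2 = (inner ℂ (Bv q y i) (Bv q y i)).re := by
    rw [inner_self_eq_norm_sq_to_K]
    norm_cast
  rw [h]
  unfold Bv
  rw [sum_inner, Complex.re_sum]
  refine Finset.sum_congr rfl fun j _ => ?_
  rw [inner_sum, Complex.re_sum]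
  refine Finset.sum_congr rfl fun k _ => ?_
  rw [inner_smul_left, inner_smul_right, map_mul, Complex.conj_ofReal, gram_conj, ← gram_apply,
    ← Complex.re_ofReal_mul]
  congr 1
  push_cast
  ring

lemma cross (q : Fin N → Fin N → ℝ) (hq : ∀ i j, q i j = q j i) (y z : Fin N → H) :
    ∑ i, ∑ j, q i j * (gramD y z i j * gram y j i).re
      = 2 * ∑ i, ∑ j, q i j * (gram y i j * inner ℂ (z i) (y j)).re := by
  have h1 : ∀ i j, (gramD y z i j * gram y j i).re
      = (gram y i j * inner ℂ (z i) (y j)).re + (gram y j i * inner ℂ (z j) (y i)).re := by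
    intro i j
    simp only [gramD, Matrix.of_apply]
    rw [add_mul, Complex.add_re]
    congr 1
    · rw [← Complex.conj_re, map_mul, gram_conj, inner_conj_symm, mul_comm]
    · rw [mul_comm]
  have h2 : ∑ i, ∑ j, q i j * (gram y j i * inner ℂ (z j) (y i)).re
      = ∑ i, ∑ j, q i j * (gram y i j * inner ℂ (z i) (y j)).re := by
    rw [Finset.sum_comm]
    refine Finset.sum_congr rfl fun i _ => Finset.sum_congr rfl fun j _ => ?_
    rw [hq]
  simp_rw [h1, mul_add, Finset.sum_add_distrib]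
  rw [h2]
  ring

lemma core (p : Polynomial ℝ) (C : ℝ) (s : Fin N → ℝ) (y z : Fin N → H) :
    -(∑ i, ∑ j, ∑ k, (gram y i j * gram y j k * gram y k i).re *
        (p.eval (s i + s k) * p.eval (s j + s k) + dd p (s i + s k) (s j + s k))) +
      C / 2 * ∑ i, ∑ j, ‖gram y i j‖ ^ 2 * (1 + (s i + s j) * p.eval (s i + s j))
      ≤ ∑ i, ‖z i‖ ^ 2 - dcalG p (dg s) (gram y) (gramD y z) +
        C / 2 * ((Matrix.trace (gramD y z * dg s)).re + (Matrix.trace (gram y * gram y)).re) +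
        C ^ 2 / 4 * (Matrix.trace (dg s * dg s * gram y)).re := by
  set q : Fin N → Fin N → ℝ := fun i j => p.eval (s i + s j) with hqdef
  have hq : ∀ i j, q i j = q j i := fun i j => by simp only [hqdef, add_comm]
  have hsq : 0 ≤ ∑ i, ‖z i - Bv q y i + ((C / 2 * s i : ℝ) : ℂ) • y i‖ ^ 2 :=
    Finset.sum_nonneg fun i _ => by positivity
  simp_rw [expand, Bv_T1, Bv_T3, Bv_T2] at hsq
  -- traces
  have ht1 : (Matrix.trace (gramD y z * dg s)).re = ∑ i, 2 * s i * (inner ℂ (z i) (y i)).re := by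
    simp only [Matrix.trace, Matrix.diag_apply, Complex.re_sum, dg, Matrix.mul_diagonal]
    refine Finset.sum_congr rfl fun i _ => ?_
    simp only [gramD, Matrix.of_apply]
    rw [mul_comm, Complex.re_ofReal_mul, Complex.add_re]
    have : (inner ℂ (y i) (z i)).re = (inner ℂ (z i) (y i)).re := by
      rw [← inner_conj_symm, Complex.conj_re]
    rw [this]; ring
  have ht2 : (Matrix.trace (gram y * gram y)).re = ∑ i, ∑ j, ‖gram y i j‖ ^ 2 := by
    simp only [Matrix.trace, Matrix.diag_apply, Complex.re_sum, Matrix.mul_apply, re_gram_mul]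
  have ht3 : (Matrix.trace (dg s * dg s * gram y)).re = ∑ i, s i ^ 2 * ‖y i‖ ^ 2 := by
    simp only [Matrix.trace, Matrix.diag_apply, Complex.re_sum, dg, Matrix.diagonal_mul_diagonal,
      Matrix.diagonal_mul]
    refine Finset.sum_congr rfl fun i _ => ?_
    rw [gram_apply, inner_self_eq_norm_sq_to_K]
    have h : (s i : ℂ) * (s i : ℂ) * ((‖y i‖ : ℝ) : ℂ) ^ 2 = ((s i ^ 2 * ‖y i‖ ^ 2 : ℝ) : ℂ) := by
      push_cast; ring
    exact (congrArg Complex.re h).trans (Complex.ofReal_re _)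
  rw [ht1, ht2, ht3, dcalG_dg, cross q hq]
  -- cubic term
  have hc : ∑ i, ∑ j, ∑ k, (gram y i j * gram y j k * gram y k i).re *
        (p.eval (s i + s k) * p.eval (s j + s k) + dd p (s i + s k) (s j + s k))
      = ∑ i, ∑ j, ∑ k, (q i j * q i k) * (gram y k j * gram y j i * gram y i k).re
        + ∑ i, ∑ j, ∑ k, (gram y i j * gram y j k * gram y k i).re *
            dd p (s i + s k) (s j + s k) := by
    simp_rw [mul_add, Finset.sum_add_distrib]
    congr 1
    rw [Finset.sum_comm]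
    -- now ∑ j, ∑ i, ∑ k
    have : ∀ j, ∑ i, ∑ k, (gram y i j * gram y j k * gram y k i).re *
        (p.eval (s i + s k) * p.eval (s j + s k))
        = ∑ k, ∑ i, (gram y i j * gram y j k * gram y k i).re *
        (p.eval (s i + s k) * p.eval (s j + s k)) := fun j => Finset.sum_comm
    simp_rw [this]
    rw [Finset.sum_comm]
    refine Finset.sum_congr rfl fun k _ => Finset.sum_congr rfl fun j _ =>
      Finset.sum_congr rfl fun i _ => ?_
    simp only [hqdef]
    rw [add_comm (s k) (s j), add_comm (s k) (s i)]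
    ring
  rw [hc]
  have hs : ∑ i, ∑ j, ‖gram y i j‖ ^ 2 * (1 + (s i + s j) * p.eval (s i + s j))
      = ∑ i, ∑ j, ‖gram y i j‖ ^ 2 + 2 * ∑ i, ∑ j, s i * (q i j * ‖gram y i j‖ ^ 2) := by
    have h1 : ∑ i, ∑ j, s j * (q i j * ‖gram y i j‖ ^ 2)
        = ∑ i, ∑ j, s i * (q i j * ‖gram y i j‖ ^ 2) := by
      rw [Finset.sum_comm]
      refine Finset.sum_congr rfl fun i _ => Finset.sum_congr rfl fun j _ => ?_
      rw [hq, norm_gram_comm]
    have h2 : ∀ i j, ‖gram y i j‖ ^ 2 * (1 + (s i + s j) * p.eval (s i + s j))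
        = ‖gram y i j‖ ^ 2 + s i * (q i j * ‖gram y i j‖ ^ 2) + s j * (q i j * ‖gram y i j‖ ^ 2) := by
      intro i j
      simp only [hqdef]
      ring
    simp_rw [h2, Finset.sum_add_distrib]
    rw [h1]; ring
  rw [hs]
  simp only [Finset.sum_sub_distrib, Finset.sum_add_distrib] at hsq
  have e1 : ∑ i, (C / 2 * s i) ^ 2 * ‖y i‖ ^ 2 = C ^ 2 / 4 * ∑ i, s i ^ 2 * ‖y i‖ ^ 2 := by
    rw [Finset.mul_sum]; exact Finset.sum_congr rfl fun i _ => by ring
  have e2 : ∑ i, 2 * ∑ j, q i j * (gram y i j * inner ℂ (z i) (y j)).re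
      = 2 * ∑ i, ∑ j, q i j * (gram y i j * inner ℂ (z i) (y j)).re := by
    rw [Finset.mul_sum]
  have e3 : ∑ i, 2 * (C / 2 * s i) * (inner ℂ (z i) (y i)).re
      = C / 2 * ∑ i, 2 * s i * (inner ℂ (z i) (y i)).re := by
    rw [Finset.mul_sum]; exact Finset.sum_congr rfl fun i _ => by ring
  have e4 : ∑ i, 2 * (C / 2 * s i) * ∑ j, q i j * ‖gram y i j‖ ^ 2
      = C * ∑ i, ∑ j, s i * (q i j * ‖gram y i j‖ ^ 2) := by
    rw [Finset.mul_sum]
    refine Finset.sum_congr rfl fun i _ => ?_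
    rw [Finset.mul_sum, Finset.mul_sum]
    exact Finset.sum_congr rfl fun j _ => by ring
  rw [e1, e2, e3, e4] at hsq
  linarith

lemma dcalG_map (φ : Matrix (Fin N) (Fin N) ℂ →+* Matrix (Fin N) (Fin N) ℂ)
    (htr : ∀ M, trace (φ M) = trace M) (p : Polynomial ℝ) (S P Q : Matrix (Fin N) (Fin N) ℂ) :
    dcalG p (φ S) (φ P) (φ Q) = dcalG p S P Q := by
  unfold dcalG
  simp only [← map_pow, ← map_mul, ← map_sum, htr]

/-- conjugation by a unitary matrix as a ring homomorphism -/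
noncomputable def conjHom (U : Matrix (Fin N) (Fin N) ℂ) (h1 : Uᴴ * U = 1) (h2 : U * Uᴴ = 1) :
    Matrix (Fin N) (Fin N) ℂ →+* Matrix (Fin N) (Fin N) ℂ where
  toFun A := Uᴴ * A * U
  map_one' := by rw [mul_one, h1]
  map_mul' A B := by
    calc Uᴴ * (A * B) * U = Uᴴ * A * (1 * B) * U := by simp only [one_mul, Matrix.mul_assoc]
      _ = Uᴴ * A * U * (Uᴴ * B * U) := by rw [← h2]; simp only [Matrix.mul_assoc]
  map_zero' := by simp
  map_add' A B := by rw [mul_add, add_mul]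

end PW2aux

open PW2aux in
theorem pw2 : PW2Stmt := by
  intro N H _ _ p C S hS v w P' hP'
  set U : Matrix (Fin N) (Fin N) ℂ := (hS.eigenvectorUnitary : Matrix (Fin N) (Fin N) ℂ) with hUdef
  have h1 : Uᴴ * U = 1 := by
    rw [hUdef, ← Matrix.star_eq_conjTranspose]
    exact Unitary.coe_star_mul_self _
  have h2 : U * Uᴴ = 1 := by
    rw [hUdef, ← Matrix.star_eq_conjTranspose]
    exact Unitary.coe_mul_star_self _
  set s : Fin N → ℝ := hS.eigenvalues with hs
  set φ := conjHom U h1 h2 with hφ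
  have hφa : ∀ A, φ A = Uᴴ * A * U := fun A => rfl
  have htr : ∀ M, trace (φ M) = trace M := by
    intro M
    rw [hφa, Matrix.trace_mul_comm, ← Matrix.mul_assoc, h2, one_mul]
  have hS' : φ S = dg s := by
    rw [hφa]
    have := hS.conjStarAlgAut_star_eigenvectorUnitary
    rw [Unitary.conjStarAlgAut_star_apply] at this
    rw [← Matrix.star_eq_conjTranspose]
    exact this
  have hP : φ (gram v) = gram (rot U v) := by rw [hφa, gram_rot]
  have hQ : φ (gramD v w) = gramD (rot U v) (rot U w) := by rw [hφa, gramD_rot]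
  have hW : φ (gram w) = gram (rot U w) := by rw [hφa, gram_rot]
  have hP'' : P' = gram (rot U v) := by rw [hP', ← hP, hφa]
  have hw2 : ∑ i, ‖w i‖ ^ 2 = ∑ i, ‖rot U w i‖ ^ 2 := by
    rw [← trace_gram, ← trace_gram, ← hW, htr]
  have hd : dcalG p S (gram v) (gramD v w)
      = dcalG p (dg s) (gram (rot U v)) (gramD (rot U v) (rot U w)) := by
    rw [← hS', ← hP, ← hQ, dcalG_map φ htr]
  have e1 : Matrix.trace (gramD v w * S) = Matrix.trace (gramD (rot U v) (rot U w) * dg s) := by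
    rw [← hS', ← hQ, ← map_mul, htr]
  have e2 : Matrix.trace (gram v * gram v)
      = Matrix.trace (gram (rot U v) * gram (rot U v)) := by
    rw [← hP, ← map_mul, htr]
  have e3 : Matrix.trace (S * S * gram v) = Matrix.trace (dg s * dg s * gram (rot U v)) := by
    rw [← hS', ← hP, ← map_mul, ← map_mul, htr]
  rw [hw2, hd, e1, e2, e3, hP'']
  exact core p C s (rot U v) (rot U w)

end Pool.Agent.LT
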