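import Pool.Agent.LT.Defs

/-!
# Module POLY: polynomial approximation of `(π/2) cot (π t/2)`
-/

set_option autoImplicit false

namespace Pool.Agent.LT

open Finset Polynomial

namespace PolyMod

lemma dd_mul (p : Polynomial ℝ) (x y : ℝ) : dd p x y * (x - y) = p.eval x - p.eval y := by
  unfold dd
  rw [Finset.sum_mul, Polynomial.eval_eq_sum_range, Polynomial.eval_eq_sum_range,
    ← Finset.sum_sub_distrib]
  refine Finset.sum_congr rfl fun n _ => ?_
  rw [mul_assoc, geom_sum₂_mul, mul_sub]

lemma dd_self (p : Polynomial ℝ) (x : ℝ) : dd p x x = p.derivative.eval x := by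
  unfold dd
  rw [Polynomial.derivative_eval, Polynomial.sum_over_range]
  · refine Finset.sum_congr rfl fun n _ => ?_
    have h : ∀ i ∈ range n, x ^ i * x ^ (n - 1 - i) = x ^ (n - 1) := by
      intro i hi
      rw [Finset.mem_range] at hi
      rw [← pow_add]
      congr 1
      omega
    rw [Finset.sum_congr rfl h, Finset.sum_const, Finset.card_range, nsmul_eq_mul]
    ring
  · intro n
    simp

/-- antiderivative of a polynomial -/
lemma exists_antideriv (q : Polynomial ℝ) : ∃ p : Polynomial ℝ, p.derivative = q := by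
  refine ⟨∑ n ∈ q.support, Polynomial.monomial (n + 1) (q.coeff n / (n + 1)), ?_⟩
  rw [map_sum]
  conv_rhs => rw [Polynomial.as_sum_support q]
  refine Finset.sum_congr rfl fun n _ => ?_
  rw [Polynomial.derivative_monomial]
  congr 1
  push_cast
  field_simp

/-- the function `(π/2) cot (π x/2)` -/
noncomputable def F (x : ℝ) : ℝ :=
  Real.pi / 2 * (Real.cos (Real.pi * x / 2) / Real.sin (Real.pi * x / 2))

/-- its derivative -/
noncomputable def F' (x : ℝ) : ℝ := -(Real.pi ^ 2 / 4) / Real.sin (Real.pi * x / 2) ^ 2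

lemma sin_pos' {x : ℝ} (h0 : 0 < x) (h2 : x < 2) : 0 < Real.sin (Real.pi * x / 2) := by
  have hpi := Real.pi_pos
  refine Real.sin_pos_of_pos_of_lt_pi (by positivity) ?_
  nlinarith

lemma hasDeriv {x : ℝ} (h0 : 0 < x) (h2 : x < 2) : HasDerivAt F (F' x) x := by
  have hs := (sin_pos' h0 h2).ne'
  have h1 : HasDerivAt (fun x : ℝ => Real.pi * x / 2) (Real.pi / 2) x := by
    have := ((hasDerivAt_id x).const_mul Real.pi).div_const 2
    simpa using this
  have hc := h1.cos
  have hsn := h1.sin
  have h3 := (hc.div hsn hs).const_mul (Real.pi / 2)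
  refine h3.congr_deriv ?_
  unfold F'
  have h4 := Real.sin_sq_add_cos_sq (Real.pi * x / 2)
  field_simp
  nlinarith [h4]

/-- the identity for different points -/
lemma ident {s t u : ℝ} (hst : s ≠ t) (hs0 : 0 < s + u) (hs2 : s + u < 2) (ht0 : 0 < t + u)
    (ht2 : t + u < 2) :
    F (s + u) * F (t + u) + (F (s + u) - F (t + u)) / (s - t) + Real.pi ^ 2 / 4 +
      Real.pi ^ 2 / 4 * Mker s t u = 0 := by
  have ha := (sin_pos' hs0 hs2).ne'
  have hb := (sin_pos' ht0 ht2).ne'
  have hpi := Real.pi_pos.ne'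
  have hd : s - t ≠ 0 := sub_ne_zero.2 hst
  unfold Mker mfun F
  have hne : Real.pi * (s - t) / 2 ≠ 0 := by positivity
  rw [Real.sinc_of_ne_zero hne]
  have e1 : Real.pi * (s - t) / 2 = Real.pi * (s + u) / 2 - Real.pi * (t + u) / 2 := by ring
  have e2 : Real.sin (Real.pi * (s - t) / 2) = Real.sin (Real.pi * (s + u) / 2) *
      Real.cos (Real.pi * (t + u) / 2) - Real.cos (Real.pi * (s + u) / 2) *
      Real.sin (Real.pi * (t + u) / 2) := by rw [e1, Real.sin_sub]
  have e3 : Real.cos (Real.pi * (s - t) / 2) = Real.cos (Real.pi * (s + u) / 2) *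
      Real.cos (Real.pi * (t + u) / 2) + Real.sin (Real.pi * (s + u) / 2) *
      Real.sin (Real.pi * (t + u) / 2) := by rw [e1, Real.cos_sub]
  rw [e2, e3]
  generalize Real.sin (Real.pi * (s + u) / 2) = A at *
  generalize Real.sin (Real.pi * (t + u) / 2) = B at *
  generalize Real.cos (Real.pi * (s + u) / 2) = C at *
  generalize Real.cos (Real.pi * (t + u) / 2) = D at *
  field_simp
  ring

/-- the identity on the diagonal -/
lemma ident_diag {s u : ℝ} (hs0 : 0 < s + u) (hs2 : s + u < 2) :
    F (s + u) * F (s + u) + F' (s + u) + Real.pi ^ 2 / 4 + Real.pi ^ 2 / 4 * Mker s s u = 0 := by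
  have ha := (sin_pos' hs0 hs2).ne'
  unfold Mker mfun F F'
  have h4 := Real.sin_sq_add_cos_sq (Real.pi * (s + u) / 2)
  rw [sub_self, mul_zero, zero_div, Real.sinc_zero, Real.cos_zero, sub_self, zero_div, mul_zero,
    add_zero]
  field_simp
  nlinarith [h4]

end PolyMod

open PolyMod

/-- Module POLY. -/
theorem poly : PolyStmt := by
  intro ε hε hε2 η hη
  have hpi := Real.pi_pos
  -- the interval
  set K : Set ℝ := Set.Icc (2 * ε) (2 - 2 * ε) with hK
  have hK0 : ∀ x ∈ K, 0 < x ∧ x < 2 := by
    intro x hx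
    rw [hK, Set.mem_Icc] at hx
    constructor <;> linarith [hx.1, hx.2]
  have hder : ∀ x ∈ K, HasDerivAt F (F' x) x := fun x hx => hasDeriv (hK0 x hx).1 (hK0 x hx).2
  have hFc : ContinuousOn F K := fun x hx => (hder x hx).continuousAt.continuousWithinAt
  have hF'c : ContinuousOn F' K := by
    unfold F'
    refine ContinuousOn.div continuousOn_const ?_ ?_
    · fun_prop
    · intro x hx
      exact pow_ne_zero 2 (sin_pos' (hK0 x hx).1 (hK0 x hx).2).ne'
  obtain ⟨M, hM⟩ := isCompact_Icc.exists_bound_of_continuousOn hFc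
  have hM0 : 0 ≤ M := (norm_nonneg _).trans (hM 1 (by
    rw [Set.mem_Icc]; constructor <;> linarith))
  -- the approximation of the derivative
  set δ : ℝ := min 1 (η / (2 * M + 2)) with hδ
  have hδ0 : 0 < δ := lt_min one_pos (by positivity)
  have hδ1 : δ ≤ 1 := min_le_left _ _
  have hδη : δ * (2 * M + 2) ≤ η := by
    calc δ * (2 * M + 2) ≤ η / (2 * M + 2) * (2 * M + 2) :=
          mul_le_mul_of_nonneg_right (min_le_right _ _) (by positivity)
      _ = η := by field_simp
  obtain ⟨q, hq⟩ := exists_polynomial_near_of_continuousOn (2 * ε) (2 - 2 * ε) F' hF'c δ hδ0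
  obtain ⟨p0, hp0⟩ := exists_antideriv q
  set p : Polynomial ℝ := p0 + C (F 1 - p0.eval 1) with hp
  have hpd : p.derivative = q := by rw [hp, derivative_add, derivative_C, add_zero, hp0]
  have hp1 : p.eval 1 = F 1 := by
    rw [hp, eval_add, eval_C]
    ring
  have h1K : (1 : ℝ) ∈ K := by
    rw [hK, Set.mem_Icc]
    constructor <;> linarith
  -- Lipschitz bound of the difference
  have hlip : ∀ x ∈ K, ∀ y ∈ K, |(p.eval x - F x) - (p.eval y - F y)| ≤ δ * |x - y| := by
    intro x hx y hy
    have h1 := (convex_Icc (2 * ε) (2 - 2 * ε)).norm_image_sub_le_of_norm_hasDerivWithin_le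
      (f := fun z => p.eval z - F z) (f' := fun z => q.eval z - F' z) (C := δ)
      (fun z hz => by
        have h2 := (p.hasDerivAt z).sub (hder z hz)
        rw [hpd] at h2
        exact h2.hasDerivWithinAt)
      (fun z hz => (hq z hz).le) hy hx
    simpa [Real.norm_eq_abs] using h1
  have hnear : ∀ x ∈ K, |p.eval x - F x| ≤ δ := by
    intro x hx
    have h1 := hlip x hx 1 h1K
    rw [hp1, sub_self, sub_zero] at h1
    have h2 : |x - 1| ≤ 1 := by
      rw [abs_le]
      have := hK0 x hx
      constructor <;> linarith [this.1, this.2]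
    calc |p.eval x - F x| ≤ δ * |x - 1| := h1
      _ ≤ δ * 1 := mul_le_mul_of_nonneg_left h2 hδ0.le
      _ = δ := mul_one δ
  have hprod : ∀ x ∈ K, ∀ y ∈ K, |p.eval x * p.eval y - F x * F y| ≤ δ * (2 * M + 1) := by
    intro x hx y hy
    have e : p.eval x * p.eval y - F x * F y =
        (p.eval x - F x) * (p.eval y - F y) + (p.eval x - F x) * F y +
          F x * (p.eval y - F y) := by ring
    rw [e]
    have h1 := hnear x hx
    have h2 := hnear y hy
    have h3 : |F x| ≤ M := by simpa [Real.norm_eq_abs] using hM x hx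
    have h4 : |F y| ≤ M := by simpa [Real.norm_eq_abs] using hM y hy
    calc |(p.eval x - F x) * (p.eval y - F y) + (p.eval x - F x) * F y +
          F x * (p.eval y - F y)|
        ≤ |(p.eval x - F x) * (p.eval y - F y)| + |(p.eval x - F x) * F y| +
          |F x * (p.eval y - F y)| := abs_add_three _ _ _
      _ = |p.eval x - F x| * |p.eval y - F y| + |p.eval x - F x| * |F y| +
          |F x| * |p.eval y - F y| := by rw [abs_mul, abs_mul, abs_mul]
      _ ≤ δ * 1 + δ * M + M * δ := by
          gcongr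
          exact h2.trans hδ1
      _ = δ * (2 * M + 1) := by ring
  refine ⟨p, ?_⟩
  intro s t u hs ht hu
  rw [Set.mem_Icc] at hs ht hu
  have hsu : s + u ∈ K := by
    rw [hK, Set.mem_Icc]
    constructor <;> linarith [hs.1, hs.2, hu.1, hu.2]
  have htu : t + u ∈ K := by
    rw [hK, Set.mem_Icc]
    constructor <;> linarith [ht.1, ht.2, hu.1, hu.2]
  have hP := hprod _ hsu _ htu
  by_cases hst : s = t
  · subst hst
    have hid := ident_diag (s := s) (u := u) (hK0 _ hsu).1 (hK0 _ hsu).2
    rw [dd_self, hpd]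
    have hq' : |q.eval (s + u) - F' (s + u)| ≤ δ := (hq _ hsu).le
    have e : p.eval (s + u) * p.eval (s + u) + q.eval (s + u) + Real.pi ^ 2 / 4 +
        Real.pi ^ 2 / 4 * Mker s s u =
        (p.eval (s + u) * p.eval (s + u) - F (s + u) * F (s + u)) +
          (q.eval (s + u) - F' (s + u)) := by linear_combination hid
    rw [e]
    calc _ ≤ |p.eval (s + u) * p.eval (s + u) - F (s + u) * F (s + u)| +
          |q.eval (s + u) - F' (s + u)| := abs_add_le _ _
      _ ≤ δ * (2 * M + 1) + δ := add_le_add hP hq'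
      _ = δ * (2 * M + 2) := by ring
      _ ≤ η := hδη
  · have hid := ident (s := s) (t := t) (u := u) hst (hK0 _ hsu).1 (hK0 _ hsu).2 (hK0 _ htu).1
      (hK0 _ htu).2
    have hd : s - t ≠ 0 := sub_ne_zero.2 hst
    have hdd : dd p (s + u) (t + u) = (p.eval (s + u) - p.eval (t + u)) / (s - t) := by
      have h1 := dd_mul p (s + u) (t + u)
      have h2 : s + u - (t + u) = s - t := by ring
      rw [h2] at h1
      field_simp
      linarith
    have hD : |(p.eval (s + u) - p.eval (t + u)) / (s - t) - (F (s + u) - F (t + u)) / (s - t)|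
        ≤ δ := by
      have h1 := hlip _ hsu _ htu
      have h2 : s + u - (t + u) = s - t := by ring
      rw [h2] at h1
      have e : (p.eval (s + u) - p.eval (t + u)) / (s - t) - (F (s + u) - F (t + u)) / (s - t) =
          ((p.eval (s + u) - F (s + u)) - (p.eval (t + u) - F (t + u))) / (s - t) := by
        rw [← sub_div]
        ring_nf
      rw [e, abs_div, div_le_iff₀ (abs_pos.2 hd)]
      exact h1
    rw [hdd]
    have e : p.eval (s + u) * p.eval (t + u) + (p.eval (s + u) - p.eval (t + u)) / (s - t) +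
        Real.pi ^ 2 / 4 + Real.pi ^ 2 / 4 * Mker s t u =
        (p.eval (s + u) * p.eval (t + u) - F (s + u) * F (t + u)) +
          ((p.eval (s + u) - p.eval (t + u)) / (s - t) - (F (s + u) - F (t + u)) / (s - t)) := by
      linear_combination hid
    rw [e]
    calc _ ≤ |p.eval (s + u) * p.eval (t + u) - F (s + u) * F (t + u)| +
          |(p.eval (s + u) - p.eval (t + u)) / (s - t) - (F (s + u) - F (t + u)) / (s - t)| :=
            abs_add_le _ _
      _ ≤ δ * (2 * M + 1) + δ := add_le_add hP hD
      _ = δ * (2 * M + 2) := by ring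
      _ ≤ η := hδη

end Pool.Agent.LT
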