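import Pool.Agent.LT.Defs2

/-!
# Module POLY2: polynomial approximation of `1/t` together with its divided differences
-/

set_option autoImplicit false

namespace Pool.Agent.LT

open Finset

namespace Poly2

open Polynomial

lemma dd_mul (p : ℝ[X]) (x y : ℝ) : dd p x y * (x - y) = p.eval x - p.eval y := by
  rw [eval_eq_sum_range, eval_eq_sum_range, ← Finset.sum_sub_distrib]
  unfold dd
  rw [Finset.sum_mul]
  refine Finset.sum_congr rfl fun n _ => ?_
  rw [mul_assoc, geom_sum₂_mul]
  ring

lemma dd_self (p : ℝ[X]) (x : ℝ) : dd p x x = p.derivative.eval x := by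
  rw [derivative_eval, sum_over_range _ (by intro n; simp)]
  unfold dd
  refine Finset.sum_congr rfl fun n _ => ?_
  have h : ∑ i ∈ range n, x ^ i * x ^ (n - 1 - i) = n * x ^ (n - 1) := by
    rw [← nsmul_eq_mul, ← Finset.card_range n, ← Finset.sum_const, Finset.card_range]
    refine Finset.sum_congr rfl fun i hi => ?_
    rw [← pow_add]
    congr 1
    have := Finset.mem_range.1 hi
    omega
  rw [h, mul_assoc]

lemma exists_antiderivative (r : ℝ[X]) : ∃ q : ℝ[X], derivative q = r := by
  induction r using Polynomial.induction_on' with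
  | add p q hp hq =>
    obtain ⟨P, hP⟩ := hp
    obtain ⟨Q, hQ⟩ := hq
    exact ⟨P + Q, by rw [derivative_add, hP, hQ]⟩
  | monomial n a =>
    refine ⟨monomial (n + 1) (a / (n + 1)), ?_⟩
    rw [derivative_monomial]
    have : (n : ℝ) + 1 ≠ 0 := by positivity
    congr 1
    push_cast
    field_simp

lemma exists_approx {a b : ℝ} (ha : 0 < a) (hab : a < b) {δ : ℝ} (hδ : 0 < δ) :
    ∃ p : ℝ[X], p.eval a = 1 / a ∧
      (∀ x ∈ Set.Icc a b, |p.derivative.eval x + 1 / (x * x)| ≤ δ) ∧
      ∀ x ∈ Set.Icc a b, ∀ y ∈ Set.Icc a b,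
        |(p.eval x - 1 / x) - (p.eval y - 1 / y)| ≤ δ * |x - y| := by
  have hpos : ∀ x ∈ Set.Icc a b, 0 < x := fun x hx => ha.trans_le hx.1
  have hcont : ContinuousOn (fun x : ℝ => -(x ^ 2)⁻¹) (Set.Icc a b) := by
    refine (ContinuousOn.inv₀ (continuous_pow 2).continuousOn fun x hx => ?_).neg
    exact (pow_pos (hpos x hx) 2).ne'
  obtain ⟨r, hr⟩ := exists_polynomial_near_of_continuousOn a b _ hcont δ hδ
  obtain ⟨q, hq⟩ := exists_antiderivative r
  refine ⟨q + C (1 / a - q.eval a), ?_, ?_, ?_⟩
  · simp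
  · intro x hx
    have h1 := (hr x hx).le
    have hx0 := hpos x hx
    rw [derivative_add, derivative_C, add_zero, hq]
    have e : r.eval x + 1 / (x * x) = r.eval x - -(x ^ 2)⁻¹ := by
      rw [sub_neg_eq_add]; congr 1; field_simp
    rw [e]
    exact h1
  · intro x hx y hy
    have hd : ∀ t ∈ Set.Icc a b, HasDerivWithinAt (fun t => q.eval t - t⁻¹)
        (r.eval t - -(t ^ 2)⁻¹) (Set.Icc a b) t := by
      intro t ht
      have h1 : HasDerivAt (fun t => q.eval t) (r.eval t) t := by
        have := q.hasDerivAt t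
        rwa [hq] at this
      exact (h1.sub (hasDerivAt_inv (hpos t ht).ne')).hasDerivWithinAt
    have h2 := Convex.norm_image_sub_le_of_norm_hasDerivWithin_le (C := δ) hd
      (fun t ht => (hr t ht).le) (convex_Icc a b) hy hx
    rw [Real.norm_eq_abs, Real.norm_eq_abs] at h2
    simp only [eval_add, eval_C]
    have e : (q.eval x + (1 / a - q.eval a) - 1 / x) - (q.eval y + (1 / a - q.eval a) - 1 / y) =
        (q.eval x - x⁻¹) - (q.eval y - y⁻¹) := by
      rw [one_div, one_div]; ring
    rw [e]
    exact h2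

end Poly2

open Poly2 in
/-- Module POLY2 -/
theorem poly2 : Poly2Stmt := by
  intro ε Λ hε hΛ η hη
  set a := 2 * ε with ha
  set b := 2 * Λ with hb
  have ha0 : 0 < a := by positivity
  have hab : a < b := by linarith
  have hb0 : 0 < b := ha0.trans hab
  set L := b - a with hL
  have hL0 : 0 < L := by linarith
  set M := 1 + L * (2 / a + L) + b * L with hM
  have hM0 : 0 < M := by positivity
  set δ := min 1 (η / M) with hδ
  have hδ0 : 0 < δ := lt_min one_pos (by positivity)
  have hδ1 : δ ≤ 1 := min_le_left _ _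
  have hδM : δ * M ≤ η := by
    have : δ ≤ η / M := min_le_right _ _
    rwa [le_div_iff₀ hM0] at this
  obtain ⟨p, hpa, hp1, hp2⟩ := exists_approx ha0 hab hδ0
  have hκ : ∀ x ∈ Set.Icc a b, |p.eval x - 1 / x| ≤ δ * L := by
    intro x hx
    have h := hp2 x hx a ⟨le_rfl, hab.le⟩
    rw [hpa, sub_self, sub_zero] at h
    refine h.trans (mul_le_mul_of_nonneg_left ?_ hδ0.le)
    rw [abs_of_nonneg (by linarith [hx.1])]
    linarith [hx.2]
  have hinv : ∀ x ∈ Set.Icc a b, |1 / x| ≤ 1 / a := by
    intro x hx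
    have hx0 : 0 < x := ha0.trans_le hx.1
    rw [abs_of_pos (by positivity)]
    exact one_div_le_one_div_of_le ha0 hx.1
  refine ⟨p, ?_, ?_⟩
  · intro s t u hs ht hu
    have hx : s + u ∈ Set.Icc a b := ⟨by linarith [hs.1, hu.1], by linarith [hs.2, hu.2]⟩
    have hy : t + u ∈ Set.Icc a b := ⟨by linarith [ht.1, hu.1], by linarith [ht.2, hu.2]⟩
    generalize s + u = x at hx
    generalize t + u = y at hy
    have hx0 : 0 < x := ha0.trans_le hx.1
    have hy0 : 0 < y := ha0.trans_le hy.1
    -- the divided difference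
    have h1 : |dd p x y + 1 / (x * y)| ≤ δ := by
      rcases eq_or_ne x y with rfl | hne
      · rw [dd_self]
        exact hp1 x hx
      · have h2 := hp2 x hx y hy
        have h3 : (p.eval x - 1 / x) - (p.eval y - 1 / y) = (dd p x y + 1 / (x * y)) * (x - y) := by
          have h4 := dd_mul p x y
          have h5 : 1 / x - 1 / y = -(1 / (x * y)) * (x - y) := by field_simp; ring
          have h6 : (p.eval x - 1 / x) - (p.eval y - 1 / y) =
            (p.eval x - p.eval y) - (1 / x - 1 / y) := by ring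
          rw [h6, h5, ← h4]; ring
        rw [h3, abs_mul] at h2
        exact le_of_mul_le_mul_right h2 (abs_pos.2 (sub_ne_zero.2 hne))
    have h2 := hκ x hx
    have h3 := hκ y hy
    have h4 : |p.eval y| ≤ 1 / a + δ * L := by
      have e : p.eval y = 1 / y + (p.eval y - 1 / y) := by ring
      rw [e]
      exact (abs_add_le _ _).trans (add_le_add (hinv y hy) h3)
    have e : p.eval x * p.eval y + dd p x y = (p.eval x - 1 / x) * p.eval y +
        1 / x * (p.eval y - 1 / y) + (dd p x y + 1 / (x * y)) := by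
      field_simp
      ring
    rw [e]
    have h5 : |(p.eval x - 1 / x) * p.eval y| ≤ δ * L * (1 / a + δ * L) := by
      rw [abs_mul]
      exact mul_le_mul h2 h4 (abs_nonneg _) (by positivity)
    have h6 : |1 / x * (p.eval y - 1 / y)| ≤ 1 / a * (δ * L) := by
      rw [abs_mul]
      exact mul_le_mul (hinv x hx) h3 (abs_nonneg _) (by positivity)
    have h7 : δ * L * (1 / a + δ * L) + 1 / a * (δ * L) + δ ≤ δ * M := by
      have h8 : δ * L * (δ * L) ≤ δ * (L * L) := by
        have : δ * L ≤ L := by nlinarith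
        calc δ * L * (δ * L) ≤ δ * L * L := mul_le_mul_of_nonneg_left this (by positivity)
          _ = δ * (L * L) := by ring
      have h9 : 0 ≤ δ * (b * L) := by positivity
      have e2 : δ * M = δ + δ * L * (2 / a) + δ * (L * L) + δ * (b * L) := by rw [hM]; ring
      have e3 : δ * L * (1 / a + δ * L) + 1 / a * (δ * L) + δ =
        δ + δ * L * (2 / a) + δ * L * (δ * L) := by ring
      rw [e2, e3]
      linarith
    refine (abs_add_le _ _).trans (le_trans (add_le_add ((abs_add_le _ _).trans
      (add_le_add h5 h6)) h1) (h7.trans hδM))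
  · intro s t hs ht
    have hx : s + t ∈ Set.Icc a b := ⟨by linarith [hs.1, ht.1], by linarith [hs.2, ht.2]⟩
    generalize s + t = x at hx
    have hx0 : 0 < x := ha0.trans_le hx.1
    have e : x * p.eval x - 1 = x * (p.eval x - 1 / x) := by field_simp
    rw [e, abs_mul, abs_of_pos hx0]
    have h1 : x * |p.eval x - 1 / x| ≤ b * (δ * L) :=
      mul_le_mul hx.2 (hκ x hx) (abs_nonneg _) hb0.le
    have h2 : b * (δ * L) ≤ δ * M := by
      have : 0 ≤ δ * (1 + L * (2 / a + L)) := by positivity
      rw [hM]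
      nlinarith
    linarith

end Pool.Agent.LT
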