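import Mathlib

/-!
# Lieb-Thirring inequalities in one dimension: definitions
(MP_4c716f_mp; mathematics: helper15)

`f` absolutely continuous with derivative `f'` (values in a normed space), `H¹(ℝ)`, Gram matrices,
the calibration `calG` and its derivative `dcalG`.
-/

set_option autoImplicit false

namespace Pool.Agent.LT

open MeasureTheory Matrix Finset
open scoped ComplexConjugate ComplexOrder

/-- `f` is absolutely continuous on bounded intervals with derivative `f'`. -/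
def ACv {E : Type*} [NormedAddCommGroup E] [NormedSpace ℝ E] (f f' : ℝ → E) : Prop :=
  (∀ a b : ℝ, IntervalIntegrable f' volume a b) ∧ ∀ a b : ℝ, f b - f a = ∫ x in a..b, f' x

/-- `f ∈ H¹(ℝ; E)` with derivative `f'`. -/
def IsH1v {E : Type*} [NormedAddCommGroup E] [NormedSpace ℝ E] (f f' : ℝ → E) : Prop :=
  MemLp f 2 volume ∧ MemLp f' 2 volume ∧ ∀ a b : ℝ, f b - f a = ∫ x in a..b, f' x

/-- Gram matrix `P = v v*`, i.e. `P i j = ⟨v j, v i⟩` (Mathlib's inner product is conjugate linear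
in the first argument). -/
noncomputable def gram {N : ℕ} {H : Type*} [NormedAddCommGroup H] [InnerProductSpace ℂ H]
    (v : Fin N → H) : Matrix (Fin N) (Fin N) ℂ :=
  Matrix.of fun i j => inner ℂ (v j) (v i)

/-- `Q = w v* + v w*`, i.e. `Q i j = ⟨v j, w i⟩ + ⟨w j, v i⟩`. -/
noncomputable def gramD {N : ℕ} {H : Type*} [NormedAddCommGroup H] [InnerProductSpace ℂ H]
    (v w : Fin N → H) : Matrix (Fin N) (Fin N) ℂ :=
  Matrix.of fun i j => inner ℂ (v j) (w i) + inner ℂ (w j) (v i)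

/-- The calibration `½ ∑ₙ pₙ ∑ₖ C(n,k) tr (Sᵏ P Sⁿ⁻ᵏ P)`, i.e. `½ ∑ p(σᵢ+σⱼ) |Pᵢⱼ|²` in the
eigenbasis of `S`. -/
noncomputable def calG {N : ℕ} (p : Polynomial ℝ) (S P : Matrix (Fin N) (Fin N) ℂ) : ℝ :=
  (1 / 2) * ∑ n ∈ range (p.natDegree + 1), p.coeff n * ∑ k ∈ range (n + 1), (n.choose k : ℝ) *
    (Matrix.trace (S ^ k * P * S ^ (n - k) * P)).re

/-- The derivative of `calG` along `S' = P`, `P' = Q`. -/
noncomputable def dcalG {N : ℕ} (p : Polynomial ℝ) (S P Q : Matrix (Fin N) (Fin N) ℂ) : ℝ :=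
  ∑ n ∈ range (p.natDegree + 1), p.coeff n * ∑ k ∈ range (n + 1), (n.choose k : ℝ) *
    ((Matrix.trace ((∑ i ∈ range k, S ^ i * P * S ^ (k - 1 - i)) * P * S ^ (n - k) * P)).re +
      (Matrix.trace (S ^ k * Q * S ^ (n - k) * P)).re)

/-- Divided difference `p[x, y] = (p x - p y) / (x - y)` of a polynomial, as a polynomial
expression. -/
noncomputable def dd (p : Polynomial ℝ) (x y : ℝ) : ℝ :=
  ∑ n ∈ range (p.natDegree + 1), p.coeff n * ∑ i ∈ range n, x ^ i * y ^ (n - 1 - i)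

/-- `m(t) = sin t / t - cos t`. -/
noncomputable def mfun (t : ℝ) : ℝ := Real.sinc t - Real.cos t

/-- `m(π(s-t)/2) / (sin (π(s+u)/2) sin (π(t+u)/2))`. -/
noncomputable def Mker (s t u : ℝ) : ℝ :=
  mfun (Real.pi * (s - t) / 2) /
    (Real.sin (Real.pi * (s + u) / 2) * Real.sin (Real.pi * (t + u) / 2))

/-! ## Statements of the modules -/

/-- (BIL) product rule for absolutely continuous functions and a continuous bilinear map. -/
def BilStmt : Prop :=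
  ∀ (E F G : Type) [NormedAddCommGroup E] [NormedSpace ℝ E] [NormedAddCommGroup F]
    [NormedSpace ℝ F] [NormedAddCommGroup G] [NormedSpace ℝ G] [CompleteSpace E] [CompleteSpace F]
    [CompleteSpace G] (B : E →L[ℝ] F →L[ℝ] G) (f f' : ℝ → E) (g g' : ℝ → F),
    ACv f f' → ACv g g' → ACv (fun x => B (f x) (g x)) (fun x => B (f' x) (g x) + B (f x) (g' x))

/-- (CALC) `calG` is absolutely continuous with derivative `dcalG`. -/
def CalcStmt : Prop :=
  ∀ (N : ℕ) (p : Polynomial ℝ) (S P Q : ℝ → Matrix (Fin N) (Fin N) ℂ),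
    (∀ i j, ACv (fun x => S x i j) (fun x => P x i j)) →
    (∀ i j, ACv (fun x => P x i j) (fun x => Q x i j)) →
    ACv (fun x => calG p (S x) (P x)) (fun x => dcalG p (S x) (P x) (Q x))

/-- (PW) the pointwise lower bound in the eigenbasis of `S`. -/
def PWStmt : Prop :=
  ∀ (N : ℕ) (H : Type) [NormedAddCommGroup H] [InnerProductSpace ℂ H] (p : Polynomial ℝ)
    (S : Matrix (Fin N) (Fin N) ℂ) (hS : S.IsHermitian) (v w : Fin N → H)
    (P' : Matrix (Fin N) (Fin N) ℂ),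
    P' = (hS.eigenvectorUnitary : Matrix (Fin N) (Fin N) ℂ)ᴴ * gram v *
      (hS.eigenvectorUnitary : Matrix (Fin N) (Fin N) ℂ) →
    -(∑ i, ∑ j, ∑ k, (P' i j * P' j k * P' k i).re *
        (p.eval (hS.eigenvalues i + hS.eigenvalues k) * p.eval (hS.eigenvalues j + hS.eigenvalues k)
          + dd p (hS.eigenvalues i + hS.eigenvalues k) (hS.eigenvalues j + hS.eigenvalues k)))
      ≤ ∑ i, ‖w i‖ ^ 2 - dcalG p S (gram v) (gramD v w)

/-- (POLY) polynomial approximation of `(π/2) cot (π t/2)` together with its divided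
differences. -/
def PolyStmt : Prop :=
  ∀ ε : ℝ, 0 < ε → ε < 1 / 2 → ∀ η : ℝ, 0 < η → ∃ p : Polynomial ℝ,
    ∀ s t u : ℝ, s ∈ Set.Icc ε (1 - ε) → t ∈ Set.Icc ε (1 - ε) → u ∈ Set.Icc ε (1 - ε) →
      |p.eval (s + u) * p.eval (t + u) + dd p (s + u) (t + u) + Real.pi ^ 2 / 4 +
        Real.pi ^ 2 / 4 * Mker s t u| ≤ η

/-- positivity of the cubic form for the matrix `P` and all `σ ∈ (0,1)^N`. -/
def PosFor {N : ℕ} (P : Matrix (Fin N) (Fin N) ℂ) : Prop :=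
  ∀ σ : Fin N → ℝ, (∀ i, 0 < σ i ∧ σ i < 1) →
    0 ≤ ∑ i, ∑ j, ∑ k, (P i j * P j k * P k i).re * Mker (σ i) (σ j) (σ k)

/-- (POS1) positivity for rank one matrices. -/
def Pos1Stmt : Prop := ∀ (N : ℕ) (v : Fin N → ℂ), PosFor (gram v)

/-- (POS) positivity for all positive semidefinite matrices. -/
def PosStmt : Prop := ∀ (N : ℕ) (P : Matrix (Fin N) (Fin N) ℂ), P.PosSemidef → PosFor P

/-- (PSDK) the kernel `sin (r (x+y)) / sin (x+y)`, `0 < r < 1`, `x, y ∈ (0, π/2)`, is positive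
semidefinite. -/
def PsdKerStmt : Prop :=
  ∀ (N : ℕ) (x : Fin N → ℝ) (r : ℝ), (∀ i, 0 < x i ∧ x i < Real.pi / 2) → 0 < r → r < 1 →
    (Matrix.of fun i j => ((Real.sin (r * (x i + x j)) / Real.sin (x i + x j) : ℝ) : ℂ) :
      Matrix (Fin N) (Fin N) ℂ).PosSemidef

/-- (QPOS) for `0 < r < 1`, `a k ∈ (0, π)`, `P ≥ 0`, `Ξ i j = P i j / sin ((a i + a j)/2)`:
`0 ≤ ∑ Re (Ξ i j Ξ j k Ξ k i) (a i - a j)² sin (r a i + (1-r) a j)`. -/
def QPosStmt : Prop :=
  ∀ (N : ℕ) (P : Matrix (Fin N) (Fin N) ℂ), P.PosSemidef → ∀ (a : Fin N → ℝ),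
    (∀ i, 0 < a i ∧ a i < Real.pi) → ∀ r : ℝ, 0 < r → r < 1 →
    0 ≤ ∑ i, ∑ j, ∑ k, (P i j * P j k * P k i).re /
      (Real.sin ((a i + a j) / 2) * Real.sin ((a j + a k) / 2) * Real.sin ((a k + a i) / 2)) *
      ((a i - a j) ^ 2 * Real.sin (r * a i + (1 - r) * a j))

/-- (KIN) kinetic inequality for functions with values in `H`, from positivity of the cubic form for
Gram matrices of vectors of `H`: if `∫ ⟨v j, v i⟩ ≤ 1` as matrices, then
`(π²/4) ∫ tr P³ ≤ ∫ ∑ ‖v'‖²`. -/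
def KinStmt : Prop :=
  ∀ (H : Type) [NormedAddCommGroup H] [InnerProductSpace ℂ H] [CompleteSpace H],
    (∀ (N : ℕ) (v : Fin N → H), PosFor (gram v)) →
    ∀ (N : ℕ) (v w : Fin N → ℝ → H), (∀ j, IsH1v (v j) (w j)) →
      (1 - Matrix.of fun i j => ∫ x, inner ℂ (v j x) (v i x) :
        Matrix (Fin N) (Fin N) ℂ).PosSemidef →
      Integrable (fun x => (Matrix.trace (gram (fun j => v j x) ^ 3)).re) volume ∧
      Real.pi ^ 2 / 4 * ∫ x, (Matrix.trace (gram (fun j => v j x) ^ 3)).re ≤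
        ∑ j, ∫ x, ‖w j x‖ ^ 2

/-! ## Scalar functions: spectral form -/

/-- `ψ` is an eigenfunction, with eigenvalue `E`, of the operator `-d²/dx² + V` defined by the
closed quadratic form `∫ |u'|² + V |u|²` on `H¹(ℝ)`. -/
def IsEigenfunction (V : ℝ → ℝ) (ψ : ℝ → ℂ) (E : ℝ) : Prop :=
  ∃ ψ' : ℝ → ℂ, IsH1v ψ ψ' ∧ ∀ φ φ' : ℝ → ℂ, IsH1v φ φ' →
    (∫ x, conj (φ' x) * ψ' x) + (∫ x, (V x : ℂ) * (conj (φ x) * ψ x)) =
      E * ∫ x, conj (φ x) * ψ x

/-- `L` is admissible in the Lieb-Thirring inequality with exponent `γ` in dimension one: for every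
real `V ∈ L^(γ+1/2)(ℝ)` and all negative eigenvalues of `-d²/dx² + V`, counted with multiplicity
(every finite orthonormal system of eigenfunctions), `∑ |Eⱼ|^γ ≤ L ∫ (V₋)^(γ+1/2)`. -/
def LTBound (γ L : ℝ) : Prop :=
  ∀ V : ℝ → ℝ, MemLp V (ENNReal.ofReal (γ + 1 / 2)) volume →
    ∀ (N : ℕ) (ψ : Fin N → ℝ → ℂ) (E : Fin N → ℝ), (∀ j, IsEigenfunction V (ψ j) (E j)) →
      (∀ j, E j < 0) → (∀ i j, ∫ x, conj (ψ i x) * ψ j x = if i = j then 1 else 0) →
      ∑ j, |E j| ^ γ ≤ L * ∫ x, max (-V x) 0 ^ (γ + 1 / 2)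

/-- (DUAL) the upper bound. -/
def UpperStmt : Prop := LTBound 1 (4 / (3 * √3 * Real.pi))

/-- (SHARP) optimality. -/
def LowerStmt : Prop := ∀ L : ℝ, LTBound 1 L → 4 / (3 * √3 * Real.pi) ≤ L

end Pool.Agent.LT
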