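import Mathlib
import Pool.Agent.LT.Defs

/-!
# Module POS (MP_4c716f_mp): positivity of the cubic form for positive semidefinite matrices
-/

set_option autoImplicit false

namespace Pool.Agent.LT

open MeasureTheory Matrix Finset

namespace PosAux

/-- the kernel `sin((a+b)/2) m((a-b)/2)` as an integral -/
theorem kernel_eq (a b : ℝ) :
    Real.sin ((a + b) / 2) * mfun ((a - b) / 2) =
      ∫ θ in (0 : ℝ)..1, (1 / 2) * (θ * (1 - θ)) *
        ((a - b) ^ 2 * Real.sin (θ * a + (1 - θ) * b)) := by
  by_cases hd : a - b = 0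
  · have hab : a = b := by linarith
    subst hab
    simp [mfun]
  · have hF : ∀ θ ∈ Set.uIcc (0 : ℝ) 1, HasDerivAt
        (fun θ : ℝ => (1 / 2) * (-(θ * (1 - θ)) * (a - b) * Real.cos (θ * a + (1 - θ) * b) +
          (1 - 2 * θ) * Real.sin (θ * a + (1 - θ) * b) -
          2 / (a - b) * Real.cos (θ * a + (1 - θ) * b)))
        ((1 / 2) * (θ * (1 - θ)) *
          ((a - b) ^ 2 * Real.sin (θ * a + (1 - θ) * b))) θ := by
      intro θ _
      have h0 : HasDerivAt (fun θ : ℝ => θ * a + (1 - θ) * b) (a - b) θ := by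
        have h1 : HasDerivAt (fun θ : ℝ => θ * a + (1 - θ) * b) (1 * a + (-1) * b) θ :=
          ((hasDerivAt_id' θ).mul_const a).add ((((hasDerivAt_id' θ).const_sub 1)).mul_const b)
        exact h1.congr_deriv (by ring)
      have hc := h0.cos
      have hs := h0.sin
      have hp : HasDerivAt (fun θ : ℝ => -(θ * (1 - θ)) * (a - b))
          (-(1 - 2 * θ) * (a - b)) θ := by
        have h1 : HasDerivAt (fun θ : ℝ => -(θ * (1 - θ)) * (a - b))
            (-(1 * (1 - θ) + θ * (-1)) * (a - b)) θ :=
          (((hasDerivAt_id' θ).mul ((hasDerivAt_id' θ).const_sub 1)).neg).mul_const (a - b)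
        exact h1.congr_deriv (by ring)
      have hq : HasDerivAt (fun θ : ℝ => 1 - 2 * θ) (-2) θ := by
        have h1 : HasDerivAt (fun θ : ℝ => 1 - 2 * θ) (-(2 * 1)) θ :=
          ((hasDerivAt_id' θ).const_mul (2 : ℝ)).const_sub 1
        exact h1.congr_deriv (by ring)
      have h2 := (((hp.mul hc).add (hq.mul hs)).sub (hc.const_mul (2 / (a - b)))).const_mul
        (1 / 2 : ℝ)
      refine HasDerivAt.congr_deriv (f := (fun θ : ℝ => (1 / 2) * (-(θ * (1 - θ)) * (a - b) *
          Real.cos (θ * a + (1 - θ) * b) + (1 - 2 * θ) * Real.sin (θ * a + (1 - θ) * b) -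
          2 / (a - b) * Real.cos (θ * a + (1 - θ) * b)))) h2 ?_
      field_simp
      ring
    have hint : IntervalIntegrable (fun θ : ℝ => (1 / 2) * (θ * (1 - θ)) *
          ((a - b) ^ 2 * Real.sin (θ * a + (1 - θ) * b))) volume 0 1 := by
      apply Continuous.intervalIntegrable
      fun_prop
    rw [intervalIntegral.integral_eq_sub_of_hasDerivAt hF hint]
    have e1 : Real.cos b - Real.cos a = 2 * Real.sin ((a + b) / 2) * Real.sin ((a - b) / 2) := by
      rw [Real.cos_sub_cos]
      have : Real.sin ((b - a) / 2) = - Real.sin ((a - b) / 2) := by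
        rw [← Real.sin_neg]; congr 1; ring
      rw [this, add_comm b a]
      ring
    have e2 : Real.sin a + Real.sin b = 2 * Real.sin ((a + b) / 2) * Real.cos ((a - b) / 2) := by
      rw [Real.sin_add_sin]
    have hd2 : (a - b) / 2 ≠ 0 := by
      intro h; exact hd (by linarith)
    rw [mfun, Real.sinc_of_ne_zero hd2]
    have e3 : Real.cos a = Real.cos b - 2 * Real.sin ((a + b) / 2) * Real.sin ((a - b) / 2) := by
      linarith
    have e4 : Real.sin a = 2 * Real.sin ((a + b) / 2) * Real.cos ((a - b) / 2) - Real.sin b := by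
      linarith
    simp only [one_mul, sub_self, zero_mul, add_zero, mul_zero, neg_zero, sub_zero, zero_add,
      mul_one]
    rw [e3, e4]
    field_simp
    ring

end PosAux

/-- (POS) -/
theorem pos (h : QPosStmt) : PosStmt := by
  intro N P hP σ hσ
  set a : Fin N → ℝ := fun i => Real.pi * σ i with ha
  have hpi := Real.pi_pos
  have ha0 : ∀ i, 0 < a i ∧ a i < Real.pi := by
    intro i
    refine ⟨mul_pos hpi (hσ i).1, ?_⟩
    have := mul_lt_mul_of_pos_left (hσ i).2 hpi
    simpa [ha] using this
  have hs : ∀ i j, 0 < Real.sin ((a i + a j) / 2) := by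
    intro i j
    apply Real.sin_pos_of_pos_of_lt_pi
    · have := (ha0 i).1; have := (ha0 j).1; linarith
    · have := (ha0 i).2; have := (ha0 j).2; linarith
  have hterm : ∀ i j k, (P i j * P j k * P k i).re * Mker (σ i) (σ j) (σ k) =
      ∫ θ in (0 : ℝ)..1, (1 / 2) * (θ * (1 - θ)) * ((P i j * P j k * P k i).re /
      (Real.sin ((a i + a j) / 2) * Real.sin ((a j + a k) / 2) * Real.sin ((a k + a i) / 2)) *
      ((a i - a j) ^ 2 * Real.sin (θ * a i + (1 - θ) * a j))) := by
    intro i j k
    have hM : Mker (σ i) (σ j) (σ k) = mfun ((a i - a j) / 2) /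
        (Real.sin ((a i + a k) / 2) * Real.sin ((a j + a k) / 2)) := by
      have e1 : Real.pi * (σ i - σ j) / 2 = (a i - a j) / 2 := by simp only [ha]; ring
      have e2 : Real.pi * (σ i + σ k) / 2 = (a i + a k) / 2 := by simp only [ha]; ring
      have e3 : Real.pi * (σ j + σ k) / 2 = (a j + a k) / 2 := by simp only [ha]; ring
      rw [Mker, e1, e2, e3]
    have hk := PosAux.kernel_eq (a i) (a j)
    have hsij := (hs i j).ne'
    have hsjk := (hs j k).ne'
    have hski := (hs k i).ne'
    have hsik := (hs i k).ne'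
    have h1 : (P i j * P j k * P k i).re * Mker (σ i) (σ j) (σ k) =
        (P i j * P j k * P k i).re /
        (Real.sin ((a i + a j) / 2) * Real.sin ((a j + a k) / 2) * Real.sin ((a k + a i) / 2)) *
        (Real.sin ((a i + a j) / 2) * mfun ((a i - a j) / 2)) := by
      rw [hM, add_comm (a k) (a i)]
      field_simp
    rw [h1, hk, ← intervalIntegral.integral_const_mul]
    apply intervalIntegral.integral_congr
    intro θ _
    simp only
    ring
  have hcont : ∀ i j k, IntervalIntegrable (fun θ : ℝ => (1 / 2) * (θ * (1 - θ)) *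
      ((P i j * P j k * P k i).re /
      (Real.sin ((a i + a j) / 2) * Real.sin ((a j + a k) / 2) * Real.sin ((a k + a i) / 2)) *
      ((a i - a j) ^ 2 * Real.sin (θ * a i + (1 - θ) * a j)))) volume 0 1 := by
    intro i j k
    apply Continuous.intervalIntegrable
    fun_prop
  simp only [hterm]
  have hsum : (∑ i, ∑ j, ∑ k, ∫ θ in (0 : ℝ)..1, (1 / 2) * (θ * (1 - θ)) *
      ((P i j * P j k * P k i).re /
      (Real.sin ((a i + a j) / 2) * Real.sin ((a j + a k) / 2) * Real.sin ((a k + a i) / 2)) *
      ((a i - a j) ^ 2 * Real.sin (θ * a i + (1 - θ) * a j)))) =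
      ∫ θ in (0 : ℝ)..1, ∑ i, ∑ j, ∑ k, (1 / 2) * (θ * (1 - θ)) *
      ((P i j * P j k * P k i).re /
      (Real.sin ((a i + a j) / 2) * Real.sin ((a j + a k) / 2) * Real.sin ((a k + a i) / 2)) *
      ((a i - a j) ^ 2 * Real.sin (θ * a i + (1 - θ) * a j))) := by
    rw [intervalIntegral.integral_finsetSum]
    · refine Finset.sum_congr rfl fun i _ => ?_
      rw [intervalIntegral.integral_finsetSum]
      · refine Finset.sum_congr rfl fun j _ => ?_
        rw [intervalIntegral.integral_finsetSum]
        intro k _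
        exact hcont i j k
      · intro j _
        apply Continuous.intervalIntegrable
        fun_prop
    · intro i _
      apply Continuous.intervalIntegrable
      fun_prop
  rw [hsum]
  apply intervalIntegral.integral_nonneg (by norm_num)
  intro θ hθ
  simp only [← Finset.mul_sum]
  by_cases h0 : θ = 0
  · simp [h0]
  by_cases h1 : θ = 1
  · simp [h1]
  have hθ0 : 0 < θ := lt_of_le_of_ne hθ.1 (Ne.symm h0)
  have hθ1 : θ < 1 := lt_of_le_of_ne hθ.2 h1
  refine mul_nonneg ?_ (h N P hP a ha0 θ hθ0 hθ1)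
  have : 0 < θ * (1 - θ) := mul_pos hθ0 (by linarith)
  positivity

end Pool.Agent.LT
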