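import Pool.Agent.LT.Defs

/-!
# (POS1) positivity of the cubic form for rank one matrices   (helper29)
-/

set_option autoImplicit false

namespace Pool.Agent.LT

open MeasureTheory Matrix Finset
open scoped ComplexConjugate ComplexOrder

theorem pos1_mfun_neg (t : ℝ) : mfun (-t) = mfun t := by
  simp [mfun, Real.sinc_neg, Real.cos_neg]

theorem pos1_mfun_nonneg_of_pos {t : ℝ} (h0 : 0 < t) (h1 : t < Real.pi / 2) : 0 ≤ mfun t := by
  have hc : 0 < Real.cos t := Real.cos_pos_of_mem_Ioo ⟨by linarith, h1⟩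
  have ht : t < Real.tan t := Real.lt_tan h0 h1
  rw [Real.tan_eq_sin_div_cos, lt_div_iff₀ hc] at ht
  unfold mfun
  rw [Real.sinc_of_ne_zero h0.ne', sub_nonneg, le_div_iff₀ h0]
  linarith

theorem pos1_mfun_nonneg {t : ℝ} (h0 : -(Real.pi / 2) < t) (h1 : t < Real.pi / 2) :
    0 ≤ mfun t := by
  rcases lt_trichotomy t 0 with h | h | h
  · rw [← pos1_mfun_neg]
    exact pos1_mfun_nonneg_of_pos (by linarith) (by linarith)
  · subst h
    simp [mfun]
  · exact pos1_mfun_nonneg_of_pos h h1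

theorem pos1_Mker_nonneg {s t u : ℝ} (hs : 0 < s ∧ s < 1) (ht : 0 < t ∧ t < 1)
    (hu : 0 < u ∧ u < 1) : 0 ≤ Mker s t u := by
  have hpi := Real.pi_pos
  unfold Mker
  apply div_nonneg
  · apply pos1_mfun_nonneg
    · nlinarith [hs.1, hs.2, ht.1, ht.2]
    · nlinarith [hs.1, hs.2, ht.1, ht.2]
  · apply mul_nonneg
    · exact (Real.sin_pos_of_pos_of_lt_pi (by nlinarith [hs.1, hu.1])
        (by nlinarith [hs.2, hu.2])).le
    · exact (Real.sin_pos_of_pos_of_lt_pi (by nlinarith [ht.1, hu.1])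
        (by nlinarith [ht.2, hu.2])).le

theorem pos1_gram {N : ℕ} (v : Fin N → ℂ) (i j k : Fin N) :
    (gram v i j * gram v j k * gram v k i).re = ‖v i‖ ^ 2 * ‖v j‖ ^ 2 * ‖v k‖ ^ 2 := by
  have h : gram v i j * gram v j k * gram v k i =
      (v i * conj (v i)) * (v j * conj (v j)) * (v k * conj (v k)) := by
    simp only [gram, Matrix.of_apply, RCLike.inner_apply']
    ring
  rw [h, Complex.mul_conj, Complex.mul_conj, Complex.mul_conj, ← Complex.ofReal_mul,
    ← Complex.ofReal_mul, Complex.ofReal_re, Complex.normSq_eq_norm_sq, Complex.normSq_eq_norm_sq,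
    Complex.normSq_eq_norm_sq]

/-- (POS1) -/
theorem pos1 : Pos1Stmt := by
  intro N v σ hσ
  refine Finset.sum_nonneg fun i _ => Finset.sum_nonneg fun j _ => Finset.sum_nonneg fun k _ => ?_
  rw [pos1_gram]
  exact mul_nonneg (by positivity) (pos1_Mker_nonneg (hσ i) (hσ j) (hσ k))

end Pool.Agent.LT
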