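import Pool.Agent.LT.Defs

/-!
# (PSDK) the kernel `sin (r (x+y)) / sin (x+y)` is positive semidefinite
-/

set_option autoImplicit false

namespace Pool.Agent.LT

open MeasureTheory Matrix Finset Filter Topology
open scoped ComplexConjugate ComplexOrder

/-- A real kernel which is positive semidefinite as a complex matrix. -/
def KP {N : ℕ} (k : Fin N → Fin N → ℝ) : Prop :=
  (Matrix.of fun i j => ((k i j : ℝ) : ℂ) : Matrix (Fin N) (Fin N) ℂ).PosSemidef

theorem quad_eq {N : ℕ} (k : Fin N → Fin N → ℝ) (hs : ∀ i j, k i j = k j i) (x : Fin N → ℂ) :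
    star x ⬝ᵥ ((Matrix.of fun i j => ((k i j : ℝ) : ℂ) : Matrix (Fin N) (Fin N) ℂ) *ᵥ x) =
      ((∑ i, ∑ j, k i j * (conj (x i) * x j).re : ℝ) : ℂ) := by
  have h1 : star x ⬝ᵥ ((Matrix.of fun i j => ((k i j : ℝ) : ℂ) :
      Matrix (Fin N) (Fin N) ℂ) *ᵥ x) = ∑ i, ∑ j, (k i j : ℂ) * (conj (x i) * x j) := by
    simp only [dotProduct, Matrix.mulVec, Matrix.of_apply, Pi.star_apply, RCLike.star_def,
      Finset.mul_sum]
    refine Finset.sum_congr rfl fun i _ => Finset.sum_congr rfl fun j _ => ?_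
    ring
  rw [h1]
  apply Complex.ext
  · simp only [Complex.re_sum, Complex.re_ofReal_mul, Complex.ofReal_re]
  · simp only [Complex.im_sum, Complex.im_ofReal_mul, Complex.ofReal_im]
    have h2 : ∑ i, ∑ j, k i j * (conj (x i) * x j).im =
        -∑ i, ∑ j, k i j * (conj (x i) * x j).im := by
      conv_lhs => rw [Finset.sum_comm]
      rw [← Finset.sum_neg_distrib]
      refine Finset.sum_congr rfl fun i _ => ?_
      rw [← Finset.sum_neg_distrib]
      refine Finset.sum_congr rfl fun j _ => ?_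
      rw [hs j i]
      simp only [Complex.mul_im, Complex.conj_re, Complex.conj_im]
      ring
    linarith

theorem kp_iff {N : ℕ} (k : Fin N → Fin N → ℝ) : KP k ↔ (∀ i j, k i j = k j i) ∧
    ∀ x : Fin N → ℂ, 0 ≤ ∑ i, ∑ j, k i j * (conj (x i) * x j).re := by
  constructor
  · intro h
    have hs : ∀ i j, k i j = k j i := by
      intro i j
      have := congrFun (congrFun h.1 i) j
      simp only [Matrix.conjTranspose_apply, Matrix.of_apply, RCLike.star_def,
        Complex.conj_ofReal] at this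
      exact_mod_cast this.symm
    refine ⟨hs, fun x => ?_⟩
    have := h.dotProduct_mulVec_nonneg x
    rw [quad_eq k hs x] at this
    exact_mod_cast this
  · rintro ⟨hs, h⟩
    refine PosSemidef.of_dotProduct_mulVec_nonneg ?_ ?_
    · ext i j
      simp only [Matrix.conjTranspose_apply, Matrix.of_apply, RCLike.star_def,
        Complex.conj_ofReal]
      rw [hs i j]
    · intro x
      rw [quad_eq k hs x]
      exact_mod_cast h x

theorem KP.congr {N : ℕ} {k l : Fin N → Fin N → ℝ} (hk : KP k) (h : ∀ i j, l i j = k i j) :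
    KP l := by
  have : l = k := by
    funext i j
    exact h i j
  rw [this]
  exact hk

theorem KP.add {N : ℕ} {k l : Fin N → Fin N → ℝ} (hk : KP k) (hl : KP l) :
    KP fun i j => k i j + l i j := by
  have h := PosSemidef.add hk hl
  have e : (Matrix.of fun i j => ((k i j + l i j : ℝ) : ℂ) : Matrix (Fin N) (Fin N) ℂ) =
      (Matrix.of fun i j => ((k i j : ℝ) : ℂ)) + (Matrix.of fun i j => ((l i j : ℝ) : ℂ)) := by
    ext i j
    simp
  unfold KP
  rw [e]
  exact h

theorem KP.mul {N : ℕ} {k l : Fin N → Fin N → ℝ} (hk : KP k) (hl : KP l) :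
    KP fun i j => k i j * l i j := by
  have h := PosSemidef.hadamard (𝕜 := ℂ) hk hl
  have e : (Matrix.of fun i j => ((k i j * l i j : ℝ) : ℂ) : Matrix (Fin N) (Fin N) ℂ) =
      (Matrix.of fun i j => ((k i j : ℝ) : ℂ)) ⊙ (Matrix.of fun i j => ((l i j : ℝ) : ℂ)) := by
    ext i j
    simp
  unfold KP
  rw [e]
  exact h

theorem kp_rank {N : ℕ} (f : Fin N → ℝ) : KP fun i j => f i * f j := by
  rw [kp_iff]
  refine ⟨fun i j => mul_comm _ _, fun x => ?_⟩
  have : ∑ i, ∑ j, f i * f j * (conj (x i) * x j).re = ‖∑ i, (f i : ℂ) * x i‖ ^ 2 := by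
    rw [← Complex.normSq_eq_norm_sq]
    have h1 : ((Complex.normSq (∑ i, (f i : ℂ) * x i) : ℝ) : ℂ) =
        ∑ i, ∑ j, ((f i * f j : ℝ) : ℂ) * (conj (x i) * x j) := by
      rw [Complex.normSq_eq_conj_mul_self, map_sum, Finset.sum_mul_sum]
      refine Finset.sum_congr rfl fun i _ => Finset.sum_congr rfl fun j _ => ?_
      rw [map_mul, Complex.conj_ofReal]
      push_cast
      ring
    have h2 := congrArg Complex.re h1
    rw [Complex.ofReal_re] at h2
    rw [h2, Complex.re_sum]
    refine Finset.sum_congr rfl fun i _ => ?_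
    rw [Complex.re_sum]
    refine Finset.sum_congr rfl fun j _ => ?_
    rw [Complex.re_ofReal_mul]
  rw [this]
  positivity

theorem KP.smul {N : ℕ} {k : Fin N → Fin N → ℝ} (hk : KP k) {c : ℝ} (hc : 0 ≤ c) :
    KP fun i j => c * k i j := by
  rw [kp_iff] at hk ⊢
  refine ⟨fun i j => by rw [hk.1 i j], fun x => ?_⟩
  have : ∑ i, ∑ j, c * k i j * (conj (x i) * x j).re =
      c * ∑ i, ∑ j, k i j * (conj (x i) * x j).re := by
    rw [Finset.mul_sum]
    refine Finset.sum_congr rfl fun i _ => ?_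
    rw [Finset.mul_sum]
    refine Finset.sum_congr rfl fun j _ => ?_
    ring
  rw [this]
  exact mul_nonneg hc (hk.2 x)

theorem kp_const {N : ℕ} {c : ℝ} (hc : 0 ≤ c) : KP fun _ _ : Fin N => c := by
  have := (kp_rank (fun _ : Fin N => (1 : ℝ))).smul hc
  exact this.congr fun i j => by ring

/-- Cauchy kernel. -/
theorem kp_cauchy {N : ℕ} (c : Fin N → ℝ) (hc : ∀ i, 0 < c i) : KP fun i j => 1 / (c i + c j) := by
  rw [kp_iff]
  refine ⟨fun i j => by rw [add_comm], fun x => ?_⟩
  have hneg : ∀ i j, -(c i + c j) < 0 := fun i j => by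
    have := hc i
    have := hc j
    linarith
  have h1 : ∀ i j, 1 / (c i + c j) * (conj (x i) * x j).re =
      ∫ s in Set.Ioi (0 : ℝ), (conj (x i) * x j).re * Real.exp (-(c i + c j) * s) := by
    intro i j
    rw [integral_const_mul, integral_exp_mul_Ioi (hneg i j)]
    have : c i + c j ≠ 0 := by
      have := hneg i j
      intro h
      linarith
    simp only [mul_zero, Real.exp_zero]
    field_simp
  have hint : ∀ i j, IntegrableOn (fun s : ℝ => (conj (x i) * x j).re *
      Real.exp (-(c i + c j) * s)) (Set.Ioi 0) := fun i j =>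
    (integrableOn_exp_mul_Ioi (hneg i j) 0).const_mul _
  have h2 : ∑ i, ∑ j, 1 / (c i + c j) * (conj (x i) * x j).re =
      ∫ s in Set.Ioi (0 : ℝ), ∑ i, ∑ j, (conj (x i) * x j).re * Real.exp (-(c i + c j) * s) := by
    rw [integral_finsetSum _ fun i _ => integrable_finsetSum _ fun j _ => hint i j]
    refine Finset.sum_congr rfl fun i _ => ?_
    rw [integral_finsetSum _ fun j _ => hint i j]
    refine Finset.sum_congr rfl fun j _ => ?_
    exact h1 i j
  rw [h2]
  refine integral_nonneg fun s => ?_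
  have h3 := ((kp_iff _).mp (kp_rank (fun i => Real.exp (-(c i) * s)))).2 x
  refine le_of_le_of_eq h3 ?_
  refine Finset.sum_congr rfl fun i _ => Finset.sum_congr rfl fun j _ => ?_
  rw [← Real.exp_add, mul_comm]
  congr 2
  ring

theorem KP.tendsto {N : ℕ} {k : ℕ → Fin N → Fin N → ℝ} {l : Fin N → Fin N → ℝ}
    (hk : ∀ n, KP (k n)) (h : ∀ i j, Tendsto (fun n => k n i j) atTop (𝓝 (l i j))) : KP l := by
  rw [kp_iff]
  refine ⟨fun i j => ?_, fun x => ?_⟩
  · refine tendsto_nhds_unique (h i j) ?_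
    refine (h j i).congr fun n => ?_
    exact ((kp_iff _).mp (hk n)).1 j i
  · have h1 : Tendsto (fun n => ∑ i, ∑ j, k n i j * (conj (x i) * x j).re) atTop
        (𝓝 (∑ i, ∑ j, l i j * (conj (x i) * x j).re)) := by
      refine tendsto_finsetSum _ fun i _ => tendsto_finsetSum _ fun j _ => ?_
      exact (h i j).mul_const _
    exact ge_of_tendsto' h1 fun n => ((kp_iff _).mp (hk n)).2 x

theorem kp_prod {N : ℕ} (k : ℕ → Fin N → Fin N → ℝ) (hk : ∀ n, KP (k n)) (n : ℕ) :
    KP fun i j => ∏ m ∈ range n, k m i j := by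
  induction n with
  | zero =>
    simp only [Finset.range_zero, Finset.prod_empty]
    exact kp_const zero_le_one
  | succ n ih =>
    simp only [Finset.prod_range_succ]
    exact ih.mul (hk n)

theorem factor_aux (A B r Q w : ℝ) (hA : A ≠ 0) (hB : B ≠ 0) (hQ : Q ≠ 0)
    (hAB : A * B = Q ^ 2 - w ^ 2) :
    (1 - r ^ 2 * w ^ 2 / Q ^ 2) / (A * B / Q ^ 2) =
      r ^ 2 + (1 - r ^ 2) * Q ^ 2 * (1 / A * (1 / B)) := by
  have h1 : 1 - r ^ 2 * w ^ 2 / Q ^ 2 = (r ^ 2 * (A * B) + (1 - r ^ 2) * Q ^ 2) / Q ^ 2 := by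
    rw [hAB]
    field_simp
    ring
  rw [h1]
  field_simp

/-- One Euler factor. `w i j = x i + x j`, `q = n + 1`. -/
theorem kp_factor {N : ℕ} (x : Fin N → ℝ) (r : ℝ) (hx : ∀ i, 0 < x i ∧ x i < Real.pi / 2)
    (hr0 : 0 < r) (hr1 : r < 1) (q : ℝ) (hq : 1 ≤ q) :
    KP fun i j => (1 - (r * (x i + x j) / Real.pi) ^ 2 / q ^ 2) /
      (1 - ((x i + x j) / Real.pi) ^ 2 / q ^ 2) := by
  have hpi := Real.pi_pos
  have h1 : KP fun i j => 1 / ((q * Real.pi / 2 - x i) + (q * Real.pi / 2 - x j)) := by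
    refine kp_cauchy (fun i => q * Real.pi / 2 - x i) fun i => ?_
    have := (hx i).2
    nlinarith
  have h2 : KP fun i j => 1 / ((q * Real.pi / 2 + x i) + (q * Real.pi / 2 + x j)) := by
    refine kp_cauchy (fun i => q * Real.pi / 2 + x i) fun i => ?_
    have := (hx i).1
    positivity
  have h3 := (kp_const (N := N) (sq_nonneg r)).add
    ((h1.mul h2).smul (c := (1 - r ^ 2) * (q * Real.pi) ^ 2) (by
      apply mul_nonneg
      · nlinarith
      · positivity))
  refine h3.congr fun i j => ?_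
  have hi := hx i
  have hj := hx j
  have hq0 : q ≠ 0 := by
    intro h
    linarith
  have ha : (q * Real.pi / 2 - x i) + (q * Real.pi / 2 - x j) ≠ 0 := by
    have : 0 < (q * Real.pi / 2 - x i) + (q * Real.pi / 2 - x j) := by nlinarith
    exact this.ne'
  have hb : (q * Real.pi / 2 + x i) + (q * Real.pi / 2 + x j) ≠ 0 := by
    have : 0 < (q * Real.pi / 2 + x i) + (q * Real.pi / 2 + x j) := by nlinarith
    exact this.ne'
  have hc : 1 - ((x i + x j) / Real.pi) ^ 2 / q ^ 2 =
      ((q * Real.pi / 2 - x i) + (q * Real.pi / 2 - x j)) *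
        ((q * Real.pi / 2 + x i) + (q * Real.pi / 2 + x j)) / (q * Real.pi) ^ 2 := by
    field_simp
    ring
  have hd : (r * (x i + x j) / Real.pi) ^ 2 / q ^ 2 =
      r ^ 2 * (x i + x j) ^ 2 / (q * Real.pi) ^ 2 := by
    field_simp
  rw [hc, hd]
  exact factor_aux _ _ r (q * Real.pi) (x i + x j) ha hb (mul_ne_zero hq0 hpi.ne') (by ring)

theorem psdKer : PsdKerStmt := by
  intro N x r hx hr0 hr1
  have hpi := Real.pi_pos
  have key : KP fun i j => Real.sin (r * (x i + x j)) / Real.sin (x i + x j) := by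
    have h1 : ∀ n : ℕ, KP fun i j => r * ∏ m ∈ range n,
        ((1 - (r * (x i + x j) / Real.pi) ^ 2 / ((m : ℝ) + 1) ^ 2) /
          (1 - ((x i + x j) / Real.pi) ^ 2 / ((m : ℝ) + 1) ^ 2)) := by
      intro n
      refine KP.smul ?_ hr0.le
      refine kp_prod (fun (m : ℕ) i j => ((1 - (r * (x i + x j) / Real.pi) ^ 2 / ((m : ℝ) + 1) ^ 2) /
          (1 - ((x i + x j) / Real.pi) ^ 2 / ((m : ℝ) + 1) ^ 2))) (fun m => ?_) n
      refine kp_factor x r hx hr0 hr1 ((m : ℝ) + 1) ?_
      have : (0 : ℝ) ≤ m := Nat.cast_nonneg m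
      linarith
    refine KP.tendsto h1 fun i j => ?_
    have hw0 : 0 < x i + x j := add_pos (hx i).1 (hx j).1
    have hw1 : x i + x j < Real.pi := by
      have := (hx i).2
      have := (hx j).2
      linarith
    have hsin : 0 < Real.sin (x i + x j) := Real.sin_pos_of_pos_of_lt_pi hw0 hw1
    have ta := Real.tendsto_euler_sin_prod (r * (x i + x j) / Real.pi)
    have tb := Real.tendsto_euler_sin_prod ((x i + x j) / Real.pi)
    have e1 : Real.pi * (r * (x i + x j) / Real.pi) = r * (x i + x j) := by field_simp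
    have e2 : Real.pi * ((x i + x j) / Real.pi) = x i + x j := by field_simp
    rw [e1] at ta
    rw [e2] at tb
    refine (ta.div tb hsin.ne').congr fun n => ?_
    simp only [Pi.div_apply]
    rw [Finset.prod_div_distrib]
    rw [show r * (x i + x j) * ∏ m ∈ range n, (1 - (r * (x i + x j) / Real.pi) ^ 2 /
      ((m : ℝ) + 1) ^ 2) = (x i + x j) * (r * ∏ m ∈ range n, (1 - (r * (x i + x j) / Real.pi) ^ 2 /
      ((m : ℝ) + 1) ^ 2)) by ring]
    rw [mul_div_mul_left _ _ hw0.ne', mul_div_assoc]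
  exact key

end Pool.Agent.LT
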