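import Pool.Agent.LT.PsdKer

/-!
# (QPOS) positivity of the cubic form with weight `(a i - a j)² sin (r a i + (1-r) a j)`
-/

set_option autoImplicit false

namespace Pool.Agent.LT

open MeasureTheory Matrix Finset Filter Topology
open scoped ComplexConjugate ComplexOrder

theorem kp_cos {N : ℕ} (b : ℝ) (a : Fin N → ℝ) : KP fun i j => Real.cos (b * (a i - a j)) := by
  refine ((kp_rank fun i => Real.cos (b * a i)).add (kp_rank fun i => Real.sin (b * a i))).congr
    fun i j => ?_
  rw [mul_sub, Real.cos_sub]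

/-- `sin (c + q w) / sin w` with `w = (a i + a j)/2`, `c ∈ (0, (1-q) π)`. -/
theorem kp_shift (h : PsdKerStmt) {N : ℕ} (a : Fin N → ℝ) (ha : ∀ i, 0 < a i ∧ a i < Real.pi)
    (q c : ℝ) (hq0 : 0 < q) (hq1 : q < 1) (hc0 : 0 < c) (hc1 : c < (1 - q) * Real.pi) :
    KP fun i j => Real.sin (c + q * ((a i + a j) / 2)) / Real.sin ((a i + a j) / 2) := by
  have hpi := Real.pi_pos
  have h1 : KP fun i j => Real.sin (q * (a i / 2 + a j / 2)) / Real.sin (a i / 2 + a j / 2) := by
    refine h N (fun i => a i / 2) q (fun i => ?_) hq0 hq1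
    have := ha i
    constructor <;> linarith
  have h2 : KP fun i j => Real.sin (q * ((Real.pi - a i) / 2 + (Real.pi - a j) / 2)) /
      Real.sin ((Real.pi - a i) / 2 + (Real.pi - a j) / 2) := by
    refine h N (fun i => (Real.pi - a i) / 2) q (fun i => ?_) hq0 hq1
    have := ha i
    constructor <;> linarith
  have hs : 0 < Real.sin (q * Real.pi) :=
    Real.sin_pos_of_pos_of_lt_pi (by positivity) (by nlinarith)
  have hA : 0 ≤ Real.sin (q * Real.pi + c) / Real.sin (q * Real.pi) := by
    refine div_nonneg (Real.sin_nonneg_of_nonneg_of_le_pi (by positivity) ?_) hs.le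
    nlinarith
  have hB : 0 ≤ Real.sin c / Real.sin (q * Real.pi) := by
    refine div_nonneg (Real.sin_nonneg_of_nonneg_of_le_pi hc0.le ?_) hs.le
    nlinarith
  refine ((h1.smul hA).add (h2.smul hB)).congr fun i j => ?_
  have hi := ha i
  have hj := ha j
  have hw : 0 < Real.sin ((a i + a j) / 2) :=
    Real.sin_pos_of_pos_of_lt_pi (by linarith) (by linarith)
  have e1 : a i / 2 + a j / 2 = (a i + a j) / 2 := by ring
  have e2 : (Real.pi - a i) / 2 + (Real.pi - a j) / 2 = Real.pi - (a i + a j) / 2 := by ring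
  rw [e1, e2, Real.sin_pi_sub]
  have e3 : Real.sin (q * (Real.pi - (a i + a j) / 2)) =
      Real.sin (q * Real.pi) * Real.cos (q * ((a i + a j) / 2)) -
        Real.cos (q * Real.pi) * Real.sin (q * ((a i + a j) / 2)) := by
    rw [mul_sub, Real.sin_sub]
  rw [e3, Real.sin_add c, Real.sin_add (q * Real.pi)]
  field_simp
  ring

/-- The kernel for a fixed index `k` with `al = a k`. -/
theorem kp_main (h : PsdKerStmt) {N : ℕ} (a : Fin N → ℝ) (ha : ∀ i, 0 < a i ∧ a i < Real.pi)
    (al : ℝ) (hal0 : 0 < al) (hal1 : al < Real.pi) (r : ℝ) (hr0 : 0 < r) (hr1 : r < 1) :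
    KP fun i j => (Real.sin (r * al + (1 - r) * a i) + Real.sin (r * al + (1 - r) * a j)) /
      Real.sin ((a i + a j) / 2) := by
  have h1 := kp_shift h a ha (1 - r) (r * al) (by linarith) (by linarith) (by positivity)
    (by nlinarith)
  have h2 := (h1.mul (kp_cos ((1 - r) / 2) a)).smul (c := 2) (by norm_num)
  refine h2.congr fun i j => ?_
  have e : Real.sin (r * al + (1 - r) * a i) + Real.sin (r * al + (1 - r) * a j) =
      2 * (Real.sin (r * al + (1 - r) * ((a i + a j) / 2)) *
        Real.cos ((1 - r) / 2 * (a i - a j))) := by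
    have e1 : r * al + (1 - r) * a i =
        (r * al + (1 - r) * ((a i + a j) / 2)) + (1 - r) / 2 * (a i - a j) := by ring
    have e2 : r * al + (1 - r) * a j =
        (r * al + (1 - r) * ((a i + a j) / 2)) - (1 - r) / 2 * (a i - a j) := by ring
    rw [e1, e2, Real.sin_add, Real.sin_sub]
    ring
  rw [e]
  ring

theorem sum3_swap12 {N : ℕ} (g : Fin N → Fin N → Fin N → ℝ) :
    ∑ i, ∑ j, ∑ k, g i j k = ∑ i, ∑ j, ∑ k, g j i k := Finset.sum_comm

theorem sum3_swap23 {N : ℕ} (g : Fin N → Fin N → Fin N → ℝ) :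
    ∑ i, ∑ j, ∑ k, g i j k = ∑ i, ∑ j, ∑ k, g i k j :=
  Finset.sum_congr rfl fun _ _ => Finset.sum_comm

theorem sum3_swap13 {N : ℕ} (g : Fin N → Fin N → Fin N → ℝ) :
    ∑ i, ∑ j, ∑ k, g i j k = ∑ i, ∑ j, ∑ k, g k j i := by
  rw [sum3_swap12 g, sum3_swap23 fun i j k => g j i k, sum3_swap12 fun i j k => g k i j]

theorem qpos (h : PsdKerStmt) : QPosStmt := by
  intro N P hP a ha r hr0 hr1
  set s : Fin N → Fin N → ℝ := fun i j => Real.sin ((a i + a j) / 2) with hs
  have hs0 : ∀ i j, 0 < s i j := by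
    intro i j
    have hi := ha i
    have hj := ha j
    exact Real.sin_pos_of_pos_of_lt_pi (by linarith) (by linarith)
  have hss : ∀ i j, s i j = s j i := by
    intro i j
    simp only [hs, add_comm]
  have hPc : ∀ i j, P j i = conj (P i j) := by
    intro i j
    have := congrFun (congrFun hP.1 j) i
    rw [← this, Matrix.conjTranspose_apply]
    rfl
  set T : Fin N → Fin N → Fin N → ℝ := fun i j k => (P i j * P j k * P k i).re /
    (s i j * s j k * s k i) with hT
  have hTc : ∀ i j k, T i j k = T j k i := by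
    intro i j k
    simp only [hT]
    rw [show P j k * P k i * P i j = P i j * P j k * P k i by ring,
      show s j k * s k i * s i j = s i j * s j k * s k i by ring]
  have hTs : ∀ i j k, T i j k = T j i k := by
    intro i j k
    simp only [hT]
    have e1 : (P j i * P i k * P k j).re = (P i j * P j k * P k i).re := by
      have : P j i * P i k * P k j = conj (P i j * P j k * P k i) := by
        rw [map_mul, map_mul, ← hPc, ← hPc, ← hPc]
        ring
      rw [this, Complex.conj_re]
    rw [e1, hss j i, hss i k, hss k j]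
    congr 1
    ring
  set S : Fin N → Fin N → ℝ := fun i j => Real.sin (r * a i + (1 - r) * a j) with hS
  set F : Fin N → Fin N → ℝ := fun i j => (S i j + S j i) / 2 with hF
  have hFs : ∀ i j, F i j = F j i := by
    intro i j
    simp only [hF, add_comm]
  have hgoal : ∑ i, ∑ j, ∑ k, (P i j * P j k * P k i).re /
      (Real.sin ((a i + a j) / 2) * Real.sin ((a j + a k) / 2) * Real.sin ((a k + a i) / 2)) *
      ((a i - a j) ^ 2 * Real.sin (r * a i + (1 - r) * a j)) =
      ∑ i, ∑ j, ∑ k, T i j k * ((a k - a i) * (a k - a j) * (F k i + F k j)) := by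
    have h1 : ∑ i, ∑ j, ∑ k, T i j k * ((a i - a j) ^ 2 * S i j) =
        ∑ i, ∑ j, ∑ k, T i j k * ((a i - a j) ^ 2 * F i j) := by
      have h2 : ∑ i, ∑ j, ∑ k, T i j k * ((a i - a j) ^ 2 * S i j) =
          ∑ i, ∑ j, ∑ k, T i j k * ((a i - a j) ^ 2 * S j i) := by
        rw [sum3_swap12]
        refine Finset.sum_congr rfl fun i _ => Finset.sum_congr rfl fun j _ =>
          Finset.sum_congr rfl fun k _ => ?_
        rw [← hTs i j k]
        ring
      have h3 : ∑ i, ∑ j, ∑ k, T i j k * ((a i - a j) ^ 2 * F i j) =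
          (∑ i, ∑ j, ∑ k, T i j k * ((a i - a j) ^ 2 * S i j) +
            ∑ i, ∑ j, ∑ k, T i j k * ((a i - a j) ^ 2 * S j i)) / 2 := by
        rw [← Finset.sum_add_distrib, Finset.sum_div]
        refine Finset.sum_congr rfl fun i _ => ?_
        rw [← Finset.sum_add_distrib, Finset.sum_div]
        refine Finset.sum_congr rfl fun j _ => ?_
        rw [← Finset.sum_add_distrib, Finset.sum_div]
        refine Finset.sum_congr rfl fun k _ => ?_
        simp only [hF]
        ring
      rw [h3, ← h2]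
      ring
    have h4 : ∑ i, ∑ j, ∑ k, T i j k * ((a i - a j) ^ 2 * F i j) =
        ∑ i, ∑ j, ∑ k, T i j k * ((a i - a j) * (a i - a k) * F i j) +
        ∑ i, ∑ j, ∑ k, T i j k * ((a j - a i) * (a j - a k) * F i j) := by
      rw [← Finset.sum_add_distrib]
      refine Finset.sum_congr rfl fun i _ => ?_
      rw [← Finset.sum_add_distrib]
      refine Finset.sum_congr rfl fun j _ => ?_
      rw [← Finset.sum_add_distrib]
      refine Finset.sum_congr rfl fun k _ => ?_
      ring
    have h5 : ∑ i, ∑ j, ∑ k, T i j k * ((a i - a j) * (a i - a k) * F i j) =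
        ∑ i, ∑ j, ∑ k, T i j k * ((a k - a i) * (a k - a j) * F k j) := by
      rw [sum3_swap13]
      refine Finset.sum_congr rfl fun i _ => Finset.sum_congr rfl fun j _ =>
        Finset.sum_congr rfl fun k _ => ?_
      have : T k j i = T i j k := by
        rw [hTs k j i, hTc j k i, hTc k i j]
      rw [this]
      ring
    have h6 : ∑ i, ∑ j, ∑ k, T i j k * ((a j - a i) * (a j - a k) * F i j) =
        ∑ i, ∑ j, ∑ k, T i j k * ((a k - a i) * (a k - a j) * F k i) := by
      rw [sum3_swap23]
      refine Finset.sum_congr rfl fun i _ => Finset.sum_congr rfl fun j _ =>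
        Finset.sum_congr rfl fun k _ => ?_
      have : T i k j = T i j k := by
        rw [hTs i k j, hTc k i j]
      rw [this, hFs i k]
    calc _ = ∑ i, ∑ j, ∑ k, T i j k * ((a i - a j) ^ 2 * S i j) := rfl
      _ = _ := by
        rw [h1, h4, h5, h6, ← Finset.sum_add_distrib]
        refine Finset.sum_congr rfl fun i _ => ?_
        rw [← Finset.sum_add_distrib]
        refine Finset.sum_congr rfl fun j _ => ?_
        rw [← Finset.sum_add_distrib]
        refine Finset.sum_congr rfl fun k _ => ?_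
        ring
  rw [hgoal]
  have hsum : ∑ i, ∑ j, ∑ k, T i j k * ((a k - a i) * (a k - a j) * (F k i + F k j)) =
      ∑ k, ∑ i, ∑ j, T i j k * ((a k - a i) * (a k - a j) * (F k i + F k j)) := by
    calc _ = ∑ i, ∑ k, ∑ j, T i j k * ((a k - a i) * (a k - a j) * (F k i + F k j)) :=
          Finset.sum_congr rfl fun i _ => Finset.sum_comm
      _ = _ := Finset.sum_comm
  rw [hsum]
  refine Finset.sum_nonneg fun k _ => ?_
  have hk := ha k
  have hK1 := kp_main h a ha (a k) hk.1 hk.2 r hr0 hr1
  have hK2 := kp_main h a ha (a k) hk.1 hk.2 (1 - r) (by linarith) (by linarith)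
  have hK : KP fun i j => (F k i + F k j) / s i j := by
    refine ((hK1.add hK2).smul (c := 1 / 2) (by norm_num)).congr fun i j => ?_
    simp only [hF, hS, hs]
    have e : ∀ i, (1 - r) * a k + (1 - (1 - r)) * a i = r * a i + (1 - r) * a k := fun i => by ring
    rw [e i, e j]
    ring
  have hPK := PosSemidef.hadamard (𝕜 := ℂ) hP hK
  set u : Fin N → ℂ := fun j => ((a k - a j : ℝ) : ℂ) * P j k / ((s j k : ℝ) : ℂ) with hu
  have hq := hPK.dotProduct_mulVec_nonneg u
  have hre := (Complex.le_def.mp hq).1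
  rw [Complex.zero_re] at hre
  refine le_of_le_of_eq hre ?_
  simp only [dotProduct, Matrix.mulVec, Pi.star_apply, Finset.mul_sum, Complex.re_sum]
  refine Finset.sum_congr rfl fun i _ => Finset.sum_congr rfl fun j _ => ?_
  rw [Matrix.hadamard_apply, Matrix.of_apply]
  have hc : star (u i) = ((a k - a i : ℝ) : ℂ) * P k i / ((s i k : ℝ) : ℂ) := by
    simp only [hu]
    rw [RCLike.star_def, map_div₀, map_mul, Complex.conj_ofReal, Complex.conj_ofReal, ← hPc]
  rw [hc]
  have e : ((a k - a i : ℝ) : ℂ) * P k i / ((s i k : ℝ) : ℂ) *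
      (P i j * (((F k i + F k j) / s i j : ℝ) : ℂ) * u j) =
      (((a k - a i) * (a k - a j) * (F k i + F k j) / (s i j * s j k * s k i) : ℝ) : ℂ) *
        (P i j * P j k * P k i) := by
    simp only [hu]
    rw [hss i k]
    push_cast
    have z1 : ((s i j : ℝ) : ℂ) ≠ 0 := by exact_mod_cast (hs0 i j).ne'
    have z2 : ((s j k : ℝ) : ℂ) ≠ 0 := by exact_mod_cast (hs0 j k).ne'
    have z3 : ((s k i : ℝ) : ℂ) ≠ 0 := by exact_mod_cast (hs0 k i).ne'
    field_simp
  rw [e, Complex.re_ofReal_mul]
  simp only [hT]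
  ring

end Pool.Agent.LT
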