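import Pool.Agent.LT.Defs2

/-!
# (SLICE) a test function on `ℝ × ℝ^d` as an `H¹` function with values in `L²(ℝ^d)`   (helper50)
-/

set_option autoImplicit false

namespace Pool.Agent.LT

open MeasureTheory Matrix Finset
open scoped ComplexConjugate ComplexOrder ContDiff

namespace Slice

variable {d : ℕ}

lemma continuous_cons : Continuous fun p : ℝ × (Fin d → ℝ) => (Fin.cons p.1 p.2 : Fin (d + 1) → ℝ) := by
  refine continuous_pi fun i => ?_
  refine Fin.cases ?_ (fun j => ?_) i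
  · simpa using continuous_fst
  · exact (continuous_apply j).comp continuous_snd

lemma le_norm_cons_left (x : ℝ) (y : Fin d → ℝ) : ‖x‖ ≤ ‖(Fin.cons x y : Fin (d + 1) → ℝ)‖ := by
  have := norm_le_pi_norm (Fin.cons x y : Fin (d + 1) → ℝ) 0
  simpa using this

lemma le_norm_cons_right (x : ℝ) (y : Fin d → ℝ) : ‖y‖ ≤ ‖(Fin.cons x y : Fin (d + 1) → ℝ)‖ := by
  refine (pi_norm_le_iff_of_nonneg (norm_nonneg _)).2 fun j => ?_
  have := norm_le_pi_norm (Fin.cons x y : Fin (d + 1) → ℝ) j.succ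
  simpa using this

/-- continuous, vanishing outside the ball of radius `R` -/
structure Sup {E : Type} [NormedAddCommGroup E] (R : ℝ) (g : (Fin (d + 1) → ℝ) → E) : Prop where
  cont : Continuous g
  zero : ∀ z, R < ‖z‖ → g z = 0

lemma exists_Sup {E : Type} [NormedAddCommGroup E] {g : (Fin (d + 1) → ℝ) → E} (hg : Continuous g)
    (hc : HasCompactSupport g) : ∃ R, Sup R g := by
  obtain ⟨R, hR⟩ := hc.isCompact.isBounded.subset_closedBall 0
  refine ⟨R, hg, fun z hz => ?_⟩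
  apply image_eq_zero_of_notMem_tsupport
  intro h
  have := hR h
  rw [mem_closedBall_zero_iff] at this
  exact absurd this (not_le.2 hz)

lemma Sup.uc {E : Type} [NormedAddCommGroup E] {R : ℝ} {g : (Fin (d + 1) → ℝ) → E} (h : Sup R g) :
    UniformContinuous g := by
  have hc : HasCompactSupport g := HasCompactSupport.intro (isCompact_closedBall (0 : Fin (d + 1) → ℝ) R)
    fun z hz => h.zero z (by rw [mem_closedBall_zero_iff] at hz; exact not_le.1 hz)
  exact hc.uniformContinuous_of_continuous h.cont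

lemma Sup.slice_cont {E : Type} [NormedAddCommGroup E] {R : ℝ} {g : (Fin (d + 1) → ℝ) → E} (h : Sup R g)
    (x : ℝ) : Continuous fun y : Fin d → ℝ => g (Fin.cons x y) :=
  h.cont.comp (continuous_cons.comp (Continuous.prodMk_right x))

lemma Sup.slice_zero {E : Type} [NormedAddCommGroup E] {R : ℝ} {g : (Fin (d + 1) → ℝ) → E} (h : Sup R g)
    (x : ℝ) (y : Fin d → ℝ) (hy : R < ‖y‖) : g (Fin.cons x y) = 0 :=
  h.zero _ (hy.trans_le (le_norm_cons_right x y))

lemma Sup.slice_zero' {E : Type} [NormedAddCommGroup E] {R : ℝ} {g : (Fin (d + 1) → ℝ) → E} (h : Sup R g)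
    (x : ℝ) (y : Fin d → ℝ) (hx : R < ‖x‖) : g (Fin.cons x y) = 0 :=
  h.zero _ (hx.trans_le (le_norm_cons_left x y))

lemma Sup.slice_hcs {E : Type} [NormedAddCommGroup E] {R : ℝ} {g : (Fin (d + 1) → ℝ) → E} (h : Sup R g)
    (x : ℝ) : HasCompactSupport fun y : Fin d → ℝ => g (Fin.cons x y) :=
  HasCompactSupport.intro (isCompact_closedBall (0 : Fin d → ℝ) R)
    fun y hy => h.slice_zero x y (by rw [mem_closedBall_zero_iff] at hy; exact not_le.1 hy)

lemma Sup.memLp {R : ℝ} {g : (Fin (d + 1) → ℝ) → ℂ} (h : Sup R g) (x : ℝ) :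
    MemLp (fun y : Fin d → ℝ => g (Fin.cons x y)) 2 volume :=
  (h.slice_cont x).memLp_of_hasCompactSupport (h.slice_hcs x)

/-- the slice as an element of `L²` -/
noncomputable def sl {R : ℝ} {g : (Fin (d + 1) → ℝ) → ℂ} (h : Sup R g) (x : ℝ) :
    Lp ℂ 2 (volume : Measure (Fin d → ℝ)) := (h.memLp x).toLp _

/-- volume factor -/
noncomputable def vR (d : ℕ) (R : ℝ) : ℝ :=
  (volume (Metric.closedBall (0 : Fin d → ℝ) R)).toReal ^ ((2 : ENNReal).toReal⁻¹)

lemma vR_nonneg (d : ℕ) (R : ℝ) : 0 ≤ vR d R := Real.rpow_nonneg ENNReal.toReal_nonneg _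

lemma norm_toLp_le {u : (Fin d → ℝ) → ℂ} (hu : MemLp u 2 volume) {R c : ℝ}
    (hR : ∀ y, R < ‖y‖ → u y = 0) (hc : ∀ y, ‖u y‖ ≤ c) (h0 : 0 ≤ c) :
    ‖hu.toLp u‖ ≤ vR d R * c := by
  rw [Lp.norm_toLp]
  have h1 : eLpNorm u 2 volume = eLpNorm u 2 (volume.restrict (Metric.closedBall (0 : Fin d → ℝ) R)) := by
    rw [eLpNorm_restrict_eq_of_support_subset]
    intro y hy
    rw [mem_closedBall_zero_iff]
    by_contra hcon
    exact hy (hR y (not_le.1 hcon))
  have h2 : eLpNorm u 2 (volume.restrict (Metric.closedBall (0 : Fin d → ℝ) R)) ≤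
      (volume (Metric.closedBall (0 : Fin d → ℝ) R)) ^ ((2 : ENNReal).toReal⁻¹) * ENNReal.ofReal c := by
    have := eLpNorm_le_of_ae_bound (p := 2) (μ := volume.restrict (Metric.closedBall (0 : Fin d → ℝ) R))
      (f := u) (C := c) (Filter.Eventually.of_forall hc)
    rwa [Measure.restrict_apply_univ] at this
  have h3 : (volume (Metric.closedBall (0 : Fin d → ℝ) R)) ≠ ⊤ :=
    (isCompact_closedBall (0 : Fin d → ℝ) R).measure_lt_top.ne
  rw [h1]
  refine (ENNReal.toReal_mono ?_ h2).trans ?_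
  · exact ENNReal.mul_ne_top (ENNReal.rpow_ne_top_of_nonneg (by positivity) h3) ENNReal.ofReal_ne_top
  · rw [ENNReal.toReal_mul, ENNReal.toReal_ofReal h0, vR, ENNReal.toReal_rpow]

lemma sl_continuous {R : ℝ} {g : (Fin (d + 1) → ℝ) → ℂ} (h : Sup R g) : Continuous (sl h) := by
  rw [Metric.continuous_iff]
  intro x ε hε
  have hv := vR_nonneg d R
  obtain ⟨δ, hδ, hg⟩ := Metric.uniformContinuous_iff.1 h.uc (ε / (2 * (vR d R + 1))) (by positivity)
  refine ⟨δ, hδ, fun x' hx' => ?_⟩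
  rw [dist_eq_norm, sl, sl, ← MemLp.toLp_sub]
  refine (norm_toLp_le _ (R := R) (c := ε / (2 * (vR d R + 1))) ?_ ?_ (by positivity)).trans_lt ?_
  · intro y hy
    simp only [Pi.sub_apply, h.slice_zero _ y hy, sub_zero]
  · intro y
    simp only [Pi.sub_apply]
    rw [← dist_eq_norm]
    refine (hg ?_).le
    rw [dist_pi_lt_iff hδ]
    refine Fin.cases ?_ (fun j => ?_)
    · simpa using hx'
    · simpa using hδ
  · have : vR d R * (ε / (2 * (vR d R + 1))) ≤ ε / 2 := by
      rw [mul_div_assoc', div_le_div_iff₀ (by positivity) (by positivity)]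
      nlinarith
    linarith

lemma hasDerivAt_cons (x : ℝ) (y : Fin d → ℝ) :
    HasDerivAt (fun s : ℝ => (Fin.cons s y : Fin (d + 1) → ℝ)) (Pi.single 0 1) x := by
  rw [hasDerivAt_pi]
  refine Fin.cases ?_ (fun j => ?_)
  · simpa using hasDerivAt_id' x
  · simpa using hasDerivAt_const x (y j)

lemma sl_hasDerivAt {R : ℝ} {f g : (Fin (d + 1) → ℝ) → ℂ} (hf : Sup R f) (hg : Sup R g)
    (hfg : ∀ z, HasDerivAt (fun s => f (Fin.cons s (Fin.tail z))) (g z) (z 0)) (x : ℝ) :
    HasDerivAt (sl hf) (sl hg x) x := by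
  rw [hasDerivAt_iff_isLittleO, Asymptotics.isLittleO_iff]
  intro ε hε
  have hv := vR_nonneg d R
  obtain ⟨δ, hδ, hg'⟩ := Metric.uniformContinuous_iff.1 hg.uc (ε / (vR d R + 1)) (by positivity)
  filter_upwards [Metric.ball_mem_nhds x hδ] with x' hx'
  have hderiv : ∀ y : Fin d → ℝ, ∀ s : ℝ, HasDerivAt (fun s => f (Fin.cons s y)) (g (Fin.cons s y)) s := by
    intro y s
    have := hfg (Fin.cons s y)
    simpa using this
  have hb : ∀ y : Fin d → ℝ, ‖f (Fin.cons x' y) - f (Fin.cons x y) - (x' - x) • g (Fin.cons x y)‖ ≤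
      ε / (vR d R + 1) * ‖x' - x‖ := by
    intro y
    have h1 : ∀ s ∈ Metric.ball x δ, HasDerivWithinAt (fun s => f (Fin.cons s y) - s • g (Fin.cons x y))
        (g (Fin.cons s y) - (1 : ℝ) • g (Fin.cons x y)) (Metric.ball x δ) s := by
      intro s _
      exact ((hderiv y s).sub ((hasDerivAt_id s).smul_const (g (Fin.cons x y)))).hasDerivWithinAt
    have h2 : ∀ s ∈ Metric.ball x δ, ‖g (Fin.cons s y) - (1 : ℝ) • g (Fin.cons x y)‖ ≤ ε / (vR d R + 1) := by
      intro s hs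
      rw [one_smul, ← dist_eq_norm]
      refine (hg' ?_).le
      rw [dist_pi_lt_iff hδ]
      refine Fin.cases ?_ (fun j => ?_)
      · simpa using hs
      · simpa using hδ
    have h3 := (convex_ball x δ).norm_image_sub_le_of_norm_hasDerivWithin_le h1 h2
      (Metric.mem_ball_self hδ) hx'
    refine le_trans (le_of_eq ?_) h3
    congr 1
    module
  have he : sl hf x' - sl hf x - (x' - x) • sl hg x =
      (((hf.memLp x').sub (hf.memLp x)).sub ((hg.memLp x).const_smul (x' - x))).toLp _ := by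
    rw [MemLp.toLp_sub ((hf.memLp x').sub (hf.memLp x)) ((hg.memLp x).const_smul (x' - x)),
      MemLp.toLp_sub (hf.memLp x') (hf.memLp x), MemLp.toLp_const_smul]
    rfl
  rw [he]
  refine (norm_toLp_le _ (R := R) (c := ε / (vR d R + 1) * ‖x' - x‖) ?_ ?_ (by positivity)).trans ?_
  · intro y hy
    simp only [Pi.sub_apply, Pi.smul_apply, hf.slice_zero _ y hy, hg.slice_zero _ y hy, sub_zero, smul_zero]
  · intro y
    simp only [Pi.sub_apply, Pi.smul_apply]
    exact hb y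
  · rw [← mul_assoc]
    refine mul_le_mul_of_nonneg_right ?_ (norm_nonneg _)
    rw [mul_div_assoc', div_le_iff₀ (by positivity)]
    nlinarith

lemma fderiv_Sup {R : ℝ} {f : (Fin (d + 1) → ℝ) → ℂ} (hf : ContDiff ℝ ∞ f) (hs : Sup R f) (v : Fin (d + 1) → ℝ) :
    Sup R (fun z => fderiv ℝ f z v) := by
  refine ⟨?_, fun z hz => ?_⟩
  · exact (hf.continuous_fderiv (by simp)).clm_apply continuous_const
  · have h1 : f =ᶠ[nhds z] fun _ => 0 := by
      have : {z : Fin (d + 1) → ℝ | R < ‖z‖} ∈ nhds z := (isOpen_lt continuous_const continuous_norm).mem_nhds hz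
      filter_upwards [this] with w hw using hs.zero w hw
    rw [h1.fderiv_eq]
    simp

/-- Fubini -/
lemma integral_cons {F : (Fin (d + 1) → ℝ) → ℝ} {R : ℝ} (h : Sup R F) :
    (Integrable fun x : ℝ => ∫ y : Fin d → ℝ, F (Fin.cons x y)) ∧
      ∫ z, F z = ∫ x : ℝ, ∫ y : Fin d → ℝ, F (Fin.cons x y) := by
  have h1 : ∫ z, F z = ∫ p : ℝ × (Fin d → ℝ), F (Fin.cons p.1 p.2) := by
    rw [← ((volume_preserving_piFinSuccAbove (fun _ : Fin (d + 1) => ℝ) 0).symm).integral_comp']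
    simp_rw [MeasurableEquiv.piFinSuccAbove_symm_apply, Fin.insertNthEquiv, Fin.insertNth_zero]
    rfl
  have h2 : Integrable (fun p : ℝ × (Fin d → ℝ) => F (Fin.cons p.1 p.2)) := by
    apply (h.cont.comp continuous_cons).integrable_of_hasCompactSupport
    apply HasCompactSupport.intro (isCompact_closedBall (0 : ℝ × (Fin d → ℝ)) R)
    intro p hp
    rw [mem_closedBall_zero_iff, not_le, Prod.norm_def, lt_max_iff] at hp
    rcases hp with hp | hp
    · exact h.slice_zero' _ _ hp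
    · exact h.slice_zero _ _ hp
  exact ⟨h2.integral_prod_left, by rw [h1, Measure.volume_eq_prod, integral_prod _ h2]⟩

lemma Sup.normSq {R : ℝ} {g : (Fin (d + 1) → ℝ) → ℂ} (h : Sup R g) : Sup R (fun z => ‖g z‖ ^ 2) :=
  ⟨h.cont.norm.pow 2, fun z hz => by rw [h.zero z hz]; simp⟩

lemma norm_sl_sq {R : ℝ} {g : (Fin (d + 1) → ℝ) → ℂ} (h : Sup R g) (x : ℝ) :
    ‖sl h x‖ ^ 2 = ∫ y : Fin d → ℝ, ‖g (Fin.cons x y)‖ ^ 2 := by
  have h1 : ‖sl h x‖ ^ 2 = (inner ℂ (sl h x) (sl h x) : ℂ).re := by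
    rw [← inner_self_eq_norm_sq (𝕜 := ℂ)]; rfl
  have h2 : (inner ℂ (sl h x) (sl h x) : ℂ) = ∫ y : Fin d → ℝ, ((‖g (Fin.cons x y)‖ ^ 2 : ℝ) : ℂ) := by
    rw [L2.inner_def]
    apply integral_congr_ae
    filter_upwards [(h.memLp x).coeFn_toLp] with y hy
    have : (sl h x : (Fin d → ℝ) → ℂ) y = g (Fin.cons x y) := hy
    rw [this, inner_self_eq_norm_sq_to_K]
    push_cast; rfl
  rw [h1, h2]
  have h3 := integral_ofReal (𝕜 := ℂ) (μ := (volume : Measure (Fin d → ℝ)))
    (f := fun y => ‖g (Fin.cons x y)‖ ^ 2)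
  exact (congrArg Complex.re h3).trans (Complex.ofReal_re _)

lemma fderiv_slice {f : (Fin (d + 1) → ℝ) → ℂ} (hf : ContDiff ℝ ∞ f) (x : ℝ) (y : Fin d → ℝ) (j : Fin d) :
    fderiv ℝ (fun y : Fin d → ℝ => f (Fin.cons x y)) y (Pi.single j 1) =
      fderiv ℝ f (Fin.cons x y) (Pi.single j.succ 1) := by
  have h1 : HasFDerivAt f (fderiv ℝ f (Fin.cons x y)) (Fin.cons x y) :=
    (hf.differentiable (by simp) _).hasFDerivAt
  have hline : HasDerivAt (fun s : ℝ => (Fin.cons x (y + s • Pi.single j (1 : ℝ)) : Fin (d + 1) → ℝ))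
      (Pi.single j.succ 1) 0 := by
    rw [hasDerivAt_pi]
    refine Fin.cases ?_ (fun i => ?_)
    · simpa using hasDerivAt_const (0 : ℝ) x
    · have h2 : HasDerivAt (fun s : ℝ => y i + s * (Pi.single j (1 : ℝ) : Fin d → ℝ) i)
          (1 * (Pi.single j (1 : ℝ) : Fin d → ℝ) i) 0 :=
        ((hasDerivAt_id' (0 : ℝ)).mul_const _).const_add _
      have h3 : (Pi.single j.succ (1 : ℝ) : Fin (d + 1) → ℝ) i.succ = 1 * (Pi.single j (1 : ℝ) : Fin d → ℝ) i := by
        rw [Pi.single_apply, Pi.single_apply]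
        simp
      rw [h3]
      simpa using h2
  have hA : HasDerivAt (fun s : ℝ => f (Fin.cons x (y + s • Pi.single j (1 : ℝ))))
      (fderiv ℝ f (Fin.cons x y) (Pi.single j.succ 1)) 0 := by
    have h1' : HasFDerivAt f (fderiv ℝ f (Fin.cons x y)) (Fin.cons x (y + (0 : ℝ) • Pi.single j (1 : ℝ))) := by
      simpa using h1
    exact h1'.comp_hasDerivAt 0 hline
  have hslice : Differentiable ℝ (fun y : Fin d → ℝ => f (Fin.cons x y)) := by
    have hc : ContDiff ℝ ∞ (fun y : Fin d → ℝ => (Fin.cons x y : Fin (d + 1) → ℝ)) := by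
      rw [contDiff_pi]
      refine Fin.cases ?_ (fun i => ?_)
      · simpa using contDiff_const
      · simpa using contDiff_apply ℝ ℝ i
    exact (hf.comp hc).differentiable (by simp)
  have hB : HasDerivAt (fun s : ℝ => f (Fin.cons x (y + s • Pi.single j (1 : ℝ))))
      (fderiv ℝ (fun y : Fin d → ℝ => f (Fin.cons x y)) y (Pi.single j 1)) 0 := by
    have h2 : HasDerivAt (fun s : ℝ => y + s • (Pi.single j (1 : ℝ) : Fin d → ℝ)) (Pi.single j 1) 0 := by
      have := ((hasDerivAt_id' (0 : ℝ)).smul_const (Pi.single j (1 : ℝ) : Fin d → ℝ)).const_add y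
      simpa using this
    have h3 : HasFDerivAt (fun y : Fin d → ℝ => f (Fin.cons x y))
        (fderiv ℝ (fun y : Fin d → ℝ => f (Fin.cons x y)) y) (y + (0 : ℝ) • Pi.single j (1 : ℝ)) := by
      simpa using (hslice y).hasFDerivAt
    exact h3.comp_hasDerivAt 0 h2
  exact hB.unique hA

lemma contDiff_slice {f : (Fin (d + 1) → ℝ) → ℂ} (hf : ContDiff ℝ ∞ f) (x : ℝ) :
    ContDiff ℝ ∞ (fun y : Fin d → ℝ => f (Fin.cons x y)) := by
  have hc : ContDiff ℝ ∞ (fun y : Fin d → ℝ => (Fin.cons x y : Fin (d + 1) → ℝ)) := by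
    rw [contDiff_pi]
    refine Fin.cases ?_ (fun i => ?_)
    · simpa using contDiff_const
    · simpa using contDiff_apply ℝ ℝ i
  exact hf.comp hc

end Slice

open Slice in
theorem slice : SliceStmt := by
  intro d f hf
  obtain ⟨R, hR⟩ := exists_Sup hf.1.continuous hf.2
  have hg := fderiv_Sup hf.1 hR (Pi.single 0 1)
  have hder : ∀ z, HasDerivAt (fun s => f (Fin.cons s (Fin.tail z))) (fderiv ℝ f z (Pi.single 0 1)) (z 0) := by
    intro z
    have h1 : HasFDerivAt f (fderiv ℝ f z) (Fin.cons (z 0) (Fin.tail z)) := by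
      rw [Fin.cons_self_tail]; exact (hf.1.differentiable (by simp) _).hasFDerivAt
    exact h1.comp_hasDerivAt (z 0) (hasDerivAt_cons (z 0) (Fin.tail z))
  have hcs : ∀ {g : (Fin (d + 1) → ℝ) → ℂ} (h : Sup R g), HasCompactSupport (sl h) := by
    intro g h
    apply HasCompactSupport.intro (isCompact_closedBall (0 : ℝ) R)
    intro x hx
    rw [mem_closedBall_zero_iff, not_le] at hx
    have : ‖sl h x‖ ^ 2 = 0 := by
      rw [norm_sl_sq]
      have e : ∀ y : Fin d → ℝ, ‖g (Fin.cons x y)‖ ^ 2 = 0 := fun y => by rw [h.slice_zero' x y hx]; simp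
      simp only [e, integral_zero]
    simpa using this
  refine ⟨sl hR, sl hg, ⟨?_, ?_, ?_⟩, ?_, ?_, ?_, ?_⟩
  · exact (sl_continuous hR).memLp_of_hasCompactSupport (hcs hR)
  · exact (sl_continuous hg).memLp_of_hasCompactSupport (hcs hg)
  · intro a b
    rw [intervalIntegral.integral_eq_sub_of_hasDerivAt (fun x _ => sl_hasDerivAt hR hg hder x)
      ((sl_continuous hg).intervalIntegrable a b)]
  · intro x; exact (hR.memLp x).coeFn_toLp
  · intro x; exact (hg.memLp x).coeFn_toLp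
  · intro x; exact ⟨contDiff_slice hf.1 x, hR.slice_hcs x⟩
  · have hgj : ∀ i, Sup R (fun z => ‖fderiv ℝ f z (Pi.single i 1)‖ ^ 2) := fun i =>
      (fderiv_Sup hf.1 hR (Pi.single i 1)).normSq
    simp only [kinE, Fin.sum_univ_succ]
    congr 1
    · rw [(integral_cons (hgj 0)).2]
      simp only [norm_sl_sq]
    · have e : ∀ (x : ℝ) (j : Fin d), (∫ y : Fin d → ℝ,
          ‖fderiv ℝ (fun y : Fin d → ℝ => f (Fin.cons x y)) y (Pi.single j 1)‖ ^ 2) =
          ∫ y : Fin d → ℝ, ‖fderiv ℝ f (Fin.cons x y) (Pi.single j.succ 1)‖ ^ 2 := by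
        intro x j
        simp only [fderiv_slice hf.1]
      simp only [e]
      rw [integral_finsetSum _ (fun j _ => (integral_cons (hgj j.succ)).1)]
      exact Finset.sum_congr rfl fun j _ => (integral_cons (hgj j.succ)).2

end Pool.Agent.LT
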