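import Pool.Agent.LT.Defs2

/-!
# The spectral form for all exponents `γ ≥ 1`
-/

set_option autoImplicit false

namespace Pool.Agent.LT

open MeasureTheory Matrix Finset
open scoped ComplexConjugate ComplexOrder ContDiff ENNReal

/-! ### The beta integral -/

theorem spec_beta {a s v : ℝ} (ha : 0 < a) (hs : 0 < s) (hv : 0 ≤ v) :
    ∫⁻ μ in Set.Ioi (0 : ℝ), ENNReal.ofReal (μ ^ (a - 1) * (max (v - μ) 0) ^ s) =
      ENNReal.ofReal (v ^ (a + s) * ProbabilityTheory.beta a (s + 1)) := by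
  rcases hv.eq_or_lt with rfl | hv
  · have h0 : ∀ μ ∈ Set.Ioi (0 : ℝ),
        ENNReal.ofReal (μ ^ (a - 1) * (max (0 - μ) 0) ^ s) = 0 := by
      intro μ hμ
      have : max (0 - μ) 0 = 0 := max_eq_right (by have := Set.mem_Ioi.1 hμ; linarith)
      rw [this, Real.zero_rpow hs.ne', mul_zero, ENNReal.ofReal_zero]
    rw [setLIntegral_congr_fun measurableSet_Ioi h0]
    simp [Real.zero_rpow (show a + s ≠ 0 by positivity)]
  · set B := ProbabilityTheory.beta a (s + 1) with hB
    have hB0 : 0 < B := ProbabilityTheory.beta_pos ha (by linarith)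
    have h1 : ∀ μ ∈ Set.Ioi (0 : ℝ), ENNReal.ofReal (μ ^ (a - 1) * (max (v - μ) 0) ^ s) =
        ENNReal.ofReal (v ^ (a - 1 + s) * B) *
          ProbabilityTheory.betaPDF a (s + 1) (v⁻¹ * μ) := by
      intro μ hμ
      have hμ := Set.mem_Ioi.1 hμ
      have hx : 0 < v⁻¹ * μ := by positivity
      rcases lt_or_ge μ v with h | h
      · have hx1 : v⁻¹ * μ < 1 := by
          rw [inv_mul_lt_iff₀ hv]; linarith
        rw [ProbabilityTheory.betaPDF_of_pos_lt_one hx hx1,
          ← ENNReal.ofReal_mul (by positivity)]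
        congr 1
        rw [max_eq_left (by linarith), add_sub_cancel_right]
        have e1 : μ ^ (a - 1) = v ^ (a - 1) * (v⁻¹ * μ) ^ (a - 1) := by
          rw [← Real.mul_rpow hv.le hx.le]
          congr 1
          field_simp
        have e2 : (v - μ) ^ s = v ^ s * (1 - v⁻¹ * μ) ^ s := by
          rw [← Real.mul_rpow hv.le (by linarith)]
          congr 1
          field_simp
        rw [e1, e2, Real.rpow_add hv, ← hB]
        field_simp
      · have hx1 : 1 ≤ v⁻¹ * μ := by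
          rw [le_inv_mul_iff₀ hv]; linarith
        rw [ProbabilityTheory.betaPDF_eq_zero_of_one_le hx1, mul_zero,
          max_eq_right (by linarith), Real.zero_rpow hs.ne', mul_zero, ENNReal.ofReal_zero]
    rw [setLIntegral_congr_fun measurableSet_Ioi h1,
      lintegral_const_mul' _ _ ENNReal.ofReal_ne_top]
    have h2 : ∫⁻ μ in Set.Ioi (0 : ℝ), ProbabilityTheory.betaPDF a (s + 1) (v⁻¹ * μ) =
        ∫⁻ μ, ProbabilityTheory.betaPDF a (s + 1) (v⁻¹ * μ) := by
      have h6 := lintegral_add_compl (μ := (volume : Measure ℝ))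
        (fun μ => ProbabilityTheory.betaPDF a (s + 1) (v⁻¹ * μ))
        (measurableSet_Ioi (a := (0 : ℝ)))
      rw [Set.compl_Ioi] at h6
      have h3 : ∀ μ ∈ Set.Iic (0 : ℝ), ProbabilityTheory.betaPDF a (s + 1) (v⁻¹ * μ) = 0 := by
        intro μ hμ
        apply ProbabilityTheory.betaPDF_eq_zero_of_nonpos
        exact mul_nonpos_of_nonneg_of_nonpos (by positivity) hμ
      rw [setLIntegral_congr_fun measurableSet_Iic h3, lintegral_zero, add_zero] at h6
      exact h6
    have hm : Measurable (ProbabilityTheory.betaPDF a (s + 1)) :=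
      (ProbabilityTheory.measurable_betaPDFReal a (s + 1)).ennreal_ofReal
    have h4 : ∫⁻ μ, ProbabilityTheory.betaPDF a (s + 1) (v⁻¹ * μ) = ENNReal.ofReal v := by
      have h5 := lintegral_map (μ := (volume : Measure ℝ)) hm (measurable_const_mul v⁻¹)
      rw [← h5, Real.map_volume_mul_left (by positivity), lintegral_smul_measure,
        ProbabilityTheory.lintegral_betaPDF_eq_one ha (by linarith), inv_inv,
        abs_of_pos hv]
      simp
    rw [h2, h4, ← ENNReal.ofReal_mul (by positivity)]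
    congr 1
    have e3 : v ^ (a + s) = v ^ (a - 1 + s) * v := by
      rw [← Real.rpow_add_one hv.ne']
      congr 1
      ring
    rw [e3]
    ring

theorem spec_const (d : ℕ) {γ : ℝ} (hγ : 1 < γ) :
    Lcl 1 d * ProbabilityTheory.beta (γ - 1) (1 + d / 2 + 1) =
      Lcl γ d * ProbabilityTheory.beta (γ - 1) (1 + 1) := by
  have h1 : 0 < Real.Gamma (γ + 1) := Real.Gamma_pos_of_pos (by linarith)
  have h2 : 0 < Real.Gamma (1 + 1 + (d : ℝ) / 2) := Real.Gamma_pos_of_pos (by positivity)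
  have h3 : 0 < Real.Gamma (γ + 1 + (d : ℝ) / 2) := Real.Gamma_pos_of_pos (by positivity)
  have h4 : 0 < (4 * Real.pi) ^ ((d : ℝ) / 2) := by positivity
  unfold Lcl ProbabilityTheory.beta
  have e1 : (1 : ℝ) + d / 2 + 1 = 1 + 1 + d / 2 := by ring
  have e2 : γ - 1 + (1 + 1 + (d : ℝ) / 2) = γ + 1 + d / 2 := by ring
  have e3 : γ - 1 + (1 + 1) = γ + 1 := by ring
  rw [e1, e2, e3]
  field_simp

/-! ### Eigenfunctions -/

variable {d : ℕ}

theorem spec_energy {V : (Fin d → ℝ) → ℝ} {ψ : (Fin d → ℝ) → ℂ} {E : ℝ}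
    {g : Fin d → (Fin d → ℝ) → ℂ}
    (h : (∑ i, ∫ y, conj (g i y) * g i y) + (∫ y, (V y : ℂ) * (conj (ψ y) * ψ y)) =
      E * ∫ y, conj (ψ y) * ψ y) (hn : ∫ y, conj (ψ y) * ψ y = 1) (hE : E < 0) :
    Integrable (fun y => V y * ‖ψ y‖ ^ 2) volume ∧
      E = (∑ i, ∫ y, ‖g i y‖ ^ 2) + ∫ y, V y * ‖ψ y‖ ^ 2 := by
  have e1 : ∀ i, ∫ y, conj (g i y) * g i y = ((∫ y, ‖g i y‖ ^ 2 : ℝ) : ℂ) := by
    intro i
    rw [← integral_complex_ofReal]
    congr 1
    funext y
    rw [Complex.conj_mul']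
    push_cast
    rfl
  have e2 : ∫ y, (V y : ℂ) * (conj (ψ y) * ψ y) = ((∫ y, V y * ‖ψ y‖ ^ 2 : ℝ) : ℂ) := by
    rw [← integral_complex_ofReal]
    congr 1
    funext y
    rw [Complex.conj_mul']
    push_cast
    rfl
  rw [hn, mul_one, e2] at h
  simp only [e1] at h
  have h2 : E = (∑ i, ∫ y, ‖g i y‖ ^ 2) + ∫ y, V y * ‖ψ y‖ ^ 2 := by
    have h3 := congrArg Complex.re h
    simp only [Complex.add_re, Complex.re_sum, Complex.ofReal_re] at h3
    exact h3.symm
  refine ⟨?_, h2⟩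
  by_contra hni
  rw [integral_undef hni, add_zero] at h2
  have h4 : 0 ≤ ∑ i, ∫ y, ‖g i y‖ ^ 2 := Finset.sum_nonneg fun i _ =>
    integral_nonneg fun y => by positivity
  linarith

/-- the inequality at level `μ` -/
theorem spec_level (h1 : ∀ d, 0 < d → D1 d) (hk : KinH1Stmt) (hd : 0 < d)
    {V : (Fin d → ℝ) → ℝ} {N : ℕ} {ψ : Fin N → (Fin d → ℝ) → ℂ} {E : Fin N → ℝ}
    (hE : ∀ j, IsEigenfunctionD V (ψ j) (E j)) (hneg : ∀ j, E j < 0)
    (horth : ∀ i j, ∫ y, conj (ψ i y) * ψ j y = if i = j then 1 else 0) {μ : ℝ}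
    (hW : MemLp (fun y => max (max (-V y) 0 - μ) 0) (ENNReal.ofReal (1 + d / 2)) volume) :
    ∑ j, max (|E j| - μ) 0 ≤
      2 / √3 * Lcl 1 d * ∫ y, (max (max (-V y) 0 - μ) 0) ^ (1 + (d : ℝ) / 2) := by
  classical
  choose g hg hweak using hE
  have hen : ∀ j, Integrable (fun y => V y * ‖ψ j y‖ ^ 2) volume ∧
      E j = (∑ i, ∫ y, ‖g j i y‖ ^ 2) + ∫ y, V y * ‖ψ j y‖ ^ 2 := fun j =>
    spec_energy (hweak j (ψ j) (g j) (hg j)) (by rw [horth j j, if_pos rfl]) (hneg j)
  have hnorm : ∀ j, ∫ y, ‖ψ j y‖ ^ 2 = 1 := by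
    intro j
    have h2 := horth j j
    rw [if_pos rfl] at h2
    have e1 : ∫ y, conj (ψ j y) * ψ j y = ((∫ y, ‖ψ j y‖ ^ 2 : ℝ) : ℂ) := by
      rw [← integral_complex_ofReal]
      congr 1
      funext y
      rw [Complex.conj_mul']
      push_cast
      rfl
    rw [e1] at h2
    exact_mod_cast h2
  have hψi : ∀ j, Integrable (fun y => ‖ψ j y‖ ^ 2) volume := fun j =>
    (hg j).1.integrable_norm_pow (p := 2) (by norm_num)
  set J : Finset (Fin N) := univ.filter fun j => μ < |E j| with hJ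
  set m := J.card with hm
  set e : Fin m → Fin N := fun k => ((J.equivFin.symm k : {x // x ∈ J}) : Fin N) with he
  have heJ : ∀ k, μ < |E (e k)| := fun k => by
    have h2 : e k ∈ univ.filter fun j => μ < |E j| := (J.equivFin.symm k).2
    exact (mem_filter.1 h2).2
  have hei : Function.Injective e := fun k l hkl => J.equivFin.symm.injective (Subtype.ext hkl)
  have hsum : ∑ j, max (|E j| - μ) 0 = ∑ k, (|E (e k)| - μ) := by
    have h2 : ∑ j, max (|E j| - μ) 0 = ∑ j ∈ J, (|E j| - μ) := by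
      rw [hJ, sum_filter]
      apply sum_congr rfl
      intro j _
      split_ifs with hj
      · exact max_eq_left (by linarith)
      · exact max_eq_right (by linarith)
    rw [h2, ← sum_coe_sort J (fun j => |E j| - μ)]
    exact (Equiv.sum_comp J.equivFin.symm (fun x : {x // x ∈ J} => |E x| - μ)).symm
  set W : (Fin d → ℝ) → ℝ := fun y => max (max (-V y) 0 - μ) 0 with hWdef
  have hW0 : ∀ y, 0 ≤ W y := fun y => le_max_right _ _
  obtain ⟨hint, hle⟩ := hk d hd (h1 d hd) m (fun k => ψ (e k)) (fun k => g (e k))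
    (fun k => hg (e k)) (fun i j => by
      rw [horth]
      by_cases hij : i = j
      · rw [if_pos hij, if_pos (by rw [hij])]
      · rw [if_neg hij, if_neg (fun h => hij (hei h))]) W hW hW0
  rw [hsum]
  -- sum of the energies
  have hk1 : ∀ k, |E (e k)| - μ = -(∑ i, ∫ y, ‖g (e k) i y‖ ^ 2) +
      ∫ y, (-V y - μ) * ‖ψ (e k) y‖ ^ 2 := by
    intro k
    have h2 : ∫ y, (-V y - μ) * ‖ψ (e k) y‖ ^ 2 =
        -(∫ y, V y * ‖ψ (e k) y‖ ^ 2) - μ * ∫ y, ‖ψ (e k) y‖ ^ 2 := by
      rw [← integral_neg, ← integral_const_mul, ← integral_sub]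
      · congr 1
        funext y
        ring
      · exact (hen (e k)).1.neg
      · exact (hψi (e k)).const_mul μ
    rw [h2, hnorm, abs_of_neg (hneg _)]
    linarith [(hen (e k)).2]
  simp only [hk1]
  rw [sum_add_distrib, sum_neg_distrib]
  have hint2 : ∀ k, Integrable (fun y => (-V y - μ) * ‖ψ (e k) y‖ ^ 2) volume := by
    intro k
    have h2 := (hen (e k)).1.neg.sub ((hψi (e k)).const_mul μ)
    refine h2.congr (Filter.Eventually.of_forall fun y => ?_)
    simp only [Pi.sub_apply, Pi.neg_apply]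
    ring
  rw [← integral_finsetSum _ fun k _ => hint2 k]
  have hmono : ∫ y, ∑ k, (-V y - μ) * ‖ψ (e k) y‖ ^ 2 ≤
      ∫ y, W y * ∑ k, ‖ψ (e k) y‖ ^ 2 := by
    refine integral_mono (integrable_finsetSum _ fun k _ => hint2 k) hint fun y => ?_
    simp only
    rw [← mul_sum]
    refine mul_le_mul_of_nonneg_right ?_ (sum_nonneg fun k _ => by positivity)
    rw [hWdef]
    simp only
    have h2 : -V y ≤ max (-V y) 0 := le_max_left _ _
    have h3 : max (-V y) 0 - μ ≤ max (max (-V y) 0 - μ) 0 := le_max_left _ _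
    linarith
  linarith

theorem spec_pow {v μ γ s : ℝ} (hv : 0 ≤ v) (hμ : 0 < μ) (hγ : 1 ≤ γ) (hs : 0 < s) :
    (max (v - μ) 0) ^ s ≤ (μ ^ (γ - 1))⁻¹ * v ^ (γ - 1 + s) := by
  rcases le_or_gt v μ with h | h
  · rw [max_eq_right (by linarith), Real.zero_rpow hs.ne']
    positivity
  · rw [max_eq_left (by linarith)]
    have hv0 : 0 < v := by linarith
    have h2 : (v - μ) ^ s ≤ v ^ s := Real.rpow_le_rpow (by linarith) (by linarith) hs.le
    have h3 : μ ^ (γ - 1) ≤ v ^ (γ - 1) := Real.rpow_le_rpow hμ.le h.le (by linarith)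
    have h4 : 0 < μ ^ (γ - 1) := by positivity
    rw [Real.rpow_add hv0, inv_mul_eq_div, le_div_iff₀ h4]
    calc (v - μ) ^ s * μ ^ (γ - 1) ≤ v ^ s * v ^ (γ - 1) := by
          refine mul_le_mul h2 h3 h4.le (by positivity)
      _ = _ := by ring

theorem spec (h1 : ∀ d, 0 < d → D1 d) (hk : KinH1Stmt) : AllDimStmt := by
  intro d γ hd hγ V hV N ψ E hE hneg horth
  have hs0 : (0 : ℝ) < 1 + d / 2 := by positivity
  -- integrability of the power of the negative part
  have hp0 : ENNReal.ofReal (γ + d / 2) ≠ 0 := by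
    simp only [ne_eq, ENNReal.ofReal_eq_zero, not_le]
    positivity
  have hVi : Integrable (fun y => |V y| ^ (γ + (d : ℝ) / 2)) volume := by
    have h := hV.integrable_norm_rpow hp0 ENNReal.ofReal_ne_top
    rw [ENNReal.toReal_ofReal (by positivity)] at h
    simpa only [Real.norm_eq_abs] using h
  have hvm : AEMeasurable (fun y => max (-V y) 0) volume :=
    hV.1.aemeasurable.neg.max aemeasurable_const
  have hvle : ∀ y, max (-V y) 0 ≤ |V y| := fun y => max_le (neg_le_abs _) (abs_nonneg _)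
  have hvi : Integrable (fun y => max (-V y) 0 ^ (γ + (d : ℝ) / 2)) volume := by
    apply hVi.mono'
    · exact (hvm.pow_const _).aestronglyMeasurable
    · refine Filter.Eventually.of_forall fun y => ?_
      rw [Real.norm_eq_abs, abs_of_nonneg (Real.rpow_nonneg (le_max_right _ _) _)]
      exact Real.rpow_le_rpow (le_max_right _ _) (hvle y) (by positivity)
  have hWm : ∀ μ : ℝ, AEStronglyMeasurable (fun y => max (max (-V y) 0 - μ) 0) volume :=
    fun μ => ((hvm.sub_const μ).max aemeasurable_const).aestronglyMeasurable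
  -- membership in `L^(1+d/2)`
  have hWp : ∀ μ : ℝ, Integrable (fun y => (max (max (-V y) 0 - μ) 0) ^ (1 + (d : ℝ) / 2))
      volume → MemLp (fun y => max (max (-V y) 0 - μ) 0) (ENNReal.ofReal (1 + d / 2)) volume := by
    intro μ hi
    rw [← integrable_norm_rpow_iff (hWm μ) (by
      simp only [ne_eq, ENNReal.ofReal_eq_zero, not_le]; positivity) ENNReal.ofReal_ne_top,
      ENNReal.toReal_ofReal (by positivity)]
    refine hi.congr (Filter.Eventually.of_forall fun y => ?_)
    simp only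
    rw [Real.norm_eq_abs, abs_of_nonneg (le_max_right _ _)]
  rcases hγ.eq_or_lt with rfl | hγ1
  · -- `γ = 1`
    have e0 : ∀ y, max (max (-V y) 0 - 0) 0 = max (-V y) 0 := fun y => by
      rw [sub_zero, max_eq_left (le_max_right _ _)]
    have h2 := spec_level h1 hk hd hE hneg horth (hWp 0 (by
      simp only [e0]
      exact hvi))
    simp only [e0] at h2
    simp only [Real.rpow_one]
    refine le_trans (le_of_eq ?_) h2
    apply sum_congr rfl
    intro j _
    rw [sub_zero, max_eq_left (abs_nonneg _)]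
  · -- `γ > 1`
    set C₁ : ℝ := 2 / √3 * Lcl 1 d with hC₁
    have hC₁0 : 0 ≤ C₁ := by
      rw [hC₁, Lcl]
      have := Real.Gamma_pos_of_pos (show (0 : ℝ) < 1 + 1 by norm_num)
      have := Real.Gamma_pos_of_pos (show (0 : ℝ) < 1 + 1 + d / 2 by positivity)
      positivity
    -- measurable representative
    set v : (Fin d → ℝ) → ℝ := fun y => max (-V y) 0 with hv
    obtain ⟨v', hv'm, hvv'⟩ := hvm
    have hv'0 : ∀ᵐ y, 0 ≤ v' y := by
      filter_upwards [hvv'] with y hy
      rw [← hy]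
      exact le_max_right _ _
    have hWi : ∀ μ : ℝ, 0 < μ → Integrable (fun y => (max (v y - μ) 0) ^ (1 + (d : ℝ) / 2))
        volume := by
      intro μ hμ
      refine (hvi.const_mul ((μ ^ (γ - 1))⁻¹)).mono' ?_ ?_
      · exact ((hWm μ).aemeasurable.pow_const _).aestronglyMeasurable
      · refine Filter.Eventually.of_forall fun y => ?_
        rw [Real.norm_eq_abs, abs_of_nonneg (Real.rpow_nonneg (le_max_right _ _) _)]
        have h2 := spec_pow (v := v y) (μ := μ) (γ := γ) (s := 1 + (d : ℝ) / 2)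
          (le_max_right _ _) hμ hγ1.le hs0
        have e1 : γ - 1 + (1 + (d : ℝ) / 2) = γ + d / 2 := by ring
        rw [e1] at h2
        exact h2
    -- the inequality at all levels
    have hlev : ∀ μ : ℝ, 0 < μ → ∑ j, ENNReal.ofReal (max (|E j| - μ) 0) ≤
        ENNReal.ofReal C₁ * ∫⁻ y, ENNReal.ofReal ((max (v' y - μ) 0) ^ (1 + (d : ℝ) / 2)) := by
      intro μ hμ
      have h2 := spec_level h1 hk hd hE hneg horth (hWp μ (hWi μ hμ))
      rw [← ENNReal.ofReal_sum_of_nonneg fun j _ => le_max_right _ _]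
      refine (ENNReal.ofReal_le_ofReal h2).trans (le_of_eq ?_)
      rw [ENNReal.ofReal_mul hC₁0]
      congr 1
      rw [ofReal_integral_eq_lintegral_ofReal (hWi μ hμ)
        (Filter.Eventually.of_forall fun y => Real.rpow_nonneg (le_max_right _ _) _)]
      apply lintegral_congr_ae
      filter_upwards [hvv'] with y hy
      rw [← hy]
    -- integrate over `μ`
    have hmeas : Measurable fun p : ℝ × (Fin d → ℝ) =>
        ENNReal.ofReal (p.1 ^ (γ - 1 - 1)) *
          ENNReal.ofReal ((max (v' p.2 - p.1) 0) ^ (1 + (d : ℝ) / 2)) := by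
      have := hv'm
      fun_prop
    have hI : ∫⁻ μ in Set.Ioi (0 : ℝ), ENNReal.ofReal (μ ^ (γ - 1 - 1)) *
          ∑ j, ENNReal.ofReal (max (|E j| - μ) 0) ≤
        ∫⁻ μ in Set.Ioi (0 : ℝ), ENNReal.ofReal C₁ * ∫⁻ y, ENNReal.ofReal (μ ^ (γ - 1 - 1)) *
          ENNReal.ofReal ((max (v' y - μ) 0) ^ (1 + (d : ℝ) / 2)) := by
      refine setLIntegral_mono' measurableSet_Ioi fun μ hμ => ?_
      rw [lintegral_const_mul' _ _ ENNReal.ofReal_ne_top]
      refine (mul_le_mul' le_rfl (hlev μ hμ)).trans (le_of_eq ?_)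
      ring
    -- left-hand side
    have hL : ∫⁻ μ in Set.Ioi (0 : ℝ), ENNReal.ofReal (μ ^ (γ - 1 - 1)) *
          ∑ j, ENNReal.ofReal (max (|E j| - μ) 0) =
        ENNReal.ofReal (ProbabilityTheory.beta (γ - 1) (1 + 1) * ∑ j, |E j| ^ γ) := by
      have h2 : ∀ μ : ℝ, ENNReal.ofReal (μ ^ (γ - 1 - 1)) *
          ∑ j, ENNReal.ofReal (max (|E j| - μ) 0) =
          ∑ j, ENNReal.ofReal (μ ^ (γ - 1 - 1)) * ENNReal.ofReal (max (|E j| - μ) 0) :=
        fun μ => mul_sum _ _ _
      simp only [h2]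
      rw [lintegral_finsetSum _ fun j _ => by fun_prop]
      have h3 : ∀ j, ∫⁻ μ in Set.Ioi (0 : ℝ), ENNReal.ofReal (μ ^ (γ - 1 - 1)) *
          ENNReal.ofReal (max (|E j| - μ) 0) =
          ENNReal.ofReal (|E j| ^ γ * ProbabilityTheory.beta (γ - 1) (1 + 1)) := by
        intro j
        have h4 := spec_beta (a := γ - 1) (s := 1) (v := |E j|) (by linarith) one_pos
          (abs_nonneg _)
        have e1 : γ - 1 + 1 = γ := by ring
        rw [e1] at h4
        rw [← h4]
        refine setLIntegral_congr_fun measurableSet_Ioi fun μ hμ => ?_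
        have : (0 : ℝ) ≤ μ ^ (γ - 1 - 1) := Real.rpow_nonneg (le_of_lt hμ) _
        rw [Real.rpow_one, ENNReal.ofReal_mul this]
      simp only [h3]
      have hB0 : 0 ≤ ProbabilityTheory.beta (γ - 1) (1 + 1) :=
        (ProbabilityTheory.beta_pos (by linarith) (by norm_num)).le
      rw [← ENNReal.ofReal_sum_of_nonneg fun j _ => by positivity, mul_sum]
      congr 1
      exact sum_congr rfl fun j _ => mul_comm _ _
    -- right-hand side
    have hR : ∫⁻ μ in Set.Ioi (0 : ℝ), ENNReal.ofReal C₁ *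
          ∫⁻ y, ENNReal.ofReal (μ ^ (γ - 1 - 1)) *
          ENNReal.ofReal ((max (v' y - μ) 0) ^ (1 + (d : ℝ) / 2)) =
        ENNReal.ofReal (C₁ * (ProbabilityTheory.beta (γ - 1) (1 + d / 2 + 1) *
          ∫ y, v y ^ (γ + (d : ℝ) / 2))) := by
      rw [lintegral_const_mul' _ _ ENNReal.ofReal_ne_top, ENNReal.ofReal_mul hC₁0]
      congr 1
      rw [lintegral_lintegral_swap hmeas.aemeasurable]
      have hB0 : 0 ≤ ProbabilityTheory.beta (γ - 1) (1 + d / 2 + 1) :=
        (ProbabilityTheory.beta_pos (by linarith) (by positivity)).le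
      have h3 : ∀ᵐ y : Fin d → ℝ, ∫⁻ μ in Set.Ioi (0 : ℝ), ENNReal.ofReal (μ ^ (γ - 1 - 1)) *
          ENNReal.ofReal ((max (v' y - μ) 0) ^ (1 + (d : ℝ) / 2)) =
          ENNReal.ofReal (ProbabilityTheory.beta (γ - 1) (1 + d / 2 + 1)) *
            ENNReal.ofReal (v y ^ (γ + (d : ℝ) / 2)) := by
        filter_upwards [hvv', hv'0] with y hy hy0
        have h4 := spec_beta (a := γ - 1) (s := 1 + (d : ℝ) / 2) (v := v' y) (by linarith) hs0
          hy0
        have e1 : γ - 1 + (1 + (d : ℝ) / 2) = γ + d / 2 := by ring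
        rw [e1] at h4
        rw [← ENNReal.ofReal_mul hB0, hy, mul_comm (ProbabilityTheory.beta _ _), ← h4]
        refine setLIntegral_congr_fun measurableSet_Ioi fun μ hμ => ?_
        have : (0 : ℝ) ≤ μ ^ (γ - 1 - 1) := Real.rpow_nonneg (le_of_lt hμ) _
        rw [ENNReal.ofReal_mul this]
      rw [lintegral_congr_ae h3, lintegral_const_mul' _ _ ENNReal.ofReal_ne_top,
        ENNReal.ofReal_mul hB0, ofReal_integral_eq_lintegral_ofReal hvi
        (Filter.Eventually.of_forall fun y => Real.rpow_nonneg (le_max_right _ _) _)]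
    rw [hL, hR] at hI
    have hvint0 : 0 ≤ ∫ y, v y ^ (γ + (d : ℝ) / 2) :=
      integral_nonneg fun y => Real.rpow_nonneg (le_max_right _ _) _
    have hB1 : 0 < ProbabilityTheory.beta (γ - 1) (1 + 1) :=
      ProbabilityTheory.beta_pos (by linarith) (by norm_num)
    have hB2 : 0 < ProbabilityTheory.beta (γ - 1) (1 + d / 2 + 1) :=
      ProbabilityTheory.beta_pos (by linarith) (by positivity)
    have hI2 := (ENNReal.ofReal_le_ofReal_iff (by positivity)).1 hI
    have hc := spec_const d hγ1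
    have hfin : C₁ * (ProbabilityTheory.beta (γ - 1) (1 + d / 2 + 1) *
        ∫ y, v y ^ (γ + (d : ℝ) / 2)) = ProbabilityTheory.beta (γ - 1) (1 + 1) *
        (2 / √3 * Lcl γ d * ∫ y, v y ^ (γ + (d : ℝ) / 2)) := by
      rw [hC₁]
      calc 2 / √3 * Lcl 1 d * (ProbabilityTheory.beta (γ - 1) (1 + d / 2 + 1) *
            ∫ y, v y ^ (γ + (d : ℝ) / 2))
          = 2 / √3 * (Lcl 1 d * ProbabilityTheory.beta (γ - 1) (1 + d / 2 + 1)) *
            ∫ y, v y ^ (γ + (d : ℝ) / 2) := by ring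
        _ = _ := by rw [hc]; ring
    rw [hfin] at hI2
    exact le_of_mul_le_mul_left hI2 hB1

end Pool.Agent.LT
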