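import Pool.Agent.LT.Upper
import Pool.Agent.LT.Pos1
import Pool.Agent.LT.Pos
import Pool.Agent.LT.QPos
import Pool.Agent.LT.PsdKer
import Pool.Agent.LT.Kin
import Pool.Agent.LT.Kin2
import Pool.Agent.LT.PW
import Pool.Agent.LT.PW2
import Pool.Agent.LT.Poly
import Pool.Agent.LT.Poly2
import Pool.Agent.LT.Calc
import Pool.Agent.LT.Bil
import Pool.Agent.LT.Base
import Pool.Agent.LT.AL
import Pool.Agent.LT.Slice
import Pool.Agent.LT.Lift1
import Pool.Agent.LT.Lift3
import Pool.Agent.LT.Dens
import Pool.Agent.LT.KinH1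
import Pool.Agent.LT.Spec

set_option autoImplicit false

namespace Pool.Agent.LT

theorem kinAll : KinStmt := kin bil (calc_of bil) pw poly

theorem upperAll : UpperStmt := upper kinAll pos1

theorem D3_all (hk2 : Kin2Stmt) (d : ℕ) : D3 d := by
  induction d with
  | zero => exact base.1
  | succ d ih => exact lift3 hk2 slice d (al d ih)

theorem D1_all (hk2 : Kin2Stmt) (d : ℕ) (hd : 0 < d) : D1 d := by
  obtain ⟨k, rfl⟩ : ∃ k, d = k + 1 := ⟨d - 1, by omega⟩
  exact lift1 kinAll (pos (qpos psdKer)) slice k (D3_all hk2 k)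

theorem kin2All : Kin2Stmt := kin2 bil (calc_of bil) pw2 poly2

theorem allDim : AllDimStmt := spec (D1_all kin2All) (kinH1 dens)

end Pool.Agent.LT
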