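import Pool.Agent.LT.Defs3
import Pool.Agent.LT.Calc

/-!
# LT: the additional terms of the calibration are absolutely continuous (module CALC3)
(MP_4c716f_mp; mathematics: helper15; formalisation: helper65)
-/

set_option autoImplicit false

namespace Pool.Agent.LT

open MeasureTheory Matrix Finset
open scoped ComplexConjugate ComplexOrder

namespace Calc3

variable {N : ℕ}

lemma smulC {f f' : ℝ → ℂ} (c : ℂ) (hf : ACv f f') :
    ACv (fun x => c * f x) (fun x => c * f' x) := by
  refine ⟨fun a b => (hf.1 a b).const_mul c, fun a b => ?_⟩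
  rw [intervalIntegral.integral_const_mul, ← hf.2 a b]
  ring

lemma mac_mpoly (hb : BilStmt) (q : Polynomial ℝ) {S P : ℝ → Matrix (Fin N) (Fin N) ℂ}
    (hS : MAC S P) : MAC (fun x => mpoly q (S x)) (fun x => dmpoly q (S x) (P x)) := by
  intro i j
  refine calc_congr (calc_sum (range (q.natDegree + 1)) fun n _ =>
    smulC (q.coeff n : ℂ) (MAC.pow hb hS n i j)) (fun x => ?_) (fun x => ?_)
  · show (∑ n ∈ range (q.natDegree + 1), (q.coeff n : ℂ) • S x ^ n) i j = _
    rw [Matrix.sum_apply]
    rfl
  · show (∑ n ∈ range (q.natDegree + 1), (q.coeff n : ℂ) •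
      ∑ k ∈ range n, S x ^ k * P x * S x ^ (n - 1 - k)) i j = _
    rw [Matrix.sum_apply]
    rfl

lemma mpoly_eq (q : Polynomial ℝ) (S : Matrix (Fin N) (Fin N) ℂ) :
    mpoly q S = Polynomial.aeval S q := by
  rw [Polynomial.aeval_eq_sum_range]
  unfold mpoly
  refine Finset.sum_congr rfl fun n _ => ?_
  ext i j
  simp [Matrix.smul_apply]

lemma trace_dmpoly (r : Polynomial ℝ) (S P : Matrix (Fin N) (Fin N) ℂ) :
    Matrix.trace (dmpoly r S P) = Matrix.trace (mpoly r.derivative S * P) := by
  have h1 : mpoly r.derivative S = ∑ i ∈ range (r.natDegree + 1), r.derivative.coeff i • S ^ i := by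
    rw [mpoly_eq]
    refine Polynomial.aeval_eq_sum_range' ?_ S
    exact lt_of_le_of_lt (Polynomial.natDegree_derivative_le r) (by omega)
  have h2 : ∀ n k : ℕ, k ∈ range n →
      Matrix.trace (S ^ k * P * S ^ (n - 1 - k)) = Matrix.trace (S ^ (n - 1) * P) := by
    intro n k hk
    have hk' : k < n := Finset.mem_range.1 hk
    rw [Matrix.trace_mul_comm, ← Matrix.mul_assoc, ← pow_add]
    congr 3
    omega
  have h3 : Matrix.trace (dmpoly r S P) = ∑ n ∈ range (r.natDegree + 1),
      (r.coeff n : ℂ) * (n * Matrix.trace (S ^ (n - 1) * P)) := by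
    unfold dmpoly
    rw [Matrix.trace_sum]
    refine Finset.sum_congr rfl fun n _ => ?_
    rw [Matrix.trace_smul, Matrix.trace_sum, Finset.sum_congr rfl (h2 n), Finset.sum_const,
      Finset.card_range, nsmul_eq_mul, smul_eq_mul]
  have h4 : Matrix.trace (mpoly r.derivative S * P) = ∑ i ∈ range (r.natDegree + 1),
      (r.derivative.coeff i : ℂ) * Matrix.trace (S ^ i * P) := by
    rw [h1, Finset.sum_mul, Matrix.trace_sum]
    refine Finset.sum_congr rfl fun i _ => ?_
    rw [Matrix.smul_mul, Matrix.trace_smul]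
    exact Complex.real_smul
  rw [h3, h4, Finset.sum_range_succ', Finset.sum_range_succ]
  have h5 : r.derivative.coeff r.natDegree = 0 := by
    rw [Polynomial.coeff_derivative, Polynomial.coeff_eq_zero_of_natDegree_lt (Nat.lt_succ_self _),
      zero_mul]
  rw [h5]
  simp only [Nat.cast_zero, zero_mul, mul_zero, add_zero, Complex.ofReal_zero]
  refine Finset.sum_congr rfl fun i _ => ?_
  rw [Polynomial.coeff_derivative]
  push_cast
  ring

end Calc3

open Calc3 in
/-- (CALC3) -/
theorem calc3 (h : BilStmt) : Calc3Stmt := by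
  intro N q r S P Q hr hS hP
  have hS' : MAC S P := hS
  have hP' : MAC P Q := hP
  have h1 := MAC.trace (MAC.mul h (mac_mpoly h q hS') hP')
  have h2 := MAC.trace (mac_mpoly h r hS')
  refine calc_congr (calc_add h1 h2) (fun x => rfl) (fun x => ?_)
  have h3 : mpoly r.derivative (S x) = -(mpoly q (S x) * mpoly q (S x)) := by
    rw [mpoly_eq, mpoly_eq, hr, map_neg, map_pow, sq]
  rw [trace_dmpoly, h3, Matrix.neg_mul, Matrix.trace_neg, Matrix.trace_add, Complex.add_re,
    Complex.neg_re]
  ring

end Pool.Agent.LT
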