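import Pool.Agent.LT.Defs3

/-!
# LT: the identity between the constants (module LT3_CONST)
-/

set_option autoImplicit false

namespace Pool.Agent.LT

lemma cos_pos_aux {δ : ℝ} (h0 : 0 < δ) (h1 : δ < 1) : 0 < Real.cos (Real.pi * δ / 2) := by
  have hpi := Real.pi_pos
  refine Real.cos_pos_of_mem_Ioo ⟨?_, ?_⟩
  · have : 0 < Real.pi * δ / 2 := by positivity
    linarith
  · nlinarith

lemma cA_pos {δ : ℝ} (h0 : 0 < δ) (h1 : δ < 1) : 0 < cA δ := by
  have hpi := Real.pi_pos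
  have hc := cos_pos_aux h0 h1
  unfold cA
  positivity

lemma cB_pos {δ : ℝ} (h0 : 0 < δ) (h1 : δ < 1) : 0 < cB δ := by
  have hpi := Real.pi_pos
  have hg1 : 0 < Real.Gamma ((1 - δ) / 2) := Real.Gamma_pos_of_pos (by linarith)
  have hg2 : 0 < Real.Gamma (δ / 2) := Real.Gamma_pos_of_pos (by linarith)
  unfold cB
  positivity

theorem constLT : ConstStmt := by
  intro δ d h0 h1
  refine ⟨cA_pos h0 h1, cB_pos h0 h1, ?_⟩
  have hpi := Real.pi_pos
  have hc := cos_pos_aux h0 h1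
  have hsp : 0 < √Real.pi := Real.sqrt_pos.2 hpi
  -- reflection
  have hrefl : Real.Gamma ((1 - δ) / 2) * Real.Gamma ((1 + δ) / 2) =
      Real.pi / Real.cos (Real.pi * δ / 2) := by
    have h := Real.Gamma_mul_Gamma_one_sub ((1 - δ) / 2)
    have e1 : 1 - (1 - δ) / 2 = (1 + δ) / 2 := by ring
    have e2 : Real.sin (Real.pi * ((1 - δ) / 2)) = Real.cos (Real.pi * δ / 2) := by
      rw [← Real.sin_pi_div_two_sub]
      congr 1
      ring
    rw [e1, e2] at h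
    exact h
  have hg5 : Real.Gamma ((3 + δ) / 2 + 1) =
      (3 + δ) / 2 * ((1 + δ) / 2 * Real.Gamma ((1 + δ) / 2)) := by
    rw [Real.Gamma_add_one (by linarith)]
    have e : (3 + δ) / 2 = (1 + δ) / 2 + 1 := by ring
    rw [e, Real.Gamma_add_one (by linarith)]
  have hg2 : Real.Gamma (1 + δ / 2 + 1) = (1 + δ / 2) * (δ / 2 * Real.Gamma (δ / 2)) := by
    rw [Real.Gamma_add_one (by linarith)]
    have e : 1 + δ / 2 = δ / 2 + 1 := by ring
    rw [e, Real.Gamma_add_one (by linarith)]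
  have hpow : (4 * Real.pi) ^ (((d + 1 : ℕ) : ℝ) / 2) =
      (4 * Real.pi) ^ ((d : ℝ) / 2) * (2 * √Real.pi) := by
    have e : (((d + 1 : ℕ) : ℝ) / 2) = (d : ℝ) / 2 + 1 / 2 := by push_cast; ring
    have h4 : (0 : ℝ) < 4 * Real.pi := by positivity
    rw [e, Real.rpow_add h4, ← Real.sqrt_eq_rpow, Real.sqrt_mul (by norm_num)]
    have : √(4 : ℝ) = 2 := by
      rw [show (4 : ℝ) = 2 ^ 2 by norm_num, Real.sqrt_sq (by norm_num)]
    rw [this]
  have harg : (3 + δ) / 2 + 1 + (d : ℝ) / 2 = 1 + δ / 2 + 1 + ((d + 1 : ℕ) : ℝ) / 2 := by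
    push_cast; ring
  unfold Lcl
  rw [← harg, hpow, hg5, hg2]
  have hP : 0 < (4 * Real.pi) ^ ((d : ℝ) / 2) := by positivity
  have hG : 0 < Real.Gamma ((3 + δ) / 2 + 1 + (d : ℝ) / 2) :=
    Real.Gamma_pos_of_pos (by positivity)
  generalize (4 * Real.pi) ^ ((d : ℝ) / 2) = Pw at hP ⊢
  generalize Real.Gamma ((3 + δ) / 2 + 1 + (d : ℝ) / 2) = G at hG ⊢
  unfold cA cB
  have hK : 0 < (2 / √3 : ℝ) ^ (1 - δ) := by positivity
  generalize (2 / √3 : ℝ) ^ (1 - δ) = K at hK ⊢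
  have ha : 0 < Real.Gamma ((1 + δ) / 2) := Real.Gamma_pos_of_pos (by linarith)
  have hb : 0 < Real.Gamma (δ / 2) := Real.Gamma_pos_of_pos (by linarith)
  have hr : Real.Gamma ((1 - δ) / 2) =
      Real.pi / Real.cos (Real.pi * δ / 2) / Real.Gamma ((1 + δ) / 2) := by
    rw [← hrefl]; field_simp
  rw [hr]
  generalize Real.Gamma ((1 + δ) / 2) = A at ha ⊢
  generalize Real.Gamma (δ / 2) = B at hb ⊢
  generalize Real.cos (Real.pi * δ / 2) = c at hc ⊢
  generalize √Real.pi = sp at hsp ⊢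
  generalize Real.pi = π at hpi ⊢
  field_simp

end Pool.Agent.LT
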