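import Pool.Agent.LT.Defs3

/-!
# Integration over `a`: the Legendre transform of `F_a`
-/

set_option autoImplicit false

namespace Pool.Agent.LT

open MeasureTheory Set Real

section

variable {δ : ℝ}

/-- the Gaussian integral -/
lemma intA_gauss (h0 : 0 < δ) (h1 : δ < 1) {c x : ℝ} (hc : 0 < c) (hx : 0 < x) :
    ∫⁻ s in Ioi 0, ENNReal.ofReal (s ^ (-δ) * (c * exp (-(x * (1 + c ^ 2 * s ^ 2))))) =
      ENNReal.ofReal (c ^ δ * (1 / 2 * Gamma ((1 - δ) / 2)) *
        (x ^ ((1 + δ) / 2 - 1) * exp (-x))) := by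
  have hb : 0 < x * c ^ 2 := by positivity
  have hq : -1 < -δ := by linarith
  have hint := (integrableOn_rpow_mul_exp_neg_mul_rpow (s := -δ) hq two_pos hb).const_mul
    (c * exp (-x))
  have hval := integral_rpow_mul_exp_neg_mul_rpow (p := 2) (q := -δ) two_pos hq hb
  have e1 : ∀ s ∈ Ioi (0 : ℝ), s ^ (-δ) * (c * exp (-(x * (1 + c ^ 2 * s ^ 2)))) =
      c * exp (-x) * (s ^ (-δ) * exp (-(x * c ^ 2) * s ^ (2 : ℝ))) := by
    intro s hs
    rw [show -(x * (1 + c ^ 2 * s ^ 2)) = -x + -(x * c ^ 2) * s ^ 2 by ring, exp_add, rpow_two]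
    ring
  rw [setLIntegral_congr_fun measurableSet_Ioi
    (fun s hs => congrArg ENNReal.ofReal (e1 s hs)),
    ← ofReal_integral_eq_lintegral_ofReal hint, integral_const_mul, hval]
  · congr 1
    have e2 : (x * c ^ 2) ^ (-(-δ + 1) / 2) = x ^ ((1 + δ) / 2 - 1) * (c ^ δ * c⁻¹) := by
      rw [mul_rpow hx.le (by positivity), ← rpow_natCast c 2, ← rpow_mul hc.le]
      congr 1
      · congr 1; ring
      · rw [← rpow_neg_one c, ← rpow_add hc]
        congr 1
        push_cast
        ring
    rw [e2, show (-δ + 1) / 2 = (1 - δ) / 2 by ring]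
    field_simp
  · refine (ae_restrict_iff' measurableSet_Ioi).2 (Filter.Eventually.of_forall fun s hs => ?_)
    have : (0 : ℝ) < s := hs
    simp only [Pi.zero_apply]
    positivity

lemma intA_exp {r : ℝ} (hr : 0 < r) :
    ∫⁻ x in Ioi (0 : ℝ), ENNReal.ofReal (exp (-(x * r))) = ENNReal.ofReal (1 / r) := by
  have h := integral_exp_mul_Ioi (a := -r) (by linarith) 0
  have hi : IntegrableOn (fun x : ℝ => exp (-r * x)) (Ioi 0) := exp_neg_integrableOn_Ioi 0 hr
  have e1 : ∀ x : ℝ, exp (-(x * r)) = exp (-r * x) := fun x => by congr 1; ring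
  simp_rw [e1]
  rw [← ofReal_integral_eq_lintegral_ofReal hi, h]
  · congr 1
    simp
  · exact Filter.Eventually.of_forall fun x => (exp_pos _).le

/-- `∫ s^(-δ) c / (1 + c² s²) ds` -/
lemma intA_base (h0 : 0 < δ) (h1 : δ < 1) {c : ℝ} (hc : 0 < c) :
    ∫⁻ s in Ioi 0, ENNReal.ofReal (s ^ (-δ) * (c / (1 + c ^ 2 * s ^ 2))) =
      ENNReal.ofReal (c ^ δ * (π / (2 * cos (π * δ / 2)))) := by
  have e1 : ∀ s ∈ Ioi (0 : ℝ), ENNReal.ofReal (s ^ (-δ) * (c / (1 + c ^ 2 * s ^ 2))) =
      ∫⁻ x in Ioi (0 : ℝ), ENNReal.ofReal (s ^ (-δ) * (c * exp (-(x * (1 + c ^ 2 * s ^ 2))))) := by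
    intro s hs
    have hs0 : (0 : ℝ) < s := hs
    have hr : 0 < 1 + c ^ 2 * s ^ 2 := by positivity
    have e2 : ∀ x : ℝ, ENNReal.ofReal (s ^ (-δ) * (c * exp (-(x * (1 + c ^ 2 * s ^ 2))))) =
        ENNReal.ofReal (s ^ (-δ) * c) * ENNReal.ofReal (exp (-(x * (1 + c ^ 2 * s ^ 2)))) := by
      intro x
      rw [← ENNReal.ofReal_mul (by positivity), mul_assoc]
    simp_rw [e2]
    rw [lintegral_const_mul' _ _ ENNReal.ofReal_ne_top, intA_exp hr,
      ← ENNReal.ofReal_mul (by positivity)]
    congr 1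
    ring
  rw [setLIntegral_congr_fun measurableSet_Ioi e1, lintegral_lintegral_swap]
  · rw [setLIntegral_congr_fun measurableSet_Ioi (fun x hx => intA_gauss h0 h1 hc hx)]
    have hG : 0 < (1 + δ) / 2 := by linarith
    have e3 : ∀ x ∈ Ioi (0 : ℝ), ENNReal.ofReal (c ^ δ * (1 / 2 * Gamma ((1 - δ) / 2)) *
        (x ^ ((1 + δ) / 2 - 1) * exp (-x))) =
        ENNReal.ofReal (c ^ δ * (1 / 2 * Gamma ((1 - δ) / 2))) *
          ENNReal.ofReal (exp (-x) * x ^ ((1 + δ) / 2 - 1)) := by
      intro x hx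
      have hg : 0 < Gamma ((1 - δ) / 2) := Gamma_pos_of_pos (by linarith)
      rw [ENNReal.ofReal_mul (by positivity), mul_comm (x ^ _)]
    rw [setLIntegral_congr_fun measurableSet_Ioi e3, lintegral_const_mul' _ _
      ENNReal.ofReal_ne_top, ← ofReal_integral_eq_lintegral_ofReal (GammaIntegral_convergent hG),
      ← Gamma_eq_integral hG]
    · have hg : 0 < Gamma ((1 - δ) / 2) := Gamma_pos_of_pos (by linarith)
      rw [← ENNReal.ofReal_mul (by positivity)]
      congr 1
      have h3 := Gamma_mul_Gamma_one_sub ((1 - δ) / 2)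
      rw [show 1 - (1 - δ) / 2 = (1 + δ) / 2 by ring,
        show π * ((1 - δ) / 2) = π / 2 - π * δ / 2 by ring, sin_pi_div_two_sub] at h3
      rw [mul_assoc, mul_assoc, h3]
      ring
    · refine (ae_restrict_iff' measurableSet_Ioi).2 (Filter.Eventually.of_forall fun s hs => ?_)
      have : (0 : ℝ) < s := hs
      simp only [Pi.zero_apply]
      positivity
  · apply Measurable.aemeasurable
    unfold Function.uncurry
    fun_prop

/-- `∫ a^(-δ-1) arctan (c a) da` -/
lemma intA_arctan (h0 : 0 < δ) (h1 : δ < 1) {c : ℝ} (hc : 0 < c) :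
    ∫⁻ a in Ioi 0, ENNReal.ofReal (a ^ (-δ - 1) * arctan (c * a)) =
      ENNReal.ofReal (c ^ δ * (π / (2 * δ * cos (π * δ / 2)))) := by
  set f : ℝ → ℝ → ENNReal := fun a s =>
    {p : ℝ × ℝ | p.2 < p.1}.indicator (fun p => ENNReal.ofReal (p.1 ^ (-δ - 1) *
      (c / (1 + c ^ 2 * p.2 ^ 2)))) (a, s) with hf
  have hmeas : MeasurableSet {p : ℝ × ℝ | p.2 < p.1} := measurableSet_lt measurable_snd measurable_fst
  have e1 : ∀ a ∈ Ioi (0 : ℝ), ENNReal.ofReal (a ^ (-δ - 1) * arctan (c * a)) =
      ∫⁻ s in Ioi (0 : ℝ), f a s := by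
    intro a ha
    have ha0 : (0 : ℝ) < a := ha
    have e2 : ∀ s, f a s = (Iio a).indicator (fun s => ENNReal.ofReal (a ^ (-δ - 1) *
      (c / (1 + c ^ 2 * s ^ 2)))) s := by
      intro s
      simp only [hf, indicator, mem_setOf_eq, mem_Iio]
    simp_rw [e2]
    rw [setLIntegral_indicator measurableSet_Iio, inter_comm, Ioi_inter_Iio]
    have hcont : Continuous fun s : ℝ => a ^ (-δ - 1) * (c / (1 + c ^ 2 * s ^ 2)) := by
      refine continuous_const.mul (continuous_const.div (by fun_prop) fun s => by positivity)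
    have hi : IntegrableOn (fun s : ℝ => a ^ (-δ - 1) * (c / (1 + c ^ 2 * s ^ 2))) (Ioo 0 a) :=
      (hcont.integrableOn_Icc (a := 0) (b := a)).mono_set Ioo_subset_Icc_self
    rw [← ofReal_integral_eq_lintegral_ofReal hi]
    · congr 1
      rw [integral_const_mul, ← integral_Ioc_eq_integral_Ioo, ← intervalIntegral.integral_of_le ha0.le]
      congr 1
      have hd : ∀ s ∈ uIcc 0 a, HasDerivAt (fun s => arctan (c * s)) (c / (1 + c ^ 2 * s ^ 2)) s := by
        intro s _
        have := ((hasDerivAt_id s).const_mul c).arctan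
        simp only [id, mul_one] at this
        convert this using 1
        rw [mul_pow]
        ring
      rw [intervalIntegral.integral_eq_sub_of_hasDerivAt hd]
      · simp
      · apply Continuous.intervalIntegrable
        exact continuous_const.div (by fun_prop) fun s => by positivity
    · refine Filter.Eventually.of_forall fun s => ?_
      simp only [Pi.zero_apply]
      positivity
  rw [setLIntegral_congr_fun measurableSet_Ioi e1, lintegral_lintegral_swap]
  · have e3 : ∀ s ∈ Ioi (0 : ℝ), ∫⁻ a in Ioi (0 : ℝ), f a s =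
        ENNReal.ofReal (1 / δ) * ENNReal.ofReal (s ^ (-δ) * (c / (1 + c ^ 2 * s ^ 2))) := by
      intro s hs
      have hs0 : (0 : ℝ) < s := hs
      have e2 : ∀ a, f a s = (Ioi s).indicator (fun a => ENNReal.ofReal (a ^ (-δ - 1) *
        (c / (1 + c ^ 2 * s ^ 2)))) a := by
        intro a
        simp only [hf, indicator, mem_setOf_eq, mem_Ioi]
      simp_rw [e2]
      rw [setLIntegral_indicator measurableSet_Ioi, Ioi_inter_Ioi, sup_eq_left.2 hs0.le]
      have hi : IntegrableOn (fun a : ℝ => a ^ (-δ - 1) * (c / (1 + c ^ 2 * s ^ 2))) (Ioi s) :=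
        (integrableOn_Ioi_rpow_of_lt (by linarith) hs0).mul_const _
      rw [← ofReal_integral_eq_lintegral_ofReal hi, integral_mul_const,
        integral_Ioi_rpow_of_lt (by linarith) hs0, ← ENNReal.ofReal_mul (by positivity)]
      · congr 1
        rw [show -δ - 1 + 1 = -δ by ring]
        field_simp
      · refine (ae_restrict_iff' measurableSet_Ioi).2 (Filter.Eventually.of_forall fun a ha => ?_)
        have : (0 : ℝ) < a := lt_trans hs0 ha
        simp only [Pi.zero_apply]
        positivity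
    rw [setLIntegral_congr_fun measurableSet_Ioi e3, lintegral_const_mul' _ _
      ENNReal.ofReal_ne_top, intA_base h0 h1 hc, ← ENNReal.ofReal_mul (by positivity)]
    congr 1
    field_simp
  · apply Measurable.aemeasurable
    unfold Function.uncurry
    simp only [hf]
    exact Measurable.indicator (by fun_prop) hmeas

/-- `z e - F_a(z)` at `z = z_a(e)` -/
lemma legendre_eq {a e : ℝ} (ha : 0 < a) :
    za a e * e - Fa a (za a e) =
      2 / a * arctan (a * √e) * (e + 1 / a ^ 2) - 2 * √e / a ^ 2 := by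
  unfold Fa za
  have h1 : a * (2 / a * arctan (a * √e)) / 2 = arctan (a * √e) := by
    field_simp
  rw [h1, tan_arctan]
  field_simp
  ring

/-- `z_a(e) e - F_a(z_a(e)) = ∫_0^e z_a(t) dt` -/
lemma legendre_integral {a e : ℝ} (ha : 0 < a) (he : 0 ≤ e) :
    ∫ t in (0 : ℝ)..e, 2 / a * arctan (a * √t) = za a e * e - Fa a (za a e) := by
  rw [legendre_eq ha]
  have hcont : Continuous fun e : ℝ =>
      2 / a * arctan (a * √e) * (e + 1 / a ^ 2) - 2 * √e / a ^ 2 := by
    fun_prop
  rw [intervalIntegral.integral_eq_sub_of_hasDerivAt_of_le he hcont.continuousOn (f' := fun t =>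
    2 / a * arctan (a * √t))]
  · simp
  · intro t ht
    have ht0 : 0 < t := ht.1
    have hs : 0 < √t := sqrt_pos.2 ht0
    have hss : √t ^ 2 = t := sq_sqrt ht0.le
    have d1 : HasDerivAt (fun t : ℝ => √t) (1 / (2 * √t)) t := hasDerivAt_sqrt ht0.ne'
    have d2 := ((d1.const_mul a).arctan.const_mul (2 / a)).mul
      ((hasDerivAt_id t).add_const (1 / a ^ 2))
    have d3 := d2.sub ((d1.const_mul 2).div_const (a ^ 2))
    have d4 : HasDerivAt (fun e : ℝ =>
        2 / a * arctan (a * √e) * (e + 1 / a ^ 2) - 2 * √e / a ^ 2) _ t := d3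
    refine d4.congr_deriv ?_
    simp only [id]
    rw [mul_pow, hss]
    have h4 : 0 < 1 + a ^ 2 * t := by positivity
    field_simp
    ring
  · apply Continuous.intervalIntegrable
    fun_prop

theorem intA (_h : UaStmt) : IntAStmt := by
  intro δ e h0 h1 he
  have hcos : 0 < cos (π * δ / 2) := by
    apply cos_pos_of_mem_Ioo
    constructor
    · nlinarith [pi_pos]
    · nlinarith [pi_pos]
  have e1 : ∀ a ∈ Ioi (0 : ℝ), ENNReal.ofReal (a ^ (-δ) * (za a e * e - Fa a (za a e))) =
      ∫⁻ t in Ioc 0 e, ENNReal.ofReal (2 * (a ^ (-δ - 1) * arctan (√t * a))) := by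
    intro a ha
    have ha0 : (0 : ℝ) < a := ha
    rw [← legendre_integral ha0 he, intervalIntegral.integral_of_le he, ← integral_const_mul]
    have e2 : ∀ t : ℝ, a ^ (-δ) * (2 / a * arctan (a * √t)) =
        2 * (a ^ (-δ - 1) * arctan (√t * a)) := by
      intro t
      rw [rpow_sub ha0, rpow_one, mul_comm (√t)]
      field_simp
    simp_rw [e2]
    rw [← ofReal_integral_eq_lintegral_ofReal]
    · have hcont : Continuous fun t : ℝ => 2 * (a ^ (-δ - 1) * arctan (√t * a)) := by fun_prop
      exact (hcont.integrableOn_Icc (a := 0) (b := e)).mono_set Ioc_subset_Icc_self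
    · refine Filter.Eventually.of_forall fun s => ?_
      simp only [Pi.zero_apply]
      have : 0 ≤ arctan (√s * a) := arctan_nonneg.2 (by positivity)
      positivity
  rw [setLIntegral_congr_fun measurableSet_Ioi e1, lintegral_lintegral_swap]
  · have e3 : ∀ t ∈ Ioc 0 e, ∫⁻ a in Ioi (0 : ℝ),
        ENNReal.ofReal (2 * (a ^ (-δ - 1) * arctan (√t * a))) =
        ENNReal.ofReal (t ^ (δ / 2) * (π / (δ * cos (π * δ / 2)))) := by
      intro t ht
      have ht0 : 0 < t := ht.1
      have hs : 0 < √t := sqrt_pos.2 ht0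
      simp_rw [ENNReal.ofReal_mul (zero_le_two : (0 : ℝ) ≤ 2)]
      rw [lintegral_const_mul' _ _ ENNReal.ofReal_ne_top, intA_arctan h0 h1 hs,
        ← ENNReal.ofReal_mul zero_le_two]
      congr 1
      rw [sqrt_eq_rpow, ← rpow_mul ht0.le, show 1 / 2 * δ = δ / 2 by ring]
      field_simp
    rw [setLIntegral_congr_fun measurableSet_Ioc e3, ← ofReal_integral_eq_lintegral_ofReal]
    · congr 1
      rw [integral_mul_const, ← intervalIntegral.integral_of_le he,
        integral_rpow (Or.inl (by linarith)), zero_rpow (by linarith), cA]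
      have h3 : δ / 2 + 1 ≠ 0 := by positivity
      rw [show (1 + δ / 2) = δ / 2 + 1 by ring]
      field_simp
      ring
    · have hcont : Continuous fun t : ℝ => t ^ (δ / 2) * (π / (δ * cos (π * δ / 2))) :=
        (continuous_id.rpow_const fun _ => Or.inr (by positivity)).mul continuous_const
      exact (hcont.integrableOn_Icc (a := 0) (b := e)).mono_set Ioc_subset_Icc_self
    · refine (ae_restrict_iff' measurableSet_Ioc).2 (Filter.Eventually.of_forall fun t ht => ?_)
      have : (0 : ℝ) < t := ht.1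
      simp only [Pi.zero_apply]
      positivity
  · apply Measurable.aemeasurable
    unfold Function.uncurry
    fun_prop

end

end Pool.Agent.LT
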