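import Pool.Agent.LT.Defs3

/-!
# (INTB) `∫ a^(-δ) U_a(μ) da`   (MP_4c716f_mp; helper47)

`U_a(μ) = ∫_0^μ (μ-s) / (2 √(1 + 3a²s/4)) ds`; Tonelli; `(1+ca²)^(-1/2)` as a Gamma integral.
-/

set_option autoImplicit false

namespace Pool.Agent.LT

open MeasureTheory Set Real
open scoped ENNReal

namespace IntB

/-- the second derivative of `U_a` -/
noncomputable def ker (a s : ℝ) : ℝ := 1 / (2 * √(1 + 3 * a ^ 2 * s / 4))

theorem rhoa_deriv (a s : ℝ) (ha : 0 < a) (hs : 0 ≤ s) : HasDerivAt (rhoa a) (ker a s) s := by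
  have h0 : 0 < 1 + 3 * a ^ 2 * s / 4 := by positivity
  have h1 : HasDerivAt (fun s : ℝ => 1 + 3 * a ^ 2 * s / 4) (3 * a ^ 2 / 4) s := by
    have := ((hasDerivAt_id s).const_mul (3 * a ^ 2 / 4)).const_add 1
    simp only [id, mul_one] at this
    convert! this using 1
    ext x
    ring
  have h2 := ((h1.sqrt h0.ne').sub_const 1).const_mul (4 / (3 * a ^ 2))
  unfold rhoa ker
  convert! h2 using 1
  have h3 : √(1 + 3 * a ^ 2 * s / 4) ≠ 0 := (Real.sqrt_pos.mpr h0).ne'
  field_simp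

theorem Ua_eq (a μ : ℝ) (ha : 0 < a) (hμ : 0 ≤ μ) :
    Ua a μ = ∫ s in (0 : ℝ)..μ, (μ - s) * ker a s := by
  have hd : ∀ s ∈ uIcc 0 μ, HasDerivAt (fun s => (μ - s) * rhoa a s +
      (s * rhoa a s - rhoa a s ^ 2 - a ^ 2 / 4 * rhoa a s ^ 3)) ((μ - s) * ker a s) s := by
    intro s hs
    rw [uIcc_of_le hμ] at hs
    have h1 := rhoa_deriv a s ha hs.1
    have h2 := (((hasDerivAt_id s).const_sub μ).mul h1).add
      ((((hasDerivAt_id s).mul h1).sub (h1.pow 2)).sub ((h1.pow 3).const_mul (a ^ 2 / 4)))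
    convert! h2 using 1
    have h0 : 0 < 1 + 3 * a ^ 2 * s / 4 := by have := hs.1; positivity
    have hR := Real.sq_sqrt h0.le
    have hρ : √(1 + 3 * a ^ 2 * s / 4) = 1 + 3 * a ^ 2 / 4 * rhoa a s := by
      unfold rhoa
      field_simp
      ring
    have key : s - 2 * rhoa a s - 3 * a ^ 2 / 4 * rhoa a s ^ 2 = 0 := by
      rw [hρ] at hR
      have ha2 : a ^ 2 ≠ 0 := by positivity
      have : 3 * a ^ 2 / 4 * (s - 2 * rhoa a s - 3 * a ^ 2 / 4 * rhoa a s ^ 2) = 0 := by
        linarith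
      rcases mul_eq_zero.mp this with h | h
      · exfalso
        have : 0 < 3 * a ^ 2 / 4 := by positivity
        linarith
      · exact h
    simp only [id]
    push_cast
    linear_combination (-ker a s) * key
  have hc : IntervalIntegrable (fun s => (μ - s) * ker a s) volume 0 μ := by
    apply ContinuousOn.intervalIntegrable
    rw [uIcc_of_le hμ]
    unfold ker
    apply ContinuousOn.mul (by fun_prop)
    apply ContinuousOn.div (by fun_prop) (by fun_prop)
    intro s hs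
    have h0 : 0 < 1 + 3 * a ^ 2 * s / 4 := by have := hs.1; positivity
    have := Real.sqrt_pos.mpr h0
    positivity
  rw [intervalIntegral.integral_eq_sub_of_hasDerivAt hd hc]
  have h0 : rhoa a 0 = 0 := by
    unfold rhoa
    simp
  rw [h0]
  unfold Ua
  rw [if_pos hμ]
  ring

/-- Gamma integrals as lintegrals -/
theorem lint_gamma {p q b : ℝ} (hp : 0 < p) (hq : -1 < q) (hb : 0 < b) :
    ∫⁻ x in Ioi (0 : ℝ), ENNReal.ofReal (x ^ q * rexp (-b * x ^ p)) =
      ENNReal.ofReal (b ^ (-(q + 1) / p) * (1 / p) * Gamma ((q + 1) / p)) := by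
  rw [← integral_rpow_mul_exp_neg_mul_rpow hp hq hb, ofReal_integral_eq_lintegral_ofReal]
  · exact integrableOn_rpow_mul_exp_neg_mul_rpow hq hp hb
  · filter_upwards [ae_restrict_mem measurableSet_Ioi] with x hx
    have : (0 : ℝ) < x := hx
    positivity

/-- `∫ a^(-δ) (1+ca²)^(-1/2) da` -/
theorem lint_beta (δ c : ℝ) (hδ : 0 < δ) (hδ1 : δ < 1) (hc : 0 < c) :
    ∫⁻ a in Ioi (0 : ℝ), ENNReal.ofReal (a ^ (-δ) / √(1 + c * a ^ 2)) =
      ENNReal.ofReal (c ^ (-(1 - δ) / 2) * (Gamma ((1 - δ) / 2) * Gamma (δ / 2) / (2 * √π))) := by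
  have e1 : ∀ a ∈ Ioi (0 : ℝ), ENNReal.ofReal (a ^ (-δ) / √(1 + c * a ^ 2)) =
      ∫⁻ x in Ioi (0 : ℝ), ENNReal.ofReal (a ^ (-δ) / √π * (x ^ (-(1 / 2) : ℝ) *
        rexp (-(1 + c * a ^ 2) * x ^ (1 : ℝ)))) := by
    intro a ha
    have ha' : (0 : ℝ) < a := ha
    have hb : 0 < 1 + c * a ^ 2 := by positivity
    have h1 := lint_gamma (p := 1) (q := -(1 / 2)) one_pos (by norm_num) hb
    have h2 : ∀ x : ℝ, ENNReal.ofReal (a ^ (-δ) / √π * (x ^ (-(1 / 2) : ℝ) *
        rexp (-(1 + c * a ^ 2) * x ^ (1 : ℝ)))) = ENNReal.ofReal (a ^ (-δ) / √π) *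
        ENNReal.ofReal (x ^ (-(1 / 2) : ℝ) * rexp (-(1 + c * a ^ 2) * x ^ (1 : ℝ))) := by
      intro x
      rw [ENNReal.ofReal_mul (by positivity)]
    simp_rw [h2]
    rw [lintegral_const_mul', h1, ← ENNReal.ofReal_mul (by positivity)]
    · congr 1
      have h3 : (-(-(1 / 2) + 1) / 1 : ℝ) = -(1 / 2) := by norm_num
      have h4 : ((-(1 / 2) + 1) / 1 : ℝ) = 1 / 2 := by norm_num
      rw [h3, h4, Real.Gamma_one_half_eq, rpow_neg hb.le, ← Real.sqrt_eq_rpow]
      have h5 : √π ≠ 0 := by positivity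
      have h6 : √(1 + c * a ^ 2) ≠ 0 := by positivity
      field_simp
    · exact ENNReal.ofReal_ne_top
  rw [setLIntegral_congr_fun measurableSet_Ioi e1, lintegral_lintegral_swap]
  swap
  · apply Measurable.aemeasurable
    unfold Function.uncurry
    fun_prop
  have e2 : ∀ x ∈ Ioi (0 : ℝ), ∫⁻ a in Ioi (0 : ℝ), ENNReal.ofReal (a ^ (-δ) / √π *
      (x ^ (-(1 / 2) : ℝ) * rexp (-(1 + c * a ^ 2) * x ^ (1 : ℝ)))) =
      ENNReal.ofReal (c ^ (-(1 - δ) / 2) * (1 / 2) * Gamma ((1 - δ) / 2) / √π) *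
        ENNReal.ofReal (x ^ (δ / 2 - 1) * rexp (-1 * x ^ (1 : ℝ))) := by
    intro x hx
    have hx' : (0 : ℝ) < x := hx
    have h1 := lint_gamma (p := 2) (q := -δ) (b := c * x) two_pos (by linarith) (by positivity)
    have h2 : ∀ a : ℝ, ENNReal.ofReal (a ^ (-δ) / √π *
        (x ^ (-(1 / 2) : ℝ) * rexp (-(1 + c * a ^ 2) * x ^ (1 : ℝ)))) =
        ENNReal.ofReal (x ^ (-(1 / 2) : ℝ) * rexp (-x) / √π) *
        ENNReal.ofReal (a ^ (-δ) * rexp (-(c * x) * a ^ (2 : ℝ))) := by
      intro a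
      rw [← ENNReal.ofReal_mul (by positivity)]
      congr 1
      have : rexp (-(1 + c * a ^ 2) * x ^ (1 : ℝ)) = rexp (-x) * rexp (-(c * x) * a ^ (2 : ℝ)) := by
        rw [← Real.exp_add, rpow_one, rpow_two]
        congr 1
        ring
      rw [this]
      ring
    simp_rw [h2]
    rw [lintegral_const_mul' _ _ ENNReal.ofReal_ne_top, h1, ← ENNReal.ofReal_mul (by positivity),
      ← ENNReal.ofReal_mul (by
        have := Real.Gamma_pos_of_pos (by linarith : 0 < (1 - δ) / 2)
        positivity)]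
    congr 1
    have h3 : -(-δ + 1) / 2 = -(1 - δ) / 2 := by ring
    have h4 : (-δ + 1) / 2 = (1 - δ) / 2 := by ring
    rw [h3, h4, mul_rpow hc.le hx'.le, rpow_one, neg_one_mul]
    have h5 : x ^ (δ / 2 - 1) = x ^ (-(1 / 2) : ℝ) * x ^ (-(1 - δ) / 2) := by
      rw [← rpow_add hx']
      congr 1
      ring
    rw [h5]
    ring
  rw [setLIntegral_congr_fun measurableSet_Ioi e2, lintegral_const_mul' _ _ ENNReal.ofReal_ne_top,
    lint_gamma one_pos (by linarith) one_pos, ← ENNReal.ofReal_mul (by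
        have := Real.Gamma_pos_of_pos (by linarith : 0 < (1 - δ) / 2)
        positivity)]
  congr 1
  have h6 : (δ / 2 - 1 + 1) / 1 = δ / 2 := by ring
  rw [one_rpow, h6]
  have h7 : √π ≠ 0 := by positivity
  field_simp

theorem const_eq (δ : ℝ) : (3 / 4 : ℝ) ^ (-(1 - δ) / 2) = (2 / √3) ^ (1 - δ) := by
  have h1 : (4 / 3 : ℝ) = (2 / √3) ^ (2 : ℝ) := by
    rw [rpow_two, div_pow, Real.sq_sqrt (by norm_num)]
    norm_num
  have h2 : (3 / 4 : ℝ) = (4 / 3)⁻¹ := by norm_num
  rw [h2, Real.inv_rpow (by norm_num), ← Real.rpow_neg (by norm_num), h1,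
    ← Real.rpow_mul (by positivity)]
  congr 1
  ring

/-- `∫_0^μ (μ-s) s^r ds` -/
theorem int_pow (μ r : ℝ) (hμ : 0 < μ) (hr : -1 < r) :
    IntervalIntegrable (fun s : ℝ => (μ - s) * s ^ r) volume 0 μ ∧
    ∫ s in (0 : ℝ)..μ, (μ - s) * s ^ r = μ ^ (r + 2) * (1 / (r + 1) - 1 / (r + 2)) := by
  have hi : IntervalIntegrable (fun s : ℝ => s ^ r) volume 0 μ :=
    intervalIntegral.intervalIntegrable_rpow' hr
  have hi' : IntervalIntegrable (fun s : ℝ => s ^ (r + 1)) volume 0 μ :=
    intervalIntegral.intervalIntegrable_rpow' (by linarith)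
  have hc : ∀ s ∈ uIcc 0 μ, (μ - s) * s ^ r = μ * s ^ r - s ^ (r + 1) ∨ s = 0 := by
    intro s hs
    rw [uIcc_of_le hμ.le] at hs
    rcases eq_or_lt_of_le hs.1 with h | h
    · right
      exact h.symm
    · left
      rw [rpow_add h, rpow_one]
      ring
  have hi2 : IntervalIntegrable (fun s : ℝ => μ * s ^ r - s ^ (r + 1)) volume 0 μ :=
    (hi.const_mul μ).sub hi'
  have hae : ∀ᵐ s : ℝ, s ∈ Set.uIoc 0 μ → μ * s ^ r - s ^ (r + 1) = (μ - s) * s ^ r := by
    refine Filter.Eventually.of_forall ?_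
    intro s hs
    rw [uIoc_of_le hμ.le] at hs
    rcases hc s (by rw [uIcc_of_le hμ.le]; exact ⟨hs.1.le, hs.2⟩) with h | h
    · exact h.symm
    · exact absurd h hs.1.ne'
  constructor
  · exact hi2.congr_ae ((ae_restrict_iff' measurableSet_uIoc).mpr hae)
  · rw [← intervalIntegral.integral_congr_ae hae, intervalIntegral.integral_sub (hi.const_mul μ) hi',
      intervalIntegral.integral_const_mul, integral_rpow (Or.inl hr),
      integral_rpow (Or.inl (by linarith)), Real.zero_rpow (by linarith),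
      Real.zero_rpow (by linarith)]
    have h1 : μ ^ (r + 1 + 1) = μ ^ (r + 2) := by
      congr 1
      ring
    have h2 : μ * μ ^ (r + 1) = μ ^ (r + 2) := by
      rw [← h1, rpow_add hμ (r + 1) 1, rpow_one]
      ring
    have h3 : r + 1 + 1 = r + 2 := by ring
    rw [h1, h3]
    linear_combination (1 / (r + 1)) * h2

end IntB

open IntB in
/-- (INTB) -/
theorem intB (_h : UaStmt) : IntBStmt := by
  intro δ μ hδ hδ1
  rcases lt_or_ge 0 μ with hμ | hμ
  swap
  · have h1 : max μ 0 = 0 := max_eq_right hμ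
    rw [h1, Real.zero_rpow (by linarith), mul_zero, ENNReal.ofReal_zero]
    have h2 : ∀ a : ℝ, ENNReal.ofReal (a ^ (-δ) * Ua a μ) = 0 := by
      intro a
      have : Ua a μ = 0 := by
        unfold Ua
        split_ifs with h
        · have h3 : μ = 0 := le_antisymm hμ h
          subst h3
          have h0 : rhoa a 0 = 0 := by
            unfold rhoa
            simp
          rw [h0]
          ring
        · rfl
      rw [this, mul_zero, ENNReal.ofReal_zero]
    simp_rw [h2]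
    simp
  · rw [max_eq_left hμ.le]
    have e1 : ∀ a ∈ Ioi (0 : ℝ), ENNReal.ofReal (a ^ (-δ) * Ua a μ) =
        ∫⁻ s in Ioc 0 μ, ENNReal.ofReal (a ^ (-δ) * ((μ - s) * ker a s)) := by
      intro a ha
      have ha' : (0 : ℝ) < a := ha
      rw [Ua_eq a μ ha' hμ.le, intervalIntegral.integral_of_le hμ.le, ← integral_const_mul,
        ofReal_integral_eq_lintegral_ofReal]
      · apply Integrable.const_mul
        have hc : ContinuousOn (fun s => (μ - s) * ker a s) (Icc 0 μ) := by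
          unfold ker
          apply ContinuousOn.mul (by fun_prop)
          apply ContinuousOn.div (by fun_prop) (by fun_prop)
          intro s hs
          have h0 : 0 < 1 + 3 * a ^ 2 * s / 4 := by have := hs.1; positivity
          have := Real.sqrt_pos.mpr h0
          positivity
        exact (hc.integrableOn_Icc).mono_set Ioc_subset_Icc_self
      · filter_upwards [ae_restrict_mem measurableSet_Ioc] with s hs
        have h1 : 0 ≤ μ - s := by linarith [hs.2]
        have h2 : 0 ≤ ker a s := by unfold ker; positivity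
        simp only [Pi.zero_apply]
        positivity
    rw [setLIntegral_congr_fun measurableSet_Ioi e1, lintegral_lintegral_swap]
    swap
    · apply Measurable.aemeasurable
      unfold Function.uncurry ker
      fun_prop
    have e2 : ∀ s ∈ Ioc 0 μ, ∫⁻ a in Ioi (0 : ℝ), ENNReal.ofReal (a ^ (-δ) * ((μ - s) * ker a s)) =
        ENNReal.ofReal ((2 / √3) ^ (1 - δ) * (Gamma ((1 - δ) / 2) * Gamma (δ / 2) / (2 * √π)) / 2 *
          ((μ - s) * s ^ (-(1 - δ) / 2))) := by
      intro s hs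
      have hs' := hs.1
      have h1 := lint_beta δ (3 * s / 4) hδ hδ1 (by positivity)
      have h0 : 0 ≤ μ - s := by linarith [hs.2]
      have h2 : ∀ a : ℝ, ENNReal.ofReal (a ^ (-δ) * ((μ - s) * ker a s)) =
          ENNReal.ofReal ((μ - s) / 2) * ENNReal.ofReal (a ^ (-δ) / √(1 + 3 * s / 4 * a ^ 2)) := by
        intro a
        rw [← ENNReal.ofReal_mul (by positivity)]
        congr 1
        unfold ker
        have : 1 + 3 * a ^ 2 * s / 4 = 1 + 3 * s / 4 * a ^ 2 := by ring
        rw [this]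
        ring
      simp_rw [h2]
      rw [lintegral_const_mul' _ _ ENNReal.ofReal_ne_top, h1, ← ENNReal.ofReal_mul (by positivity)]
      congr 1
      have h3 : (3 * s / 4) ^ (-(1 - δ) / 2) = (2 / √3) ^ (1 - δ) * s ^ (-(1 - δ) / 2) := by
        rw [← const_eq, ← mul_rpow (by norm_num) hs'.le]
        congr 1
        ring
      rw [h3]
      ring
    rw [setLIntegral_congr_fun measurableSet_Ioc e2]
    obtain ⟨hi, hv⟩ := int_pow μ (-(1 - δ) / 2) hμ (by linarith)
    have hG1 := Real.Gamma_pos_of_pos (by linarith : 0 < (1 - δ) / 2)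
    have hG2 := Real.Gamma_pos_of_pos (by linarith : 0 < δ / 2)
    rw [← ofReal_integral_eq_lintegral_ofReal]
    · rw [integral_const_mul, ← intervalIntegral.integral_of_le hμ.le, hv]
      congr 1
      have h1 : -(1 - δ) / 2 + 2 = (3 + δ) / 2 := by ring
      have h2 : -(1 - δ) / 2 + 1 = (1 + δ) / 2 := by ring
      rw [h1, h2]
      unfold cB
      have h3 : (1 + δ) ≠ 0 := by linarith
      have h4 : (3 + δ) ≠ 0 := by linarith
      field_simp
      ring
    · exact ((intervalIntegrable_iff_integrableOn_Ioc_of_le hμ.le).mp hi).const_mul _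
    · filter_upwards [ae_restrict_mem measurableSet_Ioc] with s hs
      have h1 : 0 ≤ μ - s := by linarith [hs.2]
      have h2 : 0 < s := hs.1
      simp only [Pi.zero_apply]
      positivity

end Pool.Agent.LT
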