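import Pool.Agent.LT.Defs

/-!
# Lemmas for (KIN) (MP_4c716f_mp; mathematics: helper15)

Functions with integrable derivative, Gram matrices and their integrals, cubic forms, eigenvalue
bounds, continuity of `calG`.
-/

set_option autoImplicit false

namespace Pool.Agent.LT

open MeasureTheory Matrix Finset Filter Topology
open scoped ComplexConjugate ComplexOrder

section Limits

variable {E : Type*} [NormedAddCommGroup E] [NormedSpace ℝ E]

/-- An integrable `f` with integrable derivative tends to `0` at `+∞`. -/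
lemma kin_tendsto_atTop {f f' : ℝ → E} (h : ∀ a b : ℝ, f b - f a = ∫ x in a..b, f' x)
    (hf : Integrable f volume) (hf' : Integrable f' volume) : Tendsto f atTop (𝓝 0) := by
  have h1 : Tendsto f atTop (𝓝 (f 0 + ∫ x in Set.Ioi 0, f' x)) := by
    have h2 := intervalIntegral_tendsto_integral_Ioi 0 hf'.integrableOn tendsto_id
    have h3 := (tendsto_const_nhds (x := f 0)).add h2
    refine h3.congr fun b => ?_
    have := h 0 b
    simp only [id]
    rw [← this]; abel
  have h2 : f 0 + ∫ x in Set.Ioi 0, f' x = 0 := by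
    refine IntegrableAtFilter.eq_zero_of_tendsto (μ := volume) (l := atTop)
      (hf.integrableAtFilter _) ?_ h1
    intro s hs
    obtain ⟨a, ha⟩ := mem_atTop_sets.1 hs
    have : Set.Ici a ⊆ s := fun x hx => ha x hx
    exact top_le_iff.1 (by simpa using measure_mono (μ := (volume : Measure ℝ)) this)
  rwa [h2] at h1

lemma kin_tendsto_atBot {f f' : ℝ → E} (h : ∀ a b : ℝ, f b - f a = ∫ x in a..b, f' x)
    (hf : Integrable f volume) (hf' : Integrable f' volume) : Tendsto f atBot (𝓝 0) := by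
  have h1 : Tendsto f atBot (𝓝 (f 0 - ∫ x in Set.Iic 0, f' x)) := by
    have h2 := intervalIntegral_tendsto_integral_Iic 0 hf'.integrableOn tendsto_id
    have h3 := (tendsto_const_nhds (x := f 0)).sub h2
    refine h3.congr fun b => ?_
    have := h b 0
    simp only [id]
    rw [← this]; abel
  have h2 : f 0 - ∫ x in Set.Iic 0, f' x = 0 := by
    refine IntegrableAtFilter.eq_zero_of_tendsto (μ := volume) (l := atBot)
      (hf.integrableAtFilter _) ?_ h1
    intro s hs
    obtain ⟨a, ha⟩ := mem_atBot_sets.1 hs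
    have : Set.Iic a ⊆ s := fun x hx => ha x hx
    exact top_le_iff.1 (by simpa using measure_mono (μ := (volume : Measure ℝ)) this)
  rwa [h2] at h1

lemma kin_bound {f f' : ℝ → E} (h : ∀ a b : ℝ, f b - f a = ∫ x in a..b, f' x)
    (hf' : Integrable f' volume) : ∃ C : ℝ, 0 ≤ C ∧ ∀ x, ‖f x‖ ≤ C := by
  refine ⟨‖f 0‖ + ∫ x, ‖f' x‖, by positivity, fun x => ?_⟩
  have h1 : f x = f 0 + ∫ y in (0:ℝ)..x, f' y := by rw [← h 0 x]; abel
  rw [h1]
  refine (norm_add_le _ _).trans (add_le_add le_rfl ?_)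
  calc ‖∫ y in (0:ℝ)..x, f' y‖ ≤ ∫ y in Set.uIoc 0 x, ‖f' y‖ :=
        intervalIntegral.norm_integral_le_integral_norm_uIoc
    _ ≤ ∫ y, ‖f' y‖ := setIntegral_le_integral hf'.norm (by filter_upwards with y using norm_nonneg _)

lemma ACv.continuous {f f' : ℝ → E} (h : ACv f f') : Continuous f := by
  have h1 : f = fun b => f 0 + ∫ x in (0:ℝ)..b, f' x := by
    funext b; rw [← h.2 0 b]; abel
  rw [h1]
  exact continuous_const.add (intervalIntegral.continuous_primitive h.1 0)

end Limits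

section GramInt

variable {H : Type} [NormedAddCommGroup H] [InnerProductSpace ℂ H]

omit [InnerProductSpace ℂ H] in
lemma kin_int_norm_sq {v : ℝ → H} (hv : MemLp v 2 volume) :
    Integrable (fun x => ‖v x‖ ^ 2) volume :=
  hv.integrable_norm_pow (p := 2) (by norm_num)

lemma kin_int_inner {v w : ℝ → H} (hv : MemLp v 2 volume) (hw : MemLp w 2 volume) :
    Integrable (fun x => inner ℂ (v x) (w x)) volume := by
  refine Integrable.mono' ((kin_int_norm_sq hv).add (kin_int_norm_sq hw)) (hv.1.inner hw.1) ?_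
  filter_upwards with x
  have := norm_inner_le_norm (𝕜 := ℂ) (v x) (w x)
  simp only [Pi.add_apply]
  nlinarith [sq_nonneg (‖v x‖ - ‖w x‖), sq_nonneg (‖v x‖), sq_nonneg (‖w x‖)]

lemma kin_gram_form {N : ℕ} (v : Fin N → H) (c : Fin N → ℂ) :
    ∑ i, ∑ j, conj (c i) * (inner ℂ (v j) (v i) * c j) =
      ((‖∑ i, conj (c i) • v i‖ ^ 2 : ℝ) : ℂ) := by
  have h := inner_self_eq_norm_sq_to_K (𝕜 := ℂ) (∑ i, conj (c i) • v i)
  push_cast
  rw [show ((‖∑ i, conj (c i) • v i‖ : ℝ) : ℂ) = RCLike.ofReal ‖∑ i, conj (c i) • v i‖ from rfl,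
    ← h, inner_sum]
  refine Finset.sum_congr rfl fun i _ => ?_
  rw [sum_inner]
  refine Finset.sum_congr rfl fun j _ => ?_
  rw [inner_smul_left, inner_smul_right]
  simp only [Complex.conj_conj]
  ring

lemma kin_gram_psd {N : ℕ} {v : Fin N → ℝ → H} (hv : ∀ j, MemLp (v j) 2 volume) (s : Set ℝ) :
    (Matrix.of fun i j => ∫ x in s, inner ℂ (v j x) (v i x) :
      Matrix (Fin N) (Fin N) ℂ).PosSemidef := by
  refine Matrix.PosSemidef.of_dotProduct_mulVec_nonneg ?_ ?_
  · ext i j
    simp only [conjTranspose_apply, Matrix.of_apply]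
    rw [RCLike.star_def, ← integral_conj]
    simp only [inner_conj_symm]
  · intro c
    have key : star c ⬝ᵥ ((Matrix.of fun i j => ∫ x in s, inner ℂ (v j x) (v i x) :
      Matrix (Fin N) (Fin N) ℂ) *ᵥ c) =
        ((∫ x in s, ‖∑ i, conj (c i) • v i x‖ ^ 2 : ℝ) : ℂ) := by
      rw [← integral_complex_ofReal]
      simp only [dotProduct, mulVec, Matrix.of_apply, Pi.star_apply, Finset.mul_sum,
        RCLike.star_def]
      have : ∀ x, ((‖∑ i, conj (c i) • v i x‖ ^ 2 : ℝ) : ℂ) =
          ∑ i, ∑ j, conj (c i) * (inner ℂ (v j x) (v i x) * c j) := fun x =>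
        (kin_gram_form (fun i => v i x) c).symm
      simp_rw [this]
      rw [integral_finsetSum]
      · refine Finset.sum_congr rfl fun i _ => ?_
        rw [integral_finsetSum]
        · refine Finset.sum_congr rfl fun j _ => ?_
          rw [integral_const_mul, integral_mul_const]
        · intro j _
          exact (((kin_int_inner (hv j) (hv i)).integrableOn).mul_const _).const_mul _
      · intro i _
        refine integrable_finsetSum _ fun j _ => ?_
        exact (((kin_int_inner (hv j) (hv i)).integrableOn).mul_const _).const_mul _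
    rw [key]
    exact_mod_cast integral_nonneg fun x => by positivity

end GramInt

section Pointwise

variable {H : Type} [NormedAddCommGroup H] [InnerProductSpace ℂ H]

/-- `U* (gram v) U = gram y` with `y i = ∑ a, conj (U a i) • v a`. -/
lemma kin_conj_gram {N : ℕ} (v : Fin N → H) (U : Matrix (Fin N) (Fin N) ℂ) :
    Uᴴ * gram v * U = gram (fun i => ∑ a, conj (U a i) • v a) := by
  ext i j
  simp only [gram, Matrix.mul_apply, conjTranspose_apply, Matrix.of_apply, sum_inner, inner_sum,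
    inner_smul_left, inner_smul_right, Complex.conj_conj, RCLike.star_def, Finset.sum_mul,
    Finset.mul_sum]
  rw [Finset.sum_comm]
  refine Finset.sum_congr rfl fun a _ => Finset.sum_congr rfl fun b _ => ?_
  ring

lemma kin_trace_gram {N : ℕ} (v : Fin N → H) : (Matrix.trace (gram v)).re = ∑ i, ‖v i‖ ^ 2 := by
  simp only [Matrix.trace, Matrix.diag, gram, Matrix.of_apply, Complex.re_sum]
  refine Finset.sum_congr rfl fun i _ => ?_
  rw [inner_self_eq_norm_sq_to_K]
  norm_cast

lemma kin_trace_cube {N : ℕ} (P : Matrix (Fin N) (Fin N) ℂ) :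
    (Matrix.trace (P ^ 3)).re = ∑ i, ∑ j, ∑ k, (P i j * P j k * P k i).re := by
  have : P ^ 3 = P * (P * P) := by rw [pow_succ, pow_two, Matrix.mul_assoc]
  rw [this]
  simp only [Matrix.trace, Matrix.diag, Matrix.mul_apply, Finset.mul_sum, Complex.re_sum]
  refine Finset.sum_congr rfl fun i _ => Finset.sum_congr rfl fun j _ =>
    Finset.sum_congr rfl fun k _ => ?_
  rw [mul_assoc]

lemma kin_abs_cubic {N : ℕ} (y : Fin N → H) :
    ∑ i, ∑ j, ∑ k, |(gram y i j * gram y j k * gram y k i).re| ≤ (∑ i, ‖y i‖ ^ 2) ^ 3 := by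
  have h1 : (∑ i, ‖y i‖ ^ 2) ^ 3 = ∑ i, ∑ j, ∑ k, ‖y i‖ ^ 2 * ‖y j‖ ^ 2 * ‖y k‖ ^ 2 := by
    rw [pow_succ, pow_two, Finset.sum_mul_sum, Finset.sum_mul]
    refine Finset.sum_congr rfl fun i _ => ?_
    rw [Finset.sum_mul]
    refine Finset.sum_congr rfl fun j _ => ?_
    rw [Finset.mul_sum]
  rw [h1]
  refine Finset.sum_le_sum fun i _ => Finset.sum_le_sum fun j _ => Finset.sum_le_sum fun k _ => ?_
  refine (Complex.abs_re_le_norm _).trans ?_
  rw [norm_mul, norm_mul]
  have e : ∀ a b, ‖gram y a b‖ ≤ ‖y a‖ * ‖y b‖ := fun a b => by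
    simp only [gram, Matrix.of_apply]
    exact (norm_inner_le_norm _ _).trans (le_of_eq (mul_comm _ _))
  calc ‖gram y i j‖ * ‖gram y j k‖ * ‖gram y k i‖
      ≤ (‖y i‖ * ‖y j‖) * (‖y j‖ * ‖y k‖) * (‖y k‖ * ‖y i‖) := by
        gcongr <;> apply e
    _ = ‖y i‖ ^ 2 * ‖y j‖ ^ 2 * ‖y k‖ ^ 2 := by ring

lemma kin_pw (hw : PWStmt) (hpos : ∀ (N : ℕ) (v : Fin N → H), PosFor (gram v))
    {N : ℕ} {ε η : ℝ} (hε : 0 < ε) (hη : 0 ≤ η) (p : Polynomial ℝ)
    (hp : ∀ s t u : ℝ, s ∈ Set.Icc ε (1 - ε) → t ∈ Set.Icc ε (1 - ε) → u ∈ Set.Icc ε (1 - ε) →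
      |p.eval (s + u) * p.eval (t + u) + dd p (s + u) (t + u) + Real.pi ^ 2 / 4 +
        Real.pi ^ 2 / 4 * Mker s t u| ≤ η)
    (S : Matrix (Fin N) (Fin N) ℂ) (hS : S.IsHermitian)
    (hev : ∀ i, hS.eigenvalues i ∈ Set.Icc ε (1 - ε)) (v w : Fin N → H) :
    Real.pi ^ 2 / 4 * (Matrix.trace (gram v ^ 3)).re - η * (∑ i, ‖v i‖ ^ 2) ^ 3 ≤
      ∑ i, ‖w i‖ ^ 2 - dcalG p S (gram v) (gramD v w) := by
  set U : Matrix (Fin N) (Fin N) ℂ := (hS.eigenvectorUnitary : Matrix (Fin N) (Fin N) ℂ) with hU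
  set y : Fin N → H := fun i => ∑ a, conj (U a i) • v a with hy
  have hUU : U * Uᴴ = 1 := by
    have := (Matrix.mem_unitaryGroup_iff).1 hS.eigenvectorUnitary.2
    simpa [Matrix.star_eq_conjTranspose] using this
  have hP' : Uᴴ * gram v * U = gram y := kin_conj_gram v U
  have hmain := hw N H p S hS v w (gram y) hP'.symm
  refine le_trans ?_ hmain
  -- traces
  have ht3 : Matrix.trace (gram y ^ 3) = Matrix.trace (gram v ^ 3) := by
    rw [← hP']
    have : (Uᴴ * gram v * U) ^ 3 = Uᴴ * (gram v ^ 3) * U := by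
      calc (Uᴴ * gram v * U) ^ 3 = Uᴴ * gram v * (U * Uᴴ) * gram v * (U * Uᴴ) * gram v * U := by
            simp only [pow_succ, pow_zero, one_mul, Matrix.mul_assoc]
        _ = Uᴴ * (gram v ^ 3) * U := by
            rw [hUU]
            simp only [pow_succ, pow_zero, one_mul, Matrix.mul_assoc, Matrix.mul_one]
    rw [this, Matrix.trace_mul_comm, ← Matrix.mul_assoc, hUU, Matrix.one_mul]
  have ht1 : ∑ i, ‖y i‖ ^ 2 = ∑ i, ‖v i‖ ^ 2 := by
    rw [← kin_trace_gram, ← kin_trace_gram, ← hP', Matrix.trace_mul_comm, ← Matrix.mul_assoc, hUU,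
      Matrix.one_mul]
  rw [← ht3, ← ht1, kin_trace_cube]
  have hpp := hpos N y (hS.eigenvalues) (fun i => ⟨lt_of_lt_of_le hε (hev i).1,
    lt_of_le_of_lt (hev i).2 (by linarith)⟩)
  have habs := mul_le_mul_of_nonneg_left (kin_abs_cubic y) hη
  have hpi : 0 ≤ Real.pi ^ 2 / 4 := by positivity
  have hcomb : ∑ i, ∑ j, ∑ k, (Real.pi ^ 2 / 4 * (gram y i j * gram y j k * gram y k i).re +
      Real.pi ^ 2 / 4 * ((gram y i j * gram y j k * gram y k i).re *
        Mker (hS.eigenvalues i) (hS.eigenvalues j) (hS.eigenvalues k)) -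
      η * |(gram y i j * gram y j k * gram y k i).re|) ≤
      -(∑ i, ∑ j, ∑ k, (gram y i j * gram y j k * gram y k i).re *
        (p.eval (hS.eigenvalues i + hS.eigenvalues k) * p.eval (hS.eigenvalues j + hS.eigenvalues k)
          + dd p (hS.eigenvalues i + hS.eigenvalues k) (hS.eigenvalues j + hS.eigenvalues k))) := by
    simp only [← Finset.sum_neg_distrib]
    refine Finset.sum_le_sum fun i _ => Finset.sum_le_sum fun j _ => Finset.sum_le_sum fun k _ => ?_
    have h := hp _ _ _ (hev i) (hev j) (hev k)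
    set X := (gram y i j * gram y j k * gram y k i).re
    set F := p.eval (hS.eigenvalues i + hS.eigenvalues k) *
      p.eval (hS.eigenvalues j + hS.eigenvalues k) +
      dd p (hS.eigenvalues i + hS.eigenvalues k) (hS.eigenvalues j + hS.eigenvalues k)
    set M := Mker (hS.eigenvalues i) (hS.eigenvalues j) (hS.eigenvalues k)
    have h3 : |X * (F + Real.pi ^ 2 / 4 + Real.pi ^ 2 / 4 * M)| ≤ |X| * η := by
      rw [abs_mul]; exact mul_le_mul_of_nonneg_left h (abs_nonneg _)
    have h4 := (abs_le.1 h3).2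
    linarith
  simp only [Finset.sum_sub_distrib, Finset.sum_add_distrib, ← Finset.mul_sum] at hcomb
  have h5 := mul_nonneg hpi hpp
  linarith

/-- Eigenvalues of `S` when `S - a` and `b - S` are positive semidefinite. -/
lemma kin_eig {N : ℕ} {S : Matrix (Fin N) (Fin N) ℂ} (hS : S.IsHermitian) {a b : ℝ}
    (h1 : (S - (a : ℂ) • 1).PosSemidef) (h2 : ((b : ℂ) • 1 - S).PosSemidef) (i : Fin N) :
    hS.eigenvalues i ∈ Set.Icc a b := by
  have hn : star (hS.eigenvectorBasis i : Fin N → ℂ) ⬝ᵥ (hS.eigenvectorBasis i : Fin N → ℂ) = 1 := by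
    have := hS.eigenvectorBasis.orthonormal.1 i
    have h := inner_self_eq_norm_sq_to_K (𝕜 := ℂ) (hS.eigenvectorBasis i)
    rw [this] at h
    rw [EuclideanSpace.inner_eq_star_dotProduct] at h
    rw [dotProduct_comm]
    simpa using h
  have hSi := hS.mulVec_eigenvectorBasis i
  constructor
  · have h := h1.dotProduct_mulVec_nonneg (hS.eigenvectorBasis i : Fin N → ℂ)
    rw [Matrix.sub_mulVec, hSi, dotProduct_sub, Matrix.smul_mulVec, Matrix.one_mulVec,
      dotProduct_smul, dotProduct_smul, hn] at h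
    have h' := (Complex.le_def.1 h).1
    simp at h'
    linarith
  · have h := h2.dotProduct_mulVec_nonneg (hS.eigenvectorBasis i : Fin N → ℂ)
    rw [Matrix.sub_mulVec, hSi, dotProduct_sub, Matrix.smul_mulVec, Matrix.one_mulVec,
      dotProduct_smul, dotProduct_smul, hn] at h
    have h' := (Complex.le_def.1 h).1
    simp at h'
    linarith

end Pointwise

section Main

variable {H : Type} [NormedAddCommGroup H] [InnerProductSpace ℂ H]

lemma kin_calG_cont {N : ℕ} (p : Polynomial ℝ) :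
    Continuous (fun SP : Matrix (Fin N) (Fin N) ℂ × Matrix (Fin N) (Fin N) ℂ =>
      calG p SP.1 SP.2) := by
  unfold calG
  fun_prop

lemma kin_calG_zero {N : ℕ} (p : Polynomial ℝ) (S : Matrix (Fin N) (Fin N) ℂ) :
    calG p S 0 = 0 := by
  simp [calG]

end Main

end Pool.Agent.LT
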