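import Pool.Agent.LT.Defs3
import Pool.Agent.LT.Kin2
import Pool.Agent.LT.KinBase

/-!
# Module KINA: the operator valued cubic-quintic inequality (MP_4c716f_mp)
-/

set_option autoImplicit false

namespace Pool.Agent.LT

open MeasureTheory Matrix Finset Filter Topology
open scoped ComplexConjugate ComplexOrder

namespace KinA

open KinAux

variable {N : ℕ}

/-! ## the function `F_a` -/

section Fa

variable {a : ℝ}

lemma cos_pos' (ha : 0 < a) {z : ℝ} (hz : 0 ≤ z) (hz' : z < Real.pi / a) :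
    0 < Real.cos (a * z / 2) := by
  have h1 : a * z < Real.pi := by rwa [lt_div_iff₀ ha, mul_comm] at hz'
  have h2 : 0 ≤ a * z := by positivity
  exact Real.cos_pos_of_mem_Ioo ⟨by linarith [Real.pi_pos], by linarith⟩

lemma Fa_deriv (ha : 0 < a) {z : ℝ} (hz : 0 ≤ z) (hz' : z < Real.pi / a) :
    HasDerivAt (Fa a) ((1 / Real.cos (a * z / 2) ^ 2 - 1) / a ^ 2) z := by
  have hc := (cos_pos' ha hz hz').ne'
  have h1 : HasDerivAt (fun z : ℝ => a * z / 2) (a / 2) z := by
    have := ((hasDerivAt_id z).const_mul a).div_const 2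
    simpa using this
  have h2 := (Real.hasDerivAt_tan hc).comp z h1
  have h3 := ((h2.const_mul (2 / a)).sub (hasDerivAt_id z)).div_const (a ^ 2)
  have e : (2 / a * (1 / Real.cos (a * z / 2) ^ 2 * (a / 2)) - 1) / a ^ 2 =
      (1 / Real.cos (a * z / 2) ^ 2 - 1) / a ^ 2 := by
    congr 2
    field_simp
  rw [e] at h3
  exact h3

lemma Fa_cont (ha : 0 < a) : ContinuousOn (Fa a) (Set.Ico 0 (Real.pi / a)) := fun _ hz =>
  (Fa_deriv ha hz.1 hz.2).continuousAt.continuousWithinAt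

lemma Fa_mono (ha : 0 < a) : MonotoneOn (Fa a) (Set.Ico 0 (Real.pi / a)) := by
  refine monotoneOn_of_deriv_nonneg (convex_Ico _ _) (Fa_cont ha) ?_ ?_
  · rw [interior_Ico]
    exact fun z hz => (Fa_deriv ha hz.1.le hz.2).differentiableAt.differentiableWithinAt
  · rw [interior_Ico]
    intro z hz
    rw [(Fa_deriv ha hz.1.le hz.2).deriv]
    have hc := cos_pos' ha hz.1.le hz.2
    have h1 : Real.cos (a * z / 2) ^ 2 ≤ 1 := Real.cos_sq_le_one _
    refine div_nonneg ?_ (by positivity)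
    rw [sub_nonneg, le_div_iff₀ (by positivity)]
    linarith

lemma Fa_conv (ha : 0 < a) : ConvexOn ℝ (Set.Ico 0 (Real.pi / a)) (Fa a) := by
  refine MonotoneOn.convexOn_of_deriv (convex_Ico _ _) (Fa_cont ha) ?_ ?_
  · rw [interior_Ico]
    exact fun z hz => (Fa_deriv ha hz.1.le hz.2).differentiableAt.differentiableWithinAt
  · rw [interior_Ico]
    intro x hx y hy hxy
    rw [(Fa_deriv ha hx.1.le hx.2).deriv, (Fa_deriv ha hy.1.le hy.2).deriv]
    have hcx := cos_pos' ha hx.1.le hx.2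
    have hcy := cos_pos' ha hy.1.le hy.2
    have hy2 : a * y < Real.pi := by
      have := hy.2
      rwa [lt_div_iff₀ ha, mul_comm] at this
    have hx1 : 0 < a * x := mul_pos ha hx.1
    have hc : Real.cos (a * y / 2) ≤ Real.cos (a * x / 2) := by
      refine Real.cos_le_cos_of_nonneg_of_le_pi (by linarith) (by linarith [Real.pi_pos]) ?_
      have := mul_le_mul_of_nonneg_left hxy ha.le
      linarith
    have h2 : Real.cos (a * y / 2) ^ 2 ≤ Real.cos (a * x / 2) ^ 2 :=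
      pow_le_pow_left₀ hcy.le hc 2
    refine div_le_div_of_nonneg_right ?_ (by positivity)
    have h3 := one_div_le_one_div_of_le (by positivity : 0 < Real.cos (a * y / 2) ^ 2) h2
    linarith

lemma Fa_zero : Fa a 0 = 0 := by simp [Fa]

lemma Fa_nonneg (ha : 0 < a) {z : ℝ} (hz : 0 ≤ z) (hz' : z < Real.pi / a) : 0 ≤ Fa a z := by
  have h := Fa_mono ha (Set.mem_Ico.2 ⟨le_rfl, by positivity⟩) (Set.mem_Ico.2 ⟨hz, hz'⟩) hz
  rwa [Fa_zero] at h

end Fa

/-! ## Linear algebra -/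

section Alg

variable {S : Matrix (Fin N) (Fin N) ℂ} (hS : S.IsHermitian)

include hS

lemma conj_pow (n : ℕ) : (hS.eigenvectorUnitary : Matrix (Fin N) (Fin N) ℂ)ᴴ * S ^ n *
    (hS.eigenvectorUnitary : Matrix (Fin N) (Fin N) ℂ) =
      Matrix.diagonal fun i => (hS.eigenvalues i : ℂ) ^ n := by
  induction n with
  | zero =>
    simp only [pow_zero, Matrix.mul_one, U_star_mul]
    exact Matrix.diagonal_one.symm
  | succ n ih =>
    rw [pow_succ, ← conj_mul_conj hS, ih, U_conj hS, Matrix.diagonal_mul_diagonal]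
    simp only [pow_succ]

lemma trace_pow (n : ℕ) : Matrix.trace (S ^ n) = ∑ i, (hS.eigenvalues i : ℂ) ^ n := by
  rw [← trace_conj hS, conj_pow hS, Matrix.trace_diagonal]

lemma trace_mpoly (r : Polynomial ℝ) :
    (Matrix.trace (mpoly r S)).re = ∑ i, r.eval (hS.eigenvalues i) := by
  unfold mpoly
  rw [Matrix.trace_sum, Complex.re_sum]
  have h1 : ∀ n, (Matrix.trace ((r.coeff n : ℂ) • S ^ n)).re =
      ∑ i, r.coeff n * hS.eigenvalues i ^ n := fun n => by
    rw [Matrix.trace_smul, trace_pow hS, smul_eq_mul, Finset.mul_sum, Complex.re_sum]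
    refine Finset.sum_congr rfl fun i _ => ?_
    norm_cast
  simp only [h1]
  rw [Finset.sum_comm]
  refine Finset.sum_congr rfl fun i _ => ?_
  rw [Polynomial.eval_eq_sum_range]

lemma col_sum (i : Fin N) :
    ∑ j, ‖(hS.eigenvectorUnitary : Matrix (Fin N) (Fin N) ℂ) j i‖ ^ 2 = 1 := by
  have h := congrFun (congrFun (U_star_mul hS) i) i
  rw [Matrix.mul_apply, Matrix.one_apply_eq] at h
  have h2 : ∀ j, (hS.eigenvectorUnitary : Matrix (Fin N) (Fin N) ℂ)ᴴ i j *
      (hS.eigenvectorUnitary : Matrix (Fin N) (Fin N) ℂ) j i =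
      ((‖(hS.eigenvectorUnitary : Matrix (Fin N) (Fin N) ℂ) j i‖ ^ 2 : ℝ) : ℂ) := fun j => by
    rw [Matrix.conjTranspose_apply, RCLike.star_def, mul_comm, Complex.mul_conj,
      Complex.normSq_eq_norm_sq]
  simp only [h2] at h
  exact_mod_cast h

lemma row_sum (j : Fin N) :
    ∑ i, ‖(hS.eigenvectorUnitary : Matrix (Fin N) (Fin N) ℂ) j i‖ ^ 2 = 1 := by
  have h := congrFun (congrFun (U_mul_star hS) j) j
  rw [Matrix.mul_apply, Matrix.one_apply_eq] at h
  have h2 : ∀ i, (hS.eigenvectorUnitary : Matrix (Fin N) (Fin N) ℂ) j i *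
      (hS.eigenvectorUnitary : Matrix (Fin N) (Fin N) ℂ)ᴴ i j =
      ((‖(hS.eigenvectorUnitary : Matrix (Fin N) (Fin N) ℂ) j i‖ ^ 2 : ℝ) : ℂ) := fun i => by
    rw [Matrix.conjTranspose_apply, RCLike.star_def, Complex.mul_conj,
      Complex.normSq_eq_norm_sq]
  simp only [h2] at h
  exact_mod_cast h

lemma ev_le {y : Fin N → ℝ}
    (hle : (Matrix.diagonal (fun j => (y j : ℂ)) - S).PosSemidef) (i : Fin N) :
    hS.eigenvalues i ≤
      ∑ j, ‖(hS.eigenvectorUnitary : Matrix (Fin N) (Fin N) ℂ) j i‖ ^ 2 * y j := by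
  have h1 := hle.conjTranspose_mul_mul_same (hS.eigenvectorUnitary : Matrix (Fin N) (Fin N) ℂ)
  have h3 := diag_re_nonneg h1 i
  rw [Matrix.mul_sub, Matrix.sub_mul, U_conj hS, Matrix.sub_apply, Matrix.diagonal_apply_eq,
    Complex.sub_re, Complex.ofReal_re] at h3
  have h4 : (((hS.eigenvectorUnitary : Matrix (Fin N) (Fin N) ℂ)ᴴ *
      Matrix.diagonal (fun j => (y j : ℂ)) *
      (hS.eigenvectorUnitary : Matrix (Fin N) (Fin N) ℂ)) i i).re =
      ∑ j, ‖(hS.eigenvectorUnitary : Matrix (Fin N) (Fin N) ℂ) j i‖ ^ 2 * y j := by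
    rw [Matrix.mul_apply, Complex.re_sum]
    refine Finset.sum_congr rfl fun j _ => ?_
    rw [Matrix.mul_diagonal, Matrix.conjTranspose_apply, RCLike.star_def]
    have : conj ((hS.eigenvectorUnitary : Matrix (Fin N) (Fin N) ℂ) j i) * (y j : ℂ) *
        (hS.eigenvectorUnitary : Matrix (Fin N) (Fin N) ℂ) j i =
        ((‖(hS.eigenvectorUnitary : Matrix (Fin N) (Fin N) ℂ) j i‖ ^ 2 * y j : ℝ) : ℂ) := by
      have e := Complex.mul_conj ((hS.eigenvectorUnitary : Matrix (Fin N) (Fin N) ℂ) j i)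
      rw [Complex.normSq_eq_norm_sq] at e
      push_cast at e ⊢
      rw [← e]
      ring
    rw [this, Complex.ofReal_re]
  rw [h4] at h3
  linarith

/-- `∑ F_a(λ_i) ≤ ∑ F_a(y_j)` if `0 ≤ S ≤ diag y` -/
lemma peierls {a : ℝ} (ha : 0 < a) {y : Fin N → ℝ} (hy : ∀ j, 0 ≤ y j ∧ y j < Real.pi / a)
    (hle : (Matrix.diagonal (fun j => (y j : ℂ)) - S).PosSemidef)
    (hev : ∀ i, 0 ≤ hS.eigenvalues i) :
    ∑ i, Fa a (hS.eigenvalues i) ≤ ∑ j, Fa a (y j) := by
  set W : Fin N → Fin N → ℝ := fun j i =>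
    ‖(hS.eigenvectorUnitary : Matrix (Fin N) (Fin N) ℂ) j i‖ ^ 2 with hW
  have hW0 : ∀ j i, 0 ≤ W j i := fun j i => by positivity
  have h1 : ∀ i, Fa a (hS.eigenvalues i) ≤ ∑ j, W j i * Fa a (y j) := by
    intro i
    have hm : ∑ j, W j i • y j ∈ Set.Ico 0 (Real.pi / a) :=
      (convex_Ico _ _).sum_mem (fun j _ => hW0 j i) (col_sum hS i)
        fun j _ => Set.mem_Ico.2 (hy j)
    have hl : hS.eigenvalues i ≤ ∑ j, W j i • y j := ev_le hS hle i
    have h2 := Fa_mono ha (Set.mem_Ico.2 ⟨hev i, hl.trans_lt hm.2⟩) hm hl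
    refine h2.trans ?_
    exact (Fa_conv ha).map_sum_le (fun j _ => hW0 j i) (col_sum hS i)
        fun j _ => Set.mem_Ico.2 (hy j)
  refine (Finset.sum_le_sum fun i _ => h1 i).trans ?_
  rw [Finset.sum_comm]
  refine le_of_eq (Finset.sum_congr rfl fun j _ => ?_)
  rw [← Finset.sum_mul, row_sum hS j, one_mul]

end Alg

/-! ## the calibration -/

/-- the total calibration -/
noncomputable def Gt (p q r : Polynomial ℝ) (S P : Matrix (Fin N) (Fin N) ℂ) : ℝ :=
  calG p S P + ((Matrix.trace (mpoly q S * P)).re + (Matrix.trace (mpoly r S)).re)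

/-- its derivative -/
noncomputable def dGt (p q : Polynomial ℝ) (S P Q : Matrix (Fin N) (Fin N) ℂ) : ℝ :=
  dcalG p S P Q + ((Matrix.trace (mpoly q S * Q)).re +
    (Matrix.trace (dmpoly q S P * P)).re -
    (Matrix.trace (mpoly q S * mpoly q S * P)).re)

lemma acv_add {E : Type*} [NormedAddCommGroup E] [NormedSpace ℝ E] {f f' g g' : ℝ → E}
    (hf : ACv f f') (hg : ACv g g') : ACv (fun x => f x + g x) (fun x => f' x + g' x) := by
  refine ⟨fun a b => (hf.1 a b).add (hg.1 a b), fun a b => ?_⟩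
  rw [intervalIntegral.integral_add (hf.1 a b) (hg.1 a b), ← hf.2 a b, ← hg.2 a b]
  exact add_sub_add_comm _ _ _ _

lemma acv_Gt (hc : CalcStmt) (hc3 : Calc3Stmt) (p q r : Polynomial ℝ)
    (hr : r.derivative = -q ^ 2) {S P Q : ℝ → Matrix (Fin N) (Fin N) ℂ} (hS : Kin2.ACm S P)
    (hP : Kin2.ACm P Q) :
    ACv (fun x => Gt p q r (S x) (P x)) (fun x => dGt p q (S x) (P x) (Q x)) :=
  acv_add (hc N p S P Q hS hP) (hc3 N q r S P Q hr hS hP)

lemma continuous_mpoly (q : Polynomial ℝ) :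
    Continuous fun S : Matrix (Fin N) (Fin N) ℂ => mpoly q S := by
  unfold mpoly
  fun_prop

lemma continuous_Gt (p q r : Polynomial ℝ) :
    Continuous fun X : Matrix (Fin N) (Fin N) ℂ × Matrix (Fin N) (Fin N) ℂ =>
      Gt p q r X.1 X.2 := by
  unfold Gt
  have h := Kin2.continuous_calG (N := N) p
  have h1 : Continuous fun X : Matrix (Fin N) (Fin N) ℂ × Matrix (Fin N) (Fin N) ℂ =>
      mpoly q X.1 := (continuous_mpoly q).comp continuous_fst
  have h2 : Continuous fun X : Matrix (Fin N) (Fin N) ℂ × Matrix (Fin N) (Fin N) ℂ =>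
      mpoly r X.1 := (continuous_mpoly r).comp continuous_fst
  fun_prop

lemma Gt_zero (p q r : Polynomial ℝ) (S : Matrix (Fin N) (Fin N) ℂ) :
    Gt p q r S 0 = (Matrix.trace (mpoly r S)).re := by
  unfold Gt
  rw [Kin2.calG_zero]
  simp

attribute [irreducible] Gt

lemma tendsto_Gt {ι : Type} {l : Filter ι} (p q r : Polynomial ℝ)
    {S P : ι → Matrix (Fin N) (Fin N) ℂ} {S0 P0 : Matrix (Fin N) (Fin N) ℂ}
    (hS : Tendsto S l (𝓝 S0)) (hP : Tendsto P l (𝓝 P0)) :
    Tendsto (fun i => Gt p q r (S i) (P i)) l (𝓝 (Gt p q r S0 P0)) := by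
  have h1 := (continuous_Gt (N := N) p q r).tendsto (S0, P0)
  have h2 : Tendsto (fun i => (S i, P i)) l (𝓝 (S0, P0)) := hS.prodMk_nhds hP
  exact h1.comp h2

/-! ## the pointwise inequality -/

lemma pointwise (hw : PW3Stmt) (hpos : PosStmt) {H : Type} [NormedAddCommGroup H]
    [InnerProductSpace ℂ H] {a ε Λ η : ℝ} (ha : 0 < a) (hε : 0 < ε) (hΛ : a * Λ < Real.pi)
    (hη : 0 ≤ η) {p q : Polynomial ℝ}
    (hp1 : ∀ s t u : ℝ, s ∈ Set.Icc ε Λ → t ∈ Set.Icc ε Λ → u ∈ Set.Icc ε Λ →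
        |p.eval (s + u) * p.eval (t + u) + dd p (s + u) (t + u) + a ^ 2 / 4 +
          a ^ 2 / 4 * Mker (a * s / Real.pi) (a * t / Real.pi) (a * u / Real.pi)| ≤ η)
    (hp2 : ∀ s t : ℝ, s ∈ Set.Icc ε Λ → t ∈ Set.Icc ε Λ →
        p.eval (s + t) * (q.eval s + q.eval t) + dd q s t ≤ -1 + η)
    {S : Matrix (Fin N) (Fin N) ℂ} (hS : S.IsHermitian)
    (hev : ∀ i, hS.eigenvalues i ∈ Set.Icc ε Λ) (v w : Fin N → H) :
    a ^ 2 / 4 * (Matrix.trace (gram v ^ 3)).re + (1 - η) * (Matrix.trace (gram v * gram v)).re -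
      η * (Matrix.trace (gram v)).re ^ 3 ≤
      (∑ i, ‖w i‖ ^ 2) - dGt p q S (gram v) (gramD v w) := by
  set U := (hS.eigenvectorUnitary : Matrix (Fin N) (Fin N) ℂ) with hU
  set P' := Uᴴ * gram v * U with hP'
  have h := hw N H p q S hS v w P' hP'
  have hPp : P'.PosSemidef := (gram_posSemidef v).conjTranspose_mul_mul_same U
  have htr : (Matrix.trace P').re = (Matrix.trace (gram v)).re := by
    rw [hP', trace_conj hS]
  have hsq : ∑ i, ∑ j, ‖P' i j‖ ^ 2 = (Matrix.trace (gram v * gram v)).re := by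
    rw [sum_norm_sq hPp.1, hP', conj_mul_conj hS, trace_conj hS]
  have hcu : ∑ i, ∑ j, ∑ k, (P' i j * P' j k * P' k i).re = (Matrix.trace (gram v ^ 3)).re := by
    rw [← kin_trace_cube]
    have e : ∀ X : Matrix (Fin N) (Fin N) ℂ, X ^ 3 = X * X * X := fun X => by
      rw [pow_succ, pow_two]
    rw [e, e, hP', conj_mul_conj hS, conj_mul_conj hS, trace_conj hS]
  have h1 := abs_cubic_le hPp (c := fun i j k =>
    (p.eval (hS.eigenvalues i + hS.eigenvalues k) * p.eval (hS.eigenvalues j + hS.eigenvalues k)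
          + dd p (hS.eigenvalues i + hS.eigenvalues k) (hS.eigenvalues j + hS.eigenvalues k) +
          a ^ 2 / 4 + a ^ 2 / 4 * Mker (a * hS.eigenvalues i / Real.pi)
            (a * hS.eigenvalues j / Real.pi) (a * hS.eigenvalues k / Real.pi)))
    hη fun i j k => hp1 _ _ _ (hev i) (hev j) (hev k)
  rw [htr] at h1
  have h1' := (abs_le.mp h1).2
  have hpp := hpos N P' hPp (fun i => a * hS.eigenvalues i / Real.pi) (fun i => by
    have e1 : 0 < hS.eigenvalues i := lt_of_lt_of_le hε (hev i).1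
    refine ⟨by positivity, ?_⟩
    rw [div_lt_one Real.pi_pos]
    exact (mul_le_mul_of_nonneg_left (hev i).2 ha.le).trans_lt hΛ)
  have hsplit : ∑ i, ∑ j, ∑ k, (P' i j * P' j k * P' k i).re *
      (p.eval (hS.eigenvalues i + hS.eigenvalues k) * p.eval (hS.eigenvalues j + hS.eigenvalues k)
          + dd p (hS.eigenvalues i + hS.eigenvalues k) (hS.eigenvalues j + hS.eigenvalues k) +
          a ^ 2 / 4 + a ^ 2 / 4 * Mker (a * hS.eigenvalues i / Real.pi)
            (a * hS.eigenvalues j / Real.pi) (a * hS.eigenvalues k / Real.pi)) =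
      ∑ i, ∑ j, ∑ k, (P' i j * P' j k * P' k i).re *
      (p.eval (hS.eigenvalues i + hS.eigenvalues k) * p.eval (hS.eigenvalues j + hS.eigenvalues k)
          + dd p (hS.eigenvalues i + hS.eigenvalues k) (hS.eigenvalues j + hS.eigenvalues k)) +
      a ^ 2 / 4 * ∑ i, ∑ j, ∑ k, (P' i j * P' j k * P' k i).re +
      a ^ 2 / 4 * ∑ i, ∑ j, ∑ k, (P' i j * P' j k * P' k i).re *
        Mker (a * hS.eigenvalues i / Real.pi)
            (a * hS.eigenvalues j / Real.pi) (a * hS.eigenvalues k / Real.pi) := by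
    simp only [Finset.mul_sum, ← Finset.sum_add_distrib]
    refine Finset.sum_congr rfl fun i _ => Finset.sum_congr rfl fun j _ =>
      Finset.sum_congr rfl fun k _ => ?_
    ring
  rw [hsplit, hcu] at h1'
  have h2 : ∑ i, ∑ j, ‖P' i j‖ ^ 2 * (p.eval (hS.eigenvalues i + hS.eigenvalues j) *
        (q.eval (hS.eigenvalues i) + q.eval (hS.eigenvalues j)) +
          dd q (hS.eigenvalues i) (hS.eigenvalues j)) ≤
        (-1 + η) * (Matrix.trace (gram v * gram v)).re := by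
    rw [← hsq, Finset.mul_sum]
    refine Finset.sum_le_sum fun i _ => ?_
    rw [Finset.mul_sum]
    refine Finset.sum_le_sum fun j _ => ?_
    rw [mul_comm (-1 + η)]
    exact mul_le_mul_of_nonneg_left (hp2 _ _ (hev i) (hev j)) (by positivity)
  have h3 : 0 ≤ a ^ 2 / 4 * ∑ i, ∑ j, ∑ k, (P' i j * P' j k * P' k i).re *
        Mker (a * hS.eigenvalues i / Real.pi)
            (a * hS.eigenvalues j / Real.pi) (a * hS.eigenvalues k / Real.pi) :=
    mul_nonneg (by positivity) hpp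
  have e : dGt p q S (gram v) (gramD v w) = dcalG p S (gram v) (gramD v w) +
    ((Matrix.trace (mpoly q S * gramD v w)).re + (Matrix.trace (dmpoly q S (gram v) * gram v)).re -
    (Matrix.trace (mpoly q S * mpoly q S * gram v)).re) := rfl
  rw [e]
  linarith

attribute [irreducible] dGt

section Main

variable {H : Type} [NormedAddCommGroup H] [InnerProductSpace ℂ H]

lemma SS_herm (ε : ℝ) {v : Fin N → ℝ → H} (hv : ∀ j, MemLp (v j) 2 volume) (s : Set ℝ) :
    (Kin2.SS ε v s).IsHermitian := by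
  refine Matrix.IsHermitian.add ?_ (setIntegral_gram_posSemidef hv s).1
  ext i j
  rw [Matrix.conjTranspose_apply]
  by_cases hij : i = j
  · subst hij; simp
  · simp [Matrix.one_apply_ne hij, Matrix.one_apply_ne (Ne.symm hij)]

/-- upper bound for `S` over a set -/
lemma le_diag {v : Fin N → ℝ → H} (hv : ∀ j, MemLp (v j) 2 volume) {z : Fin N → ℝ}
    (hle : (Matrix.diagonal (fun j => (z j : ℂ)) - Kin2.intGram v Set.univ).PosSemidef)
    {s : Set ℝ} (hs : MeasurableSet s) :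
    (Matrix.diagonal (fun j => (z j : ℂ)) - Kin2.intGram v s).PosSemidef := by
  have h1 := setIntegral_gram_posSemidef hv sᶜ
  have h2 := hle.add h1
  convert h2 using 1
  ext i j
  simp only [Kin2.intGram, Matrix.sub_apply, Matrix.add_apply, Matrix.of_apply]
  have := integral_add_compl hs (integrable_gram hv i j)
  rw [setIntegral_univ, ← this]
  ring

lemma ev_mem {v : Fin N → ℝ → H} (hv : ∀ j, MemLp (v j) 2 volume) {z : Fin N → ℝ} {M ε : ℝ}
    (hM : ∀ j, z j ≤ M)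
    (hle : (Matrix.diagonal (fun j => (z j : ℂ)) - Kin2.intGram v Set.univ).PosSemidef)
    {s : Set ℝ} (hs : MeasurableSet s) (hε : 0 < ε) (i : Fin N) :
    (SS_herm ε hv s).eigenvalues i ∈ Set.Icc ε (M + 2 * ε) := by
  constructor
  · exact eigenvalues_ge (SS_herm ε hv s) (setIntegral_gram_posSemidef hv s) rfl i
  · have h1 := le_diag hv hle hs
    have h2 : (Matrix.diagonal (fun j => ((M + ε - z j : ℝ) : ℂ)) :
        Matrix (Fin N) (Fin N) ℂ).PosSemidef := by
      rw [Matrix.posSemidef_diagonal_iff]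
      intro j
      have := hM j
      exact_mod_cast (by linarith : 0 ≤ M + ε - z j)
    have h3 := h2.add h1
    refine eigenvalues_le_of_le (SS_herm ε hv s) h3 ?_ i
    ext i j
    by_cases hij : i = j
    · subst hij
      simp [Kin2.SS]
      ring
    · simp [Kin2.SS, hij]

lemma int_cube [CompleteSpace H] (hb : BilStmt) {v w : Fin N → ℝ → H}
    (h : ∀ j, IsH1v (v j) (w j)) :
    Integrable (fun x => (Matrix.trace (Kin2.PP v x ^ 3)).re) volume := by
  have hc : Continuous (Kin2.PP v) := Kin2.cont_gram hb h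
  refine (Kin2.int_trace_cube hb h).mono' ?_ (ae_of_all _ fun x => ?_)
  · exact Continuous.aestronglyMeasurable (by fun_prop)
  · have hp := gram_posSemidef fun j => v j x
    have h1 := abs_cubic_le hp (c := fun _ _ _ => (1 : ℝ)) zero_le_one
      (fun _ _ _ => by rw [abs_one])
    simp only [mul_one, one_mul] at h1
    rw [← kin_trace_cube] at h1
    exact h1

lemma key (hb : BilStmt) (hc : CalcStmt) (hc3 : Calc3Stmt) (hw : PW3Stmt) (hp : Poly3Stmt)
    (hpos : PosStmt) [CompleteSpace H] {v w : Fin N → ℝ → H} (h : ∀ j, IsH1v (v j) (w j))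
    {a ε η M : ℝ} (ha : 0 < a) (hε : 0 < ε) (hη : 0 < η) {z : Fin N → ℝ} (hz : ∀ j, 0 ≤ z j)
    (hM0 : 0 ≤ M) (hM : ∀ j, z j ≤ M) (hMπ : a * (M + 2 * ε) < Real.pi)
    (hle : (Matrix.diagonal (fun j => (z j : ℂ)) - Kin2.intGram v Set.univ).PosSemidef) :
    a ^ 2 / 4 * (∫ x, (Matrix.trace (Kin2.PP v x ^ 3)).re) +
      (1 - η) * (∫ x, (Matrix.trace (Kin2.PP v x * Kin2.PP v x)).re) -
      η * (∫ x, (Matrix.trace (Kin2.PP v x)).re ^ 3) ≤
      (∑ j, ∫ x, ‖w j x‖ ^ 2) + ∑ j, Fa a (z j + ε) + 2 * N * η := by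
  have hv : ∀ j, MemLp (v j) 2 volume := fun j => (h j).1
  have hwl : ∀ j, MemLp (w j) 2 volume := fun j => (h j).2.1
  obtain ⟨p, q, r, hr, hp1, hp2, hp3⟩ := hp a ε (M + 2 * ε) ha hε (by linarith) hMπ η hη
  have hG := acv_Gt hc hc3 p q r hr (Kin2.acm_SS ε hv) (Kin2.acm_PP hb h)
  have hpw : ∀ x, a ^ 2 / 4 * (Matrix.trace (Kin2.PP v x ^ 3)).re +
      (1 - η) * (Matrix.trace (Kin2.PP v x * Kin2.PP v x)).re -
      η * (Matrix.trace (Kin2.PP v x)).re ^ 3 ≤ (∑ i, ‖w i x‖ ^ 2) -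
        dGt p q (Kin2.SS ε v (Set.Iic x)) (Kin2.PP v x) (Kin2.QQ v w x) := fun x =>
    pointwise hw hpos ha hε hMπ hη.le hp1 hp2 (SS_herm ε hv (Set.Iic x))
      (fun i => ev_mem hv hM hle measurableSet_Iic hε i) (fun j => v j x) (fun j => w j x)
  have i0 : Integrable (fun x => a ^ 2 / 4 * (Matrix.trace (Kin2.PP v x ^ 3)).re +
      (1 - η) * (Matrix.trace (Kin2.PP v x * Kin2.PP v x)).re) volume :=
    ((int_cube hb h).const_mul _).add ((Kin2.int_trace_sq hb h).const_mul _)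
  have i1 : Integrable (fun x => a ^ 2 / 4 * (Matrix.trace (Kin2.PP v x ^ 3)).re +
      (1 - η) * (Matrix.trace (Kin2.PP v x * Kin2.PP v x)).re -
      η * (Matrix.trace (Kin2.PP v x)).re ^ 3) volume :=
    i0.sub ((Kin2.int_trace_cube hb h).const_mul _)
  have i2 := Kin2.int_w hwl
  have hn : ∀ n : ℕ, (∫ x in (-(n:ℝ))..n, (a ^ 2 / 4 * (Matrix.trace (Kin2.PP v x ^ 3)).re +
      (1 - η) * (Matrix.trace (Kin2.PP v x * Kin2.PP v x)).re -
      η * (Matrix.trace (Kin2.PP v x)).re ^ 3)) ≤ (∫ x in (-(n:ℝ))..n, ∑ i, ‖w i x‖ ^ 2) -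
        (Gt p q r (Kin2.SS ε v (Set.Iic n)) (Kin2.PP v n) -
          Gt p q r (Kin2.SS ε v (Set.Iic (-n))) (Kin2.PP v (-n))) := by
    intro n
    rw [hG.2 (-(n:ℝ)) n, ← intervalIntegral.integral_sub i2.intervalIntegrable (hG.1 _ _)]
    have hn0 : (0:ℝ) ≤ n := Nat.cast_nonneg n
    exact intervalIntegral.integral_mono_on (by linarith) i1.intervalIntegrable
      (i2.intervalIntegrable.sub (hG.1 _ _)) fun x _ => hpw x
  have t1 : Tendsto (fun n : ℕ => (n : ℝ)) atTop atTop := tendsto_natCast_atTop_atTop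
  have t2 : Tendsto (fun n : ℕ => -(n : ℝ)) atTop atBot := tendsto_neg_atTop_atBot.comp t1
  have l1 := intervalIntegral_tendsto_integral i1 t2 t1
  have l2 := intervalIntegral_tendsto_integral i2 t2 t1
  have g1 : Tendsto (fun n : ℕ => Gt p q r (Kin2.SS ε v (Set.Iic n)) (Kin2.PP v n)) atTop
      (𝓝 (Gt p q r (Kin2.SS ε v Set.univ) 0)) :=
    tendsto_Gt p q r ((Kin2.tendsto_SS_top ε hv).comp t1) ((Kin2.tendsto_PP_top hb h).comp t1)
  have g2 : Tendsto (fun n : ℕ => Gt p q r (Kin2.SS ε v (Set.Iic (-n))) (Kin2.PP v (-n))) atTop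
      (𝓝 (Gt p q r ((ε : ℂ) • 1) 0)) :=
    tendsto_Gt p q r ((Kin2.tendsto_SS_bot ε hv).comp t2) ((Kin2.tendsto_PP_bot hb h).comp t2)
  have hlim := le_of_tendsto_of_tendsto' l1 (l2.sub (g1.sub g2)) hn
  rw [Gt_zero, Gt_zero] at hlim
  have e1 : ∫ x, (a ^ 2 / 4 * (Matrix.trace (Kin2.PP v x ^ 3)).re +
      (1 - η) * (Matrix.trace (Kin2.PP v x * Kin2.PP v x)).re -
      η * (Matrix.trace (Kin2.PP v x)).re ^ 3) =
      a ^ 2 / 4 * (∫ x, (Matrix.trace (Kin2.PP v x ^ 3)).re) +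
      (1 - η) * (∫ x, (Matrix.trace (Kin2.PP v x * Kin2.PP v x)).re) -
      η * ∫ x, (Matrix.trace (Kin2.PP v x)).re ^ 3 := by
    have j1 : Integrable (fun x => a ^ 2 / 4 * (Matrix.trace (Kin2.PP v x ^ 3)).re) volume :=
      (int_cube hb h).const_mul _
    have j2 : Integrable (fun x => (1 - η) * (Matrix.trace (Kin2.PP v x * Kin2.PP v x)).re)
        volume := (Kin2.int_trace_sq hb h).const_mul _
    have j3 : Integrable (fun x => η * (Matrix.trace (Kin2.PP v x)).re ^ 3) volume :=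
      (Kin2.int_trace_cube hb h).const_mul _
    rw [integral_sub i0 j3, integral_add j1 j2, integral_const_mul, integral_const_mul,
      integral_const_mul]
  have e2 : ∫ x, ∑ i, ‖w i x‖ ^ 2 = ∑ i, ∫ x, ‖w i x‖ ^ 2 :=
    integral_finsetSum _ fun j _ => (memLp_two_iff_integrable_sq_norm (hwl j).1).1 (hwl j)
  rw [e1, e2] at hlim
  -- the boundary terms
  have hSu := SS_herm ε hv Set.univ
  have hevu := fun i => ev_mem hv hM hle MeasurableSet.univ hε i
  have b1 : -(Matrix.trace (mpoly r (Kin2.SS ε v Set.univ))).re ≤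
      ∑ j, Fa a (z j + ε) + N * η := by
    rw [trace_mpoly hSu, ← Finset.sum_neg_distrib]
    have c1 : ∑ i, -(r.eval (hSu.eigenvalues i)) ≤ ∑ i : Fin N, (Fa a (hSu.eigenvalues i) + η) :=
      Finset.sum_le_sum fun i _ => by
        have := (abs_le.mp (hp3 _ (hevu i))).1
        linarith
    rw [Finset.sum_add_distrib, Finset.sum_const, Finset.card_univ, Fintype.card_fin,
      nsmul_eq_mul] at c1
    have c2 : ∑ i, Fa a (hSu.eigenvalues i) ≤ ∑ j, Fa a (z j + ε) := by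
      refine peierls hSu ha (fun j => ⟨by linarith [hz j], ?_⟩) ?_
        fun i => hε.le.trans (hevu i).1
      · rw [lt_div_iff₀ ha, mul_comm]
        refine lt_of_le_of_lt (mul_le_mul_of_nonneg_left ?_ ha.le) hMπ
        linarith [hM j]
      · convert hle using 1
        ext i j
        by_cases hij : i = j
        · subst hij
          simp [Kin2.SS]
          ring
        · simp [Kin2.SS, hij]
    linarith
  have b2 : (Matrix.trace (mpoly r ((ε : ℂ) • (1 : Matrix (Fin N) (Fin N) ℂ)))).re ≤ N * η := by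
    have hSe : ((ε : ℂ) • (1 : Matrix (Fin N) (Fin N) ℂ)).IsHermitian := by
      ext i j
      rw [Matrix.conjTranspose_apply]
      by_cases hij : i = j
      · subst hij; simp
      · simp [Matrix.one_apply_ne hij, Matrix.one_apply_ne (Ne.symm hij)]
    have h0 : (0 : Matrix (Fin N) (Fin N) ℂ).PosSemidef := Matrix.PosSemidef.zero
    rw [trace_mpoly hSe]
    have c1 : ∑ i, r.eval (hSe.eigenvalues i) ≤ ∑ i : Fin N, η := by
      refine Finset.sum_le_sum fun i _ => ?_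
      have d1 : ε ≤ hSe.eigenvalues i := eigenvalues_ge hSe h0 (by rw [add_zero]) i
      have d2 : hSe.eigenvalues i ≤ ε + (Matrix.trace (0 : Matrix (Fin N) (Fin N) ℂ)).re :=
        eigenvalues_le hSe h0 (by rw [add_zero]) i
      have d3 : hSe.eigenvalues i = ε := by
        simp at d2
        linarith
      rw [d3]
      have d4 := (abs_le.mp (hp3 ε ⟨le_rfl, by linarith⟩)).2
      have d5 : 0 ≤ Fa a ε := by
        refine Fa_nonneg ha hε.le ?_
        rw [lt_div_iff₀ ha, mul_comm]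
        refine lt_of_le_of_lt (mul_le_mul_of_nonneg_left ?_ ha.le) hMπ
        linarith
      linarith
    rw [Finset.sum_const, Finset.card_univ, Fintype.card_fin, nsmul_eq_mul] at c1
    exact c1
  linarith

lemma key2 (hb : BilStmt) (hc : CalcStmt) (hc3 : Calc3Stmt) (hw : PW3Stmt) (hp : Poly3Stmt)
    (hpos : PosStmt) [CompleteSpace H] {v w : Fin N → ℝ → H} (h : ∀ j, IsH1v (v j) (w j))
    {a ε M : ℝ} (ha : 0 < a) (hε : 0 < ε) {z : Fin N → ℝ} (hz : ∀ j, 0 ≤ z j)
    (hM0 : 0 ≤ M) (hM : ∀ j, z j ≤ M) (hMπ : a * (M + 2 * ε) < Real.pi)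
    (hle : (Matrix.diagonal (fun j => (z j : ℂ)) - Kin2.intGram v Set.univ).PosSemidef) :
    a ^ 2 / 4 * (∫ x, (Matrix.trace (Kin2.PP v x ^ 3)).re) +
      (∫ x, (Matrix.trace (Kin2.PP v x * Kin2.PP v x)).re) ≤
      (∑ j, ∫ x, ‖w j x‖ ^ 2) + ∑ j, Fa a (z j + ε) := by
  have hk := fun (η : ℝ) (hη : 0 < η) => key hb hc hc3 hw hp hpos h ha hε hη hz hM0 hM hMπ hle
  generalize (∫ x, (Matrix.trace (Kin2.PP v x ^ 3)).re) = I1 at *
  generalize (∫ x, (Matrix.trace (Kin2.PP v x * Kin2.PP v x)).re) = I2 at *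
  generalize (∫ x, (Matrix.trace (Kin2.PP v x)).re ^ 3) = I3 at *
  generalize (∑ j, ∫ x, ‖w j x‖ ^ 2) = I4 at *
  generalize (∑ j, Fa a (z j + ε)) = I5 at *
  have hcont : Continuous fun η : ℝ => a ^ 2 / 4 * I1 + (1 - η) * I2 - η * I3 - 2 * N * η := by
    fun_prop
  have hlim := (hcont.tendsto 0).mono_left (nhdsWithin_le_nhds (s := Set.Ioi 0))
  have hle := le_of_tendsto (b := I4 + I5) hlim
    (eventually_nhdsWithin_of_forall fun η hη => by
      have := hk η hη
      linarith)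
  simpa using hle

end Main

end KinA

theorem kinA (hb : BilStmt) (hc : CalcStmt) (hc3 : Calc3Stmt) (hw : PW3Stmt) (hp : Poly3Stmt)
    (hpos : PosStmt) : KinAStmt := by
  intro H _ _ _ N v w h a z ha hz hle
  have hv : ∀ j, MemLp (v j) 2 volume := fun j => (h j).1
  have e1 : ∀ x, (Matrix.trace (gram (fun j => v j x) ^ 2)).re =
      (Matrix.trace (Kin2.PP v x * Kin2.PP v x)).re := fun x => by
    rw [pow_two]; rfl
  have e3 : ∀ x, (Matrix.trace (gram (fun j => v j x) ^ 3)).re =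
      (Matrix.trace (Kin2.PP v x ^ 3)).re := fun x => rfl
  simp only [e1, e3]
  refine ⟨KinA.int_cube hb h, Kin2.int_trace_sq hb h, ?_⟩
  have e2 : (Matrix.of fun i j => ∫ x, inner ℂ (v j x) (v i x) : Matrix (Fin N) (Fin N) ℂ) =
      Kin2.intGram v Set.univ := by
    ext i j
    simp [Kin2.intGram, gram]
  rw [e2] at hle
  obtain ⟨M, hM0, hMπ, hM⟩ : ∃ M : ℝ, 0 ≤ M ∧ a * M < Real.pi ∧ ∀ j, z j ≤ M := by
    rcases isEmpty_or_nonempty (Fin N) with hE | hE
    · exact ⟨0, le_rfl, by rw [mul_zero]; exact Real.pi_pos, fun j => hE.elim j⟩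
    · obtain ⟨j0, -, hj0⟩ := Finset.exists_max_image Finset.univ z Finset.univ_nonempty
      exact ⟨z j0, (hz j0).1, (hz j0).2, fun j => hj0 j (Finset.mem_univ j)⟩
  have hcont : ContinuousAt (fun ε : ℝ => (∑ j, ∫ x, ‖w j x‖ ^ 2) + ∑ j, Fa a (z j + ε)) 0 := by
    refine continuousAt_const.add ?_
    refine tendsto_finsetSum _ fun j _ => ?_
    have h1 : ContinuousAt (Fa a) (z j + 0) := by
      rw [add_zero]
      refine (KinA.Fa_deriv ha (hz j).1 ?_).continuousAt
      rw [lt_div_iff₀ ha, mul_comm]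
      exact (hz j).2
    exact ContinuousAt.comp (f := fun ε : ℝ => z j + ε) h1 (by fun_prop)
  have hlim := hcont.tendsto.mono_left (nhdsWithin_le_nhds (s := Set.Ioi 0))
  have hev : ∀ᶠ ε in 𝓝[>] (0:ℝ), a * (M + 2 * ε) < Real.pi := by
    have hc1 : Continuous fun ε : ℝ => a * (M + 2 * ε) := by fun_prop
    have h2 := (hc1.tendsto 0).mono_left (nhdsWithin_le_nhds (s := Set.Ioi 0))
    simp only [mul_zero, add_zero] at h2
    exact h2.eventually (eventually_lt_nhds hMπ)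
  have hge := ge_of_tendsto hlim ((hev.and self_mem_nhdsWithin).mono fun ε hε =>
    KinA.key2 hb hc hc3 hw hp hpos h ha hε.2 (fun j => (hz j).1) hM0 hM hε.1 hle)
  simpa using hge

end Pool.Agent.LT
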