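import Pool.Agent.LT.Defs3
import Pool.Agent.LT.Lift1

/-!
# Lifting the inequality with exponent `(3 + δ)/2` in dimension `d` to exponent `1 + δ/2` in
dimension `d + 1` (module LIFTC of MP_4c716f_mp)

(mathematics: helper15; formalisation: helper5)
-/

set_option autoImplicit false

namespace Pool.Agent.LT

open MeasureTheory Matrix Finset
open scoped ComplexConjugate ComplexOrder ContDiff ENNReal

namespace LiftC

open Lift1

/-! ## Scaling test functions -/

lemma testFn_smul {d : ℕ} {f : (Fin d → ℝ) → ℂ} (hf : TestFn d f) (c : ℂ) :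
    TestFn d fun y => c * f y :=
  ⟨contDiff_const.mul hf.1, hf.2.mul_left⟩

lemma kinE_smul {d : ℕ} {f : (Fin d → ℝ) → ℂ} (hf : TestFn d f) (t : ℝ) :
    kinE (fun y => (t : ℂ) * f y) = t ^ 2 * kinE f := by
  unfold kinE
  rw [Finset.mul_sum]
  refine Finset.sum_congr rfl fun i _ => ?_
  rw [← integral_const_mul]
  congr 1
  funext y
  have hd : DifferentiableAt ℝ f y := hf.1.contDiffAt.differentiableAt (by simp)
  rw [fderiv_const_mul hd]
  rw [_root_.smul_apply, norm_smul, mul_pow, Complex.norm_real, Real.norm_eq_abs,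
    sq_abs]

lemma integrable_pot {d : ℕ} {V : (Fin d → ℝ) → ℝ} {f : (Fin d → ℝ) → ℂ} (hV : PotFn d V)
    (hf : TestFn d f) : Integrable (fun y => V y * ‖f y‖ ^ 2) volume := by
  refine Continuous.integrable_of_hasCompactSupport ?_ hV.2.1.mul_right
  exact hV.1.mul (hf.1.continuous.norm.pow 2)

lemma formE_smul {d N : ℕ} {V : (Fin d → ℝ) → ℝ} {f : Fin N → (Fin d → ℝ) → ℂ}
    (hf : ∀ j, TestFn d (f j)) (hV : PotFn d V) (t : Fin N → ℝ) :
    formE V (fun j y => (t j : ℂ) * f j y) = ∑ j, t j ^ 2 * form1 V (f j) := by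
  unfold formE form1
  have h2 : (∫ y, V y * ∑ j, ‖(t j : ℂ) * f j y‖ ^ 2) =
      ∑ j, t j ^ 2 * ∫ y, V y * ‖f j y‖ ^ 2 := by
    simp_rw [← integral_const_mul]
    rw [← integral_finsetSum _ fun j _ => (integrable_pot hV (hf j)).const_mul _]
    congr 1
    funext y
    rw [Finset.mul_sum]
    refine Finset.sum_congr rfl fun j _ => ?_
    rw [norm_mul, mul_pow, Complex.norm_real, Real.norm_eq_abs, sq_abs]
    ring
  rw [h2, ← Finset.sum_sub_distrib]
  refine Finset.sum_congr rfl fun j _ => ?_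
  rw [kinE_smul (hf j), mul_sub]

lemma gramF_smul {d N : ℕ} (f : Fin N → (Fin d → ℝ) → ℂ) (t : Fin N → ℝ) (i k : Fin N) :
    gramF (fun j y => (t j : ℂ) * f j y) i k = (t i : ℂ) * (t k : ℂ) * gramF f i k := by
  simp only [gramF, Matrix.of_apply]
  rw [← integral_const_mul]
  congr 1
  funext y
  rw [map_mul, Complex.conj_ofReal]
  ring

/-! ## Measurability -/

lemma measurable_slice {d : ℕ} {E : Type*} [NormedAddCommGroup E] [NormedSpace ℝ E]
    [MeasurableSpace E] [BorelSpace E] [SecondCountableTopology E]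
    {g : (Fin (d + 1) → ℝ) → E} (hg : Continuous g) :
    Measurable fun x : ℝ => ∫ y : Fin d → ℝ, g (Fin.cons x y) := by
  have hc : Continuous fun z : ℝ × (Fin d → ℝ) => (Fin.cons z.1 z.2 : Fin (d + 1) → ℝ) :=
    Continuous.finCons (A := fun _ => ℝ) continuous_fst continuous_snd
  have h : StronglyMeasurable fun z : ℝ × (Fin d → ℝ) => g (Fin.cons z.1 z.2) :=
    (hg.comp hc).stronglyMeasurable
  exact h.integral_prod_right'.measurable

lemma measurable_kinE_slice {d : ℕ} {f : (Fin (d + 1) → ℝ) → ℂ} (hf : TestFn (d + 1) f) :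
    Measurable fun x : ℝ => kinE fun y : Fin d → ℝ => f (Fin.cons x y) := by
  unfold kinE
  refine Finset.measurable_fun_sum _ fun i _ => ?_
  have hc : Continuous fun y => ‖fderiv ℝ f y (Pi.single i.succ 1)‖ ^ 2 :=
    ((hf.1.continuous_fderiv (by simp)).clm_apply continuous_const).norm.pow 2
  have h := measurable_slice hc
  have e : (fun x : ℝ => ∫ y : Fin d → ℝ,
      ‖fderiv ℝ (fun y : Fin d → ℝ => f (Fin.cons x y)) y (Pi.single i 1)‖ ^ 2) =
      fun x : ℝ => ∫ y : Fin d → ℝ, ‖fderiv ℝ f (Fin.cons x y) (Pi.single i.succ 1)‖ ^ 2 := by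
    funext x
    congr 1
    funext y
    rw [fderiv_slice hf]
  rw [e]
  exact h

lemma measurable_form1_slice {d : ℕ} {V : (Fin (d + 1) → ℝ) → ℝ} {f : (Fin (d + 1) → ℝ) → ℂ}
    (hV : PotFn (d + 1) V) (hf : TestFn (d + 1) f) :
    Measurable fun x : ℝ => form1 (fun y : Fin d → ℝ => V (Fin.cons x y))
      fun y : Fin d → ℝ => f (Fin.cons x y) := by
  unfold form1
  exact (measurable_kinE_slice hf).sub
    (measurable_slice (g := fun z => V z * ‖f z‖ ^ 2) (hV.1.mul (hf.1.continuous.norm.pow 2)))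

lemma measurable_gramF_slice {d N : ℕ} {f : Fin N → (Fin (d + 1) → ℝ) → ℂ}
    (hf : ∀ j, TestFn (d + 1) (f j)) (i k : Fin N) :
    Measurable fun x : ℝ => gramF (fun j (y : Fin d → ℝ) => f j (Fin.cons x y)) i k := by
  simp only [gramF, Matrix.of_apply]
  exact measurable_slice (g := fun z => f i z * conj (f k z))
    ((hf i).1.continuous.mul (Complex.continuous_conj.comp (hf k).1.continuous))

section Mat

variable {α : Type*} [MeasurableSpace α] {N : ℕ}

lemma meas_mul {A B : α → Matrix (Fin N) (Fin N) ℂ} (hA : ∀ i j, Measurable fun p => A p i j)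
    (hB : ∀ i j, Measurable fun p => B p i j) (i j : Fin N) :
    Measurable fun p => (A p * B p) i j := by
  simp only [Matrix.mul_apply]
  exact Finset.measurable_fun_sum _ fun k _ => (hA i k).mul (hB k j)

lemma meas_pow {A : α → Matrix (Fin N) (Fin N) ℂ} (hA : ∀ i j, Measurable fun p => A p i j)
    (n : ℕ) : ∀ i j, Measurable fun p => (A p ^ n) i j := by
  induction n with
  | zero => intro i j; simp only [pow_zero]; exact measurable_const
  | succ n ih =>
    intro i j
    simp only [pow_succ]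
    exact meas_mul ih hA i j

lemma meas_trace {A : α → Matrix (Fin N) (Fin N) ℂ} (hA : ∀ i j, Measurable fun p => A p i j) :
    Measurable fun p => (Matrix.trace (A p)).re := by
  unfold Matrix.trace
  exact Complex.measurable_re.comp (Finset.measurable_fun_sum _ fun i _ => hA i i)

end Mat

/-- the energy of the slice at `x` of the functions `√(z j) g j` -/
noncomputable def Jf {d N : ℕ} (V : (Fin (d + 1) → ℝ) → ℝ) (g : Fin N → (Fin (d + 1) → ℝ) → ℂ)
    (a : ℝ) (z : Fin N → ℝ) (x : ℝ) : ℝ :=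
  formE (fun y => V (Fin.cons x y)) (fun j (y : Fin d → ℝ) => (√(z j) : ℂ) * g j (Fin.cons x y)) +
    (Matrix.trace
      (gramF (fun j (y : Fin d → ℝ) => (√(z j) : ℂ) * g j (Fin.cons x y)) ^ 2)).re +
    a ^ 2 / 4 * (Matrix.trace
      (gramF (fun j (y : Fin d → ℝ) => (√(z j) : ℂ) * g j (Fin.cons x y)) ^ 3)).re

lemma testFn_slice (hs : SliceStmt) {d : ℕ} {f : (Fin (d + 1) → ℝ) → ℂ} (hf : TestFn (d + 1) f)
    (x : ℝ) : TestFn d fun y => f (Fin.cons x y) := by
  obtain ⟨v, w, _, _, _, h, _⟩ := hs d f hf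
  exact h x

lemma measurable_Jf (hs : SliceStmt) {d N : ℕ} {V : (Fin (d + 1) → ℝ) → ℝ}
    {g : Fin N → (Fin (d + 1) → ℝ) → ℂ} (hg : ∀ j, TestFn (d + 1) (g j)) (hV : PotFn (d + 1) V)
    {z : ℝ → Fin N → ℝ} (hz : ∀ j, Measurable fun a => z a j) :
    Measurable fun p : ℝ × ℝ => Jf V g p.1 (z p.1) p.2 := by
  have hzp : ∀ j, Measurable fun p : ℝ × ℝ => √(z p.1 j) := fun j =>
    ((hz j).comp measurable_fst).sqrt
  have hM : ∀ i k, Measurable fun p : ℝ × ℝ =>
      gramF (fun j (y : Fin d → ℝ) => (√(z p.1 j) : ℂ) * g j (Fin.cons p.2 y)) i k := by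
    intro i k
    have e : (fun p : ℝ × ℝ =>
        gramF (fun j (y : Fin d → ℝ) => (√(z p.1 j) : ℂ) * g j (Fin.cons p.2 y)) i k) =
        fun p : ℝ × ℝ => ((√(z p.1 i) : ℝ) : ℂ) * ((√(z p.1 k) : ℝ) : ℂ) *
          gramF (fun j (y : Fin d → ℝ) => g j (Fin.cons p.2 y)) i k := by
      funext p
      exact gramF_smul (fun j (y : Fin d → ℝ) => g j (Fin.cons p.2 y)) (fun j => √(z p.1 j)) i k
    rw [e]
    exact ((Complex.measurable_ofReal.comp (hzp i)).mul
      (Complex.measurable_ofReal.comp (hzp k))).mul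
        ((measurable_gramF_slice hg i k).comp measurable_snd)
  have hF : Measurable fun p : ℝ × ℝ => formE (fun y => V (Fin.cons p.2 y))
      (fun j (y : Fin d → ℝ) => (√(z p.1 j) : ℂ) * g j (Fin.cons p.2 y)) := by
    have e : (fun p : ℝ × ℝ => formE (fun y => V (Fin.cons p.2 y))
        (fun j (y : Fin d → ℝ) => (√(z p.1 j) : ℂ) * g j (Fin.cons p.2 y))) =
        fun p : ℝ × ℝ => ∑ j, √(z p.1 j) ^ 2 * form1 (fun y => V (Fin.cons p.2 y))
          fun y : Fin d → ℝ => g j (Fin.cons p.2 y) := by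
      funext p
      exact formE_smul (fun j => testFn_slice hs (hg j) p.2) (potFn_slice hV p.2)
        (fun j => √(z p.1 j))
    rw [e]
    exact Finset.measurable_fun_sum _ fun j _ => ((hzp j).pow_const 2).mul
      ((measurable_form1_slice hV (hg j)).comp measurable_snd)
  unfold Jf
  exact (hF.add (meas_trace (meas_pow hM 2))).add
    (((measurable_fst.pow_const 2).div_const 4).mul (meas_trace (meas_pow hM 3)))

lemma posSemidef_scale {d N : ℕ} {g : Fin N → (Fin d → ℝ) → ℂ}
    (hone : (1 - gramF g).PosSemidef) {z : Fin N → ℝ} (hz : ∀ j, 0 ≤ z j) :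
    (Matrix.diagonal (fun j => (z j : ℂ)) - gramF (fun j y => (√(z j) : ℂ) * g j y) :
      Matrix (Fin N) (Fin N) ℂ).PosSemidef := by
  have h := hone.mul_mul_conjTranspose_same
    (Matrix.diagonal (fun j => ((√(z j) : ℝ) : ℂ)) : Matrix (Fin N) (Fin N) ℂ)
  have e : (Matrix.diagonal (fun j => (z j : ℂ)) - gramF (fun j y => (√(z j) : ℂ) * g j y) :
      Matrix (Fin N) (Fin N) ℂ) =
      Matrix.diagonal (fun j => ((√(z j) : ℝ) : ℂ)) * (1 - gramF g) *
        (Matrix.diagonal (fun j => ((√(z j) : ℝ) : ℂ)))ᴴ := by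
    rw [Matrix.diagonal_conjTranspose, Matrix.mul_sub, Matrix.sub_mul, Matrix.mul_one,
      Matrix.diagonal_mul_diagonal]
    congr 1
    · congr 1
      funext j
      simp only [Pi.star_apply, RCLike.star_def, Complex.conj_ofReal]
      rw [← Complex.ofReal_mul, Real.mul_self_sqrt (hz j)]
    · ext i k
      rw [gramF_smul, Matrix.mul_diagonal, Matrix.diagonal_mul]
      simp only [Pi.star_apply, RCLike.star_def, Complex.conj_ofReal]
      ring
  rw [e]
  exact h

lemma integral_three {F A B : ℝ → ℝ} (hF : Integrable F volume) (hA : Integrable A volume)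
    (hB : Integrable B volume) (c : ℝ) :
    Integrable (fun x => F x + A x + c * B x) volume ∧
      ∫ x, (F x + A x + c * B x) = (∫ x, F x) + (∫ x, A x) + c * ∫ x, B x := by
  have hFA : Integrable (fun x => F x + A x) volume := hF.add hA
  have hcB : Integrable (fun x => c * B x) volume := hB.const_mul c
  refine ⟨hFA.add hcB, ?_⟩
  rw [integral_add hFA hcB, integral_add hF hA, integral_const_mul]

lemma stepA0 (hk : KinAStmt) (hs : SliceStmt) {d N : ℕ} {V : (Fin (d + 1) → ℝ) → ℝ}
    {f : Fin N → (Fin (d + 1) → ℝ) → ℂ} (hf : ∀ j, TestFn (d + 1) (f j)) (hV : PotFn (d + 1) V)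
    {a : ℝ} {z : Fin N → ℝ}
    (hpsd : (Matrix.diagonal (fun j => (z j : ℂ)) - gramF f :
      Matrix (Fin N) (Fin N) ℂ).PosSemidef) (ha : 0 < a)
    (hz : ∀ j, 0 ≤ z j ∧ a * z j < Real.pi) :
    Integrable (fun x => formE (fun y => V (Fin.cons x y))
        (fun j (y : Fin d → ℝ) => f j (Fin.cons x y)) +
      (Matrix.trace (gramF (fun j (y : Fin d → ℝ) => f j (Fin.cons x y)) ^ 2)).re +
      a ^ 2 / 4 *
        (Matrix.trace (gramF (fun j (y : Fin d → ℝ) => f j (Fin.cons x y)) ^ 3)).re) volume ∧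
      ∫ x, (formE (fun y => V (Fin.cons x y))
        (fun j (y : Fin d → ℝ) => f j (Fin.cons x y)) +
      (Matrix.trace (gramF (fun j (y : Fin d → ℝ) => f j (Fin.cons x y)) ^ 2)).re +
      a ^ 2 / 4 *
        (Matrix.trace (gramF (fun j (y : Fin d → ℝ) => f j (Fin.cons x y)) ^ 3)).re) ≤
        formE V f + ∑ j, Fa a (z j) := by
  choose v w hvw hv hw htest hkin using fun j => hs d _ (hf j)
  -- gram of the slices
  have hgram : ∀ x : ℝ, gram (fun j => v j x) =
      gramF (fun j (y : Fin d → ℝ) => f j (Fin.cons x y)) :=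
    fun x => gram_Lp _ _ fun j => hv j x
  have hG : (Matrix.of fun i j => ∫ x, inner ℂ (v j x) (v i x) : Matrix (Fin N) (Fin N) ℂ) =
      gramF f := by
    ext i j
    have h1 : ∀ x, inner ℂ (v j x) (v i x) =
        ∫ y : Fin d → ℝ, f i (Fin.cons x y) * conj (f j (Fin.cons x y)) := by
      intro x
      have := congrFun (congrFun (hgram x) i) j
      simpa [gram, gramF] using this
    simp only [Matrix.of_apply, gramF]
    simp_rw [h1]
    rw [integral_cons (integrable_mul (hf i) (hf j))]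
  obtain ⟨hi3, hi2, hle⟩ := hk (Lp ℂ 2 (volume : Measure (Fin d → ℝ))) N v w hvw a z ha hz
    (by rw [hG]; exact hpsd)
  simp_rw [hgram] at hi3 hi2 hle
  -- the form of the slices
  have hq : Integrable (fun y => V y * ∑ j, ‖f j y‖ ^ 2) volume := by
    refine Continuous.integrable_of_hasCompactSupport ?_ hV.2.1.mul_right
    exact hV.1.mul (continuous_finsetSum _ fun j _ => (hf j).1.continuous.norm.pow 2)
  have hkI : ∀ j, Integrable (fun x : ℝ => kinE fun y : Fin d → ℝ =>
      f j (Fin.cons x y)) volume := fun j => integrable_kinE_slice (hf j)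
  have hK : Integrable (fun x : ℝ => ∑ j, kinE fun y : Fin d → ℝ =>
      f j (Fin.cons x y)) volume := integrable_finsetSum univ fun j _ => hkI j
  have hQ := integrable_slice hq
  have hF1 : Integrable (fun x : ℝ => formE (fun y => V (Fin.cons x y))
      (fun j (y : Fin d → ℝ) => f j (Fin.cons x y))) volume := hK.sub hQ
  have hF2 : ∫ x : ℝ, formE (fun y => V (Fin.cons x y))
      (fun j (y : Fin d → ℝ) => f j (Fin.cons x y)) =
      formE V f - ∑ j, ∫ x, ‖w j x‖ ^ 2 := by
    have h1 : ∫ x : ℝ, formE (fun y => V (Fin.cons x y))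
        (fun j (y : Fin d → ℝ) => f j (Fin.cons x y)) =
        (∫ x : ℝ, ∑ j, kinE fun y : Fin d → ℝ => f j (Fin.cons x y)) -
          ∫ x : ℝ, ∫ y : Fin d → ℝ, V (Fin.cons x y) *
            ∑ j, ‖f j (Fin.cons x y)‖ ^ 2 := integral_sub hK hQ
    rw [h1, ← integral_cons hq, integral_finsetSum _ fun j _ => hkI j]
    unfold formE
    have h2 : ∑ j, kinE (f j) = (∑ j, ∫ x, ‖w j x‖ ^ 2) +
        ∑ j, ∫ x : ℝ, kinE fun y : Fin d → ℝ => f j (Fin.cons x y) := by
      rw [← Finset.sum_add_distrib]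
      exact Finset.sum_congr rfl fun j _ => hkin j
    rw [h2]
    ring
  obtain ⟨hI, hsum⟩ := integral_three hF1 hi2 hi3 (a ^ 2 / 4)
  rw [hF2] at hsum
  refine ⟨hI, ?_⟩
  rw [hsum]
  linarith

lemma stepA (hk : KinAStmt) (hs : SliceStmt) {d N : ℕ} {V : (Fin (d + 1) → ℝ) → ℝ}
    {g : Fin N → (Fin (d + 1) → ℝ) → ℂ} (hg : ∀ j, TestFn (d + 1) (g j)) (hV : PotFn (d + 1) V)
    (hone : (1 - gramF g).PosSemidef) {a : ℝ} {z : Fin N → ℝ} (ha : 0 < a)
    (hz : ∀ j, 0 ≤ z j ∧ a * z j < Real.pi) :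
    Integrable (fun x => Jf V g a z x) volume ∧
      ∫ x, Jf V g a z x ≤ ∑ j, z j * form1 V (g j) + ∑ j, Fa a (z j) := by
  have hf : ∀ j, TestFn (d + 1) (fun y => (√(z j) : ℂ) * g j y) := fun j => testFn_smul (hg j) _
  have hform : formE V (fun j y => (√(z j) : ℂ) * g j y) = ∑ j, z j * form1 V (g j) := by
    rw [formE_smul hg hV fun j => √(z j)]
    refine Finset.sum_congr rfl fun j _ => ?_
    rw [Real.sq_sqrt (hz j).1]
  rw [← hform]
  exact stepA0 hk hs (f := fun j y => (√(z j) : ℂ) * g j y) hf hV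
    (posSemidef_scale hone fun j => (hz j).1) ha hz

lemma measurable_za (e : ℝ) : Measurable fun a : ℝ => za a e := by
  unfold za
  exact (measurable_const.div measurable_id).mul
    (Real.measurable_arctan.comp (measurable_id.mul_const _))

lemma measurable_tan : Measurable Real.tan := by
  have : Real.tan = fun x => Real.sin x / Real.cos x := by
    funext x; exact Real.tan_eq_sin_div_cos x
  rw [this]
  exact Real.measurable_sin.div Real.measurable_cos

lemma measurable_intA (δ e : ℝ) :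
    Measurable fun a : ℝ => ENNReal.ofReal (a ^ (-δ) * (za a e * e - Fa a (za a e))) := by
  have h1 : Measurable fun a : ℝ => a ^ (-δ) := measurable_id.pow_const _
  have h2 := measurable_za e
  have h3 : Measurable fun a : ℝ => Fa a (za a e) := by
    unfold Fa
    exact (((measurable_const.div measurable_id).mul
      (measurable_tan.comp ((measurable_id.mul h2).div_const 2))).sub h2).div
        (measurable_id.pow_const 2)
  exact (h1.mul ((h2.mul_const e).sub h3)).ennreal_ofReal

lemma measurable_intB (δ μ : ℝ) :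
    Measurable fun a : ℝ => ENNReal.ofReal (a ^ (-δ) * Ua a μ) := by
  have h1 : Measurable fun a : ℝ => a ^ (-δ) := measurable_id.pow_const _
  have h2 : Measurable fun a : ℝ => rhoa a μ := by
    unfold rhoa
    fun_prop
  have h3 : Measurable fun a : ℝ => Ua a μ := by
    unfold Ua
    split_ifs
    · fun_prop
    · exact measurable_const
  exact (h1.mul h3).ennreal_ofReal

lemma integral_neg_le_lintegral {α : Type*} [MeasurableSpace α] {m : Measure α} {f : α → ℝ}
    (hf : Integrable f m) :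
    ENNReal.ofReal (-∫ x, f x ∂m) ≤ ∫⁻ x, ENNReal.ofReal (-f x) ∂m := by
  rw [← integral_neg]
  have h1 : ∫ x, -f x ∂m ≤ ∫ x, max (-f x) 0 ∂m :=
    integral_mono hf.neg hf.neg.pos_part fun x => le_max_left _ _
  refine le_trans (ENNReal.ofReal_le_ofReal h1) ?_
  have h2 : Integrable (fun x => max (-f x) 0) m := hf.neg.pos_part
  rw [ofReal_integral_eq_lintegral_ofReal h2
    (Filter.Eventually.of_forall fun x => le_max_right _ _)]
  refine lintegral_mono fun x => ?_
  simp

end LiftC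

open Lift1 LiftC in
/-- (LIFTC) -/
theorem liftC (hk : KinAStmt) (hs : SliceStmt) (hu : UaStmt) (hA : IntAStmt) (hB : IntBStmt)
    (hC : ConstStmt) (hJ : SliceJStmt) : LiftCStmt := by
  intro d δ h0 h1 hES N g V hg hV hone
  obtain ⟨hcA, hcB, hconst⟩ := hC δ d h0 h1
  obtain ⟨hu1, hu2, hu3⟩ := hu
  set e : Fin N → ℝ := fun j => max (-form1 V (g j)) 0 with he
  have he0 : ∀ j, 0 ≤ e j := fun j => le_max_right _ _
  set s : ℝ := (3 + δ) / 2 with hsdef
  have hs0 : 0 < s := by rw [hsdef]; positivity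
  choose m μ hμ1 hμ2 using fun x : ℝ => hJ d s (Lcl s d) hs0 hES N
    (fun j y => g j (Fin.cons x y)) (fun y => V (Fin.cons x y))
    (fun j => testFn_slice hs (hg j) x) (potFn_slice hV x)
  -- the left side
  have hL : ENNReal.ofReal (cA δ * ∑ j, e j ^ (1 + δ / 2)) ≤
      ∫⁻ a in Set.Ioi 0, ∑ j, ENNReal.ofReal (a ^ (-δ) * (za a (e j) * e j - Fa a (za a (e j)))) := by
    rw [lintegral_finsetSum _ fun j _ => measurable_intA δ (e j), Finset.mul_sum,
      ENNReal.ofReal_sum_of_nonneg fun j _ => by positivity]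
    exact le_of_eq (Finset.sum_congr rfl fun j _ => (hA δ (e j) h0 h1 (he0 j)).symm)
  -- for fixed `a`
  have hstep : ∀ a ∈ Set.Ioi (0 : ℝ),
      ∑ j, ENNReal.ofReal (a ^ (-δ) * (za a (e j) * e j - Fa a (za a (e j)))) ≤
      ∫⁻ x, ENNReal.ofReal (a ^ (-δ) * -Jf V g a (fun j => za a (e j)) x) := by
    intro a ha
    have ha : 0 < a := ha
    have hap : 0 < a ^ (-δ) := Real.rpow_pos_of_pos ha _
    obtain ⟨hI, hIle⟩ := stepA hk hs hg hV hone ha (z := fun j => za a (e j))
      fun j => ⟨(hu3 a (e j) ha (he0 j)).1, (hu3 a (e j) ha (he0 j)).2.1⟩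
    have hze : ∀ j, za a (e j) * form1 V (g j) = -(za a (e j) * e j) := by
      intro j
      by_cases hneg : -form1 V (g j) ≤ 0
      · have : e j = 0 := max_eq_right hneg
        rw [this]
        simp [za]
      · have : e j = -form1 V (g j) := max_eq_left (le_of_lt (not_le.1 hneg))
        rw [this]
        ring
    have h2 : ∑ j, (za a (e j) * e j - Fa a (za a (e j))) ≤
        -∫ x, Jf V g a (fun j => za a (e j)) x := by
      have h3 : ∑ j, za a (e j) * form1 V (g j) = -∑ j, za a (e j) * e j := by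
        rw [← Finset.sum_neg_distrib]
        exact Finset.sum_congr rfl fun j _ => hze j
      rw [Finset.sum_sub_distrib]
      linarith
    rw [← ENNReal.ofReal_sum_of_nonneg fun j _ => mul_nonneg hap.le (hu3 a (e j) ha (he0 j)).2.2,
      ← Finset.mul_sum]
    calc ENNReal.ofReal (a ^ (-δ) * ∑ j, (za a (e j) * e j - Fa a (za a (e j))))
        ≤ ENNReal.ofReal (-∫ x, a ^ (-δ) * Jf V g a (fun j => za a (e j)) x) := by
          refine ENNReal.ofReal_le_ofReal ?_
          rw [integral_const_mul, ← mul_neg]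
          exact mul_le_mul_of_nonneg_left h2 hap.le
      _ ≤ ∫⁻ x, ENNReal.ofReal (-(a ^ (-δ) * Jf V g a (fun j => za a (e j)) x)) :=
          integral_neg_le_lintegral (hI.const_mul _)
      _ = ∫⁻ x, ENNReal.ofReal (a ^ (-δ) * -Jf V g a (fun j => za a (e j)) x) := by
          simp_rw [mul_neg]
  -- for fixed `x`
  have hx : ∀ x : ℝ, ∫⁻ a in Set.Ioi (0 : ℝ),
      ENNReal.ofReal (a ^ (-δ) * -Jf V g a (fun j => za a (e j)) x) ≤
      ENNReal.ofReal (cB δ * (Lcl s d * ∫ y : Fin d → ℝ, V (Fin.cons x y) ^ (s + d / 2))) := by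
    intro x
    calc ∫⁻ a in Set.Ioi (0 : ℝ), ENNReal.ofReal (a ^ (-δ) * -Jf V g a (fun j => za a (e j)) x)
        ≤ ∫⁻ a in Set.Ioi (0 : ℝ), ∑ i, ENNReal.ofReal (a ^ (-δ) * Ua a (μ x i)) := by
          refine setLIntegral_mono' measurableSet_Ioi fun a ha => ?_
          have ha : 0 < a := ha
          have hap : 0 < a ^ (-δ) := Real.rpow_pos_of_pos ha _
          rw [← ENNReal.ofReal_sum_of_nonneg fun i _ => mul_nonneg hap.le (hu2 a _ ha),
            ← Finset.mul_sum]
          refine ENNReal.ofReal_le_ofReal (mul_le_mul_of_nonneg_left ?_ hap.le)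
          have := hμ2 x a (fun j => za a (e j)) ha fun j => (hu3 a (e j) ha (he0 j)).1
          unfold Jf
          linarith
      _ = ∑ i, ENNReal.ofReal (cB δ * max (μ x i) 0 ^ s) := by
          rw [lintegral_finsetSum _ fun i _ => measurable_intB δ (μ x i)]
          exact Finset.sum_congr rfl fun i _ => hB δ (μ x i) h0 h1
      _ = ENNReal.ofReal (cB δ * ∑ i, max (μ x i) 0 ^ s) := by
          rw [Finset.mul_sum, ENNReal.ofReal_sum_of_nonneg fun i _ => by positivity]
      _ ≤ _ := ENNReal.ofReal_le_ofReal (mul_le_mul_of_nonneg_left (hμ1 x) hcB.le)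
  -- the potential
  have hsp : 0 < s + (d : ℝ) / 2 := by positivity
  have hr : Integrable (fun y => V y ^ (s + (d : ℝ) / 2)) volume := by
    refine Continuous.integrable_of_hasCompactSupport ?_ ?_
    · exact hV.1.rpow_const fun _ => Or.inr hsp.le
    · exact hV.2.1.comp_left (g := fun t : ℝ => t ^ (s + (d : ℝ) / 2)) (Real.zero_rpow hsp.ne')
  have hnn : ∀ x, 0 ≤ cB δ * (Lcl s d * ∫ y : Fin d → ℝ, V (Fin.cons x y) ^ (s + (d : ℝ) / 2)) :=
    fun x => mul_nonneg hcB.le (le_trans (Finset.sum_nonneg fun i _ => by positivity) (hμ1 x))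
  -- Tonelli
  have hz : ∀ j, Measurable fun a => za a (e j) := fun j => measurable_za (e j)
  have hmeas : AEMeasurable (Function.uncurry fun a x : ℝ =>
      ENNReal.ofReal (a ^ (-δ) * -Jf V g a (fun j => za a (e j)) x))
      ((volume.restrict (Set.Ioi (0 : ℝ))).prod volume) := by
    have h4 := measurable_Jf hs hg hV (z := fun a j => za a (e j)) hz
    have h5 : Measurable fun p : ℝ × ℝ => p.1 ^ (-δ) := measurable_fst.pow_const _
    exact (h5.mul h4.neg).ennreal_ofReal.aemeasurable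
  have hmain : ENNReal.ofReal (cA δ * ∑ j, e j ^ (1 + δ / 2)) ≤
      ENNReal.ofReal (cB δ * (Lcl s d * ∫ y, V y ^ (s + (d : ℝ) / 2))) := by
    refine le_trans hL ?_
    refine le_trans (setLIntegral_mono' measurableSet_Ioi hstep) ?_
    rw [lintegral_lintegral_swap hmeas]
    refine le_trans (lintegral_mono hx) ?_
    rw [← ofReal_integral_eq_lintegral_ofReal
      (((integrable_slice hr).const_mul _).const_mul _) (Filter.Eventually.of_forall hnn)]
    rw [integral_const_mul, integral_const_mul, ← integral_cons hr]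
  have hnn2 : 0 ≤ cB δ * (Lcl s d * ∫ y, V y ^ (s + (d : ℝ) / 2)) := by
    have := integral_nonneg (μ := (volume : Measure ℝ)) (f := fun x : ℝ =>
      cB δ * (Lcl s d * ∫ y : Fin d → ℝ, V (Fin.cons x y) ^ (s + (d : ℝ) / 2))) hnn
    rwa [integral_const_mul, integral_const_mul, ← integral_cons hr] at this
  have hfin := (ENNReal.ofReal_le_ofReal_iff hnn2).1 hmain
  have e1 : (1 + δ / 2) + ((d + 1 : ℕ) : ℝ) / 2 = s + (d : ℝ) / 2 := by
    rw [hsdef]; push_cast; ring
  rw [e1, ← hconst, div_mul_eq_mul_div, le_div_iff₀ hcA]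
  linarith

end Pool.Agent.LT
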