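import Pool.Agent.LT.Defs3
import Pool.Agent.LT.PW2

/-!
# The pointwise lower bound with the additional terms `tr (q(S) P)`, `tr r(S)` (PW3), MP_4c716f_mp
(Lean: helper64, following helper86's PW2; mathematics: helper15)
-/

set_option autoImplicit false

namespace Pool.Agent.LT

open MeasureTheory Matrix Finset
open scoped ComplexConjugate ComplexOrder

namespace PW3aux

open PW2aux

variable {N : ℕ} {H : Type*} [NormedAddCommGroup H] [InnerProductSpace ℂ H]

/-- `q` of a real diagonal matrix -/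
lemma mpoly_dg (q : Polynomial ℝ) (s : Fin N → ℝ) :
    mpoly q (dg s) = dg fun i => q.eval (s i) := by
  unfold mpoly
  ext i j
  rw [Matrix.sum_apply]
  simp_rw [dg_pow]
  by_cases hij : i = j
  · subst hij
    simp only [Matrix.smul_apply, smul_eq_mul, dg, Matrix.diagonal_apply_eq]
    rw [Polynomial.eval_eq_sum_range]
    push_cast
    rfl
  · simp only [Matrix.smul_apply, smul_eq_mul, dg, Matrix.diagonal_apply_ne _ hij, mul_zero,
      Finset.sum_const_zero]

/-- `Dq(S)[P]` for real diagonal `S` -/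
lemma dmpoly_dg (q : Polynomial ℝ) (s : Fin N → ℝ) (P : Matrix (Fin N) (Fin N) ℂ) (i j : Fin N) :
    dmpoly q (dg s) P i j = ((dd q (s i) (s j) : ℝ) : ℂ) * P i j := by
  unfold dmpoly dd
  rw [Matrix.sum_apply]
  push_cast
  rw [Finset.sum_mul]
  refine Finset.sum_congr rfl fun n _ => ?_
  rw [Matrix.smul_apply, Matrix.sum_apply, smul_eq_mul, mul_assoc, Finset.sum_mul]
  congr 1
  refine Finset.sum_congr rfl fun k _ => ?_
  rw [dg_pow, dg_pow, Matrix.mul_diagonal, Matrix.diagonal_mul]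
  push_cast
  ring

lemma core (p q : Polynomial ℝ) (s : Fin N → ℝ) (y z : Fin N → H) :
    -(∑ i, ∑ j, ∑ k, (gram y i j * gram y j k * gram y k i).re *
        (p.eval (s i + s k) * p.eval (s j + s k) + dd p (s i + s k) (s j + s k))) -
      (∑ i, ∑ j, ‖gram y i j‖ ^ 2 * (p.eval (s i + s j) * (q.eval (s i) + q.eval (s j)) +
          dd q (s i) (s j)))
      ≤ (∑ i, ‖z i‖ ^ 2) - dcalG p (dg s) (gram y) (gramD y z) -
        (Matrix.trace (mpoly q (dg s) * gramD y z)).re -
        (Matrix.trace (dmpoly q (dg s) (gram y) * gram y)).re +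
        (Matrix.trace (mpoly q (dg s) * mpoly q (dg s) * gram y)).re := by
  set P : Fin N → Fin N → ℝ := fun i j => p.eval (s i + s j) with hPdef
  have hP : ∀ i j, P i j = P j i := fun i j => by simp only [hPdef, add_comm]
  have hsq : 0 ≤ ∑ i, ‖z i - Bv P y i + ((-q.eval (s i) : ℝ) : ℂ) • y i‖ ^ 2 :=
    Finset.sum_nonneg fun i _ => by positivity
  simp_rw [expand, Bv_T1, Bv_T3, Bv_T2] at hsq
  -- traces
  have ht1 : (Matrix.trace (mpoly q (dg s) * gramD y z)).re
      = ∑ i, 2 * q.eval (s i) * (inner ℂ (z i) (y i)).re := by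
    rw [mpoly_dg]
    simp only [Matrix.trace, Matrix.diag_apply, Complex.re_sum, dg, Matrix.diagonal_mul]
    refine Finset.sum_congr rfl fun i _ => ?_
    simp only [gramD, Matrix.of_apply]
    rw [Complex.re_ofReal_mul, Complex.add_re]
    have : (inner ℂ (y i) (z i)).re = (inner ℂ (z i) (y i)).re := by
      rw [← inner_conj_symm, Complex.conj_re]
    rw [this]; ring
  have ht2 : (Matrix.trace (dmpoly q (dg s) (gram y) * gram y)).re
      = ∑ i, ∑ j, dd q (s i) (s j) * ‖gram y i j‖ ^ 2 := by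
    simp only [Matrix.trace, Matrix.diag_apply, Complex.re_sum, Matrix.mul_apply, dmpoly_dg]
    refine Finset.sum_congr rfl fun i _ => Finset.sum_congr rfl fun j _ => ?_
    rw [mul_assoc, Complex.re_ofReal_mul, re_gram_mul]
  have ht3 : (Matrix.trace (mpoly q (dg s) * mpoly q (dg s) * gram y)).re
      = ∑ i, q.eval (s i) ^ 2 * ‖y i‖ ^ 2 := by
    rw [mpoly_dg]
    simp only [Matrix.trace, Matrix.diag_apply, Complex.re_sum, dg, Matrix.diagonal_mul_diagonal,
      Matrix.diagonal_mul]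
    refine Finset.sum_congr rfl fun i _ => ?_
    rw [PW2aux.gram_apply, inner_self_eq_norm_sq_to_K]
    have h : ((q.eval (s i) : ℝ) : ℂ) * ((q.eval (s i) : ℝ) : ℂ) * ((‖y i‖ : ℝ) : ℂ) ^ 2
        = ((q.eval (s i) ^ 2 * ‖y i‖ ^ 2 : ℝ) : ℂ) := by
      push_cast; ring
    exact (congrArg Complex.re h).trans (Complex.ofReal_re _)
  rw [ht1, ht2, ht3, dcalG_dg, cross P hP]
  -- cubic term
  have hc : ∑ i, ∑ j, ∑ k, (gram y i j * gram y j k * gram y k i).re *
        (p.eval (s i + s k) * p.eval (s j + s k) + dd p (s i + s k) (s j + s k))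
      = ∑ i, ∑ j, ∑ k, (P i j * P i k) * (gram y k j * gram y j i * gram y i k).re
        + ∑ i, ∑ j, ∑ k, (gram y i j * gram y j k * gram y k i).re *
            dd p (s i + s k) (s j + s k) := by
    simp_rw [mul_add, Finset.sum_add_distrib]
    congr 1
    rw [Finset.sum_comm]
    -- now ∑ j, ∑ i, ∑ k
    have : ∀ j, ∑ i, ∑ k, (gram y i j * gram y j k * gram y k i).re *
        (p.eval (s i + s k) * p.eval (s j + s k))
        = ∑ k, ∑ i, (gram y i j * gram y j k * gram y k i).re *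
        (p.eval (s i + s k) * p.eval (s j + s k)) := fun j => Finset.sum_comm
    simp_rw [this]
    rw [Finset.sum_comm]
    refine Finset.sum_congr rfl fun k _ => Finset.sum_congr rfl fun j _ =>
      Finset.sum_congr rfl fun i _ => ?_
    simp only [hPdef]
    rw [add_comm (s k) (s j), add_comm (s k) (s i)]
    ring
  rw [hc]
  have hs : ∑ i, ∑ j, ‖gram y i j‖ ^ 2 * (p.eval (s i + s j) * (q.eval (s i) + q.eval (s j)) +
          dd q (s i) (s j))
      = 2 * ∑ i, ∑ j, q.eval (s i) * (P i j * ‖gram y i j‖ ^ 2)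
        + ∑ i, ∑ j, dd q (s i) (s j) * ‖gram y i j‖ ^ 2 := by
    have h1 : ∑ i, ∑ j, q.eval (s j) * (P i j * ‖gram y i j‖ ^ 2)
        = ∑ i, ∑ j, q.eval (s i) * (P i j * ‖gram y i j‖ ^ 2) := by
      rw [Finset.sum_comm]
      refine Finset.sum_congr rfl fun i _ => Finset.sum_congr rfl fun j _ => ?_
      rw [hP, norm_gram_comm]
    have h2 : ∀ i j, ‖gram y i j‖ ^ 2 * (p.eval (s i + s j) * (q.eval (s i) + q.eval (s j)) +
          dd q (s i) (s j))
        = q.eval (s i) * (P i j * ‖gram y i j‖ ^ 2) + q.eval (s j) * (P i j * ‖gram y i j‖ ^ 2)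
          + dd q (s i) (s j) * ‖gram y i j‖ ^ 2 := by
      intro i j
      simp only [hPdef]
      ring
    simp_rw [h2, Finset.sum_add_distrib]
    rw [h1]; ring
  rw [hs]
  simp only [Finset.sum_sub_distrib, Finset.sum_add_distrib] at hsq
  have e1 : ∑ i, (-q.eval (s i)) ^ 2 * ‖y i‖ ^ 2 = ∑ i, q.eval (s i) ^ 2 * ‖y i‖ ^ 2 :=
    Finset.sum_congr rfl fun i _ => by ring
  have e2 : ∑ i, 2 * ∑ j, P i j * (gram y i j * inner ℂ (z i) (y j)).re
      = 2 * ∑ i, ∑ j, P i j * (gram y i j * inner ℂ (z i) (y j)).re := by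
    rw [Finset.mul_sum]
  have e3 : ∑ i, 2 * (-q.eval (s i)) * (inner ℂ (z i) (y i)).re
      = - ∑ i, 2 * q.eval (s i) * (inner ℂ (z i) (y i)).re := by
    rw [← Finset.sum_neg_distrib]; exact Finset.sum_congr rfl fun i _ => by ring
  have e4 : ∑ i, 2 * (-q.eval (s i)) * ∑ j, P i j * ‖gram y i j‖ ^ 2
      = - (2 * ∑ i, ∑ j, q.eval (s i) * (P i j * ‖gram y i j‖ ^ 2)) := by
    rw [Finset.mul_sum, ← Finset.sum_neg_distrib]
    refine Finset.sum_congr rfl fun i _ => ?_
    rw [← Finset.mul_sum]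
    ring
  rw [e1, e2, e3, e4] at hsq
  linarith

/-- conjugation commutes with scalars -/
lemma map_mpoly (U : Matrix (Fin N) (Fin N) ℂ) (h1 : Uᴴ * U = 1) (h2 : U * Uᴴ = 1)
    (q : Polynomial ℝ) (S : Matrix (Fin N) (Fin N) ℂ) :
    conjHom U h1 h2 (mpoly q S) = mpoly q (conjHom U h1 h2 S) := by
  have hsm : ∀ (c : ℂ) (A : Matrix (Fin N) (Fin N) ℂ),
      conjHom U h1 h2 (c • A) = c • conjHom U h1 h2 A := by
    intro c A
    change Uᴴ * (c • A) * U = c • (Uᴴ * A * U)
    rw [Matrix.mul_smul, Matrix.smul_mul]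
  unfold mpoly
  rw [map_sum]
  refine Finset.sum_congr rfl fun n _ => ?_
  rw [hsm, map_pow]

lemma map_dmpoly (U : Matrix (Fin N) (Fin N) ℂ) (h1 : Uᴴ * U = 1) (h2 : U * Uᴴ = 1)
    (q : Polynomial ℝ) (S P : Matrix (Fin N) (Fin N) ℂ) :
    conjHom U h1 h2 (dmpoly q S P) = dmpoly q (conjHom U h1 h2 S) (conjHom U h1 h2 P) := by
  have hsm : ∀ (c : ℂ) (A : Matrix (Fin N) (Fin N) ℂ),
      conjHom U h1 h2 (c • A) = c • conjHom U h1 h2 A := by
    intro c A
    change Uᴴ * (c • A) * U = c • (Uᴴ * A * U)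
    rw [Matrix.mul_smul, Matrix.smul_mul]
  unfold dmpoly
  rw [map_sum]
  refine Finset.sum_congr rfl fun n _ => ?_
  rw [hsm, map_sum]
  congr 1
  refine Finset.sum_congr rfl fun k _ => ?_
  rw [map_mul, map_mul, map_pow, map_pow]

end PW3aux

open PW2aux PW3aux in
theorem pw3 : PW3Stmt := by
  intro N H _ _ p q S hS v w P' hP'
  set U : Matrix (Fin N) (Fin N) ℂ := (hS.eigenvectorUnitary : Matrix (Fin N) (Fin N) ℂ) with hUdef
  have h1 : Uᴴ * U = 1 := by
    rw [hUdef, ← Matrix.star_eq_conjTranspose]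
    exact Unitary.coe_star_mul_self _
  have h2 : U * Uᴴ = 1 := by
    rw [hUdef, ← Matrix.star_eq_conjTranspose]
    exact Unitary.coe_mul_star_self _
  set s : Fin N → ℝ := hS.eigenvalues with hs
  set φ := conjHom U h1 h2 with hφ
  have hφa : ∀ A, φ A = Uᴴ * A * U := fun A => rfl
  have htr : ∀ M, trace (φ M) = trace M := by
    intro M
    rw [hφa, Matrix.trace_mul_comm, ← Matrix.mul_assoc, h2, one_mul]
  have hS' : φ S = dg s := by
    rw [hφa]
    have := hS.conjStarAlgAut_star_eigenvectorUnitary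
    rw [Unitary.conjStarAlgAut_star_apply] at this
    rw [← Matrix.star_eq_conjTranspose]
    exact this
  have hP : φ (gram v) = gram (rot U v) := by rw [hφa, gram_rot]
  have hQ : φ (gramD v w) = gramD (rot U v) (rot U w) := by rw [hφa, gramD_rot]
  have hW : φ (gram w) = gram (rot U w) := by rw [hφa, gram_rot]
  have hP'' : P' = gram (rot U v) := by rw [hP', ← hP, hφa]
  have hw2 : ∑ i, ‖w i‖ ^ 2 = ∑ i, ‖rot U w i‖ ^ 2 := by
    rw [← trace_gram, ← trace_gram, ← hW, htr]
  have hd : dcalG p S (gram v) (gramD v w)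
      = dcalG p (dg s) (gram (rot U v)) (gramD (rot U v) (rot U w)) := by
    rw [← hS', ← hP, ← hQ, dcalG_map φ htr]
  have hm : φ (mpoly q S) = mpoly q (dg s) := by rw [hφ, map_mpoly, ← hφ, hS']
  have hdm : φ (dmpoly q S (gram v)) = dmpoly q (dg s) (gram (rot U v)) := by
    rw [hφ, map_dmpoly, ← hφ, hS', hP]
  have e1 : Matrix.trace (mpoly q S * gramD v w)
      = Matrix.trace (mpoly q (dg s) * gramD (rot U v) (rot U w)) := by
    rw [← hm, ← hQ, ← map_mul, htr]
  have e2 : Matrix.trace (dmpoly q S (gram v) * gram v)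
      = Matrix.trace (dmpoly q (dg s) (gram (rot U v)) * gram (rot U v)) := by
    rw [← hdm, ← hP, ← map_mul, htr]
  have e3 : Matrix.trace (mpoly q S * mpoly q S * gram v)
      = Matrix.trace (mpoly q (dg s) * mpoly q (dg s) * gram (rot U v)) := by
    rw [← hm, ← hP, ← map_mul, ← map_mul, htr]
  rw [hw2, hd, e1, e2, e3, hP'']
  exact core p q s (rot U v) (rot U w)

end Pool.Agent.LT
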