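import Pool.Agent.LT.Defs3
import Pool.Agent.LT.Poly
import Pool.Agent.LT.Pos1

/-!
# Module POLY3: polynomial approximation of `(a/2) cot (a t/2)`, `-(1/a) tan (a t/2)`, `-F_a`
(helper29)
-/

set_option autoImplicit false

namespace Pool.Agent.LT

open Finset Polynomial

namespace Poly3

/-- the function `(a/2) cot (a x/2)` -/
noncomputable def f (a x : ℝ) : ℝ := a / 2 * (Real.cos (a * x / 2) / Real.sin (a * x / 2))

/-- its derivative -/
noncomputable def f' (a x : ℝ) : ℝ := -(a ^ 2 / 4) / Real.sin (a * x / 2) ^ 2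

/-- the function `-(1/a) tan (a x/2)` -/
noncomputable def h (a x : ℝ) : ℝ := -(1 / a) * (Real.sin (a * x / 2) / Real.cos (a * x / 2))

/-- its derivative -/
noncomputable def h' (a x : ℝ) : ℝ := -(1 / 2) / Real.cos (a * x / 2) ^ 2

/-- approximation in `C¹` -/
lemma approx {A B : ℝ} (hAB : A ≤ B) {φ φ' : ℝ → ℝ}
    (hd : ∀ x ∈ Set.Icc A B, HasDerivAt φ (φ' x) x) (hc : ContinuousOn φ' (Set.Icc A B)) {δ : ℝ}
    (hδ : 0 < δ) : ∃ p : ℝ[X],
      (∀ x ∈ Set.Icc A B, |p.eval x - φ x| ≤ δ * (B - A)) ∧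
      (∀ x ∈ Set.Icc A B, |p.derivative.eval x - φ' x| ≤ δ) ∧
      (∀ x ∈ Set.Icc A B, ∀ y ∈ Set.Icc A B, x ≠ y →
        |dd p x y - (φ x - φ y) / (x - y)| ≤ δ) := by
  obtain ⟨q, hq⟩ := exists_polynomial_near_of_continuousOn A B φ' hc δ hδ
  obtain ⟨p0, hp0⟩ := PolyMod.exists_antideriv q
  set p : ℝ[X] := p0 + C (φ A - p0.eval A) with hp
  have hpd : p.derivative = q := by rw [hp, derivative_add, derivative_C, add_zero, hp0]
  have hpA : p.eval A = φ A := by rw [hp, eval_add, eval_C]; ring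
  have hlip : ∀ x ∈ Set.Icc A B, ∀ y ∈ Set.Icc A B,
      |(p.eval x - φ x) - (p.eval y - φ y)| ≤ δ * |x - y| := by
    intro x hx y hy
    have h1 := (convex_Icc A B).norm_image_sub_le_of_norm_hasDerivWithin_le
      (f := fun z => p.eval z - φ z) (f' := fun z => q.eval z - φ' z) (C := δ)
      (fun z hz => by
        have h2 := (p.hasDerivAt z).sub (hd z hz)
        rw [hpd] at h2
        exact h2.hasDerivWithinAt)
      (fun z hz => (hq z hz).le) hy hx
    simpa [Real.norm_eq_abs] using h1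
  refine ⟨p, ?_, ?_, ?_⟩
  · intro x hx
    have h1 := hlip x hx A ⟨le_rfl, hAB⟩
    rw [hpA, sub_self, sub_zero, abs_of_nonneg (by linarith [hx.1] : 0 ≤ x - A)] at h1
    exact h1.trans (mul_le_mul_of_nonneg_left (by linarith [hx.2]) hδ.le)
  · intro x hx
    rw [hpd]
    exact (hq x hx).le
  · intro x hx y hy hxy
    have hxy' : x - y ≠ 0 := sub_ne_zero.2 hxy
    have h1 := hlip x hx y hy
    have h2 := PolyMod.dd_mul p x y
    have e : (p.eval x - φ x) - (p.eval y - φ y) = (dd p x y - (φ x - φ y) / (x - y)) * (x - y) := by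
      rw [sub_mul, h2, div_mul_cancel₀ _ hxy']
      ring
    rw [e, abs_mul] at h1
    exact le_of_mul_le_mul_right h1 (abs_pos.2 hxy')

lemma hasDeriv_f {a x : ℝ} (hs : Real.sin (a * x / 2) ≠ 0) : HasDerivAt (f a) (f' a x) x := by
  have h1 : HasDerivAt (fun x : ℝ => a * x / 2) (a / 2) x := by
    have := ((hasDerivAt_id x).const_mul a).div_const 2
    simpa using this
  have h3 := (h1.cos.div h1.sin hs).const_mul (a / 2)
  refine h3.congr_deriv ?_
  unfold f'
  have h4 := Real.sin_sq_add_cos_sq (a * x / 2)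
  field_simp
  nlinarith [h4]

lemma hasDeriv_h {a x : ℝ} (ha : a ≠ 0) (hs : Real.cos (a * x / 2) ≠ 0) :
    HasDerivAt (h a) (h' a x) x := by
  have h1 : HasDerivAt (fun x : ℝ => a * x / 2) (a / 2) x := by
    have := ((hasDerivAt_id x).const_mul a).div_const 2
    simpa using this
  have h3 := (h1.sin.div h1.cos hs).const_mul (-(1 / a))
  refine h3.congr_deriv ?_
  unfold h'
  have h4 := Real.sin_sq_add_cos_sq (a * x / 2)
  field_simp
  nlinarith [h4]

lemma hasDeriv_Fa {a x : ℝ} (ha : a ≠ 0) (hs : Real.cos (a * x / 2) ≠ 0) :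
    HasDerivAt (Fa a) (h a x ^ 2) x := by
  have h1 : HasDerivAt (fun x : ℝ => a * x / 2) (a / 2) x := by
    have := ((hasDerivAt_id x).const_mul a).div_const 2
    simpa using this
  have h2 : HasDerivAt (fun x : ℝ => Real.tan (a * x / 2)) (1 / Real.cos (a * x / 2) ^ 2 * (a / 2))
    x := by simpa [Function.comp_def] using HasDerivAt.comp x (Real.hasDerivAt_tan hs) h1
  have h3 := ((h2.const_mul (2 / a)).sub (hasDerivAt_id x)).div_const (a ^ 2)
  refine h3.congr_deriv ?_
  unfold h
  have h4 := Real.sin_sq_add_cos_sq (a * x / 2)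
  field_simp
  nlinarith [h4]

lemma Mker_scale (a s t u : ℝ) : Mker (a * s / Real.pi) (a * t / Real.pi) (a * u / Real.pi) =
    mfun (a * (s - t) / 2) / (Real.sin (a * (s + u) / 2) * Real.sin (a * (t + u) / 2)) := by
  have hpi := Real.pi_pos.ne'
  unfold Mker
  have e1 : Real.pi * (a * s / Real.pi - a * t / Real.pi) / 2 = a * (s - t) / 2 := by field_simp
  have e2 : Real.pi * (a * s / Real.pi + a * u / Real.pi) / 2 = a * (s + u) / 2 := by field_simp
  have e3 : Real.pi * (a * t / Real.pi + a * u / Real.pi) / 2 = a * (t + u) / 2 := by field_simp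
  rw [e1, e2, e3]

lemma ident {a s t u : ℝ} (ha0 : a ≠ 0) (hst : s ≠ t) (ha : Real.sin (a * (s + u) / 2) ≠ 0)
    (hb : Real.sin (a * (t + u) / 2) ≠ 0) :
    f a (s + u) * f a (t + u) + (f a (s + u) - f a (t + u)) / (s - t) + a ^ 2 / 4 +
      a ^ 2 / 4 * (mfun (a * (s - t) / 2) /
        (Real.sin (a * (s + u) / 2) * Real.sin (a * (t + u) / 2))) = 0 := by
  have hd : s - t ≠ 0 := sub_ne_zero.2 hst
  unfold mfun f
  have hne : a * (s - t) / 2 ≠ 0 := by positivity
  rw [Real.sinc_of_ne_zero hne]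
  have e1 : a * (s - t) / 2 = a * (s + u) / 2 - a * (t + u) / 2 := by ring
  have e2 : Real.sin (a * (s - t) / 2) = Real.sin (a * (s + u) / 2) *
      Real.cos (a * (t + u) / 2) - Real.cos (a * (s + u) / 2) *
      Real.sin (a * (t + u) / 2) := by rw [e1, Real.sin_sub]
  have e3 : Real.cos (a * (s - t) / 2) = Real.cos (a * (s + u) / 2) *
      Real.cos (a * (t + u) / 2) + Real.sin (a * (s + u) / 2) *
      Real.sin (a * (t + u) / 2) := by rw [e1, Real.cos_sub]
  rw [e2, e3]
  generalize Real.sin (a * (s + u) / 2) = A at *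
  generalize Real.sin (a * (t + u) / 2) = B at *
  generalize Real.cos (a * (s + u) / 2) = C at *
  generalize Real.cos (a * (t + u) / 2) = D at *
  field_simp
  ring

lemma ident_diag {a s u : ℝ} (ha : Real.sin (a * (s + u) / 2) ≠ 0) :
    f a (s + u) * f a (s + u) + f' a (s + u) + a ^ 2 / 4 +
      a ^ 2 / 4 * (mfun (a * (s - s) / 2) /
        (Real.sin (a * (s + u) / 2) * Real.sin (a * (s + u) / 2))) = 0 := by
  unfold mfun f f'
  have h4 := Real.sin_sq_add_cos_sq (a * (s + u) / 2)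
  rw [sub_self, mul_zero, zero_div, Real.sinc_zero, Real.cos_zero, sub_self, zero_div, mul_zero,
    add_zero]
  field_simp
  nlinarith [h4]

/-- the second inequality, different points -/
lemma second {a s t : ℝ} (ha : 0 < a) (hst : s ≠ t) (hs : 0 < a * s / 2)
    (hs2 : a * s / 2 < Real.pi / 2) (ht : 0 < a * t / 2) (ht2 : a * t / 2 < Real.pi / 2) :
    f a (s + t) * (h a s + h a t) + (h a s - h a t) / (s - t) ≤ -1 := by
  have hd : s - t ≠ 0 := sub_ne_zero.2 hst
  have hA : 0 < Real.cos (a * s / 2) := Real.cos_pos_of_mem_Ioo ⟨by linarith, hs2⟩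
  have hB : 0 < Real.cos (a * t / 2) := Real.cos_pos_of_mem_Ioo ⟨by linarith, ht2⟩
  have hS : 0 < Real.sin (a * (s + t) / 2) := by
    apply Real.sin_pos_of_pos_of_lt_pi
    · have : a * (s + t) / 2 = a * s / 2 + a * t / 2 := by ring
      rw [this]; positivity
    · have : a * (s + t) / 2 = a * s / 2 + a * t / 2 := by ring
      rw [this]; linarith
  have hm := pos1_mfun_nonneg (t := a * (s - t) / 2)
    (by have : a * (s - t) / 2 = a * s / 2 - a * t / 2 := by ring
        rw [this]; linarith)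
    (by have : a * (s - t) / 2 = a * s / 2 - a * t / 2 := by ring
        rw [this]; linarith)
  have hne : a * (s - t) / 2 ≠ 0 := by positivity
  unfold mfun at hm
  rw [Real.sinc_of_ne_zero hne] at hm
  have key : f a (s + t) * (h a s + h a t) + (h a s - h a t) / (s - t) + 1 =
      -(Real.sin (a * (s - t) / 2) / (a * (s - t) / 2) - Real.cos (a * (s - t) / 2)) /
        (2 * (Real.cos (a * s / 2) * Real.cos (a * t / 2))) := by
    unfold f h
    have e0 : a * (s + t) / 2 = a * s / 2 + a * t / 2 := by ring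
    have e1 : a * (s - t) / 2 = a * s / 2 - a * t / 2 := by ring
    have e2 : Real.sin (a * (s - t) / 2) = Real.sin (a * s / 2) * Real.cos (a * t / 2) -
      Real.cos (a * s / 2) * Real.sin (a * t / 2) := by rw [e1, Real.sin_sub]
    have e3 : Real.cos (a * (s - t) / 2) = Real.cos (a * s / 2) * Real.cos (a * t / 2) +
      Real.sin (a * s / 2) * Real.sin (a * t / 2) := by rw [e1, Real.cos_sub]
    have e4 : Real.sin (a * (s + t) / 2) = Real.sin (a * s / 2) * Real.cos (a * t / 2) +
      Real.cos (a * s / 2) * Real.sin (a * t / 2) := by rw [e0, Real.sin_add]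
    have e5 : Real.cos (a * (s + t) / 2) = Real.cos (a * s / 2) * Real.cos (a * t / 2) -
      Real.sin (a * s / 2) * Real.sin (a * t / 2) := by rw [e0, Real.cos_add]
    rw [e4] at hS
    rw [e2, e3, e4, e5]
    have hS' := hS.ne'
    have hA' := hA.ne'
    have hB' := hB.ne'
    have ha' := ha.ne'
    generalize Real.sin (a * s / 2) = A at *
    generalize Real.sin (a * t / 2) = B at *
    generalize Real.cos (a * s / 2) = C at *
    generalize Real.cos (a * t / 2) = D at *
    have k1 : a / 2 * ((C * D - A * B) / (A * D + C * B)) * (-(1 / a) * (A / C) +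
        -(1 / a) * (B / D)) = -(1 / 2) * ((C * D - A * B) / (C * D)) := by
      have k2 : -(1 / a) * (A / C) + -(1 / a) * (B / D) =
          -(1 / a) * ((A * D + C * B) / (C * D)) := by
        field_simp
        ring
      rw [k2]
      generalize A * D + C * B = X at hS'
      field_simp
    rw [k1]
    field_simp
    ring
  have h5 : -(Real.sin (a * (s - t) / 2) / (a * (s - t) / 2) - Real.cos (a * (s - t) / 2)) /
        (2 * (Real.cos (a * s / 2) * Real.cos (a * t / 2))) ≤ 0 := by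
    apply div_nonpos_of_nonpos_of_nonneg (by linarith) (by positivity)
  linarith

/-- the second inequality on the diagonal -/
lemma second_diag {a s : ℝ} (ha : 0 < a) (hs : 0 < a * s / 2)
    (hs2 : a * s / 2 < Real.pi / 2) :
    f a (s + s) * (h a s + h a s) + h' a s ≤ -1 := by
  have hA : 0 < Real.cos (a * s / 2) := Real.cos_pos_of_mem_Ioo ⟨by linarith, hs2⟩
  have hS : 0 < Real.sin (a * (s + s) / 2) := by
    apply Real.sin_pos_of_pos_of_lt_pi
    · have : a * (s + s) / 2 = a * s / 2 + a * s / 2 := by ring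
      rw [this]; positivity
    · have : a * (s + s) / 2 = a * s / 2 + a * s / 2 := by ring
      rw [this]; linarith
  apply le_of_eq
  unfold f h h'
  have e0 : a * (s + s) / 2 = a * s / 2 + a * s / 2 := by ring
  rw [e0, Real.sin_add] at hS
  rw [e0, Real.sin_add, Real.cos_add]
  have h4 := Real.sin_sq_add_cos_sq (a * s / 2)
  have hS' := hS.ne'
  have hA' := hA.ne'
  generalize Real.sin (a * s / 2) = A at *
  generalize Real.cos (a * s / 2) = C at *
  have hA0 : A ≠ 0 := by
    rintro rfl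
    simp at hS'
  field_simp
  nlinarith [h4]

end Poly3

open Poly3

/-- Module POLY3. -/
theorem poly3 : Poly3Stmt := by
  intro a ε Λ ha hε hεΛ haΛ η hη
  have hpi := Real.pi_pos
  have hΛ : 0 < Λ := hε.trans hεΛ
  -- signs
  have hsin : ∀ x ∈ Set.Icc (2 * ε) (2 * Λ), Real.sin (a * x / 2) ≠ 0 := by
    intro x hx
    have hx0 : 0 < x := by linarith [hx.1]
    refine (Real.sin_pos_of_pos_of_lt_pi (by positivity) ?_).ne'
    have : a * x ≤ a * (2 * Λ) := mul_le_mul_of_nonneg_left hx.2 ha.le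
    linarith
  have hhalf : ∀ x ∈ Set.Icc ε Λ, 0 < a * x / 2 ∧ a * x / 2 < Real.pi / 2 := by
    intro x hx
    have hx0 : 0 < x := by linarith [hx.1]
    refine ⟨by positivity, ?_⟩
    have : a * x ≤ a * Λ := mul_le_mul_of_nonneg_left hx.2 ha.le
    linarith
  have hcos : ∀ x ∈ Set.Icc ε Λ, Real.cos (a * x / 2) ≠ 0 := by
    intro x hx
    have := hhalf x hx
    exact (Real.cos_pos_of_mem_Ioo ⟨by linarith, this.2⟩).ne'
  have hfd : ∀ x ∈ Set.Icc (2 * ε) (2 * Λ), HasDerivAt (f a) (f' a x) x :=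
    fun x hx => hasDeriv_f (hsin x hx)
  have hhd : ∀ x ∈ Set.Icc ε Λ, HasDerivAt (h a) (h' a x) x :=
    fun x hx => hasDeriv_h ha.ne' (hcos x hx)
  have hfc : ContinuousOn (f a) (Set.Icc (2 * ε) (2 * Λ)) :=
    fun x hx => (hfd x hx).continuousAt.continuousWithinAt
  have hhc : ContinuousOn (h a) (Set.Icc ε Λ) :=
    fun x hx => (hhd x hx).continuousAt.continuousWithinAt
  have hf'c : ContinuousOn (f' a) (Set.Icc (2 * ε) (2 * Λ)) := by
    unfold f'
    refine ContinuousOn.div continuousOn_const (by fun_prop) ?_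
    intro x hx
    exact pow_ne_zero 2 (hsin x hx)
  have hh'c : ContinuousOn (h' a) (Set.Icc ε Λ) := by
    unfold h'
    refine ContinuousOn.div continuousOn_const (by fun_prop) ?_
    intro x hx
    exact pow_ne_zero 2 (hcos x hx)
  obtain ⟨M₁, hM₁⟩ := isCompact_Icc.exists_bound_of_continuousOn hfc
  obtain ⟨M₂, hM₂⟩ := isCompact_Icc.exists_bound_of_continuousOn hhc
  set M : ℝ := max 1 (max M₁ M₂) with hM
  have hM1 : 1 ≤ M := le_max_left _ _
  have hfM : ∀ x ∈ Set.Icc (2 * ε) (2 * Λ), |f a x| ≤ M := fun x hx =>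
    (hM₁ x hx).trans ((le_max_left _ _).trans (le_max_right _ _))
  have hhM : ∀ x ∈ Set.Icc ε Λ, |h a x| ≤ M := fun x hx =>
    (hM₂ x hx).trans ((le_max_right _ _).trans (le_max_right _ _))
  -- constants
  set L : ℝ := 2 * Λ with hL
  have hL0 : 0 < L := by positivity
  set T : ℝ := (1 + L + L ^ 2) * (4 * M + 2) + 1 with hT
  have hT0 : 0 < T := by positivity
  set δ : ℝ := min (1 / (L + 1)) (η / T) with hδ
  have hδ0 : 0 < δ := lt_min (by positivity) (by positivity)
  have hδL : δ * L ≤ 1 := by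
    have h1 : δ ≤ 1 / (L + 1) := min_le_left _ _
    have h2 : δ * (L + 1) ≤ 1 := by rwa [le_div_iff₀ (by positivity)] at h1
    nlinarith
  have hδT : δ * T ≤ η := by
    have : δ ≤ η / T := min_le_right _ _
    rwa [le_div_iff₀ hT0] at this
  obtain ⟨p, hp1, hp2, hp3⟩ := approx (by linarith : 2 * ε ≤ 2 * Λ) hfd hf'c hδ0
  obtain ⟨q, hq1, hq2, hq3⟩ := approx hεΛ.le hhd hh'c hδ0
  set κ : ℝ := δ * L with hκ
  have hκ0 : 0 ≤ κ := by positivity
  have hpκ : ∀ x ∈ Set.Icc (2 * ε) (2 * Λ), |p.eval x - f a x| ≤ κ := fun x hx =>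
    (hp1 x hx).trans (mul_le_mul_of_nonneg_left (by rw [hL]; linarith) hδ0.le)
  have hqκ : ∀ x ∈ Set.Icc ε Λ, |q.eval x - h a x| ≤ κ := fun x hx =>
    (hq1 x hx).trans (mul_le_mul_of_nonneg_left (by rw [hL]; linarith) hδ0.le)
  -- products
  have hprod : ∀ A B A' B' : ℝ, |A - A'| ≤ κ → |B - B'| ≤ κ → |A'| ≤ M → |B'| ≤ M →
      |A * B - A' * B'| ≤ κ * (2 * M + 1) := by
    intro A B A' B' h1 h2 h3 h4
    have e : A * B - A' * B' = (A - A') * (B - B') + (A - A') * B' + A' * (B - B') := by ring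
    rw [e]
    calc |(A - A') * (B - B') + (A - A') * B' + A' * (B - B')|
        ≤ |(A - A') * (B - B')| + |(A - A') * B'| + |A' * (B - B')| := abs_add_three _ _ _
      _ = |A - A'| * |B - B'| + |A - A'| * |B'| + |A'| * |B - B'| := by
          rw [abs_mul, abs_mul, abs_mul]
      _ ≤ κ * 1 + κ * M + M * κ := by
          gcongr
          exact h2.trans hδL
      _ = κ * (2 * M + 1) := by ring
  -- the antiderivative
  obtain ⟨r0, hr0⟩ := PolyMod.exists_antideriv (-q ^ 2)
  set r : ℝ[X] := r0 + C (-Fa a ε - r0.eval ε) with hr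
  have hrd : r.derivative = -q ^ 2 := by rw [hr, derivative_add, derivative_C, add_zero, hr0]
  have hrε : r.eval ε = -Fa a ε := by rw [hr, eval_add, eval_C]; ring
  have hTκ : κ * (2 * M + 1) + δ ≤ η := by
    refine le_trans ?_ hδT
    rw [hκ, hT]
    nlinarith [mul_pos hδ0 hL0, mul_pos hδ0 (pow_pos hL0 2), hM1, mul_pos hδ0 one_pos,
      mul_nonneg hδ0.le (mul_nonneg hL0.le (zero_le_one.trans hM1)),
      mul_nonneg hδ0.le (mul_nonneg (pow_pos hL0 2).le (zero_le_one.trans hM1)),
      mul_nonneg hδ0.le (zero_le_one.trans hM1)]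
  refine ⟨p, q, r, hrd, ?_, ?_, ?_⟩
  · intro s t u hs ht hu
    have hsu : s + u ∈ Set.Icc (2 * ε) (2 * Λ) :=
      ⟨by linarith [hs.1, hu.1], by linarith [hs.2, hu.2]⟩
    have htu : t + u ∈ Set.Icc (2 * ε) (2 * Λ) :=
      ⟨by linarith [ht.1, hu.1], by linarith [ht.2, hu.2]⟩
    rw [Mker_scale]
    have hP := hprod _ _ _ _ (hpκ _ hsu) (hpκ _ htu) (hfM _ hsu) (hfM _ htu)
    refine le_trans ?_ hTκ
    by_cases hst : s = t
    · subst hst
      have hid := ident_diag (a := a) (s := s) (u := u) (hsin _ hsu)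
      rw [PolyMod.dd_self]
      have hq' := hp2 _ hsu
      have e : p.eval (s + u) * p.eval (s + u) + p.derivative.eval (s + u) + a ^ 2 / 4 +
          a ^ 2 / 4 * (mfun (a * (s - s) / 2) /
            (Real.sin (a * (s + u) / 2) * Real.sin (a * (s + u) / 2))) =
          (p.eval (s + u) * p.eval (s + u) - f a (s + u) * f a (s + u)) +
            (p.derivative.eval (s + u) - f' a (s + u)) := by linear_combination hid
      rw [e]
      exact (abs_add_le _ _).trans (add_le_add hP hq')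
    · have hid := ident (a := a) (s := s) (t := t) (u := u) ha.ne' hst (hsin _ hsu) (hsin _ htu)
      have hne : s + u ≠ t + u := fun e => hst (by linarith)
      have hD := hp3 _ hsu _ htu hne
      have h2 : s + u - (t + u) = s - t := by ring
      rw [h2] at hD
      have e : p.eval (s + u) * p.eval (t + u) + dd p (s + u) (t + u) + a ^ 2 / 4 +
          a ^ 2 / 4 * (mfun (a * (s - t) / 2) /
            (Real.sin (a * (s + u) / 2) * Real.sin (a * (t + u) / 2))) =
          (p.eval (s + u) * p.eval (t + u) - f a (s + u) * f a (t + u)) +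
            (dd p (s + u) (t + u) - (f a (s + u) - f a (t + u)) / (s - t)) := by
        linear_combination hid
      rw [e]
      exact (abs_add_le _ _).trans (add_le_add hP hD)
  · intro s t hs ht
    have hst' : s + t ∈ Set.Icc (2 * ε) (2 * Λ) :=
      ⟨by linarith [hs.1, ht.1], by linarith [hs.2, ht.2]⟩
    have hP1 := hprod _ _ _ _ (hpκ _ hst') (hqκ _ hs) (hfM _ hst') (hhM _ hs)
    have hP2 := hprod _ _ _ _ (hpκ _ hst') (hqκ _ ht) (hfM _ hst') (hhM _ ht)
    have hT2 : κ * (2 * M + 1) + κ * (2 * M + 1) + δ ≤ η := by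
      refine le_trans ?_ hδT
      rw [hκ, hT]
      nlinarith [mul_pos hδ0 hL0, mul_pos hδ0 (pow_pos hL0 2), hM1, mul_pos hδ0 one_pos,
        mul_nonneg hδ0.le (mul_nonneg hL0.le (zero_le_one.trans hM1)),
        mul_nonneg hδ0.le (mul_nonneg (pow_pos hL0 2).le (zero_le_one.trans hM1)),
        mul_nonneg hδ0.le (zero_le_one.trans hM1)]
    have hb1 := (abs_le.1 hP1).2
    have hb2 := (abs_le.1 hP2).2
    by_cases hst : s = t
    · subst hst
      have h1 := second_diag (a := a) (s := s) ha (hhalf s hs).1 (hhalf s hs).2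
      have h2 := (abs_le.1 (hq2 s hs)).2
      rw [PolyMod.dd_self, mul_add]
      rw [mul_add] at h1
      linarith
    · have h1 := second (a := a) (s := s) (t := t) ha hst (hhalf s hs).1 (hhalf s hs).2
        (hhalf t ht).1 (hhalf t ht).2
      have h2 := (abs_le.1 (hq3 s hs t ht hst)).2
      rw [mul_add] at h1 ⊢
      linarith
  · intro s hs
    have hd : ∀ x ∈ Set.Icc ε Λ, HasDerivWithinAt (fun z => r.eval z + Fa a z)
        ((-q ^ 2).eval x + h a x ^ 2) (Set.Icc ε Λ) x := by
      intro x hx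
      have h1 := (r.hasDerivAt x).add (hasDeriv_Fa ha.ne' (hcos x hx))
      rw [hrd] at h1
      exact h1.hasDerivWithinAt
    have hb : ∀ x ∈ Set.Icc ε Λ, ‖(-q ^ 2).eval x + h a x ^ 2‖ ≤ κ * (2 * M + 1) := by
      intro x hx
      have h1 := hprod _ _ _ _ (hqκ x hx) (hqκ x hx) (hhM x hx) (hhM x hx)
      have e : (-q ^ 2).eval x + h a x ^ 2 = -(q.eval x * q.eval x - h a x * h a x) := by
        simp only [eval_neg, eval_pow]
        ring
      rw [e, norm_neg, Real.norm_eq_abs]
      exact h1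
    have h1 := (convex_Icc ε Λ).norm_image_sub_le_of_norm_hasDerivWithin_le hd hb
      (⟨le_rfl, hεΛ.le⟩ : ε ∈ Set.Icc ε Λ) hs
    rw [hrε, neg_add_cancel, sub_zero, Real.norm_eq_abs, Real.norm_eq_abs,
      abs_of_nonneg (by linarith [hs.1] : 0 ≤ s - ε)] at h1
    refine h1.trans ?_
    have h2 : κ * (2 * M + 1) * (s - ε) ≤ κ * (2 * M + 1) * L :=
      mul_le_mul_of_nonneg_left (by rw [hL]; linarith [hs.2]) (by positivity)
    refine (h2.trans ?_).trans hδT
    rw [hκ, hT]
    nlinarith [mul_pos hδ0 hL0, mul_pos hδ0 (pow_pos hL0 2), hM1, mul_pos hδ0 one_pos,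
      mul_nonneg hδ0.le (mul_nonneg hL0.le (zero_le_one.trans hM1)),
      mul_nonneg hδ0.le (mul_nonneg (pow_pos hL0 2).le (zero_le_one.trans hM1)),
      mul_nonneg hδ0.le (zero_le_one.trans hM1)]

end Pool.Agent.LT
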