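import Pool.Agent.LT.AL
import Pool.Agent.LT.Defs3

/-!
# The slice inequality for the families `√(z j) f j`
(MP_4c716f_mp, module SLICEJ; mathematics: helper15; Lean: helper50)
-/

set_option autoImplicit false

namespace Pool.Agent.LT

open MeasureTheory Matrix Finset
open scoped ComplexConjugate ComplexOrder ContDiff

namespace SJ

open AL

variable {d : ℕ}

/-- diagonal entries of the form matrix -/
theorem QM_diag {m : ℕ} (V : (Fin d → ℝ) → ℝ) (g : Fin m → (Fin d → ℝ) → ℂ) (a : Fin m) :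
    form1 V (g a) = (QM V g a a).re := by
  have h1 : ∀ (W : (Fin d → ℝ) → ℝ) (u : Fin m → (Fin d → ℝ) → ℂ),
      (wM W u a a).re = ∫ y, W y * ‖u a y‖ ^ 2 := by
    intro W u
    have : wM W u a a = ((∫ y, W y * ‖u a y‖ ^ 2 : ℝ) : ℂ) := by
      simp only [wM, Matrix.of_apply]
      rw [← integral_complex_ofReal]
      congr 1
      ext y
      rw [Complex.mul_conj, Complex.normSq_eq_norm_sq]
      push_cast
      ring
    rw [this, Complex.ofReal_re]
  simp only [form1, QM, Matrix.sub_apply, Matrix.sum_apply, Complex.sub_re, Complex.re_sum, h1,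
    kinE, pd, Pi.one_apply, one_mul]

/-- the traces of the powers of a Gram matrix dominate the powers of the diagonal -/
theorem trace_pow_ge {N m : ℕ} (M : Matrix (Fin N) (Fin m) ℂ) (n : Fin m → ℝ)
    (hn : n = fun a => ∑ j, ‖M j a‖ ^ 2) :
    ∑ a, n a ^ 2 ≤ (Matrix.trace ((M * (1 : Matrix (Fin m) (Fin m) ℂ) * Mᴴ) ^ 2)).re ∧
    ∑ a, n a ^ 3 ≤ (Matrix.trace ((M * (1 : Matrix (Fin m) (Fin m) ℂ) * Mᴴ) ^ 3)).re := by
  set P : Matrix (Fin m) (Fin m) ℂ := Mᴴ * M with hP
  have hPP : Pᴴ = P := by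
    rw [hP, Matrix.conjTranspose_mul, Matrix.conjTranspose_conjTranspose]
  have hPa : ∀ a, P a a = (n a : ℂ) := by
    intro a
    rw [hP, Matrix.mul_apply, hn]
    push_cast
    refine Finset.sum_congr rfl fun j _ => ?_
    rw [Matrix.conjTranspose_apply, RCLike.star_def, mul_comm, Complex.mul_conj,
      Complex.normSq_eq_norm_sq]
    norm_cast
  have hn0 : ∀ a, 0 ≤ n a := fun a => by
    rw [hn]
    exact Finset.sum_nonneg fun j _ => by positivity
  have hsq : ∀ a, n a ^ 2 ≤ ((P * P) a a).re := by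
    intro a
    rw [Matrix.mul_apply, Complex.re_sum]
    have h4 : ∀ b, (P a b * P b a).re = ‖P a b‖ ^ 2 := by
      intro b
      have : P b a = conj (P a b) := by
        conv_lhs => rw [← hPP]
        rfl
      rw [this, Complex.mul_conj, Complex.normSq_eq_norm_sq, Complex.ofReal_re]
    simp only [h4]
    have h5 : n a ^ 2 = ‖P a a‖ ^ 2 := by
      rw [hPa, Complex.norm_real, Real.norm_eq_abs, sq_abs]
    rw [h5]
    exact Finset.single_le_sum (f := fun b => ‖P a b‖ ^ 2) (fun b _ => by positivity)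
      (Finset.mem_univ a)
  have hcube : ∀ a, n a ^ 3 ≤ ((P * P * P) a a).re := by
    intro a
    set D : Matrix (Fin m) (Fin m) ℂ := P - (n a : ℂ) • 1 with hD
    have hDD : Dᴴ = D := by
      rw [hD, Matrix.conjTranspose_sub, hPP, Matrix.conjTranspose_smul, Matrix.conjTranspose_one,
        RCLike.star_def, Complex.conj_ofReal]
    have hps : (D * P * D).PosSemidef := by
      have h := Matrix.posSemidef_conjTranspose_mul_self (M * D)
      rwa [Matrix.conjTranspose_mul, hDD, Matrix.mul_assoc, ← Matrix.mul_assoc Mᴴ, ← hP,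
        ← Matrix.mul_assoc] at h
    have h0 : 0 ≤ ((D * P * D) a a).re := by
      have := hps.diag_nonneg (i := a)
      exact (Complex.le_def.1 this).1
    have e : D * P * D = P * P * P - (2 * (n a : ℂ)) • (P * P) + ((n a : ℂ) ^ 2) • P := by
      rw [hD]
      simp only [Matrix.sub_mul, Matrix.mul_sub, Matrix.smul_mul, Matrix.mul_smul, Matrix.one_mul,
        Matrix.mul_one, smul_sub, smul_smul]
      rw [two_mul, add_smul, pow_two]
      abel
    rw [e, Matrix.add_apply, Matrix.sub_apply, Matrix.smul_apply, Matrix.smul_apply, hPa,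
      Complex.add_re, Complex.sub_re] at h0
    have e1 : ((2 * (n a : ℂ)) • (P * P) a a).re = 2 * n a * ((P * P) a a).re := by
      rw [smul_eq_mul, show (2 * (n a : ℂ)) = ((2 * n a : ℝ) : ℂ) by push_cast; ring,
        Complex.re_ofReal_mul]
    have e2 : (((n a : ℂ) ^ 2) • (n a : ℂ)).re = n a ^ 3 := by
      rw [smul_eq_mul, ← pow_succ, ← Complex.ofReal_pow, Complex.ofReal_re]
    rw [e1, e2] at h0
    have h1 := mul_le_mul_of_nonneg_left (hsq a) (hn0 a)
    nlinarith
  have t2 : Matrix.trace ((M * (1 : Matrix (Fin m) (Fin m) ℂ) * Mᴴ) ^ 2) =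
      Matrix.trace (P * P) := by
    rw [Matrix.mul_one, pow_two, ← Matrix.mul_assoc, Matrix.trace_mul_comm, hP]
    simp only [Matrix.mul_assoc]
  have t3 : Matrix.trace ((M * (1 : Matrix (Fin m) (Fin m) ℂ) * Mᴴ) ^ 3) =
      Matrix.trace (P * P * P) := by
    rw [Matrix.mul_one, pow_succ, pow_two, ← Matrix.mul_assoc, Matrix.trace_mul_comm, hP]
    simp only [Matrix.mul_assoc]
  rw [t2, t3]
  constructor
  · rw [Matrix.trace, Complex.re_sum]
    exact Finset.sum_le_sum fun a _ => hsq a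
  · rw [Matrix.trace, Complex.re_sum]
    exact Finset.sum_le_sum fun a _ => hcube a

theorem trace_diag {N m : ℕ} (M : Matrix (Fin N) (Fin m) ℂ) (e n : Fin m → ℝ)
    (hn : n = fun a => ∑ j, ‖M j a‖ ^ 2) :
    (Matrix.trace (M * Matrix.diagonal (fun a => (e a : ℂ)) * Mᴴ)).re = ∑ a, e a * n a := by
  have hPa : ∀ a, (Mᴴ * M) a a = (n a : ℂ) := by
    intro a
    rw [Matrix.mul_apply, hn]
    push_cast
    refine Finset.sum_congr rfl fun j _ => ?_
    rw [Matrix.conjTranspose_apply, RCLike.star_def, mul_comm, Complex.mul_conj,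
      Complex.normSq_eq_norm_sq]
    norm_cast
  rw [Matrix.trace_mul_comm, ← Matrix.mul_assoc, Matrix.trace, Complex.re_sum]
  refine Finset.sum_congr rfl fun a _ => ?_
  rw [Matrix.diag_apply, Matrix.mul_diagonal, hPa, ← Complex.ofReal_mul, Complex.ofReal_re,
    mul_comm]

end SJ

open AL in
/-- (SLICEJ) -/
theorem sliceJ (h : UaStmt) : SliceJStmt := by
  intro d s L _ hES N f V hf hV
  obtain ⟨m, g, e, T, hg, hG, hQ, hfT⟩ := exists_diag V hV.1 f hf
  refine ⟨m, fun i => -e i, ?_, ?_⟩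
  · have h1 := hES m g V hg hV hG
    have h2 : ∀ a, form1 V (g a) = e a := by
      intro a
      rw [SJ.QM_diag V g a, hQ, Matrix.diagonal_apply_eq, Complex.ofReal_re]
    simpa only [h2] using h1
  · intro a z ha hz
    set M : Matrix (Fin N) (Fin m) ℂ := Matrix.diagonal (fun j => ((√(z j) : ℝ) : ℂ)) * T with hM
    have hfam : (fun j y => ((√(z j) : ℝ) : ℂ) * f j y) = act M g := by
      rw [hM, act_mul, ← hfT]
      ext j y
      simp [act, Matrix.diagonal_apply]
    rw [hfam, formE_eq V hV.1 (test_act M hg), QM_act V hV.1 M hg, gramF_act M hg, hQ, hG]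
    set n : Fin m → ℝ := fun a => ∑ j, ‖M j a‖ ^ 2 with hn
    obtain ⟨t2, t3⟩ := SJ.trace_pow_ge M n hn
    rw [SJ.trace_diag M e n hn]
    have hn0 : ∀ i, 0 ≤ n i := fun i => Finset.sum_nonneg fun j _ => by positivity
    have key : ∀ i, -Ua a (-e i) ≤ e i * n i + n i ^ 2 + a ^ 2 / 4 * n i ^ 3 := by
      intro i
      have := h.1 a (-e i) (n i) ha (hn0 i)
      linarith
    have ha4 : 0 ≤ a ^ 2 / 4 := by positivity
    calc -(∑ i, Ua a (-e i)) = ∑ i, -Ua a (-e i) := by rw [Finset.sum_neg_distrib]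
      _ ≤ ∑ i, (e i * n i + n i ^ 2 + a ^ 2 / 4 * n i ^ 3) :=
          Finset.sum_le_sum fun i _ => key i
      _ = ∑ i, e i * n i + ∑ i, n i ^ 2 + a ^ 2 / 4 * ∑ i, n i ^ 3 := by
          rw [Finset.sum_add_distrib, Finset.sum_add_distrib, ← Finset.mul_sum]
      _ ≤ _ := by
          have := mul_le_mul_of_nonneg_left t3 ha4
          linarith

end Pool.Agent.LT
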