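import Pool.Agent.LT.Defs2

/-!
# LT: from test functions to `H¹` (module LT2_KINH1 of MP_4c716f_mp)
-/

set_option autoImplicit false

namespace Pool.Agent.LT

open MeasureTheory Matrix Finset Filter Topology
open scoped ComplexConjugate ComplexOrder ContDiff

section L2

variable {α : Type*} [MeasurableSpace α] {μ : Measure α}

/-- norm of an `L²` function as an integral -/
theorem kinH1_norm_sq {u : α → ℂ} (hu : MemLp u 2 μ) : ‖hu.toLp u‖ ^ 2 = ∫ y, ‖u y‖ ^ 2 ∂μ := by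
  rw [← inner_self_eq_norm_sq (𝕜 := ℂ), L2.inner_def, ← integral_re (L2.integrable_inner _ _)]
  refine integral_congr_ae ?_
  filter_upwards [hu.coeFn_toLp] with y hy
  rw [hy, inner_self_eq_norm_sq]

theorem kinH1_inner_eq {u v : α → ℂ} (hu : MemLp u 2 μ) (hv : MemLp v 2 μ) :
    inner ℂ (hv.toLp v) (hu.toLp u) = ∫ y, u y * conj (v y) ∂μ := by
  rw [L2.inner_def]
  refine integral_congr_ae ?_
  filter_upwards [hu.coeFn_toLp, hv.coeFn_toLp] with y hy hy'
  rw [hy, hy', RCLike.inner_apply]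

theorem kinH1_tendsto {u : α → ℂ} {v : ℕ → α → ℂ} {ε : ℕ → ℝ}
    (hu : MemLp u 2 μ) (hv : ∀ n, MemLp (v n) 2 μ)
    (h : ∀ n, ∫ y, ‖u y - v n y‖ ^ 2 ∂μ ≤ ε n) (hε : Tendsto ε atTop (𝓝 0)) :
    Tendsto (fun n => (hv n).toLp (v n)) atTop (𝓝 (hu.toLp u)) := by
  rw [tendsto_iff_norm_sub_tendsto_zero]
  have h1 : ∀ n, ‖(hv n).toLp (v n) - hu.toLp u‖ ^ 2 ≤ ε n := by
    intro n
    rw [norm_sub_rev, ← MemLp.toLp_sub, kinH1_norm_sq]
    exact h n
  have h2 : ∀ n, ‖(hv n).toLp (v n) - hu.toLp u‖ ≤ √(ε n) := fun n => Real.le_sqrt_of_sq_le (h1 n)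
  have h3 : Tendsto (fun n => √(ε n)) atTop (𝓝 0) := by
    have := (Real.continuous_sqrt.tendsto 0).comp hε
    rw [Real.sqrt_zero] at this
    exact this
  exact squeeze_zero (fun n => norm_nonneg _) h2 h3

/-- `L²` convergence gives convergence of inner products -/
theorem kinH1_inner {u u' : α → ℂ} {v v' : ℕ → α → ℂ} {ε : ℕ → ℝ}
    (hu : MemLp u 2 μ) (hu' : MemLp u' 2 μ) (hv : ∀ n, MemLp (v n) 2 μ)
    (hv' : ∀ n, MemLp (v' n) 2 μ) (h : ∀ n, ∫ y, ‖u y - v n y‖ ^ 2 ∂μ ≤ ε n)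
    (h' : ∀ n, ∫ y, ‖u' y - v' n y‖ ^ 2 ∂μ ≤ ε n) (hε : Tendsto ε atTop (𝓝 0)) :
    Tendsto (fun n => ∫ y, v n y * conj (v' n y) ∂μ) atTop (𝓝 (∫ y, u y * conj (u' y) ∂μ)) := by
  have h1 := kinH1_tendsto hu hv h hε
  have h2 := kinH1_tendsto hu' hv' h' hε
  have h3 := h2.inner (𝕜 := ℂ) h1
  rw [kinH1_inner_eq] at h3
  refine h3.congr fun n => ?_
  rw [kinH1_inner_eq]

/-- `L²` convergence gives convergence of the norms -/
theorem kinH1_sq {u : α → ℂ} {v : ℕ → α → ℂ} {ε : ℕ → ℝ}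
    (hu : MemLp u 2 μ) (hv : ∀ n, MemLp (v n) 2 μ)
    (h : ∀ n, ∫ y, ‖u y - v n y‖ ^ 2 ∂μ ≤ ε n) (hε : Tendsto ε atTop (𝓝 0)) :
    Tendsto (fun n => ∫ y, ‖v n y‖ ^ 2 ∂μ) atTop (𝓝 (∫ y, ‖u y‖ ^ 2 ∂μ)) := by
  have h1 := ((kinH1_tendsto hu hv h hε).norm).pow 2
  rw [kinH1_norm_sq] at h1
  refine h1.congr fun n => ?_
  rw [kinH1_norm_sq]

end L2

/-- a small Hermitian perturbation of `δ` is positive semidefinite -/
theorem kinH1_psd {N : ℕ} (B : Matrix (Fin N) (Fin N) ℂ) (hB : B.IsHermitian) (δ : ℝ)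
    (h : ∑ i, ∑ j, ‖B i j‖ ≤ δ) : ((δ : ℂ) • (1 : Matrix (Fin N) (Fin N) ℂ) - B).PosSemidef := by
  have hH : ((δ : ℂ) • (1 : Matrix (Fin N) (Fin N) ℂ) - B).IsHermitian := by
    refine IsHermitian.sub ?_ hB
    ext i j
    simp [Matrix.conjTranspose_apply, Matrix.one_apply, eq_comm]
    split_ifs <;> simp
  refine PosSemidef.of_dotProduct_mulVec_nonneg hH fun x => ?_
  have him := hH.im_star_dotProduct_mulVec_self x
  rw [Complex.nonneg_iff]
  refine ⟨?_, him.symm⟩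
  have hx : ∀ i j : Fin N, ‖x i‖ * ‖x j‖ ≤ ∑ k, ‖x k‖ ^ 2 := by
    intro i j
    have hi : ‖x i‖ ^ 2 ≤ ∑ k, ‖x k‖ ^ 2 :=
      Finset.single_le_sum (f := fun k => ‖x k‖ ^ 2) (fun k _ => by positivity) (mem_univ i)
    have hj : ‖x j‖ ^ 2 ≤ ∑ k, ‖x k‖ ^ 2 :=
      Finset.single_le_sum (f := fun k => ‖x k‖ ^ 2) (fun k _ => by positivity) (mem_univ j)
    nlinarith [sq_nonneg (‖x i‖ - ‖x j‖)]
  have h1 : star x ⬝ᵥ (((δ : ℂ) • (1 : Matrix (Fin N) (Fin N) ℂ) - B) *ᵥ x) =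
      ((δ * ∑ k, ‖x k‖ ^ 2 : ℝ) : ℂ) - ∑ i, ∑ j, conj (x i) * (B i j * x j) := by
    rw [Matrix.sub_mulVec, dotProduct_sub, Matrix.smul_mulVec, Matrix.one_mulVec,
      dotProduct_smul]
    congr 1
    · simp only [dotProduct, Pi.star_apply, smul_eq_mul]
      push_cast
      congr 1
      refine sum_congr rfl fun i _ => ?_
      rw [mul_comm]
      exact RCLike.mul_conj (x i)
    · simp only [dotProduct, mulVec, Pi.star_apply, mul_sum]
      rfl
  rw [h1, Complex.sub_re, Complex.ofReal_re]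
  have h2 : (∑ i, ∑ j, conj (x i) * (B i j * x j)).re ≤ δ * ∑ k, ‖x k‖ ^ 2 := by
    calc (∑ i, ∑ j, conj (x i) * (B i j * x j)).re
        ≤ ‖∑ i, ∑ j, conj (x i) * (B i j * x j)‖ := Complex.re_le_norm _
      _ ≤ ∑ i, ∑ j, ‖B i j‖ * ∑ k, ‖x k‖ ^ 2 := by
          refine (norm_sum_le _ _).trans (sum_le_sum fun i _ => (norm_sum_le _ _).trans
            (sum_le_sum fun j _ => ?_))
          rw [norm_mul, norm_mul, RCLike.norm_conj]
          calc ‖x i‖ * (‖B i j‖ * ‖x j‖) = ‖B i j‖ * (‖x i‖ * ‖x j‖) := by ring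
            _ ≤ ‖B i j‖ * ∑ k, ‖x k‖ ^ 2 := mul_le_mul_of_nonneg_left (hx i j) (norm_nonneg _)
      _ = (∑ i, ∑ j, ‖B i j‖) * ∑ k, ‖x k‖ ^ 2 := by
          simp only [sum_mul]
      _ ≤ δ * ∑ k, ‖x k‖ ^ 2 := mul_le_mul_of_nonneg_right h
          (sum_nonneg fun k _ => by positivity)
  linarith

section test

variable {d : ℕ}

theorem kinH1_testFn_memLp {f : (Fin d → ℝ) → ℂ} (hf : TestFn d f) : MemLp f 2 volume :=
  hf.1.continuous.memLp_of_hasCompactSupport hf.2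

theorem kinH1_testFn_deriv_memLp {f : (Fin d → ℝ) → ℂ} (hf : TestFn d f) (i : Fin d) :
    MemLp (fun y => fderiv ℝ f y (Pi.single i 1)) 2 volume := by
  have hc : Continuous fun y => fderiv ℝ f y (Pi.single i 1) :=
    (hf.1.continuous_fderiv (by simp)).clm_apply continuous_const
  have hs : HasCompactSupport fun y => fderiv ℝ f y (Pi.single i 1) :=
    (hf.2.fderiv (𝕜 := ℝ)).comp_left (g := fun L : (Fin d → ℝ) →L[ℝ] ℂ => L (Pi.single i 1))
      (by simp)
  exact hc.memLp_of_hasCompactSupport hs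

theorem kinH1_testFn_smul {f : (Fin d → ℝ) → ℂ} (hf : TestFn d f) (s : ℝ) :
    TestFn d fun y => (s : ℂ) * f y :=
  ⟨contDiff_const.mul hf.1, hf.2.mul_left⟩

theorem kinH1_kinE_smul {f : (Fin d → ℝ) → ℂ} (hf : TestFn d f) (s : ℝ) :
    kinE (fun y => (s : ℂ) * f y) = s ^ 2 * kinE f := by
  unfold kinE
  rw [mul_sum]
  refine sum_congr rfl fun i _ => ?_
  rw [← integral_const_mul]
  refine integral_congr_ae (Eventually.of_forall fun y => ?_)
  have hd : DifferentiableAt ℝ f y := (hf.1.differentiable (by simp)).differentiableAt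
  have h1 : fderiv ℝ (fun y => (s : ℂ) * f y) y = (s : ℂ) • fderiv ℝ f y := by
    have := fderiv_const_mul hd (s : ℂ)
    exact this
  simp only [h1]
  rw [_root_.smul_apply, norm_smul, mul_pow]
  simp

theorem kinH1_gramF_smul {N : ℕ} (f : Fin N → (Fin d → ℝ) → ℂ) (s : ℝ) :
    gramF (fun j y => (s : ℂ) * f j y) = ((s ^ 2 : ℝ) : ℂ) • gramF f := by
  ext i j
  rw [Matrix.smul_apply]
  simp only [gramF, of_apply, smul_eq_mul]
  rw [← integral_const_mul]
  refine integral_congr_ae (Eventually.of_forall fun y => ?_)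
  simp only [map_mul, Complex.conj_ofReal]
  push_cast
  ring

theorem kinH1_formE_smul {N : ℕ} (V : (Fin d → ℝ) → ℝ) (f : Fin N → (Fin d → ℝ) → ℂ)
    (hf : ∀ j, TestFn d (f j)) (s : ℝ) :
    formE V (fun j y => (s : ℂ) * f j y) = s ^ 2 * formE V f := by
  unfold formE
  rw [mul_sub, mul_sum]
  congr 1
  · exact sum_congr rfl fun j _ => kinH1_kinE_smul (hf j) s
  · rw [← integral_const_mul]
    refine integral_congr_ae (Eventually.of_forall fun y => ?_)
    simp only [norm_mul, mul_pow, ← mul_sum]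
    simp
    ring

theorem kinH1_gramF_herm {N : ℕ} (f : Fin N → (Fin d → ℝ) → ℂ) : (gramF f).IsHermitian := by
  ext i j
  simp only [gramF, conjTranspose_apply, of_apply]
  rw [RCLike.star_def, ← integral_conj]
  refine integral_congr_ae (Eventually.of_forall fun y => ?_)
  simp [mul_comm]

/-- bounded potentials -/
theorem kinH1_pot_bdd {V : (Fin d → ℝ) → ℝ} (hV : PotFn d V) : ∃ M : ℝ, 0 ≤ M ∧ ∀ y, V y ≤ M := by
  obtain ⟨M, hM⟩ := hV.2.1.exists_bound_of_continuous hV.1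
  exact ⟨max M 0, le_max_right _ _, fun y => (le_abs_self _).trans ((hM y).trans (le_max_left _ _))⟩

theorem kinH1_sqrtV_memLp {V : (Fin d → ℝ) → ℝ} (hV : PotFn d V) {u : (Fin d → ℝ) → ℂ}
    (hu : MemLp u 2 volume) : MemLp (fun y => (√(V y) : ℂ) * u y) 2 volume := by
  obtain ⟨M, hM0, hM⟩ := kinH1_pot_bdd hV
  refine MemLp.of_le_mul (c := √M) hu ?_ (Eventually.of_forall fun y => ?_)
  · exact ((Complex.continuous_ofReal.comp (Real.continuous_sqrt.comp
      hV.1)).aestronglyMeasurable).mul hu.1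
  · rw [norm_mul, Complex.norm_real, Real.norm_of_nonneg (Real.sqrt_nonneg _)]
    exact mul_le_mul_of_nonneg_right (Real.sqrt_le_sqrt (hM y)) (norm_nonneg _)

theorem kinH1_sqrtV_sq {V : (Fin d → ℝ) → ℝ} (hV : PotFn d V) (u : (Fin d → ℝ) → ℂ) (y : Fin d → ℝ) :
    ‖(√(V y) : ℂ) * u y‖ ^ 2 = V y * ‖u y‖ ^ 2 := by
  rw [norm_mul, Complex.norm_real, Real.norm_of_nonneg (Real.sqrt_nonneg _), mul_pow,
    Real.sq_sqrt (hV.2.2 y)]

theorem kinH1_pot_int {V : (Fin d → ℝ) → ℝ} (hV : PotFn d V) {u : (Fin d → ℝ) → ℂ}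
    (hu : MemLp u 2 volume) : Integrable (fun y => V y * ‖u y‖ ^ 2) volume := by
  have h := (kinH1_sqrtV_memLp hV hu).integrable_norm_pow (by norm_num)
  refine h.congr (Eventually.of_forall fun y => ?_)
  simpa using kinH1_sqrtV_sq hV u y

/-- the inequality for `H¹` families and continuous potentials with compact support -/
theorem kinH1_pot (hd : DensStmt) (h1 : D1 d) {N : ℕ} {ψ : Fin N → (Fin d → ℝ) → ℂ}
    {g : Fin N → Fin d → (Fin d → ℝ) → ℂ} (hψ : ∀ j, IsH1d (ψ j) (g j))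
    (ho : ∀ i j, ∫ y, conj (ψ i y) * ψ j y = if i = j then 1 else 0)
    {V : (Fin d → ℝ) → ℝ} (hV : PotFn d V) :
    ∫ y, V y * ∑ j, ‖ψ j y‖ ^ 2 ≤ (∑ j, ∑ i, ∫ y, ‖g j i y‖ ^ 2) +
      2 / √3 * Lcl 1 d * ∫ y, V y ^ (1 + (d : ℝ) / 2) := by
  obtain ⟨M, hM0, hM⟩ := kinH1_pot_bdd hV
  set ε : ℕ → ℝ := fun n => 1 / ((n : ℝ) + 1) with hεdef
  have hε0 : ∀ n, 0 < ε n := fun n => by simp only [hεdef]; positivity
  have hε : Tendsto ε atTop (𝓝 0) := tendsto_one_div_add_atTop_nhds_zero_nat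
  choose f hft hf1 hf2 using fun (j : Fin N) (n : ℕ) => hd d (ψ j) (g j) (hψ j) (ε n) (hε0 n)
  have hψm : ∀ j, MemLp (ψ j) 2 volume := fun j => (hψ j).1
  have hgm : ∀ j i, MemLp (g j i) 2 volume := fun j => (hψ j).2.1
  have hfm : ∀ j n, MemLp (f j n) 2 volume := fun j n => kinH1_testFn_memLp (hft j n)
  -- the Gram matrices converge
  have hG : ∀ i j, Tendsto (fun n => gramF (fun k => f k n) i j) atTop
      (𝓝 ((1 : Matrix (Fin N) (Fin N) ℂ) i j)) := by
    intro i j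
    have := kinH1_inner (hψm i) (hψm j) (hfm i) (hfm j) (hf1 i) (hf1 j) hε
    have h2 : ∫ y, ψ i y * conj (ψ j y) = (1 : Matrix (Fin N) (Fin N) ℂ) i j := by
      have h3 := ho j i
      rw [Matrix.one_apply]
      rw [show (∫ y, ψ i y * conj (ψ j y)) = ∫ y, conj (ψ j y) * ψ i y from by
        simp only [mul_comm], h3]
      simp [eq_comm]
    rw [h2] at this
    exact this
  set δ : ℕ → ℝ := fun n => ∑ i, ∑ j,
    ‖(gramF (fun k => f k n) - 1 : Matrix (Fin N) (Fin N) ℂ) i j‖ with hδdef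
  have hδ0 : ∀ n, 0 ≤ δ n := fun n => sum_nonneg fun i _ => sum_nonneg fun j _ => norm_nonneg _
  have hδ : Tendsto δ atTop (𝓝 0) := by
    have : Tendsto δ atTop (𝓝 (∑ i : Fin N, ∑ j : Fin N, (0 : ℝ))) := by
      refine tendsto_finsetSum _ fun i _ => tendsto_finsetSum _ fun j _ => ?_
      have h3 := ((hG i j).sub_const ((1 : Matrix (Fin N) (Fin N) ℂ) i j)).norm
      simpa using h3
    simpa using this
  -- the kinetic energies converge
  have hK : Tendsto (fun n => ∑ j, kinE (f j n)) atTop (𝓝 (∑ j, ∑ i, ∫ y, ‖g j i y‖ ^ 2)) := by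
    refine tendsto_finsetSum _ fun j _ => tendsto_finsetSum _ fun i _ => ?_
    exact kinH1_sq (hgm j i) (fun n => kinH1_testFn_deriv_memLp (hft j n) i)
      (fun n => hf2 j n i) hε
  -- the potential energies converge
  have hPj : ∀ j, Tendsto (fun n => ∫ y, V y * ‖f j n y‖ ^ 2) atTop
      (𝓝 (∫ y, V y * ‖ψ j y‖ ^ 2)) := by
    intro j
    have h3 := kinH1_sq (μ := volume) (u := fun y => (√(V y) : ℂ) * ψ j y)
      (v := fun n y => (√(V y) : ℂ) * f j n y) (ε := fun n => M * ε n)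
      (kinH1_sqrtV_memLp hV (hψm j)) (fun n => kinH1_sqrtV_memLp hV (hfm j n)) ?_
      (by simpa using hε.const_mul M)
    · simpa only [kinH1_sqrtV_sq hV] using h3
    · intro n
      have h4 : ∀ y, ‖(√(V y) : ℂ) * ψ j y - (√(V y) : ℂ) * f j n y‖ ^ 2 =
          V y * ‖ψ j y - f j n y‖ ^ 2 := by
        intro y
        rw [← mul_sub]
        exact kinH1_sqrtV_sq hV (fun y => ψ j y - f j n y) y
      simp only [h4]
      have hm : MemLp (fun y => ψ j y - f j n y) 2 volume := (hψm j).sub (hfm j n)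
      calc ∫ y, V y * ‖ψ j y - f j n y‖ ^ 2 ≤ ∫ y, M * ‖ψ j y - f j n y‖ ^ 2 := by
            refine integral_mono (kinH1_pot_int hV hm) ?_ fun y => ?_
            · exact (hm.integrable_norm_pow (by norm_num)).const_mul M
            · exact mul_le_mul_of_nonneg_right (hM y) (by positivity)
        _ = M * ∫ y, ‖ψ j y - f j n y‖ ^ 2 := integral_const_mul _ _
        _ ≤ M * ε n := mul_le_mul_of_nonneg_left (hf1 j n) hM0
  have hsum : ∀ (F : Fin N → (Fin d → ℝ) → ℂ), (∀ j, MemLp (F j) 2 volume) →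
      ∫ y, V y * ∑ j, ‖F j y‖ ^ 2 = ∑ j, ∫ y, V y * ‖F j y‖ ^ 2 := by
    intro F hF
    rw [← integral_finsetSum _ fun j _ => kinH1_pot_int hV (hF j)]
    simp only [mul_sum]
  have hP : Tendsto (fun n => ∫ y, V y * ∑ j, ‖f j n y‖ ^ 2) atTop
      (𝓝 (∫ y, V y * ∑ j, ‖ψ j y‖ ^ 2)) := by
    rw [hsum ψ hψm]
    refine (tendsto_finsetSum _ fun j _ => hPj j).congr fun n => ?_
    rw [hsum (fun j => f j n) fun j => hfm j n]
  have hF : Tendsto (fun n => formE V fun j => f j n) atTop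
      (𝓝 ((∑ j, ∑ i, ∫ y, ‖g j i y‖ ^ 2) - ∫ y, V y * ∑ j, ‖ψ j y‖ ^ 2)) := hK.sub hP
  -- scaling
  have hs : ∀ n, -(2 / √3 * Lcl 1 d * ∫ y, V y ^ ((2 + d : ℝ) / 2)) ≤
      (1 + δ n)⁻¹ * formE V fun j => f j n := by
    intro n
    have hpos : 0 < 1 + δ n := by linarith [hδ0 n]
    set s : ℝ := √((1 + δ n)⁻¹) with hsdef
    have hs2 : s ^ 2 = (1 + δ n)⁻¹ := Real.sq_sqrt (by positivity)
    have h3 := h1 N (fun j y => (s : ℂ) * f j n y) V (fun j => kinH1_testFn_smul (hft j n) s) hV ?_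
    · rw [kinH1_formE_smul V _ (fun j => hft j n), hs2] at h3
      exact h3
    · rw [kinH1_gramF_smul, hs2]
      have h4 := kinH1_psd (gramF (fun k => f k n) - 1)
        ((kinH1_gramF_herm _).sub isHermitian_one) (δ n) le_rfl
      have h5 : (1 - (((1 + δ n)⁻¹ : ℝ) : ℂ) • gramF (fun k => f k n) :
          Matrix (Fin N) (Fin N) ℂ) = (((1 + δ n)⁻¹ : ℝ) : ℂ) •
            ((δ n : ℂ) • (1 : Matrix (Fin N) (Fin N) ℂ) - (gramF (fun k => f k n) - 1)) := by
        have h6 : ((δ n : ℂ) • (1 : Matrix (Fin N) (Fin N) ℂ) - (gramF (fun k => f k n) - 1)) =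
            (((1 + δ n : ℝ)) : ℂ) • (1 : Matrix (Fin N) (Fin N) ℂ) - gramF (fun k => f k n) := by
          push_cast
          rw [add_smul, one_smul]
          abel
        rw [h6, smul_sub, smul_smul, ← Complex.ofReal_mul, inv_mul_cancel₀ hpos.ne',
          Complex.ofReal_one, one_smul]
      rw [h5]
      refine h4.smul ?_
      rw [Complex.zero_le_real]
      positivity
  have hlim : Tendsto (fun n => (1 + δ n)⁻¹ * formE V fun j => f j n) atTop
      (𝓝 ((1 + 0)⁻¹ * ((∑ j, ∑ i, ∫ y, ‖g j i y‖ ^ 2) - ∫ y, V y * ∑ j, ‖ψ j y‖ ^ 2))) :=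
    ((hδ.const_add 1).inv₀ (by norm_num)).mul hF
  have hfin := ge_of_tendsto' hlim hs
  have hexp : (fun y => V y ^ ((2 + d : ℝ) / 2)) = fun y => V y ^ (1 + (d : ℝ) / 2) := by
    ext y
    congr 1
    ring
  rw [hexp] at hfin
  have : (1 + 0 : ℝ)⁻¹ = 1 := by norm_num
  rw [this, one_mul] at hfin
  linarith

end test

/-- module LT2_KINH1 -/
theorem kinH1 (hd : DensStmt) : KinH1Stmt := by
  intro d hd0 h1 N ψ g hψ ho W hW hW0
  set p : ℝ := 1 + (d : ℝ) / 2 with hp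
  have hp0 : 0 < p := by positivity
  have hp1 : 1 ≤ p := by
    have : (0 : ℝ) ≤ (d : ℝ) / 2 := by positivity
    linarith
  have hpe : (1 : ENNReal) ≤ ENNReal.ofReal p := by
    rw [← ENNReal.ofReal_one]
    exact ENNReal.ofReal_le_ofReal hp1
  have hpne : ENNReal.ofReal p ≠ 0 := (lt_of_lt_of_le one_pos hpe).ne'
  have : Fact ((1 : ENNReal) ≤ ENNReal.ofReal p) := ⟨hpe⟩
  -- approximating potentials
  have happ : ∀ n : ℕ, ∃ V : (Fin d → ℝ) → ℝ, PotFn d V ∧
      eLpNorm (V - W) (ENNReal.ofReal p) volume ≤ ENNReal.ofReal (1 / ((n : ℝ) + 1)) ∧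
      MemLp V (ENNReal.ofReal p) volume := by
    intro n
    obtain ⟨G, hGs, hGn, hGc, hGm⟩ := hW.exists_hasCompactSupport_eLpNorm_sub_le
      ENNReal.ofReal_ne_top (ε := ENNReal.ofReal (1 / ((n : ℝ) + 1)))
      (by simp only [ne_eq, ENNReal.ofReal_eq_zero, not_le]; positivity)
    refine ⟨fun y => max (G y) 0, ⟨hGc.max continuous_const, ?_, fun y => le_max_right _ _⟩,
      ?_, ?_⟩
    · exact hGs.comp_left (g := fun t : ℝ => max t 0) (by simp)
    · refine le_trans (eLpNorm_mono fun y => ?_) hGn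
      simp only [Pi.sub_apply, Real.norm_eq_abs]
      have h0 := hW0 y
      rcases le_total (G y) 0 with h | h
      · rw [max_eq_right h, abs_sub_comm, sub_zero, abs_of_nonneg h0, abs_of_nonneg (by linarith)]
        linarith
      · rw [max_eq_left h, abs_sub_comm]
    · refine hGm.mono ((hGc.max continuous_const).aestronglyMeasurable) (Eventually.of_forall
        fun y => ?_)
      simp only [Real.norm_eq_abs]
      rcases le_total (G y) 0 with h | h
      · rw [max_eq_right h]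
        simp
      · rw [max_eq_left h]
  choose V hV hVn hVm using happ
  have hlim0 : Tendsto (fun n => eLpNorm (V n - W) (ENNReal.ofReal p) volume) atTop (𝓝 0) := by
    have h3 : Tendsto (fun n : ℕ => ENNReal.ofReal (1 / ((n : ℝ) + 1))) atTop (𝓝 0) := by
      have := ENNReal.tendsto_ofReal (tendsto_one_div_add_atTop_nhds_zero_nat (𝕜 := ℝ))
      simpa using this
    exact tendsto_of_tendsto_of_tendsto_of_le_of_le tendsto_const_nhds h3
      (fun n => bot_le) hVn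
  obtain ⟨ns, hns, hae⟩ := (tendstoInMeasure_of_tendsto_eLpNorm hpne (fun n => (hVm n).1) hW.1
    hlim0).exists_seq_tendsto_ae
  -- the norms converge
  have hnorm : Tendsto (fun n => ∫ y, V n y ^ p) atTop (𝓝 (∫ y, W y ^ p)) := by
    have h3 : Tendsto (fun n => (hVm n).toLp (V n)) atTop (𝓝 (hW.toLp W)) := by
      rw [Lp.tendsto_Lp_iff_tendsto_eLpNorm'']
      exact hlim0
    have h4 := (h3.norm).rpow_const (p := p) (Or.inr hp0.le)
    have h5 : ∀ {U : (Fin d → ℝ) → ℝ} (hU : MemLp U (ENNReal.ofReal p) volume),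
        (∀ y, 0 ≤ U y) → ‖hU.toLp U‖ ^ p = ∫ y, U y ^ p := by
      intro U hU hU0
      have h6 : 0 ≤ ∫ y, U y ^ p := integral_nonneg fun y => Real.rpow_nonneg (hU0 y) _
      rw [Lp.norm_toLp, hU.eLpNorm_eq_integral_rpow_norm hpne ENNReal.ofReal_ne_top,
        ENNReal.toReal_ofReal hp0.le]
      have h7 : (∫ y, ‖U y‖ ^ p) = ∫ y, U y ^ p := by
        refine integral_congr_ae (Eventually.of_forall fun y => ?_)
        simp only [Real.norm_of_nonneg (hU0 y)]
      rw [h7, ENNReal.toReal_ofReal (Real.rpow_nonneg h6 _), ← Real.rpow_mul h6,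
        inv_mul_cancel₀ hp0.ne', Real.rpow_one]
    rw [h5 hW hW0] at h4
    refine h4.congr fun n => ?_
    exact h5 (hVm n) (hV n).2.2
  -- density
  set ρ : (Fin d → ℝ) → ℝ := fun y => ∑ j, ‖ψ j y‖ ^ 2 with hρ
  have hρm : AEStronglyMeasurable ρ volume :=
    Finset.aestronglyMeasurable_fun_sum _ fun j _ => (((hψ j).1.1).norm.pow 2)
  have hρ0 : ∀ y, 0 ≤ ρ y := fun y => sum_nonneg fun j _ => by positivity
  have hVρ : ∀ n, Integrable (fun y => V n y * ρ y) volume := by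
    intro n
    have : (fun y => V n y * ρ y) = fun y => ∑ j, V n y * ‖ψ j y‖ ^ 2 := by
      ext y
      simp only [hρ, mul_sum]
    rw [this]
    exact integrable_finsetSum _ fun j _ => kinH1_pot_int (hV n) (hψ j).1
  set T : ℝ := ∑ j, ∑ i, ∫ y, ‖g j i y‖ ^ 2 with hT
  set c : ℝ := 2 / √3 * Lcl 1 d with hc
  have hbd : ∀ n, ∫ y, V n y * ρ y ≤ T + c * ∫ y, V n y ^ p := fun n => kinH1_pot hd h1 hψ ho (hV n)
  have hRlim : Tendsto (fun n => T + c * ∫ y, V (ns n) y ^ p) atTop (𝓝 (T + c * ∫ y, W y ^ p)) :=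
    ((hnorm.comp hns.tendsto_atTop).const_mul c).const_add T
  have hWρm : AEStronglyMeasurable (fun y => W y * ρ y) volume := hW.1.mul hρm
  have hfatou : ∫⁻ y, ENNReal.ofReal (W y * ρ y) ≤ ENNReal.ofReal (T + c * ∫ y, W y ^ p) := by
    calc ∫⁻ y, ENNReal.ofReal (W y * ρ y)
        = ∫⁻ y, liminf (fun n => ENNReal.ofReal (V (ns n) y * ρ y)) atTop := by
          refine lintegral_congr_ae ?_
          filter_upwards [hae] with y hy
          refine (Tendsto.liminf_eq ?_).symm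
          exact ENNReal.tendsto_ofReal (hy.mul_const (ρ y))
      _ ≤ liminf (fun n => ∫⁻ y, ENNReal.ofReal (V (ns n) y * ρ y)) atTop := by
          refine lintegral_liminf_le' fun n => ?_
          exact (hVρ (ns n)).1.aemeasurable.ennreal_ofReal
      _ = liminf (fun n => ENNReal.ofReal (∫ y, V (ns n) y * ρ y)) atTop := by
          congr 1
          ext n
          rw [ofReal_integral_eq_lintegral_ofReal (hVρ (ns n))]
          exact Eventually.of_forall fun y => mul_nonneg ((hV (ns n)).2.2 y) (hρ0 y)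
      _ ≤ liminf (fun n => ENNReal.ofReal (T + c * ∫ y, V (ns n) y ^ p)) atTop := by
          refine liminf_le_liminf (Eventually.of_forall fun n => ?_)
          exact ENNReal.ofReal_le_ofReal (hbd (ns n))
      _ = ENNReal.ofReal (T + c * ∫ y, W y ^ p) :=
          (ENNReal.tendsto_ofReal hRlim).liminf_eq
  have hWρ0 : ∀ y, 0 ≤ W y * ρ y := fun y => mul_nonneg (hW0 y) (hρ0 y)
  have hint : Integrable (fun y => W y * ρ y) volume := by
    refine ⟨hWρm, ?_⟩
    rw [hasFiniteIntegral_iff_ofReal (Eventually.of_forall hWρ0)]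
    exact lt_of_le_of_lt hfatou ENNReal.ofReal_lt_top
  refine ⟨hint, ?_⟩
  rw [← ofReal_integral_eq_lintegral_ofReal hint (Eventually.of_forall hWρ0)] at hfatou
  have hc0 : 0 ≤ T + c * ∫ y, W y ^ p := by
    refine ge_of_tendsto' hRlim fun n => ?_
    exact le_trans (integral_nonneg fun y => mul_nonneg ((hV (ns n)).2.2 y) (hρ0 y)) (hbd (ns n))
  exact (ENNReal.ofReal_le_ofReal_iff hc0).1 hfatou

end Pool.Agent.LT
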