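import Pool.Agent.LT.Defs3
import Pool.Agent.LT.KinH1
import Pool.Agent.LT.Spec

/-!
# From test functions to eigenfunctions, any exponent (module LT3_SPECC of MP_4c716f_mp)
-/

set_option autoImplicit false

namespace Pool.Agent.LT

open MeasureTheory Matrix Finset Filter Topology
open scoped ComplexConjugate ComplexOrder ContDiff

variable {d : ℕ}

theorem specC_form1_smul (V : (Fin d → ℝ) → ℝ) {f : (Fin d → ℝ) → ℂ} (hf : TestFn d f) (s : ℝ) :
    form1 V (fun y => (s : ℂ) * f y) = s ^ 2 * form1 V f := by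
  unfold form1
  rw [mul_sub, kinH1_kinE_smul hf s]
  congr 1
  rw [← integral_const_mul]
  refine integral_congr_ae (Eventually.of_forall fun y => ?_)
  simp only [norm_mul, mul_pow]
  simp
  ring

/-- the inequality for `H¹` families and continuous potentials with compact support -/
theorem specC_pot (hd : DensStmt) {γ L : ℝ} (hγ : 1 ≤ γ) (h1 : ES' d γ L) {N : ℕ}
    {ψ : Fin N → (Fin d → ℝ) → ℂ} {g : Fin N → Fin d → (Fin d → ℝ) → ℂ}
    (hψ : ∀ j, IsH1d (ψ j) (g j))
    (ho : ∀ i j, ∫ y, conj (ψ i y) * ψ j y = if i = j then 1 else 0)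
    {V : (Fin d → ℝ) → ℝ} (hV : PotFn d V) :
    ∑ j, max ((∫ y, V y * ‖ψ j y‖ ^ 2) - ∑ i, ∫ y, ‖g j i y‖ ^ 2) 0 ^ γ ≤
      L * ∫ y, V y ^ (γ + (d : ℝ) / 2) := by
  obtain ⟨M, hM0, hM⟩ := kinH1_pot_bdd hV
  set ε : ℕ → ℝ := fun n => 1 / ((n : ℝ) + 1) with hεdef
  have hε0 : ∀ n, 0 < ε n := fun n => by simp only [hεdef]; positivity
  have hε : Tendsto ε atTop (𝓝 0) := tendsto_one_div_add_atTop_nhds_zero_nat
  choose f hft hf1 hf2 using fun (j : Fin N) (n : ℕ) => hd d (ψ j) (g j) (hψ j) (ε n) (hε0 n)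
  have hψm : ∀ j, MemLp (ψ j) 2 volume := fun j => (hψ j).1
  have hgm : ∀ j i, MemLp (g j i) 2 volume := fun j => (hψ j).2.1
  have hfm : ∀ j n, MemLp (f j n) 2 volume := fun j n => kinH1_testFn_memLp (hft j n)
  have hG : ∀ i j, Tendsto (fun n => gramF (fun k => f k n) i j) atTop
      (𝓝 ((1 : Matrix (Fin N) (Fin N) ℂ) i j)) := by
    intro i j
    have := kinH1_inner (hψm i) (hψm j) (hfm i) (hfm j) (hf1 i) (hf1 j) hε
    have h2 : ∫ y, ψ i y * conj (ψ j y) = (1 : Matrix (Fin N) (Fin N) ℂ) i j := by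
      have h3 := ho j i
      rw [Matrix.one_apply]
      rw [show (∫ y, ψ i y * conj (ψ j y)) = ∫ y, conj (ψ j y) * ψ i y from by
        simp only [mul_comm], h3]
      simp [eq_comm]
    rw [h2] at this
    exact this
  set δ : ℕ → ℝ := fun n => ∑ i, ∑ j,
    ‖(gramF (fun k => f k n) - 1 : Matrix (Fin N) (Fin N) ℂ) i j‖ with hδdef
  have hδ0 : ∀ n, 0 ≤ δ n := fun n => sum_nonneg fun i _ => sum_nonneg fun j _ => norm_nonneg _
  have hδ : Tendsto δ atTop (𝓝 0) := by
    have : Tendsto δ atTop (𝓝 (∑ i : Fin N, ∑ j : Fin N, (0 : ℝ))) := by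
      refine tendsto_finsetSum _ fun i _ => tendsto_finsetSum _ fun j _ => ?_
      have h3 := ((hG i j).sub_const ((1 : Matrix (Fin N) (Fin N) ℂ) i j)).norm
      simpa using h3
    simpa using this
  have hK : ∀ j, Tendsto (fun n => kinE (f j n)) atTop (𝓝 (∑ i, ∫ y, ‖g j i y‖ ^ 2)) := by
    intro j
    refine tendsto_finsetSum _ fun i _ => ?_
    exact kinH1_sq (hgm j i) (fun n => kinH1_testFn_deriv_memLp (hft j n) i)
      (fun n => hf2 j n i) hε
  have hPj : ∀ j, Tendsto (fun n => ∫ y, V y * ‖f j n y‖ ^ 2) atTop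
      (𝓝 (∫ y, V y * ‖ψ j y‖ ^ 2)) := by
    intro j
    have h3 := kinH1_sq (μ := volume) (u := fun y => (√(V y) : ℂ) * ψ j y)
      (v := fun n y => (√(V y) : ℂ) * f j n y) (ε := fun n => M * ε n)
      (kinH1_sqrtV_memLp hV (hψm j)) (fun n => kinH1_sqrtV_memLp hV (hfm j n)) ?_
      (by simpa using hε.const_mul M)
    · simpa only [kinH1_sqrtV_sq hV] using h3
    · intro n
      have h4 : ∀ y, ‖(√(V y) : ℂ) * ψ j y - (√(V y) : ℂ) * f j n y‖ ^ 2 =
          V y * ‖ψ j y - f j n y‖ ^ 2 := by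
        intro y
        rw [← mul_sub]
        exact kinH1_sqrtV_sq hV (fun y => ψ j y - f j n y) y
      simp only [h4]
      have h5 : Integrable (fun y => ‖ψ j y - f j n y‖ ^ 2) volume := by
        have := ((hψm j).sub (hfm j n)).integrable_norm_pow (p := 2) (by norm_num)
        exact this
      calc ∫ y, V y * ‖ψ j y - f j n y‖ ^ 2 ≤ ∫ y, M * ‖ψ j y - f j n y‖ ^ 2 := by
            refine integral_mono_of_nonneg (Eventually.of_forall fun y => ?_) (h5.const_mul M)
              (Eventually.of_forall fun y => ?_)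
            · exact mul_nonneg (hV.2.2 y) (by positivity)
            · exact mul_le_mul_of_nonneg_right (hM y) (by positivity)
        _ = M * ∫ y, ‖ψ j y - f j n y‖ ^ 2 := integral_const_mul _ _
        _ ≤ M * ε n := mul_le_mul_of_nonneg_left (hf1 j n) hM0
  have hF : ∀ j, Tendsto (fun n => form1 V (f j n)) atTop
      (𝓝 ((∑ i, ∫ y, ‖g j i y‖ ^ 2) - ∫ y, V y * ‖ψ j y‖ ^ 2)) := fun j => (hK j).sub (hPj j)
  have hs : ∀ n, ∑ j, max (-((1 + δ n)⁻¹ * form1 V (f j n))) 0 ^ γ ≤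
      L * ∫ y, V y ^ (γ + (d : ℝ) / 2) := by
    intro n
    have hpos : 0 < 1 + δ n := by linarith [hδ0 n]
    set s : ℝ := √((1 + δ n)⁻¹) with hsdef
    have hs2 : s ^ 2 = (1 + δ n)⁻¹ := Real.sq_sqrt (by positivity)
    have h3 := h1 N (fun j y => (s : ℂ) * f j n y) V (fun j => kinH1_testFn_smul (hft j n) s) hV ?_
    · refine le_trans (le_of_eq ?_) h3
      refine sum_congr rfl fun j _ => ?_
      rw [specC_form1_smul V (hft j n), hs2]
    · rw [kinH1_gramF_smul, hs2]
      have h4 := kinH1_psd (gramF (fun k => f k n) - 1)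
        ((kinH1_gramF_herm _).sub isHermitian_one) (δ n) le_rfl
      have h5 : (1 - (((1 + δ n)⁻¹ : ℝ) : ℂ) • gramF (fun k => f k n) :
          Matrix (Fin N) (Fin N) ℂ) = (((1 + δ n)⁻¹ : ℝ) : ℂ) •
            ((δ n : ℂ) • (1 : Matrix (Fin N) (Fin N) ℂ) - (gramF (fun k => f k n) - 1)) := by
        have h6 : ((δ n : ℂ) • (1 : Matrix (Fin N) (Fin N) ℂ) - (gramF (fun k => f k n) - 1)) =
            (((1 + δ n : ℝ)) : ℂ) • (1 : Matrix (Fin N) (Fin N) ℂ) - gramF (fun k => f k n) := by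
          push_cast
          rw [add_smul, one_smul]
          abel
        rw [h6, smul_sub, smul_smul, ← Complex.ofReal_mul, inv_mul_cancel₀ hpos.ne',
          Complex.ofReal_one, one_smul]
      rw [h5]
      refine h4.smul ?_
      rw [Complex.zero_le_real]
      positivity
  have hlim : Tendsto (fun n => ∑ j, max (-((1 + δ n)⁻¹ * form1 V (f j n))) 0 ^ γ) atTop
      (𝓝 (∑ j, max (-((1 + 0)⁻¹ * ((∑ i, ∫ y, ‖g j i y‖ ^ 2) -
        ∫ y, V y * ‖ψ j y‖ ^ 2))) 0 ^ γ)) := by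
    refine tendsto_finsetSum _ fun j _ => ?_
    exact (((((hδ.const_add 1).inv₀ (by norm_num)).mul (hF j)).neg).max
      tendsto_const_nhds).rpow_const (Or.inr (by linarith))
  have hfin := le_of_tendsto' hlim hs
  refine le_trans (le_of_eq ?_) hfin
  refine sum_congr rfl fun j _ => ?_
  congr 2
  norm_num

/-- module LT3_SPECC -/
theorem specC (hd : DensStmt) : SpecCStmt := by
  intro d γ L hd0 hγ hL h1 U hU N ψ E hE hneg ho
  choose g hg hweak using hE
  have hen : ∀ j, Integrable (fun y => U y * ‖ψ j y‖ ^ 2) volume ∧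
      E j = (∑ i, ∫ y, ‖g j i y‖ ^ 2) + ∫ y, U y * ‖ψ j y‖ ^ 2 := fun j =>
    spec_energy (hweak j (ψ j) (g j) (hg j)) (by rw [ho j j, if_pos rfl]) (hneg j)
  set p : ℝ := γ + (d : ℝ) / 2 with hp
  have hp1 : 1 ≤ p := by
    have : (0 : ℝ) ≤ (d : ℝ) / 2 := by positivity
    linarith
  have hp0 : 0 < p := by linarith
  have hpe : (1 : ENNReal) ≤ ENNReal.ofReal p := by
    rw [← ENNReal.ofReal_one]
    exact ENNReal.ofReal_le_ofReal hp1
  have hpne : ENNReal.ofReal p ≠ 0 := (lt_of_lt_of_le one_pos hpe).ne'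
  have : Fact ((1 : ENNReal) ≤ ENNReal.ofReal p) := ⟨hpe⟩
  set W : (Fin d → ℝ) → ℝ := fun y => max (-U y) 0 with hWdef
  have hW0 : ∀ y, 0 ≤ W y := fun y => le_max_right _ _
  have hWm : AEStronglyMeasurable W volume :=
    (hU.1.aemeasurable.neg.max aemeasurable_const).aestronglyMeasurable
  have hW : MemLp W (ENNReal.ofReal p) volume := by
    refine hU.mono hWm (Eventually.of_forall fun y => ?_)
    rw [Real.norm_eq_abs, Real.norm_eq_abs, abs_of_nonneg (hW0 y)]
    exact max_le (neg_le_abs _) (abs_nonneg _)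
  -- approximating potentials
  have happ : ∀ n : ℕ, ∃ V : (Fin d → ℝ) → ℝ, PotFn d V ∧
      eLpNorm (V - W) (ENNReal.ofReal p) volume ≤ ENNReal.ofReal (1 / ((n : ℝ) + 1)) ∧
      MemLp V (ENNReal.ofReal p) volume := by
    intro n
    obtain ⟨G, hGs, hGn, hGc, hGm⟩ := hW.exists_hasCompactSupport_eLpNorm_sub_le
      ENNReal.ofReal_ne_top (ε := ENNReal.ofReal (1 / ((n : ℝ) + 1)))
      (by simp only [ne_eq, ENNReal.ofReal_eq_zero, not_le]; positivity)
    refine ⟨fun y => max (G y) 0, ⟨hGc.max continuous_const, ?_, fun y => le_max_right _ _⟩,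
      ?_, ?_⟩
    · exact hGs.comp_left (g := fun t : ℝ => max t 0) (by simp)
    · refine le_trans (eLpNorm_mono fun y => ?_) hGn
      simp only [Pi.sub_apply, Real.norm_eq_abs]
      have h0 := hW0 y
      rcases le_total (G y) 0 with h | h
      · rw [max_eq_right h, abs_sub_comm, sub_zero, abs_of_nonneg h0, abs_of_nonneg (by linarith)]
        linarith
      · rw [max_eq_left h, abs_sub_comm]
    · refine hGm.mono ((hGc.max continuous_const).aestronglyMeasurable) (Eventually.of_forall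
        fun y => ?_)
      simp only [Real.norm_eq_abs]
      rcases le_total (G y) 0 with h | h
      · rw [max_eq_right h]
        simp
      · rw [max_eq_left h]
  choose V hV hVn hVm using happ
  have hlim0 : Tendsto (fun n => eLpNorm (V n - W) (ENNReal.ofReal p) volume) atTop (𝓝 0) := by
    have h3 : Tendsto (fun n : ℕ => ENNReal.ofReal (1 / ((n : ℝ) + 1))) atTop (𝓝 0) := by
      have := ENNReal.tendsto_ofReal (tendsto_one_div_add_atTop_nhds_zero_nat (𝕜 := ℝ))
      simpa using this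
    exact tendsto_of_tendsto_of_tendsto_of_le_of_le tendsto_const_nhds h3
      (fun n => bot_le) hVn
  obtain ⟨ns, hns, hae⟩ := (tendstoInMeasure_of_tendsto_eLpNorm hpne (fun n => (hVm n).1) hW.1
    hlim0).exists_seq_tendsto_ae
  -- the norms converge
  have hnorm : Tendsto (fun n => ∫ y, V n y ^ p) atTop (𝓝 (∫ y, W y ^ p)) := by
    have h3 : Tendsto (fun n => (hVm n).toLp (V n)) atTop (𝓝 (hW.toLp W)) := by
      rw [Lp.tendsto_Lp_iff_tendsto_eLpNorm'']
      exact hlim0
    have h4 := (h3.norm).rpow_const (p := p) (Or.inr hp0.le)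
    have h5 : ∀ {U : (Fin d → ℝ) → ℝ} (hU : MemLp U (ENNReal.ofReal p) volume),
        (∀ y, 0 ≤ U y) → ‖hU.toLp U‖ ^ p = ∫ y, U y ^ p := by
      intro U hU hU0
      have h6 : 0 ≤ ∫ y, U y ^ p := integral_nonneg fun y => Real.rpow_nonneg (hU0 y) _
      rw [Lp.norm_toLp, hU.eLpNorm_eq_integral_rpow_norm hpne ENNReal.ofReal_ne_top,
        ENNReal.toReal_ofReal hp0.le]
      have h7 : (∫ y, ‖U y‖ ^ p) = ∫ y, U y ^ p := by
        refine integral_congr_ae (Eventually.of_forall fun y => ?_)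
        simp only [Real.norm_of_nonneg (hU0 y)]
      rw [h7, ENNReal.toReal_ofReal (Real.rpow_nonneg h6 _), ← Real.rpow_mul h6,
        inv_mul_cancel₀ hp0.ne', Real.rpow_one]
    rw [h5 hW hW0] at h4
    refine h4.congr fun n => ?_
    exact h5 (hVm n) (hV n).2.2
  -- integrability
  have hWi : ∀ j, Integrable (fun y => W y * ‖ψ j y‖ ^ 2) volume := by
    intro j
    have h2 := (hen j).1.neg_part
    refine h2.congr (Eventually.of_forall fun y => ?_)
    simp only [hWdef]
    have h3 : 0 ≤ ‖ψ j y‖ ^ 2 := by positivity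
    rw [max_mul_of_nonneg _ _ h3, zero_mul, neg_mul]
  have hVi : ∀ n j, Integrable (fun y => V n y * ‖ψ j y‖ ^ 2) volume := fun n j =>
    kinH1_pot_int (hV n) (hg j).1
  set T : Fin N → ℝ := fun j => ∑ i, ∫ y, ‖g j i y‖ ^ 2 with hT
  -- Fatou
  have hfat : ∀ j, ∀ ε : ℝ, 0 < ε → ∀ᶠ n in atTop,
      (∫ y, W y * ‖ψ j y‖ ^ 2) - ε ≤ ∫ y, V (ns n) y * ‖ψ j y‖ ^ 2 := by
    intro j ε hε
    have hnn : ∀ n, 0 ≤ ∫ y, V (ns n) y * ‖ψ j y‖ ^ 2 := fun n =>
      integral_nonneg fun y => mul_nonneg ((hV _).2.2 y) (by positivity)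
    rcases le_or_gt (∫ y, W y * ‖ψ j y‖ ^ 2) ε with h | h
    · exact Eventually.of_forall fun n => by linarith [hnn n]
    · have hfatou : ENNReal.ofReal (∫ y, W y * ‖ψ j y‖ ^ 2) ≤
          liminf (fun n => ENNReal.ofReal (∫ y, V (ns n) y * ‖ψ j y‖ ^ 2)) atTop := by
        calc ENNReal.ofReal (∫ y, W y * ‖ψ j y‖ ^ 2)
            = ∫⁻ y, ENNReal.ofReal (W y * ‖ψ j y‖ ^ 2) :=
              ofReal_integral_eq_lintegral_ofReal (hWi j) (Eventually.of_forall fun y =>
                mul_nonneg (hW0 y) (by positivity))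
          _ = ∫⁻ y, liminf (fun n => ENNReal.ofReal (V (ns n) y * ‖ψ j y‖ ^ 2)) atTop := by
              refine lintegral_congr_ae ?_
              filter_upwards [hae] with y hy
              have h3 : Tendsto (fun n => ENNReal.ofReal (V (ns n) y * ‖ψ j y‖ ^ 2)) atTop
                  (𝓝 (ENNReal.ofReal (W y * ‖ψ j y‖ ^ 2))) :=
                ENNReal.tendsto_ofReal (hy.mul_const _)
              exact h3.liminf_eq.symm
          _ ≤ liminf (fun n => ∫⁻ y, ENNReal.ofReal (V (ns n) y * ‖ψ j y‖ ^ 2)) atTop :=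
              lintegral_liminf_le' fun n => (hVi (ns n) j).1.aemeasurable.ennreal_ofReal
          _ = _ := by
              congr 1
              funext n
              exact (ofReal_integral_eq_lintegral_ofReal (hVi (ns n) j)
                (Eventually.of_forall fun y => mul_nonneg ((hV _).2.2 y) (by positivity))).symm
      have h4 : ENNReal.ofReal ((∫ y, W y * ‖ψ j y‖ ^ 2) - ε) <
          liminf (fun n => ENNReal.ofReal (∫ y, V (ns n) y * ‖ψ j y‖ ^ 2)) atTop := by
        refine lt_of_lt_of_le ?_ hfatou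
        exact (ENNReal.ofReal_lt_ofReal_iff (by linarith)).2 (by linarith)
      filter_upwards [eventually_lt_of_lt_liminf h4] with n hn
      exact ((ENNReal.ofReal_lt_ofReal_iff_of_nonneg (by linarith)).1 hn).le
  -- the inequality for `W`
  have hlev : ∀ ε : ℝ, 0 < ε → ∑ j, max ((∫ y, W y * ‖ψ j y‖ ^ 2) - ε - T j) 0 ^ γ ≤
      L * ∫ y, W y ^ p := by
    intro ε hε
    have hRlim : Tendsto (fun n => L * ∫ y, V (ns n) y ^ p) atTop (𝓝 (L * ∫ y, W y ^ p)) :=
      (hnorm.comp hns.tendsto_atTop).const_mul L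
    refine ge_of_tendsto hRlim ?_
    filter_upwards [eventually_all.2 fun j => hfat j ε hε] with n hn
    refine le_trans (sum_le_sum fun j _ => ?_) (specC_pot hd hγ h1 hg ho (hV (ns n)))
    refine Real.rpow_le_rpow (le_max_right _ _) (max_le_max ?_ le_rfl) (by linarith)
    have := hn j
    simp only [hT]
    linarith
  have hfin : ∑ j, max ((∫ y, W y * ‖ψ j y‖ ^ 2) - 0 - T j) 0 ^ γ ≤ L * ∫ y, W y ^ p := by
    have hlim : Tendsto (fun ε : ℝ => ∑ j, max ((∫ y, W y * ‖ψ j y‖ ^ 2) - ε - T j) 0 ^ γ)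
        (𝓝[>] 0) (𝓝 (∑ j, max ((∫ y, W y * ‖ψ j y‖ ^ 2) - 0 - T j) 0 ^ γ)) := by
      refine tendsto_finsetSum _ fun j _ => ?_
      have h2 : Tendsto (fun ε : ℝ => ε) (𝓝[>] (0 : ℝ)) (𝓝 0) :=
        tendsto_id.mono_left nhdsWithin_le_nhds
      exact (((h2.const_sub _).sub_const _).max tendsto_const_nhds).rpow_const
        (Or.inr (by linarith))
    refine le_of_tendsto hlim ?_
    filter_upwards [self_mem_nhdsWithin] with ε hε
    exact hlev ε hε
  refine le_trans (sum_le_sum fun j _ => ?_) hfin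
  refine Real.rpow_le_rpow (abs_nonneg _) (le_max_of_le_left ?_) (by linarith)
  rw [abs_of_neg (hneg j), (hen j).2]
  have h2 : -(∫ y, U y * ‖ψ j y‖ ^ 2) ≤ ∫ y, W y * ‖ψ j y‖ ^ 2 := by
    rw [← integral_neg]
    refine integral_mono (hen j).1.neg (hWi j) fun y => ?_
    simp only
    rw [← neg_mul]
    exact mul_le_mul_of_nonneg_right (le_max_left _ _) (by positivity)
  simp only [hT]
  linarith

end Pool.Agent.LT
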