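import Pool.Agent.LT.Defs3

/-!
# The Legendre transforms `U_a` and `z_a`
-/

set_option autoImplicit false

namespace Pool.Agent.LT

theorem ua_rhoa_nonneg {a μ : ℝ} (ha : 0 < a) (hμ : 0 ≤ μ) : 0 ≤ rhoa a μ := by
  unfold rhoa
  apply mul_nonneg (by positivity)
  have h1 : (1 : ℝ) ≤ √(1 + 3 * a ^ 2 * μ / 4) := by
    rw [show (1 : ℝ) = √1 by simp]
    apply Real.sqrt_le_sqrt
    simp only [Real.sqrt_one]
    have : 0 ≤ 3 * a ^ 2 * μ / 4 := by positivity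
    linarith
  linarith

/-- the equation for the maximiser -/
theorem ua_rhoa_eq {a μ : ℝ} (ha : 0 < a) (hμ : 0 ≤ μ) :
    μ = 2 * rhoa a μ + 3 * a ^ 2 / 4 * rhoa a μ ^ 2 := by
  unfold rhoa
  have h1 : √(1 + 3 * a ^ 2 * μ / 4) ^ 2 = 1 + 3 * a ^ 2 * μ / 4 :=
    Real.sq_sqrt (by positivity)
  set s := √(1 + 3 * a ^ 2 * μ / 4) with hs
  have h2 : 2 * (4 / (3 * a ^ 2) * (s - 1)) + 3 * a ^ 2 / 4 * (4 / (3 * a ^ 2) * (s - 1)) ^ 2 =
      4 / (3 * a ^ 2) * (s ^ 2 - 1) := by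
    field_simp
    ring
  rw [h2, h1]
  field_simp
  ring

theorem ua_max {a μ ρ : ℝ} (ha : 0 < a) (hρ : 0 ≤ ρ) :
    μ * ρ - ρ ^ 2 - a ^ 2 / 4 * ρ ^ 3 ≤ Ua a μ := by
  unfold Ua
  by_cases hμ : 0 ≤ μ
  · rw [if_pos hμ]
    have h1 := ua_rhoa_eq ha hμ
    have h2 := ua_rhoa_nonneg ha hμ
    set r := rhoa a μ with hr
    have h3 : (μ * r - r ^ 2 - a ^ 2 / 4 * r ^ 3) - (μ * ρ - ρ ^ 2 - a ^ 2 / 4 * ρ ^ 3) =
        (r - ρ) ^ 2 * (1 + a ^ 2 / 4 * (2 * r + ρ)) := by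
      conv_lhs => rw [h1]
      ring
    have h4 : 0 ≤ (r - ρ) ^ 2 * (1 + a ^ 2 / 4 * (2 * r + ρ)) := by positivity
    linarith
  · rw [if_neg hμ]
    push Not at hμ
    have h1 : μ * ρ ≤ 0 := mul_nonpos_of_nonpos_of_nonneg hμ.le hρ
    have h2 : 0 ≤ a ^ 2 / 4 * ρ ^ 3 := by positivity
    nlinarith [sq_nonneg ρ]

theorem ua_arctan {t : ℝ} (ht : 0 ≤ t) : t ≤ Real.arctan t * (1 + t ^ 2) := by
  have h1 : 0 ≤ Real.arctan t := Real.arctan_nonneg.2 ht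
  have h2 : Real.sin (2 * Real.arctan t) ≤ 2 * Real.arctan t :=
    Real.sin_le (by linarith)
  rw [Real.sin_two_mul, Real.sin_arctan, Real.cos_arctan] at h2
  have h3 : 0 < 1 + t ^ 2 := by positivity
  have h4 : √(1 + t ^ 2) * √(1 + t ^ 2) = 1 + t ^ 2 := Real.mul_self_sqrt h3.le
  have h5 : 2 * (t / √(1 + t ^ 2)) * (1 / √(1 + t ^ 2)) = 2 * t / (1 + t ^ 2) := by
    rw [mul_one_div, mul_div_assoc', div_div, h4]
  rw [h5, div_le_iff₀ h3] at h2
  linarith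

theorem ua : UaStmt := by
  refine ⟨fun a μ ρ ha hρ => ua_max ha hρ, fun a μ ha => ?_, fun a e ha he => ?_⟩
  · have := ua_max (a := a) (μ := μ) (ρ := 0) ha le_rfl
    simpa using this
  · have ht : 0 ≤ a * √e := by positivity
    have h1 : 0 ≤ Real.arctan (a * √e) := Real.arctan_nonneg.2 ht
    have h2 : Real.arctan (a * √e) < Real.pi / 2 := Real.arctan_lt_pi_div_two _
    have h3 : a * za a e = 2 * Real.arctan (a * √e) := by
      unfold za
      field_simp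
    refine ⟨by unfold za; positivity, by rw [h3]; linarith, ?_⟩
    unfold Fa
    rw [show a * za a e / 2 = Real.arctan (a * √e) by rw [h3]; ring, Real.tan_arctan]
    have h4 := ua_arctan ht
    have h5 : (a * √e) ^ 2 = a ^ 2 * e := by rw [mul_pow, Real.sq_sqrt he]
    rw [h5] at h4
    have h6 : za a e * e - (2 / a * (a * √e) - za a e) / a ^ 2 =
        2 / a ^ 3 * (Real.arctan (a * √e) * (1 + a ^ 2 * e) - a * √e) := by
      unfold za
      field_simp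
      ring
    rw [h6]
    apply mul_nonneg (by positivity)
    linarith

end Pool.Agent.LT
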