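import Pool.Agent.LT.All
import Pool.Agent.LT.PW3
import Pool.Agent.LT.Calc3
import Pool.Agent.LT.Poly3
import Pool.Agent.LT.KinA
import Pool.Agent.LT.Ua
import Pool.Agent.LT.IntA
import Pool.Agent.LT.IntB
import Pool.Agent.LT.Const
import Pool.Agent.LT.ALS
import Pool.Agent.LT.SliceJ
import Pool.Agent.LT.LiftC
import Pool.Agent.LT.SpecC

set_option autoImplicit false

namespace Pool.Agent.LT

theorem kinAAll : KinAStmt := kinA bil (calc_of bil) (calc3 bil) pw3 poly3 (pos (qpos psdKer))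

theorem ES'_of (δ : ℝ) (h0 : 0 < δ) (h1 : δ < 1) (d : ℕ) :
    ES' (d + 1) (1 + δ / 2) ((2 / √3) ^ (1 - δ) * Lcl (1 + δ / 2) (d + 1)) :=
  liftC kinAAll slice ua (intA ua) (intB ua) constLT (sliceJ ua) d δ h0 h1
    (als d ((3 + δ) / 2) (D3_all kin2All d) (by linarith))

theorem between : BetweenStmt := by
  intro d γ hd h1 h2
  rcases eq_or_lt_of_le h1 with h | h
  · subst h
    have := allDim d 1 hd le_rfl
    have e : (3 : ℝ) - 2 * 1 = 1 := by norm_num
    rw [e, Real.rpow_one]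
    exact this
  · obtain ⟨k, rfl⟩ : ∃ k, d = k + 1 := ⟨d - 1, by omega⟩
    have h3 := ES'_of (2 * γ - 2) (by linarith) (by linarith) k
    have e1 : 1 + (2 * γ - 2) / 2 = γ := by ring
    have e2 : 1 - (2 * γ - 2) = 3 - 2 * γ := by ring
    rw [e1, e2] at h3
    refine specC dens (k + 1) γ _ hd h1 ?_ h3
    unfold Lcl
    positivity

end Pool.Agent.LT
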