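import Pool.Agent.LT.Defs

/-!
# Lieb-Thirring inequalities in all dimensions: definitions and module statements
(MP_4c716f_mp; mathematics: helper15, helper85, helper91, helper52)

Goal: `L_{γ,d} ≤ (2/√3) L^cl_{γ,d}` for all `d ≥ 1`, `γ ≥ 1`.
-/

set_option autoImplicit false

namespace Pool.Agent.LT

open MeasureTheory Matrix Finset
open scoped ComplexConjugate ComplexOrder ContDiff

/-! ## The operator valued one dimensional inequality with exponent 3/2 -/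

/-- (PW2) pointwise lower bound with the linear term `-(C/2) tr (P S)`. -/
def PW2Stmt : Prop :=
  ∀ (N : ℕ) (H : Type) [NormedAddCommGroup H] [InnerProductSpace ℂ H] (p : Polynomial ℝ) (C : ℝ)
    (S : Matrix (Fin N) (Fin N) ℂ) (hS : S.IsHermitian) (v w : Fin N → H)
    (P' : Matrix (Fin N) (Fin N) ℂ),
    P' = (hS.eigenvectorUnitary : Matrix (Fin N) (Fin N) ℂ)ᴴ * gram v *
      (hS.eigenvectorUnitary : Matrix (Fin N) (Fin N) ℂ) →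
    -(∑ i, ∑ j, ∑ k, (P' i j * P' j k * P' k i).re *
        (p.eval (hS.eigenvalues i + hS.eigenvalues k) * p.eval (hS.eigenvalues j + hS.eigenvalues k)
          + dd p (hS.eigenvalues i + hS.eigenvalues k) (hS.eigenvalues j + hS.eigenvalues k))) +
      C / 2 * ∑ i, ∑ j, ‖P' i j‖ ^ 2 * (1 + (hS.eigenvalues i + hS.eigenvalues j) *
        p.eval (hS.eigenvalues i + hS.eigenvalues j))
      ≤ ∑ i, ‖w i‖ ^ 2 - dcalG p S (gram v) (gramD v w) +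
        C / 2 * ((Matrix.trace (gramD v w * S)).re + (Matrix.trace (gram v * gram v)).re) +
        C ^ 2 / 4 * (Matrix.trace (S * S * gram v)).re

/-- (POLY2) polynomial approximation of `1/t`. -/
def Poly2Stmt : Prop :=
  ∀ ε Λ : ℝ, 0 < ε → ε < Λ → ∀ η : ℝ, 0 < η → ∃ p : Polynomial ℝ,
    (∀ s t u : ℝ, s ∈ Set.Icc ε Λ → t ∈ Set.Icc ε Λ → u ∈ Set.Icc ε Λ →
      |p.eval (s + u) * p.eval (t + u) + dd p (s + u) (t + u)| ≤ η) ∧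
    ∀ s t : ℝ, s ∈ Set.Icc ε Λ → t ∈ Set.Icc ε Λ → |(s + t) * p.eval (s + t) - 1| ≤ η

/-- (KIN2) `C ∫ tr P(x)² ≤ ∫ ∑ ‖v'‖² + (C²/12) tr (∫ P)³`. -/
def Kin2Stmt : Prop :=
  ∀ (H : Type) [NormedAddCommGroup H] [InnerProductSpace ℂ H] [CompleteSpace H],
    ∀ (N : ℕ) (v w : Fin N → ℝ → H), (∀ j, IsH1v (v j) (w j)) → ∀ C : ℝ, 0 < C →
      Integrable (fun x => (Matrix.trace (gram (fun j => v j x) ^ 2)).re) volume ∧
      C * ∫ x, (Matrix.trace (gram (fun j => v j x) ^ 2)).re ≤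
        (∑ j, ∫ x, ‖w j x‖ ^ 2) + C ^ 2 / 12 *
          (Matrix.trace ((Matrix.of fun i j => ∫ x, inner ℂ (v j x) (v i x) :
            Matrix (Fin N) (Fin N) ℂ) ^ 3)).re

/-! ## Test functions on `ℝ^d = Fin d → ℝ` -/

/-- smooth functions with compact support -/
def TestFn (d : ℕ) (f : (Fin d → ℝ) → ℂ) : Prop := ContDiff ℝ ∞ f ∧ HasCompactSupport f

/-- nonnegative continuous potentials with compact support -/
def PotFn (d : ℕ) (V : (Fin d → ℝ) → ℝ) : Prop :=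
  Continuous V ∧ HasCompactSupport V ∧ ∀ y, 0 ≤ V y

/-- `∫ |∇f|²` -/
noncomputable def kinE {d : ℕ} (f : (Fin d → ℝ) → ℂ) : ℝ :=
  ∑ i : Fin d, ∫ y, ‖fderiv ℝ f y (Pi.single i 1)‖ ^ 2

/-- Gram matrix `∫ f i conj (f j)` -/
noncomputable def gramF {d N : ℕ} (f : Fin N → (Fin d → ℝ) → ℂ) : Matrix (Fin N) (Fin N) ℂ :=
  Matrix.of fun i j => ∫ y, f i y * conj (f j y)

/-- `∑ ∫ |∇ f j|² - ∫ V ∑ |f j|²` -/
noncomputable def formE {d N : ℕ} (V : (Fin d → ℝ) → ℝ) (f : Fin N → (Fin d → ℝ) → ℂ) : ℝ :=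
  ∑ j, kinE (f j) - ∫ y, V y * ∑ j, ‖f j y‖ ^ 2

/-- The semiclassical constant `Γ(γ+1) / ((4π)^(d/2) Γ(γ+1+d/2))`. -/
noncomputable def Lcl (γ : ℝ) (d : ℕ) : ℝ :=
  Real.Gamma (γ + 1) / ((4 * Real.pi) ^ ((d : ℝ) / 2) * Real.Gamma (γ + 1 + d / 2))

/-- dual form of the inequality with exponent `3/2` in dimension `d` -/
def D3 (d : ℕ) : Prop :=
  ∀ (N : ℕ) (f : Fin N → (Fin d → ℝ) → ℂ) (V : (Fin d → ℝ) → ℝ), (∀ j, TestFn d (f j)) →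
    PotFn d V → ∀ A : ℝ, 0 < A →
    -(2 / (3 * √3) * Lcl (3 / 2) d / √A * ∫ y, V y ^ ((3 + d : ℝ) / 2)) ≤
      formE V f + A * (Matrix.trace (gramF f ^ 3)).re

/-- dual form of the inequality with exponent `2` in dimension `d` -/
def D4 (d : ℕ) : Prop :=
  ∀ (N : ℕ) (f : Fin N → (Fin d → ℝ) → ℂ) (V : (Fin d → ℝ) → ℝ), (∀ j, TestFn d (f j)) →
    PotFn d V → ∀ A : ℝ, 0 < A →
    -(Lcl 2 d / (4 * A) * ∫ y, V y ^ ((4 + d : ℝ) / 2)) ≤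
      formE V f + A * (Matrix.trace (gramF f ^ 2)).re

/-- exponent `1` in dimension `d` -/
def D1 (d : ℕ) : Prop :=
  ∀ (N : ℕ) (f : Fin N → (Fin d → ℝ) → ℂ) (V : (Fin d → ℝ) → ℝ), (∀ j, TestFn d (f j)) →
    PotFn d V → (1 - gramF f).PosSemidef →
    -(2 / √3 * Lcl 1 d * ∫ y, V y ^ ((2 + d : ℝ) / 2)) ≤ formE V f

/-- (BASE) dimension zero -/
def BaseStmt : Prop := D3 0 ∧ D4 0

/-- (AL) Aizenman-Lieb -/
def ALStmt : Prop := ∀ d : ℕ, D3 d → D4 d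

/-- (LIFT3) -/
def Lift3Stmt : Prop := ∀ d : ℕ, D4 d → D3 (d + 1)

/-- (LIFT1) -/
def Lift1Stmt : Prop := ∀ d : ℕ, D3 d → D1 (d + 1)

/-- (SLICE) a test function on `ℝ × ℝ^d` as an `H¹` function of the first variable with values in
`L²(ℝ^d)`. -/
def SliceStmt : Prop :=
  ∀ (d : ℕ) (f : (Fin (d + 1) → ℝ) → ℂ), TestFn (d + 1) f →
    ∃ v w : ℝ → Lp ℂ 2 (volume : Measure (Fin d → ℝ)), IsH1v v w ∧
      (∀ x, (v x : (Fin d → ℝ) → ℂ) =ᵐ[volume] fun y => f (Fin.cons x y)) ∧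
      (∀ x, (w x : (Fin d → ℝ) → ℂ) =ᵐ[volume]
        fun y => fderiv ℝ f (Fin.cons x y) (Pi.single 0 1)) ∧
      (∀ x, TestFn d fun y => f (Fin.cons x y)) ∧
      kinE f = (∫ x, ‖w x‖ ^ 2) + ∫ x, kinE fun y : Fin d → ℝ => f (Fin.cons x y)

/-! ## `H¹(ℝ^d)` and the spectral form -/

/-- `u ∈ H¹(ℝ^d)` with weak gradient `g` -/
def IsH1d {d : ℕ} (u : (Fin d → ℝ) → ℂ) (g : Fin d → (Fin d → ℝ) → ℂ) : Prop :=
  MemLp u 2 volume ∧ (∀ i, MemLp (g i) 2 volume) ∧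
    ∀ (i : Fin d) (φ : (Fin d → ℝ) → ℂ), TestFn d φ →
      ∫ y, u y * fderiv ℝ φ y (Pi.single i 1) = -∫ y, g i y * φ y

/-- (DENS) test functions are dense in `H¹(ℝ^d)`. -/
def DensStmt : Prop :=
  ∀ (d : ℕ) (u : (Fin d → ℝ) → ℂ) (g : Fin d → (Fin d → ℝ) → ℂ), IsH1d u g → ∀ ε : ℝ, 0 < ε →
    ∃ f : (Fin d → ℝ) → ℂ, TestFn d f ∧ ∫ y, ‖u y - f y‖ ^ 2 ≤ ε ∧
      ∀ i, ∫ y, ‖g i y - fderiv ℝ f y (Pi.single i 1)‖ ^ 2 ≤ ε

/-- `ψ` is an eigenfunction, with eigenvalue `E`, of the operator `-Δ + V` defined by the closed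
quadratic form `∫ |∇u|² + V |u|²` on `H¹(ℝ^d)`. -/
def IsEigenfunctionD {d : ℕ} (V : (Fin d → ℝ) → ℝ) (ψ : (Fin d → ℝ) → ℂ) (E : ℝ) : Prop :=
  ∃ g : Fin d → (Fin d → ℝ) → ℂ, IsH1d ψ g ∧
    ∀ (φ : (Fin d → ℝ) → ℂ) (h : Fin d → (Fin d → ℝ) → ℂ), IsH1d φ h →
      (∑ i, ∫ y, conj (h i y) * g i y) + (∫ y, (V y : ℂ) * (conj (φ y) * ψ y)) =
        E * ∫ y, conj (φ y) * ψ y

/-- `L` is admissible in the Lieb-Thirring inequality with exponent `γ` in dimension `d`. -/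
def LTBoundD (d : ℕ) (γ L : ℝ) : Prop :=
  ∀ V : (Fin d → ℝ) → ℝ, MemLp V (ENNReal.ofReal (γ + d / 2)) volume →
    ∀ (N : ℕ) (ψ : Fin N → (Fin d → ℝ) → ℂ) (E : Fin N → ℝ),
      (∀ j, IsEigenfunctionD V (ψ j) (E j)) → (∀ j, E j < 0) →
      (∀ i j, ∫ y, conj (ψ i y) * ψ j y = if i = j then 1 else 0) →
      ∑ j, |E j| ^ γ ≤ L * ∫ y, max (-V y) 0 ^ (γ + d / 2)

/-- (KINH1) from test functions to `H¹`: kinetic form, with `K` dual to `(2/√3) L^cl`. -/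
def KinH1Stmt : Prop :=
  ∀ d : ℕ, 0 < d → D1 d → ∀ (N : ℕ) (ψ : Fin N → (Fin d → ℝ) → ℂ)
    (g : Fin N → Fin d → (Fin d → ℝ) → ℂ), (∀ j, IsH1d (ψ j) (g j)) →
    (∀ i j, ∫ y, conj (ψ i y) * ψ j y = if i = j then 1 else 0) →
    ∀ W : (Fin d → ℝ) → ℝ, MemLp W (ENNReal.ofReal (1 + d / 2)) volume → (∀ y, 0 ≤ W y) →
      Integrable (fun y => W y * ∑ j, ‖ψ j y‖ ^ 2) volume ∧
      ∫ y, W y * ∑ j, ‖ψ j y‖ ^ 2 ≤ (∑ j, ∑ i, ∫ y, ‖g j i y‖ ^ 2) +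
        2 / √3 * Lcl 1 d * ∫ y, W y ^ (1 + (d : ℝ) / 2)

/-- (SPEC) final statement for `γ ≥ 1`. -/
def AllDimStmt : Prop :=
  ∀ (d : ℕ) (γ : ℝ), 0 < d → 1 ≤ γ → LTBoundD d γ (2 / √3 * Lcl γ d)

end Pool.Agent.LT
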