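import Pool.Agent.LT.H1Moll

/-!
# Weak derivatives and mollification
-/

set_option autoImplicit false

open MeasureTheory Set Metric Filter
open scoped ENNReal NNReal Topology Convolution

namespace Pool.Agent.LT.H1

/-- `g` is the weak derivative of `ψ` in the direction `v` -/
def WeakD {V : Type} [NormedAddCommGroup V] [NormedSpace ℝ V] [MeasureSpace V]
    (ψ g : V → ℂ) (v : V) : Prop :=
  ∀ φ : V → ℂ, ContDiff ℝ (⊤ : ℕ∞) φ → HasCompactSupport φ →
    ∫ x, ψ x * fderiv ℝ φ x v = -∫ x, g x * φ x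

section
variable {V : Type} [NormedAddCommGroup V] [NormedSpace ℝ V] [FiniteDimensional ℝ V]
  [MeasureSpace V] [BorelSpace V] [(volume : Measure V).IsAddHaarMeasure]

omit [FiniteDimensional ℝ V] [BorelSpace V] [(volume : Measure V).IsAddHaarMeasure] in
theorem weakD_congr {ψ ψ' g g' : V → ℂ} {v : V} (h : WeakD ψ g v)
    (h1 : ψ =ᵐ[volume] ψ') (h2 : g =ᵐ[volume] g') : WeakD ψ' g' v := by
  intro φ hφ hs
  have e1 : ∫ x, ψ' x * fderiv ℝ φ x v = ∫ x, ψ x * fderiv ℝ φ x v := by
    apply integral_congr_ae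
    filter_upwards [h1] with x hx
    rw [hx]
  have e2 : ∫ x, g' x * φ x = ∫ x, g x * φ x := by
    apply integral_congr_ae
    filter_upwards [h2] with x hx
    rw [hx]
  rw [e1, e2]
  exact h φ hφ hs

/-- classical derivatives of compactly supported smooth functions are weak derivatives -/
theorem weakD_classical {u : V → ℂ} (hu : ContDiff ℝ (⊤ : ℕ∞) u) (hs : HasCompactSupport u)
    (v : V) : WeakD u (fun x => fderiv ℝ u x v) v := by
  intro φ hφ hφs
  have hcu : Continuous fun x => fderiv ℝ u x v :=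
    (hu.continuous_fderiv (by simp)).clm_apply continuous_const
  have hcφ : Continuous fun x => fderiv ℝ φ x v :=
    (hφ.continuous_fderiv (by simp)).clm_apply continuous_const
  have hsu : HasCompactSupport fun x => fderiv ℝ u x v := by
    refine (hs.fderiv ℝ).mono fun x hx => ?_
    by_contra hn
    apply hx
    have : fderiv ℝ u x = 0 := by by_contra h; exact hn h
    simp [this]
  refine integral_mul_fderiv_eq_neg_fderiv_mul_of_integrable ?_ ?_ ?_
    (fun x _ => (hu.differentiable (by simp)) x) (fun x _ => (hφ.differentiable (by simp)) x)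
  · exact (hcu.mul hφ.continuous).integrable_of_hasCompactSupport hsu.mul_right
  · exact (hu.continuous.mul hcφ).integrable_of_hasCompactSupport hs.mul_right
  · exact (hu.continuous.mul hφ.continuous).integrable_of_hasCompactSupport hs.mul_right

theorem conv_fderiv {f : V → ℂ} {v : V} (hf : LocallyIntegrable f volume)
    {η : V → ℝ} (hηd : ContDiff ℝ (⊤ : ℕ∞) η) (hηs : HasCompactSupport η) (x : V) :
    fderiv ℝ (η ⋆[ContinuousLinearMap.lsmul ℝ ℝ, volume] f) x v =
      ∫ t, (fderiv ℝ η t v) • f (x - t) := by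
  have hη1 : ContDiff ℝ 1 η := hηd.of_le (by exact_mod_cast le_top)
  have h1 := (hηs.hasFDerivAt_convolution_left (ContinuousLinearMap.lsmul ℝ ℝ) hη1 hf x)
  rw [h1.fderiv, convolution_def]
  have hcη : Continuous (fderiv ℝ η) := hηd.continuous_fderiv (by simp)
  have hsη : HasCompactSupport (fderiv ℝ η) := hηs.fderiv ℝ
  have hint : Integrable (fun t => ((ContinuousLinearMap.lsmul ℝ ℝ (E := ℂ)).precompL V)
      (fderiv ℝ η t) (f (x - t))) volume :=
    hsη.convolutionExists_left _ hcη hf x
  rw [ContinuousLinearMap.integral_apply hint]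
  have e1 : ∀ t, ((ContinuousLinearMap.lsmul ℝ ℝ (E := ℂ)).precompL V) (fderiv ℝ η t) (f (x - t)) v =
      (fderiv ℝ η t v) • f (x - t) := fun t => rfl
  exact integral_congr_ae (Eventually.of_forall e1)

omit [FiniteDimensional ℝ V] [MeasureSpace V] [BorelSpace V]
  [(volume : Measure V).IsAddHaarMeasure] in
theorem fderiv_test {η : V → ℝ} (hηd : ContDiff ℝ (⊤ : ℕ∞) η) (x y v : V) :
    fderiv ℝ (fun y => ((η (x - y) : ℝ) : ℂ)) y v = -((fderiv ℝ η (x - y) v : ℝ) : ℂ) := by
  have hd : HasFDerivAt η (fderiv ℝ η (x - y)) (x - y) :=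
    ((hηd.differentiable (by simp)) (x - y)).hasFDerivAt
  have h4 : HasFDerivAt (fun y => x - y) (-(ContinuousLinearMap.id ℝ V)) y :=
    (hasFDerivAt_id (𝕜 := ℝ) y).const_sub x
  have h5 : HasFDerivAt (fun y => η (x - y))
      ((fderiv ℝ η (x - y)).comp (-(ContinuousLinearMap.id ℝ V))) y := hd.comp y h4
  have h6 : HasFDerivAt (fun y => ((η (x - y) : ℝ) : ℂ)) (Complex.ofRealCLM.comp
      ((fderiv ℝ η (x - y)).comp (-(ContinuousLinearMap.id ℝ V)))) y :=
    Complex.ofRealCLM.hasFDerivAt.comp y h5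
  rw [h6.fderiv]
  simp

/-- mollification turns weak derivatives into classical ones -/
theorem moll_fderiv {f g : V → ℂ} {v : V} (hf : LocallyIntegrable f volume)
    (hw : WeakD f g v) {η : V → ℝ} (hηd : ContDiff ℝ (⊤ : ℕ∞) η) (hηs : HasCompactSupport η)
    (x : V) :
    fderiv ℝ (η ⋆[ContinuousLinearMap.lsmul ℝ ℝ, volume] f) x v =
      (η ⋆[ContinuousLinearMap.lsmul ℝ ℝ, volume] g) x := by
  rw [conv_fderiv hf hηd hηs x]
  have hφd : ContDiff ℝ (⊤ : ℕ∞) (fun y => ((η (x - y) : ℝ) : ℂ)) :=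
    Complex.ofRealCLM.contDiff.comp (hηd.comp (contDiff_const.sub contDiff_id))
  have hφs : HasCompactSupport (fun y => ((η (x - y) : ℝ) : ℂ)) := by
    have h2 : HasCompactSupport fun y => η (x - y) :=
      hηs.comp_homeomorph (Homeomorph.subLeft x)
    refine h2.mono fun y hy => ?_
    by_contra hn
    apply hy
    have : η (x - y) = 0 := by by_contra h; exact hn h
    simp [this]
  have h3 := hw _ hφd hφs
  have e3 : ∫ y, f y * fderiv ℝ (fun y => ((η (x - y) : ℝ) : ℂ)) y v =
      -∫ y, (fderiv ℝ η (x - y) v) • f y := by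
    rw [← integral_neg]
    congr 1
    ext y
    rw [fderiv_test hηd, Complex.real_smul]
    ring
  rw [e3, neg_inj] at h3
  have e4 : ∫ t, (fderiv ℝ η t v) • f (x - t) = ∫ y, (fderiv ℝ η (x - y) v) • f y := by
    have h5 := integral_sub_left_eq_self (fun y => (fderiv ℝ η (x - y) v) • f y)
      (volume : Measure V) x
    simp only [sub_sub_cancel] at h5
    exact h5
  have e5 : (η ⋆[ContinuousLinearMap.lsmul ℝ ℝ, volume] g) x =
      ∫ y, g y * ((η (x - y) : ℝ) : ℂ) := by
    have h5 := integral_sub_left_eq_self (fun y => g y * ((η (x - y) : ℝ) : ℂ))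
      (volume : Measure V) x
    simp only [sub_sub_cancel] at h5
    rw [convolution_def, ← h5]
    congr 1
    ext t
    rw [ContinuousLinearMap.lsmul_apply, Complex.real_smul]
    ring
  rw [e4, h3, e5]

end

end Pool.Agent.LT.H1
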