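import Pool.Agent.LT.Kinetic

set_option autoImplicit false

namespace Pool.Agent.LT

open MeasureTheory

theorem kcl_three : kcl 3 = 3 / 5 * (6 * Real.pi ^ 2) ^ ((2 : ℝ) / 3) := by
  unfold kcl
  have hpi := Real.pi_pos
  have hω : (MeasureTheory.volume (Metric.ball (0 : EuclideanSpace ℝ (Fin 3)) 1)).toReal =
      Real.pi * 4 / 3 := by
    rw [EuclideanSpace.volume_ball_fin_three]
    simp only [ENNReal.ofReal_one, one_pow, one_mul]
    rw [ENNReal.toReal_ofReal (by positivity)]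
  rw [hω]
  have e1 : (2 * Real.pi) ^ 2 = ((2 * Real.pi) ^ 3) ^ ((2 : ℝ) / 3) := by
    rw [← Real.rpow_natCast (2 * Real.pi) 3, ← Real.rpow_mul (by positivity)]
    norm_num
  have e2 : (2 * Real.pi) ^ 2 / (Real.pi * 4 / 3) ^ ((2 : ℝ) / 3) = (6 * Real.pi ^ 2) ^ ((2 : ℝ) / 3) := by
    rw [e1, ← Real.div_rpow (by positivity) (by positivity)]
    congr 1
    field_simp
    ring
  push_cast
  rw [← e2]
  ring

/-- the kinetic inequality on `ℝ³` -/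
theorem kinetic_three (hk : KinH1Stmt) (h1 : ∀ d : ℕ, 0 < d → D1 d) (N : ℕ)
    (φ : Fin N → EuclideanSpace ℝ (Fin 3) → ℂ)
    (hφ : ∀ i, ContDiff ℝ 1 (φ i) ∧ HasCompactSupport (φ i))
    (ho : ∀ i j, ∫ x, (starRingEnd ℂ) (φ i x) * φ j x = if i = j then (1 : ℂ) else 0) :
    (3 / 4 : ℝ) ^ ((1 : ℝ) / 3) * ((3 / 5 : ℝ) * (6 * Real.pi ^ 2) ^ ((2 : ℝ) / 3)) *
          ∫ x, (∑ i, ‖φ i x‖ ^ 2) ^ ((5 : ℝ) / 3)
        ≤ ∑ i, ∫ x, ∑ j : Fin 3,
            ‖fderiv ℝ (φ i) x (EuclideanSpace.single j (1 : ℝ))‖ ^ 2 := by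
  have := kinetic_euclid hk h1 3 (by norm_num) N φ hφ ho
  rw [kcl_three] at this
  have e : (1 + 2 / ((3 : ℕ) : ℝ)) = (5 : ℝ) / 3 := by norm_num
  rw [e] at this
  push_cast at this
  exact this

end Pool.Agent.LT
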