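import Pool.Agent.LT.KinSets

/-!
# Lower bound for the infimum of the kinetic quotients
-/

set_option autoImplicit false

namespace Pool.Agent.LT

open MeasureTheory Finset

/-- the kinetic quotients of orthonormal families -/
def kinSet (d : ℕ) : Set ℝ :=
  {K : ℝ | ∃ N : ℕ, ∃ u : Fin N → EuclideanSpace ℝ (Fin d) → ℂ,
          0 < N ∧
          (∀ n, ContDiff ℝ 1 (u n) ∧ HasCompactSupport (u n)) ∧
          (∀ n m, ∫ x, star (u n x) * u m x = if n = m then (1 : ℂ) else 0) ∧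
          K = (∑ n, ∫ x, ∑ i : Fin d, ‖fderiv ℝ (u n) x (EuclideanSpace.single i (1 : ℝ))‖ ^ 2)
              / ∫ x, (∑ n, ‖u n x‖ ^ 2) ^ (1 + 2 / (d : ℝ))}

/-- the quotients of one function -/
def kinSet1 (d : ℕ) : Set ℝ :=
  {K : ℝ | ∃ u : EuclideanSpace ℝ (Fin d) → ℂ,
              ContDiff ℝ 1 u ∧ HasCompactSupport u ∧ u ≠ 0 ∧
              K = (∫ x, ∑ i : Fin d, ‖fderiv ℝ u x (EuclideanSpace.single i (1 : ℝ))‖ ^ 2)
                  * (∫ x, ‖u x‖ ^ 2) ^ (2 / (d : ℝ))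
                  / ∫ x, ‖u x‖ ^ (2 + 4 / (d : ℝ))}

theorem kinSet1_subset {d : ℕ} (hd : 0 < d) : kinSet1 d ⊆ kinSet d := by
  rintro K ⟨u, hu, hs, h0, rfl⟩
  obtain ⟨v, hv, ho, he⟩ := kin_normalise hd hu hs h0
  exact ⟨1, v, one_pos, hv, ho, he⟩

theorem kinSet1_nonempty (d : ℕ) : (kinSet1 d).Nonempty := by
  obtain ⟨u, hu, hs, h0⟩ := kin_exists_bump d
  exact ⟨_, u, hu, hs, h0, rfl⟩

theorem kinSet_nonempty {d : ℕ} (hd : 0 < d) : (kinSet d).Nonempty :=
  (kinSet1_nonempty d).mono (kinSet1_subset hd)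

theorem kinSet_lower (hk : KinH1Stmt) (h1 : ∀ d : ℕ, 0 < d → D1 d) {d : ℕ} (hd : 0 < d) :
    (3 / 4 : ℝ) ^ (1 / (d : ℝ)) * kcl d ∈ lowerBounds (kinSet d) := by
  rintro K ⟨N, u, hN, hu, ho, rfl⟩
  have hd' : (0 : ℝ) < d := by exact_mod_cast hd
  rw [le_div_iff₀ (kin_den_pos hN hu ho (by positivity))]
  exact kinetic_euclid hk h1 d hd N u hu ho

theorem kinSet_bddBelow (d : ℕ) : BddBelow (kinSet d) := by
  refine ⟨0, ?_⟩
  rintro K ⟨N, u, hN, hu, ho, rfl⟩
  refine div_nonneg (Finset.sum_nonneg fun n _ => integral_nonneg fun x => ?_)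
    (integral_nonneg fun x => ?_)
  · exact Finset.sum_nonneg fun i _ => by positivity
  · exact Real.rpow_nonneg (Finset.sum_nonneg fun j _ => by positivity) _

theorem kinInf_lower (hk : KinH1Stmt) (h1 : ∀ d : ℕ, 0 < d → D1 d) {d : ℕ} (hd : 0 < d) :
    (3 / 4 : ℝ) ^ (1 / (d : ℝ)) * kcl d ≤ sInf (kinSet d) :=
  le_csInf (kinSet_nonempty hd) fun _ hb => kinSet_lower hk h1 hd hb

theorem kcl_one : kcl 1 = Real.pi ^ 2 / 3 := by
  unfold kcl
  have hω : (MeasureTheory.volume (Metric.ball (0 : EuclideanSpace ℝ (Fin 1)) 1)).toReal = 2 := by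
    rw [EuclideanSpace.volume_ball]
    simp only [ENNReal.ofReal_one, one_pow, one_mul, Fintype.card_fin, pow_one, Nat.cast_one]
    have hg : Real.Gamma (1 / 2 + 1) = √Real.pi / 2 := by
      rw [Real.Gamma_add_one (by norm_num), Real.Gamma_one_half_eq]
      ring
    rw [hg, ENNReal.toReal_ofReal (by positivity)]
    have : √Real.pi ≠ 0 := by positivity
    field_simp
  rw [hω]
  norm_num
  ring

/-- The conjecture in dimension one, from the value of the one particle constant. -/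
theorem kin_dim_one (hk : KinH1Stmt) (h1 : ∀ d : ℕ, 0 < d → D1 d)
    (hup : sInf (kinSet1 1) ≤ Real.pi ^ 2 / 4) :
    sInf (kinSet 1) = min (sInf (kinSet1 1)) (kcl 1) := by
  have hlow : Real.pi ^ 2 / 4 ≤ sInf (kinSet 1) := by
    have := kinInf_lower hk h1 (d := 1) one_pos
    rw [kcl_one] at this
    norm_num at this
    linarith
  have hle : sInf (kinSet 1) ≤ sInf (kinSet1 1) :=
    csInf_le_csInf (kinSet_bddBelow 1) (kinSet1_nonempty 1) (kinSet1_subset one_pos)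
  have h2 : sInf (kinSet1 1) = Real.pi ^ 2 / 4 := le_antisymm hup (hlow.trans hle)
  have h3 : sInf (kinSet 1) = Real.pi ^ 2 / 4 := le_antisymm (hle.trans hup) hlow
  rw [h2, h3, kcl_one, min_eq_left]
  have := sq_nonneg Real.pi
  linarith

end Pool.Agent.LT
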