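import Pool.Agent.LT.Kinetic

/-!
# The set of kinetic quotients of orthonormal families
-/

set_option autoImplicit false

namespace Pool.Agent.LT

open MeasureTheory Finset

variable {d : ℕ}

theorem kin_rho_cont {N : ℕ} {u : Fin N → EuclideanSpace ℝ (Fin d) → ℂ}
    (hu : ∀ n, ContDiff ℝ 1 (u n) ∧ HasCompactSupport (u n)) :
    Continuous fun x => ∑ n, ‖u n x‖ ^ 2 :=
  continuous_finsetSum _ fun n _ => (hu n).1.continuous.norm.pow 2

theorem kin_rho_supp {N : ℕ} {u : Fin N → EuclideanSpace ℝ (Fin d) → ℂ}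
    (hu : ∀ n, ContDiff ℝ 1 (u n) ∧ HasCompactSupport (u n)) :
    HasCompactSupport fun x => ∑ n, ‖u n x‖ ^ 2 := by
  have : ∀ j ∈ (Finset.univ : Finset (Fin N)), HasCompactSupport fun y => ‖u j y‖ ^ 2 := by
    intro j _
    refine (hu j).2.comp_left (g := fun z : ℂ => ‖z‖ ^ 2) (by simp)
  have h := HasCompactSupport.finset_sum this
  have h2 : (∑ j, fun y => ‖u j y‖ ^ 2) = fun x => ∑ n, ‖u n x‖ ^ 2 := by
    ext y
    simp
  rwa [h2] at h

/-- the denominator is positive -/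
theorem kin_den_pos {N : ℕ} (hN : 0 < N) {u : Fin N → EuclideanSpace ℝ (Fin d) → ℂ}
    (hu : ∀ n, ContDiff ℝ 1 (u n) ∧ HasCompactSupport (u n))
    (ho : ∀ n m, ∫ x, star (u n x) * u m x = if n = m then (1 : ℂ) else 0) {p : ℝ} (hp : 0 < p) :
    0 < ∫ x, (∑ n, ‖u n x‖ ^ 2) ^ p := by
  have hρ0 : ∀ x, 0 ≤ ∑ n, ‖u n x‖ ^ 2 := fun x => Finset.sum_nonneg fun j _ => by positivity
  have hc : Continuous fun x => (∑ n, ‖u n x‖ ^ 2) ^ p :=
    (kin_rho_cont hu).rpow_const fun _ => Or.inr hp.le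
  have hs : HasCompactSupport fun x => (∑ n, ‖u n x‖ ^ 2) ^ p :=
    (kin_rho_supp hu).comp_left (g := fun t : ℝ => t ^ p) (Real.zero_rpow hp.ne')
  -- some point where `u 0` does not vanish
  obtain ⟨x0, hx0⟩ : ∃ x, u ⟨0, hN⟩ x ≠ 0 := by
    by_contra h
    push Not at h
    have h1 := ho ⟨0, hN⟩ ⟨0, hN⟩
    simp [h] at h1
  have hpos : 0 < (∑ n, ‖u n x0‖ ^ 2) ^ p := by
    apply Real.rpow_pos_of_pos
    have : ‖u ⟨0, hN⟩ x0‖ ^ 2 ≤ ∑ n, ‖u n x0‖ ^ 2 :=
      Finset.single_le_sum (f := fun n => ‖u n x0‖ ^ 2) (fun i _ => by positivity) (mem_univ _)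
    have h2 : 0 < ‖u ⟨0, hN⟩ x0‖ ^ 2 := by positivity
    linarith
  exact hc.integral_pos_of_hasCompactSupport_nonneg_nonzero hs
    (fun x => Real.rpow_nonneg (hρ0 x) _) hpos.ne'

theorem kin_one_pos {u : EuclideanSpace ℝ (Fin d) → ℂ} (hu : ContDiff ℝ 1 u)
    (hs : HasCompactSupport u) (h0 : u ≠ 0) {p : ℝ} (hp : 0 < p) : 0 < ∫ x, ‖u x‖ ^ p := by
  obtain ⟨x0, hx0⟩ := Function.ne_iff.1 h0
  have hc : Continuous fun x => ‖u x‖ ^ p := hu.continuous.norm.rpow_const fun _ => Or.inr hp.le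
  have hs' : HasCompactSupport fun x => ‖u x‖ ^ p :=
    hs.comp_left (g := fun z : ℂ => ‖z‖ ^ p) (by simp [Real.zero_rpow hp.ne'])
  refine hc.integral_pos_of_hasCompactSupport_nonneg_nonzero hs'
    (fun x => Real.rpow_nonneg (norm_nonneg _) _) (x := x0) ?_
  have : 0 < ‖u x0‖ := norm_pos_iff.2 hx0
  positivity

/-- a nonzero `C¹` function with compact support -/
theorem kin_exists_bump (d : ℕ) : ∃ u : EuclideanSpace ℝ (Fin d) → ℂ,
    ContDiff ℝ 1 u ∧ HasCompactSupport u ∧ u ≠ 0 := by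
  obtain ⟨f⟩ : Nonempty (ContDiffBump (0 : EuclideanSpace ℝ (Fin d))) := ⟨⟨1, 2, by norm_num, by norm_num⟩⟩
  refine ⟨fun x => (f x : ℂ), ?_, ?_, ?_⟩
  · exact Complex.ofRealCLM.contDiff.comp f.contDiff
  · exact f.hasCompactSupport.comp_left (g := fun t : ℝ => (t : ℂ)) (by simp)
  · intro h
    have h1 := congrFun h 0
    have h2 : f (0 : EuclideanSpace ℝ (Fin d)) = 1 :=
      f.one_of_mem_closedBall (by simp [f.rIn_pos.le])
    simp [h2] at h1

/-- Normalising a function gives a family with one member and the same quotient. -/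
theorem kin_normalise (hd : 0 < d) {u : EuclideanSpace ℝ (Fin d) → ℂ} (hu : ContDiff ℝ 1 u)
    (hs : HasCompactSupport u) (h0 : u ≠ 0) :
    ∃ v : Fin 1 → EuclideanSpace ℝ (Fin d) → ℂ,
      (∀ n, ContDiff ℝ 1 (v n) ∧ HasCompactSupport (v n)) ∧
      (∀ n m, ∫ x, star (v n x) * v m x = if n = m then (1 : ℂ) else 0) ∧
      (∫ x, ∑ i : Fin d, ‖fderiv ℝ u x (EuclideanSpace.single i (1 : ℝ))‖ ^ 2)
                  * (∫ x, ‖u x‖ ^ 2) ^ (2 / (d : ℝ))
                  / ∫ x, ‖u x‖ ^ (2 + 4 / (d : ℝ)) =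
      (∑ n, ∫ x, ∑ i : Fin d, ‖fderiv ℝ (v n) x (EuclideanSpace.single i (1 : ℝ))‖ ^ 2)
              / ∫ x, (∑ n, ‖v n x‖ ^ 2) ^ (1 + 2 / (d : ℝ)) := by
  have hd' : (0 : ℝ) < d := by exact_mod_cast hd
  set A : ℝ := ∫ x, ‖u x‖ ^ 2 with hA
  have hA0 : 0 < A := by
    have := kin_one_pos hu hs h0 (p := 2) (by norm_num)
    simpa using this
  set c : ℝ := (√A)⁻¹ with hc
  have hc0 : 0 < c := by positivity
  have hcA : c ^ 2 * A = 1 := by
    rw [hc, inv_pow, Real.sq_sqrt hA0.le, inv_mul_cancel₀ hA0.ne']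
  refine ⟨fun _ x => (c : ℂ) * u x, fun _ => ⟨contDiff_const.mul hu, hs.mul_left⟩, ?_, ?_⟩
  · intro n m
    have hnm : n = m := Subsingleton.elim _ _
    have e1 : ∀ x, star ((c : ℂ) * u x) * ((c : ℂ) * u x) = ((c ^ 2 * ‖u x‖ ^ 2 : ℝ) : ℂ) := by
      intro x
      have h1 : star (u x) * u x = ((‖u x‖ ^ 2 : ℝ) : ℂ) := by
        have := Complex.conj_mul' (u x)
        rw [Complex.ofReal_pow]
        exact this
      have h2 : star (c : ℂ) = (c : ℂ) := Complex.conj_ofReal c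
      rw [star_mul', h2]
      calc (c : ℂ) * star (u x) * ((c : ℂ) * u x) = (c : ℂ) ^ 2 * (star (u x) * u x) := by ring
        _ = _ := by rw [h1]; push_cast; ring
    simp only [hnm, if_true]
    simp_rw [e1]
    rw [integral_complex_ofReal, integral_const_mul, ← hA, hcA]
    simp
  · have e1 : ∀ (x : EuclideanSpace ℝ (Fin d)) (v : EuclideanSpace ℝ (Fin d)),
        fderiv ℝ (fun x => (c : ℂ) * u x) x v = (c : ℂ) * fderiv ℝ u x v := by
      intro x v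
      have h1 : HasFDerivAt u (fderiv ℝ u x) x := (hu.differentiable (by simp) x).hasFDerivAt
      rw [(h1.const_mul (c : ℂ)).fderiv]
      simp
    simp only [Finset.univ_unique, Finset.sum_singleton, e1, norm_mul, mul_pow,
      Complex.norm_real, Real.norm_eq_abs, sq_abs]
    have e2 : ∀ x, (c ^ 2 * ‖u x‖ ^ 2) ^ (1 + 2 / (d : ℝ)) =
        (c ^ 2) ^ (1 + 2 / (d : ℝ)) * ‖u x‖ ^ (2 + 4 / (d : ℝ)) := by
      intro x
      rw [Real.mul_rpow (by positivity) (by positivity)]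
      congr 1
      rw [← Real.rpow_natCast, ← Real.rpow_mul (norm_nonneg _)]
      congr 1
      push_cast
      ring
    simp_rw [e2, ← Finset.mul_sum]
    rw [integral_const_mul, integral_const_mul]
    have hI : 0 < ∫ x, ‖u x‖ ^ (2 + 4 / (d : ℝ)) := kin_one_pos hu hs h0 (by positivity)
    have e3 : (c ^ 2) ^ (1 + 2 / (d : ℝ)) = c ^ 2 * (c ^ 2) ^ (2 / (d : ℝ)) := by
      rw [Real.rpow_add (by positivity), Real.rpow_one]
    have e4 : (c ^ 2) ^ (2 / (d : ℝ)) = (A ^ (2 / (d : ℝ)))⁻¹ := by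
      have : c ^ 2 = A⁻¹ := eq_inv_of_mul_eq_one_left hcA
      rw [this, Real.inv_rpow hA0.le]
    rw [e3, e4]
    have hA1 : 0 < A ^ (2 / (d : ℝ)) := by positivity
    field_simp

end Pool.Agent.LT
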