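import Pool.Agent.LT.Bil

/-!
# Optimality: the potential `-(3/4) sech²`
(MP_4c716f_mp; mathematics: helper15)

`V = -(3/4) / cosh²`, `ψ = (π cosh x)^(-1/2)`, `-ψ'' + V ψ = -ψ/4`, `∫ V₋^(3/2) = 3√3π/16`.
-/

set_option autoImplicit false

namespace Pool.Agent.LT.Low

open MeasureTheory Set Filter Topology
open scoped ComplexConjugate ComplexOrder

/-! ### Integration by parts -/

theorem acv_integral_eq_zero {F F' : ℝ → ℂ} (h : ACv F F') (hF : Integrable F)
    (hF' : Integrable F') : ∫ x, F' x = 0 := by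
  have htop : Tendsto F atTop (𝓝 (F 0 + ∫ x in Ioi (0:ℝ), F' x)) := by
    have h1 := intervalIntegral_tendsto_integral_Ioi (0:ℝ) hF'.integrableOn
      (tendsto_id (x := (atTop : Filter ℝ)))
    have h2 := (tendsto_const_nhds (x := F 0)).add h1
    refine h2.congr (fun b => ?_)
    simp only [id]
    rw [← h.2 0 b]
    ring
  have hbot : Tendsto F atBot (𝓝 (F 0 - ∫ x in Iic (0:ℝ), F' x)) := by
    have h1 := intervalIntegral_tendsto_integral_Iic (0:ℝ) hF'.integrableOn
      (tendsto_id (x := (atBot : Filter ℝ)))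
    have h2 := (tendsto_const_nhds (x := F 0)).sub h1
    refine h2.congr (fun b => ?_)
    simp only [id]
    rw [← h.2 b 0]
    ring
  have e1 : F 0 + ∫ x in Ioi (0:ℝ), F' x = 0 := by
    refine IntegrableAtFilter.eq_zero_of_tendsto (μ := volume)
      ⟨Ioi 0, Ioi_mem_atTop 0, hF.integrableOn⟩ ?_ htop
    intro s hs
    rcases mem_atTop_sets.1 hs with ⟨b, hb⟩
    apply le_antisymm le_top
    rw [← Real.volume_Ici (a := b)]
    exact measure_mono hb
  have e2 : F 0 - ∫ x in Iic (0:ℝ), F' x = 0 := by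
    refine IntegrableAtFilter.eq_zero_of_tendsto (μ := volume)
      ⟨Iic 0, Iic_mem_atBot 0, hF.integrableOn⟩ ?_ hbot
    intro s hs
    rcases mem_atBot_sets.1 hs with ⟨b, hb⟩
    apply le_antisymm le_top
    rw [← Real.volume_Iic (a := b)]
    exact measure_mono hb
  rw [← setIntegral_univ, ← Set.Iic_union_Ioi (a := (0:ℝ)),
    setIntegral_union (Iic_disjoint_Ioi le_rfl) measurableSet_Ioi hF'.integrableOn hF'.integrableOn]
  linear_combination e1 - e2

theorem acv_of_hasDerivAt {g g' : ℝ → ℂ} (hg : ∀ x, HasDerivAt g (g' x) x)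
    (hc : Continuous g') : ACv g g' :=
  ⟨fun a b => hc.intervalIntegrable a b, fun a b =>
    (intervalIntegral.integral_eq_sub_of_hasDerivAt (fun x _ => hg x)
      (hc.intervalIntegrable a b)).symm⟩

theorem acv_of_isH1v {f f' : ℝ → ℂ} (h : IsH1v f f') : ACv f f' :=
  ⟨fun a b => by
    rw [intervalIntegrable_iff]
    have h2 := h.2.1.restrict (uIoc a b)
    have : IsFiniteMeasure (volume.restrict (uIoc a b)) := by
      constructor
      rw [Measure.restrict_apply_univ, uIoc]
      exact measure_Ioc_lt_top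
    exact h2.integrable (by norm_num), h.2.2⟩

theorem ibp {φ φ' g g' : ℝ → ℂ} (hφ : IsH1v φ φ') (hg : ACv g g') (h2 : MemLp g 2 volume)
    (h2' : MemLp g' 2 volume) : (∫ x, φ' x * g x) + ∫ x, φ x * g' x = 0 := by
  have hB := bil ℂ ℂ ℂ (ContinuousLinearMap.mul ℝ ℂ) φ φ' g g' (acv_of_isH1v hφ) hg
  simp only [ContinuousLinearMap.mul_apply'] at hB
  have i1 : Integrable (fun x => φ x * g x) volume := hφ.1.integrable_mul h2
  have i2 : Integrable (fun x => φ' x * g x) volume := hφ.2.1.integrable_mul h2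
  have i3 : Integrable (fun x => φ x * g' x) volume := hφ.1.integrable_mul h2'
  have := acv_integral_eq_zero hB i1 (i2.add i3)
  rw [← integral_add i2 i3]
  exact this

/-! ### The functions -/

/-- `cosh^(-1/2)` -/
noncomputable def h0 (x : ℝ) : ℝ := Real.cosh x ^ (-(1 / 2) : ℝ)

/-- its derivative -/
noncomputable def h1 (x : ℝ) : ℝ := -(1 / 2) * (Real.cosh x ^ (-(3 / 2) : ℝ) * Real.sinh x)

/-- its second derivative -/
noncomputable def h2 (x : ℝ) : ℝ :=
  (1 / 4) * Real.cosh x ^ (-(1 / 2) : ℝ) - (3 / 4) * Real.cosh x ^ (-(5 / 2) : ℝ)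

theorem cosh_rpow_cont (r : ℝ) : Continuous fun x : ℝ => Real.cosh x ^ r :=
  Real.continuous_cosh.rpow_const fun x => Or.inl (Real.cosh_pos x).ne'

theorem hasDerivAt_h0 (x : ℝ) : HasDerivAt h0 (h1 x) x := by
  have := (Real.hasDerivAt_cosh x).rpow_const (p := (-(1 / 2) : ℝ)) (Or.inl (Real.cosh_pos x).ne')
  refine this.congr_deriv ?_
  rw [h1, show (-(1 / 2) - 1 : ℝ) = -(3 / 2) by norm_num]
  ring

theorem hasDerivAt_h1 (x : ℝ) : HasDerivAt h1 (h2 x) x := by
  have a := (Real.hasDerivAt_cosh x).rpow_const (p := (-(3 / 2) : ℝ)) (Or.inl (Real.cosh_pos x).ne')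
  have b := (a.mul (Real.hasDerivAt_sinh x)).const_mul (-(1 / 2) : ℝ)
  refine b.congr_deriv ?_
  have hc := Real.cosh_pos x
  have e1 : Real.cosh x ^ (-(1 / 2) : ℝ) = Real.cosh x ^ (-(5 / 2) : ℝ) * Real.cosh x ^ 2 := by
    rw [← Real.rpow_natCast, ← Real.rpow_add hc]; norm_num
  have e2 : Real.cosh x ^ (-(3 / 2) : ℝ) = Real.cosh x ^ (-(5 / 2) : ℝ) * Real.cosh x := by
    nth_rewrite 3 [← Real.rpow_one (Real.cosh x)]
    rw [← Real.rpow_add hc]; norm_num
  have e3 := Real.cosh_sq x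
  rw [h2, show (-(3 / 2) - 1 : ℝ) = -(5 / 2) by norm_num, e1, e2]
  have e4 : Real.sinh x ^ 2 = Real.cosh x ^ 2 - 1 := by linarith
  linear_combination (-(1 / 2) * (-(3 / 2)) * Real.cosh x ^ (-(5 / 2) : ℝ)) * e4

theorem h1_cont : Continuous h1 :=
  continuous_const.mul ((cosh_rpow_cont _).mul Real.continuous_sinh)

theorem h2_cont : Continuous h2 :=
  (continuous_const.mul (cosh_rpow_cont _)).sub (continuous_const.mul (cosh_rpow_cont _))

theorem h0_cont : Continuous h0 := cosh_rpow_cont _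

theorem h0_pos (x : ℝ) : 0 < h0 x := Real.rpow_pos_of_pos (Real.cosh_pos x) _

theorem h0_sq (x : ℝ) : h0 x * h0 x = 1 / Real.cosh x := by
  rw [h0, ← Real.rpow_add (Real.cosh_pos x)]
  norm_num
  rw [Real.rpow_neg_one]

theorem abs_h1_le (x : ℝ) : |h1 x| ≤ h0 x := by
  have hc := Real.cosh_pos x
  have e2 : Real.cosh x ^ (-(1 / 2) : ℝ) = Real.cosh x ^ (-(3 / 2) : ℝ) * Real.cosh x := by
    nth_rewrite 3 [← Real.rpow_one (Real.cosh x)]
    rw [← Real.rpow_add hc]; norm_num
  have hp : 0 < Real.cosh x ^ (-(3 / 2) : ℝ) := Real.rpow_pos_of_pos hc _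
  have hs : |Real.sinh x| ≤ Real.cosh x := by
    rw [abs_le]
    have := Real.cosh_sq x
    constructor <;> nlinarith
  rw [h1, h0, e2, abs_mul, abs_mul, abs_of_pos hp]
  have : |(-(1 / 2) : ℝ)| = 1 / 2 := by norm_num
  rw [this]
  nlinarith [mul_le_mul_of_nonneg_left hs hp.le, mul_nonneg hp.le (abs_nonneg (Real.sinh x))]

theorem abs_h2_le (x : ℝ) : |h2 x| ≤ h0 x := by
  have hc := Real.cosh_pos x
  have hp : 0 < Real.cosh x ^ (-(5 / 2) : ℝ) := Real.rpow_pos_of_pos hc _
  have hq : 0 < Real.cosh x ^ (-(1 / 2) : ℝ) := Real.rpow_pos_of_pos hc _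
  have hle : Real.cosh x ^ (-(5 / 2) : ℝ) ≤ Real.cosh x ^ (-(1 / 2) : ℝ) :=
    Real.rpow_le_rpow_of_exponent_le (Real.one_le_cosh x) (by norm_num)
  rw [h2, h0, abs_le]
  constructor <;> linarith

/-! ### Integrals -/

theorem tendsto_sinh_atTop : Tendsto Real.sinh atTop atTop := by
  refine tendsto_atTop_mono' atTop ?_ tendsto_id
  filter_upwards [eventually_ge_atTop (0:ℝ)] with x hx
  exact Real.self_le_sinh_iff.2 hx

theorem tendsto_sinh_atBot : Tendsto Real.sinh atBot atBot := by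
  have := tendsto_neg_atTop_atBot.comp (tendsto_sinh_atTop.comp tendsto_neg_atBot_atTop)
  refine this.congr (fun x => ?_)
  simp

theorem hasDerivAt_gd (x : ℝ) :
    HasDerivAt (fun x => Real.arctan (Real.sinh x)) (1 / Real.cosh x) x := by
  refine (Real.hasDerivAt_sinh x).arctan.congr_deriv ?_
  have hc := Real.cosh_pos x
  have := Real.cosh_sq x
  rw [show 1 + Real.sinh x ^ 2 = Real.cosh x ^ 2 by linarith]
  field_simp

theorem gd_top : Tendsto (fun x => Real.arctan (Real.sinh x)) atTop (𝓝 (Real.pi / 2)) :=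
  (tendsto_nhds_of_tendsto_nhdsWithin Real.tendsto_arctan_atTop).comp tendsto_sinh_atTop

theorem gd_bot : Tendsto (fun x => Real.arctan (Real.sinh x)) atBot (𝓝 (-(Real.pi / 2))) :=
  (tendsto_nhds_of_tendsto_nhdsWithin Real.tendsto_arctan_atBot).comp tendsto_sinh_atBot

theorem integrable_sech : Integrable (fun x : ℝ => 1 / Real.cosh x) volume := by
  have hI : IntegrableOn (fun x : ℝ => 1 / Real.cosh x) (Ioi 0) volume :=
    integrableOn_Ioi_deriv_of_nonneg' (fun x _ => hasDerivAt_gd x)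
      (fun x _ => by have := Real.cosh_pos x; positivity) gd_top
  have hJ : IntegrableOn (fun x : ℝ => 1 / Real.cosh x) (Iic 0) volume := by
    have := ((Measure.measurePreserving_neg (volume : Measure ℝ)).integrableOn_comp_preimage
      (Homeomorph.neg ℝ).measurableEmbedding (f := fun x : ℝ => 1 / Real.cosh x)
      (s := Ioi 0)).2 hI
    have h3 : IntegrableOn (fun x : ℝ => 1 / Real.cosh x) (Iio 0) volume := by
      refine (integrableOn_congr_fun ?_ measurableSet_Iio).1
        (this.mono_set (s := Iio 0) ?_)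
      · intro x _
        simp [Real.cosh_neg]
      · intro x hx
        simpa using hx
    exact (integrableOn_Iic_iff_integrableOn_Iio).2 h3
  rw [← integrableOn_univ, ← Set.Iic_union_Ioi (a := (0:ℝ))]
  exact hJ.union hI

theorem integral_sech : ∫ x : ℝ, 1 / Real.cosh x = Real.pi := by
  rw [integral_of_hasDerivAt_of_tendsto hasDerivAt_gd integrable_sech gd_bot gd_top]
  ring

theorem memLp_of_le_h0 {g : ℝ → ℂ} (hg : Continuous g) (hle : ∀ x, ‖g x‖ ≤ h0 x) :
    MemLp g 2 volume := by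
  have hh : MemLp h0 2 volume := by
    rw [memLp_two_iff_integrable_sq h0_cont.aestronglyMeasurable]
    refine integrable_sech.congr (Eventually.of_forall fun x => ?_)
    change 1 / Real.cosh x = h0 x ^ 2
    rw [sq, h0_sq]
  refine hh.mono hg.aestronglyMeasurable (Eventually.of_forall fun x => ?_)
  rw [Real.norm_eq_abs, abs_of_pos (h0_pos x)]
  exact hle x

theorem hasDerivAt_sech3 (x : ℝ) :
    HasDerivAt (fun x => (1 / 2) * (Real.sinh x / Real.cosh x ^ 2 + Real.arctan (Real.sinh x)))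
      (1 / Real.cosh x ^ 3) x := by
  have hc := Real.cosh_pos x
  have a := ((Real.hasDerivAt_sinh x).div ((Real.hasDerivAt_cosh x).pow 2)
    (pow_ne_zero 2 hc.ne')).add (hasDerivAt_gd x)
  refine (a.const_mul (1 / 2 : ℝ)).congr_deriv ?_
  have e3 := Real.cosh_sq x
  have e4 : Real.sinh x ^ 2 = Real.cosh x ^ 2 - 1 := by linarith
  simp only [Pi.pow_apply]
  field_simp
  norm_num
  ring_nf
  rw [e4]
  ring

theorem sinh_div_bound (x : ℝ) : |Real.sinh x / Real.cosh x ^ 2| ≤ 1 / Real.cosh x := by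
  have hc := Real.cosh_pos x
  have hs : |Real.sinh x| ≤ Real.cosh x := by
    rw [abs_le]
    have := Real.cosh_sq x
    constructor <;> nlinarith
  rw [abs_div, abs_of_pos (by positivity : 0 < Real.cosh x ^ 2), div_le_div_iff₀ (by positivity) hc]
  nlinarith

theorem tendsto_cosh_atTop' : Tendsto Real.cosh atTop atTop :=
  tendsto_atTop_mono (fun x => (Real.sinh_lt_cosh x).le) tendsto_sinh_atTop

theorem tendsto_cosh_atBot' : Tendsto Real.cosh atBot atTop := by
  refine (tendsto_cosh_atTop'.comp tendsto_neg_atBot_atTop).congr (fun x => ?_)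
  simp

theorem sd_top : Tendsto (fun x => Real.sinh x / Real.cosh x ^ 2) atTop (𝓝 0) := by
  refine squeeze_zero_norm sinh_div_bound ?_
  exact tendsto_cosh_atTop'.inv_tendsto_atTop.congr (fun x => by simp)

theorem sd_bot : Tendsto (fun x => Real.sinh x / Real.cosh x ^ 2) atBot (𝓝 0) := by
  refine squeeze_zero_norm sinh_div_bound ?_
  exact tendsto_cosh_atBot'.inv_tendsto_atTop.congr (fun x => by simp)

theorem integrable_sech3 : Integrable (fun x : ℝ => 1 / Real.cosh x ^ 3) volume := by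
  refine integrable_sech.mono ?_ (Eventually.of_forall fun x => ?_)
  · refine (continuous_const.div (Real.continuous_cosh.pow 3) fun x => ?_).aestronglyMeasurable
    exact pow_ne_zero 3 (Real.cosh_pos x).ne'
  · have hc := Real.cosh_pos x
    have h1 := Real.one_le_cosh x
    rw [Real.norm_eq_abs, Real.norm_eq_abs, abs_of_pos (by positivity), abs_of_pos (by positivity)]
    apply one_div_le_one_div_of_le hc
    nlinarith [mul_le_mul h1 h1 zero_le_one hc.le]

theorem integral_sech3 : ∫ x : ℝ, 1 / Real.cosh x ^ 3 = Real.pi / 2 := by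
  rw [integral_of_hasDerivAt_of_tendsto hasDerivAt_sech3 integrable_sech3
    ((sd_bot.add gd_bot).const_mul _) ((sd_top.add gd_top).const_mul _)]
  ring

/-! ### The potential and the eigenfunction -/

/-- the potential -/
noncomputable def Vp (x : ℝ) : ℝ := -(3 / 4) / Real.cosh x ^ 2

theorem Vp_neg (x : ℝ) : max (-Vp x) 0 ^ (1 + 1 / 2 : ℝ) = 3 * √3 / 8 * (1 / Real.cosh x ^ 3) := by
  have hc := Real.cosh_pos x
  have e1 : -Vp x = (√3 / 2 / Real.cosh x) ^ 2 := by
    rw [Vp, div_pow, div_pow, Real.sq_sqrt (by norm_num)]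
    ring
  rw [max_eq_left (by rw [e1]; positivity), e1, ← Real.rpow_natCast, ← Real.rpow_mul (by positivity),
    show ((2 : ℕ) : ℝ) * (1 + 1 / 2) = ((3 : ℕ) : ℝ) by norm_num, Real.rpow_natCast, div_pow, div_pow,
    show √3 ^ 3 = √3 ^ 2 * √3 by ring, Real.sq_sqrt (by norm_num)]
  ring

theorem Vp_memLp : MemLp Vp (ENNReal.ofReal (1 + 1 / 2)) volume := by
  have hcont : Continuous Vp := continuous_const.div (Real.continuous_cosh.pow 2) fun x =>
    pow_ne_zero 2 (Real.cosh_pos x).ne'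
  refine (integrable_norm_rpow_iff hcont.aestronglyMeasurable (by simp; norm_num) (by simp)).1 ?_
  rw [ENNReal.toReal_ofReal (by norm_num)]
  refine ((integrable_sech3.const_mul (3 * √3 / 8)).congr (Eventually.of_forall fun x => ?_))
  change 3 * √3 / 8 * (1 / Real.cosh x ^ 3) = ‖Vp x‖ ^ (1 + 1 / 2 : ℝ)
  rw [← Vp_neg]
  have hc := Real.cosh_pos x
  have : 0 ≤ -Vp x := by rw [Vp, neg_div, neg_neg]; positivity
  rw [max_eq_left this, ← norm_neg, Real.norm_eq_abs, abs_of_nonneg this]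

theorem integral_Vp : ∫ x, max (-Vp x) 0 ^ (1 + 1 / 2 : ℝ) = 3 * √3 * Real.pi / 16 := by
  simp_rw [Vp_neg]
  rw [integral_const_mul, integral_sech3]
  ring

/-- the constant `π^(-1/2)` -/
noncomputable def cc : ℝ := (√Real.pi)⁻¹

theorem cc_sq : cc * cc = Real.pi⁻¹ := by
  rw [cc, ← mul_inv, Real.mul_self_sqrt Real.pi_pos.le]

/-- the eigenfunction -/
noncomputable def psi (x : ℝ) : ℂ := ((cc * h0 x : ℝ) : ℂ)

/-- its derivative -/
noncomputable def psi1 (x : ℝ) : ℂ := ((cc * h1 x : ℝ) : ℂ)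

/-- its second derivative -/
noncomputable def psi2 (x : ℝ) : ℂ := ((cc * h2 x : ℝ) : ℂ)

theorem hasDerivAt_psi (x : ℝ) : HasDerivAt psi (psi1 x) x :=
  ((hasDerivAt_h0 x).const_mul cc).ofReal_comp

theorem hasDerivAt_psi1 (x : ℝ) : HasDerivAt psi1 (psi2 x) x :=
  ((hasDerivAt_h1 x).const_mul cc).ofReal_comp

theorem memLp_ofReal_mul {g : ℝ → ℝ} (hg : Continuous g) (hle : ∀ x, |g x| ≤ h0 x) :
    MemLp (fun x => ((cc * g x : ℝ) : ℂ)) 2 volume := by
  have h : MemLp (fun x => ((g x : ℝ) : ℂ)) 2 volume :=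
    memLp_of_le_h0 (Complex.continuous_ofReal.comp hg) fun x => by
      rw [Complex.norm_real]; exact hle x
  have := h.const_mul (cc : ℂ)
  simpa using this

theorem psi_mem : MemLp psi 2 volume :=
  memLp_ofReal_mul h0_cont fun x => by rw [abs_of_pos (h0_pos x)]

theorem psi1_mem : MemLp psi1 2 volume := memLp_ofReal_mul h1_cont abs_h1_le

theorem psi2_mem : MemLp psi2 2 volume := memLp_ofReal_mul h2_cont abs_h2_le

theorem psi1_cont : Continuous psi1 := Complex.continuous_ofReal.comp (continuous_const.mul h1_cont)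

theorem psi2_cont : Continuous psi2 := Complex.continuous_ofReal.comp (continuous_const.mul h2_cont)

theorem acv_psi : ACv psi psi1 := acv_of_hasDerivAt hasDerivAt_psi psi1_cont

theorem acv_psi1 : ACv psi1 psi2 := acv_of_hasDerivAt hasDerivAt_psi1 psi2_cont

theorem isH1v_psi : IsH1v psi psi1 := ⟨psi_mem, psi1_mem, acv_psi.2⟩

/-- the eigenvalue equation `-ψ'' + V ψ = -ψ/4`. -/
theorem psi_eq (x : ℝ) : psi2 x = (Vp x : ℂ) * psi x + (1 / 4) * psi x := by
  have hc := Real.cosh_pos x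
  have e1 : Real.cosh x ^ (-(5 / 2) : ℝ) = Real.cosh x ^ (-(1 / 2) : ℝ) / Real.cosh x ^ 2 := by
    rw [eq_div_iff (by positivity), ← Real.rpow_natCast, ← Real.rpow_add hc]; norm_num
  have : cc * h2 x = Vp x * (cc * h0 x) + (1 / 4) * (cc * h0 x) := by
    rw [h2, h0, Vp, e1]; ring
  rw [psi2, psi, this]
  push_cast
  ring

theorem conj_isH1v {φ φ' : ℝ → ℂ} (h : IsH1v φ φ') :
    IsH1v (fun x => conj (φ x)) (fun x => conj (φ' x)) := by
  refine ⟨?_, ?_, fun a b => ?_⟩
  · exact h.1.star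
  · exact h.2.1.star
  · rw [← map_sub, h.2.2 a b, intervalIntegral.intervalIntegral_eq_integral_uIoc,
      intervalIntegral.intervalIntegral_eq_integral_uIoc, integral_conj]
    split_ifs <;> simp

theorem isEigenfunction_psi : IsEigenfunction Vp psi (-(1 / 4)) := by
  refine ⟨psi1, isH1v_psi, fun φ φ' hφ => ?_⟩
  have hc := conj_isH1v hφ
  have key := ibp hc acv_psi1 psi1_mem psi2_mem
  have i1 : Integrable (fun x => conj (φ x) * psi x) volume := hc.1.integrable_mul psi_mem
  have i2 : Integrable (fun x => conj (φ x) * psi2 x) volume := hc.1.integrable_mul psi2_mem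
  have e : ∀ x, (Vp x : ℂ) * (conj (φ x) * psi x) =
      conj (φ x) * psi2 x - (1 / 4) * (conj (φ x) * psi x) := by
    intro x
    rw [psi_eq x]
    ring
  simp_rw [e]
  rw [integral_sub i2 (i1.const_mul _), integral_const_mul]
  push_cast
  linear_combination key

theorem psi_norm : ∫ x, conj (psi x) * psi x = 1 := by
  have e : ∀ x, conj (psi x) * psi x = (((Real.pi⁻¹ * (1 / Real.cosh x)) : ℝ) : ℂ) := by
    intro x
    rw [psi, Complex.conj_ofReal, ← Complex.ofReal_mul, ← h0_sq, ← cc_sq]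
    congr 1
    ring
  simp_rw [e]
  rw [integral_complex_ofReal, integral_const_mul, integral_sech,
    inv_mul_cancel₀ Real.pi_pos.ne', Complex.ofReal_one]

theorem lower' (L : ℝ) (hL : LTBound 1 L) : 4 / (3 * √3 * Real.pi) ≤ L := by
  have key := hL Vp Vp_memLp 1 (fun _ => psi) (fun _ => -(1 / 4))
    (fun _ => isEigenfunction_psi) (fun _ => by norm_num) (fun i j => by
      rw [Subsingleton.elim i j, if_pos rfl]
      exact psi_norm)
  rw [integral_Vp] at key
  simp only [Finset.univ_unique, Finset.sum_const, Finset.card_singleton, one_smul,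
    Real.rpow_one] at key
  rw [abs_of_neg (by norm_num)] at key
  have h3 : 0 < √3 := Real.sqrt_pos.2 (by norm_num)
  have hpi := Real.pi_pos
  rw [div_le_iff₀ (by positivity)]
  nlinarith

end Pool.Agent.LT.Low

namespace Pool.Agent.LT

theorem lower : LowerStmt := Low.lower'

end Pool.Agent.LT
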