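import Pool.Agent.LT.KinInf
import Pool.Agent.LT.Dens
import Pool.Agent.LT.Lower

/-!
# The one particle constant in dimension one is at most `π²/4`
-/

set_option autoImplicit false

namespace Pool.Agent.LT.KSharp

open MeasureTheory Filter Topology
open scoped ContDiff

theorem int_fin1 {F : Type} [NormedAddCommGroup F] [NormedSpace ℝ F] (f : ℝ → F) :
    ∫ y : Fin 1 → ℝ, f (y 0) = ∫ x, f x :=
  (volume_preserving_funUnique (Fin 1) ℝ).integral_comp
    (MeasurableEquiv.funUnique (Fin 1) ℝ).measurableEmbedding f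

theorem memLp_fin1 {f : ℝ → ℂ} (hf : MemLp f 2 volume) :
    MemLp (fun y : Fin 1 → ℝ => f (y 0)) 2 volume :=
  hf.comp_measurePreserving (volume_preserving_funUnique (Fin 1) ℝ)

/-- `cosh^(-1/2)` -/
noncomputable def U (y : Fin 1 → ℝ) : ℂ := ((Low.h0 (y 0) : ℝ) : ℂ)

/-- its derivative -/
noncomputable def G (y : Fin 1 → ℝ) : ℂ := ((Low.h1 (y 0) : ℝ) : ℂ)

theorem U_hasFDerivAt (y : Fin 1 → ℝ) :
    HasFDerivAt U ((ContinuousLinearMap.toSpanSingleton ℝ (G y)).comp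
      (ContinuousLinearMap.proj (R := ℝ) (φ := fun _ : Fin 1 => ℝ) 0)) y := by
  have h1 : HasDerivAt (fun x : ℝ => ((Low.h0 x : ℝ) : ℂ)) ((Low.h1 (y 0) : ℝ) : ℂ) (y 0) :=
    (Low.hasDerivAt_h0 (y 0)).ofReal_comp
  have h2 : HasFDerivAt (fun y : Fin 1 → ℝ => y 0)
      (ContinuousLinearMap.proj (R := ℝ) (φ := fun _ : Fin 1 => ℝ) 0) y :=
    (ContinuousLinearMap.proj (R := ℝ) (φ := fun _ : Fin 1 => ℝ) 0).hasFDerivAt
  exact HasFDerivAt.comp (g := fun x : ℝ => ((Low.h0 x : ℝ) : ℂ)) (f := fun y : Fin 1 → ℝ => y 0)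
    y h1.hasFDerivAt h2

theorem U_cont : Continuous U :=
  Complex.continuous_ofReal.comp (Low.h0_cont.comp (continuous_apply 0))

theorem G_cont : Continuous G :=
  Complex.continuous_ofReal.comp (Low.h1_cont.comp (continuous_apply 0))

theorem U_mem : MemLp U 2 volume :=
  memLp_fin1 (Low.memLp_of_le_h0 (g := fun x => ((Low.h0 x : ℝ) : ℂ))
    (Complex.continuous_ofReal.comp Low.h0_cont) fun x => by
      rw [Complex.norm_real, Real.norm_eq_abs, abs_of_pos (Low.h0_pos x)])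

theorem G_mem : MemLp G 2 volume :=
  memLp_fin1 (Low.memLp_of_le_h0 (g := fun x => ((Low.h1 x : ℝ) : ℂ))
    (Complex.continuous_ofReal.comp Low.h1_cont) fun x => by
      rw [Complex.norm_real]; exact Low.abs_h1_le x)

theorem U_isH1d : IsH1d U (fun _ => G) := by
  refine ⟨U_mem, fun _ => G_mem, ?_⟩
  intro i φ hφ
  have hi : i = 0 := Subsingleton.elim _ _
  subst hi
  have hd : ∀ y, fderiv ℝ U y (Pi.single 0 1) = G y := by
    intro y
    rw [(U_hasFDerivAt y).fderiv]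
    simp [ContinuousLinearMap.proj_apply]
  have hcφ : Continuous fun x => fderiv ℝ φ x (Pi.single 0 1) :=
    (hφ.1.continuous_fderiv (by simp)).clm_apply continuous_const
  have hsφ : HasCompactSupport fun x => fderiv ℝ φ x (Pi.single 0 1) := by
    refine (hφ.2.fderiv ℝ).mono fun x hx => ?_
    by_contra hn
    apply hx
    have : fderiv ℝ φ x = 0 := by by_contra h; exact hn h
    simp [this]
  have := integral_mul_fderiv_eq_neg_fderiv_mul_of_integrable (μ := (volume : Measure (Fin 1 → ℝ)))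
    (f := U) (g := φ) (v := Pi.single 0 1) ?_ ?_ ?_
    (fun x _ => (U_hasFDerivAt x).differentiableAt)
    (fun x _ => (hφ.1.differentiable (by simp)) x)
  · simp_rw [hd] at this
    exact this
  · simp_rw [hd]
    exact (G_cont.mul hφ.1.continuous).integrable_of_hasCompactSupport hφ.2.mul_left
  · exact (U_cont.mul hcφ).integrable_of_hasCompactSupport hsφ.mul_left
  · exact (U_cont.mul hφ.1.continuous).integrable_of_hasCompactSupport hφ.2.mul_left

theorem U_sq (y : Fin 1 → ℝ) : ‖U y‖ ^ 2 = 1 / Real.cosh (y 0) := by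
  rw [U, Complex.norm_real, Real.norm_eq_abs, sq_abs, sq, Low.h0_sq]

theorem int_U : ∫ y, ‖U y‖ ^ 2 = Real.pi := by
  simp_rw [U_sq]
  rw [int_fin1 (fun x : ℝ => 1 / Real.cosh x), Low.integral_sech]

theorem h1_sq (x : ℝ) : Low.h1 x ^ 2 = 1 / 4 * (1 / Real.cosh x - 1 / Real.cosh x ^ 3) := by
  have hc := Real.cosh_pos x
  have e1 : (Real.cosh x ^ (-(3 / 2) : ℝ)) ^ 2 = 1 / Real.cosh x ^ 3 := by
    rw [← Real.rpow_natCast, ← Real.rpow_mul hc.le]
    norm_num
  rw [Low.h1, mul_pow, mul_pow, e1]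
  have e4 : Real.sinh x ^ 2 = Real.cosh x ^ 2 - 1 := by
    have := Real.cosh_sq x
    linarith
  rw [e4]
  field_simp
  ring

theorem int_G : ∫ y, ‖G y‖ ^ 2 = Real.pi / 8 := by
  have : ∀ y : Fin 1 → ℝ, ‖G y‖ ^ 2 = 1 / 4 * (1 / Real.cosh (y 0) - 1 / Real.cosh (y 0) ^ 3) := by
    intro y
    rw [G, Complex.norm_real, Real.norm_eq_abs, sq_abs, h1_sq]
  simp_rw [this]
  rw [int_fin1 (fun x : ℝ => 1 / 4 * (1 / Real.cosh x - 1 / Real.cosh x ^ 3)), integral_const_mul,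
    integral_sub Low.integrable_sech Low.integrable_sech3, Low.integral_sech, Low.integral_sech3]
  ring

/-- the weight `1/cosh` -/
noncomputable def w (y : Fin 1 → ℝ) : ℝ := 1 / Real.cosh (y 0)

theorem w_cont : Continuous w :=
  continuous_const.div (Real.continuous_cosh.comp (continuous_apply 0))
    fun _ => (Real.cosh_pos _).ne'

theorem w_nonneg (y : Fin 1 → ℝ) : 0 ≤ w y := by
  have := Real.cosh_pos (y 0)
  unfold w
  positivity

theorem w_le (y : Fin 1 → ℝ) : w y ≤ 1 := by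
  rw [w, div_le_one (Real.cosh_pos _)]
  exact Real.one_le_cosh _

theorem w_mul_mem {f : (Fin 1 → ℝ) → ℂ} (hf : MemLp f 2 volume) :
    MemLp (fun y => (w y : ℂ) * f y) 2 volume := by
  refine hf.mono ((Complex.continuous_ofReal.comp w_cont).aestronglyMeasurable.mul
    hf.aestronglyMeasurable) (Eventually.of_forall fun y => ?_)
  rw [norm_mul, Complex.norm_real, Real.norm_eq_abs, abs_of_nonneg (w_nonneg y)]
  exact mul_le_of_le_one_left (norm_nonneg _) (w_le y)

theorem int_wU : ∫ y, ‖(w y : ℂ) * U y‖ ^ 2 = Real.pi / 2 := by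
  have : ∀ y : Fin 1 → ℝ, ‖(w y : ℂ) * U y‖ ^ 2 = 1 / Real.cosh (y 0) ^ 3 := by
    intro y
    have hc := Real.cosh_pos (y 0)
    rw [norm_mul, mul_pow, U_sq, Complex.norm_real, Real.norm_eq_abs, sq_abs, w]
    field_simp
  simp_rw [this]
  rw [int_fin1 (fun x : ℝ => 1 / Real.cosh x ^ 3), Low.integral_sech3]

/-- `3 w² r² ≤ 2 w³ + r⁶`, `r = ‖f‖` -/
theorem amgm {a r : ℝ} (ha : 0 ≤ a) (_hr : 0 ≤ r) : 3 * (a ^ 2 * r ^ 2) ≤ 2 * a ^ 3 + r ^ 6 := by
  have h1 : 2 * a ^ 3 + r ^ 6 - 3 * (a ^ 2 * r ^ 2) = (a - r ^ 2) ^ 2 * (2 * a + r ^ 2) := by ring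
  have h2 : 0 ≤ (a - r ^ 2) ^ 2 * (2 * a + r ^ 2) := by positivity
  linarith

theorem six_lower {f : (Fin 1 → ℝ) → ℂ} (hf : TestFn 1 f) :
    3 * (∫ y, ‖(w y : ℂ) * f y‖ ^ 2) - Real.pi ≤ ∫ y, ‖f y‖ ^ 6 := by
  have hw3 : ∫ y, w y ^ 3 = Real.pi / 2 := by
    have : ∀ y : Fin 1 → ℝ, w y ^ 3 = 1 / Real.cosh (y 0) ^ 3 := by
      intro y
      rw [w, div_pow, one_pow]
    simp_rw [this]
    rw [int_fin1 (fun x : ℝ => 1 / Real.cosh x ^ 3), Low.integral_sech3]
  have hw3i : Integrable fun y : Fin 1 → ℝ => w y ^ 3 := by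
    by_contra h
    rw [integral_undef h] at hw3
    have := Real.pi_pos
    linarith
  have i1 : Integrable fun y => ‖(w y : ℂ) * f y‖ ^ 2 := by
    refine Continuous.integrable_of_hasCompactSupport ?_ ?_
    · exact ((Complex.continuous_ofReal.comp w_cont).mul hf.1.continuous).norm.pow 2
    · have h1 : HasCompactSupport fun y => (w y : ℂ) * f y := hf.2.mul_left
      exact h1.comp_left (g := fun z : ℂ => ‖z‖ ^ 2) (by simp)
  have i2 : Integrable fun y => ‖f y‖ ^ 6 := by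
    refine Continuous.integrable_of_hasCompactSupport (hf.1.continuous.norm.pow 6) ?_
    exact hf.2.comp_left (g := fun z : ℂ => ‖z‖ ^ 6) (by simp)
  have key : ∫ y, 3 * ‖(w y : ℂ) * f y‖ ^ 2 ≤ ∫ y, (2 * w y ^ 3 + ‖f y‖ ^ 6) := by
    refine integral_mono (i1.const_mul 3) ((hw3i.const_mul 2).add i2) fun y => ?_
    have := amgm (w_nonneg y) (norm_nonneg (f y))
    simp only
    rw [norm_mul, mul_pow, Complex.norm_real, Real.norm_eq_abs, sq_abs]
    exact this
  rw [integral_const_mul, integral_add (hw3i.const_mul 2) i2, integral_const_mul, hw3] at key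
  linarith

/-- the quotient of a test function, transferred to `EuclideanSpace` -/
theorem quot_mem {f : (Fin 1 → ℝ) → ℂ} (hf : TestFn 1 f) (h0 : f ≠ 0) :
    (∫ y, ‖fderiv ℝ f y (Pi.single 0 1)‖ ^ 2) * (∫ y, ‖f y‖ ^ 2) ^ 2 / (∫ y, ‖f y‖ ^ 6) ∈
      kinSet1 1 := by
  set L : EuclideanSpace ℝ (Fin 1) ≃L[ℝ] (Fin 1 → ℝ) := EuclideanSpace.equiv (Fin 1) ℝ with hL
  have hmp : MeasurePreserving (WithLp.toLp 2 : (Fin 1 → ℝ) → EuclideanSpace ℝ (Fin 1)) :=
    PiLp.volume_preserving_toLp (Fin 1)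
  have hint : ∀ (g : (Fin 1 → ℝ) → ℝ), ∫ x, g (L x) = ∫ y, g y := by
    intro g
    exact (hmp.integral_comp (MeasurableEquiv.toLp 2 (Fin 1 → ℝ)).measurableEmbedding
      (fun x => g (L x))).symm
  have hfd : ∀ x, fderiv ℝ (fun x => f (L x)) x (EuclideanSpace.single 0 (1 : ℝ)) =
      fderiv ℝ f (L x) (Pi.single 0 1) := by
    intro x
    have h2 : HasFDerivAt (fun x => f (L x))
        ((fderiv ℝ f (L x)).comp (L : EuclideanSpace ℝ (Fin 1) →L[ℝ] (Fin 1 → ℝ))) x :=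
      ((hf.1.differentiable (by simp)) (L x)).hasFDerivAt.comp x L.hasFDerivAt
    rw [h2.fderiv]
    simp only [ContinuousLinearMap.coe_comp, Function.comp_apply, ContinuousLinearEquiv.coe_coe]
    congr 1
  refine ⟨fun x => f (L x), ?_, hf.2.comp_homeomorph L.toHomeomorph, ?_, ?_⟩
  · exact (hf.1.of_le (by simp)).comp L.contDiff
  · intro h
    apply h0
    ext y
    have := congrFun h (L.symm y)
    simpa using this
  · simp only [Fin.isValue, Finset.univ_unique, Fin.default_eq_zero, Finset.sum_singleton,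
      Nat.cast_one, div_one]
    rw [hint (fun y => ‖f y‖ ^ 2), hint (fun y => ‖f y‖ ^ ((2 : ℝ) + 4))]
    have e1 : ∫ x, ‖fderiv ℝ (fun x => f (L x)) x (EuclideanSpace.single 0 (1 : ℝ))‖ ^ 2 =
        ∫ y, ‖fderiv ℝ f y (Pi.single 0 1)‖ ^ 2 := by
      simp_rw [hfd]
      exact hint (fun y => ‖fderiv ℝ f y (Pi.single 0 1)‖ ^ 2)
    rw [e1, Real.rpow_two]
    congr 2
    ext y
    rw [show ((2 : ℝ) + 4) = ((6 : ℕ) : ℝ) by norm_num, Real.rpow_natCast]

end Pool.Agent.LT.KSharp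

namespace Pool.Agent.LT

open MeasureTheory Filter Topology KSharp

theorem kinSet1_one_le (hd : DensStmt) : sInf (kinSet1 1) ≤ Real.pi ^ 2 / 4 := by
  have hε : ∀ n : ℕ, (0 : ℝ) < 1 / ((n : ℝ) + 1) := fun n => by positivity
  choose f hf hfu hfg using fun n : ℕ => hd 1 U (fun _ => G) U_isH1d _ (hε n)
  have hε0 : Tendsto (fun n : ℕ => 1 / ((n : ℝ) + 1)) atTop (𝓝 0) :=
    tendsto_one_div_add_atTop_nhds_zero_nat
  have hfm : ∀ n, MemLp (f n) 2 volume := fun n =>
    (hf n).1.continuous.memLp_of_hasCompactSupport (hf n).2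
  have hgm : ∀ n, MemLp (fun y => fderiv ℝ (f n) y (Pi.single 0 1)) 2 volume := fun n =>
    (kinetic_isH1d ((hf n).1.of_le (by simp)) (hf n).2).2.1 0
  have hA : Tendsto (fun n => ∫ y, ‖f n y‖ ^ 2) atTop (𝓝 Real.pi) := by
    have := kinH1_sq U_mem hfm hfu hε0
    rwa [int_U] at this
  have hT : Tendsto (fun n => ∫ y, ‖fderiv ℝ (f n) y (Pi.single 0 1)‖ ^ 2) atTop
      (𝓝 (Real.pi / 8)) := by
    have := kinH1_sq G_mem hgm (fun n => hfg n 0) hε0
    rwa [int_G] at this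
  have hB : Tendsto (fun n => ∫ y, ‖(w y : ℂ) * f n y‖ ^ 2) atTop (𝓝 (Real.pi / 2)) := by
    have := kinH1_sq (w_mul_mem U_mem) (fun n => w_mul_mem (hfm n)) (fun n => ?_) hε0
    · rwa [int_wU] at this
    · refine (integral_mono ?_ ?_ fun y => ?_).trans (hfu n)
      · exact ((w_mul_mem U_mem).sub (w_mul_mem (hfm n))).integrable_norm_pow (by norm_num)
      · exact (U_mem.sub (hfm n)).integrable_norm_pow (by norm_num)
      · simp only
        rw [← mul_sub, norm_mul, mul_pow, Complex.norm_real, Real.norm_eq_abs, sq_abs]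
        have h1 := w_nonneg y
        have h2 := w_le y
        have h3 : w y ^ 2 ≤ 1 := by nlinarith
        exact mul_le_of_le_one_left (by positivity) h3
  have hpi := Real.pi_pos
  have hlim : Tendsto (fun n => (∫ y, ‖fderiv ℝ (f n) y (Pi.single 0 1)‖ ^ 2) *
      (∫ y, ‖f n y‖ ^ 2) ^ 2 / (3 * (∫ y, ‖(w y : ℂ) * f n y‖ ^ 2) - Real.pi)) atTop
      (𝓝 (Real.pi ^ 2 / 4)) := by
    have h1 := (hT.mul (hA.pow 2)).div ((hB.const_mul 3).sub_const Real.pi)
      (by intro h; linarith)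
    have e : Real.pi / 8 * Real.pi ^ 2 / (3 * (Real.pi / 2) - Real.pi) = Real.pi ^ 2 / 4 := by
      field_simp
      ring
    rwa [e] at h1
  refine ge_of_tendsto hlim ?_
  have hev : ∀ᶠ n in atTop, 0 < 3 * (∫ y, ‖(w y : ℂ) * f n y‖ ^ 2) - Real.pi := by
    have h1 := (hB.const_mul 3).sub_const Real.pi
    exact h1.eventually (lt_mem_nhds (by linarith))
  filter_upwards [hev] with n hn
  have h6 := six_lower (hf n)
  have h0 : f n ≠ 0 := by
    intro h
    rw [h] at hn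
    simp only [Pi.zero_apply, mul_zero, norm_zero] at hn
    norm_num at hn
    linarith
  have hmem := quot_mem (hf n) h0
  have hb : BddBelow (kinSet1 1) := (kinSet_bddBelow 1).mono (kinSet1_subset one_pos)
  refine (csInf_le hb hmem).trans ?_
  have hnum : 0 ≤ (∫ y, ‖fderiv ℝ (f n) y (Pi.single 0 1)‖ ^ 2) * (∫ y, ‖f n y‖ ^ 2) ^ 2 := by
    refine mul_nonneg (integral_nonneg fun y => by positivity) (by positivity)
  exact div_le_div_of_nonneg_left hnum hn h6

end Pool.Agent.LT
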