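import Pool.Agent.LT.KinH1

/-!
# The kinetic inequality for orthonormal families of compactly supported `C¹` functions on `ℝ^d`
-/

set_option autoImplicit false

namespace Pool.Agent.LT

open MeasureTheory Matrix Finset
open scoped ComplexConjugate ComplexOrder ContDiff

/-- `d/(d+2) (2π)² / ω_d^(2/d)` -/
noncomputable def kcl (d : ℕ) : ℝ :=
  (d : ℝ) / ((d : ℝ) + 2) * (2 * Real.pi) ^ 2
    / ((MeasureTheory.volume (Metric.ball (0 : EuclideanSpace ℝ (Fin d)) 1)).toReal)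
        ^ (2 / (d : ℝ))

theorem kinetic_isH1d {d : ℕ} {u : (Fin d → ℝ) → ℂ} (hu : ContDiff ℝ 1 u)
    (hs : HasCompactSupport u) : IsH1d u (fun i y => fderiv ℝ u y (Pi.single i 1)) := by
  have hcu : ∀ v : Fin d → ℝ, Continuous fun x => fderiv ℝ u x v := fun v =>
    (hu.continuous_fderiv (by simp)).clm_apply continuous_const
  have hsu : ∀ v : Fin d → ℝ, HasCompactSupport fun x => fderiv ℝ u x v := by
    intro v
    refine (hs.fderiv ℝ).mono fun x hx => ?_
    by_contra hn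
    apply hx
    have : fderiv ℝ u x = 0 := by by_contra h; exact hn h
    simp [this]
  refine ⟨hu.continuous.memLp_of_hasCompactSupport hs, fun i =>
    (hcu _).memLp_of_hasCompactSupport (hsu _), ?_⟩
  intro i φ hφ
  have hcφ : Continuous fun x => fderiv ℝ φ x (Pi.single i 1) :=
    (hφ.1.continuous_fderiv (by simp)).clm_apply continuous_const
  refine integral_mul_fderiv_eq_neg_fderiv_mul_of_integrable ?_ ?_ ?_
    (fun x _ => (hu.differentiable (by simp)) x) (fun x _ => (hφ.1.differentiable (by simp)) x)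
  · exact ((hcu _).mul hφ.1.continuous).integrable_of_hasCompactSupport (hsu _).mul_right
  · exact (hu.continuous.mul hcφ).integrable_of_hasCompactSupport hs.mul_right
  · exact (hu.continuous.mul hφ.1.continuous).integrable_of_hasCompactSupport hs.mul_right

/-- the constant: `λ = (c (d+2)/2)^(-2/d) = (3/4)^(1/d) (2π)²/ω_d^(2/d)`, `c = (2/√3) L^cl`. -/
theorem kinetic_const (d : ℕ) (hd : 0 < d) :
    (d : ℝ) / ((d : ℝ) + 2) * (2 / √3 * Lcl 1 d * (((d : ℝ) + 2) / 2)) ^ (-(2 / (d : ℝ))) =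
      (3 / 4 : ℝ) ^ (1 / (d : ℝ)) * kcl d := by
  have hd' : (0 : ℝ) < d := by exact_mod_cast hd
  have hG : 0 < Real.Gamma ((d : ℝ) / 2 + 1) := Real.Gamma_pos_of_pos (by positivity)
  have hpi := Real.pi_pos
  have h3 : (0 : ℝ) < √3 := by positivity
  haveI : Nonempty (Fin d) := ⟨⟨0, hd⟩⟩
  -- volume of the ball
  have hω : (MeasureTheory.volume (Metric.ball (0 : EuclideanSpace ℝ (Fin d)) 1)).toReal =
      Real.pi ^ ((d : ℝ) / 2) / Real.Gamma ((d : ℝ) / 2 + 1) := by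
    rw [EuclideanSpace.volume_ball]
    simp only [ENNReal.ofReal_one, one_pow, one_mul, Fintype.card_fin]
    rw [ENNReal.toReal_ofReal (by positivity)]
    congr 1
    rw [Real.sqrt_eq_rpow, ← Real.rpow_natCast, ← Real.rpow_mul hpi.le]
    congr 1
    ring
  set om : ℝ := Real.pi ^ ((d : ℝ) / 2) / Real.Gamma ((d : ℝ) / 2 + 1) with hωd
  have hω0 : 0 < om := by positivity
  have hbase : 2 / √3 * Lcl 1 d * (((d : ℝ) + 2) / 2) = 2 / √3 * (om / (2 * Real.pi) ^ (d : ℝ)) := by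
    rw [Lcl, hωd]
    have e1 : Real.Gamma (1 + 1) = 1 := by
      rw [one_add_one_eq_two]; exact Real.Gamma_two
    have e2 : Real.Gamma (1 + 1 + (d : ℝ) / 2) = ((d : ℝ) / 2 + 1) * Real.Gamma ((d : ℝ) / 2 + 1) := by
      rw [← Real.Gamma_add_one (by positivity)]
      congr 1
      ring
    rw [e1, e2]
    have e3 : (2 * Real.pi) ^ (d : ℝ) = (4 * Real.pi) ^ ((d : ℝ) / 2) * Real.pi ^ ((d : ℝ) / 2) := by
      rw [← Real.mul_rpow (by positivity) (by positivity)]
      have : 4 * Real.pi * Real.pi = (2 * Real.pi) ^ (2 : ℝ) := by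
        rw [Real.rpow_two]; ring
      rw [this, ← Real.rpow_mul (by positivity)]
      congr 1
      ring
    rw [e3]
    have hp : 0 < Real.pi ^ ((d : ℝ) / 2) := by positivity
    have h4 : 0 < (4 * Real.pi) ^ ((d : ℝ) / 2) := by positivity
    field_simp
  rw [hbase, kcl, hω]
  have h2 : (0:ℝ) < 2 / √3 := by positivity
  rw [Real.mul_rpow h2.le (by positivity), Real.div_rpow hω0.le (by positivity)]
  have e4 : (2 / √3 : ℝ) ^ (-(2 / (d : ℝ))) = (3 / 4 : ℝ) ^ (1 / (d : ℝ)) := by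
    have : (3 / 4 : ℝ) = (2 / √3) ^ (-(2 : ℝ)) := by
      rw [Real.rpow_neg h2.le, Real.rpow_two, div_pow, Real.sq_sqrt (by norm_num)]
      norm_num
    rw [this, ← Real.rpow_mul h2.le]
    congr 1
    ring
  have e5 : ((2 * Real.pi) ^ (d : ℝ)) ^ (-(2 / (d : ℝ))) = ((2 * Real.pi) ^ 2)⁻¹ := by
    rw [← Real.rpow_mul (by positivity)]
    have : (d : ℝ) * -(2 / (d : ℝ)) = -2 := by field_simp
    rw [this, Real.rpow_neg (by positivity), Real.rpow_two]
  have e6 : om ^ (-(2 / (d : ℝ))) = (om ^ (2 / (d : ℝ)))⁻¹ := Real.rpow_neg hω0.le _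
  rw [e4, e5, e6]
  have hω1 : 0 < om ^ (2 / (d : ℝ)) := by positivity
  field_simp

/-- **Kinetic inequality** on `Fin d → ℝ` for orthonormal families in `H¹` whose density is
continuous with compact support. -/
theorem kinetic_pi (hk : KinH1Stmt) (h1 : ∀ d : ℕ, 0 < d → D1 d) (d : ℕ) (hd : 0 < d) (N : ℕ)
    (ψ : Fin N → (Fin d → ℝ) → ℂ) (g : Fin N → Fin d → (Fin d → ℝ) → ℂ)
    (hψ : ∀ j, IsH1d (ψ j) (g j))
    (ho : ∀ i j, ∫ y, conj (ψ i y) * ψ j y = if i = j then 1 else 0)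
    (hc : ∀ j, Continuous (ψ j)) (hs : ∀ j, HasCompactSupport (ψ j)) :
    (3 / 4 : ℝ) ^ (1 / (d : ℝ)) * kcl d * ∫ y, (∑ j, ‖ψ j y‖ ^ 2) ^ (1 + 2 / (d : ℝ)) ≤
      ∑ j, ∑ i, ∫ y, ‖g j i y‖ ^ 2 := by
  have hd' : (0 : ℝ) < d := by exact_mod_cast hd
  set ρ : (Fin d → ℝ) → ℝ := fun y => ∑ j, ‖ψ j y‖ ^ 2 with hρ
  have hρ0 : ∀ y, 0 ≤ ρ y := fun y => Finset.sum_nonneg fun j _ => by positivity
  have hρc : Continuous ρ := by
    refine continuous_finsetSum _ fun j _ => ?_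
    exact (hc j).norm.pow 2
  have hρs : HasCompactSupport ρ := by
    have : ∀ j ∈ (Finset.univ : Finset (Fin N)), HasCompactSupport fun y => ‖ψ j y‖ ^ 2 := by
      intro j _
      refine (hs j).comp_left (g := fun z : ℂ => ‖z‖ ^ 2) (by simp)
    have h := HasCompactSupport.finset_sum this
    have h2 : (∑ j, fun y => ‖ψ j y‖ ^ 2) = ρ := by
      ext y
      simp [hρ]
    rwa [h2] at h
  set c : ℝ := 2 / √3 * Lcl 1 d with hcdef
  have hc0 : 0 < c := by
    have : 0 < Lcl 1 d := by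
      unfold Lcl
      have h1 : 0 < Real.Gamma (1 + 1) := Real.Gamma_pos_of_pos (by norm_num)
      have h2 : 0 < Real.Gamma (1 + 1 + (d : ℝ) / 2) := Real.Gamma_pos_of_pos (by positivity)
      have := Real.pi_pos
      positivity
    positivity
  set lam : ℝ := (c * (((d : ℝ) + 2) / 2)) ^ (-(2 / (d : ℝ))) with hlam
  have hlam0 : 0 < lam := by positivity
  set W : (Fin d → ℝ) → ℝ := fun y => lam * ρ y ^ (2 / (d : ℝ)) with hW
  have hWc : Continuous W :=
    continuous_const.mul (hρc.rpow_const fun _ => Or.inr (by positivity))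
  have hWs : HasCompactSupport W := by
    refine hρs.comp_left (g := fun t : ℝ => lam * t ^ (2 / (d : ℝ))) ?_
    have : (2 / (d : ℝ)) ≠ 0 := by positivity
    simp [Real.zero_rpow this]
  have hW0 : ∀ y, 0 ≤ W y := fun y => by
    have := hρ0 y
    simp only [hW]
    positivity
  have key := (hk d hd (h1 d hd) N ψ g hψ ho W (hWc.memLp_of_hasCompactSupport hWs) hW0).2
  have e1 : ∀ y, W y * ∑ j, ‖ψ j y‖ ^ 2 = lam * ρ y ^ (1 + 2 / (d : ℝ)) := by
    intro y
    have h2 : ρ y ^ (1 + 2 / (d : ℝ)) = ρ y ^ (2 / (d : ℝ)) * ρ y := by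
      rw [add_comm, Real.rpow_add_one' (hρ0 y) (by positivity)]
    simp only [hW]
    rw [h2]
    ring
  have e2 : ∀ y, W y ^ (1 + (d : ℝ) / 2) = lam ^ (1 + (d : ℝ) / 2) * ρ y ^ (1 + 2 / (d : ℝ)) := by
    intro y
    simp only [hW]
    rw [Real.mul_rpow hlam0.le (Real.rpow_nonneg (hρ0 y) _), ← Real.rpow_mul (hρ0 y)]
    congr 2
    field_simp
    ring
  simp_rw [e1, e2] at key
  rw [integral_const_mul, integral_const_mul] at key
  set I : ℝ := ∫ y, ρ y ^ (1 + 2 / (d : ℝ)) with hI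
  -- `c λ^(1+d/2) = λ * 2/(d+2)`
  have e3 : c * lam ^ (1 + (d : ℝ) / 2) = lam * (2 / ((d : ℝ) + 2)) := by
    rw [Real.rpow_add hlam0, Real.rpow_one]
    have : lam ^ ((d : ℝ) / 2) = (c * (((d : ℝ) + 2) / 2))⁻¹ := by
      rw [hlam, ← Real.rpow_mul (by positivity)]
      have : -(2 / (d : ℝ)) * ((d : ℝ) / 2) = -1 := by field_simp
      rw [this, Real.rpow_neg_one]
    rw [this]
    field_simp
  have hconst := kinetic_const d hd
  rw [← hcdef, ← hlam] at hconst
  rw [← hconst]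
  have e4 : (d : ℝ) / ((d : ℝ) + 2) * lam * I = lam * I - c * lam ^ (1 + (d : ℝ) / 2) * I := by
    rw [e3]
    field_simp
    ring
  rw [e4]
  have e5 : c * (lam ^ (1 + (d : ℝ) / 2) * I) = c * lam ^ (1 + (d : ℝ) / 2) * I := by ring
  rw [e5] at key
  linarith

/-- **Kinetic inequality** for orthonormal families of `C¹` functions with compact support on
`EuclideanSpace ℝ (Fin d)`. -/
theorem kinetic_euclid (hk : KinH1Stmt) (h1 : ∀ d : ℕ, 0 < d → D1 d) (d : ℕ) (hd : 0 < d) (N : ℕ)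
    (u : Fin N → EuclideanSpace ℝ (Fin d) → ℂ)
    (hu : ∀ n, ContDiff ℝ 1 (u n) ∧ HasCompactSupport (u n))
    (ho : ∀ n m, ∫ x, star (u n x) * u m x = if n = m then (1 : ℂ) else 0) :
    (3 / 4 : ℝ) ^ (1 / (d : ℝ)) * kcl d * ∫ x, (∑ n, ‖u n x‖ ^ 2) ^ (1 + 2 / (d : ℝ)) ≤
      ∑ n, ∫ x, ∑ i : Fin d, ‖fderiv ℝ (u n) x (EuclideanSpace.single i (1 : ℝ))‖ ^ 2 := by
  set L : (Fin d → ℝ) ≃L[ℝ] EuclideanSpace ℝ (Fin d) :=
    (EuclideanSpace.equiv (Fin d) ℝ).symm with hL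
  have hLe : ∀ y, L y = WithLp.toLp 2 y := fun y => rfl
  have hmp : MeasurePreserving (WithLp.toLp 2 : (Fin d → ℝ) → EuclideanSpace ℝ (Fin d)) :=
    PiLp.volume_preserving_toLp (Fin d)
  have hint : ∀ {F : Type} [NormedAddCommGroup F] [NormedSpace ℝ F]
      (f : EuclideanSpace ℝ (Fin d) → F), ∫ y : Fin d → ℝ, f (L y) = ∫ x, f x := by
    intro F _ _ f
    exact hmp.integral_comp (MeasurableEquiv.toLp 2 (Fin d → ℝ)).measurableEmbedding f
  have hcd : ∀ n, ContDiff ℝ 1 (fun y => u n (L y)) := fun n => (hu n).1.comp L.contDiff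
  have hcs : ∀ n, HasCompactSupport (fun y => u n (L y)) := fun n =>
    (hu n).2.comp_homeomorph L.toHomeomorph
  have hfd : ∀ n y i, fderiv ℝ (fun y => u n (L y)) y (Pi.single i 1) =
      fderiv ℝ (u n) (L y) (EuclideanSpace.single i (1 : ℝ)) := by
    intro n y i
    have h2 : HasFDerivAt (fun y => u n (L y))
        ((fderiv ℝ (u n) (L y)).comp (L : (Fin d → ℝ) →L[ℝ] EuclideanSpace ℝ (Fin d))) y :=
      (((hu n).1.differentiable (by simp)) (L y)).hasFDerivAt.comp y L.hasFDerivAt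
    rw [h2.fderiv]
    simp only [ContinuousLinearMap.coe_comp, Function.comp_apply, ContinuousLinearEquiv.coe_coe]
    congr 1
  have key := kinetic_pi hk h1 d hd N (fun n y => u n (L y))
    (fun n i y => fderiv ℝ (fun y => u n (L y)) y (Pi.single i 1))
    (fun n => kinetic_isH1d (hcd n) (hcs n))
    (fun n m => by
      have := hint (fun x => star (u n x) * u m x)
      rw [ho n m] at this
      exact this)
    (fun n => (hcd n).continuous) hcs
  have e1 : ∫ y, (∑ n, ‖u n (L y)‖ ^ 2) ^ (1 + 2 / (d : ℝ)) =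
      ∫ x, (∑ n, ‖u n x‖ ^ 2) ^ (1 + 2 / (d : ℝ)) :=
    hint (fun x => (∑ n, ‖u n x‖ ^ 2) ^ (1 + 2 / (d : ℝ)))
  rw [e1] at key
  refine key.trans (le_of_eq ?_)
  refine Finset.sum_congr rfl fun n _ => ?_
  simp_rw [hfd]
  have e2 : ∀ i : Fin d, ∫ y, ‖fderiv ℝ (u n) (L y) (EuclideanSpace.single i (1 : ℝ))‖ ^ 2 =
      ∫ x, ‖fderiv ℝ (u n) x (EuclideanSpace.single i (1 : ℝ))‖ ^ 2 := fun i =>
    hint (fun x => ‖fderiv ℝ (u n) x (EuclideanSpace.single i (1 : ℝ))‖ ^ 2)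
  simp_rw [e2]
  rw [integral_finsetSum]
  intro i _
  have hcu : Continuous fun x => fderiv ℝ (u n) x (EuclideanSpace.single i (1 : ℝ)) :=
    ((hu n).1.continuous_fderiv (by simp)).clm_apply continuous_const
  have hsu : HasCompactSupport fun x => fderiv ℝ (u n) x (EuclideanSpace.single i (1 : ℝ)) := by
    refine ((hu n).2.fderiv ℝ).mono fun x hx => ?_
    by_contra hn
    apply hx
    have : fderiv ℝ (u n) x = 0 := by by_contra h; exact hn h
    simp [this]
  have hs2 : HasCompactSupport fun x =>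
      ‖fderiv ℝ (u n) x (EuclideanSpace.single i (1 : ℝ))‖ ^ 2 :=
    hsu.comp_left (g := fun z : ℂ => ‖z‖ ^ 2) (by simp)
  exact Continuous.integrable_of_hasCompactSupport (hcu.norm.pow 2) hs2

end Pool.Agent.LT
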