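import Pool.Agent.LT.Defs

/-!
# The dual (spectral) form of the sharp kinetic inequality: upper bound for `L_{1,1}`
-/

set_option autoImplicit false

namespace Pool.Agent.LT

open MeasureTheory Matrix Finset
open scoped ComplexConjugate ComplexOrder

/-- For `H = ℂ` the trace of the third power of the Gram matrix is `(∑ ‖v i‖²)³`. -/
lemma trace_gram_cube {N : ℕ} (v : Fin N → ℂ) :
    (Matrix.trace (gram v ^ 3)).re = (∑ i, ‖v i‖ ^ 2) ^ 3 := by
  have hg : gram v = Matrix.vecMulVec v (fun j => conj (v j)) := by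
    ext i j
    simp [gram, Matrix.vecMulVec_apply]
  have hd : (fun j => conj (v j)) ⬝ᵥ v = ((∑ i, ‖v i‖ ^ 2 : ℝ) : ℂ) := by
    simp only [dotProduct, Complex.conj_mul']
    push_cast
    rfl
  have h3 : gram v ^ 3 = (((∑ i, ‖v i‖ ^ 2 : ℝ) : ℂ) ^ 2) • gram v := by
    rw [pow_succ, pow_two, hg, Matrix.vecMulVec_mul_vecMulVec, hd,
      Matrix.vecMulVec_smul, Matrix.smul_mul, Matrix.vecMulVec_mul_vecMulVec, hd,
      Matrix.vecMulVec_smul, smul_smul, ← pow_two]
  have ht : Matrix.trace (gram v) = ((∑ i, ‖v i‖ ^ 2 : ℝ) : ℂ) := by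
    rw [hg, Matrix.trace_vecMulVec, dotProduct_comm, hd]
  rw [h3, Matrix.trace_smul, ht, smul_eq_mul]
  norm_cast

/-- Young's inequality with the sharp constant. -/
lemma young_sharp {a r : ℝ} (ha : 0 ≤ a) (hr : 0 ≤ r) :
    a * r - Real.pi ^ 2 / 4 * r ^ 3 ≤
      4 / (3 * √3 * Real.pi) * a ^ ((1 : ℝ) + 1 / 2) := by
  have hpi := Real.pi_pos
  have h3 : (0 : ℝ) < √3 := Real.sqrt_pos.mpr (by norm_num)
  have h3s : √3 ^ 2 = (3 : ℝ) := Real.sq_sqrt (by norm_num)
  set b := √a with hb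
  have hb0 : 0 ≤ b := Real.sqrt_nonneg a
  have hab : a = b ^ 2 := (Real.sq_sqrt ha).symm
  have hpow : a ^ ((1 : ℝ) + 1 / 2) = b ^ 3 := by
    rw [Real.rpow_add_of_nonneg ha (by norm_num) (by norm_num), Real.rpow_one,
      ← Real.sqrt_eq_rpow, ← hb, hab]
    ring
  rw [hpow]
  set y := √3 * Real.pi * r / 2 with hy
  have hy0 : 0 ≤ y := by positivity
  have hr' : r = 2 * y / (√3 * Real.pi) := by
    rw [hy]; field_simp
  have key : 0 ≤ (y - b) ^ 2 * (y + 2 * b) := by positivity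
  have hc : 0 < 2 / (√3 * Real.pi) := by positivity
  have e1 : a * r - Real.pi ^ 2 / 4 * r ^ 3 = 2 / (√3 * Real.pi) * (b ^ 2 * y - y ^ 3 / 3) := by
    rw [hr', hab]
    have h33 : √3 ^ 3 = 3 * √3 := by
      rw [pow_succ, h3s]
    field_simp
    rw [h3s]
    ring
  have e2 : 4 / (3 * √3 * Real.pi) * b ^ 3 = 2 / (√3 * Real.pi) * (2 / 3 * b ^ 3) := by
    field_simp
    ring
  rw [e1, e2]
  apply mul_le_mul_of_nonneg_left _ hc.le
  nlinarith [key]

theorem upper (hk : KinStmt) (h1 : Pos1Stmt) : UpperStmt := by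
  intro V hV N ψ E hE hneg horth
  choose ψ' hψ' hweak using hE
  -- the kinetic inequality
  have hmat : (1 - Matrix.of fun i j => ∫ x, inner ℂ (ψ j x) (ψ i x) :
      Matrix (Fin N) (Fin N) ℂ) = 0 := by
    ext i j
    have h : ∫ x, inner ℂ (ψ j x) (ψ i x) = if i = j then (1 : ℂ) else 0 := by
      have h2 := horth j i
      have h3 : (fun x => inner ℂ (ψ j x) (ψ i x)) = fun x => conj (ψ j x) * ψ i x := by
        funext x
        simp [mul_comm]
      rw [h3, h2]
      by_cases hij : i = j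
      · simp [hij]
      · rw [if_neg hij, if_neg (fun h => hij h.symm)]
    simp only [Matrix.sub_apply, Matrix.of_apply, Matrix.zero_apply, h, Matrix.one_apply]
    simp
  have hkin := hk ℂ (fun N v => h1 N v) N ψ ψ' (fun j => hψ' j)
    (by rw [hmat]; exact Matrix.PosSemidef.zero)
  simp only [trace_gram_cube] at hkin
  obtain ⟨hint, hle⟩ := hkin
  set ρ : ℝ → ℝ := fun x => ∑ i, ‖ψ i x‖ ^ 2 with hρ
  have hρ0 : ∀ x, 0 ≤ ρ x := fun x => Finset.sum_nonneg fun i _ => by positivity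
  have hρm : AEStronglyMeasurable ρ volume := by
    rw [hρ]
    apply Finset.aestronglyMeasurable_fun_sum
    intro i _
    exact ((hψ' i).1.1.norm.pow 2)
  -- `|V|^{3/2}` is integrable
  have hp0 : ENNReal.ofReal ((1 : ℝ) + 1 / 2) ≠ 0 := by
    simp only [ne_eq, ENNReal.ofReal_eq_zero, not_le]; norm_num
  have hpt : ENNReal.ofReal ((1 : ℝ) + 1 / 2) ≠ ⊤ := ENNReal.ofReal_ne_top
  have hVi : Integrable (fun x => |V x| ^ ((1 : ℝ) + 1 / 2)) volume := by
    have h := hV.integrable_norm_rpow hp0 hpt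
    rw [ENNReal.toReal_ofReal (by norm_num)] at h
    simpa only [Real.norm_eq_abs] using h
  have hVneg : Integrable (fun x => max (-V x) 0 ^ ((1 : ℝ) + 1 / 2)) volume := by
    apply hVi.mono'
    · exact (((hV.1.neg.aemeasurable.max aemeasurable_const).pow_const _)).aestronglyMeasurable
    · refine Filter.Eventually.of_forall fun x => ?_
      rw [Real.norm_eq_abs, abs_of_nonneg (by positivity)]
      apply Real.rpow_le_rpow (le_max_right _ _) _ (by norm_num)
      exact max_le (neg_le_abs _) (abs_nonneg _)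
  -- `|V| ρ` is integrable
  have hdom : Integrable (fun x => |V x| * ρ x) volume := by
    have hb : Integrable (fun x => 4 / (3 * √3 * Real.pi) * |V x| ^ ((1 : ℝ) + 1 / 2) +
        Real.pi ^ 2 / 4 * ρ x ^ 3) volume := (hVi.const_mul _).add (hint.const_mul _)
    apply hb.mono'
    · exact (hV.1.norm.mul hρm)
    · refine Filter.Eventually.of_forall fun x => ?_
      rw [Real.norm_eq_abs, abs_of_nonneg (mul_nonneg (abs_nonneg _) (hρ0 x))]
      have := young_sharp (abs_nonneg (V x)) (hρ0 x)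
      linarith
  have hVj : ∀ j, Integrable (fun x => V x * ‖ψ j x‖ ^ 2) volume := by
    intro j
    apply hdom.mono'
    · exact hV.1.mul ((hψ' j).1.1.norm.pow 2)
    · refine Filter.Eventually.of_forall fun x => ?_
      rw [norm_mul, Real.norm_eq_abs, Real.norm_eq_abs, abs_of_nonneg (by positivity : (0:ℝ) ≤ ‖ψ j x‖ ^ 2)]
      apply mul_le_mul_of_nonneg_left _ (abs_nonneg _)
      exact Finset.single_le_sum (f := fun i => ‖ψ i x‖ ^ 2) (fun i _ => by positivity)
        (Finset.mem_univ j)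
  -- energies
  have hEj : ∀ j, E j = (∫ x, ‖ψ' j x‖ ^ 2) + ∫ x, V x * ‖ψ j x‖ ^ 2 := by
    intro j
    have h := hweak j (ψ j) (ψ' j) (hψ' j)
    have hn := horth j j
    rw [if_pos rfl] at hn
    rw [hn, mul_one] at h
    have e1 : (fun x => conj (ψ' j x) * ψ' j x) = fun x => ((‖ψ' j x‖ ^ 2 : ℝ) : ℂ) := by
      funext x
      rw [Complex.conj_mul']
      push_cast
      rfl
    have e2 : (fun x => (V x : ℂ) * (conj (ψ j x) * ψ j x)) =
        fun x => ((V x * ‖ψ j x‖ ^ 2 : ℝ) : ℂ) := by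
      funext x
      rw [Complex.conj_mul']
      push_cast
      rfl
    rw [e1, e2] at h
    have i1 : ∫ x, ((‖ψ' j x‖ ^ 2 : ℝ) : ℂ) = ((∫ x, ‖ψ' j x‖ ^ 2 : ℝ) : ℂ) := integral_ofReal
    have i2 : ∫ x, ((V x * ‖ψ j x‖ ^ 2 : ℝ) : ℂ) = ((∫ x, V x * ‖ψ j x‖ ^ 2 : ℝ) : ℂ) :=
      integral_ofReal
    rw [i1, i2, ← Complex.ofReal_add] at h
    exact (Complex.ofReal_injective h).symm
  have hsum : ∑ j, |E j| ^ (1 : ℝ) =
      -(∑ j, ∫ x, ‖ψ' j x‖ ^ 2) + ∫ x, -(V x * ρ x) := by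
    have h2 : ∀ x, -(V x * ρ x) = ∑ j, -(V x * ‖ψ j x‖ ^ 2) := by
      intro x
      rw [hρ, Finset.sum_neg_distrib, Finset.mul_sum]
    simp_rw [h2]
    rw [integral_finsetSum (f := fun j x => -(V x * ‖ψ j x‖ ^ 2)) _ (fun j _ => (hVj j).neg)]
    rw [← Finset.sum_neg_distrib, ← Finset.sum_add_distrib]
    apply Finset.sum_congr rfl
    intro j _
    rw [Real.rpow_one, abs_of_neg (hneg j), integral_neg, hEj j]
    ring
  have hVρ : Integrable (fun x => -(V x * ρ x)) volume := by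
    apply hdom.mono'
    · exact (hV.1.mul hρm).neg
    · refine Filter.Eventually.of_forall fun x => ?_
      rw [norm_neg, norm_mul, Real.norm_eq_abs, Real.norm_eq_abs, abs_of_nonneg (hρ0 x)]
  rw [hsum]
  have hfin : ∫ x, -(V x * ρ x) ≤
      ∫ x, (4 / (3 * √3 * Real.pi) * max (-V x) 0 ^ ((1 : ℝ) + 1 / 2) +
        Real.pi ^ 2 / 4 * ρ x ^ 3) := by
    apply integral_mono hVρ ((hVneg.const_mul _).add (hint.const_mul _))
    intro x
    have h1 : -(V x * ρ x) ≤ max (-V x) 0 * ρ x := by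
      have := mul_le_mul_of_nonneg_right (le_max_left (-V x) 0) (hρ0 x)
      linarith
    have h2 := young_sharp (le_max_right (-V x) 0) (hρ0 x)
    show -(V x * ρ x) ≤ 4 / (3 * √3 * Real.pi) * max (-V x) 0 ^ ((1 : ℝ) + 1 / 2) +
        Real.pi ^ 2 / 4 * ρ x ^ 3
    linarith
  rw [integral_add (hVneg.const_mul _) (hint.const_mul _), integral_const_mul,
    integral_const_mul] at hfin
  linarith

end Pool.Agent.LT
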