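import Pool.Agent.LT.Kin
import Pool.Agent.LT.Upper
import Pool.Agent.LT.Pos1
import Pool.Agent.LT.Pos
import Pool.Agent.LT.QPos
import Pool.Agent.LT.PsdKer
import Pool.Agent.LT.Lift1
import Pool.Agent.LT.Slice
import Pool.Agent.LT.Base
import Pool.Agent.LT.AL
import Pool.Agent.LT.Dens
import Pool.Agent.LT.KinH1
import Pool.Agent.LT.Spec
import Pool.Agent.LT.PW
import Pool.Agent.LT.Poly
import Pool.Agent.LT.PW2
import Pool.Agent.LT.Poly2
import Pool.Agent.LT.Calc
import Pool.Agent.LT.Bil

/-!
# Assembly of the Lieb-Thirring modules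
-/

set_option autoImplicit false

namespace Pool.Agent.LT

theorem kinStmt : KinStmt := kin bil (calc_of bil) pw poly

theorem posStmt : PosStmt := pos (qpos psdKer)

theorem upperStmt : UpperStmt := upper kinStmt pos1

/-- dual form of the inequality with exponent `3/2` in all dimensions -/
theorem d3_all (hl : Lift3Stmt) : ∀ d : ℕ, D3 d
  | 0 => base.1
  | d + 1 => hl d (al d (d3_all hl d))

/-- exponent `1` in all dimensions -/
theorem d1_all (hl : Lift3Stmt) : ∀ d : ℕ, 0 < d → D1 d
  | 0, h => absurd h (lt_irrefl 0)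
  | d + 1, _ => lift1 kinStmt posStmt slice d (d3_all hl d)

theorem kinH1Stmt : KinH1Stmt := kinH1 dens

theorem allDimStmt (hl : Lift3Stmt) : AllDimStmt := spec (d1_all hl) kinH1Stmt

end Pool.Agent.LT
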